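import Pool.Agent.IST.RowB
import Pool.Agent.IST4.JoinA

/-!
# ISO by rows: the value at rows `± l / 2` is the value at rows `0` (helper77)

`Φ p q xs` = normalised function of the content `0^p (± l/2)^q` and the extra rows `xs`.

* `Kw h`: the window of the extra rows (imaginary axis up to the height `h + 1`, real rows `|x| ≤ l / 2`);
* `Rows M n h η B F`: one content (`IST4.Good` and annihilation up to `η`);
* `Sys`: all contents with a number of rows between `N / 2` and `2 N`;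
* **`main`**: `‖Φ 0 q [] - Φ (2 j + 2) 0 []‖ ≤ κ (N (B e^{-8h} + η) + B e^{-8h/3} + η)`, `|2 j + 2 - √3 q| ≤ 2`;
* **`main_N`**: the same with `h = (3/8) s log N`, `B = K N^C`, `η = N^{-e}`: at most
  `κ N^{-min(s - C, 3 s - 1 - C, e - 1)}`.
-/

set_option autoImplicit false

noncomputable section

open Complex Set

namespace IST.Alg

open IST.Row

/-- the window of the extra rows -/
def Kw (h : ℝ) : Set ℂ := {x | (x.re = 0 ∧ |x.im| ≤ h + 1) ∨ (|x.re| ≤ Real.pi / 16 ∧ x.im = 0)}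

/-- one content -/
structure Rows (M n : ℕ) (h η B : ℝ) (F : List ℂ → ℂ) : Prop where
  good : IST4.Good (8 / 3) M (3 * Real.pi / 8) h η B (Kw h) n F
  ann : IST4.Ann (3 * Real.pi / 8) n (Kw h) η F

/-- all contents `0^p (± l / 2)^q` with a number of rows between `N / 2` and `2 N` -/
structure Sys (M n N : ℕ) (h η B : ℝ) (Φ : ℕ → ℕ → List ℂ → ℂ) : Prop where
  rows : ∀ p q, N ≤ 2 * (p + 2 * q) → p + 2 * q ≤ 2 * N → Rows M n h η B (Φ p q)
  zero : ∀ p q xs, xs.length + 1 ≤ n → (∀ x ∈ xs, x ∈ Kw h) → Φ (p + 1) q xs = Φ p q (0 :: xs)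
  pair : ∀ p q xs, xs.length + 2 ≤ n → (∀ x ∈ xs, x ∈ Kw h) →
    Φ p (q + 1) xs = Φ p q (((Real.pi / 16 : ℝ) : ℂ) :: (-((Real.pi / 16 : ℝ) : ℂ)) :: xs)

/-- the position of the pair of weight `c` -/
def yc (c : ℝ) : ℂ := by
  classical
  exact if h : √3 ≤ c ∧ c ≤ 4 ∧ c ≠ √3 then (ex_y h.1 h.2.1).choose else ((Real.pi / 16 : ℝ) : ℂ)

theorem yc_sqrt : yc √3 = ((Real.pi / 16 : ℝ) : ℂ) := by
  unfold yc
  rw [dif_neg (by tauto)]

theorem yc_mem {c : ℝ} (h1 : √3 ≤ c) (h2 : c ≤ 4) :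
    ((yc c).re = 0 ∧ |(yc c).im| ≤ 1) ∨ (|(yc c).re| ≤ Real.pi / 16 ∧ (yc c).im = 0) := by
  by_cases h : c = √3
  · rw [h, yc_sqrt]
    right
    rw [ofReal_re, ofReal_im, abs_of_nonneg (by positivity)]
    exact ⟨le_rfl, rfl⟩
  · unfold yc
    rw [dif_pos ⟨h1, h2, h⟩]
    exact (ex_y h1 h2).choose_spec.1

theorem yc_eq {c : ℝ} (h1 : √3 ≤ c) (h2 : c ≤ 4) : xv (yc c) + (xv (yc c))⁻¹ = c := by
  by_cases h : c = √3
  · rw [h, yc_sqrt]
    exact pair_l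
  · unfold yc
    rw [dif_pos ⟨h1, h2, h⟩]
    exact (ex_y h1 h2).choose_spec.2

theorem mem_neg {h : ℝ} {x : ℂ} (hx : x ∈ Kw h) : -x ∈ Kw h := by
  unfold Kw at *
  simp only [mem_ofPred_eq, neg_re, neg_im, abs_neg, neg_eq_zero] at *
  exact hx

/-- points of the window of height `1` -/
def W1 (x : ℂ) : Prop := (x.re = 0 ∧ |x.im| ≤ 1) ∨ (|x.re| ≤ Real.pi / 16 ∧ x.im = 0)

theorem W1.neg {x : ℂ} (hx : W1 x) : W1 (-x) := by
  unfold W1 at *
  simp only [neg_re, neg_im, abs_neg, neg_eq_zero] at *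
  exact hx

theorem W1.mem {h : ℝ} (hh : 0 ≤ h) {x : ℂ} (hx : W1 x) : x ∈ Kw h := by
  rcases hx with ⟨h1, h2⟩ | h1
  · exact Or.inl ⟨h1, by linarith⟩
  · exact Or.inr h1

theorem W1.box {x : ℂ} (hx : W1 x) : |x.re| ≤ 3 * Real.pi / 8 ∧ |x.im| ≤ 1 := by
  have hp := Real.pi_pos
  rcases hx with ⟨h1, h2⟩ | ⟨h1, h2⟩
  · rw [h1, abs_zero]
    exact ⟨by positivity, h2⟩
  · rw [h2, abs_zero]
    exact ⟨by linarith, zero_le_one⟩

theorem W1_half : W1 ((Real.pi / 16 : ℝ) : ℂ) := by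
  right
  rw [ofReal_re, ofReal_im, abs_of_nonneg (by positivity)]
  exact ⟨le_rfl, rfl⟩

theorem W1_zero : W1 0 := by
  left
  simp

theorem W1_yc {c : ℝ} (h1 : √3 ≤ c) (h2 : c ≤ 4) : W1 (yc c) := yc_mem h1 h2

/-- the three facts about the extra rows of one content -/
structure XF (δ φ : ℝ) (F : List ℂ → ℂ) : Prop where
  two : ∀ c : ℝ, 2 ≤ c → c ≤ 4 →
    ‖F [((Real.pi / 16 : ℝ) : ℂ), -((Real.pi / 16 : ℝ) : ℂ), yc c, -yc c] -
      F [0, 0, yc (c + √3 - 2), -yc (c + √3 - 2)]‖ ≤ δ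
  zero : ∀ c : ℝ, √3 ≤ c → c ≤ 2 →
    ‖F [((Real.pi / 16 : ℝ) : ℂ), -((Real.pi / 16 : ℝ) : ℂ), yc c, -yc c] -
      F [yc (c + √3), -yc (c + √3)]‖ ≤ δ
  flat : ∀ c : ℝ, √3 ≤ c → c ≤ 4 → ‖F [yc c, -yc c] - F [0, 0]‖ ≤ φ

theorem sqrt3_gt' : (17 / 10 : ℝ) < √3 := by
  rw [Real.lt_sqrt (by norm_num)]; norm_num

theorem sqrt3_lt' : √3 < (18 / 10 : ℝ) := by
  rw [Real.sqrt_lt' (by norm_num)]; norm_num

theorem norm_c {c : ℝ} (h1 : √3 ≤ c) (h2 : c ≤ 4) : ‖(c : ℂ)‖ ≤ 4 := by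
  have h3 := sqrt3_gt'
  rw [norm_real, Real.norm_eq_abs, abs_of_nonneg (by linarith)]
  exact h2

/-- **the exchanges** -/
theorem xf_of (M : ℕ) (hM : 4 ≤ M) : ∃ κ : ℝ, 0 < κ ∧ ∀ (h η B : ℝ) (F : List ℂ → ℂ), 0 ≤ h → 0 ≤ η → 0 ≤ B →
    Rows M 4 h η B F → XF (κ * (B * Real.exp (-(8 * h)) + η)) (κ * (B * Real.exp (-(8 / 3 * h)) + η)) F := by
  obtain ⟨κ, hκ, hgood⟩ := IST4.rowA_good M 4 hM
  set P : ℝ := (2 * M + 1) * Real.exp (8 / 3) ^ M with hP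
  have hP0 : 0 ≤ P := by positivity
  have hCE := CE0 M
  have hw0 : 0 ≤ wX (2 * M) I := wX0 _ _
  refine ⟨κ * (RowA.CE M * 4 + wX (2 * M) I * P ^ 2 + 2 * P ^ 2 + 2), ?_, fun h η B F hh hη hB hF => ?_⟩
  · have := RowA.CE0 M
    positivity
  have hCE' := RowA.CE0 M
  obtain ⟨c, hc, hv⟩ := hgood (3 * Real.pi / 8) h η B (Kw h) F le_rfl hh hη hB hF.good
    (fun t ht => Or.inl ⟨by simp, by simpa using ht⟩) hF.ann
  set e := Real.exp (-(8 / 3 * h)) with he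
  have he3 : e ^ 3 = Real.exp (-(8 * h)) := by
    rw [he, ← Real.exp_nat_mul]
    congr 1
    push_cast
    ring
  have hval : ∀ xs : List ℂ, xs.length ≤ 4 → (∀ x ∈ xs, W1 x) → ‖F xs - pe M (xs.map xv) c‖ ≤ κ * η := by
    intro xs h1 h2
    exact hv xs h1 (fun x hx => (h2 x hx).box) (fun x hx => (h2 x (List.mem_of_mem_tail hx)).mem hh)
  have h3 := sqrt3_gt'
  have h3' := sqrt3_lt'
  have hxl := pair_l
  have he3' : e3 (κ * B) e (κ * η) = κ * (B * Real.exp (-(8 * h)) + η) := by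
    unfold e3
    rw [he3]
    ring
  have hE0 : 0 ≤ B * Real.exp (-(8 * h)) + η := by positivity
  have hE1 : 0 ≤ B * Real.exp (-(8 / 3 * h)) + η := by positivity
  -- the four lists
  have m4 : ∀ y z : ℂ, ([y, -y, z, -z] : List ℂ).map xv = [xv y, (xv y)⁻¹, xv z, (xv z)⁻¹] := by
    intro y z
    simp [xv_neg]
  have m2 : ∀ y : ℂ, ([y, -y] : List ℂ).map xv = [xv y, (xv y)⁻¹] := by
    intro y
    simp [xv_neg]
  have w4 : ∀ y z : ℂ, W1 y → W1 z → ∀ x ∈ ([y, -y, z, -z] : List ℂ), W1 x := by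
    intro y z hy hz x hx
    simp only [List.mem_cons, List.not_mem_nil, or_false] at hx
    rcases hx with rfl | rfl | rfl | rfl
    · exact hy
    · exact hy.neg
    · exact hz
    · exact hz.neg
  have w2 : ∀ y : ℂ, W1 y → ∀ x ∈ ([y, -y] : List ℂ), W1 x := by
    intro y hy x hx
    simp only [List.mem_cons, List.not_mem_nil, or_false] at hx
    rcases hx with rfl | rfl
    · exact hy
    · exact hy.neg
  have pb2 : ∀ y : ℂ, W1 y → pb M [xv y, (xv y)⁻¹] ≤ P ^ 2 := by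
    intro y hy
    have h1 := pb_xv M [y, -y] (fun x hx => ((w2 y hy x hx).box).2)
    rw [m2] at h1
    exact h1
  have z0 : (-(0 : ℂ)) = 0 := neg_zero
  refine ⟨fun a ha1 ha2 => ?_, fun a ha1 ha2 => ?_, fun a ha1 ha2 => ?_⟩
  · have hy := W1_yc (c := a) (by linarith) ha2
    have hy' := W1_yc (c := a + √3 - 2) (by linarith) (by linarith)
    have e1 := yc_eq (c := a) (by linarith) ha2
    have e2 := yc_eq (c := a + √3 - 2) (by linarith) (by linarith)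
    have v1 := hval [((Real.pi / 16 : ℝ) : ℂ), -((Real.pi / 16 : ℝ) : ℂ), yc a, -yc a] (by simp)
      (w4 _ _ W1_half hy)
    have v2 := hval [0, 0, yc (a + √3 - 2), -yc (a + √3 - 2)] (by simp) (by
      have := w4 0 _ W1_zero hy'
      rw [z0] at this
      exact this)
    rw [m4] at v1
    have m4' := m4 0 (yc (a + √3 - 2))
    rw [z0] at m4'
    rw [m4'] at v2
    have n1 : ‖xv ((Real.pi / 16 : ℝ) : ℂ) + (xv ((Real.pi / 16 : ℝ) : ℂ))⁻¹‖ ≤ 4 := by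
      rw [hxl]
      exact norm_c le_rfl (by linarith)
    have n2 : ‖xv (yc a) + (xv (yc a))⁻¹‖ ≤ 4 := by
      rw [e1]
      exact norm_c (by linarith) ha2
    have n3 : ‖xv 0 + (xv 0)⁻¹‖ ≤ 4 := by
      rw [xv_zero]
      norm_num
    have n4 : ‖xv (yc (a + √3 - 2)) + (xv (yc (a + √3 - 2)))⁻¹‖ ≤ 4 := by
      rw [e2]
      exact norm_c (by linarith) (by linarith)
    have g := hc.EX_two le_rfl (xv_ne ((Real.pi / 16 : ℝ) : ℂ)) (xv_ne (yc a)) (xv_ne 0)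
      (xv_ne (yc (a + √3 - 2))) n1 n2 n3 n4 (by
        rw [hxl, e1, e2, xv_zero]
        push_cast
        norm_num
        ring)
    have n5 : ‖(xv ((Real.pi / 16 : ℝ) : ℂ) + (xv ((Real.pi / 16 : ℝ) : ℂ))⁻¹) - (xv 0 + (xv 0)⁻¹)‖ ≤ 4 := by
      rw [hxl, xv_zero]
      have : ((√3 : ℝ) : ℂ) - (1 + 1⁻¹) = ((√3 - 2 : ℝ) : ℂ) := by
        push_cast
        norm_num
      rw [this, norm_real, Real.norm_eq_abs, abs_le]
      constructor <;> linarith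
    rw [he3'] at g
    have g' : ‖pe M [xv ((Real.pi / 16 : ℝ) : ℂ), (xv ((Real.pi / 16 : ℝ) : ℂ))⁻¹, xv (yc a), (xv (yc a))⁻¹] c -
        pe M [xv 0, (xv 0)⁻¹, xv (yc (a + √3 - 2)), (xv (yc (a + √3 - 2)))⁻¹] c‖ ≤
        RowA.CE M * (κ * (B * Real.exp (-(8 * h)) + η)) * 4 :=
      g.trans (mul_le_mul_of_nonneg_left n5 (by positivity))
    set A1 := F [((Real.pi / 16 : ℝ) : ℂ), -((Real.pi / 16 : ℝ) : ℂ), yc a, -yc a]
    set A2 := F [0, 0, yc (a + √3 - 2), -yc (a + √3 - 2)]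
    set B1 := pe M [xv ((Real.pi / 16 : ℝ) : ℂ), (xv ((Real.pi / 16 : ℝ) : ℂ))⁻¹, xv (yc a), (xv (yc a))⁻¹] c
    set B2 := pe M [xv 0, (xv 0)⁻¹, xv (yc (a + √3 - 2)), (xv (yc (a + √3 - 2)))⁻¹] c
    have e5 : A1 - A2 = (A1 - B1) + (B1 - B2) - (A2 - B2) := by ring
    rw [e5]
    refine (norm_sub_le _ _).trans ((add_le_add_left (norm_add_le _ _) _).trans ?_)
    have hη1 : η ≤ B * Real.exp (-(8 * h)) + η := by
      have : 0 ≤ B * Real.exp (-(8 * h)) := by positivity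
      linarith
    have hη2 : κ * η ≤ κ * (B * Real.exp (-(8 * h)) + η) := mul_le_mul_of_nonneg_left hη1 hκ.le
    have hz : 0 ≤ κ * (B * Real.exp (-(8 * h)) + η) := by positivity
    have q1 : 0 ≤ wX (2 * M) I * P ^ 2 + 2 * P ^ 2 := by positivity
    calc _ ≤ κ * η + RowA.CE M * (κ * (B * Real.exp (-(8 * h)) + η)) * 4 + κ * η := by linarith
      _ ≤ κ * (B * Real.exp (-(8 * h)) + η) * (RowA.CE M * 4 + 2) := by linarith
      _ ≤ κ * (B * Real.exp (-(8 * h)) + η) * (RowA.CE M * 4 + wX (2 * M) I * P ^ 2 + 2 * P ^ 2 + 2) :=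
          mul_le_mul_of_nonneg_left (by linarith) hz
      _ = _ := by ring
  · have hy := W1_yc (c := a) (by linarith) (by linarith)
    have hy' := W1_yc (c := a + √3) (by linarith) (by linarith)
    have e1 := yc_eq (c := a) (by linarith) (by linarith)
    have e2 := yc_eq (c := a + √3) (by linarith) (by linarith)
    have v1 := hval [((Real.pi / 16 : ℝ) : ℂ), -((Real.pi / 16 : ℝ) : ℂ), yc a, -yc a] (by simp)
      (w4 _ _ W1_half hy)
    have v2 := hval [yc (a + √3), -yc (a + √3)] (by simp) (w2 _ hy')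
    rw [m4] at v1
    rw [m2] at v2
    have n1 : ‖xv ((Real.pi / 16 : ℝ) : ℂ) + (xv ((Real.pi / 16 : ℝ) : ℂ))⁻¹‖ ≤ 4 := by
      rw [hxl]
      exact norm_c le_rfl (by linarith)
    have n2 : ‖xv (yc a) + (xv (yc a))⁻¹‖ ≤ 4 := by
      rw [e1]
      exact norm_c (by linarith) (by linarith)
    have n4 : ‖xv (yc (a + √3)) + (xv (yc (a + √3)))⁻¹‖ ≤ 4 := by
      rw [e2]
      exact norm_c (by linarith) (by linarith)
    have g := hc.EX_zero le_rfl (xv_ne ((Real.pi / 16 : ℝ) : ℂ)) (xv_ne (yc a))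
      (xv_ne (yc (a + √3))) n1 n2 n4 (by
        rw [hxl, e1, e2]
        push_cast
        ring)
    rw [he3'] at g
    have g' : ‖pe M [xv ((Real.pi / 16 : ℝ) : ℂ), (xv ((Real.pi / 16 : ℝ) : ℂ))⁻¹, xv (yc a), (xv (yc a))⁻¹] c -
        pe M [xv (yc (a + √3)), (xv (yc (a + √3)))⁻¹] c‖ ≤
        RowA.CE M * (κ * (B * Real.exp (-(8 * h)) + η)) * 4 + wX (2 * M) I * (P ^ 2 * (κ * η)) := by
      refine g.trans (add_le_add (mul_le_mul_of_nonneg_left n1 (by positivity)) ?_)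
      exact mul_le_mul_of_nonneg_left (mul_le_mul_of_nonneg_right (pb2 _ hy') (by positivity)) hw0
    set A1 := F [((Real.pi / 16 : ℝ) : ℂ), -((Real.pi / 16 : ℝ) : ℂ), yc a, -yc a]
    set A2 := F [yc (a + √3), -yc (a + √3)]
    set B1 := pe M [xv ((Real.pi / 16 : ℝ) : ℂ), (xv ((Real.pi / 16 : ℝ) : ℂ))⁻¹, xv (yc a), (xv (yc a))⁻¹] c
    set B2 := pe M [xv (yc (a + √3)), (xv (yc (a + √3)))⁻¹] c
    have e5 : A1 - A2 = (A1 - B1) + (B1 - B2) - (A2 - B2) := by ring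
    rw [e5]
    refine (norm_sub_le _ _).trans ((add_le_add_left (norm_add_le _ _) _).trans ?_)
    have hη1 : η ≤ B * Real.exp (-(8 * h)) + η := by
      have : 0 ≤ B * Real.exp (-(8 * h)) := by positivity
      linarith
    have hη2 : κ * η ≤ κ * (B * Real.exp (-(8 * h)) + η) := mul_le_mul_of_nonneg_left hη1 hκ.le
    have hz : 0 ≤ κ * (B * Real.exp (-(8 * h)) + η) := by positivity
    have q1 : 0 ≤ 2 * P ^ 2 := by positivity
    have q2 : wX (2 * M) I * (P ^ 2 * (κ * η)) ≤ wX (2 * M) I * (P ^ 2 * (κ * (B * Real.exp (-(8 * h)) + η))) :=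
      mul_le_mul_of_nonneg_left (mul_le_mul_of_nonneg_left hη2 (by positivity)) hw0
    calc _ ≤ κ * η + (RowA.CE M * (κ * (B * Real.exp (-(8 * h)) + η)) * 4 +
          wX (2 * M) I * (P ^ 2 * (κ * η))) + κ * η := by linarith
      _ ≤ κ * (B * Real.exp (-(8 * h)) + η) * (RowA.CE M * 4 + wX (2 * M) I * P ^ 2 + 2) := by linarith
      _ ≤ κ * (B * Real.exp (-(8 * h)) + η) * (RowA.CE M * 4 + wX (2 * M) I * P ^ 2 + 2 * P ^ 2 + 2) :=
          mul_le_mul_of_nonneg_left (by linarith) hz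
      _ = _ := by ring
  · have hy := W1_yc (c := a) (by linarith) ha2
    have v1 := hval [yc a, -yc a] (by simp) (w2 _ hy)
    have v2 := hval [0, 0] (by simp) (by
      have := w2 0 W1_zero
      rw [z0] at this
      exact this)
    rw [m2] at v1
    have m2' := m2 0
    rw [z0] at m2'
    rw [m2'] at v2
    have g := hc.flat (l := [xv (yc a), (xv (yc a))⁻¹]) (l' := [xv 0, (xv 0)⁻¹]) (by simp) (by simp)
    have hz1 : 0 ≤ κ * B * e + κ * η := by positivity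
    have g' : ‖pe M [xv (yc a), (xv (yc a))⁻¹] c - pe M [xv 0, (xv 0)⁻¹] c‖ ≤
        (P ^ 2 + P ^ 2) * (κ * B * e + κ * η) :=
      g.trans (mul_le_mul_of_nonneg_right (add_le_add (pb2 _ hy) (pb2 _ W1_zero)) hz1)
    set A1 := F [yc a, -yc a]
    set A2 := F [0, 0]
    set B1 := pe M [xv (yc a), (xv (yc a))⁻¹] c
    set B2 := pe M [xv 0, (xv 0)⁻¹] c
    have e5 : A1 - A2 = (A1 - B1) + (B1 - B2) - (A2 - B2) := by ring
    rw [e5]
    refine (norm_sub_le _ _).trans ((add_le_add_left (norm_add_le _ _) _).trans ?_)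
    have hη1 : η ≤ B * Real.exp (-(8 / 3 * h)) + η := by
      have : 0 ≤ B * Real.exp (-(8 / 3 * h)) := by positivity
      linarith
    have hη2 : κ * η ≤ κ * (B * Real.exp (-(8 / 3 * h)) + η) := mul_le_mul_of_nonneg_left hη1 hκ.le
    have hz : 0 ≤ κ * (B * Real.exp (-(8 / 3 * h)) + η) := by positivity
    have q1 : 0 ≤ RowA.CE M * 4 + wX (2 * M) I * P ^ 2 := by positivity
    calc _ ≤ κ * η + (P ^ 2 + P ^ 2) * (κ * B * e + κ * η) + κ * η := by linarith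
      _ ≤ κ * (B * Real.exp (-(8 / 3 * h)) + η) * (2 * P ^ 2 + 2) := by
          have : (P ^ 2 + P ^ 2) * (κ * B * e + κ * η) = 2 * P ^ 2 * (κ * (B * Real.exp (-(8 / 3 * h)) + η)) := by
            rw [he]
            ring
          linarith
      _ ≤ κ * (B * Real.exp (-(8 / 3 * h)) + η) * (RowA.CE M * 4 + wX (2 * M) I * P ^ 2 + 2 * P ^ 2 + 2) :=
          mul_le_mul_of_nonneg_left (by linarith) hz
      _ = _ := by ring

/-- **the value at rows `± l / 2` is the value at rows `0`** -/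
theorem main (M : ℕ) (hM : 4 ≤ M) : ∃ κ : ℝ, 0 < κ ∧ ∀ (N : ℕ) (h η B : ℝ) (Φ : ℕ → ℕ → List ℂ → ℂ),
    0 ≤ h → 0 ≤ η → 0 ≤ B → Sys M 4 N h η B Φ → ∀ q : ℕ, q ≤ N → N + 12 ≤ 3 * q →
    ∃ j : ℕ, j ≤ q ∧ √3 * q - 2 ≤ (2 * j + 2 : ℕ) ∧ ((2 * j + 2 : ℕ) : ℝ) ≤ √3 * q + 2 - √3 ∧
      ‖Φ 0 q [] - Φ (2 * j + 2) 0 []‖ ≤ κ * (N * (B * Real.exp (-(8 * h)) + η) +
        (B * Real.exp (-(8 / 3 * h)) + η)) := by
  obtain ⟨κ, hκ, hX⟩ := xf_of M hM
  refine ⟨κ, hκ, fun N h η B Φ hh hη hB hS q hqN hq => ?_⟩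
  have h3 := sqrt3_gt'
  have h3' := sqrt3_lt'
  have hs3 : √3 * √3 = 3 := Real.mul_self_sqrt (by norm_num)
  have hq1 : 1 ≤ q := by omega
  have hNq : (N : ℝ) + 12 ≤ 3 * q := by exact_mod_cast hq
  have hqN' : (q : ℝ) ≤ N := by exact_mod_cast hqN
  set δ := κ * (B * Real.exp (-(8 * h)) + η) with hδ
  have hδ0 : 0 ≤ δ := by positivity
  -- the contents of the chain
  have hwin : ∀ (p r : ℕ) (c : ℝ), √3 ≤ c → c ≤ 6 → (p : ℝ) + √3 * r + c = √3 * q →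
      XF δ (κ * (B * Real.exp (-(8 / 3 * h)) + η)) (Φ p r) := by
    intro p r c hc1 hc2 hV
    refine hX h η B (Φ p r) hh hη hB (hS.rows p r ?_ ?_)
    · have : (N : ℝ) ≤ 2 * (p + 2 * r) := by nlinarith [Nat.cast_nonneg (α := ℝ) r]
      exact_mod_cast this
    · have h5 : √3 * ((p : ℝ) + 2 * r) ≤ √3 * (2 * N) := by
        nlinarith [Nat.cast_nonneg (α := ℝ) p, Nat.cast_nonneg (α := ℝ) r]
      have : (p : ℝ) + 2 * r ≤ 2 * N := le_of_mul_le_mul_left h5 (by linarith)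
      exact_mod_cast this
  have hyK : ∀ c : ℝ, √3 ≤ c → c ≤ 4 → ∀ x ∈ ([yc c, -yc c] : List ℂ), x ∈ Kw h := by
    intro c h1 h2 x hx
    simp only [List.mem_cons, List.not_mem_nil, or_false] at hx
    rcases hx with rfl | rfl
    · exact (W1_yc h1 h2).mem hh
    · exact (W1_yc h1 h2).neg.mem hh
  set G : ℕ → ℕ → ℝ → ℂ := fun p r c => Φ p r [yc c, -yc c] with hG
  have hE : Exch0 G (√3 * q) δ := by
    refine ⟨fun p r c h1 h2 hV => ?_, fun p r c h1 h2 hV => ?_⟩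
    · have hXF := hwin p r (c + √3) (by linarith) (by linarith) (by linarith)
      have g := hXF.two c h1 h2
      have e1 : G p (r + 1) c = Φ p r [((Real.pi / 16 : ℝ) : ℂ), -((Real.pi / 16 : ℝ) : ℂ), yc c, -yc c] :=
        hS.pair p r _ (by simp) (hyK c (by linarith) h2)
      have e2 : G (p + 2) r (c + √3 - 2) = Φ p r [0, 0, yc (c + √3 - 2), -yc (c + √3 - 2)] := by
        have hK := hyK (c + √3 - 2) (by linarith) (by linarith)
        have e3 : Φ (p + 1 + 1) r [yc (c + √3 - 2), -yc (c + √3 - 2)] =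
            Φ (p + 1) r [0, yc (c + √3 - 2), -yc (c + √3 - 2)] :=
          hS.zero (p + 1) r _ (by simp) hK
        have e4 : Φ (p + 1) r [0, yc (c + √3 - 2), -yc (c + √3 - 2)] =
            Φ p r [0, 0, yc (c + √3 - 2), -yc (c + √3 - 2)] :=
          hS.zero p r _ (by simp) (fun x hx => by
            rcases List.mem_cons.1 hx with rfl | hx
            · exact W1_zero.mem hh
            · exact hK x hx)
        exact e3.trans e4
      rw [e1, e2]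
      exact g
    · have hXF := hwin p r (c + √3) (by linarith) (by linarith) (by linarith)
      have g := hXF.zero c h1 h2
      have e1 : G p (r + 1) c = Φ p r [((Real.pi / 16 : ℝ) : ℂ), -((Real.pi / 16 : ℝ) : ℂ), yc c, -yc c] :=
        hS.pair p r _ (by simp) (hyK c (by linarith) (by linarith))
      rw [e1]
      exact g
  obtain ⟨r, rfl⟩ : ∃ r, q = r + 1 := ⟨q - 1, by omega⟩
  obtain ⟨j, c', h1, h2, h4, h5, h6⟩ := chain0 hE r 0 √3 le_rfl (by linarith) (by push_cast; ring)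
  have e0 : G 0 r √3 = Φ 0 (r + 1) [] := by
    have := hS.pair 0 r [] (by simp) (by simp)
    rw [hG]
    simp only
    rw [yc_sqrt, this]
  rw [e0, zero_add] at h6
  have hXF := hwin (2 * j) 0 c' h2 (by linarith) (by
    rw [zero_add] at h5
    push_cast at h5 ⊢
    linarith)
  have g2 := hXF.flat c' h2 h4
  have e1 : Φ (2 * j + 2) 0 [] = Φ (2 * j) 0 [0, 0] := by
    have e3 : Φ (2 * j + 1 + 1) 0 [] = Φ (2 * j + 1) 0 [0] := hS.zero (2 * j + 1) 0 _ (by simp) (by simp)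
    have e4 : Φ (2 * j + 1) 0 [0] = Φ (2 * j) 0 [0, 0] := hS.zero (2 * j) 0 _ (by simp) (fun x hx => by
      rw [List.mem_singleton.1 hx]
      exact W1_zero.mem hh)
    exact e3.trans e4
  refine ⟨j, by omega, ?_, ?_, ?_⟩
  · push_cast at h5 ⊢
    linarith
  · push_cast at h5 ⊢
    linarith
  · rw [e1]
    have h7 : ‖Φ 0 (r + 1) [] - Φ (2 * j) 0 [0, 0]‖ ≤ r * δ + κ * (B * Real.exp (-(8 / 3 * h)) + η) := by
      refine (norm_sub_le_norm_sub_add_norm_sub _ (G (2 * j) 0 c') _).trans (add_le_add h6 ?_)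
      exact g2
    refine h7.trans ?_
    have h8 : (r : ℝ) * δ ≤ N * δ := mul_le_mul_of_nonneg_right (by push_cast at hqN'; linarith) hδ0
    calc _ ≤ N * δ + κ * (B * Real.exp (-(8 / 3 * h)) + η) := add_le_add_left h8 _
      _ = _ := by
        rw [hδ]
        ring

/-- **the same in powers of `N`**: `h = (3/8) s log N`, `B = K N^C`, `η = N^{-e}` -/
theorem main_N (M : ℕ) (hM : 4 ≤ M) {s C e c₀ K : ℝ} (hs : 0 ≤ s) (hK : 0 ≤ K) (h1 : c₀ ≤ s - C)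
    (h2 : c₀ ≤ 3 * s - 1 - C) (h3 : c₀ ≤ e - 1) : ∃ κ : ℝ, 0 < κ ∧ ∀ (N : ℕ) (Φ : ℕ → ℕ → List ℂ → ℂ),
    1 ≤ N → Sys M 4 N (3 / 8 * (s * Real.log N)) ((N : ℝ) ^ (-e)) (K * (N : ℝ) ^ C) Φ →
    ∀ q : ℕ, q ≤ N → N + 12 ≤ 3 * q →
    ∃ j : ℕ, j ≤ q ∧ √3 * q - 2 ≤ (2 * j + 2 : ℕ) ∧ ((2 * j + 2 : ℕ) : ℝ) ≤ √3 * q + 2 - √3 ∧
      ‖Φ 0 q [] - Φ (2 * j + 2) 0 []‖ ≤ κ * (N : ℝ) ^ (-c₀) := by
  obtain ⟨κ, hκ, hm⟩ := main M hM
  refine ⟨κ * (2 * K + 2), by positivity, fun N Φ hN hS q hq1 hq2 => ?_⟩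
  have hN1 : (1 : ℝ) ≤ N := by exact_mod_cast hN
  have hN0 : (0 : ℝ) < N := by linarith
  have hlog : 0 ≤ Real.log N := Real.log_nonneg hN1
  obtain ⟨j, h4, h5, h6, h7⟩ := hm N _ _ _ Φ (by positivity) (by positivity) (by positivity) hS q hq1 hq2
  refine ⟨j, h4, h5, h6, h7.trans ?_⟩
  have e1 : Real.exp (-(8 * (3 / 8 * (s * Real.log N)))) = (N : ℝ) ^ (-(3 * s)) := by
    rw [Real.rpow_def_of_pos hN0]
    congr 1
    ring
  have e2 : Real.exp (-(8 / 3 * (3 / 8 * (s * Real.log N)))) = (N : ℝ) ^ (-s) := by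
    rw [Real.rpow_def_of_pos hN0]
    congr 1
    ring
  have g1 : (N : ℝ) * (K * (N : ℝ) ^ C * (N : ℝ) ^ (-(3 * s))) ≤ K * (N : ℝ) ^ (-c₀) := by
    have e3 : (N : ℝ) * (K * (N : ℝ) ^ C * (N : ℝ) ^ (-(3 * s))) = K * (N : ℝ) ^ (1 + C + -(3 * s)) := by
      rw [Real.rpow_add hN0, Real.rpow_add hN0, Real.rpow_one]
      ring
    rw [e3]
    exact mul_le_mul_of_nonneg_left (Real.rpow_le_rpow_of_exponent_le hN1 (by linarith)) hK
  have g2 : K * (N : ℝ) ^ C * (N : ℝ) ^ (-s) ≤ K * (N : ℝ) ^ (-c₀) := by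
    rw [mul_assoc, ← Real.rpow_add hN0]
    exact mul_le_mul_of_nonneg_left (Real.rpow_le_rpow_of_exponent_le hN1 (by linarith)) hK
  have g3 : (N : ℝ) * (N : ℝ) ^ (-e) ≤ (N : ℝ) ^ (-c₀) := by
    have e3 : (N : ℝ) * (N : ℝ) ^ (-e) = (N : ℝ) ^ (1 + -e) := by
      rw [Real.rpow_add hN0, Real.rpow_one]
    rw [e3]
    exact Real.rpow_le_rpow_of_exponent_le hN1 (by linarith)
  have g4 : (N : ℝ) ^ (-e) ≤ (N : ℝ) ^ (-c₀) := Real.rpow_le_rpow_of_exponent_le hN1 (by linarith)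
  rw [e1, e2]
  have g5 : (N : ℝ) * (K * (N : ℝ) ^ C * (N : ℝ) ^ (-(3 * s)) + (N : ℝ) ^ (-e)) +
      (K * (N : ℝ) ^ C * (N : ℝ) ^ (-s) + (N : ℝ) ^ (-e)) ≤ (2 * K + 2) * (N : ℝ) ^ (-c₀) := by
    rw [mul_add]
    linarith
  calc _ ≤ κ * ((2 * K + 2) * (N : ℝ) ^ (-c₀)) := mul_le_mul_of_nonneg_left g5 hκ.le
    _ = _ := by ring

end IST.Alg

end
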