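import Mathlib.Analysis.SpecialFunctions.Pow.Real
import Mathlib.Analysis.Complex.Basic

/-!
# ISO by rows, stage A: the chain of exchanges from rows `± l / 2` to rows `0`

`G p q c` = the function of `p` rows `0`, `q` pairs `± l / 2` and one pair `± y`, `2 cos (w y) = c`
(so a pair `± l / 2` has weight `√3`, a row `0` weight `1`, the last pair weight `c`).

* `step2`: one pair `± l / 2` against two rows `0`; `step1`: one pair `± l / 2` against one row `0`;
* **`chainA`**: if both exchanges at fixed total weight `V` cost at most `δ`, then `G p q c` and some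
  `G p' 0 c'`, `√3 ≤ c' ≤ 33/10`, `p' + c' = V`, differ by at most `q δ`.
-/

set_option autoImplicit false

noncomputable section

namespace IST

/-- the two exchanges at total weight `V` -/
structure Exch (G : ℕ → ℕ → ℝ → ℂ) (V δ : ℝ) : Prop where
  /-- one pair `± l / 2` against two rows `0` -/
  two : ∀ (p q : ℕ) (c : ℝ), Real.sqrt 3 ≤ c → c ≤ 33 / 10 → √3 ≤ c + √3 - 2 →
    (p : ℝ) + √3 * (q + 1) + c = V → ‖G p (q + 1) c - G (p + 2) q (c + √3 - 2)‖ ≤ δ
  /-- one pair `± l / 2` against one row `0` -/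
  one : ∀ (p q : ℕ) (c : ℝ), Real.sqrt 3 ≤ c → c ≤ 33 / 10 → c + √3 - 1 ≤ 33 / 10 →
    (p : ℝ) + √3 * (q + 1) + c = V → ‖G p (q + 1) c - G (p + 1) q (c + √3 - 1)‖ ≤ δ

lemma sqrt3_gt : (17 / 10 : ℝ) < √3 := by
  rw [Real.lt_sqrt (by norm_num)]; norm_num

lemma sqrt3_lt : √3 < (18 / 10 : ℝ) := by
  rw [Real.sqrt_lt' (by norm_num)]; norm_num

/-- **the chain of exchanges** -/
theorem chainA {G : ℕ → ℕ → ℝ → ℂ} {V δ : ℝ} (h : Exch G V δ) :
    ∀ (q p : ℕ) (c : ℝ), √3 ≤ c → c ≤ 33 / 10 → (p : ℝ) + √3 * q + c = V →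
      ∃ (p' : ℕ) (c' : ℝ), p ≤ p' ∧ p' ≤ p + 2 * q ∧ √3 ≤ c' ∧ c' ≤ 33 / 10 ∧ (p' : ℝ) + c' = V ∧
        ‖G p q c - G p' 0 c'‖ ≤ q * δ := by
  have h3 := sqrt3_gt
  have h3' := sqrt3_lt
  intro q
  induction q with
  | zero =>
    intro p c hc hc' hV
    refine ⟨p, c, le_rfl, by omega, hc, hc', ?_, ?_⟩
    · push_cast at hV
      linarith
    · simp
  | succ q ih =>
    intro p c hc hc' hV
    have hV' : (p : ℝ) + √3 * (q + 1) + c = V := by
      push_cast at hV
      linarith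
    by_cases h25 : c ≤ 5 / 2
    · obtain ⟨p', c', h1, h2, h4, h5, h6, h7⟩ := ih (p + 1) (c + √3 - 1) (by linarith) (by linarith)
        (by push_cast; linarith)
      refine ⟨p', c', by omega, by omega, h4, h5, h6, ?_⟩
      have h8 := h.one p q c hc hc' (by linarith) hV'
      calc ‖G p (q + 1) c - G p' 0 c'‖ =
          ‖(G p (q + 1) c - G (p + 1) q (c + √3 - 1)) + (G (p + 1) q (c + √3 - 1) - G p' 0 c')‖ := by
            congr 1; ring
        _ ≤ δ + q * δ := (norm_add_le _ _).trans (add_le_add h8 h7)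
        _ = ((q + 1 : ℕ) : ℝ) * δ := by push_cast; ring
    · push Not at h25
      obtain ⟨p', c', h1, h2, h4, h5, h6, h7⟩ := ih (p + 2) (c + √3 - 2) (by linarith) (by linarith)
        (by push_cast; linarith)
      refine ⟨p', c', by omega, by omega, h4, h5, h6, ?_⟩
      have h8 := h.two p q c hc hc' (by linarith) hV'
      calc ‖G p (q + 1) c - G p' 0 c'‖ =
          ‖(G p (q + 1) c - G (p + 2) q (c + √3 - 2)) + (G (p + 2) q (c + √3 - 2) - G p' 0 c')‖ := by
            congr 1; ring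
        _ ≤ δ + q * δ := (norm_add_le _ _).trans (add_le_add h8 h7)
        _ = ((q + 1 : ℕ) : ℝ) * δ := by push_cast; ring

end IST

end
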