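import Pool.Agent.IST.TopRU

/-!
# Any class at fixed half quanta, for a family of seas (`clsRF`, `clsRU`, `clsRF0`)

* `ClsAt`: near groups `g` (at most two), `N + aX`, `N + aY` quanta, any one body functions `Z` which are
  dominated by one body data `B'` that agree with `(G.B m β).mul (spF g)` on `DomC`: the sum over the
  numbers of quanta and over the objects, with a statistic and weights of the objects;
* **`clsRF`**: uniform in a family of seas and geometries (hypotheses of `topRF`);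
* **`clsRF0`**: no group (`n = 0`): the class without half quanta (the legs are part of the geometry).
-/

set_option autoImplicit false
set_option linter.unusedSectionVars false
set_option linter.unusedVariables false

noncomputable section

open Complex MeasureTheory Finset
open scoped ENNReal

namespace Pool.Agent.IST

open NUGC PBO PBF PotH PBR PBI
open NUO NUP1 NUCR NUP1S NUP1S.Ab NUP1S.AbC NUP1S.AbG NURow NUP1.Leg NUStabP NUDispW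
open NUSea.H0 (Gd)
open NUSp (qc)
open PBP (gT)

/-- **any class at fixed half quanta**, one size `m`, the constants explicit -/
def ClsAt [NUSea.Sea] (G : Geo) {ι : Type*} (ok : ι → Prop) (Φ : ι → ℕ → InsE)
    (kapw K2 e ep e1 J Cst : ℝ) (m : ℕ) : Prop :=
  ∀ (n : ℕ) (g : Fin n → Gd) (aX aY : ℕ) (ν Qe : ℝ), n ≤ 2 →
    (∀ i j, i ≠ j → (g i).σ ≠ (g j).σ) → aX ≤ 3 → aY ≤ 3 →
    (aX : ℝ) - aY = -∑ i, NUC43.sg (g i).σ * qc (g i).c / 2 →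
    |ν - m| ≤ 2 → (∀ i, |(g i).τ| ≤ TW ep e1 m) → 0 ≤ Qe →
    (∀ T1, TW ep e1 m ≤ T1 → Real.exp (enQ g aX aY 0 0 T1) ≤ Qe) →
    ∀ B' : OB, (∀ a, ∀ z ∈ DomC, ((G.B m (beC ep)).mul (spF g)).R a z = B'.R a z) →
    (G.B m (beC ep)).φ = B'.φ → (G.B m (beC ep)).φ0 = B'.φ0 →
    ∀ (Z : Bool → Option O3 → ℂ → ℂ) (κ x0 : ℝ) (Qz : ℤ) (E0 : Set ℝ),
    OneC Z B' (NUSea.O.par0 m) ep κ x0 Qz E0 →
    ∀ i : ι, ok i → ∀ (w : (r : ℕ) → (Fin r → Xo) → ℝ) (Bw : ℝ), 0 ≤ Bw →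
    (∀ r O, 0 ≤ w r O) → (∀ (r : ℕ) (O : Fin r → Xo), w r O ≤ Bw * Real.exp (K2 * r) *
      Real.exp (∑ i, gT e1 (Real.log m) (ht (O i))) *
      Real.exp (kapw * win univ fun i => ht (O i))) →
    ∑ N ∈ range (2 * m + 1), FE Z (NUSea.O.par0 m) (N + aX) (N + aY) (fun _ _ => etaC e1 J m m)
        (fun _ _ => etaC' e1 J m m) (fun r O a b x => ENNReal.ofReal (w r O) *
          Φ i N r O a b x) ≤
      ENNReal.ofReal (Bw * (Cst * (m : ℝ) ^ e * Real.exp ((m : ℝ) ^ 2 * G.EM) *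
        Real.exp (m * ∑ i, G.MF (g i).c (g i).w) * Real.exp (-gnF e1 J m g) * Qe))

/-- **any class at fixed half quanta**, one size, explicit constants -/
theorem clsAt [NUSea.Sea] {G : Geo} {C c b c1 kapw K2 Ca e ep e1 J d Cst a0 : ℝ}
    {k : ℕ} (hCa : 0 ≤ Ca) (he : 0 < e) (hep : 0 < ep) (hep1 : ep ≤ 1 / 100)
    (b3 : ep ≤ e / (4 * (Ca + 3))) (he1 : 0 < e1) (he11 : e1 ≤ 1 / 100)
    (c3 : e1 ≤ e / (4 * (Ca + 3))) (hJ : 0 ≤ J)
    (hsm : Real.exp (-(2 * Real.pi * J)) + 3 * e1 + 3 * ep ≤ a0) (hd : 0 < d) (hCst : 0 ≤ Cst)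
    {ι : Type*} {ok : ι → Prop} {Φ : ι → ℕ → InsE} {m : ℕ} (hM : 7 ≤ m)
    (hsum : SumB C c b c1 k (e / 2 / 2) a0 (Real.log m))
    (hcurm : CurB ep (etaC e1 J m m) (etaC' e1 J m m))
    (hper : PerAt G ok Φ kapw K2 C c b k c1 Ca ep e1 J (e / 2 / 2) d Cst m) :
    ClsAt G ok Φ kapw K2 e ep e1 J (4 * (1 + 1 / d) * Cst) m := by
  have hm1 : 1 ≤ m := by omega
  have hmp : (0 : ℝ) < m := by exact_mod_cast hm1
  have hm1' : (1 : ℝ) ≤ m := by exact_mod_cast hm1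
  intro n g aX aY ν Qe hn hσ haX haY hq hν hnear hQe hpin B' hR hφ hφ0 Z κ x0 Qz E0 hone i hok w Bw
    hBw hw0 hwB
  have key := hper n g aX aY ν Qe hn hσ haX haY hq hν hnear hQe hpin i hok w Bw hBw hw0 hwB
  have key2 := PerI.congr (B' := B') (parM_par0 m).1 (parM_par0 m).2.1
    (NUSea.O.par0_e _) hR hφ hφ0 hep1 (fun n _ r O => hcurm) key
  have hnum : ((2 * (2 * m) + (aX + aY) + 1 : ℕ) : ℝ) ≤ Real.exp (2 * Real.log m) := by
    have e : Real.exp (2 * Real.log m) = (m : ℝ) * m := by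
      rw [two_mul, Real.exp_add, Real.exp_log hmp]
    rw [e]
    have : 2 * (2 * m) + (aX + aY) + 1 ≤ m * m := by nlinarith
    exact_mod_cast this
  have h5 := hsum ep hep.le hep1 e1 he1 (by linarith) J hJ hsm ν d _ (2 * m) aX aY
    Z B' (NUSea.O.par0 m) κ x0 Qz E0 _ _ _ hd ?_ hnum
    hone (parM_par0 m).1.goodP (fun n _ r O => hcurm) key2
  swap
  · positivity
  refine h5.trans (ENNReal.ofReal_le_ofReal ?_)
  rw [exp_log_mul hm1]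
  have hpow : (m : ℝ) ^ (Ca * (ep + e1) + e / 2 / 2) * (m : ℝ) ^ (e / 2 / 2) ≤ (m : ℝ) ^ e := by
    rw [← Real.rpow_add hmp]
    refine Real.rpow_le_rpow_of_exponent_le hm1' ?_
    have h4 : ep + e1 ≤ e / (2 * (Ca + 3)) := by
      have : e / (2 * (Ca + 3)) = e / (4 * (Ca + 3)) + e / (4 * (Ca + 3)) := by
        field_simp
        norm_num
      linarith
    rw [le_div_iff₀ (by positivity)] at h4
    nlinarith
  obtain ⟨X0, hX0⟩ : ∃ X0, X0 = Real.exp ((m : ℝ) ^ 2 * G.EM) := ⟨_, rfl⟩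
  obtain ⟨X1, hX1⟩ : ∃ X1, X1 = Real.exp (m * ∑ i, G.MF (g i).c (g i).w) := ⟨_, rfl⟩
  obtain ⟨X2, hX2⟩ : ∃ X2, X2 = Real.exp (-gnF e1 J m g) := ⟨_, rfl⟩
  rw [← hX0, ← hX1, ← hX2]
  have hX00 : 0 ≤ X0 := by
    rw [hX0]
    exact (Real.exp_pos _).le
  have hX10 : 0 ≤ X1 := by
    rw [hX1]
    exact (Real.exp_pos _).le
  have hX20 : 0 ≤ X2 := by
    rw [hX2]
    exact (Real.exp_pos _).le
  calc 4 * (1 + 1 / d) * (Bw * (Cst * X0 * (m : ℝ) ^ (Ca * (ep + e1) + e / 2 / 2) * X1 * X2 * Qe) *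
        (m : ℝ) ^ (e / 2 / 2))
      = Bw * (4 * (1 + 1 / d) * Cst *
        ((m : ℝ) ^ (Ca * (ep + e1) + e / 2 / 2) * (m : ℝ) ^ (e / 2 / 2)) * X0 * X1 * X2 * Qe) := by
        ring
    _ ≤ Bw * (4 * (1 + 1 / d) * Cst * (m : ℝ) ^ e * X0 * X1 * X2 * Qe) := by gcongr
    _ = _ := by ring

/-- **any class at fixed half quanta for a family of seas**: one constant `c0 > 0` (absolute),
one threshold `κ0` and, at fixed parameters, one constant `Cst` and one `m0` for all members and all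
sizes `m` with `P s m` -/
theorem clsRF (hS : StabProd) : ∃ c0 : ℝ, 0 < c0 ∧ ∀ {σ : Type*} (S : σ → NUSea.Sea) (G : σ → Geo)
    (P : σ → ℕ → Prop),
    (∀ s m β, ((G s).B m β).Nn) → OneF S G P → CurF S P → ∀ K K2 kapw : ℝ, kapw ≤ c0 →
    ∀ {Ca : ℝ}, 0 ≤ Ca → ∀ {e : ℝ}, 0 < e →
    ∃ κ0 : ℝ, 0 < κ0 ∧ κ0 ≤ 1 / 100 ∧
      ∀ ep : ℝ, 0 < ep → ep ≤ κ0 → ∀ e1 : ℝ, 0 < e1 → e1 ≤ κ0 →
      ∀ J : ℝ, 0 ≤ J → Real.exp (-(2 * Real.pi * J)) ≤ κ0 →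
      ∀ (ι : Type*) (ok : σ → ℕ → ι → Prop) (Φ : σ → ι → ℕ → ℕ → InsE),
      S4F S G P ok Φ K Ca c0 ep e1 J (e / 4) →
      ∃ Cst : ℝ, 0 ≤ Cst ∧ ∃ m0 : ℕ, 7 ≤ m0 ∧ ∀ m ≥ m0, ∀ s : σ, P s m →
        CurB ep (@etaC (S s) e1 J m m) (@etaC' (S s) e1 J m m) ∧
        @ClsAt (S s) (G s) ι (ok s m) (fun i => Φ s i m) kapw K2 e ep e1 J Cst m := by
  obtain ⟨c1, hc1, hper⟩ := perHW hS
  obtain ⟨C3, hC3, hspec⟩ := spec_pin
  refine ⟨c1 / 2, by positivity, ?_⟩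
  intro σ S G P hB h1 hcur K K2 kapw hkapw Ca hCa e he
  obtain ⟨K', hper⟩ := hper K K2
  obtain ⟨C, c, hC, hc, hone⟩ := h1 (K' + Real.log C3) 12
  obtain ⟨a0, ha0, hsum⟩ := fe_sum (k := 12 + 6) hC hc (b := 1 / 10) (by norm_num) hc1 le_rfl
    (δ := e / 2 / 2) (by positivity)
  obtain ⟨L0, hsum⟩ := hsum 1 zero_le_one
  refine ⟨min (1 / 100) (min (a0 / 7) (e / (4 * (Ca + 3)))), by positivity, min_le_left _ _, ?_⟩
  intro ep hep hep1 e1 he1 he11 J hJ hJ1 ι ok Φ h4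
  have b1 : ep ≤ 1 / 100 := hep1.trans (min_le_left _ _)
  have b2 : ep ≤ a0 / 7 := hep1.trans ((min_le_right _ _).trans (min_le_left _ _))
  have b3 : ep ≤ e / (4 * (Ca + 3)) := hep1.trans ((min_le_right _ _).trans (min_le_right _ _))
  have c1' : e1 ≤ 1 / 100 := he11.trans (min_le_left _ _)
  have c2 : e1 ≤ a0 / 7 := he11.trans ((min_le_right _ _).trans (min_le_left _ _))
  have c3 : e1 ≤ e / (4 * (Ca + 3)) := he11.trans ((min_le_right _ _).trans (min_le_right _ _))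
  have d2 : Real.exp (-(2 * Real.pi * J)) ≤ a0 / 7 :=
    hJ1.trans ((min_le_right _ _).trans (min_le_left _ _))
  obtain ⟨d, Cst, hd, hCst, M0, h4⟩ := h4
  obtain ⟨m2, hone⟩ := hone ep hep b1 e1 he1 c1' J hJ
  obtain ⟨m1, hcur⟩ := hcur ep hep b1 e1 he1 c1' J hJ
  obtain ⟨m3, hm3⟩ := Filter.eventually_atTop.1
    ((Real.tendsto_log_atTop.comp tendsto_natCast_atTop_atTop).eventually_ge_atTop L0)
  refine ⟨4 * (1 + 1 / d) * Cst, by positivity,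
    max (max (max M0 m1) (max m2 m3)) 7, le_max_right _ _, fun m hm s hP => ?_⟩
  have hq : max (max M0 m1) (max m2 m3) ≤ m := (le_max_left _ _).trans hm
  have hM0 : M0 ≤ m := ((le_max_left _ _).trans (le_max_left _ _)).trans hq
  have hM1 : m1 ≤ m := ((le_max_right _ _).trans (le_max_left _ _)).trans hq
  have hM2 : m2 ≤ m := ((le_max_left _ _).trans (le_max_right _ _)).trans hq
  have hM3 : m3 ≤ m := ((le_max_right _ _).trans (le_max_right _ _)).trans hq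
  have hM5 : 7 ≤ m := (le_max_right _ _).trans hm
  have hL0 : L0 ≤ Real.log m := hm3 m hM3
  refine ⟨hcur m hM1 s hP, ?_⟩
  exact @clsAt (S s) (G s) C c (1 / 10) c1 kapw K2 Ca e ep e1 J d Cst a0 (12 + 6) hCa he hep b1
    b3 he1 c1' c3 hJ (by linarith) hd hCst ι (ok s m) (fun i => Φ s i m) m hM5
    (fun ep hep hep' e1 he1 he1' J hJ hsm => hsum (Real.log m) hL0 ep hep hep' e1 he1 he1' J hJ hsm)
    (hcur m hM1 s hP)
    (@perAt (S s) (G s) (hB s) c1 K K2 K' C3 hper hC3 hspec C c hC kapw hkapw ep e1 J (e / 2 / 2) Ca ι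
      (ok s m) (fun i => Φ s i m) d Cst hCst m (hone m hM2 s hP)
      (by
        have := h4 m hM0 s hP
        rwa [show e / 4 = e / 2 / 2 by ring] at this))

/-- **`clsRF` for the seas with the numbers `SU`** -/
theorem clsRU (hS : StabProd) : ∃ c0 : ℝ, 0 < c0 ∧ ∀ (SU : NUSea.SeaBd) {σ : Type*}
    (S : σ → NUSea.Sea) (_ : ∀ s, @NUSea.SeaU SU (S s)) (G : σ → Geo) (P : σ → ℕ → Prop),
    (∀ s m β, ((G s).B m β).Nn) → OneF S G P → ∀ K K2 kapw : ℝ, kapw ≤ c0 →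
    ∀ {Ca : ℝ}, 0 ≤ Ca → ∀ {e : ℝ}, 0 < e →
    ∃ κ0 : ℝ, 0 < κ0 ∧ κ0 ≤ 1 / 100 ∧
      ∀ ep : ℝ, 0 < ep → ep ≤ κ0 → ∀ e1 : ℝ, 0 < e1 → e1 ≤ κ0 →
      ∀ J : ℝ, 0 ≤ J → Real.exp (-(2 * Real.pi * J)) ≤ κ0 →
      ∀ (ι : Type*) (ok : σ → ℕ → ι → Prop) (Φ : σ → ι → ℕ → ℕ → InsE),
      S4F S G P ok Φ K Ca c0 ep e1 J (e / 4) →
      ∃ Cst : ℝ, 0 ≤ Cst ∧ ∃ m0 : ℕ, 7 ≤ m0 ∧ ∀ m ≥ m0, ∀ s : σ, P s m →
        CurB ep (@etaC (S s) e1 J m m) (@etaC' (S s) e1 J m m) ∧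
        @ClsAt (S s) (G s) ι (ok s m) (fun i => Φ s i m) kapw K2 e ep e1 J Cst m := by
  obtain ⟨c0, hc0, H⟩ := clsRF hS
  exact ⟨c0, hc0, fun SU σ S hU G P hB h1 K K2 kapw hkapw Ca hCa e he =>
    H S G P hB h1 (curF_U SU S hU P) K K2 kapw hkapw hCa he⟩

/-- **no group: the class without half quanta** (`ClsAt` with `n = 0`, `aX = aY = a`): the gain is the one
of the ends -/
theorem ClsAt.zero [NUSea.Sea] {G : Geo} {ι : Type*} {ok : ι → Prop} {Φ : ι → ℕ → InsE}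
    {kapw K2 e ep e1 J Cst : ℝ} {m : ℕ} (h : ClsAt G ok Φ kapw K2 e ep e1 J Cst m) {a : ℕ} (ha : a ≤ 3)
    {Z : Bool → Option O3 → ℂ → ℂ} {κ x0 : ℝ} {Qz : ℤ} {E0 : Set ℝ}
    (hZ : OneC Z (G.B m (beC ep)) (NUSea.O.par0 m) ep κ x0 Qz E0) {i : ι} (hok : ok i)
    {w : (r : ℕ) → (Fin r → Xo) → ℝ} {Bw : ℝ} (hBw : 0 ≤ Bw) (hw0 : ∀ r O, 0 ≤ w r O)
    (hwB : ∀ (r : ℕ) (O : Fin r → Xo), w r O ≤ Bw * Real.exp (K2 * r) *
      Real.exp (∑ i, gT e1 (Real.log m) (ht (O i))) *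
      Real.exp (kapw * win univ fun i => ht (O i))) :
    ∑ N ∈ range (2 * m + 1), FE Z (NUSea.O.par0 m) (N + a) (N + a) (fun _ _ => etaC e1 J m m)
        (fun _ _ => etaC' e1 J m m) (fun r O a b x => ENNReal.ofReal (w r O) *
          Φ i N r O a b x) ≤
      ENNReal.ofReal (Bw * (Cst * (m : ℝ) ^ e * Real.exp ((m : ℝ) ^ 2 * G.EM) *
        Real.exp (-(12 * NUMF.l * NUGC.hC e1 J m 0)))) := by
  have key := h 0 Fin.elim0 a a m 1 (by norm_num) (fun i => i.elim0) ha ha (by simp) (by simp)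
    (fun i => i.elim0) zero_le_one (fun T1 hT1 => ?_) (G.B m (beC ep)) (fun b z hz => ?_) rfl rfl Z κ x0
    Qz E0 hZ i hok w Bw hBw hw0 hwB
  · refine key.trans (ENNReal.ofReal_le_ofReal (le_of_eq ?_))
    unfold gnF
    simp
  · refine le_of_eq (Real.exp_eq_one_iff _ |>.2 ?_)
    unfold enQ
    simp [NUSea.H0.TG]
  · show (G.B m (beC ep)).R b z * spF (Fin.elim0 : Fin 0 → Gd) b z = _
    unfold spF
    simp

end Pool.Agent.IST

end
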