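import Pool.Agent.PotH.ConfH

/-!
# The data of every configuration, with an absolute bound of the remainder

* `wO_inH`: the remainder `wO` of the data `inH` is bounded by a constant that only depends on the
  bounds of the cutoff and of the potential;
* `nu_groups`: the densities of the groups;
* **`exists_confS`**: `exists_confH` with these bounds.
-/

set_option autoImplicit false
set_option linter.unusedSectionVars false

noncomputable section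

open MeasureTheory Finset Filter Topology
open scoped ENNReal

namespace PotH

open NUGC
open NUO (Xo kd ht Par Tb TW excS chgO PG slkK cons exc)
open NUSea.H0 (Inp Gd TG BF BF1 cstF aR datO DatC SpI hfar cfP wO exists_spG exists_BF exists_nuG)
open NUStabP (enC)
open NUDispW (win)
open PBZ (Z1S)

variable [NUSea.Sea]

/-- **the remainder of the data**: its bound is independent of the curve and of the cutoff -/
theorem wO_inH {W B0 : ℝ} (hW : 0 ≤ W) (hB0 : 0 ≤ B0) : ∃ CW : ℝ, 0 ≤ CW ∧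
    ∀ (G : ℕ), G ≤ 2 → ∀ (g : Fin G → Gd) (e1 Cc : ℝ) (m : ℕ) (η η1 : ℝ → ℝ), CrvP e1 Cc m η η1 →
    ∀ b' : ℝ, |b'| ≤ 1 → ∀ T1 : ℝ, 0 ≤ T1 → ∀ B1 : ℝ → ℝ, ContDiff ℝ 1 B1 → (∀ t, 0 ≤ B1 t) →
    (∀ t, B1 t ≤ W) → ∀ H H' : Bool → ℝ → ℝ, (∀ a t, HasDerivAt (H a) (H' a t) t) →
    (∀ a, Continuous (H' a)) → (∀ a t, |H a t| ≤ B0) →
    ∀ a t, |wO (inH η η1 m T1 b' g B1 H) a t| ≤ CW := by
  obtain ⟨K, hK, HK⟩ := exists_spG
  obtain ⟨Kb, hKb, HB⟩ := exists_BF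
  refine ⟨W + 2 * Kb + B0 + 1 + 3 * K, by positivity, ?_⟩
  intro G hG g e1 Cc m η η1 hcv b' hb' T1 hT1 B1 hB1c hB10 hB1W H H' hHd hHc hHb a t
  obtain ⟨ε, e, hcur, hε0, hε, hε1⟩ := hcv.cur
  have hη : ∀ t, |η t| ≤ 1 / 40 := fun t => (hcv.le t).trans (by norm_num)
  obtain ⟨p1, p2, p3, p4, p5, p6⟩ := HB G g T1 η η1 hT1 hη hcv.le1 hcv.d hcv.c
  have hd : ∀ t, HasDerivAt B1 (deriv B1 t) t := fun t =>
    (hB1c.differentiable (by norm_num) t).hasDerivAt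
  have hdc : Continuous (deriv B1) := hB1c.continuous_deriv le_rfl
  have S : SpI pE qE (gP T1 g) (inH η η1 m T1 b' g B1 H)
      (fun a t => deriv B1 t + BF1 T1 g η η1 a t + H' a t) :=
    { hp := pE_re
      hq := qE_re
      him := by rw [qE_im, pE_im]
      A := fun a z => rfl
      ν := rfl
      τ := rfl
      dB := fun a t => (((hd t).add (p1 a t)).add (hHd a t)).sub_const _
      cB := fun a => (hdc.add (p2 a)).add (hHc a) }
  obtain ⟨s1, -⟩ := HK G (gP T1 g) pE qE (inH η η1 m T1 b' g B1 H) _ S ε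
    (Cc * Real.log m) ((1 - e1) * Tb (Real.log m)) e hcur hcv.d (by linarith)
  refine (s1 a t).trans ?_
  have hG2 : (G : ℝ) ≤ 2 := by exact_mod_cast hG
  have hG0 : (0 : ℝ) ≤ G := Nat.cast_nonneg G
  have h0 : |(inH η η1 m T1 b' g B1 H).B a t| ≤ W + 2 * Kb + B0 + 1 := by
    show |B1 t + BF T1 g η a t + H a t - b' / 2| ≤ _
    have h1 := abs_sub (B1 t + BF T1 g η a t + H a t) (b' / 2)
    have h2 := abs_add_le (B1 t + BF T1 g η a t) (H a t)
    have h2' := abs_add_le (B1 t) (BF T1 g η a t)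
    have h3 := p5 a t
    have h3' := hHb a t
    have h5 : |b' / 2| ≤ 1 := by
      rw [abs_div, abs_two]
      linarith
    have h6 : Kb * G ≤ Kb * 2 := mul_le_mul_of_nonneg_left hG2 (by linarith)
    rw [abs_of_nonneg (hB10 t)] at h2'
    linarith [hB1W t]
  have h7 : K * (G + 1) * ε ≤ K * 3 * 1 := by
    have : (0 : ℝ) ≤ K := by linarith
    have h8 : (G : ℝ) + 1 ≤ 3 := by linarith
    have h9 : ε ≤ 1 := by linarith
    gcongr
  linarith

/-- the densities of the groups -/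
theorem nu_groups : ∃ M : ℝ, 0 ≤ M ∧ ∀ (n : ℕ) (g : Fin n → Gd),
    (∀ a t, |muS (TG g) a t| ≤ M * ∑ i, Real.exp (-(5 / 2 * |t - (g i).τ|))) ∧
    ∀ t, |tauS (TG g) t| ≤ M * ∑ i, Real.exp (-(5 / 2 * |t - (g i).τ|)) := by
  obtain ⟨M, hM, H⟩ := exists_nuG
  refine ⟨2 * M, by linarith, fun n g => ?_⟩
  obtain ⟨-, h2, -⟩ := H n g
  have h0 : ∀ t, 0 ≤ M * ∑ i, Real.exp (-(5 / 2 * |t - (g i).τ|)) := fun t =>
    mul_nonneg hM (Finset.sum_nonneg fun _ _ => (Real.exp_pos _).le)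
  refine ⟨fun a t => ?_, fun t => ?_⟩
  · have := h2 a t
    have := h0 t
    linarith
  · rw [← muS_sub (NUSea.H0.TG_ok g) t]
    have h3 := abs_sub (muS (TG g) true t) (muS (TG g) false t)
    have := h2 true t
    have := h2 false t
    linarith

/-- **the data of every configuration and the reduction of its gas**, with absolute bounds of the
remainder and of the densities of the groups -/
theorem exists_confS (hD : DatGH) {B0 N0 : ℝ} (hB0 : 0 ≤ B0) (hN0 : 0 ≤ N0) :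
    ∃ KR CW : ℝ, 0 ≤ KR ∧ 0 ≤ CW ∧
    ∀ G : ℕ, G ≤ 2 → ∀ kap : ℝ, 0 < kap → ∀ ep : ℝ, 0 < ep → ep ≤ 1 / 100 →
    ∀ e1 : ℝ, 0 < e1 → e1 ≤ 1 / 100 → ∀ Cc C0 : ℝ, 1 ≤ Cc → 1 ≤ C0 →
    ∃ (k : ℕ) (κ CB w : ℝ), 0 < κ ∧ 0 ≤ CB ∧ 0 < w ∧ w ≤ 1 / 10 ∧
    ∀ ϑ : ℝ, 0 < ϑ → ∃ d CR : ℝ, 0 < d ∧ d ≤ 1 ∧ 0 ≤ CR ∧ ∃ m0 : ℕ, ∀ m : ℕ, m0 ≤ m →
    ∀ (η η1 cr Bc Bc' : ℝ → ℝ) (H H' : Bool → ℝ → ℝ) (B : OB) (g : Fin G → Gd),
    EnvH ep e1 Cc C0 B0 N0 d m η η1 cr Bc Bc' H H' B g →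
    ∀ (aX aY : ℕ) (ν : ℝ) (N : ℕ) (b' : ℝ) (r : ℕ) (O : Fin r → Xo) (E x : ℝ), |b'| ≤ d →
      RgH ep e1 m g aX aY ν N O E x →
      ∃ (B1 : ℝ → ℝ) (D : ℝ), ConfOk ep e1 κ CB ϑ w kap KR CR k m η η1 cr B H g aX aY ν N b' O E x
        B1 D ∧
        (∀ a t, |wO (inH η η1 m (T1H ep e1 m O E) b' g B1 H) a t| ≤ CW) ∧
        (∀ a t, |(inH η η1 m (T1H ep e1 m O E) b' g B1 H).ν a t| ≤
          CW * ∑ j, Real.exp (-(5 / 2 * |t - (gP (T1H ep e1 m O E) g j).τ|))) ∧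
        ∀ t, |(inH η η1 m (T1H ep e1 m O E) b' g B1 H).τD t| ≤
          CW * ∑ j, Real.exp (-(5 / 2 * |t - (gP (T1H ep e1 m O E) g j).τ|)) := by
  choose W hW hD using hD
  have hW0 := hW 0
  have hW1 := hW 1
  have hW2 := hW 2
  obtain ⟨K0, hK0, hEn⟩ := exists_enH (W := W 0 + W 1 + W 2) (B0 := B0) (by positivity) hB0
  obtain ⟨CW1, hCW1, hwO⟩ := wO_inH (W := W 0 + W 1 + W 2) (B0 := B0) (by positivity) hB0
  obtain ⟨M, hM, hnu⟩ := nu_groups
  refine ⟨K0 + 2, CW1 + M, by positivity, by positivity, ?_⟩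
  intro G hG2 kap hkap ep hep hep1 e1 he he1 Cc C0 hCc hC0
  obtain ⟨k, κ, CB, w, C, hκ, hCB, hw, hw1, hC, hD⟩ := hD G ep hep hep1 e1 he he1 Cc C0 hCc hC0 B0 N0
    hB0 hN0
  refine ⟨k, κ, CB, w, hκ, hCB, hw, hw1, ?_⟩
  intro ϑ hϑ
  obtain ⟨d, hd, m2, hD⟩ := hD ϑ hϑ
  obtain ⟨C1, m3, hEn⟩ := hEn (kap / 2) (by positivity) ep hep hep1 e1 he he1 Cc (by linarith) k κ C hκ
  have hCF := CcF_one 2
  refine ⟨min d 1, (3 + CcF 2) * Real.exp (C1 + 7), lt_min hd one_pos, min_le_right _ _,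
    by positivity, max m2 (max m3 3), ?_⟩
  intro m hm η η1 cr Bc Bc' H H' B g hEnv aX aY ν N b' r O E x hb' hR
  obtain ⟨hc, hcut, hH, hBn, hDom⟩ := hEnv
  have hm2 : m2 ≤ m := (le_max_left _ _).trans hm
  have hm3 : m3 ≤ m := ((le_max_left _ _).trans (le_max_right _ _)).trans hm
  have hm4 : 3 ≤ m := ((le_max_right _ _).trans (le_max_right _ _)).trans hm
  obtain ⟨t1, t2, t3⟩ := TW_le ep e1 m O hR.E0
  have hF := famOk_ofH hR
  have hT0 : 0 ≤ T1H ep e1 m O E := (TW_nonneg hep he (by omega)).trans t1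
  have hN := hR.hN
  have hax := hR.ax
  have hay := hR.ay
  have hrr := hR.hr
  have hb1 : |b'| ≤ d := hb'.trans (min_le_left _ _)
  have hb2 : |b'| ≤ 1 := hb'.trans (min_le_right _ _)
  obtain ⟨B1, hB, hB0', hB1, hBi, hBC, hD⟩ := hD m hm2 η η1 hc cr Bc Bc' hcut b' hb1
    (T1H ep e1 m O E) x g t1 hF
  have hH' : HOk B0 N0 d ((1 - e1) * Tb (Real.log m)) (Real.log m ^ 3) H H' :=
    { hH with en := fun a T hT => (hH.en a T hT).trans (by
        have := mul_le_mul_of_nonneg_right (min_le_left d 1) hT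
        linarith) }
  obtain ⟨D, hdat, hD0, hGD⟩ := hD H H' hH' (N + aX) (N + aY) (by omega) (by omega)
    (by
      have h1 := hR.q
      unfold chG
      push_cast
      linarith) r (by omega) O hR.hc1 hR.hc2 t2
  have hB1W : ∀ t, B1 t ≤ W 0 + W 1 + W 2 := fun t => (hB1 t).trans (by interval_cases G <;> linarith)
  have hS0 : ∀ t, 0 ≤ ∑ j, Real.exp (-(5 / 2 * |t - (gP (T1H ep e1 m O E) g j).τ|)) := fun t =>
    Finset.sum_nonneg fun _ _ => (Real.exp_pos _).le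
  obtain ⟨hν, hτ⟩ := hnu G (gP (T1H ep e1 m O E) g)
  refine ⟨B1, D, ⟨hdat, hD0, hGD, ?_⟩, fun a t => ?_, fun a t => ?_, fun t => ?_⟩
  rotate_left
  · have := hwO G hG2 g e1 Cc m η η1 hc b' hb2 (T1H ep e1 m O E) hT0 B1 hB hB0' hB1W H H' hH.d hH.c
      hH.le a t
    linarith
  · exact (hν a t).trans (mul_le_mul_of_nonneg_right (by linarith) (hS0 t))
  · exact (hτ t).trans (mul_le_mul_of_nonneg_right (by linarith) (hS0 t))
  intro KG Cst α hCst Ψ Y h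
  have hsum : ∑ i, NUO.rr (NUSea.O.par0 m) O i ≤ 1 := by
    refine (NUO.sum_rr hdat.par (by omega) O).trans ?_
    have h2 : 0 ≤ Real.log (m : ℝ) := Real.log_nonneg (by exact_mod_cast (by omega : 1 ≤ m))
    rw [div_le_one (by positivity)]
    linarith
  have h2 := hEn m hm3 η η1 hc hc.lip b' hb2 G hG2 g (T1H ep e1 m O E) t1 B1 hB hB0'
    hB1W hBi hBC H H' hH.d hH.c hH.le r O hsum hdat.ok
  obtain ⟨dl, ε, Mc, e, hI, -, -, -⟩ := hdat.ok
  have hS : SC G x ≤ (2 + CcF 2) * Real.exp (37 / 20 * x) := by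
    unfold SC
    have := CcF_mono hG2
    gcongr
  have hS0 : 0 ≤ SC G x := by
    unfold SC
    have := CcF_one G
    positivity
  have h3 := red_stepH (kap := kap) (by omega : 0 < m) hc hBn hcut.nn hDom hb2 hR hF hT0 hI.pg hCst
    hS0 hS h2 h
  refine h3.trans (le_of_eq ?_)
  rw [show (Cst + 1) * (3 + CcF 2) * Real.exp (C1 + 7) =
    (Cst + 1) * ((3 + CcF 2) * Real.exp (C1 + 7)) by ring, show KG + K0 + 2 = KG + (K0 + 2) by ring]

end PotH

end
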