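import Pool.Agent.IST.EnS

/-!
# The cross terms of a source

**`crS_le`**: the cross terms are `- ∑ (charge of the object) lgp τ (height)` up to
`K (s + s') (1 + ∑ exp (-3/2 |height|)) + 2 s s'`; the constant depends on the bound `CB` of the extra
data and on the number of places only.
-/

set_option autoImplicit false
set_option linter.unusedSectionVars false

noncomputable section

open MeasureTheory Finset
open scoped ENNReal

namespace NUSea.H0

open NUMF NUO NUStabP NUDispW NUEnW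
open NUR2 (Cfg)
open NUDispV (dFB)
open NUH0 (plt plt_nonneg qc)

/-- one place -/
lemma pair_exp {c d : ℝ} (hd : 0 ≤ d) (hcd : d < c) (h : ℝ) :
    Integrable (fun t : ℝ => Real.exp (-(c * |t - h|)) * Real.exp (-(d * |t|))) ∧
      ∫ t : ℝ, Real.exp (-(c * |t - h|)) * Real.exp (-(d * |t|)) ≤
        2 / (c - d) * Real.exp (-(d * |h|)) := by
  obtain ⟨i1, i2⟩ := NUDispW.int_exp_abs (sub_pos.2 hcd) h
  have hp : ∀ t : ℝ, Real.exp (-(c * |t - h|)) * Real.exp (-(d * |t|)) ≤
      Real.exp (-(d * |h|)) * Real.exp (-((c - d) * |t - h|)) := by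
    intro t
    rw [← Real.exp_add, ← Real.exp_add]
    refine Real.exp_le_exp.2 ?_
    have h1 : |h| ≤ |t| + |t - h| := by
      have := abs_sub_abs_le_abs_sub h t
      rw [abs_sub_comm] at this
      linarith
    have h2 := mul_le_mul_of_nonneg_left h1 hd
    linarith
  have hi : Integrable fun t : ℝ => Real.exp (-(c * |t - h|)) * Real.exp (-(d * |t|)) :=
    (i1.const_mul (Real.exp (-(d * |h|)))).mono' (Continuous.aestronglyMeasurable (by fun_prop))
      (ae_of_all _ fun t => by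
        rw [Real.norm_eq_abs, abs_of_nonneg (by positivity)]
        exact hp t)
  refine ⟨hi, (integral_mono hi (i1.const_mul _) hp).trans_eq ?_⟩
  rw [integral_const_mul, i2]
  ring

/-- a localised density against a decaying field -/
theorem loc_le {ι : Type*} [Fintype ι] {x : ι → ℝ} {c d A B : ℝ} (hd : 0 ≤ d) (hcd : d < c)
    (hA : 0 ≤ A) {f w : ℝ → ℝ} (hf : ∀ t, |f t| ≤ A * ∑ i, Real.exp (-(c * |t - x i|)))
    (hw : ∀ t, |w t| ≤ B * Real.exp (-(d * |t|))) :
    |∫ t, f t * w t| ≤ A * B * (2 / (c - d)) * ∑ i, Real.exp (-(d * |x i|)) := by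
  have hB : 0 ≤ B := by
    have h1 := (abs_nonneg _).trans (hw 0)
    rw [abs_zero, mul_zero, neg_zero, Real.exp_zero, mul_one] at h1
    exact h1
  have hi : Integrable fun t => A * B * ∑ i, Real.exp (-(c * |t - x i|)) * Real.exp (-(d * |t|)) :=
    (integrable_finsetSum _ fun i _ => (pair_exp hd hcd (x i)).1).const_mul _
  have h1 : |∫ t, f t * w t| ≤
      ∫ t, A * B * ∑ i, Real.exp (-(c * |t - x i|)) * Real.exp (-(d * |t|)) := by
    rw [← Real.norm_eq_abs]
    refine norm_integral_le_of_norm_le hi (ae_of_all _ fun t => ?_)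
    rw [Real.norm_eq_abs, abs_mul]
    calc |f t| * |w t| ≤ (A * ∑ i, Real.exp (-(c * |t - x i|))) * (B * Real.exp (-(d * |t|))) :=
          mul_le_mul (hf t) (hw t) (abs_nonneg _) ((abs_nonneg _).trans (hf t))
      _ = _ := by
        rw [← Finset.sum_mul]
        ring
  refine h1.trans ?_
  rw [integral_const_mul, integral_finsetSum _ fun i _ => (pair_exp hd hcd (x i)).1]
  have h2 : ∑ i, ∫ t : ℝ, Real.exp (-(c * |t - x i|)) * Real.exp (-(d * |t|)) ≤
      2 / (c - d) * ∑ i, Real.exp (-(d * |x i|)) := by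
    rw [Finset.mul_sum]
    exact Finset.sum_le_sum fun i _ => (pair_exp hd hcd (x i)).2
  have h3 := mul_le_mul_of_nonneg_left h2 (mul_nonneg hA hB)
  linarith

/-- the potential `V * ν` of a density of a source -/
lemma DnS.Vdec {s : ℝ} {f : ℝ → ℝ} (hf : DnS s f) (t : ℝ) :
    |∫ u, f u * V (t - u)| ≤ s * NUEnW.KV (3 / 2) * Real.exp (-(3 / 2 * |t|)) := by
  have h1 := Vmu_le (κ := Fin 1) (s := Finset.univ) (τ := fun _ => 0) (c := 3 / 2) (A := s)
    (μ := f) (by norm_num) (by norm_num) hf.s0 hf.c.aestronglyMeasurable (fun x => by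
      unfold bmaj
      rw [Fin.sum_univ_one, sub_zero]
      refine (hf.b x).trans (mul_le_mul_of_nonneg_left (Real.exp_le_exp.2 ?_) hf.s0)
      have := abs_nonneg x
      linarith) t
  unfold bmaj at h1
  rw [Fin.sum_univ_one, sub_zero] at h1
  exact h1

/-- **a decaying remainder**: size `s`, energy `E` -/
structure RemD (s E : ℝ) (ψ : Bool → ℝ → ℝ) : Prop where
  c : ∀ a, ContDiff ℝ 1 (ψ a)
  b : ∀ a t, |ψ a t| ≤ s * Real.exp (-(3 / 2 * |t|))
  e : ∀ a T, 0 ≤ T → ∫ t in (-(T + 1))..(T + 1), (ψ a t ^ 2 + deriv (ψ a) t ^ 2) ≤ E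

lemma RemD.s0 {s E : ℝ} {ψ : Bool → ℝ → ℝ} (h : RemD s E ψ) : 0 ≤ s := by
  have h1 := (abs_nonneg _).trans (h.b true 0)
  rw [abs_zero, mul_zero, neg_zero, Real.exp_zero, mul_one] at h1
  exact h1

lemma RemD.rem {s s1 E : ℝ} {ψ : Bool → ℝ → ℝ} (h : RemD s E ψ) (hs : s ≤ s1) : RemOk s1 E ψ where
  c := h.c
  e := h.e
  b a t := by
    refine (h.b a t).trans ?_
    have h1 : Real.exp (-(3 / 2 * |t|)) ≤ 1 := Real.exp_le_one_iff.2 (by
      have := abs_nonneg t
      linarith)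
    have h2 := mul_le_mul_of_nonneg_left h1 h.s0
    linarith

/-- the charge of an object -/
def chq (x : Xo) : ℝ := NUC43.sg (NUO.sp x) * NUC43.kq (kd x)

/-- the splitting of the objects in the potential of a neutral density -/
theorem tauC_lgp {j e : ℝ} (hj : NUC43.Adm j e) : ∃ K : ℝ, 0 ≤ K ∧ ∀ {r : ℕ} (O : Fin r → Xo)
    {s : ℝ} {f : ℝ → ℝ}, DnS s f → ∫ t, f t = 0 →
    |(∫ t, NUC43.tauC j e O t * NUC43.lgp f t) + ∑ i, chq (O i) * NUC43.lgp f (ht (O i))| ≤
      K * s * ∑ i, Real.exp (-(2 * |ht (O i)|)) := by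
  choose MT hT0 hT using fun K => (NUC43.dnT hj K).bd
  obtain ⟨Mm, hMm⟩ : ∃ Mm, Mm = ∑ K, MT K := ⟨_, rfl⟩
  have hle : ∀ K, MT K ≤ Mm := fun K => by
    rw [hMm]
    exact Finset.single_le_sum (f := MT) (fun K _ => hT0 K) (Finset.mem_univ K)
  have hM0 : 0 ≤ Mm := by rw [hMm]; exact Finset.sum_nonneg fun K _ => hT0 K
  refine ⟨192 * Mm, by positivity, fun {r} O {s f} hf h0 => ?_⟩
  have hs := hf.s0
  have d1 : ∀ i, NUC43.Dn fun t => NUC43.sgT j e (kd (O i)) (t - ht (O i)) := fun i =>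
    (NUC43.dnT hj (kd (O i))).shift _
  have i1 : ∀ i, Integrable fun t => NUC43.sgT j e (kd (O i)) (t - ht (O i)) * NUC43.lgp f t :=
    fun i => NUC43.lg_out (d1 i) hf.dn
  have e1 : ∫ t, NUC43.tauC j e O t * NUC43.lgp f t =
      ∑ i, NUC43.sg (NUO.sp (O i)) * ∫ t, NUC43.sgT j e (kd (O i)) (t - ht (O i)) * NUC43.lgp f t := by
    have h1 : ∀ t, NUC43.tauC j e O t * NUC43.lgp f t = ∑ i, NUC43.sg (NUO.sp (O i)) *
        (NUC43.sgT j e (kd (O i)) (t - ht (O i)) * NUC43.lgp f t) := by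
      intro t
      unfold NUC43.tauC
      rw [Finset.sum_mul]
      exact Finset.sum_congr rfl fun i _ => by ring
    simp_rw [h1]
    rw [integral_finsetSum _ fun i _ => (i1 i).const_mul _]
    exact Finset.sum_congr rfl fun i _ => integral_const_mul _ _
  have e2 : ∀ i, ∫ t, NUC43.sgT j e (kd (O i)) (t - ht (O i)) * NUC43.lgp f t =
      -(NUC43.kq (kd (O i)) * NUC43.lgp f (ht (O i))) +
      ∫ t, NUC43.sgT j e (kd (O i)) (t - ht (O i)) * (NUC43.lgp f t - NUC43.lgp f (ht (O i))) := by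
    intro i
    have h1 : ∫ t, NUC43.sgT j e (kd (O i)) (t - ht (O i)) = -NUC43.kq (kd (O i)) := by
      rw [integral_sub_right_eq_self (fun u => NUC43.sgT j e (kd (O i)) u) (ht (O i)), NUC43.sgT,
        (NUC43.chgK hj _).intT]
    have h2 : ∀ t, NUC43.sgT j e (kd (O i)) (t - ht (O i)) *
        (NUC43.lgp f t - NUC43.lgp f (ht (O i))) =
        NUC43.sgT j e (kd (O i)) (t - ht (O i)) * NUC43.lgp f t -
        NUC43.sgT j e (kd (O i)) (t - ht (O i)) * NUC43.lgp f (ht (O i)) := fun t => by ring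
    simp_rw [h2]
    rw [integral_sub (i1 i) ((d1 i).int.mul_const _), integral_mul_const, h1]
    ring
  have b1 : ∀ i, |∫ t, NUC43.sgT j e (kd (O i)) (t - ht (O i)) *
      (NUC43.lgp f t - NUC43.lgp f (ht (O i)))| ≤ 192 * Mm * s * Real.exp (-(2 * |ht (O i)|)) := by
    intro i
    obtain ⟨k1, k2⟩ := NUDispW.int_exp_abs (by norm_num : (0 : ℝ) < 1 / 2) (ht (O i))
    have hp : ∀ t, |NUC43.sgT j e (kd (O i)) (t - ht (O i)) *
        (NUC43.lgp f t - NUC43.lgp f (ht (O i)))| ≤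
        (48 * Mm * s * Real.exp (-(2 * |ht (O i)|))) * Real.exp (-(1 / 2 * |t - ht (O i)|)) := by
      intro t
      rw [abs_mul]
      have h1 : |NUC43.sgT j e (kd (O i)) (t - ht (O i))| ≤
          Mm * Real.exp (-(5 / 2) * |t - ht (O i)|) :=
        (hT _ _).trans (mul_le_mul_of_nonneg_right (hle _) (Real.exp_pos _).le)
      have h2 := lgp_dec hf h0 t (ht (O i))
      calc |NUC43.sgT j e (kd (O i)) (t - ht (O i))| * |NUC43.lgp f t - NUC43.lgp f (ht (O i))| ≤
            (Mm * Real.exp (-(5 / 2) * |t - ht (O i)|)) *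
            (48 * s * (Real.exp (-(2 * |ht (O i)|)) * Real.exp (2 * |t - ht (O i)|))) :=
            mul_le_mul h1 h2 (abs_nonneg _) (by positivity)
        _ = (48 * Mm * s * Real.exp (-(2 * |ht (O i)|))) *
            (Real.exp (-(5 / 2) * |t - ht (O i)|) * Real.exp (2 * |t - ht (O i)|)) := by ring
        _ = _ := by
          rw [← Real.exp_add]
          congr 2
          ring
    have h3 : |∫ t, NUC43.sgT j e (kd (O i)) (t - ht (O i)) *
        (NUC43.lgp f t - NUC43.lgp f (ht (O i)))| ≤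
        ∫ t, (48 * Mm * s * Real.exp (-(2 * |ht (O i)|))) * Real.exp (-(1 / 2 * |t - ht (O i)|)) := by
      rw [← Real.norm_eq_abs]
      exact norm_integral_le_of_norm_le (k1.const_mul _) (ae_of_all _ fun t => by
        rw [Real.norm_eq_abs]
        exact hp t)
    rw [integral_const_mul, k2] at h3
    refine h3.trans (le_of_eq ?_)
    ring
  have e3 : (∫ t, NUC43.tauC j e O t * NUC43.lgp f t) + ∑ i, chq (O i) * NUC43.lgp f (ht (O i)) =
      ∑ i, NUC43.sg (NUO.sp (O i)) * ∫ t, NUC43.sgT j e (kd (O i)) (t - ht (O i)) *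
        (NUC43.lgp f t - NUC43.lgp f (ht (O i))) := by
    rw [e1, ← Finset.sum_add_distrib]
    refine Finset.sum_congr rfl fun i _ => ?_
    rw [e2]
    unfold chq
    ring
  rw [e3, Finset.mul_sum]
  refine (Finset.abs_sum_le_sum_abs _ _).trans (Finset.sum_le_sum fun i _ => ?_)
  rw [abs_mul]
  have h4 : |NUC43.sg (NUO.sp (O i))| = 1 := by
    cases NUO.sp (O i) <;> simp [NUC43.sg]
  rw [h4, one_mul]
  exact b1 i

variable [Sea]

/-- **the cross terms of a source** -/
theorem crS_le (CB : ℝ) (hCB : 0 ≤ CB) (G : ℕ) : ∃ K : ℝ, 0 ≤ K ∧ ∀ {m : ℕ}, 1 ≤ m →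
    ∀ {I : Inp} {P : Par} {r : ℕ} {O : Fin r → Xo} {dl ε M b : ℝ} {e : ℝ → ℝ},
    IOk dl ε M b e I P r → ParG m P → M * ε ≤ 1 →
    (∀ a t, |wO I a t| ≤ CB) → ∀ g : Fin G → ℝ,
    (∀ a t, |I.ν a t| ≤ CB * ∑ j, Real.exp (-(5 / 2 * |t - g j|))) →
    (∀ t, |I.τD t| ≤ CB * ∑ j, Real.exp (-(5 / 2 * |t - g j|))) →
    ∀ {s s' E : ℝ} {ν : Bool → ℝ → ℝ} {τ : ℝ → ℝ} {ψ : Bool → ℝ → ℝ}, SrcOk s ν τ → RemD s' E ψ →
    |crS (datO I P O) ν τ ψ + ∑ i, chq (O i) * NUC43.lgp τ (ht (O i))| ≤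
      K * (s + s') * (1 + ∑ i, Real.exp (-(3 / 2 * |ht (O i)|))) + 2 * s * s' := by
  have hj : NUC43.Adm (9 / 4) (1 / 4) := ⟨by norm_num, by norm_num, by norm_num, by norm_num⟩
  obtain ⟨K1, hK1, H1⟩ := tauC_lgp hj
  obtain ⟨K2, hK2, H2⟩ := exists_Qr
  obtain ⟨Mm, hMm, Hm⟩ := NUC43.muC_bd hj
  have hKV := KV_nonneg (3 / 2)
  have hs16 := NUH0.sin16
  have hWm := NUAct.Wm_nonneg
  obtain ⟨K3, hK3⟩ : ∃ K3 : ℝ, K3 = 400 / Real.sin (1 / 16 * NUMF.l) ^ 4 := ⟨_, rfl⟩
  obtain ⟨K4, hK4⟩ : ∃ K4 : ℝ, K4 = 6 / Real.sin (1 / 16 * NUMF.l) ^ 2 := ⟨_, rfl⟩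
  have p3 : 0 < K3 := by rw [hK3]; positivity
  have p4 : 0 < K4 := by rw [hK4]; positivity
  obtain ⟨C1, hC1⟩ : ∃ C1, C1 = K2 * NUAct.Wm + K4 + CB := ⟨_, rfl⟩
  have hC10 : 0 ≤ C1 := by rw [hC1]; positivity
  refine ⟨K1 + 12 * CB * G + 4 * (Mm * NUEnW.KV (3 / 2)) + 2 * (CB * NUEnW.KV (3 / 2) * G) +
    2 * C1 + 8 * K3 + 4 * Mm + 2 * CB * G, by positivity, ?_⟩
  intro m hm I P r O dl ε M b e hok hP hMε hw g hν hτ s s' E ν τ ψ hs hψ
  have hjL := hP.jL
  have hje := hP.e
  have s0 := hs.s0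
  have s0' := hψ.s0
  obtain ⟨S2, hS2⟩ : ∃ S, S = ∑ i, Real.exp (-(2 * |ht (O i)|)) := ⟨_, rfl⟩
  obtain ⟨S, hS⟩ : ∃ S, S = ∑ i, Real.exp (-(3 / 2 * |ht (O i)|)) := ⟨_, rfl⟩
  have hS20 : 0 ≤ S2 := by rw [hS2]; exact Finset.sum_nonneg fun _ _ => (Real.exp_pos _).le
  have hSS : S2 ≤ S := by
    rw [hS2, hS]
    refine Finset.sum_le_sum fun i _ => Real.exp_le_exp.2 ?_
    have := abs_nonneg (ht (O i))
    linarith
  have hS0 : 0 ≤ S := hS20.trans hSS
  have hG0 : (0 : ℝ) ≤ G := Nat.cast_nonneg G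
  rw [← hS]
  have hrr := sum_rr hP hm O
  have hrr0 : 0 ≤ ∑ i, rr P O i := Finset.sum_nonneg fun i _ => (hok.rr1 i).1
  have hL0 : 0 ≤ Real.log (m : ℝ) := Real.log_natCast_nonneg m
  have hrr1 : ∑ i, rr P O i ≤ 1 := hrr.trans (by
    rw [div_le_one (by linarith)]
    linarith)
  have hdl0 := hok.dl0
  have hdl1 : dl ≤ 1 := by
    have := hok.d2
    linarith
  have hM0 := hok.cur.M0 hok.s0
  have hε0 := hok.cur.ε0
  -- the splitting
  have a1 : |(∫ t, (datO I P O).τ t * NUC43.lgp τ t) + ∑ i, chq (O i) * NUC43.lgp τ (ht (O i))| ≤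
      K1 * s * S2 + 12 * CB * G * s := by
    have dC := NUC43.dn_tauC (O := O) hj
    have hwI : Wt I.τD := ⟨hok.τi, hok.τ1⟩
    have i1 : Integrable fun t => NUC43.tauC (9 / 4) (1 / 4) O t * NUC43.lgp τ t :=
      NUC43.lg_out dC hs.dτ.dn
    have i2 : Integrable fun t => I.τD t * NUC43.lgp τ t := lgp_out hwI hs.dτ.wt
    have e1 : ∫ t, (datO I P O).τ t * NUC43.lgp τ t =
        (∫ t, NUC43.tauC (9 / 4) (1 / 4) O t * NUC43.lgp τ t) + ∫ t, I.τD t * NUC43.lgp τ t := by
      rw [← integral_add i1 i2]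
      refine integral_congr_ae (ae_of_all _ fun t => ?_)
      show (NUC43.tauC P.jL P.e O t + I.τD t) * _ = _
      rw [hjL, hje]
      ring
    have b1 := H1 O hs.dτ hs.τ0
    have b2 := loc_le (x := g) (c := 5 / 2) (d := 0) (A := CB) (B := 12 * s) le_rfl (by norm_num)
      hCB hτ (w := NUC43.lgp τ) (fun t => by
        rw [zero_mul, neg_zero, Real.exp_zero, mul_one]
        exact hs.dτ.lgp_le hs.τ0 t)
    simp only [zero_mul, neg_zero, Real.exp_zero, Finset.sum_const, Finset.card_univ,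
      Fintype.card_fin, nsmul_eq_mul, mul_one, sub_zero] at b2
    rw [← hS2] at b1
    rw [e1, add_right_comm]
    refine (abs_add_le _ _).trans ?_
    have h5 : 0 ≤ CB * s * G := by positivity
    linarith
  -- the densities
  have bμ : ∀ a t, |NUC43.muC P.jL P.e O a t| ≤ Mm * ∑ i, Real.exp (-(5 / 2 * |t - ht (O i)|)) := by
    intro a t
    rw [hjL, hje]
    refine (Hm (Fin r) O a t).1.trans_eq ?_
    congr 1
    exact Finset.sum_congr rfl fun i _ => by rw [neg_mul]
  have hR : Reg (datO I P O) := hok.reg'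
  have key : ∀ (a : Bool) {w : ℝ → ℝ} {B : ℝ}, Continuous w →
      (∀ t, |w t| ≤ B * Real.exp (-(3 / 2 * |t|))) →
      |∫ t, (datO I P O).μ a t * w t| ≤ 2 * Mm * B * S + CB * B * G := by
    intro a w B cw hwB
    have hB : 0 ≤ B := by
      have h1 := (abs_nonneg _).trans (hwB 0)
      rw [abs_zero, mul_zero, neg_zero, Real.exp_zero, mul_one] at h1
      exact h1
    have hwb : ∀ t, |w t| ≤ B := fun t => (hwB t).trans (by
      have h1 : Real.exp (-(3 / 2 * |t|)) ≤ 1 := Real.exp_le_one_iff.2 (by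
        have := abs_nonneg t
        linarith)
      have h2 := mul_le_mul_of_nonneg_left h1 hB
      linarith)
    have dM := NUC43.dn_muC hj O a
    have i1 : Integrable fun t => NUC43.muC (9 / 4) (1 / 4) O a t * w t := int_mul_bc dM.int cw hwb
    have i2 : Integrable fun t => I.ν a t * w t := int_mul_bc (hok.νi a) cw hwb
    have e1 : ∫ t, (datO I P O).μ a t * w t =
        (∫ t, NUC43.muC (9 / 4) (1 / 4) O a t * w t) + ∫ t, I.ν a t * w t := by
      rw [← integral_add i1 i2]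
      refine integral_congr_ae (ae_of_all _ fun t => ?_)
      show (NUC43.muC P.jL P.e O a t + I.ν a t) * _ = _
      rw [hjL, hje]
      ring
    have b1 := loc_le (x := fun i => ht (O i)) (c := 5 / 2) (d := 3 / 2) (A := Mm) (B := B)
      (by norm_num) (by norm_num) hMm (f := NUC43.muC (9 / 4) (1 / 4) O a) (w := w)
      (fun t => by
        have := bμ a t
        rwa [hjL, hje] at this) hwB
    have b2 := loc_le (x := g) (c := 5 / 2) (d := 0) (A := CB) (B := B) le_rfl (by norm_num)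
      hCB (hν a) (w := w) (fun t => by
        rw [zero_mul, neg_zero, Real.exp_zero, mul_one]
        exact hwb t)
    simp only [zero_mul, neg_zero, Real.exp_zero, Finset.sum_const, Finset.card_univ,
      Fintype.card_fin, nsmul_eq_mul, mul_one, sub_zero] at b2
    rw [← hS] at b1
    rw [e1]
    refine (abs_add_le _ _).trans ?_
    have h3 : (2 : ℝ) / (5 / 2 - 3 / 2) = 2 := by norm_num
    have h4 : (2 : ℝ) / (5 / 2) = 4 / 5 := by norm_num
    rw [h3] at b1
    rw [h4] at b2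
    have h5 : 0 ≤ CB * B * G := by positivity
    linarith
  have a2 : ∀ a, |∫ t, (datO I P O).μ a t * ∫ u, ν a u * V (t - u)| ≤
      2 * Mm * (s * NUEnW.KV (3 / 2)) * S + CB * (s * NUEnW.KV (3 / 2)) * G := fun a =>
    key a (hs.dν a).Vf_bc.1 (hs.dν a).Vdec
  have a4 : ∀ a, |∫ t, ((datO I P O).μ a t + ν a t) * ψ a t| ≤
      2 * Mm * s' * S + CB * s' * G + s * s' := by
    intro a
    have cψ := (hψ.c a).continuous
    have hψb : ∀ t, |ψ a t| ≤ s' := (hψ.rem le_rfl).b a
    have i1 : Integrable fun t => (datO I P O).μ a t * ψ a t := int_mul_bc (hR.μi a) cψ hψb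
    have i2 : Integrable fun t => ν a t * ψ a t := int_mul_bc (hs.dν a).int cψ hψb
    have e1 : ∫ t, ((datO I P O).μ a t + ν a t) * ψ a t =
        (∫ t, (datO I P O).μ a t * ψ a t) + ∫ t, ν a t * ψ a t := by
      rw [← integral_add i1 i2]
      exact integral_congr_ae (ae_of_all _ fun t => by simp only; ring)
    have b1 := key a cψ (hψ.b a)
    have b2 := loc_le (ι := Fin 1) (x := fun _ => 0) (c := 5 / 2) (d := 0) (A := s) (B := s') le_rfl
      (by norm_num) s0 (f := ν a) (w := ψ a) (fun t => by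
        rw [Fin.sum_univ_one, sub_zero]
        exact (hs.dν a).b t) (fun t => by
        rw [zero_mul, neg_zero, Real.exp_zero, mul_one]
        exact hψb t)
    simp only [zero_mul, neg_zero, Real.exp_zero, Finset.sum_const, Finset.card_univ,
      Fintype.card_fin, nsmul_eq_mul, mul_one, sub_zero, Nat.cast_one] at b2
    have h4 : (2 : ℝ) / (5 / 2) = 4 / 5 := by norm_num
    rw [h4] at b2
    rw [e1]
    refine (abs_add_le _ _).trans ?_
    have h5 : 0 ≤ s * s' := by positivity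
    linarith
  -- the remainder of the data
  have a3 : ∀ a, |∫ t, ν a t * (datO I P O).φ a t| ≤ C1 * s + 4 * K3 * s * S2 := by
    intro a
    have q1 := hok.exists_dFB (O := O) a
    obtain ⟨F', -, -, q2, -⟩ := q1
    have q3 := fun t => ((H2 (O := O) hok a).2 t).1
    obtain ⟨k1, k2⟩ := NUDispW.int_exp_abs (by norm_num : (0 : ℝ) < 5 / 2) 0
    simp only [sub_zero] at k1 k2
    have hφ : ∀ t, |(datO I P O).φ a t| ≤ C1 + K3 * ∑ i, Real.exp (-(2 * |t - ht (O i)|)) := by
      intro t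
      have h1 := q3 t
      have h2 := q2 t
      have h3 := hw a t
      have h4 : |phiO I P O a t| ≤ |Qr I P O a t| + |dFB P O I.η a t| + |wO I a t| := by
        unfold phiO
        exact abs_add_three _ _ _
      have h5 : K2 * (M * ε) * NUAct.Wb b t ≤ K2 * 1 * NUAct.Wm := by
        have := NUAct.Wb_le b t
        have := NUAct.Wb_nonneg b t
        gcongr
      have h6 : NUDispV.Bd (1 / 16) dl ≤ K3 := by
        rw [hK3]
        unfold NUDispV.Bd
        rw [mul_div_assoc, ← mul_div_assoc]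
        have : 0 < Real.sin (1 / 16 * NUMF.l) ^ 4 := by positivity
        gcongr
        linarith
      have h7 : NUDispV.Ad (1 / 16) P O ≤ K4 := by
        rw [hK4]
        unfold NUDispV.Ad
        have h8 : 0 ≤ 6 / Real.sin (1 / 16 * NUMF.l) ^ 2 := by positivity
        have := mul_le_mul_of_nonneg_left hrr1 h8
        linarith
      have h8 : 0 ≤ bmaj Finset.univ (fun i => ht (O i)) 2 t := bmaj_nonneg _ _ _ _
      have h9 := mul_le_mul_of_nonneg_right h6 h8
      have h10 : bmaj Finset.univ (fun i => ht (O i)) 2 t =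
          ∑ i, Real.exp (-(2 * |t - ht (O i)|)) := rfl
      show |phiO I P O a t| ≤ _
      rw [← h10, hC1]
      linarith
    have hi1 : Integrable fun t => ∑ i, Real.exp (-(5 / 2 * |t|)) * Real.exp (-(2 * |t - ht (O i)|)) := by
      refine integrable_finsetSum _ fun i _ => ?_
      refine k1.mono' (Continuous.aestronglyMeasurable (by fun_prop)) (ae_of_all _ fun t => ?_)
      rw [Real.norm_eq_abs, abs_of_nonneg (by positivity)]
      have h1 : Real.exp (-(2 * |t - ht (O i)|)) ≤ 1 := Real.exp_le_one_iff.2 (by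
        have := abs_nonneg (t - ht (O i))
        linarith)
      exact mul_le_of_le_one_right (Real.exp_pos _).le h1
    have hp : ∀ t, |ν a t * (datO I P O).φ a t| ≤ (s * C1) * Real.exp (-(5 / 2 * |t|)) +
        (s * K3) * ∑ i, Real.exp (-(5 / 2 * |t|)) * Real.exp (-(2 * |t - ht (O i)|)) := by
      intro t
      rw [abs_mul]
      calc |ν a t| * |(datO I P O).φ a t| ≤ (s * Real.exp (-(5 / 2 * |t|))) *
            (C1 + K3 * ∑ i, Real.exp (-(2 * |t - ht (O i)|))) :=
            mul_le_mul ((hs.dν a).b t) (hφ t) (abs_nonneg _) (by positivity)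
        _ = _ := by
          rw [← Finset.mul_sum]
          ring
    have h1 : |∫ t, ν a t * (datO I P O).φ a t| ≤ ∫ t, ((s * C1) * Real.exp (-(5 / 2 * |t|)) +
        (s * K3) * ∑ i, Real.exp (-(5 / 2 * |t|)) * Real.exp (-(2 * |t - ht (O i)|))) := by
      rw [← Real.norm_eq_abs]
      exact norm_integral_le_of_norm_le ((k1.const_mul _).add (hi1.const_mul _))
        (ae_of_all _ fun t => by
          rw [Real.norm_eq_abs]
          exact hp t)
    have e1 : ∫ t, ((s * C1) * Real.exp (-(5 / 2 * |t|)) +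
        (s * K3) * ∑ i, Real.exp (-(5 / 2 * |t|)) * Real.exp (-(2 * |t - ht (O i)|))) =
        (s * C1) * (2 / (5 / 2)) +
        (s * K3) * ∫ t, ∑ i, Real.exp (-(5 / 2 * |t|)) * Real.exp (-(2 * |t - ht (O i)|)) := by
      rw [integral_add (k1.const_mul _) (hi1.const_mul _), integral_const_mul, integral_const_mul, k2]
    have h2 : ∫ t, ∑ i, Real.exp (-(5 / 2 * |t|)) * Real.exp (-(2 * |t - ht (O i)|)) ≤ 4 * S2 := by
      obtain ⟨k3, k4⟩ := NUDispW.int_exp_abs (by norm_num : (0 : ℝ) < 1 / 2) 0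
      simp only [sub_zero] at k3 k4
      have h3 : ∀ t, ∑ i, Real.exp (-(5 / 2 * |t|)) * Real.exp (-(2 * |t - ht (O i)|)) ≤
          S2 * Real.exp (-(1 / 2 * |t|)) := by
        intro t
        rw [hS2, Finset.sum_mul]
        refine Finset.sum_le_sum fun i _ => ?_
        rw [← Real.exp_add, ← Real.exp_add]
        refine Real.exp_le_exp.2 ?_
        have h5 : |ht (O i)| ≤ |t| + |t - ht (O i)| := by
          have := abs_sub_abs_le_abs_sub (ht (O i)) t
          rw [abs_sub_comm] at this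
          linarith
        linarith
      refine (integral_mono hi1 (k3.const_mul S2) h3).trans_eq ?_
      rw [integral_const_mul, k4]
      ring
    have h3 : 0 ≤ s * K3 := by positivity
    have h4 := mul_le_mul_of_nonneg_left h2 h3
    rw [e1] at h1
    have h5 : 0 ≤ s * C1 := by positivity
    have h6 : (2 : ℝ) / (5 / 2) = 4 / 5 := by norm_num
    rw [h6] at h1
    linarith
  -- the sum
  have e1 : crS (datO I P O) ν τ ψ + ∑ i, chq (O i) * NUC43.lgp τ (ht (O i)) =
      ((∫ t, (datO I P O).τ t * NUC43.lgp τ t) + ∑ i, chq (O i) * NUC43.lgp τ (ht (O i))) +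
      (((∫ t, (datO I P O).μ true t * ∫ u, ν true u * V (t - u)) +
        (∫ t, ν true t * (datO I P O).φ true t) +
        ∫ t, ((datO I P O).μ true t + ν true t) * ψ true t) +
      ((∫ t, (datO I P O).μ false t * ∫ u, ν false u * V (t - u)) +
        (∫ t, ν false t * (datO I P O).φ false t) +
        ∫ t, ((datO I P O).μ false t + ν false t) * ψ false t)) := by
    unfold crS
    rw [Fintype.sum_bool]
    ring
  rw [e1]
  have t1 := abs_add_three (∫ t, (datO I P O).μ true t * ∫ u, ν true u * V (t - u))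
    (∫ t, ν true t * (datO I P O).φ true t) (∫ t, ((datO I P O).μ true t + ν true t) * ψ true t)
  have t2 := abs_add_three (∫ t, (datO I P O).μ false t * ∫ u, ν false u * V (t - u))
    (∫ t, ν false t * (datO I P O).φ false t) (∫ t, ((datO I P O).μ false t + ν false t) * ψ false t)
  refine (abs_add_le _ _).trans ?_
  refine (add_le_add a1 ((abs_add_le _ _).trans (add_le_add (t1.trans (add_le_add_three (a2 true)
    (a3 true) (a4 true))) (t2.trans (add_le_add_three (a2 false) (a3 false) (a4 false)))))).trans ?_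
  have g1 : K1 * s * S2 ≤ K1 * s * S := mul_le_mul_of_nonneg_left hSS (by positivity)
  have g2 : 4 * K3 * s * S2 ≤ 4 * K3 * s * S := mul_le_mul_of_nonneg_left hSS (by positivity)
  have n1 : 0 ≤ K1 * s := by positivity
  have n2 : 0 ≤ K1 * s' * (1 + S) := by positivity
  have n3 : 0 ≤ CB * G * s * S := by positivity
  have n4 : 0 ≤ CB * G * s' * (1 + S) := by positivity
  have n5 : 0 ≤ Mm * NUEnW.KV (3 / 2) * s := by positivity
  have n6 : 0 ≤ Mm * NUEnW.KV (3 / 2) * s' * (1 + S) := by positivity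
  have n7 : 0 ≤ CB * NUEnW.KV (3 / 2) * G * s * S := by positivity
  have n8 : 0 ≤ CB * NUEnW.KV (3 / 2) * G * s' * (1 + S) := by positivity
  have n9 : 0 ≤ C1 * s * S := by positivity
  have n10 : 0 ≤ C1 * s' * (1 + S) := by positivity
  have n11 : 0 ≤ K3 * s := by positivity
  have n12 : 0 ≤ K3 * s' * (1 + S) := by positivity
  have n13 : 0 ≤ Mm * s' := by positivity
  have n14 : 0 ≤ Mm * s * (1 + S) := by positivity
  have n15 : 0 ≤ CB * G * s' * S := by positivity
  have n16 : 0 ≤ CB * G * s * (1 + S) := by positivity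
  linarith

end NUSea.H0

end
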