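import Pool.Agent.IST.CrudeSC

/-!
# The crude bound with a bounded potential

* `RemOk b E ψ`: a bounded potential of finite energy: no decay, no place, no neutrality;
* `bdP`: its value on the quanta, `bdMF`: its mean field value;
* **`crudeB`**: the crude bound of a configuration with the factor `exp (bdP - bdMF - K1 b (1 + r))`,
  price `exp (C1 (b + 1 + E) + x0 (b + 1)²)`.
-/

set_option autoImplicit false
set_option linter.unusedSectionVars false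

noncomputable section

open MeasureTheory Finset
open scoped ENNReal

namespace NUSea.H0

open NUMF NUO NUStabP NUDispW NUEnW
open NUR2 (Cfg)
open NUH0 (plt plt_nonneg)

/-- the zero source -/
def ν0 : Bool → ℝ → ℝ := fun _ _ => 0

/-- the zero splitting -/
def τ0 : ℝ → ℝ := fun _ => 0

lemma lgp_zero (t : ℝ) : NUC43.lgp τ0 t = 0 := by
  unfold NUC43.lgp τ0
  simp

lemma srcOk_zero {s : ℝ} (hs : 0 ≤ s) : SrcOk s ν0 τ0 where
  dν _ := ⟨hs, continuous_const, fun t => by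
    show |(0 : ℝ)| ≤ _
    rw [abs_zero]
    positivity⟩
  dτ := ⟨hs, continuous_const, fun t => by
    show |(0 : ℝ)| ≤ _
    rw [abs_zero]
    positivity⟩
  τ0 := by simp [τ0]

lemma srcP_zero (a : Bool) (t : ℝ) : srcP ν0 τ0 a t = 0 := by
  unfold srcP
  rw [lgp_zero]
  simp [ν0]

lemma srcEn_zero : srcEn ν0 τ0 = 0 := by
  unfold srcEn
  simp [ν0, τ0]

/-- a bounded potential on the quanta -/
def bdP (ψ : Bool → ℝ → ℝ) {p q : ℕ} (y : (Fin p → ℝ) × (Fin q → ℝ)) : ℝ :=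
  ∑ i, ψ true (y.1 i) + ∑ i, ψ false (y.2 i)

variable [Sea]

/-- its mean field value, `m` rows -/
def bdMF (m : ℕ) (ψ : Bool → ℝ → ℝ) : ℝ := ∑ a, ∫ t, ((m : ℝ) * P t) * ψ a t

/-- the cross terms of a bounded potential -/
theorem crB_le (CB : ℝ) (hCB : 0 ≤ CB) (G : ℕ) : ∃ K : ℝ, 0 ≤ K ∧
    ∀ {I : Inp} {P : Par} {m r : ℕ} {O : Fin r → Xo} {dl ε M b : ℝ} {e : ℝ → ℝ},
    IOk dl ε M b e I P r → ParG m P → ∀ g : Fin G → ℝ,
    (∀ a t, |I.ν a t| ≤ CB * ∑ j, Real.exp (-(5 / 2 * |t - g j|))) →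
    ∀ {s E : ℝ} {ψ : Bool → ℝ → ℝ}, RemOk s E ψ →
    |crS (datO I P O) ν0 τ0 ψ| ≤ K * s * (1 + r) := by
  have hj : NUC43.Adm (9 / 4) (1 / 4) := ⟨by norm_num, by norm_num, by norm_num, by norm_num⟩
  obtain ⟨Mm, hMm, Hm⟩ := NUC43.muC_bd hj
  refine ⟨2 * (Mm + CB * G), by positivity, ?_⟩
  intro I P m r O dl ε M b e hok hP g hν s E ψ hψ
  have hjL := hP.jL
  have hje := hP.e
  have s0 : 0 ≤ s := (abs_nonneg _).trans (hψ.b true 0)
  have hG0 : (0 : ℝ) ≤ G := Nat.cast_nonneg G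
  have hr0 : (0 : ℝ) ≤ r := Nat.cast_nonneg r
  have key : ∀ a, |∫ t, (datO I P O).μ a t * ψ a t| ≤ Mm * s * r + CB * s * G := by
    intro a
    have cw := (hψ.c a).continuous
    have dM := NUC43.dn_muC hj O a
    have i1 : Integrable fun t => NUC43.muC (9 / 4) (1 / 4) O a t * ψ a t :=
      int_mul_bc dM.int cw (hψ.b a)
    have i2 : Integrable fun t => I.ν a t * ψ a t := int_mul_bc (hok.νi a) cw (hψ.b a)
    have e1 : ∫ t, (datO I P O).μ a t * ψ a t =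
        (∫ t, NUC43.muC (9 / 4) (1 / 4) O a t * ψ a t) + ∫ t, I.ν a t * ψ a t := by
      rw [← integral_add i1 i2]
      refine integral_congr_ae (ae_of_all _ fun t => ?_)
      show (NUC43.muC P.jL P.e O a t + I.ν a t) * _ = _
      rw [hjL, hje]
      ring
    have hw : ∀ t, |ψ a t| ≤ s * Real.exp (-(0 * |t|)) := fun t => by
      rw [zero_mul, neg_zero, Real.exp_zero, mul_one]
      exact hψ.b a t
    have b1 := loc_le (x := fun i => ht (O i)) (c := 5 / 2) (d := 0) (A := Mm) (B := s)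
      le_rfl (by norm_num) hMm (f := NUC43.muC (9 / 4) (1 / 4) O a) (w := ψ a)
      (fun t => (Hm (Fin r) O a t).1.trans_eq (by
        congr 1
        exact Finset.sum_congr rfl fun i _ => by rw [neg_mul])) hw
    have b2 := loc_le (x := g) (c := 5 / 2) (d := 0) (A := CB) (B := s) le_rfl (by norm_num)
      hCB (hν a) (w := ψ a) hw
    simp only [zero_mul, neg_zero, Real.exp_zero, Finset.sum_const, Finset.card_univ,
      Fintype.card_fin, nsmul_eq_mul, mul_one, sub_zero] at b1 b2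
    have h4 : (2 : ℝ) / (5 / 2) = 4 / 5 := by norm_num
    rw [h4] at b1 b2
    rw [e1]
    refine (abs_add_le _ _).trans ?_
    have h5 : 0 ≤ CB * s * G := by positivity
    have h6 : 0 ≤ Mm * s * r := by positivity
    linarith
  have e1 : crS (datO I P O) ν0 τ0 ψ = (∫ t, (datO I P O).μ true t * ψ true t) +
      ∫ t, (datO I P O).μ false t * ψ false t := by
    unfold crS
    rw [Fintype.sum_bool]
    simp [ν0, lgp_zero]
  rw [e1]
  refine (abs_add_le _ _).trans ?_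
  have h1 := key true
  have h2 := key false
  have h5 : 0 ≤ CB * s * G * r := by positivity
  have h6 : 0 ≤ Mm * s := by positivity
  nlinarith only [h1, h2, h5, h6]

/-- **the crude bound with a bounded potential** -/
theorem crudeB {CW : ℝ} (hCW : 0 ≤ CW) (G : ℕ) : ∃ K1 : ℝ, 0 ≤ K1 ∧
    ∀ {ep : ℝ}, 0 < ep → ep ≤ 1 / 100 → ∀ {e1 : ℝ}, 0 < e1 → e1 ≤ 1 / 100 → ∀ {δ : ℝ}, 0 < δ →
    ∀ (k : ℕ) {κ CB : ℝ}, 0 < κ → 0 ≤ CB →
    ∃ C1 : ℝ, 0 ≤ C1 ∧ ∀ kap : ℝ, 0 < kap → ∀ x0 : ℝ, 0 < x0 →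
    ∃ ϑ Cst : ℝ, 0 < ϑ ∧ 0 ≤ Cst ∧ ∃ m0 : ℕ, ∀ m ≥ m0,
      ∀ (I : Inp) (P : Par) (r : ℕ) (O : Fin r → Xo) (g : Fin G → ℝ) (p n : ℕ)
        (aX aY cf B1 : ℝ → ℝ) (T1 D q S : ℝ),
      DatC ep e1 κ CB ϑ k m I P O g p n aX aY cf B1 T1 D q S →
      (∀ a t, |I.ν a t| ≤ CW * ∑ j, Real.exp (-(5 / 2 * |t - g j|))) →
      ∀ (s : ℕ) (E : ℝ), 0 ≤ E → ∀ ψ : Bool → ℝ → ℝ, RemOk s E ψ →
        ∫⁻ y, ENNReal.ofReal (W0 (datO I P O) p n aX aY cf y) *
            ENNReal.ofReal (Real.exp (bdP ψ y -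
              ∑ a, (∫ t, (datO I P O).ρ t * ψ a t) - K1 * s * (1 + r))) ≤
          ENNReal.ofReal ((p.factorial : ℝ) * n.factorial *
            (Cst * (m : ℝ) ^ (7 / 8 + 2 * (ep + e1) + δ) * (1 + S) *
              Real.exp (confC ep e1 m I P p n 6 kap O T1))) *
          ENNReal.ofReal (Real.exp (C1 * (s + E) + x0 * (s : ℝ) ^ 2)) := by
  obtain ⟨K, hK, HK⟩ := crB_le CW hCW G
  refine ⟨K, hK, ?_⟩
  intro ep hep hep1 e1 he he1 δ hδ k κ CB hκ hCB
  obtain ⟨C1, hC1, HC⟩ := crudeS hep hep1 he he1 hδ k hκ hCB G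
  refine ⟨C1, hC1, ?_⟩
  intro kap hkap x0 hx0
  obtain ⟨ϑ, Cst, hϑ, hCst, m0, H⟩ := HC kap hkap x0 hx0
  refine ⟨ϑ, Cst, hϑ, hCst, m0, ?_⟩
  intro m hm I P r O g p n aX aY cf B1 T1 D q S hD hν s E hE ψ hψ
  have hs0 : (0 : ℝ) ≤ s := Nat.cast_nonneg s
  have hs := srcOk_zero hs0
  obtain ⟨dl, ε, M, e, hok, hε, hM, hdl⟩ := hD.ok
  have hcr := HK (O := O) hok hD.par g hν hψ
  have hEn := En_addS hok hD.fld hs hψ
  have h1 := H m hm I P r O g p n aX aY cf B1 T1 D q S hD s E hE ν0 τ0 ψ hs hψ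
  simp only [srcP_zero, zero_add] at h1 hEn
  rw [srcEn_zero, add_zero] at hEn
  obtain ⟨MFv, hMF⟩ : ∃ v, v = ∑ a, (∫ t, (datO I P O).ρ t * ψ a t) := ⟨_, rfl⟩
  rw [← hMF]
  rw [← hMF] at hEn
  -- the constant factor
  obtain ⟨c, hc⟩ : ∃ c, c = -MFv - K * s * (1 + r) := ⟨_, rfl⟩
  have e1' : ∀ y : Cfg p n, ENNReal.ofReal (W0 (datO I P O) p n aX aY cf y) *
      ENNReal.ofReal (Real.exp (bdP ψ y - MFv - K * s * (1 + r))) =
      ENNReal.ofReal (Real.exp c) * (ENNReal.ofReal (W0 (datO I P O) p n aX aY cf y) *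
        ENNReal.ofReal (Real.exp (∑ i, ψ true (y.1 i) + ∑ i, ψ false (y.2 i)))) := by
    intro y
    have e2 : Real.exp (bdP ψ y - MFv - K * s * (1 + r)) =
        Real.exp c * Real.exp (∑ i, ψ true (y.1 i) + ∑ i, ψ false (y.2 i)) := by
      rw [← Real.exp_add, hc]
      congr 1
      unfold bdP
      ring
    rw [e2, ENNReal.ofReal_mul (Real.exp_pos _).le]
    ring
  simp_rw [e1']
  rw [lintegral_const_mul' _ _ ENNReal.ofReal_ne_top]
  refine (mul_le_mul_right h1 _).trans ?_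
  rw [← ENNReal.ofReal_mul (Real.exp_pos _).le, ← ENNReal.ofReal_mul' (Real.exp_pos _).le]
  refine ENNReal.ofReal_le_ofReal ?_
  have hS0 : 0 ≤ S := le_trans (mul_nonneg hD.shl.D0 (Real.exp_pos _).le) hD.DS
  have hconf : confC ep e1 m (addS I ν0 τ0 ψ) P p n 6 kap O T1 =
      confC ep e1 m I P p n 6 kap O T1 + (MFv + crS (datO I P O) ν0 τ0 ψ) := by
    unfold confC
    rw [hEn]
    show MFs I.s p n + _ + _ + _ + _ = _
    ring
  rw [hconf]
  have h5 : c + (C1 * (s + E) + x0 * (s : ℝ) ^ 2 + (MFv + crS (datO I P O) ν0 τ0 ψ)) ≤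
      C1 * (s + E) + x0 * (s : ℝ) ^ 2 := by
    rw [hc]
    have := (abs_le.1 hcr).2
    linarith
  have h9 := Real.exp_le_exp.2 h5
  rw [Real.exp_add c, Real.exp_add (C1 * (s + E) + x0 * (s : ℝ) ^ 2)] at h9
  have h10 : 0 ≤ (p.factorial : ℝ) * n.factorial * (Cst *
      (m : ℝ) ^ (7 / 8 + 2 * (ep + e1) + δ) * (1 + S) * Real.exp (confC ep e1 m I P p n 6 kap O T1)) := by
    positivity
  have h11 := mul_le_mul_of_nonneg_left h9 h10
  rw [Real.exp_add (confC ep e1 m I P p n 6 kap O T1)]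
  refine le_trans (le_of_eq ?_) h11
  ring

end NUSea.H0

end
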