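import Pool.Agent.NUSea.H0.InstC

/-!
# The crude bound of a configuration, uniform in the number of places

`DatE`: as `DatC`, every number `G` of places, remainder of size `CB (1 + G)` and with an additional
energy `CE`.  **`crudeE`**: the crude bound with the factor `exp (C1 CE + 6 G + x0 G²)`, `x0 > 0`
arbitrary; `C1` independent of `x0`, everything else independent of `G`, `CE`.
-/

set_option autoImplicit false

noncomputable section

open MeasureTheory Finset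
open scoped ENNReal

namespace NUSea.H0

open NUO NUStabP NUDispW NUEnW
open NUH0 (plt plt_nonneg qc T0i T0i_ge shF shF_nonneg)

/-! ### elementary inequalities -/

lemma jq1 {L y : ℝ} (hy0 : 0 < y) (h1 : 1 ≤ L * y) : 1 ≤ y * (1 + L) := by nlinarith

lemma jq2 {dl r : ℝ} (hr0 : 0 ≤ r) (h : dl ≤ 1) : dl * r ≤ r := by nlinarith

lemma jq3 {K CB r L : ℝ} (hK : 0 ≤ K) (hCB : 0 ≤ CB) (hr : 0 ≤ r) (hL : 0 ≤ L) :
    K * (2 + r) + CB ≤ (3 * K + CB) * (r + 1 + L) := by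
  have h9 : 0 ≤ CB * (r + L) := by positivity
  have h8 : 0 ≤ K * (1 + 2 * r + 3 * L) := by positivity
  linarith

lemma jq4 {A r G L : ℝ} (hA1 : 1 ≤ A) (hr : 0 ≤ r) (hG : 0 ≤ G) (hL : 0 ≤ L) : 1 ≤ A * (r + G + 1 + L) := by
  have h := mul_le_mul hA1 (show (1:ℝ) ≤ r + G + 1 + L by linarith) zero_le_one (by linarith)
  linarith

lemma jq5 {a b c d : ℝ} (h1 : a ≤ b) (h2 : b ≤ c) (h3 : c ≤ d) (h4 : 1 ≤ d) : a ≤ d ^ 2 := by nlinarith

lemma jq6 {a b A Mm CB X Y Z : ℝ} (h1 : a ≤ Mm * X) (h2 : b ≤ CB * (Y + Z)) (h4 : Mm * X ≤ A * X)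
    (h5 : CB * (Y + Z) ≤ A * (Y + Z)) : a + b ≤ A * (X + Y + Z) := by
  have e : A * (X + Y + Z) = A * X + A * (Y + Z) := by ring
  rw [e]
  linarith

lemma jq7 {e L : ℝ} (he : 0 ≤ e) (hL : 0 ≤ L) : (1 - e) * (3 / 8 * L) ≤ L := by
  have h := mul_nonneg he hL
  have e1 : (1 - e) * (3 / 8 * L) = 3 / 8 * L - 3 / 8 * (e * L) := by ring
  rw [e1]
  linarith

lemma jq8 {S : ℝ} (h0 : 0 ≤ S) (h1 : S ≤ 1) : S ^ 2 ≤ S := by nlinarith

lemma jq9 {KN y x W T : ℝ} (hW : 0 ≤ W) (hT : 0 ≤ T) (h : KN * y ≤ x / 16) :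
    KN * (2 + y * W + y * (T + 1)) ≤ 2 * KN + x / 16 * W + x / 16 * (T + 1) := by
  have h1 := mul_le_mul_of_nonneg_right h hW
  have h2 := mul_le_mul_of_nonneg_right h (show 0 ≤ T + 1 by linarith)
  have e : KN * (2 + y * W + y * (T + 1)) = 2 * KN + KN * y * W + KN * y * (T + 1) := by ring
  rw [e]
  linarith

lemma jq10 {N1 N2 R KN CB x W T : ℝ} (h1 : N1 ≤ R + 3 * (CB + x / 24 * (T + 1)))
    (h2 : N2 ≤ R + 3 * (CB + x / 24 * (T + 1))) (h3 : R ≤ 2 * KN + x / 16 * W + x / 16 * (T + 1))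
    (h6 : 0 ≤ x * W) (h7 : 0 ≤ x * T) (hx : 0 ≤ x) (hKN : 0 ≤ KN) :
    N1 + N2 ≤ 8 * KN + 6 * CB + x + x * W + x * T := by
  linarith

variable [Sea]

/-- **data of the gas**, with an additional energy `CE` of the remainder -/
structure DatE (ep e1 κ CB ϑ CE : ℝ) (k m : ℕ) (I : Inp) (P : Par) {r : ℕ} (O : Fin r → Xo)
    {G : ℕ} (g : Fin G → ℝ) (p n : ℕ) (aX aY cf B1 : ℝ → ℝ) (T1 D q S : ℝ) : Prop where
  s1 : (m : ℝ) / 2 ≤ I.s
  s2 : I.s ≤ 2 * m
  pk : (p : ℝ) ≤ 8 * m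
  nk : (n : ℝ) ≤ 8 * m
  rk : (r : ℝ) ≤ 8 * m
  par : ParG m P
  ok : ∃ (dl ε M : ℝ) (e : ℝ → ℝ), IOk dl ε M ((1 - e1) * Tb (Real.log m)) e I P r ∧
    ε ≤ (m : ℝ) ^ (-κ) ∧ M ≤ Real.log m ^ k ∧
    dl ≤ 1 / (6000 * ((r : ℝ) + 1) ^ 2) + 3 * (m : ℝ) ^ (-κ)
  fld : Fld (datO I P O) p n
  shl : Shl (datO I P O) aX aY cf B1 D q
  q1 : 49 / 20 ≤ q
  tw : TW ep e1 m + excS (TW ep e1 m) O ≤ T1
  DS : D * Real.exp (-(q * T1)) ≤ S
  gs : ∀ j, |g j| ≤ T1
  ν0 : ∀ a t, |I.ν a t| ≤ CB * (∑ j, Real.exp (-(5 / 2 * |t - g j|)) + NUH0.plt (TW ep e1 m) t)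
  w0 : ∀ a t, |wO I a t| ≤ CB * (1 + G)
  w1 : ∀ a T, 0 ≤ T → ∫ t in (-(T + 1))..(T + 1), (wO I a t ^ 2 + deriv (wO I a) t ^ 2) ≤
    (CB + CE) + ϑ * (T + 1)

/-- **the instance of a configuration**, every number of places -/
theorem instE {ep : ℝ} (_hep : 0 < ep) (_hep1 : ep ≤ 1 / 100) {e1 : ℝ} (he : 0 < e1) (_he1 : e1 ≤ 1 / 100)
    (k : ℕ) {κ CB : ℝ} (hκ : 0 < κ) (hCB : 0 ≤ CB) : ∃ A : ℝ, 1 ≤ A ∧ ∀ x : ℝ, 0 < x →
    ∃ ϑ N1 : ℝ, 0 < ϑ ∧ 0 ≤ N1 ∧ ∃ m0 : ℕ, ∀ m ≥ m0, ∀ (G : ℕ) (CE : ℝ), 0 ≤ CE →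
      ∀ (I : Inp) (P : Par) (r : ℕ) (O : Fin r → Xo) (g : Fin G → ℝ) (p n : ℕ)
        (aX aY cf B1 : ℝ → ℝ) (T1 D q S : ℝ),
      DatE ep e1 κ CB ϑ CE k m I P O g p n aX aY cf B1 T1 D q S →
        Inst (datO I P O) p n 8 A κ m (hts O g) (TW ep e1 m) ((1 - e1) * Tb (Real.log m))
          (fun _ => I.η) (fun _ => I.η1) ∧
        ∀ T, 0 ≤ T → NT (datO I P O) T ≤ N1 + 6 * CE + x * win univ (fun i => ht (O i)) + x * T := by
  have hadm : NUC43.Adm (9 / 4) (1 / 4) := ⟨by norm_num, by norm_num, by norm_num, by norm_num⟩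
  obtain ⟨Kg, hKg, Hgeo⟩ := exists_geo
  obtain ⟨Kφ, hKφ, Hφ⟩ := exists_phi_le
  obtain ⟨KN, hKN, HN⟩ := exists_NT
  obtain ⟨Mm, hMm, Hm⟩ := NUC43.muC_bd hadm
  obtain ⟨A, hA⟩ : ∃ A : ℝ, A = 1 + 3 * Kφ + CB + Mm := ⟨_, rfl⟩
  have hA1 : 1 ≤ A := by rw [hA]; linarith
  refine ⟨A, hA1, ?_⟩
  intro x hx
  obtain ⟨y, hy⟩ : ∃ y : ℝ, y = x / (16 * KN) := ⟨_, rfl⟩
  have hy0 : 0 < y := by rw [hy]; positivity
  have hyK : KN * y ≤ x / 16 := by
    rw [hy]
    apply le_of_eq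
    field_simp
  -- numbers
  obtain ⟨m1, hm1⟩ := NUS4.log_pow_small 0 hκ Kg
  obtain ⟨m2, hm2⟩ := NUS4.log_pow_small k hκ 1
  obtain ⟨m3, hm3⟩ := NUS4.log_pow_small (2 * k + 1) (show 0 < 2 * κ by positivity) 1
  obtain ⟨m4, hm4⟩ := NUS4.log_pow_small 0 (show 0 < 2 * κ by positivity) (18 / y)
  obtain ⟨m5, hm5⟩ := (Real.tendsto_log_atTop.comp tendsto_natCast_atTop_atTop).eventually
    (Filter.eventually_ge_atTop (1 / y)) |>.exists_forall_of_atTop
  refine ⟨x / 24, 8 * KN + 6 * CB + x, by positivity, by positivity,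
    max (max (max m1 m2) (max m3 m4)) (max m5 3), ?_⟩
  intro m hm G CE hCE I P r O g p n aX aY cf B1 T1 D q S hD
  have hM1 : m1 ≤ m := (le_max_left _ _).trans ((le_max_left _ _).trans ((le_max_left _ _).trans hm))
  have hM2 : m2 ≤ m := (le_max_right _ _).trans ((le_max_left _ _).trans ((le_max_left _ _).trans hm))
  have hM3 : m3 ≤ m := (le_max_left _ _).trans ((le_max_right _ _).trans ((le_max_left _ _).trans hm))
  have hM4 : m4 ≤ m := (le_max_right _ _).trans ((le_max_right _ _).trans ((le_max_left _ _).trans hm))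
  have hM5 : m5 ≤ m := (le_max_left _ _).trans ((le_max_right _ _).trans hm)
  have hm3' : 3 ≤ m := (le_max_right _ _).trans ((le_max_right _ _).trans hm)
  have hmr : (3:ℝ) ≤ m := by exact_mod_cast hm3'
  have hmp : (0:ℝ) < m := by linarith
  obtain ⟨L, hL⟩ : ∃ L, L = Real.log m := ⟨_, rfl⟩
  have hL0 : 0 ≤ L := by rw [hL]; exact Real.log_nonneg (by linarith)
  obtain ⟨z, hz⟩ : ∃ z, z = (m : ℝ) ^ (-κ) := ⟨_, rfl⟩
  have hz0 : 0 ≤ z := by rw [hz]; exact (Real.rpow_pos_of_pos hmp _).le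
  have hz2 : z ^ 2 = (m : ℝ) ^ (-(2 * κ)) := by
    rw [hz, ← Real.rpow_natCast, ← Real.rpow_mul hmp.le]
    congr 1
    push_cast
    ring
  have n1 : Kg * z ≤ 1 := by
    have := hm1 m hM1
    rw [pow_zero, mul_one, ← hz] at this
    exact this
  have n2 : L ^ k * z ≤ 1 := by
    have := hm2 m hM2
    rw [one_mul, ← hz, ← hL] at this
    exact this
  have n3 : L ^ (2 * k + 1) * z ^ 2 ≤ 1 := by
    have := hm3 m hM3
    rw [one_mul, ← hz2, ← hL] at this
    exact this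
  have n4 : 18 * z ^ 2 ≤ y := by
    have := hm4 m hM4
    rw [pow_zero, mul_one, ← hz2, div_mul_eq_mul_div, div_le_one hy0] at this
    exact this
  have n5 : 1 ≤ y * (1 + L) := by
    have h1 : 1 / y ≤ L := by
      have := hm5 m hM5
      rw [hL]
      exact this
    rw [div_le_iff₀ hy0] at h1
    exact jq1 hy0 h1
  obtain ⟨dl, ε, M, e, hok, hε, hM, hdl⟩ := hD.ok
  rw [← hz] at hε hdl
  rw [← hL] at hM
  have hεn := hok.cur.ε0
  have hMn := hok.cur.M0 hok.s0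
  have hMe : M * ε ≤ 1 := by
    calc M * ε ≤ L ^ k * z := by gcongr
      _ ≤ 1 := n2
  have hrr := sum_rr hD.par (by omega) O
  have hrr0 : 0 ≤ ∑ i, rr P O i := Finset.sum_nonneg fun i _ => (hok.rr1 i).1
  rw [← hL] at hrr
  have hr1 : ∑ i, rr P O i ≤ 1 := hrr.trans (by
    rw [div_le_one (by linarith)]
    linarith)
  have hr0 : (0:ℝ) ≤ r := Nat.cast_nonneg r
  have hw0 := win_nonneg (Finset.univ : Finset (Fin r)) (fun i => ht (O i))
  have hw1 := NUS4.win_le_sq (fun i => ht (O i))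
  constructor
  · have hsk : (datO I P O).s ≤ 8 * (m : ℝ) := by
      show I.s ≤ 8 * (m : ℝ)
      linarith [hD.s2]
    refine ⟨hD.pk, hD.nk, hsk, ?_, hD.fld, hok.reg', ?_,
      ?_, ?_, ?_, fun a => datO_D I P O a, fun a => datO_D1 I P O a, fun _ => hok.der,
      fun _ => ⟨ε, M, e, hok.cur, hε.trans_eq hz⟩⟩
    · exact ⟨Kg * ε, Hgeo hok (le_trans (by gcongr) n1)⟩
    · exact fun a t => ((hok.phi_C1 (fun a => hok.Qr_C1 a) a).differentiable (by norm_num) t).hasDerivAt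
    · exact fun a => (hok.phi_C1 (fun a => hok.Qr_C1 a) a).continuous_deriv le_rfl
    · intro a t
      have h1 := Hφ (O := O) hok a t
      have h2 := hD.w0 a t
      have h3 : dl * r ≤ r := jq2 hr0 (by
        have := hok.d2
        linarith)
      have h4 : M * ε + dl * r + ∑ i, rr P O i ≤ 2 + r := by linarith
      have h5 : |phiO I P O a t| ≤ Kφ * (2 + r) + CB * (1 + G) := by
        refine h1.trans (add_le_add ?_ h2)
        gcongr
      have h6 : 1 ≤ (r : ℝ) + 1 + L := by linarith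
      show |phiO I P O a t| ≤ qc A (r + G) m ^ 2
      have hG0 : (0 : ℝ) ≤ G := Nat.cast_nonneg G
      unfold qc
      rw [← hL]
      push_cast
      have h7 : Kφ * (2 + r) + CB * (1 + G) ≤ A * (r + G + 1 + L) := by
        have h8 : Kφ * (2 + r) + CB ≤ (3 * Kφ + CB) * (r + 1 + L) :=
          jq3 (by linarith) hCB hr0 hL0
        have h9 : (3 * Kφ + CB) * (r + G + 1 + L) ≤ A * (r + G + 1 + L) :=
          mul_le_mul_of_nonneg_right (by rw [hA]; linarith) (by linarith)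
        have h10 : 0 ≤ Kφ * (G : ℝ) := mul_nonneg (by linarith) hG0
        linarith only [h8, h9, h10]
      exact jq5 h5 h7 le_rfl (jq4 hA1 hr0 hG0 hL0)
    · intro a t
      have h1 := (Hm (Fin r) O a t).1
      have h2 : |I.ν a t| ≤ CB * (bmaj Finset.univ g (5 / 2) t + plt (TW ep e1 m) t) := by
        refine (hD.ν0 a t).trans_eq ?_
        unfold bmaj
        congr 2
      have h3 : |NUC43.muC P.jL P.e O a t| ≤ Mm * bmaj Finset.univ (fun i => ht (O i)) (5 / 2) t := by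
        rw [hD.par.jL, hD.par.e]
        refine h1.trans_eq ?_
        unfold bmaj
        congr 1
        exact Finset.sum_congr rfl fun i _ => by ring_nf
      have hb0 : 0 ≤ bmaj Finset.univ (fun i => ht (O i)) (5 / 2) t := bmaj_nonneg _ _ _ _
      have hp0 := plt_nonneg (TW ep e1 m) t
      show |NUC43.muC P.jL P.e O a t + I.ν a t| ≤ _
      refine (abs_add_le _ _).trans ?_
      have h4 : Mm * bmaj Finset.univ (fun i => ht (O i)) (5 / 2) t ≤
          A * bmaj Finset.univ (fun i => ht (O i)) (5 / 2) t := by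
        gcongr
        rw [hA]
        linarith
      have hb1 : 0 ≤ bmaj Finset.univ g (5 / 2) t := bmaj_nonneg _ _ _ _
      have h5 : CB * (bmaj Finset.univ g (5 / 2) t + plt (TW ep e1 m) t) ≤
          A * (bmaj Finset.univ g (5 / 2) t + plt (TW ep e1 m) t) := by
        gcongr
        rw [hA]
        linarith
      rw [bmaj_hts]
      exact jq6 h3 h2 h4 h5
  · intro T hT
    have hNW : ∀ a, NW I T a ≤ (CB + CE) + x / 24 * (T + 1) := fun a => hD.w1 a T hT
    have hN : ∀ a, Nl (datO I P O) T a ≤ KN * (2 + y * win Finset.univ (fun i => ht (O i)) +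
        y * (T + 1)) + 3 * ((CB + CE) + x / 24 * (T + 1)) := by
      intro a
      refine (HN hok T hT a).trans ?_
      have h1 : (M * ε) ^ 2 * ((1 - e1) * Tb (Real.log m)) ≤ 1 := by
        have h2 : (1 - e1) * Tb (Real.log m) ≤ L := by
          rw [← hL]
          unfold Tb
          exact jq7 he.le hL0
        have h3 : (M * ε) ^ 2 ≤ (L ^ k * z) ^ 2 := by gcongr
        calc (M * ε) ^ 2 * ((1 - e1) * Tb (Real.log m)) ≤ (L ^ k * z) ^ 2 * L := by
              have : 0 ≤ (1 - e1) * Tb (Real.log m) := hok.b0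
              gcongr
          _ = L ^ (2 * k + 1) * z ^ 2 := by ring
          _ ≤ 1 := n3
      have h2 := dl_win (x := y) hok.dl0 hdl hz0 n4 hw0 hw1
      have h3 : (∑ i, rr P O i) ^ 2 * (T + 1) ≤ y * (T + 1) := by
        gcongr
        have h4 : (∑ i, rr P O i) ^ 2 ≤ ∑ i, rr P O i := jq8 hrr0 hr1
        have h5 : 1 / (1 + L) ≤ y := by
          rw [div_le_iff₀ (by linarith)]
          exact n5
        linarith
      have h4 := hNW a
      have h5 : KN * ((M * ε) ^ 2 * ((1 - e1) * Tb (Real.log m)) +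
          dl ^ 2 * win Finset.univ (fun i => ht (O i)) + (∑ i, rr P O i) ^ 2 * (T + 1)) ≤
          KN * (2 + y * win Finset.univ (fun i => ht (O i)) + y * (T + 1)) :=
        mul_le_mul_of_nonneg_left (by linarith) (by linarith)
      linarith
    have h1 := hN true
    have h2 := hN false
    unfold NT
    have h3 := jq10 h1 h2 (jq9 hw0 hT hyK) (mul_nonneg hx.le hw0) (mul_nonneg hx.le hT) hx.le
      (by linarith)
    linarith only [h3]

/-- **the crude bound**, every number `G` of places, energy `CE` of the remainder -/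
theorem crudeE {ep : ℝ} (hep : 0 < ep) (hep1 : ep ≤ 1 / 100) {e1 : ℝ} (he : 0 < e1)
    (he1 : e1 ≤ 1 / 100) {δ : ℝ} (hδ : 0 < δ) (k : ℕ) {κ CB : ℝ} (hκ : 0 < κ) (hCB : 0 ≤ CB) :
    ∃ C1 : ℝ, 0 ≤ C1 ∧ ∀ kap : ℝ, 0 < kap → ∀ x0 : ℝ, 0 < x0 →
    ∃ ϑ Cst : ℝ, 0 < ϑ ∧ 0 ≤ Cst ∧ ∃ m0 : ℕ, ∀ m ≥ m0, ∀ (G : ℕ) (CE : ℝ), 0 ≤ CE →
      ∀ (I : Inp) (P : Par) (r : ℕ) (O : Fin r → Xo) (g : Fin G → ℝ) (p n : ℕ)
        (aX aY cf B1 : ℝ → ℝ) (T1 D q S : ℝ),
      DatE ep e1 κ CB ϑ CE k m I P O g p n aX aY cf B1 T1 D q S →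
        ∫⁻ x, ENNReal.ofReal (W0 (datO I P O) p n aX aY cf x) ≤
          ENNReal.ofReal ((p.factorial : ℝ) * n.factorial *
            (Cst * Real.exp (C1 * CE + 6 * G + x0 * (G : ℝ) ^ 2) *
              (m : ℝ) ^ (7 / 8 + 2 * (ep + e1) + δ) * (1 + S) *
              Real.exp (confC ep e1 m I P p n 6 kap O T1))) := by
  obtain ⟨A, hA, hInst⟩ := instE hep hep1 he he1 k hκ hCB
  obtain ⟨ε', hε'⟩ : ∃ ε' : ℝ, ε' = min (1 / 200) (δ / 4) := ⟨_, rfl⟩
  have hε'0 : 0 < ε' := by rw [hε']; exact lt_min (by norm_num) (by positivity)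
  have hε'1 : ε' ≤ 1 / 200 := by rw [hε']; exact min_le_left _ _
  have hε'2 : ε' ≤ δ / 4 := by rw [hε']; exact min_le_right _ _
  obtain ⟨C, hC, HC⟩ := crude (k := 8) (A := A) (κ := κ) (ε' := ε') (by norm_num) hA hκ hε'0 hε'1
  refine ⟨6 * C, by positivity, ?_⟩
  intro kap hkap x0 hx00
  obtain ⟨x, hx⟩ : ∃ x : ℝ, x = min (min (kap / 8) (δ / 4)) (x0 / 2) := ⟨_, rfl⟩
  have hx0 : 0 < x := by
    rw [hx]
    exact lt_min (lt_min (by positivity) (by positivity)) (by positivity)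
  have hx1 : x ≤ kap / 8 := by rw [hx]; exact (min_le_left _ _).trans (min_le_left _ _)
  have hx2 : x ≤ δ / 4 := by rw [hx]; exact (min_le_left _ _).trans (min_le_right _ _)
  have hx3 : x ≤ x0 / 2 := by rw [hx]; exact min_le_right _ _
  obtain ⟨m1, HM⟩ := HC hx0
  obtain ⟨x2, hx2d⟩ : ∃ x2 : ℝ, x2 = min (ε' / (C + 1)) (kap / 4 / (C + 1)) := ⟨_, rfl⟩
  have hC1 : 0 < C + 1 := by linarith only [hC]
  have hx20 : 0 < x2 := by rw [hx2d]; exact lt_min (by positivity) (by positivity)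
  have hx2a : C * x2 ≤ ε' := by
    have h1 : x2 ≤ ε' / (C + 1) := by rw [hx2d]; exact min_le_left _ _
    rw [le_div_iff₀ hC1] at h1
    linarith only [hx20, h1]
  have hx2b : C * x2 ≤ kap / 4 := by
    have h1 : x2 ≤ kap / 4 / (C + 1) := by rw [hx2d]; exact min_le_right _ _
    rw [le_div_iff₀ hC1] at h1
    linarith only [hx20, h1]
  obtain ⟨ϑ, N1, hϑ, hN1, m2, hI2⟩ := hInst x2 hx20
  refine ⟨ϑ, Real.exp (C * (1 + N1) + x + 1) * (1 + shC), hϑ, by
    have := shC_nonneg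
    positivity, max (max m1 m2) 3, ?_⟩
  intro m hm G CE hCE I P r O g p n aX aY cf B1 T1 D q S hD
  obtain ⟨i1, i2⟩ := hI2 m ((le_max_right _ _).trans ((le_max_left _ _).trans hm)) G CE hCE I P r O g
    p n aX aY cf B1 T1 D q S hD
  have hm3 : 3 ≤ m := (le_max_right _ _).trans hm
  have hmr : (3:ℝ) ≤ m := by exact_mod_cast hm3
  have hmp : (0:ℝ) < m := by linarith only [hmr]
  obtain ⟨L, hL⟩ : ∃ L, L = Real.log m := ⟨_, rfl⟩
  have hL0 : 0 ≤ L := by rw [hL]; exact Real.log_nonneg (by linarith)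
  obtain ⟨T', hT'⟩ : ∃ T', T' = TW ep e1 m := ⟨_, rfl⟩
  have hTW : T' = (1 + 2 * e1 + 2 * ep) * Tb L := by rw [hT', hL]; rfl
  have hT1 : 3 / 8 * L ≤ T' := by
    rw [hTW]
    unfold Tb
    nlinarith only [hep, he, hL0]
  have hT2 : T' ≤ L := by
    rw [hTW]
    unfold Tb
    nlinarith only [hep1, he1, hL0]
  have hb0 : 0 ≤ (1 - e1) * Tb (Real.log m) := by
    rw [← hL]
    unfold Tb
    have : 0 ≤ 1 - e1 := by linarith
    positivity
  have hb1 : (1 - e1) * Tb (Real.log m) ≤ Real.log m := by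
    rw [← hL]
    unfold Tb
    nlinarith only [he, hL0]
  have hT1' : T' + excS T' O ≤ T1 := by
    have := hD.tw
    rwa [← hT'] at this
  obtain ⟨Y, hY⟩ : ∃ Y, Y = T1 - T' := ⟨_, rfl⟩
  have hY0 : 0 ≤ Y := by
    have := excS_nonneg T' O
    linarith only [hT1', hY, this]
  have hw0 := win_nonneg (Finset.univ : Finset (Fin r)) (fun i => ht (O i))
  have hw1 := win_hts O g
  have hq1 := hD.q1
  have key := HM m ((le_max_left _ _).trans ((le_max_left _ _).trans hm)) i1 hb0 hb1 hD.shl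
    (by linarith only [hε'1, hq1]) (Y := Y) (by rw [← hT', ← hL]; exact hT1) (by rw [← hT', ← hL]; exact hT2)
    hY0 (fun i => by
      rw [← hT']
      refine Fin.addCases (fun i => ?_) (fun j => ?_) i
      · unfold hts
        rw [Fin.append_left]
        have := excS_ge T' O i
        linarith only [hT1', hY, this]
      · unfold hts
        rw [Fin.append_right]
        have := hD.gs j
        linarith) (N0 := N1 + 6 * CE + x2 * win univ (fun i => ht (O i))) (e1 := x2) hx2a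
    (fun T hT => i2 T (by
      have h1 := T0i_ge (T' := TW ep e1 m) (Y := Y) (r := r + G) (m := m) hA
        (by rw [← hL]; exact hL0) hY0
      rw [← hT'] at h1 hT
      linarith only [hL0, hT1, hY0, hT, h1]))
  refine key.trans (ENNReal.ofReal_le_ofReal ?_)
  have hT0 : T1 ≤ T0i (TW ep e1 m) Y A (r + G) m := by
    have h1 := T0i_ge (T' := TW ep e1 m) (Y := Y) (r := r + G) (m := m) hA
      (by rw [← hL]; exact hL0) hY0
    rw [← hT'] at h1 ⊢
    linarith
  have hDS := hD.DS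
  have hS0 : 0 ≤ S := le_trans (mul_nonneg hD.shl.D0 (Real.exp_pos _).le) hDS
  have hsh := shF_le (ε' := ε') hε'1 hD.shl.D0 hq1 hDS hT0
  have hsh0 := shF_nonneg (T0 := T0i (TW ep e1 m) Y A (r + G) m) hD.shl.D0
    (show 7 / 3 + 2 * ε' < q by linarith only [hε'1, hq1])
  have hshC := shC_nonneg
  have hshf : 1 + shF D q (7 / 3 + 2 * ε') (T0i (TW ep e1 m) Y A (r + G) m) ≤
      (1 + S) * (1 + shC) := by linarith only [hS0, hsh, hshC]
  have har := arithC (M0 := MFs I.s p n + (datO I P O).En) (N1 := N1 + 6 * CE) (R := r) (G := G)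
    (Y := Y) (S := Y) (W := win univ (fun i => ht (O i))) (W' := win univ (hts O g))
    hL0 hTW hep hep1 he he1 hε'0.le hε'2 hx0.le hx2 hx1 hx2b hw0 le_rfl hw1
  have hexp : Real.exp (MFs (datO I P O).s p n + (datO I P O).En +
      ((7 / 3 + 2 * ε') * TW ep e1 m + 12 / 5 * Y + 6 * (r + G : ℕ) +
        C * (1 + (N1 + 6 * CE + x2 * win univ fun i => ht (O i))) +
        x * (win univ (hts O g) + 1 + Real.log m) + 1)) ≤
      (Real.exp (C * (1 + N1) + x + 1) * Real.exp (6 * C * CE + 6 * G + x0 * (G : ℝ) ^ 2)) *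
        ((m : ℝ) ^ (7 / 8 + 2 * (ep + e1) + δ) *
        Real.exp (confC ep e1 m I P p n 6 kap O T1)) := by
    have hxG : 2 * x * (G : ℝ) ^ 2 ≤ x0 * (G : ℝ) ^ 2 :=
      mul_le_mul_of_nonneg_right (by linarith) (sq_nonneg _)
    rw [Real.rpow_def_of_pos hmp, ← Real.exp_add, ← Real.exp_add, ← Real.exp_add]
    refine Real.exp_le_exp.2 ?_
    unfold confC
    rw [← hT', ← hL]
    have h1 : L * (7 / 8 + 2 * (ep + e1) + δ / 2) ≤ L * (7 / 8 + 2 * (ep + e1) + δ) := by gcongr; linarith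
                                                                                                    only
                                                                                                    [hε'0,
                                                                                                    hε'2]
    have h2 : MFs (datO I P O).s p n = MFs I.s p n := rfl
    rw [h2, ← hY]
    push_cast
    linarith
  calc (p.factorial : ℝ) * n.factorial * Real.exp (MFs (datO I P O).s p n + (datO I P O).En +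
      ((7 / 3 + 2 * ε') * TW ep e1 m + 12 / 5 * Y + 6 * (r + G : ℕ) +
        C * (1 + (N1 + 6 * CE + x2 * win univ fun i => ht (O i))) +
        x * (win univ (hts O g) + 1 + Real.log m) + 1)) *
      (1 + shF D q (7 / 3 + 2 * ε') (T0i (TW ep e1 m) Y A (r + G) m))
      ≤ (p.factorial : ℝ) * n.factorial * ((Real.exp (C * (1 + N1) + x + 1) *
        Real.exp (6 * C * CE + 6 * G + x0 * (G : ℝ) ^ 2)) *
        ((m : ℝ) ^ (7 / 8 + 2 * (ep + e1) + δ) *
        Real.exp (confC ep e1 m I P p n 6 kap O T1))) * ((1 + S) * (1 + shC)) := by gcongr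
    _ = _ := by ring


end NUSea.H0

end
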