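import Pool.Agent.IST.CrS

/-!
# The gas of a configuration with a source

* `gasP`, `srcMF`, `srcO`, `locO`: the potential of a source on the gas, its mean field value, the
  total charges of the objects in the potential, the local factors of the objects;
* **`crudeSC`**: the crude bound of the data of a configuration with a source, the energy explicit.
-/

set_option autoImplicit false
set_option linter.unusedSectionVars false

noncomputable section

open MeasureTheory Finset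
open scoped ENNReal

namespace NUSea.H0

open NUMF NUO NUStabP NUDispW NUEnW
open NUR2 (Cfg)

/-- the potential of a source and of its remainder on the quanta of the gas -/
def gasP (ν : Bool → ℝ → ℝ) (τ : ℝ → ℝ) (ψ : Bool → ℝ → ℝ) {p q : ℕ}
    (y : (Fin p → ℝ) × (Fin q → ℝ)) : ℝ :=
  ∑ i, (srcP ν τ true (y.1 i) + ψ true (y.1 i)) + ∑ i, (srcP ν τ false (y.2 i) + ψ false (y.2 i))

/-- the potential of a source on the objects (total charges) -/
def srcO (τ : ℝ → ℝ) {r : ℕ} (O : Fin r → Xo) : ℝ := ∑ i, chq (O i) * NUC43.lgp τ (ht (O i))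

/-- the local factors of the objects -/
def locO {r : ℕ} (O : Fin r → Xo) : ℝ := ∑ i, Real.exp (-(3 / 2 * |ht (O i)|))

lemma locO_nonneg {r : ℕ} (O : Fin r → Xo) : 0 ≤ locO O :=
  Finset.sum_nonneg fun _ _ => (Real.exp_pos _).le

/-- the square of the local factors against the window energy -/
theorem locO_sq {r : ℕ} (O : Fin r → Xo) :
    locO O ^ 2 ≤ Real.exp (3 / 2) * Sd (3 / 2) * win univ (fun i => ht (O i)) := by
  refine le_trans ?_ (pair_exp_le (by norm_num : (0 : ℝ) < 3 / 2) univ fun i => ht (O i))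
  unfold locO
  rw [sq, Finset.sum_mul_sum]
  refine Finset.sum_le_sum fun i _ => Finset.sum_le_sum fun j _ => ?_
  rw [← Real.exp_add]
  refine Real.exp_le_exp.2 ?_
  have := abs_sub (ht (O i)) (ht (O j))
  linarith

variable [Sea]

/-- the mean field value of a source, `m` rows -/
def srcMF (m : ℕ) (ν : Bool → ℝ → ℝ) (τ : ℝ → ℝ) (ψ : Bool → ℝ → ℝ) : ℝ :=
  ∑ a, ∫ t, ((m : ℝ) * P t) * (srcP ν τ a t + ψ a t)

/-- **the crude bound with a source**, the energy explicit; the constant `K1` in front of the local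
factors of the objects depends only on the bound `CW` of `wO` and of the densities of the groups -/
theorem crudeSC {CW : ℝ} (hCW : 0 ≤ CW) (G : ℕ) : ∃ K1 : ℝ, 0 ≤ K1 ∧
    ∀ {ep : ℝ}, 0 < ep → ep ≤ 1 / 100 → ∀ {e1 : ℝ}, 0 < e1 → e1 ≤ 1 / 100 → ∀ {δ : ℝ}, 0 < δ →
    ∀ (k : ℕ) {κ CB : ℝ}, 0 < κ → 0 ≤ CB →
    ∃ C1 : ℝ, 0 ≤ C1 ∧ ∀ kap : ℝ, 0 < kap → ∀ x0 : ℝ, 0 < x0 →
    ∃ ϑ Cst : ℝ, 0 < ϑ ∧ 0 ≤ Cst ∧ ∃ m0 : ℕ, ∀ m ≥ m0,
      ∀ (I : Inp) (P : Par) (r : ℕ) (O : Fin r → Xo) (g : Fin G → ℝ) (p n : ℕ)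
        (aX aY cf B1 : ℝ → ℝ) (T1 D q S : ℝ),
      DatC ep e1 κ CB ϑ k m I P O g p n aX aY cf B1 T1 D q S →
      (∀ a t, |wO I a t| ≤ CW) →
      (∀ a t, |I.ν a t| ≤ CW * ∑ j, Real.exp (-(5 / 2 * |t - g j|))) →
      (∀ t, |I.τD t| ≤ CW * ∑ j, Real.exp (-(5 / 2 * |t - g j|))) →
      ∀ (s : ℕ) (s' E : ℝ), 0 ≤ E → s' ≤ s →
      ∀ (ν : Bool → ℝ → ℝ) (τ : ℝ → ℝ) (ψ : Bool → ℝ → ℝ), SrcOk s ν τ → RemD s' E ψ →
        ∫⁻ y, ENNReal.ofReal (W0 (datO I P O) p n aX aY cf y) *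
            ENNReal.ofReal (Real.exp (gasP ν τ ψ y -
              ∑ a, (∫ t, (datO I P O).ρ t * (srcP ν τ a t + ψ a t)) + srcO τ O -
              K1 * (s + s') * locO O)) ≤
          ENNReal.ofReal ((p.factorial : ℝ) * n.factorial *
            (Cst * (m : ℝ) ^ (7 / 8 + 2 * (ep + e1) + δ) * (1 + S) *
              Real.exp (confC ep e1 m I P p n 6 kap O T1))) *
          ENNReal.ofReal (Real.exp (srcEn ν τ + C1 * (s + E) + x0 * (s : ℝ) ^ 2 + 2 * s * s')) := by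
  obtain ⟨K, hK, HK⟩ := crS_le CW hCW G
  refine ⟨K, hK, ?_⟩
  intro ep hep hep1 e1 he he1 δ hδ k κ CB hκ hCB
  obtain ⟨C1, hC1, HC⟩ := crudeS hep hep1 he he1 hδ k hκ hCB G
  refine ⟨C1 + 2 * K, by linarith, ?_⟩
  intro kap hkap x0 hx0
  obtain ⟨ϑ, Cst, hϑ, hCst, m0, H⟩ := HC kap hkap x0 hx0
  obtain ⟨m2, hm2⟩ := NUS4.log_pow_small k hκ 1
  refine ⟨ϑ, Cst, hϑ, hCst, max m0 (max m2 1), ?_⟩
  intro m hm I P r O g p n aX aY cf B1 T1 D q S hD hw hν hτ s s' E hE hss ν τ ψ hs hψ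
  have hM0 : m0 ≤ m := (le_max_left _ _).trans hm
  have hM2 : m2 ≤ m := ((le_max_left _ _).trans (le_max_right _ _)).trans hm
  have hM1 : 1 ≤ m := ((le_max_right _ _).trans (le_max_right _ _)).trans hm
  have hR : RemOk s E ψ := hψ.rem hss
  obtain ⟨dl, ε, M, e, hok, hε, hM, hdl⟩ := hD.ok
  have hmp : (0 : ℝ) < m := by exact_mod_cast hM1
  have hL0 : 0 ≤ Real.log (m : ℝ) := Real.log_nonneg (by exact_mod_cast hM1)
  have hMe : M * ε ≤ 1 := by
    have h1 := hok.cur.ε0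
    have h2 := hok.cur.M0 hok.s0
    have h3 := hm2 m hM2
    rw [one_mul] at h3
    have h4 : 0 ≤ (m : ℝ) ^ (-κ) := Real.rpow_nonneg hmp.le _
    calc M * ε ≤ Real.log m ^ k * (m : ℝ) ^ (-κ) := by gcongr
      _ ≤ 1 := h3
  have hcr := HK hM1 (O := O) hok hD.par hMe hw g hν hτ hs hψ
  have hEn := En_addS hok hD.fld hs hR
  have hX : crS (datO I P O) ν τ ψ ≤ -srcO τ O + K * (s + s') * (1 + locO O) + 2 * s * s' := by
    have h1 := le_abs_self (crS (datO I P O) ν τ ψ + ∑ i, chq (O i) * NUC43.lgp τ (ht (O i)))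
    unfold srcO locO
    linarith
  have h1 := H m hM0 I P r O g p n aX aY cf B1 T1 D q S hD s E hE ν τ ψ hs hR
  obtain ⟨MFv, hMF⟩ : ∃ v, v = ∑ a, (∫ t, (datO I P O).ρ t * (srcP ν τ a t + ψ a t)) := ⟨_, rfl⟩
  rw [← hMF]
  rw [← hMF] at hEn
  -- the constant factor
  obtain ⟨c, hc⟩ : ∃ c, c = -MFv + srcO τ O - K * (s + s') * locO O := ⟨_, rfl⟩
  have e1' : ∀ y : Cfg p n, ENNReal.ofReal (W0 (datO I P O) p n aX aY cf y) *
      ENNReal.ofReal (Real.exp (gasP ν τ ψ y - MFv + srcO τ O - K * (s + s') * locO O)) =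
      ENNReal.ofReal (Real.exp c) * (ENNReal.ofReal (W0 (datO I P O) p n aX aY cf y) *
        ENNReal.ofReal (Real.exp (∑ i, (srcP ν τ true (y.1 i) + ψ true (y.1 i)) +
          ∑ i, (srcP ν τ false (y.2 i) + ψ false (y.2 i))))) := by
    intro y
    have e2 : Real.exp (gasP ν τ ψ y - MFv + srcO τ O - K * (s + s') * locO O) =
        Real.exp c * Real.exp (∑ i, (srcP ν τ true (y.1 i) + ψ true (y.1 i)) +
          ∑ i, (srcP ν τ false (y.2 i) + ψ false (y.2 i))) := by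
      rw [← Real.exp_add, hc]
      congr 1
      unfold gasP
      ring
    rw [e2, ENNReal.ofReal_mul (Real.exp_pos _).le]
    ring
  simp_rw [e1']
  rw [lintegral_const_mul' _ _ ENNReal.ofReal_ne_top]
  refine (mul_le_mul_right h1 _).trans ?_
  rw [← ENNReal.ofReal_mul (Real.exp_pos _).le, ← ENNReal.ofReal_mul' (Real.exp_pos _).le]
  refine ENNReal.ofReal_le_ofReal ?_
  have hS0 : 0 ≤ S := le_trans (mul_nonneg hD.shl.D0 (Real.exp_pos _).le) hD.DS
  have hs0 : (0 : ℝ) ≤ s := Nat.cast_nonneg s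
  have hs'0 : 0 ≤ s' := hψ.s0
  have hloc := locO_nonneg O
  have hconf : confC ep e1 m (addS I ν τ ψ) P p n 6 kap O T1 =
      confC ep e1 m I P p n 6 kap O T1 + (srcEn ν τ + MFv + crS (datO I P O) ν τ ψ) := by
    unfold confC
    rw [hEn]
    show MFs I.s p n + _ + _ + _ + _ = _
    ring
  rw [hconf]
  have h5 : c + (C1 * (s + E) + x0 * (s : ℝ) ^ 2 + (srcEn ν τ + MFv + crS (datO I P O) ν τ ψ)) ≤
      srcEn ν τ + (C1 + 2 * K) * (s + E) + x0 * (s : ℝ) ^ 2 + 2 * s * s' := by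
    rw [hc]
    have h7 : K * s' ≤ K * s := mul_le_mul_of_nonneg_left hss hK
    have h8 : 0 ≤ K * E := mul_nonneg hK hE
    linarith
  have h9 := Real.exp_le_exp.2 h5
  rw [Real.exp_add c, Real.exp_add (C1 * (s + E) + x0 * (s : ℝ) ^ 2)] at h9
  have h10 : 0 ≤ (p.factorial : ℝ) * n.factorial * (Cst *
      (m : ℝ) ^ (7 / 8 + 2 * (ep + e1) + δ) * (1 + S) * Real.exp (confC ep e1 m I P p n 6 kap O T1)) := by
    positivity
  have h11 := mul_le_mul_of_nonneg_left h9 h10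
  rw [Real.exp_add (confC ep e1 m I P p n 6 kap O T1)]
  refine le_trans (le_of_eq ?_) h11
  ring

end NUSea.H0

end
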