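import Pool.Agent.PB.WaveE
import Pool.Agent.NUP.MF.Strip

/-!
# IST, stage A: the velocity field of the path with rows at `± x`, `0 ≤ x ≤ l / 2`, in closed form

`θ = 8x/3`, `q = 8z/3`, `den x z = 2 cosh 2q - 1 + 2 cos 2θ` (`= 4 cosh² q - 5 + 4 cos² θ`),
`xiX x z = - tan θ tanh q (1 + 2 / den x z)`.

* `re_den` : `2 cos (Im 2q) cosh (Re 2q) ≤ Re den` ;
* `xiX_mul` : `(P(z + ix) + P(z - ix)) xiX x z = - i (P(z + ix) - P(z - ix))`, `|Im z| < 3l/4`
  (velocity of the quanta: `xiX = - ∂_x R_x / ρ_x`, `ρ_x = (P(z + ix) + P(z - ix)) / 2`);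
* **`xiX_XiA`** : `PBV.XiA (xiX x) (7/10 l) K (16/3) (- tan θ) (tan θ)`, one constant `K`;
* `xiX_neg`, `xiX_measurable`, `hasDerivAt_log_cos` (`∫ J = (3/4) log cos θ`).
-/

set_option autoImplicit false

open Complex Set Filter Topology MeasureTheory

noncomputable section

namespace IST

open NUMF (l l_pos)
open PBV

/-- denominator -/
def den (x : ℝ) (z : ℂ) : ℂ := 2 * cosh (16 / 3 * z) - 1 + 2 * Real.cos (16 / 3 * x)

/-- the velocity field, rows at `± x` -/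
def xiX (x : ℝ) (z : ℂ) : ℂ := -(Real.tan (8 / 3 * x)) * tanh (8 / 3 * z) * (1 + 2 / den x z)

/-! ### real and imaginary parts -/

lemma cosh_re (w : ℂ) : (cosh w).re = Real.cosh w.re * Real.cos w.im := by
  conv_lhs => rw [← Complex.re_add_im w]
  rw [Complex.cosh_add, Complex.cosh_mul_I, Complex.sinh_mul_I]
  have e : Complex.cosh w.re * Complex.cos w.im + Complex.sinh w.re * (Complex.sin w.im * I) =
      ((Real.cosh w.re * Real.cos w.im : ℝ) : ℂ) + ((Real.sinh w.re * Real.sin w.im : ℝ) : ℂ) * I := by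
    push_cast; ring
  rw [e, add_re, ofReal_re, re_ofReal_mul, I_re, mul_zero, add_zero]

lemma angle {x : ℝ} (h0 : 0 ≤ x) (h1 : x ≤ l / 2) : 0 ≤ 16 / 3 * x ∧ 16 / 3 * x ≤ Real.pi / 3 := by
  have : l = Real.pi / 8 := rfl
  rw [this] at h1
  constructor
  · positivity
  · linarith

lemma cos2_ge {x : ℝ} (h0 : 0 ≤ x) (h1 : x ≤ l / 2) : 1 / 2 ≤ Real.cos (16 / 3 * x) := by
  obtain ⟨a, b⟩ := angle h0 h1
  have := Real.cos_le_cos_of_nonneg_of_le_pi a (by have := Real.pi_pos; linarith) b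
  rwa [Real.cos_pi_div_three] at this

lemma cos_ge {x : ℝ} (h0 : 0 ≤ x) (h1 : x ≤ l / 2) : 1 / 2 ≤ Real.cos (8 / 3 * x) := by
  obtain ⟨a, b⟩ := angle h0 h1
  have := Real.cos_le_cos_of_nonneg_of_le_pi (x := 8 / 3 * x) (y := Real.pi / 3) (by positivity)
    (by have := Real.pi_pos; linarith) (by linarith)
  rwa [Real.cos_pi_div_three] at this

lemma tan_bd {x : ℝ} (h0 : 0 ≤ x) (h1 : x ≤ l / 2) : |Real.tan (8 / 3 * x)| ≤ 2 := by
  have hc := cos_ge h0 h1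
  rw [Real.tan_eq_sin_div_cos, abs_div, abs_of_pos (by linarith : 0 < Real.cos (8 / 3 * x)),
    div_le_iff₀ (by linarith)]
  have := Real.abs_sin_le_one (8 / 3 * x)
  linarith

/-- lower bound of the denominator -/
lemma re_den {x : ℝ} (h0 : 0 ≤ x) (h1 : x ≤ l / 2) (z : ℂ) :
    2 * (Real.cosh (16 / 3 * z.re) * Real.cos (16 / 3 * z.im)) ≤ (den x z).re := by
  have h2 := cos2_ge h0 h1
  have e : (den x z).re = 2 * (cosh (16 / 3 * z)).re - 1 + 2 * Real.cos (16 / 3 * x) := by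
    unfold den
    rw [add_re, sub_re, one_re]
    have e1 : (2 * cosh (16 / 3 * z)).re = 2 * (cosh (16 / 3 * z)).re := by
      simp
    have e2 : (2 * ((Real.cos (16 / 3 * x) : ℝ) : ℂ)).re = 2 * Real.cos (16 / 3 * x) := by
      simp only [mul_re, re_ofNat, im_ofNat, ofReal_re, zero_mul, sub_zero]
    rw [e1, e2]
  have e3 : (16 / 3 * z : ℂ) = ((16 / 3 : ℝ) : ℂ) * z := by push_cast; ring
  rw [e, cosh_re, e3, re_ofReal_mul, im_ofReal_mul]
  linarith

/-- the strip `|Im z| < 3l/4` -/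
lemma cos_im_pos {z : ℂ} (hz : |z.im| < 3 / 4 * l) : 0 < Real.cos (16 / 3 * z.im) := by
  have hl : l = Real.pi / 8 := rfl
  rw [hl, abs_lt] at hz
  exact Real.cos_pos_of_mem_Ioo ⟨by linarith, by linarith⟩

lemma den_ne {x : ℝ} (h0 : 0 ≤ x) (h1 : x ≤ l / 2) {z : ℂ} (hz : |z.im| < 3 / 4 * l) : den x z ≠ 0 := by
  have h2 := re_den h0 h1 z
  have h3 := cos_im_pos hz
  have h4 := Real.cosh_pos (16 / 3 * z.re)
  intro h
  rw [h, zero_re] at h2
  have := mul_pos h4 h3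
  linarith

lemma cosh_ne {z : ℂ} (hz : |z.im| < 3 / 4 * l) : cosh (8 / 3 * z) ≠ 0 := by
  have hl : l = Real.pi / 8 := rfl
  have hl0 := l_pos
  intro h
  have h2 : (cosh (8 / 3 * z)).re = 0 := by rw [h, zero_re]
  have e3 : (8 / 3 * z : ℂ) = ((8 / 3 : ℝ) : ℂ) * z := by push_cast; ring
  rw [e3, cosh_re, re_ofReal_mul, im_ofReal_mul] at h2
  have h3 : 0 < Real.cos (8 / 3 * z.im) := by
    rw [hl, abs_lt] at hz
    exact Real.cos_pos_of_mem_Ioo ⟨by linarith, by linarith⟩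
  have := mul_pos (Real.cosh_pos (8 / 3 * z.re)) h3
  linarith

/-! ### the velocity equation -/

lemma addmul (x : ℝ) (z : ℂ) (σ : ℂ) : 8 / 3 * (z + σ * ((x : ℂ) * I)) = 8 / 3 * z + σ * (((8 / 3 * x : ℝ) : ℂ) * I) := by
  push_cast; ring

/-- `P` as one fraction -/
lemma Pc_frac {w : ℂ} (h : 4 * cosh (8 / 3 * w) ^ 2 - 1 ≠ 0) :
    NUMF.Pc w = 16 / (√3 * Real.pi : ℝ) * (cosh (8 / 3 * w) / (4 * cosh (8 / 3 * w) ^ 2 - 1)) := by
  have h1 : 2 * cosh (8 / 3 * w) - 1 ≠ 0 := fun e => h (by linear_combination (2 * cosh (8 / 3 * w) + 1) * e)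
  have h2 : 2 * cosh (8 / 3 * w) + 1 ≠ 0 := fun e => h (by linear_combination (2 * cosh (8 / 3 * w) - 1) * e)
  unfold NUMF.Pc
  have e : 1 / (2 * cosh (8 / 3 * w) - 1) + 1 / (2 * cosh (8 / 3 * w) + 1) =
      4 * (cosh (8 / 3 * w) / (4 * cosh (8 / 3 * w) ^ 2 - 1)) := by
    have h3 : (2 * cosh (8 / 3 * w) - 1) * (2 * cosh (8 / 3 * w) + 1) = 4 * cosh (8 / 3 * w) ^ 2 - 1 := by ring
    rw [div_add_div _ _ h1 h2, h3]
    ring
  rw [e]
  ring

/-- the algebraic identity -/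
lemma xi_alg {C S c s : ℂ} (hC : C ^ 2 - S ^ 2 = 1) (hc : c ^ 2 + s ^ 2 = 1) :
    ((C * c + S * s * I) * (4 * (C * c - S * s * I) ^ 2 - 1) +
      (C * c - S * s * I) * (4 * (C * c + S * s * I) ^ 2 - 1)) * (s * S) *
        (4 * C ^ 2 - 3 + 4 * c ^ 2) =
      I * ((C * c + S * s * I) * (4 * (C * c - S * s * I) ^ 2 - 1) -
        (C * c - S * s * I) * (4 * (C * c + S * s * I) ^ 2 - 1)) * (c * C) * (4 * C ^ 2 - 5 + 4 * c ^ 2) := by
  have hS : S ^ 2 = C ^ 2 - 1 := by linear_combination -hC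
  have hs : s ^ 2 = 1 - c ^ 2 := by linear_combination hc
  have e1 : (C * c + S * s * I) * (4 * (C * c - S * s * I) ^ 2 - 1) +
      (C * c - S * s * I) * (4 * (C * c + S * s * I) ^ 2 - 1) = 2 * (c * C) * (4 * C ^ 2 - 5 + 4 * c ^ 2) := by
    have : (C * c + S * s * I) * (4 * (C * c - S * s * I) ^ 2 - 1) +
      (C * c - S * s * I) * (4 * (C * c + S * s * I) ^ 2 - 1) =
        2 * (c * C) * (4 * (C ^ 2 * c ^ 2 - S ^ 2 * s ^ 2 * I ^ 2) - 1) := by ring
    rw [this, I_sq, hS, hs]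
    ring
  have e2 : (C * c + S * s * I) * (4 * (C * c - S * s * I) ^ 2 - 1) -
      (C * c - S * s * I) * (4 * (C * c + S * s * I) ^ 2 - 1) =
        -(2 * I * (s * S) * (4 * C ^ 2 - 3 + 4 * c ^ 2)) := by
    have : (C * c + S * s * I) * (4 * (C * c - S * s * I) ^ 2 - 1) -
      (C * c - S * s * I) * (4 * (C * c + S * s * I) ^ 2 - 1) =
        -(2 * I * (s * S) * (4 * (C ^ 2 * c ^ 2 - S ^ 2 * s ^ 2 * I ^ 2) + 1)) := by ring
    rw [this, I_sq, hS, hs]
    ring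
  rw [e1, e2]
  linear_combination (2 * (c * C) * (4 * C ^ 2 - 5 + 4 * c ^ 2) * (s * S) * (4 * C ^ 2 - 3 + 4 * c ^ 2)) * I_sq

/-- no pole of `P` -/
lemma four_ne {w : ℂ} (hw : |w.im| < l) : 4 * cosh (8 / 3 * w) ^ 2 - 1 ≠ 0 := by
  have n1 := NUMF.den_ne hw (e := 1) norm_one
  have n2 := NUMF.den_ne hw (e := -1) (by simp)
  have e : 4 * cosh (8 / 3 * w) ^ 2 - 1 = (2 * cosh (8 / 3 * w) + 1) * (2 * cosh (8 / 3 * w) + -1) := by ring
  rw [e]
  exact mul_ne_zero n1 n2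

/-- **the velocity equation** -/
theorem xiX_mul {x : ℝ} (h0 : 0 ≤ x) (h1 : x ≤ l / 2) {z : ℂ} (hz : |z.im| + x < l) (hz' : |z.im| < 3 / 4 * l) :
    (NUMF.Pc (z + x * I) + NUMF.Pc (z - x * I)) * xiX x z = -I * (NUMF.Pc (z + x * I) - NUMF.Pc (z - x * I)) := by
  have hp : |(z + x * I).im| < l := by
    have e : (z + x * I).im = z.im + x := by simp
    rw [e]
    refine (abs_add_le _ _).trans_lt ?_
    rwa [abs_of_nonneg h0]
  have hm : |(z - x * I).im| < l := by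
    have e : (z - x * I).im = z.im - x := by simp
    rw [e]
    refine (abs_sub _ _).trans_lt ?_
    rwa [abs_of_nonneg h0]
  have np := four_ne hp
  have nm := four_ne hm
  rw [Pc_frac np, Pc_frac nm]
  set C := cosh (8 / 3 * z) with hC
  set S := sinh (8 / 3 * z) with hS
  set c : ℂ := ((Real.cos (8 / 3 * x) : ℝ) : ℂ) with hc
  set s : ℂ := ((Real.sin (8 / 3 * x) : ℝ) : ℂ) with hs
  have ep : cosh (8 / 3 * (z + x * I)) = C * c + S * s * I := by
    have e : 8 / 3 * (z + x * I) = 8 / 3 * z + ((8 / 3 * x : ℝ) : ℂ) * I := by push_cast; ring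
    rw [e, Complex.cosh_add, Complex.cosh_mul_I, Complex.sinh_mul_I, hc, hs, ofReal_cos, ofReal_sin]
    ring
  have em : cosh (8 / 3 * (z - x * I)) = C * c - S * s * I := by
    have e : 8 / 3 * (z - x * I) = 8 / 3 * z - ((8 / 3 * x : ℝ) : ℂ) * I := by push_cast; ring
    rw [e, Complex.cosh_sub, Complex.cosh_mul_I, Complex.sinh_mul_I, hc, hs, ofReal_cos, ofReal_sin]
    ring
  rw [ep] at np ⊢
  rw [em] at nm ⊢
  have hCS : C ^ 2 - S ^ 2 = 1 := Complex.cosh_sq_sub_sinh_sq _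
  have hcs : c ^ 2 + s ^ 2 = 1 := by
    rw [hc, hs]
    exact_mod_cast Real.cos_sq_add_sin_sq (8 / 3 * x)
  have key := xi_alg hCS hcs
  have hC0 : C ≠ 0 := cosh_ne hz'
  have hc0 : c ≠ 0 := by
    rw [hc]
    have := cos_ge h0 h1
    exact_mod_cast (by linarith : (Real.cos (8 / 3 * x)) ≠ 0)
  have hd0 := den_ne h0 h1 hz'
  have hd : den x z = 4 * C ^ 2 - 5 + 4 * c ^ 2 := by
    unfold den
    have e1 : cosh (16 / 3 * z) = 2 * C ^ 2 - 1 := by
      have e : 16 / 3 * z = 2 * (8 / 3 * z) := by ring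
      rw [e, Complex.cosh_two_mul, ← hC, ← hS]
      linear_combination -hCS
    have e2 : ((Real.cos (16 / 3 * x) : ℝ) : ℂ) = 2 * c ^ 2 - 1 := by
      have e : 16 / 3 * x = 2 * (8 / 3 * x) := by ring
      rw [e, Real.cos_two_mul, hc]
      push_cast
      ring
    rw [e1, e2]
    ring
  have hx : xiX x z = -(s * S * (4 * C ^ 2 - 3 + 4 * c ^ 2)) / (c * C * (4 * C ^ 2 - 5 + 4 * c ^ 2)) := by
    rw [hd] at hd0
    unfold xiX
    have e5 : 4 * C ^ 2 - 3 + 4 * c ^ 2 = (4 * C ^ 2 - 5 + 4 * c ^ 2) + 2 := by ring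
    rw [hd, Real.tan_eq_sin_div_cos, ofReal_div, ← hc, ← hs, Complex.tanh_eq_sinh_div_cosh, ← hC, ← hS, e5]
    generalize 4 * C ^ 2 - 5 + 4 * c ^ 2 = d at hd0
    field_simp
  rw [hd] at hd0
  rw [hx]
  have hD : c * C * (4 * C ^ 2 - 5 + 4 * c ^ 2) ≠ 0 := mul_ne_zero (mul_ne_zero hc0 hC0) hd0
  generalize (16 / (√3 * Real.pi : ℝ) : ℂ) = k
  set A := 4 * (C * c + S * s * I) ^ 2 - 1 with hA
  set B := 4 * (C * c - S * s * I) ^ 2 - 1 with hB
  have e3 : (k * ((C * c + S * s * I) / A) + k * ((C * c - S * s * I) / B)) =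
      k * ((C * c + S * s * I) * B + (C * c - S * s * I) * A) / (A * B) := by
    field_simp
  have e4 : (k * ((C * c + S * s * I) / A) - k * ((C * c - S * s * I) / B)) =
      k * ((C * c + S * s * I) * B - (C * c - S * s * I) * A) / (A * B) := by
    field_simp
  rw [e3, e4, div_mul_div_comm, mul_div_assoc', div_eq_div_iff (mul_ne_zero (mul_ne_zero np nm) hD) (mul_ne_zero np nm)]
  linear_combination (-k * A * B) * key

/-! ### plateaus -/

/-- lower bounds, `|Im z| ≤ 18/25 l` -/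
def kap : ℝ := Real.cos (12 / 25 * Real.pi)

lemma kap_pos : 0 < kap := Real.cos_pos_of_mem_Ioo ⟨by have := Real.pi_pos; linarith, by
  have := Real.pi_pos; linarith⟩

lemma kap_le {z : ℂ} (hz : |z.im| ≤ 18 / 25 * l) : kap ≤ Real.cos (16 / 3 * z.im) := by
  have hl : l = Real.pi / 8 := rfl
  have hpi := Real.pi_pos
  rw [hl] at hz
  rw [← Real.cos_abs (16 / 3 * z.im)]
  refine Real.cos_le_cos_of_nonneg_of_le_pi (abs_nonneg _) (by linarith) ?_
  rw [abs_mul, abs_of_pos (by norm_num : (0 : ℝ) < 16 / 3)]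
  linarith

lemma norm_den {x : ℝ} (h0 : 0 ≤ x) (h1 : x ≤ l / 2) {z : ℂ} (hz : |z.im| ≤ 18 / 25 * l) :
    kap * Real.exp (16 / 3 * |z.re|) ≤ ‖den x z‖ := by
  have h2 := re_den h0 h1 z
  have h3 := kap_le hz
  have h4 : Real.exp (16 / 3 * |z.re|) / 2 ≤ Real.cosh (16 / 3 * z.re) := by
    rw [← Real.cosh_abs, abs_mul, abs_of_pos (by norm_num : (0 : ℝ) < 16 / 3), Real.cosh_eq]
    have := Real.exp_pos (-(16 / 3 * |z.re|))
    linarith
  have h5 := Complex.re_le_norm (den x z)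
  have hk := kap_pos
  have hE := Real.exp_pos (16 / 3 * |z.re|)
  have h6 : Real.exp (16 / 3 * |z.re|) / 2 * kap ≤ Real.cosh (16 / 3 * z.re) * Real.cos (16 / 3 * z.im) :=
    mul_le_mul h4 h3 hk.le (Real.cosh_pos _).le
  linarith

/-- `tanh` at `+ ∞` -/
lemma tanh_pp {z : ℂ} (hz : |z.im| ≤ 18 / 25 * l) (hre : 0 ≤ z.re) :
    ‖tanh (8 / 3 * z) - 1‖ ≤ 2 / kap * Real.exp (-(16 / 3 * |z.re|)) := by
  have hk := kap_pos
  have hl := l_pos
  have hc0 : cosh (8 / 3 * z) ≠ 0 := cosh_ne (lt_of_le_of_lt hz (by linarith))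
  set w := 8 / 3 * z with hw
  have e1 : tanh w - 1 = -2 / (exp (2 * w) + 1) := by
    have h1 : exp (2 * w) + 1 = 2 * exp w * cosh w := by
      have : exp (2 * w) = exp w * exp w := by rw [← Complex.exp_add]; ring_nf
      rw [this, Complex.cosh, mul_div_assoc', mul_comm 2 (exp w), mul_assoc, mul_add]
      have h2 : exp w * exp (-w) = 1 := by rw [← Complex.exp_add, add_neg_cancel, Complex.exp_zero]
      linear_combination h2 * (-1)
    have h3 : tanh w - 1 = (sinh w - cosh w) / cosh w := by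
      rw [Complex.tanh_eq_sinh_div_cosh]
      field_simp
    have h4 : sinh w - cosh w = -exp (-w) := by
      rw [Complex.sinh, Complex.cosh]; ring
    rw [h3, h4, h1, div_eq_div_iff hc0 (by
      exact mul_ne_zero (mul_ne_zero two_ne_zero (Complex.exp_ne_zero _)) hc0)]
    have h5 : exp (-w) * exp w = 1 := by rw [← Complex.exp_add, neg_add_cancel, Complex.exp_zero]
    linear_combination (-2 * cosh w) * h5
  have h6 : kap * Real.exp (16 / 3 * |z.re|) ≤ ‖exp (2 * w) + 1‖ := by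
    have h7 := Complex.re_le_norm (exp (2 * w) + 1)
    have e2 : (2 * w : ℂ) = ((16 / 3 : ℝ) : ℂ) * z := by rw [hw]; push_cast; ring
    have e3 : (exp (2 * w) + 1).re = Real.exp (16 / 3 * z.re) * Real.cos (16 / 3 * z.im) + 1 := by
      rw [add_re, one_re, Complex.exp_re, e2, re_ofReal_mul, im_ofReal_mul]
    rw [e3] at h7
    have h8 := kap_le hz
    rw [abs_of_nonneg hre]
    have := Real.exp_pos (16 / 3 * z.re)
    nlinarith
  rw [e1, norm_div]
  have h9 : ‖(-2 : ℂ)‖ = 2 := by simp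
  rw [h9]
  have hE := Real.exp_pos (16 / 3 * |z.re|)
  calc 2 / ‖exp (2 * w) + 1‖ ≤ 2 / (kap * Real.exp (16 / 3 * |z.re|)) := by gcongr
    _ = 2 / kap * Real.exp (-(16 / 3 * |z.re|)) := by
      rw [Real.exp_neg]; field_simp

/-- the field is odd -/
lemma xiX_neg (x : ℝ) (z : ℂ) : xiX x (-z) = -xiX x z := by
  unfold xiX den
  rw [mul_neg, mul_neg, Complex.tanh_neg, Complex.cosh_neg]
  ring

lemma xiX_an {x : ℝ} (h0 : 0 ≤ x) (h1 : x ≤ l / 2) {z : ℂ} (hz : |z.im| < 3 / 4 * l) :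
    DifferentiableAt ℂ (xiX x) z := by
  have hd := den_ne h0 h1 hz
  have hc := cosh_ne hz
  have d1 : DifferentiableAt ℂ (fun z : ℂ => tanh (8 / 3 * z)) z := by
    have e : (fun z : ℂ => tanh (8 / 3 * z)) = fun z => sinh (8 / 3 * z) / cosh (8 / 3 * z) := by
      funext z
      exact Complex.tanh_eq_sinh_div_cosh _
    rw [e]
    exact DifferentiableAt.div (by fun_prop) (by fun_prop) hc
  have d2 : DifferentiableAt ℂ (fun z : ℂ => 2 / den x z) z := by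
    refine (differentiableAt_const _).div ?_ hd
    unfold den
    fun_prop
  exact (d1.const_mul _).mul (d2.const_add 1)

lemma xiX_measurable (x : ℝ) : Measurable (xiX x) := by
  have h1 : Measurable fun z : ℂ => tanh (8 / 3 * z) := by
    have e : (fun z : ℂ => tanh (8 / 3 * z)) = fun z => sinh (8 / 3 * z) / cosh (8 / 3 * z) := by
      funext z
      exact Complex.tanh_eq_sinh_div_cosh _
    rw [e]
    exact ((by fun_prop : Continuous fun z : ℂ => sinh (8 / 3 * z)).measurable).div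
      ((by fun_prop : Continuous fun z : ℂ => cosh (8 / 3 * z)).measurable)
  have h2 : Measurable (den x) := by
    unfold den
    exact (by fun_prop : Continuous fun z : ℂ => 2 * cosh (16 / 3 * z) - 1 + 2 * ((Real.cos (16 / 3 * x) : ℝ) : ℂ)).measurable
  exact (h1.const_mul _).mul ((h2.const_div 2).const_add 1)

/-- plateau at `+ ∞` -/
lemma xiX_pp {x : ℝ} (h0 : 0 ≤ x) (h1 : x ≤ l / 2) {z : ℂ} (hz : |z.im| ≤ 18 / 25 * l) (hre : 0 ≤ z.re) :
    ‖xiX x z - -((Real.tan (8 / 3 * x) : ℝ) : ℂ)‖ ≤ (4 / kap + 4 / kap * (1 + 2 / kap)) * Real.exp (-(16 / 3 * |z.re|)) := by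
  have hk := kap_pos
  have ht := tanh_pp hz hre
  have hd := norm_den h0 h1 hz
  have hT := tan_bd h0 h1
  have hE := Real.exp_pos (16 / 3 * |z.re|)
  have hE' := Real.exp_pos (-(16 / 3 * |z.re|))
  have hE1 : Real.exp (-(16 / 3 * |z.re|)) ≤ 1 := Real.exp_le_one_iff.2 (by
    have := abs_nonneg z.re; linarith)
  set T := tanh (8 / 3 * z) with hTd
  have hT1 : ‖T‖ ≤ 1 + 2 / kap := by
    have h2 : ‖T‖ ≤ ‖T - 1‖ + ‖(1 : ℂ)‖ := by simpa using norm_add_le (T - 1) 1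
    rw [norm_one] at h2
    have h3 : 2 / kap * Real.exp (-(16 / 3 * |z.re|)) ≤ 2 / kap * 1 := by gcongr
    linarith
  have hq : ‖2 / den x z‖ ≤ 2 / kap * Real.exp (-(16 / 3 * |z.re|)) := by
    rw [norm_div]
    have h9 : ‖(2 : ℂ)‖ = 2 := by simp
    rw [h9]
    calc 2 / ‖den x z‖ ≤ 2 / (kap * Real.exp (16 / 3 * |z.re|)) := by gcongr
      _ = 2 / kap * Real.exp (-(16 / 3 * |z.re|)) := by
        rw [Real.exp_neg]; field_simp
  have e : xiX x z - -((Real.tan (8 / 3 * x) : ℝ) : ℂ) =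
      -((Real.tan (8 / 3 * x) : ℝ) : ℂ) * ((T - 1) + T * (2 / den x z)) := by
    unfold xiX
    ring
  rw [e, norm_mul, norm_neg, norm_real, Real.norm_eq_abs]
  calc |Real.tan (8 / 3 * x)| * ‖(T - 1) + T * (2 / den x z)‖ ≤
      2 * (2 / kap * Real.exp (-(16 / 3 * |z.re|)) +
        (1 + 2 / kap) * (2 / kap * Real.exp (-(16 / 3 * |z.re|)))) := by
        refine mul_le_mul hT ((norm_add_le _ _).trans (add_le_add ht ?_)) (norm_nonneg _) (by norm_num)
        rw [norm_mul]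
        exact mul_le_mul hT1 hq (norm_nonneg _) (by positivity)
    _ = _ := by ring

/-- **the field is `XiA`**, one constant for all `x` -/
theorem xiX_XiA : ∃ K : ℝ, 0 < K ∧ ∀ x : ℝ, 0 ≤ x → x ≤ l / 2 →
    XiA (xiX x) (7 / 10 * l) K (16 / 3) (-((Real.tan (8 / 3 * x) : ℝ) : ℂ)) ((Real.tan (8 / 3 * x) : ℝ) : ℂ) ∧
    ‖-((Real.tan (8 / 3 * x) : ℝ) : ℂ)‖ ≤ K ∧ ‖((Real.tan (8 / 3 * x) : ℝ) : ℂ)‖ ≤ K := by
  have hl := l_pos
  have hk := kap_pos
  set K0 := 4 / kap + 4 / kap * (1 + 2 / kap) with hK0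
  have hK00 : 0 < K0 := by positivity
  set E := 1 + Real.exp (16 / 3 * (18 / 25 * l - 7 / 10 * l)) / (18 / 25 * l - 7 / 10 * l) with hE
  have hE0 : 0 < E := by
    have : 0 < 18 / 25 * l - 7 / 10 * l := by linarith
    positivity
  refine ⟨(K0 + 4) * E + 2, by positivity, fun x h0 h1 => ?_⟩
  have hT := tan_bd h0 h1
  have hTn : ‖((Real.tan (8 / 3 * x) : ℝ) : ℂ)‖ ≤ 2 := by rwa [norm_real, Real.norm_eq_abs]
  have hKE : 0 ≤ (K0 + 4) * E := by positivity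
  refine ⟨?_, by rw [norm_neg]; linarith, by linarith⟩
  have h := XiA.of_plateau (ξ := xiX x) (b := 7 / 10 * l) (b' := 18 / 25 * l) (K := K0) (c := 16 / 3)
    (xp := -((Real.tan (8 / 3 * x) : ℝ) : ℂ)) (xm := ((Real.tan (8 / 3 * x) : ℝ) : ℂ))
    (by linarith) (by linarith) hK00.le (by norm_num)
    (fun z hz => xiX_an h0 h1 (lt_of_le_of_lt hz (by linarith)))
    (fun z hz hre => xiX_pp h0 h1 hz hre)
    (fun z hz hre => by
      have h2 := xiX_pp h0 h1 (z := -z) (by rwa [neg_im, abs_neg]) (by rw [neg_re]; linarith)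
      rw [xiX_neg, neg_re, abs_neg] at h2
      have e : xiX x z - ((Real.tan (8 / 3 * x) : ℝ) : ℂ) =
          -(-xiX x z - -((Real.tan (8 / 3 * x) : ℝ) : ℂ)) := by ring
      rw [e, norm_neg]
      exact h2)
  have hd : ‖-((Real.tan (8 / 3 * x) : ℝ) : ℂ) - ((Real.tan (8 / 3 * x) : ℝ) : ℂ)‖ ≤ 4 := by
    refine (norm_sub_le _ _).trans ?_
    rw [norm_neg]
    linarith
  have hle : (K0 + ‖-((Real.tan (8 / 3 * x) : ℝ) : ℂ) - ((Real.tan (8 / 3 * x) : ℝ) : ℂ)‖) * E ≤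
      (K0 + 4) * E + 2 := by
    have : (K0 + ‖-((Real.tan (8 / 3 * x) : ℝ) : ℂ) - ((Real.tan (8 / 3 * x) : ℝ) : ℂ)‖) * E ≤ (K0 + 4) * E := by
      gcongr
    linarith
  exact ⟨by positivity, h.c0, h.b0, h.an,
    fun z hz => (h.db z hz).trans (mul_le_mul_of_nonneg_right hle (Real.exp_pos _).le),
    fun z hz hre => (h.pp z hz hre).trans (mul_le_mul_of_nonneg_right hle (Real.exp_pos _).le),
    fun z hz hre => (h.pm z hz hre).trans (mul_le_mul_of_nonneg_right hle (Real.exp_pos _).le)⟩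

/-- `J = - 2 tan θ`, primitive `(3/4) log cos θ` -/
theorem hasDerivAt_log_cos {x : ℝ} (h0 : 0 ≤ x) (h1 : x ≤ l / 2) :
    HasDerivAt (fun x : ℝ => 3 / 4 * Real.log (Real.cos (8 / 3 * x))) (-2 * Real.tan (8 / 3 * x)) x := by
  have hc := cos_ge h0 h1
  have h2 : HasDerivAt (fun x : ℝ => Real.cos (8 / 3 * x)) (-Real.sin (8 / 3 * x) * (8 / 3)) x := by
    have := ((hasDerivAt_id x).const_mul (8 / 3)).cos
    simpa using this
  have h3 := (h2.log (by linarith)).const_mul (3 / 4)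
  refine h3.congr_deriv ?_
  rw [Real.tan_eq_sin_div_cos]
  ring

end IST

end
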