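import Mathlib

/-!
# IST, T7: the zero mode along the path is a forward heat equation; maximum principle

`f s τ` : functional at the point `s` of the path, legs at height `τ`.
* `heat_real` : real subsolution `u_s ≤ α u_ττ + β u_τ + δ` on `(0, S] × (-R, R)`, `u ≤ δ0` at `s = 0`,
  `u ≤ M` at `τ = ± R`: `u ≤ δ0 + δ s + M e^{(α0 κ² + β0 κ) s} cosh(κ τ)/cosh(κ R)`;
* `heat_complex` : the same for `‖f_s - α f_ττ - β f_τ‖ ≤ δ`, complex valued;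
* **`heat_main`** : `‖f s τ‖ ≤ δ0 + δ s + 2 M e^{(α0 κ² + β0 κ) s - κ (R - |τ|)}`;
* **`heat_gamma`** : with a term `γ f`, `Γ' = γ`, `|Γ| ≤ G`.
-/

set_option autoImplicit false

open Set Filter Topology

noncomputable section

namespace IST

/-- derivative from the left at a maximum -/
lemma deriv_left_nonneg {g : ℝ → ℝ} {g' s : ℝ} (hs : 0 < s) (hd : HasDerivWithinAt g g' (Iic s) s)
    (hm : ∀ t ∈ Icc 0 s, g t ≤ g s) : 0 ≤ g' := by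
  have h1 : Tendsto (fun t => (t - s)⁻¹ * (g t - g s)) (𝓝[<] s) (𝓝 g') := by
    have := hd.Iio_of_Iic
    rw [hasDerivWithinAt_iff_tendsto_slope' (by simp)] at this
    refine this.congr fun t => ?_
    rw [slope_def_field]
    field_simp
  refine ge_of_tendsto h1 ?_
  filter_upwards [Ioo_mem_nhdsLT hs] with t ht
  have h2 := hm t ⟨ht.1.le, ht.2.le⟩
  have h3 : t - s < 0 := by linarith [ht.2]
  have h4 : (t - s)⁻¹ < 0 := inv_lt_zero.2 h3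
  nlinarith

/-- second derivative at an interior maximum -/
lemma second_nonpos {g g' : ℝ → ℝ} {g'' τ a b : ℝ} (hτ : τ ∈ Ioo a b)
    (hd : ∀ t ∈ Ioo a b, HasDerivAt g (g' t) t) (hd2 : HasDerivAt g' g'' τ)
    (hm : ∀ t ∈ Ioo a b, g t ≤ g τ) : g' τ = 0 ∧ g'' ≤ 0 := by
  have hnh : Ioo a b ∈ 𝓝 τ := Ioo_mem_nhds hτ.1 hτ.2
  have hloc : IsLocalMax g τ := by
    filter_upwards [hnh] with t ht using hm t ht
  have h0 : g' τ = 0 := hloc.hasDerivAt_eq_zero (hd τ hτ)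
  refine ⟨h0, ?_⟩
  by_contra hpos
  rw [not_le] at hpos
  -- `g'` is positive right of `τ`
  have h1 : Tendsto (slope g' τ) (𝓝[>] τ) (𝓝 g'') :=
    (hasDerivAt_iff_tendsto_slope.1 hd2).mono_left (nhdsWithin_mono _ fun x hx => ne_of_gt hx)
  have h2 : ∀ᶠ t in 𝓝[>] τ, 0 < g' t := by
    filter_upwards [h1.eventually (lt_mem_nhds hpos), self_mem_nhdsWithin] with t ht hgt
    have hgt' : τ < t := hgt
    rw [slope_def_field, h0, sub_zero] at ht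
    have h3 : 0 < t - τ := by linarith
    have := mul_pos ht h3
    rwa [div_mul_cancel₀ _ h3.ne'] at this
  obtain ⟨c, hc1, hc2⟩ := (mem_nhdsGT_iff_exists_Ioo_subset.1 h2)
  have hc1' : τ < c := hc1
  set d := min c b with hd'
  have hdτ : τ < d := lt_min hc1' hτ.2
  set e := (τ + d) / 2 with he
  have e1 : τ < e := by rw [he]; linarith
  have e2 : e < d := by rw [he]; linarith
  have hsub : Icc τ e ⊆ Ioo a b := fun t ht =>
    ⟨lt_of_lt_of_le hτ.1 ht.1, lt_of_le_of_lt ht.2 (e2.trans_le (min_le_right _ _))⟩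
  have hmono : StrictMonoOn g (Icc τ e) := by
    refine strictMonoOn_of_deriv_pos (convex_Icc _ _) ?_ ?_
    · exact fun t ht => (hd t (hsub ht)).continuousAt.continuousWithinAt
    · intro t ht
      rw [interior_Icc] at ht
      rw [(hd t (hsub ⟨ht.1.le, ht.2.le⟩)).deriv]
      exact hc2 ⟨ht.1, ht.2.trans (e2.trans_le (min_le_left _ _))⟩
  have h3 := hmono (left_mem_Icc.2 e1.le) (right_mem_Icc.2 e1.le) e1
  have h4 := hm e (hsub (right_mem_Icc.2 e1.le))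
  linarith

/-- the barrier -/
def bar (α0 β0 κ R M δ0 δ : ℝ) (s τ : ℝ) : ℝ :=
  δ0 + δ * s + M * Real.exp ((α0 * κ ^ 2 + β0 * κ) * s) * (Real.cosh (κ * τ) / Real.cosh (κ * R))

section real

variable {u us ut utt : ℝ → ℝ → ℝ} {α β : ℝ → ℝ} {α0 β0 κ R S M δ0 δ : ℝ}

/-- strict version -/
theorem heat_strict (hS : 0 ≤ S) (hR : 0 < R) (hκ : 0 ≤ κ) (hM : 0 ≤ M)
    (hα : ∀ s ∈ Icc 0 S, 0 ≤ α s ∧ α s ≤ α0) (hβ : ∀ s ∈ Icc 0 S, |β s| ≤ β0)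
    (hc : ContinuousOn (fun p : ℝ × ℝ => u p.1 p.2) (Icc 0 S ×ˢ Icc (-R) R))
    (ds : ∀ s ∈ Ioc 0 S, ∀ τ ∈ Ioo (-R) R, HasDerivWithinAt (fun s => u s τ) (us s τ) (Iic s) s)
    (dt : ∀ s ∈ Ioc 0 S, ∀ τ ∈ Ioo (-R) R, HasDerivAt (fun τ => u s τ) (ut s τ) τ)
    (dtt : ∀ s ∈ Ioc 0 S, ∀ τ ∈ Ioo (-R) R, HasDerivAt (fun τ => ut s τ) (utt s τ) τ)
    (pde : ∀ s ∈ Ioc 0 S, ∀ τ ∈ Ioo (-R) R, us s τ < α s * utt s τ + β s * ut s τ + δ)
    (h0 : ∀ τ ∈ Icc (-R) R, u 0 τ ≤ δ0) (hδ0 : 0 ≤ δ0) (hδ : 0 ≤ δ)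
    (hb : ∀ s ∈ Icc 0 S, u s R ≤ M ∧ u s (-R) ≤ M) :
    ∀ s ∈ Icc 0 S, ∀ τ ∈ Icc (-R) R, u s τ ≤ bar α0 β0 κ R M δ0 δ s τ := by
  set B := bar α0 β0 κ R M δ0 δ with hB
  have hα0 : 0 ≤ α0 := (hα 0 ⟨le_rfl, hS⟩).1.trans (hα 0 ⟨le_rfl, hS⟩).2
  have hβ0 : 0 ≤ β0 := (abs_nonneg _).trans (hβ 0 ⟨le_rfl, hS⟩)
  have hch : 0 < Real.cosh (κ * R) := Real.cosh_pos _
  set L := α0 * κ ^ 2 + β0 * κ with hL
  have hL0 : 0 ≤ L := by positivity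
  have hBc : Continuous fun p : ℝ × ℝ => B p.1 p.2 := by
    rw [hB]
    unfold bar
    fun_prop
  have hX : ∀ s τ, 0 ≤ M * Real.exp (L * s) * (Real.cosh (κ * τ) / Real.cosh (κ * R)) := fun s τ => by
    have := Real.cosh_pos (κ * τ)
    positivity
  -- the difference has a maximum
  have hK : IsCompact (Icc (0 : ℝ) S ×ˢ Icc (-R) R) := isCompact_Icc.prod isCompact_Icc
  have hne : (Icc (0 : ℝ) S ×ˢ Icc (-R) R).Nonempty := ⟨(0, 0), ⟨⟨le_rfl, hS⟩, ⟨by linarith, hR.le⟩⟩⟩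
  obtain ⟨⟨s, τ⟩, hp, hmax⟩ := hK.exists_isMaxOn hne (hc.sub hBc.continuousOn)
  have hmax' : ∀ s' ∈ Icc 0 S, ∀ τ' ∈ Icc (-R) R, u s' τ' - B s' τ' ≤ u s τ - B s τ := fun s' hs' τ' hτ' =>
    hmax (show (s', τ') ∈ Icc (0 : ℝ) S ×ˢ Icc (-R) R from ⟨hs', hτ'⟩)
  suffices hle : u s τ - B s τ ≤ 0 by
    intro s' hs' τ' hτ'
    have := hmax' s' hs' τ' hτ'
    linarith
  have hs : s ∈ Icc 0 S := hp.1
  have hτ : τ ∈ Icc (-R) R := hp.2
  -- boundary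
  by_cases hs0 : s = 0
  · have h1 := h0 τ hτ
    have h2 : δ0 ≤ B s τ := by
      rw [hB]
      unfold bar
      have := hX s τ
      rw [hs0] at this ⊢
      rw [mul_zero, add_zero]
      rw [hL] at this
      linarith
    rw [hs0] at h2 ⊢
    linarith
  have hs1 : s ∈ Ioc 0 S := ⟨lt_of_le_of_ne hs.1 (Ne.symm hs0), hs.2⟩
  by_cases hτ0 : |τ| = R
  · have h2 : M ≤ B s τ := by
      have e : Real.cosh (κ * τ) = Real.cosh (κ * R) := by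
        rw [← hτ0, ← Real.cosh_abs (κ * τ), abs_mul, abs_of_nonneg hκ]
      rw [hB]
      unfold bar
      rw [e, div_self hch.ne', mul_one]
      have h3 : 1 ≤ Real.exp (L * s) := Real.one_le_exp (mul_nonneg hL0 hs.1)
      have h4 := mul_nonneg hδ hs.1
      rw [hL] at h3
      nlinarith
    have h3 : u s τ ≤ M := by
      rcases abs_eq hR.le |>.1 hτ0 with h | h
      · rw [h]; exact (hb s hs).1
      · rw [h]; exact (hb s hs).2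
    linarith
  have hτ1 : τ ∈ Ioo (-R) R := by
    have h1 : |τ| < R := lt_of_le_of_ne (abs_le.2 hτ) hτ0
    exact abs_lt.1 h1
  -- interior maximum: contradiction with the equation
  exfalso
  have dBs : HasDerivAt (fun s => B s τ) (δ + M * (Real.exp (L * s) * L) * (Real.cosh (κ * τ) / Real.cosh (κ * R))) s := by
    have h1 : HasDerivAt (fun s : ℝ => Real.exp (L * s)) (Real.exp (L * s) * L) s := by
      have := ((hasDerivAt_id s).const_mul L).exp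
      simpa using this
    have h2 := ((((hasDerivAt_id s).const_mul δ).const_add δ0).add
      ((h1.const_mul M).mul_const (Real.cosh (κ * τ) / Real.cosh (κ * R))))
    simp only [mul_one] at h2
    exact h2
  have dBt : ∀ t, HasDerivAt (fun τ => B s τ) (M * Real.exp (L * s) * (Real.sinh (κ * t) * κ / Real.cosh (κ * R))) t := by
    intro t
    have h1 : HasDerivAt (fun τ : ℝ => Real.cosh (κ * τ)) (Real.sinh (κ * t) * κ) t := by
      have := ((hasDerivAt_id t).const_mul κ).cosh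
      simpa using this
    exact ((h1.div_const (Real.cosh (κ * R))).const_mul (M * Real.exp (L * s))).const_add (δ0 + δ * s)
  have dBtt : HasDerivAt (fun t => M * Real.exp (L * s) * (Real.sinh (κ * t) * κ / Real.cosh (κ * R)))
      (M * Real.exp (L * s) * (Real.cosh (κ * τ) * κ * κ / Real.cosh (κ * R))) τ := by
    have h1 : HasDerivAt (fun τ : ℝ => Real.sinh (κ * τ)) (Real.cosh (κ * τ) * κ) τ := by
      have := ((hasDerivAt_id τ).const_mul κ).sinh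
      simpa using this
    exact ((h1.mul_const κ).div_const (Real.cosh (κ * R))).const_mul (M * Real.exp (L * s))
  have r1 : 0 ≤ us s τ - (δ + M * (Real.exp (L * s) * L) * (Real.cosh (κ * τ) / Real.cosh (κ * R))) := by
    refine deriv_left_nonneg hs1.1 ((ds s hs1 τ hτ1).sub dBs.hasDerivWithinAt) fun t ht => ?_
    exact hmax' t ⟨ht.1, ht.2.trans hs.2⟩ τ hτ
  have r2 := second_nonpos (g := fun t => u s t - B s t)
    (g' := fun t => ut s t - M * Real.exp (L * s) * (Real.sinh (κ * t) * κ / Real.cosh (κ * R)))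
    (g'' := utt s τ - M * Real.exp (L * s) * (Real.cosh (κ * τ) * κ * κ / Real.cosh (κ * R))) hτ1
    (fun t ht => (dt s hs1 t ht).sub (dBt t)) ((dtt s hs1 τ hτ1).sub dBtt)
    (fun t ht => hmax' s hs t ⟨ht.1.le, ht.2.le⟩)
  obtain ⟨r3, r4⟩ := r2
  have hp := pde s hs1 τ hτ1
  have ha := hα s hs
  have hbb := hβ s hs
  set X := M * Real.exp (L * s) * (Real.cosh (κ * τ) / Real.cosh (κ * R)) with hXd
  have hX0 : 0 ≤ X := hX s τ
  have x1 : M * (Real.exp (L * s) * L) * (Real.cosh (κ * τ) / Real.cosh (κ * R)) = L * X := by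
    rw [hXd]; ring
  have x2 : M * Real.exp (L * s) * (Real.cosh (κ * τ) * κ * κ / Real.cosh (κ * R)) = κ ^ 2 * X := by
    rw [hXd]; ring
  set Y := M * Real.exp (L * s) * (Real.sinh (κ * τ) * κ / Real.cosh (κ * R)) with hYd
  have y1 : |Y| ≤ κ * X := by
    have e : κ * X = M * Real.exp (L * s) * (Real.cosh (κ * τ) * κ / Real.cosh (κ * R)) := by
      rw [hXd]; ring
    rw [e, hYd, abs_mul, abs_of_nonneg (by positivity : 0 ≤ M * Real.exp (L * s)), abs_div, abs_mul,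
      abs_of_pos hch, abs_of_nonneg hκ]
    have h5 : |Real.sinh (κ * τ)| ≤ Real.cosh (κ * τ) := by
      rw [abs_le]
      constructor
      · have := Real.exp_pos (κ * τ)
        rw [Real.sinh_eq, Real.cosh_eq]; linarith
      · exact (Real.sinh_lt_cosh _).le
    gcongr
  rw [x1] at r1
  rw [x2] at r4
  have e3 : ut s τ = Y := by linarith
  rw [e3] at hp
  have p1 : α s * utt s τ ≤ α s * (κ ^ 2 * X) := mul_le_mul_of_nonneg_left (by linarith) ha.1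
  have p2 : α s * (κ ^ 2 * X) ≤ α0 * (κ ^ 2 * X) := mul_le_mul_of_nonneg_right ha.2 (by positivity)
  have p3 : β s * Y ≤ β0 * (κ * X) := by
    calc β s * Y ≤ |β s * Y| := le_abs_self _
      _ = |β s| * |Y| := abs_mul _ _
      _ ≤ β0 * (κ * X) := mul_le_mul hbb y1 (abs_nonneg _) hβ0
  have p4 : L * X = α0 * (κ ^ 2 * X) + β0 * (κ * X) := by rw [hL]; ring
  linarith

/-- **maximum principle**, real valued -/
theorem heat_real (hS : 0 ≤ S) (hR : 0 < R) (hκ : 0 ≤ κ) (hM : 0 ≤ M)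
    (hα : ∀ s ∈ Icc 0 S, 0 ≤ α s ∧ α s ≤ α0) (hβ : ∀ s ∈ Icc 0 S, |β s| ≤ β0)
    (hc : ContinuousOn (fun p : ℝ × ℝ => u p.1 p.2) (Icc 0 S ×ˢ Icc (-R) R))
    (ds : ∀ s ∈ Ioc 0 S, ∀ τ ∈ Ioo (-R) R, HasDerivWithinAt (fun s => u s τ) (us s τ) (Iic s) s)
    (dt : ∀ s ∈ Ioc 0 S, ∀ τ ∈ Ioo (-R) R, HasDerivAt (fun τ => u s τ) (ut s τ) τ)
    (dtt : ∀ s ∈ Ioc 0 S, ∀ τ ∈ Ioo (-R) R, HasDerivAt (fun τ => ut s τ) (utt s τ) τ)
    (pde : ∀ s ∈ Ioc 0 S, ∀ τ ∈ Ioo (-R) R, us s τ ≤ α s * utt s τ + β s * ut s τ + δ)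
    (h0 : ∀ τ ∈ Icc (-R) R, u 0 τ ≤ δ0) (hδ0 : 0 ≤ δ0) (hδ : 0 ≤ δ)
    (hb : ∀ s ∈ Icc 0 S, u s R ≤ M ∧ u s (-R) ≤ M) :
    ∀ s ∈ Icc 0 S, ∀ τ ∈ Icc (-R) R, u s τ ≤ bar α0 β0 κ R M δ0 δ s τ := by
  intro s hs τ hτ
  refine le_of_forall_pos_le_add fun ε hε => ?_
  have h1 := heat_strict (δ := δ + ε / (S + 1)) hS hR hκ hM hα hβ hc ds dt dtt
    (fun s hs τ hτ => (pde s hs τ hτ).trans_lt (by
      have : 0 < ε / (S + 1) := by positivity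
      linarith)) h0 hδ0 (by positivity) hb s hs τ hτ
  refine h1.trans ?_
  unfold bar
  have h2 : ε / (S + 1) * s ≤ ε := by
    rw [div_mul_eq_mul_div, div_le_iff₀ (by linarith)]
    nlinarith [hs.2]
  nlinarith

end real

section cplx

variable {f fs ft ftt : ℝ → ℝ → ℂ} {α β : ℝ → ℝ} {α0 β0 κ R S M δ0 δ : ℝ}

/-- **maximum principle**, complex valued -/
theorem heat_complex (hS : 0 ≤ S) (hR : 0 < R) (hκ : 0 ≤ κ) (hM : 0 ≤ M)
    (hα : ∀ s ∈ Icc 0 S, 0 ≤ α s ∧ α s ≤ α0) (hβ : ∀ s ∈ Icc 0 S, |β s| ≤ β0)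
    (hc : ContinuousOn (fun p : ℝ × ℝ => f p.1 p.2) (Icc 0 S ×ˢ Icc (-R) R))
    (ds : ∀ s ∈ Ioc 0 S, ∀ τ ∈ Ioo (-R) R, HasDerivWithinAt (fun s => f s τ) (fs s τ) (Iic s) s)
    (dt : ∀ s ∈ Ioc 0 S, ∀ τ ∈ Ioo (-R) R, HasDerivAt (fun τ => f s τ) (ft s τ) τ)
    (dtt : ∀ s ∈ Ioc 0 S, ∀ τ ∈ Ioo (-R) R, HasDerivAt (fun τ => ft s τ) (ftt s τ) τ)
    (pde : ∀ s ∈ Ioc 0 S, ∀ τ ∈ Ioo (-R) R, ‖fs s τ - α s * ftt s τ - β s * ft s τ‖ ≤ δ)
    (h0 : ∀ τ ∈ Icc (-R) R, ‖f 0 τ‖ ≤ δ0) (hδ0 : 0 ≤ δ0) (hδ : 0 ≤ δ)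
    (hb : ∀ s ∈ Icc 0 S, ‖f s R‖ ≤ M ∧ ‖f s (-R)‖ ≤ M) :
    ∀ s ∈ Icc 0 S, ∀ τ ∈ Icc (-R) R, ‖f s τ‖ ≤ bar α0 β0 κ R M δ0 δ s τ := by
  -- a unit functional
  have key : ∀ c : ℂ, ‖c‖ = 1 → ∀ s ∈ Icc 0 S, ∀ τ ∈ Icc (-R) R, (c * f s τ).re ≤ bar α0 β0 κ R M δ0 δ s τ := by
    intro c hc1
    have re_le : ∀ z : ℂ, (c * z).re ≤ ‖z‖ := fun z => by
      have h1 := Complex.re_le_norm (c * z)
      rwa [norm_mul, hc1, one_mul] at h1
    have dre : ∀ {g : ℝ → ℂ} {g' : ℂ} {t : ℝ}, HasDerivAt g g' t → HasDerivAt (fun t => (c * g t).re) (c * g').re t := by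
      intro g g' t h
      exact Complex.reCLM.hasFDerivAt.comp_hasDerivAt t (h.const_mul c)
    refine heat_real (us := fun s τ => (c * fs s τ).re) (ut := fun s τ => (c * ft s τ).re)
      (utt := fun s τ => (c * ftt s τ).re) hS hR hκ hM hα hβ ?_ ?_ (fun s hs τ hτ => dre (dt s hs τ hτ))
      (fun s hs τ hτ => dre (dtt s hs τ hτ)) ?_ (fun τ hτ => (re_le _).trans (h0 τ hτ)) hδ0 hδ
      (fun s hs => ⟨(re_le _).trans (hb s hs).1, (re_le _).trans (hb s hs).2⟩)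
    · exact Complex.continuous_re.comp_continuousOn (continuousOn_const.mul hc)
    · intro s hs τ hτ
      exact Complex.reCLM.hasFDerivAt.comp_hasDerivWithinAt s ((ds s hs τ hτ).const_mul c)
    · intro s hs τ hτ
      have h1 := (re_le (fs s τ - α s * ftt s τ - β s * ft s τ)).trans (pde s hs τ hτ)
      have e : c * (fs s τ - α s * ftt s τ - β s * ft s τ) =
          c * fs s τ - (α s : ℂ) * (c * ftt s τ) - (β s : ℂ) * (c * ft s τ) := by ring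
      rw [e, Complex.sub_re, Complex.sub_re, Complex.re_ofReal_mul, Complex.re_ofReal_mul] at h1
      linarith
  intro s hs τ hτ
  by_cases hz : f s τ = 0
  · have h1 := key 1 (by simp) s hs τ hτ
    rw [hz, mul_zero, Complex.zero_re] at h1
    rw [hz, norm_zero]
    exact h1
  · have hn : (‖f s τ‖ : ℂ) ≠ 0 := by
      exact_mod_cast norm_ne_zero_iff.2 hz
    have h1 := key ((starRingEnd ℂ) (f s τ) / ‖f s τ‖) (by
      rw [norm_div, RCLike.norm_conj, Complex.norm_real, norm_norm, div_self (norm_ne_zero_iff.2 hz)]) s hs τ hτ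
    have e : (starRingEnd ℂ) (f s τ) / ‖f s τ‖ * f s τ = ((‖f s τ‖ : ℝ) : ℂ) := by
      rw [div_mul_eq_mul_div, Complex.conj_mul']
      field_simp
    rw [e, Complex.ofReal_re] at h1
    exact h1

/-- **the zero mode stays flat**: explicit form of the barrier -/
theorem heat_main (hS : 0 ≤ S) (hR : 0 < R) (hκ : 0 ≤ κ) (hM : 0 ≤ M)
    (hα : ∀ s ∈ Icc 0 S, 0 ≤ α s ∧ α s ≤ α0) (hβ : ∀ s ∈ Icc 0 S, |β s| ≤ β0)
    (hc : ContinuousOn (fun p : ℝ × ℝ => f p.1 p.2) (Icc 0 S ×ˢ Icc (-R) R))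
    (ds : ∀ s ∈ Ioc 0 S, ∀ τ ∈ Ioo (-R) R, HasDerivWithinAt (fun s => f s τ) (fs s τ) (Iic s) s)
    (dt : ∀ s ∈ Ioc 0 S, ∀ τ ∈ Ioo (-R) R, HasDerivAt (fun τ => f s τ) (ft s τ) τ)
    (dtt : ∀ s ∈ Ioc 0 S, ∀ τ ∈ Ioo (-R) R, HasDerivAt (fun τ => ft s τ) (ftt s τ) τ)
    (pde : ∀ s ∈ Ioc 0 S, ∀ τ ∈ Ioo (-R) R, ‖fs s τ - α s * ftt s τ - β s * ft s τ‖ ≤ δ)
    (h0 : ∀ τ ∈ Icc (-R) R, ‖f 0 τ‖ ≤ δ0) (hδ0 : 0 ≤ δ0) (hδ : 0 ≤ δ)
    (hb : ∀ s ∈ Icc 0 S, ‖f s R‖ ≤ M ∧ ‖f s (-R)‖ ≤ M) :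
    ∀ s ∈ Icc 0 S, ∀ τ ∈ Icc (-R) R, ‖f s τ‖ ≤ δ0 + δ * s +
      2 * M * Real.exp ((α0 * κ ^ 2 + β0 * κ) * s - κ * (R - |τ|)) := by
  intro s hs τ hτ
  refine (heat_complex hS hR hκ hM hα hβ hc ds dt dtt pde h0 hδ0 hδ hb s hs τ hτ).trans ?_
  unfold bar
  have h1 : Real.cosh (κ * τ) / Real.cosh (κ * R) ≤ 2 * Real.exp (-(κ * (R - |τ|))) := by
    rw [div_le_iff₀ (Real.cosh_pos _)]
    have h2 : Real.cosh (κ * τ) ≤ Real.exp (κ * |τ|) := by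
      rw [← Real.cosh_abs, abs_mul, abs_of_nonneg hκ, Real.cosh_eq]
      have : Real.exp (-(κ * |τ|)) ≤ Real.exp (κ * |τ|) :=
        Real.exp_le_exp.2 (by have := mul_nonneg hκ (abs_nonneg τ); linarith)
      linarith
    have h3 : Real.exp (κ * R) / 2 ≤ Real.cosh (κ * R) := by
      rw [Real.cosh_eq]
      have := Real.exp_pos (-(κ * R))
      linarith
    have h4 : Real.exp (κ * |τ|) = Real.exp (-(κ * (R - |τ|))) * Real.exp (κ * R) := by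
      rw [← Real.exp_add]; congr 1; ring
    have h5 := Real.exp_pos (-(κ * (R - |τ|)))
    calc Real.cosh (κ * τ) ≤ Real.exp (-(κ * (R - |τ|))) * Real.exp (κ * R) := h2.trans h4.le
      _ = 2 * Real.exp (-(κ * (R - |τ|))) * (Real.exp (κ * R) / 2) := by ring
      _ ≤ _ := mul_le_mul_of_nonneg_left h3 (by positivity)
  have h6 := Real.exp_pos ((α0 * κ ^ 2 + β0 * κ) * s)
  have e : 2 * M * Real.exp ((α0 * κ ^ 2 + β0 * κ) * s - κ * (R - |τ|)) =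
      M * Real.exp ((α0 * κ ^ 2 + β0 * κ) * s) * (2 * Real.exp (-(κ * (R - |τ|)))) := by
    rw [sub_eq_add_neg, Real.exp_add]; ring
  rw [e]
  gcongr

/-- with a term of order zero -/
theorem heat_gamma {Γ γ : ℝ → ℝ} {G : ℝ} (hS : 0 ≤ S) (hR : 0 < R) (hκ : 0 ≤ κ) (hM : 0 ≤ M)
    (hα : ∀ s ∈ Icc 0 S, 0 ≤ α s ∧ α s ≤ α0) (hβ : ∀ s ∈ Icc 0 S, |β s| ≤ β0)
    (hΓ : ∀ s ∈ Icc 0 S, HasDerivWithinAt Γ (γ s) (Icc 0 S) s) (hG : ∀ s ∈ Icc 0 S, |Γ s| ≤ G)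
    (hc : ContinuousOn (fun p : ℝ × ℝ => f p.1 p.2) (Icc 0 S ×ˢ Icc (-R) R))
    (ds : ∀ s ∈ Ioc 0 S, ∀ τ ∈ Ioo (-R) R, HasDerivWithinAt (fun s => f s τ) (fs s τ) (Iic s) s)
    (dt : ∀ s ∈ Ioc 0 S, ∀ τ ∈ Ioo (-R) R, HasDerivAt (fun τ => f s τ) (ft s τ) τ)
    (dtt : ∀ s ∈ Ioc 0 S, ∀ τ ∈ Ioo (-R) R, HasDerivAt (fun τ => ft s τ) (ftt s τ) τ)
    (pde : ∀ s ∈ Ioc 0 S, ∀ τ ∈ Ioo (-R) R,
      ‖fs s τ - α s * ftt s τ - β s * ft s τ - γ s * f s τ‖ ≤ δ)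
    (h0 : ∀ τ ∈ Icc (-R) R, ‖f 0 τ‖ ≤ δ0) (hδ0 : 0 ≤ δ0) (hδ : 0 ≤ δ)
    (hb : ∀ s ∈ Icc 0 S, ‖f s R‖ ≤ M ∧ ‖f s (-R)‖ ≤ M) :
    ∀ s ∈ Icc 0 S, ∀ τ ∈ Icc (-R) R, ‖f s τ‖ ≤ Real.exp (2 * G) * (δ0 + δ * s +
      2 * M * Real.exp ((α0 * κ ^ 2 + β0 * κ) * s - κ * (R - |τ|))) := by
  have hG0 : 0 ≤ G := (abs_nonneg _).trans (hG 0 ⟨le_rfl, hS⟩)
  have e1 : ∀ s ∈ Icc 0 S, Real.exp (-Γ s) ≤ Real.exp G := fun s hs =>
    Real.exp_le_exp.2 (by have := (abs_le.1 (hG s hs)).1; linarith)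
  have e2 : ∀ s ∈ Icc 0 S, Real.exp (Γ s) ≤ Real.exp G := fun s hs =>
    Real.exp_le_exp.2 (abs_le.1 (hG s hs)).2
  have nE : ∀ (s : ℝ) (z : ℂ), ‖((Real.exp (-Γ s) : ℝ) : ℂ) * z‖ = Real.exp (-Γ s) * ‖z‖ := fun s z => by
    rw [norm_mul, Complex.norm_real, Real.norm_of_nonneg (Real.exp_pos _).le]
  have hΓc : ContinuousOn Γ (Icc 0 S) := fun s hs => (hΓ s hs).continuousWithinAt
  have main := heat_main (f := fun s τ => ((Real.exp (-Γ s) : ℝ) : ℂ) * f s τ)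
    (fs := fun s τ => ((Real.exp (-Γ s) : ℝ) : ℂ) * (fs s τ - γ s * f s τ))
    (ft := fun s τ => ((Real.exp (-Γ s) : ℝ) : ℂ) * ft s τ)
    (ftt := fun s τ => ((Real.exp (-Γ s) : ℝ) : ℂ) * ftt s τ)
    (δ0 := Real.exp G * δ0) (δ := Real.exp G * δ) (M := Real.exp G * M) hS hR hκ (by positivity) hα hβ ?_ ?_
    (fun s hs τ hτ => (dt s hs τ hτ).const_mul _) (fun s hs τ hτ => (dtt s hs τ hτ).const_mul _) ?_ ?_
    (by positivity) (by positivity) ?_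
  · intro s hs τ hτ
    have h1 := main s hs τ hτ
    rw [nE] at h1
    have h2 : ‖f s τ‖ = Real.exp (Γ s) * (Real.exp (-Γ s) * ‖f s τ‖) := by
      rw [← mul_assoc, ← Real.exp_add, add_neg_cancel, Real.exp_zero, one_mul]
    rw [h2]
    have h3 : Real.exp (2 * G) = Real.exp G * Real.exp G := by rw [← Real.exp_add]; congr 1; ring
    have h4 : 0 ≤ Real.exp G * δ0 + Real.exp G * δ * s +
        2 * (Real.exp G * M) * Real.exp ((α0 * κ ^ 2 + β0 * κ) * s - κ * (R - |τ|)) :=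
      (mul_nonneg (Real.exp_pos _).le (norm_nonneg _)).trans h1
    calc Real.exp (Γ s) * (Real.exp (-Γ s) * ‖f s τ‖) ≤ Real.exp G * (Real.exp G * δ0 + Real.exp G * δ * s +
        2 * (Real.exp G * M) * Real.exp ((α0 * κ ^ 2 + β0 * κ) * s - κ * (R - |τ|))) :=
          mul_le_mul (e2 s hs) h1 (mul_nonneg (Real.exp_pos _).le (norm_nonneg _)) (Real.exp_pos _).le
      _ = _ := by rw [h3]; ring
  · refine ContinuousOn.mul ?_ hc
    refine Complex.continuous_ofReal.comp_continuousOn (Real.continuous_exp.comp_continuousOn ?_)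
    exact (hΓc.comp continuousOn_fst fun p hp => hp.1).neg
  · intro s hs τ hτ
    have hs' : s ∈ Icc 0 S := ⟨hs.1.le, hs.2⟩
    have h1 : HasDerivWithinAt Γ (γ s) (Iic s) s := by
      have h2 := (hΓ s hs').mono (show Icc 0 s ⊆ Icc 0 S from Icc_subset_Icc_right hs.2)
      exact h2.mono_of_mem_nhdsWithin (Icc_mem_nhdsLE hs.1)
    have h3 : HasDerivWithinAt (fun s => ((Real.exp (-Γ s) : ℝ) : ℂ)) ((Real.exp (-Γ s) * -γ s : ℝ) : ℂ) (Iic s) s :=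
      (h1.neg.exp).ofReal_comp
    refine (h3.mul (ds s hs τ hτ)).congr_deriv ?_
    push_cast
    ring
  · intro s hs τ hτ
    have hs' : s ∈ Icc 0 S := ⟨hs.1.le, hs.2⟩
    have e : ((Real.exp (-Γ s) : ℝ) : ℂ) * (fs s τ - γ s * f s τ) -
        α s * (((Real.exp (-Γ s) : ℝ) : ℂ) * ftt s τ) - β s * (((Real.exp (-Γ s) : ℝ) : ℂ) * ft s τ) =
        ((Real.exp (-Γ s) : ℝ) : ℂ) * (fs s τ - α s * ftt s τ - β s * ft s τ - γ s * f s τ) := by ring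
    simp only [e, nE]
    exact mul_le_mul (e1 s hs') (pde s hs τ hτ) (norm_nonneg _) (Real.exp_pos _).le
  · intro τ hτ
    simp only [nE]
    exact mul_le_mul (e1 0 ⟨le_rfl, hS⟩) (h0 τ hτ) (norm_nonneg _) (Real.exp_pos _).le
  · intro s hs
    simp only [nE]
    exact ⟨mul_le_mul (e1 s hs) (hb s hs).1 (norm_nonneg _) (Real.exp_pos _).le,
      mul_le_mul (e1 s hs) (hb s hs).2 (norm_nonneg _) (Real.exp_pos _).le⟩

end cplx

end IST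

end
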