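import Pool.Agent.IST.EX
import Pool.Agent.IST.Heat
import Pool.Agent.IST.FieldX

/-!
# IST, T7: the equation in the height of the legs with explicit dependence on the size of the legs

* **`E_XE`** : `PBX.E_X` with legs of size `E ≥ 1` (test function bounds `M0 E`, `M2 E`, mean density `B E`):
  error `δ0 + C E^3 (1 + K + |xp| + |xm|)^2 δ`, `C` independent of `E`.
-/

set_option autoImplicit false

open Complex Set Filter Topology MeasureTheory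

noncomputable section

namespace PBX

open NUMF (l r l_pos r_pos r_lt_one)
open PBV
open PBEI (sg sg' sg'')
open Pool.Agent.PB (rl MeanDat VDat mV CV CmV CsV CssV)

variable {b : ℝ} {y₁ y₂ Y₁ Y₂ θ α Y : ℝ}

/-- one product -/
lemma num_mul {a b c a' b' c' : ℝ} (ha : 0 ≤ a) (hb : 0 ≤ b) (hc : 0 ≤ c) (h1 : a ≤ a') (h2 : b ≤ b') (h3 : c ≤ c') :
    a * b * c ≤ a' * b' * c' :=
  mul_le_mul (mul_le_mul h1 h2 hb (ha.trans h1)) h3 hc (mul_nonneg (ha.trans h1) (hb.trans h2))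

/-- the first term -/
lemma num_one {C1 W K D S B E q M0 v X : ℝ} (hC1 : 0 ≤ C1) (hW : 0 ≤ W) (hK : 0 ≤ K) (hD : 0 ≤ D) (hDS : D ≤ S)
    (hB : 0 ≤ B) (hE : 1 ≤ E) (hq : 0 ≤ q) (hM0 : 0 ≤ M0) (hv : 0 ≤ v) (hX : X = 1 + K + S) :
    (3 + (32 + C1 * (K + S) + B * E) * q) * (1 + M0 * E * v) ^ 2 * (C1 * (K + D) * W) ≤
      (3 + (32 + C1 + B) * q) * (1 + M0 * v) ^ 2 * (C1 * W) * (E ^ 3 * X ^ 2) := by
  have hS : 0 ≤ S := hD.trans hDS
  have hX1 : 1 ≤ X := by rw [hX]; linarith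
  have h1 : 3 + (32 + C1 * (K + S) + B * E) * q ≤ (3 + (32 + C1 + B) * q) * (E * X) := by
    have e1 : 1 ≤ E * X := one_le_mul_of_one_le_of_one_le hE hX1
    have e2 : K + S ≤ E * X := by
      have : 1 * X ≤ E * X := mul_le_mul_of_nonneg_right hE (by linarith)
      rw [one_mul, hX] at this
      rw [hX]
      linarith
    have e3 : E ≤ E * X := le_mul_of_one_le_right (by linarith) hX1
    have e4 : C1 * (K + S) ≤ C1 * (E * X) := mul_le_mul_of_nonneg_left e2 hC1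
    have e5 : B * E ≤ B * (E * X) := mul_le_mul_of_nonneg_left e3 hB
    have e6 : 32 + C1 * (K + S) + B * E ≤ (32 + C1 + B) * (E * X) := by linarith
    have e7 := mul_le_mul_of_nonneg_right e6 hq
    have e8 : (3 + (32 + C1 + B) * q) * (E * X) = 3 * (E * X) + (32 + C1 + B) * (E * X) * q := by ring
    rw [e8]
    linarith
  have h2 : (1 + M0 * E * v) ^ 2 ≤ ((1 + M0 * v) * E) ^ 2 := by
    refine pow_le_pow_left₀ (by positivity) ?_ 2
    have : (1 + M0 * v) * E = E + M0 * E * v := by ring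
    rw [this]
    linarith
  have h3 : C1 * (K + D) * W ≤ C1 * W * X := by
    have : C1 * (K + D) * W ≤ C1 * X * W := by
      have : K + D ≤ X := by rw [hX]; linarith
      gcongr
    linarith
  refine (num_mul (by positivity) (by positivity) (by positivity) h1 h2 h3).trans (le_of_eq ?_)
  ring

/-- the numbers of `E_XE` -/
lemma num_XE {C1 W K D S B E q M0 M2 v X Q J ri : ℝ} (hC1 : 0 ≤ C1) (hW : 0 ≤ W) (hK : 0 ≤ K) (hD : 0 ≤ D)
    (hDS : D ≤ S) (hB : 0 ≤ B) (hE : 1 ≤ E) (hq : 0 ≤ q) (hM0 : 0 ≤ M0) (hM2 : 0 ≤ M2) (hv : 0 ≤ v)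
    (hX : X = 1 + K + S) (hQ : Q ≤ X) (hJ : J ≤ X) (hri : 0 ≤ ri) :
    (3 + (32 + C1 * (K + S) + B * E) * q) * (1 + M0 * E * v) ^ 2 * (C1 * (K + D) * W) +
      (C1 * (K + D) * W + 2 * (K + D * ri) + D / 2) + (K + S) * (M0 * E) * (1 + M0 * E * v) + Q +
      J * (1 + M2 * E) ≤
    ((3 + (32 + C1 + B) * q) * (1 + M0 * v) ^ 2 * (C1 * W) + (C1 * W + 2 * (1 + ri) + 1) +
      M0 * (1 + M0 * v) + 1 + (1 + M2)) * (E ^ 3 * X ^ 2) := by
  have hS : 0 ≤ S := hD.trans hDS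
  have hX1 : 1 ≤ X := by rw [hX]; linarith
  have hE3 : 1 ≤ E ^ 3 := one_le_pow₀ hE
  have hX2 : X ≤ X ^ 2 := by
    rw [pow_two]
    exact le_mul_of_one_le_right (by linarith) hX1
  have hXE : X ≤ E ^ 3 * X ^ 2 := hX2.trans (le_mul_of_one_le_left (by positivity) hE3)
  have t1 := num_one hC1 hW hK hD hDS hB hE hq hM0 hv hX
  have t2 : C1 * (K + D) * W + 2 * (K + D * ri) + D / 2 ≤ (C1 * W + 2 * (1 + ri) + 1) * (E ^ 3 * X ^ 2) := by
    have e1 : C1 * (K + D) * W ≤ C1 * W * X := by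
      have : C1 * (K + D) * W ≤ C1 * X * W := by
        have : K + D ≤ X := by rw [hX]; linarith
        gcongr
      linarith
    have e2 : 2 * (K + D * ri) + D / 2 ≤ (2 * (1 + ri) + 1) * X := by
      have : D * ri ≤ X * ri := by
        have : D ≤ X := by rw [hX]; linarith
        gcongr
      have e3 : (2 * (1 + ri) + 1) * X = 3 * X + 2 * (X * ri) := by ring
      rw [e3]
      linarith
    have e3 : (C1 * W + 2 * (1 + ri) + 1) * X ≤ (C1 * W + 2 * (1 + ri) + 1) * (E ^ 3 * X ^ 2) :=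
      mul_le_mul_of_nonneg_left hXE (by positivity)
    linarith
  have t3 : (K + S) * (M0 * E) * (1 + M0 * E * v) ≤ M0 * (1 + M0 * v) * (E ^ 3 * X ^ 2) := by
    have e1 : 1 + M0 * E * v ≤ (1 + M0 * v) * E := by
      have : (1 + M0 * v) * E = E + M0 * E * v := by ring
      rw [this]
      linarith
    have e2 : K + S ≤ X ^ 2 := by
      have : K + S ≤ X := by rw [hX]; linarith
      linarith
    have e3 := num_mul (by linarith) (by positivity) (by positivity) e2 (le_refl (M0 * E)) e1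
    refine e3.trans ?_
    have e4 : X ^ 2 * (M0 * E) * ((1 + M0 * v) * E) = M0 * (1 + M0 * v) * (E ^ 2 * X ^ 2) := by ring
    rw [e4]
    refine mul_le_mul_of_nonneg_left (mul_le_mul_of_nonneg_right ?_ (by positivity)) (by positivity)
    exact pow_le_pow_right₀ hE (by norm_num)
  have t4 : J * (1 + M2 * E) ≤ (1 + M2) * (E ^ 3 * X ^ 2) := by
    have e1 : 1 + M2 * E ≤ (1 + M2) * E := by
      have : (1 + M2) * E = E + M2 * E := by ring
      rw [this]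
      linarith
    have e2 : E ≤ E ^ 3 := by
      calc E = E ^ 1 := (pow_one E).symm
        _ ≤ E ^ 3 := pow_le_pow_right₀ hE (by norm_num)
    have e3 : J * (1 + M2 * E) ≤ X ^ 2 * ((1 + M2) * E ^ 3) :=
      mul_le_mul (hJ.trans hX2) (e1.trans (mul_le_mul_of_nonneg_left e2 (by positivity))) (by positivity) (by positivity)
    refine e3.trans (le_of_eq ?_)
    ring
  have t5 : Q ≤ 1 * (E ^ 3 * X ^ 2) := by linarith
  linarith

/-- **`(E')` for an arbitrary field, legs of size `E`** (legs at height `τ`: `E = e^{2|τ|}`): explicit dependence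
on `E` -/
theorem E_XE (G : Geo y₁ y₂ Y₁ Y₂ θ α b Y) {θ' : ℝ} (hθ' : 0 < θ') (h1 : y₁ < -(2 * θ')) (h2 : 2 * θ' < y₂)
    {a' : ℝ} (ha : 1 / 2 ≤ a') (ha2 : a' < 2) (haα : a' ≤ α) (M0 M2 B : ℝ) (hM0 : 0 ≤ M0) (hM2 : 0 ≤ M2)
    (hB : 0 ≤ B) : ∃ C : ℝ, 0 < C ∧
    ∀ E : ℝ, 1 ≤ E →
    ∀ (ξ : ℂ → ℂ) (K c : ℝ) (xp xm : ℂ), Measurable ξ → XiA ξ b K c xp xm → 4 ≤ c →
    ∀ (h0 g2 : ℂ → ℂ), PBE.TC y₁ y₂ a' (M0 * E) h0 → PBE.TC y₁ y₂ a' (M2 * E) g2 →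
      (∀ t : ℝ, HasDerivAt (rl h0) (g2 t) t) →
    ∀ (mf mf' D : ℝ → ℂ) (mp mm : ℂ), MeanDat mf mf' D (rl h0) (B * E) mp mm →
    ∀ (f fη fτ fττ : ℂ) (G1 : (ℂ → ℂ) → ℂ) (G2 H2 : (ℂ → ℂ) → (ℂ → ℂ) → ℂ) (Hs : (ℂ → ℂ) → ℂ) (Hss : ℂ)
      (δ δ0 : ℝ), 0 ≤ δ →
      PBE.Lev2 y₁ y₂ a' f G1 G2 (mV mf) CV δ →
      PBE.Lev2m y₁ y₂ a' f H2 Hs Hss CmV (CsV sg') (CssV sg') δ →
      PBE.Lin1 y₁ y₂ a' G1 → PBE.Lin2 y₁ y₂ a' G2 →
      Integrable (fun s => G2 (AE (Ep ξ xp xm) Y₁ Y₂ s) (BE α Y₁ Y₂ s)) wm →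
      Integrable (fun s => H2 (AE (Em ξ xp xm) Y₁ Y₂ s) (BE α Y₁ Y₂ s)) wm →
      ‖fη - ((∫ s, G2 (AE (Ep ξ xp xm) Y₁ Y₂ s) (BE α Y₁ Y₂ s) ∂wm) +
        ((∫ s, H2 (AE (Em ξ xp xm) Y₁ Y₂ s) (BE α Y₁ Y₂ s) ∂wm) + 2 * Hs (beC ξ xp xm) -
          (xp - xm) / 2 * Hss) + G1 (fun z => ξ z * h0 z))‖ ≤ δ0 →
      ‖G1 h0 + fτ‖ ≤ δ → ‖G2 h0 h0 + G1 g2 - fττ‖ ≤ δ →
      ‖fη - (-((xp - xm) / 8) * fττ - (xp + xm) / 2 * fτ)‖ ≤
        δ0 + C * E ^ 3 * (1 + K + ‖xp‖ + ‖xm‖) ^ 2 * δ := by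
  have hl := l_pos
  have hr := r_pos
  have ha0 : 0 < a' := by linarith
  obtain ⟨C1, hC1, h⟩ := vdat_X G hθ' h1 h2 (a := (a' + 2) / 2) ha (by linarith) (by linarith) haα
  have hcE : 0 < cE α θ := by
    have hz := G.θ0
    have hY := G.αY
    have hα := G.α0
    refine cE_pos hα hz ?_
    have : Y₁ + θ ≤ Y₂ := by linarith [G.l1, G.l2]
    nlinarith
  set n := 2 * (3 * l) with hn
  have hn0 : 0 < n := by positivity
  set F := 1 + 2 * M0 / (a' * n) with hF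
  have hF0 : 0 < F := by positivity
  set W := 4 / ((a' + 2) / 2 - a') with hW
  have hW0 : 0 < W := by
    have : 0 < (a' + 2) / 2 - a' := by linarith
    positivity
  set E1 := C1 * cE α θ * W with hE1
  have hE10 : 0 < E1 := by positivity
  -- bounds in terms of `X = 1 + K + |xp| + |xm|`
  refine ⟨(3 + (32 + C1 + B) * (2 / a')) * F ^ 2 * E1 + (E1 + 2 * (1 + 1 / r) + 1) + M0 * F + 1 + (1 + M2),
    by positivity, fun E hE ξ K c xp xm mX H hc h0 g2 t0 t2 dg mf mf' D mp mm hm f fη fτ fττ G1 G2 H2 Hs Hss δ δ0 hδ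
      hL hL' hG1 hG2 iG iH hI k1 k2 => ?_⟩
  have hK := H.K0
  have hP := norm_nonneg xp
  have hM := norm_nonneg xm
  have hn := norm_sub_le xp xm
  set X := 1 + K + ‖xp‖ + ‖xm‖ with hX
  have hX1 : 1 ≤ X := by linarith
  have hX2 : X ≤ X ^ 2 := by nlinarith
  obtain ⟨d, hint⟩ := h ξ K c xp xm mX H hc h0 g2 (M0 * E) (M2 * E) t0 t2 dg mf mf' D (B * E) mp mm hm
    (32 + C1 * (K + ‖xp‖ + ‖xm‖) + B * E) le_rfl (mul_nonneg hB (by linarith))
  have key := d.E_prime hδ hL hL' hG1 hG2 iG iH hI k1 k2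
  refine key.trans ?_
  have hmass : ‖PBE.mass h0‖ = n := by
    rw [d.mass_h0, norm_mul, norm_mul, norm_I, norm_real, Real.norm_of_nonneg (by positivity)]
    have : ‖(2 : ℂ)‖ = 2 := by simp
    rw [this]; ring
  rw [hmass, hint]
  have hD : 0 ≤ ‖xp - xm‖ := norm_nonneg _
  have b4 : ‖(xp + xm) / 2‖ ≤ X := by
    rw [norm_div]
    have h3 := norm_add_le xp xm
    have : ‖(2 : ℂ)‖ = 2 := by simp
    rw [this]; linarith
  have b5 : ‖-((xp - xm) / 8)‖ ≤ X := by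
    rw [norm_neg, norm_div]
    have : ‖(8 : ℂ)‖ = 8 := by simp
    rw [this]; linarith
  have hC10 : 0 ≤ C1 := by linarith
  have hWc : 0 ≤ cE α θ * W := (mul_pos hcE hW0).le
  have hq : 0 ≤ 2 / a' := by positivity
  have hv : 0 ≤ 2 / (a' * n) := by positivity
  have hri : 0 ≤ 1 / r := by positivity
  have key2 := num_XE (E := E) (q := 2 / a') (v := 2 / (a' * n)) (M2 := M2) (ri := 1 / r) hC10 hWc hK hD hn hB hE hq
    hM0 hM2 hv (show X = 1 + K + (‖xp‖ + ‖xm‖) by rw [hX]; ring) b4 b5 hri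
  have key3 := mul_le_mul_of_nonneg_right key2 hδ
  refine (add_le_add_right (le_trans (le_of_eq ?_) key3) _).trans (le_of_eq ?_)
  · ring
  · rw [hE1, hF]
    ring

end PBX

end
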