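import Pool.Agent.IST.ValX
import Pool.Agent.PB.EMain

/-!
# ISO, T7: the equation in the height of the legs from the data of level two, any field (helper68)

**`EX_of`**: `PBEM.LevD` at one point of the path (rows, legs), the first Ward identity `hI` and the leg
derivatives give `|f' - (-(J/8) f_ττ - (xp + xm)/2 f_τ)| ≤ δ0 + C (1 + K + |xp| + |xm|)^2 (2 Kc th + δp + δ1)`;
`C` depends on the geometry, the rate and the legs only.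
-/

set_option autoImplicit false

open Complex Set Filter Topology MeasureTheory

noncomputable section

namespace PBX

open NUMF (l r l_pos r_pos r_lt_one)
open PBV PBFunc
open PBEI (sg sg' sg'')
open Pool.Agent.PB (rl MeanDat mV CV CmV CsV CssV)

variable {b : ℝ} {y₁ y₂ Y₁ Y₂ θ α Y : ℝ}

/-- **`(E')` from the data of level two, any field** -/
theorem EX_of (G : Geo y₁ y₂ Y₁ Y₂ θ α b Y) {θ' : ℝ} (hθ' : 0 < θ') (h1 : y₁ < -(2 * θ')) (h2 : 2 * θ' < y₂)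
    {a' : ℝ} (ha : 1 / 2 ≤ a') (ha2 : a' < 2) (haα : a' ≤ α) (M0 M2 B : ℝ) (hM0 : 0 ≤ M0) (hM2 : 0 ≤ M2)
    (hB : 0 ≤ B) : ∃ C : ℝ, 0 < C ∧
    ∀ (ξ : ℂ → ℂ) (K c : ℝ) (xp xm : ℂ), Measurable ξ → XiA ξ b K c xp xm → 4 ≤ c →
    ∀ (h0 g2 : ℂ → ℂ), PBE.TC y₁ y₂ a' M0 h0 → PBE.TC y₁ y₂ a' M2 g2 →
      (∀ t : ℝ, HasDerivAt (rl h0) (g2 t) t) →
    ∀ (mf mf' D : ℝ → ℂ) (mp mm : ℂ), MeanDat mf mf' D (rl h0) B mp mm →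
    ∀ (Ω : Type) [MeasurableSpace Ω] (μ : Measure Ω) [SFinite μ] (w : Ω → ℂ) (V Vm : (ℂ → ℂ) → Ω → ℂ)
      (S : Ω → ℂ) (Kc th δp δ0 δ1 : ℝ),
      PBEM.LevD y₁ y₂ a' μ w V Vm S Kc th δp mf sg' wm (AE (Ep ξ xp xm) Y₁ Y₂) (AE (Em ξ xp xm) Y₁ Y₂)
        (BE α Y₁ Y₂) →
    ∀ (fη fτ fττ : ℂ), 0 ≤ δ1 →
      ‖fη - ((∫ q, F μ w (fun ω => V (AE (Ep ξ xp xm) Y₁ Y₂ q) ω * V (BE α Y₁ Y₂ q) ω) ∂wm) +
        ((∫ q, F μ w (fun ω => Vm (AE (Em ξ xp xm) Y₁ Y₂ q) ω * Vm (BE α Y₁ Y₂ q) ω) ∂wm) +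
          2 * F μ w (fun ω => Vm (beC ξ xp xm) ω * S ω) - (xp - xm) / 2 * F μ w (fun ω => S ω * S ω)) +
        F μ w (V fun z => ξ z * h0 z))‖ ≤ δ0 →
      ‖F μ w (V h0) + fτ‖ ≤ δ1 → ‖F μ w (fun ω => V h0 ω * V h0 ω) + F μ w (V g2) - fττ‖ ≤ δ1 →
      ‖fη - (-((xp - xm) / 8) * fττ - (xp + xm) / 2 * fτ)‖ ≤
        δ0 + C * (1 + K + ‖xp‖ + ‖xm‖) ^ 2 * (2 * Kc * th + δp + δ1) := by
  obtain ⟨C, hC, hE⟩ := E_X G hθ' h1 h2 ha ha2 haα M0 M2 B hM0 hM2 hB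
  obtain ⟨C1, -, hV⟩ := vdat_X G hθ' h1 h2 (a := (a' + 2) / 2) ha (by linarith) (by linarith) haα
  refine ⟨C, hC, fun ξ K c xp xm mX H hc h0 g2 t0 t2 dg mf mf' D mp mm hm Ω _ μ _ w V Vm S Kc th δp δ0 δ1 L fη fτ fττ
    hδ1 hI k1 k2 => ?_⟩
  obtain ⟨dv, -⟩ := hV ξ K c xp xm mX H hc h0 g2 M0 M2 t0 t2 dg mf mf' D B mp mm hm
    (32 + C1 * (K + ‖xp‖ + ‖xm‖) + B) le_rfl hB
  have hy1 : y₁ < 0 := by linarith
  have hy2 : 0 < y₂ := by linarith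
  have hKt : 0 ≤ 2 * Kc * th := by
    have := L.K0
    have := L.th0
    positivity
  have hδ : 2 * Kc * th + δp ≤ 2 * Kc * th + δp + δ1 := by linarith
  have hδ1' : δ1 ≤ 2 * Kc * th + δp + δ1 := by linarith [L.dp0]
  have hδ0 : 0 ≤ 2 * Kc * th + δp + δ1 := by linarith
  exact hE ξ K c xp xm mX H hc h0 g2 t0 t2 dg mf mf' D mp mm hm (F μ w (fun _ => 1)) fη fτ fττ
    (fun g => F μ w (V g)) (fun g k => F μ w (fun ω => V g ω * V k ω))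
    (fun g k => F μ w (fun ω => Vm g ω * Vm k ω)) (fun g => F μ w (fun ω => Vm g ω * S ω))
    (F μ w (fun ω => S ω * S ω)) (2 * Kc * th + δp + δ1) δ0 hδ0
    (PBE.Lev2.mono (L.lev2 hy1 hy2) hy1 hy2 hδ) (PBE.Lev2m.mono (L.lev2m hy1 hy2) hy1 hy2 hδ)
    (L.lin1 hy1 hy2) (L.lin2 hy1 hy2) (L.iG hy1 hy2 dv.hR) (L.iH hy1 hy2 dv.hR') hI
    (k1.trans hδ1') (k2.trans hδ1')

end PBX

end
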