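import Pool.Agent.IST.Src

/-!
# The energy of the data with a source

* `lgp_sym`: symmetry of `∫ f (log g * f')`;
* **`En_addS`**: `En` of the data with a source `=` `En` of the data `+` energy of the source `+` linear
  term `+` cross terms;
* `lgp_dec`: `|lgp τ t - lgp τ h| ≤ 27 s exp (-2 |h|) exp (2 |t - h|)` for a neutral `τ`;
* **`cross_le`**: the cross terms: the charges of the objects see the potential `lgp τ`, everything
  else is at most `K s (1 + ∑ exp (-3/2 |ht i|))`.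
-/

set_option autoImplicit false
set_option linter.unusedSectionVars false

noncomputable section

open MeasureTheory Finset
open scoped ENNReal

namespace NUSea.H0

open NUMF NUO NUStabP NUDispW NUEnW
open NUR2 (Cfg)
open NUH0 (plt plt_nonneg qc)

/-! ### symmetry -/

/-- integrable with first moment -/
structure Wt (f : ℝ → ℝ) : Prop where
  i : Integrable f
  x : Integrable fun t => f t * t

lemma DnS.wt {s : ℝ} {f : ℝ → ℝ} (h : DnS s f) : Wt f := ⟨h.int, h.mul_id⟩

lemma Wt.w {f : ℝ → ℝ} (h : Wt f) : Integrable fun t => (1 + |t|) * f t := by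
  have h1 : Integrable fun t => |t| * f t := by
    have h2 : AEStronglyMeasurable (fun t : ℝ => |t| * f t) :=
      (continuous_abs.aestronglyMeasurable).mul h.i.aestronglyMeasurable
    refine h.x.norm.mono' h2 (ae_of_all _ fun t => ?_)
    rw [norm_mul, norm_mul, Real.norm_eq_abs |t|, abs_abs, Real.norm_eq_abs t, mul_comm]
  refine (h.i.add h1).congr (ae_of_all _ fun t => ?_)
  simp only [Pi.add_apply]
  ring

/-- joint integrability -/
lemma joint_logg {f f' : ℝ → ℝ} (h : Wt f) (h' : Wt f') :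
    Integrable (fun z : ℝ × ℝ => f z.1 * (f' z.2 * Real.log (g (z.1 - z.2))))
      ((volume : Measure ℝ).prod volume) := by
  have h1 := Pool.Agent.NUM3.joint_lg (τ₁ := fun t => f (-t)) (τ₂ := f') h.i.comp_neg h'.i
    (by
      have := h.w.comp_neg
      simp only [abs_neg] at this
      exact this) h'.w 0 0
  have h2 : Integrable (fun z : ℝ × ℝ => f z.1 * f' z.2) ((volume : Measure ℝ).prod volume) :=
    h.i.mul_prod h'.i
  refine ((h2.mul_const (Real.log (g 0))).sub h1).congr (ae_of_all _ fun z => ?_)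
  simp only [Pi.sub_apply, sub_zero, zero_sub, neg_neg]
  unfold NUE.lgm
  ring

lemma lgp_out {f f' : ℝ → ℝ} (h : Wt f) (h' : Wt f') : Integrable fun t => f t * NUC43.lgp f' t := by
  have h1 := (joint_logg h h').integral_prod_left
  simp only [integral_const_mul] at h1
  exact h1

lemma int4 {f1 f2 f3 f4 : ℝ → ℝ} (h1 : Integrable f1) (h2 : Integrable f2) (h3 : Integrable f3)
    (h4 : Integrable f4) : ∫ t, (f1 t + f2 t + (f3 t + f4 t)) =
      (∫ t, f1 t) + (∫ t, f2 t) + ((∫ t, f3 t) + ∫ t, f4 t) := by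
  have e : (fun t => f1 t + f2 t + (f3 t + f4 t)) = (f1 + f2) + (f3 + f4) := rfl
  rw [e, integral_add' (h1.add h2) (h3.add h4), integral_add' h1 h2, integral_add' h3 h4]

lemma int3 {f1 f2 f3 : ℝ → ℝ} (h1 : Integrable f1) (h2 : Integrable f2) (h3 : Integrable f3) :
    ∫ t, (f1 t + f2 t + f3 t) = (∫ t, f1 t) + (∫ t, f2 t) + ∫ t, f3 t := by
  have e : (fun t => f1 t + f2 t + f3 t) = (f1 + f2) + f3 := rfl
  rw [e, integral_add' (h1.add h2) h3, integral_add' h1 h2]

/-- symmetry of the energy of the splitting -/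
theorem lgp_sym {f f' : ℝ → ℝ} (h : Wt f) (h' : Wt f') :
    ∫ t, f t * NUC43.lgp f' t = ∫ t, f' t * NUC43.lgp f t := by
  have h1 := integral_integral_swap (f := fun t u => f t * (f' u * Real.log (g (t - u))))
    (joint_logg h h')
  have e1 : ∫ t, f t * NUC43.lgp f' t = ∫ t, ∫ u, f t * (f' u * Real.log (g (t - u))) := by
    refine integral_congr_ae (ae_of_all _ fun t => ?_)
    simp only
    rw [integral_const_mul]
    rfl
  rw [e1, h1]
  refine integral_congr_ae (ae_of_all _ fun u => ?_)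
  simp only
  unfold NUC43.lgp
  rw [← integral_const_mul]
  refine integral_congr_ae (ae_of_all _ fun t => ?_)
  simp only
  rw [show t - u = -(u - t) by ring, NUE.g_even]
  ring

lemma lgp_add {f f' : ℝ → ℝ} (h : Wt f) (h' : Wt f') (t : ℝ) :
    NUC43.lgp (fun u => f u + f' u) t = NUC43.lgp f t + NUC43.lgp f' t := by
  have hi : ∀ {f : ℝ → ℝ}, Wt f → Integrable fun u => f u * Real.log (g (t - u)) := by
    intro f h
    have h1 := (h.i.mul_const (Real.log (g 0)))
    have h2 : Integrable fun u => f u * NUE.lgm (t - u) := by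
      have hl := NUE.lgm_cont
      refine ((h.w.abs).const_mul (2 * (1 + |t|))).mono'
        (h.i.aestronglyMeasurable.mul (Continuous.aestronglyMeasurable (by fun_prop)))
        (ae_of_all _ fun u => ?_)
      rw [Real.norm_eq_abs, abs_mul, abs_mul, abs_of_nonneg (by positivity : 0 ≤ 1 + |u|)]
      have h1 := NUC43.lgm_abs (t - u)
      have h2 : |t - u| ≤ |t| + |u| := abs_sub t u
      have a := abs_nonneg t
      have b := abs_nonneg u
      have c := abs_nonneg (f u)
      have h3 : |NUE.lgm (t - u)| ≤ 2 * (1 + |t|) * (1 + |u|) := by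
        nlinarith only [h1, h2, mul_nonneg a b]
      calc |f u| * |NUE.lgm (t - u)| ≤ |f u| * (2 * (1 + |t|) * (1 + |u|)) := by gcongr
        _ = _ := by ring
    refine (h1.sub h2).congr (ae_of_all _ fun u => ?_)
    simp only [Pi.sub_apply]
    unfold NUE.lgm
    ring
  unfold NUC43.lgp
  rw [← integral_add (hi h) (hi h')]
  refine integral_congr_ae (ae_of_all _ fun u => ?_)
  simp only
  ring

/-! ### the potential of a neutral density far away -/

/-- `log g t + 2 t` -/
def Lg (t : ℝ) : ℝ := Real.log (g t) + 2 * t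

lemma Kg_two (x : ℝ) : |Pool.Agent.PB.Kg x + 2| ≤ 24 * Real.exp (-(2 * x)) := by
  rcases le_or_gt 0 x with hx | hx
  · have hr0 : 0 < r := r_pos
    have hr1 : r ≤ 1 := by
      rw [r_eq]
      exact Real.cos_le_one _
    have key : ∀ c : ℝ, 0 < c → c ≤ 1 →
        |Real.sinh (2 * x) / (Real.cosh (2 * x) + c) - 1| ≤ 4 * Real.exp (-(2 * x)) := by
      intro c hc hc1
      have h1 := Real.one_le_cosh (2 * x)
      have h2 : Real.cosh (2 * x) - Real.sinh (2 * x) = Real.exp (-(2 * x)) :=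
        Real.cosh_sub_sinh (2 * x)
      have h3 : Real.exp (2 * x) ≤ 2 * Real.cosh (2 * x) := by
        rw [Real.cosh_eq]
        have := Real.exp_pos (-(2 * x))
        linarith
      have h4 : Real.exp (-(2 * x)) * Real.exp (2 * x) = 1 := by
        rw [← Real.exp_add]
        simp
      have h5 := Real.exp_pos (-(2 * x))
      have h6 : 0 < Real.cosh (2 * x) + c := by linarith
      have e1 : Real.sinh (2 * x) / (Real.cosh (2 * x) + c) - 1 =
          -((Real.exp (-(2 * x)) + c) / (Real.cosh (2 * x) + c)) := by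
        rw [← h2]
        field_simp
        ring
      rw [e1, abs_neg, abs_of_nonneg (by positivity), div_le_iff₀ h6]
      have h7 : Real.exp (-(2 * x)) ≤ 1 := Real.exp_le_one_iff.2 (by linarith)
      have h8 : 1 ≤ Real.exp (-(2 * x)) * (2 * Real.cosh (2 * x)) := by
        rw [← h4]
        gcongr
      nlinarith only [h1, h5, h7, h8, hc, hc1]
    have k1 := key 1 one_pos le_rfl
    have k2 := key r hr0 hr1
    have e1 : Pool.Agent.PB.Kg x + 2 = 2 * (Real.sinh (2 * x) / (Real.cosh (2 * x) + 1) - 1) -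
        4 * (Real.sinh (2 * x) / (Real.cosh (2 * x) + r) - 1) := by
      unfold Pool.Agent.PB.Kg
      ring
    rw [e1, abs_le]
    rw [abs_le] at k1 k2
    constructor <;> linarith [k1.1, k1.2, k2.1, k2.2]
  · have h1 := PB.abs_Kg_le x
    have h2 : 1 ≤ Real.exp (-(2 * x)) := Real.one_le_exp (by linarith)
    have h3 := abs_add_le (Pool.Agent.PB.Kg x) 2
    rw [abs_two] at h3
    linarith

/-- `Lg` is almost constant to the right -/
theorem Lg_le {x y : ℝ} (h : y ≤ x) : |Lg x - Lg y| ≤ 12 * Real.exp (-(2 * y)) := by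
  have hd : ∀ t, HasDerivAt Lg (Pool.Agent.PB.Kg t + 2) t := fun t => by
    have h1 := (Pool.Agent.PB.hasDerivAt_log_g t).add ((hasDerivAt_id t).const_mul 2)
    rw [mul_one] at h1
    exact h1
  have he : ∀ t, HasDerivAt (fun t : ℝ => 12 * Real.exp (-(2 * t)))
      (-(24 * Real.exp (-(2 * t)))) t := fun t => by
    have h1 := ((((hasDerivAt_id t).const_mul 2).neg).exp).const_mul 12
    have h2 : HasDerivAt (fun t : ℝ => 12 * Real.exp (-(2 * t)))
        (12 * (Real.exp (-(2 * t)) * -(2 * 1))) t := h1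
    exact h2.congr_deriv (by ring)
  have m1 : Monotone fun t => Lg t - 12 * Real.exp (-(2 * t)) :=
    monotone_of_hasDerivAt_nonneg (fun t => (hd t).sub (he t)) fun t => by
      have := abs_le.1 (Kg_two t)
      show 0 ≤ Pool.Agent.PB.Kg t + 2 - -(24 * Real.exp (-(2 * t)))
      linarith [this.1]
  have m2 : Monotone fun t => -Lg t - 12 * Real.exp (-(2 * t)) :=
    monotone_of_hasDerivAt_nonneg (fun t => ((hd t).neg).sub (he t)) fun t => by
      have := abs_le.1 (Kg_two t)
      show 0 ≤ -(Pool.Agent.PB.Kg t + 2) - -(24 * Real.exp (-(2 * t)))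
      linarith [this.2]
  have h1 := m1 h
  have h2 := m2 h
  simp only at h1 h2
  have h3 := Real.exp_pos (-(2 * x))
  rw [abs_le]
  constructor <;> linarith

lemma exp_two_int : Integrable (fun u : ℝ => Real.exp (-(5 / 2 * |u|)) * Real.exp (2 * u)) ∧
    ∫ u : ℝ, Real.exp (-(5 / 2 * |u|)) * Real.exp (2 * u) ≤ 4 := by
  have h1 := NUDispW.int_exp_abs (by norm_num : (0 : ℝ) < 1 / 2) 0
  simp only [sub_zero] at h1
  have hp : ∀ u : ℝ, Real.exp (-(5 / 2 * |u|)) * Real.exp (2 * u) ≤ Real.exp (-(1 / 2 * |u|)) := by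
    intro u
    rw [← Real.exp_add]
    refine Real.exp_le_exp.2 ?_
    have := le_abs_self u
    linarith
  have hi : Integrable fun u : ℝ => Real.exp (-(5 / 2 * |u|)) * Real.exp (2 * u) :=
    h1.1.mono' (Continuous.aestronglyMeasurable (by fun_prop)) (ae_of_all _ fun u => by
      rw [Real.norm_eq_abs, abs_of_nonneg (by positivity)]
      exact hp u)
  exact ⟨hi, (integral_mono hi h1.1 hp).trans (by rw [h1.2]; norm_num)⟩

/-- one side -/
theorem lgp_dec1 {s : ℝ} {f : ℝ → ℝ} (hf : DnS s f) (h0 : ∫ t, f t = 0) {t h : ℝ} (hth : h ≤ t) :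
    |NUC43.lgp f t - NUC43.lgp f h| ≤ 48 * s * Real.exp (-(2 * h)) := by
  have e : NUC43.lgp f t - NUC43.lgp f h = ∫ u, f u * (Lg (t - u) - Lg (h - u)) := by
    unfold NUC43.lgp
    rw [← integral_sub (hf.lg_in t) (hf.lg_in h)]
    have e1 : ∀ u, f u * (Lg (t - u) - Lg (h - u)) =
        (f u * Real.log (g (t - u)) - f u * Real.log (g (h - u))) + (2 * (t - h)) * f u := by
      intro u
      unfold Lg
      ring
    simp_rw [e1]
    have h1 := integral_add (f := fun u => f u * Real.log (g (t - u)) - f u * Real.log (g (h - u)))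
      (g := fun u => (2 * (t - h)) * f u) ((hf.lg_in t).sub (hf.lg_in h)) (hf.int.const_mul _)
    rw [h1, integral_const_mul, h0]
    ring
  obtain ⟨i1, i2⟩ := exp_two_int
  have hp : ∀ u, |f u * (Lg (t - u) - Lg (h - u))| ≤
      (12 * s * Real.exp (-(2 * h))) * (Real.exp (-(5 / 2 * |u|)) * Real.exp (2 * u)) := by
    intro u
    rw [abs_mul]
    have h1 := Lg_le (x := t - u) (y := h - u) (by linarith)
    have h2 : Real.exp (-(2 * (h - u))) = Real.exp (-(2 * h)) * Real.exp (2 * u) := by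
      rw [← Real.exp_add]
      congr 1
      ring
    rw [h2] at h1
    calc |f u| * |Lg (t - u) - Lg (h - u)| ≤ (s * Real.exp (-(5 / 2 * |u|))) *
          (12 * (Real.exp (-(2 * h)) * Real.exp (2 * u))) :=
          mul_le_mul (hf.b u) h1 (abs_nonneg _) (mul_nonneg hf.s0 (Real.exp_pos _).le)
      _ = _ := by ring
  rw [e]
  have h3 : |∫ u, f u * (Lg (t - u) - Lg (h - u))| ≤
      ∫ u, (12 * s * Real.exp (-(2 * h))) * (Real.exp (-(5 / 2 * |u|)) * Real.exp (2 * u)) := by
    rw [← Real.norm_eq_abs]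
    exact norm_integral_le_of_norm_le (i1.const_mul _) (ae_of_all _ fun u => by
      rw [Real.norm_eq_abs]
      exact hp u)
  refine h3.trans ?_
  rw [integral_const_mul]
  have h4 : 0 ≤ 12 * s * Real.exp (-(2 * h)) := by
    have := hf.s0
    positivity
  have h5 := mul_le_mul_of_nonneg_left i2 h4
  linarith

lemma lgp_neg (f : ℝ → ℝ) (t : ℝ) : NUC43.lgp (fun u => f (-u)) t = NUC43.lgp f (-t) := by
  unfold NUC43.lgp
  rw [← integral_neg_eq_self]
  refine integral_congr_ae (ae_of_all _ fun u => ?_)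
  simp only [neg_neg]
  rw [show t - -u = -(-t - u) by ring, NUE.g_even]

lemma DnS.neg {s : ℝ} {f : ℝ → ℝ} (hf : DnS s f) : DnS s fun u => f (-u) :=
  ⟨hf.s0, hf.c.comp continuous_neg, fun t => (hf.b (-t)).trans_eq (by rw [abs_neg])⟩

/-- **the potential of a neutral density is almost constant on each side** -/
theorem lgp_dec {s : ℝ} {f : ℝ → ℝ} (hf : DnS s f) (h0 : ∫ t, f t = 0) (t h : ℝ) :
    |NUC43.lgp f t - NUC43.lgp f h| ≤ 48 * s * (Real.exp (-(2 * |h|)) * Real.exp (2 * |t - h|)) := by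
  have hs := hf.s0
  have key : ∀ {f : ℝ → ℝ}, DnS s f → ∫ t, f t = 0 → ∀ t h : ℝ, 0 ≤ h →
      |NUC43.lgp f t - NUC43.lgp f h| ≤
        48 * s * (Real.exp (-(2 * |h|)) * Real.exp (2 * |t - h|)) := by
    intro f hf h0 t h hh
    rcases le_total h t with hth | hth
    · refine (lgp_dec1 hf h0 hth).trans ?_
      rw [abs_of_nonneg hh]
      have h1 : 1 ≤ Real.exp (2 * |t - h|) := Real.one_le_exp (by positivity)
      have h2 : 0 ≤ 48 * s * Real.exp (-(2 * h)) := by positivity
      have h3 := mul_le_mul_of_nonneg_left h1 h2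
      linarith
    · rw [abs_sub_comm]
      refine (lgp_dec1 hf h0 hth).trans ?_
      rw [abs_of_nonneg hh, abs_of_nonpos (by linarith : t - h ≤ 0), ← Real.exp_add]
      refine mul_le_mul_of_nonneg_left (Real.exp_le_exp.2 (by linarith)) (by positivity)
  rcases le_total 0 h with hh | hh
  · exact key hf h0 t h hh
  · have h1 := key hf.neg (by rw [integral_neg_eq_self (fun u => f u), h0]) (-t) (-h) (by linarith)
    rw [lgp_neg, lgp_neg, neg_neg, neg_neg, abs_neg, show -t - -h = -(t - h) by ring, abs_neg] at h1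
    exact h1

/-! ### the energy -/

/-- **the energy of a source** -/
def srcEn (ν : Bool → ℝ → ℝ) (τ : ℝ → ℝ) : ℝ :=
  1 / 2 * (∫ t, τ t * NUC43.lgp τ t) + ∑ a, 1 / 2 * (∫ t, ν a t * ∫ u, ν a u * V (t - u))

variable [Sea]

/-- **the cross terms** -/
def crS (X : Dat) (ν : Bool → ℝ → ℝ) (τ : ℝ → ℝ) (ψ : Bool → ℝ → ℝ) : ℝ :=
  (∫ t, X.τ t * NUC43.lgp τ t) + ∑ a, ((∫ t, X.μ a t * ∫ u, ν a u * V (t - u)) +
    (∫ t, ν a t * X.φ a t) + ∫ t, (X.μ a t + ν a t) * ψ a t)

section

variable {I : Inp} {P : Par} {r : ℕ} {O : Fin r → Xo} {dl ε M b : ℝ} {e : ℝ → ℝ}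
  {s s' E : ℝ} {ν : Bool → ℝ → ℝ} {τ : ℝ → ℝ} {ψ : Bool → ℝ → ℝ}

/-- **the energy of the data with a source** -/
theorem En_addS (h : IOk dl ε M b e I P r) {p n : ℕ} (hf : Fld (datO I P O) p n)
    (hs : SrcOk s ν τ) (hψ : RemOk s' E ψ) :
    (datO (addS I ν τ ψ) P O).En = (datO I P O).En + srcEn ν τ +
      (∑ a, ∫ t, (datO I P O).ρ t * (srcP ν τ a t + ψ a t)) + crS (datO I P O) ν τ ψ := by
  obtain ⟨X, hX⟩ : ∃ X, X = datO I P O := ⟨_, rfl⟩
  obtain ⟨Y, hY⟩ : ∃ Y, Y = datO (addS I ν τ ψ) P O := ⟨_, rfl⟩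
  rw [← hX, ← hY]
  have hR : Reg X := hX ▸ h.reg'
  have hf' : Fld X p n := hX ▸ hf
  have hwX : Wt X.τ := ⟨hf'.τi, hf'.τ1⟩
  have hwτ := hs.dτ.wt
  have e0 : Y.gas.S = X.gas.S := by rw [hY, hX]; rfl
  have eρ : Y.ρ = X.ρ := by rw [hY, hX]; rfl
  have eτ : Y.τ = fun t => X.τ t + τ t := by
    funext t
    rw [hY, hX]
    show NUC43.tauC P.jL P.e O t + (I.τD t + τ t) = NUC43.tauC P.jL P.e O t + I.τD t + τ t
    ring
  have eG : ∀ t, Y.Gt t = X.Gt t + NUC43.lgp τ t := by
    intro t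
    have h1 := lgp_add hwX hwτ t
    show NUC43.lgp Y.τ t = NUC43.lgp X.τ t + NUC43.lgp τ t
    rw [eτ]
    exact h1
  have eμ : ∀ a, Y.μ a = fun t => X.μ a t + ν a t := by
    intro a
    funext t
    rw [hY, hX]
    show NUC43.muC P.jL P.e O a t + (I.ν a t + ν a t) = NUC43.muC P.jL P.e O a t + I.ν a t + ν a t
    ring
  have eV : ∀ a t, Y.Vm a t = X.Vm a t + ∫ u, ν a u * V (t - u) := by
    intro a t
    obtain ⟨C, hC⟩ := hR.μb a
    have i1 : Integrable fun u => X.μ a u * V (t - u) := by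
      have h1 : Integrable fun u => V (t - u) := V_integral.1.comp_sub_left t
      exact (h1.mul_bdd (c := C) (hR.μc a).aestronglyMeasurable (ae_of_all _ hC)).congr
        (ae_of_all _ fun u => mul_comm _ _)
    unfold Dat.Vm
    rw [← integral_add i1 ((hs.dν a).V_in t), eμ]
    exact integral_congr_ae (ae_of_all _ fun u => by ring)
  have eE : ∀ a t, Y.E a t = X.E a t + (srcP ν τ a t + ψ a t) := by
    intro a t
    rw [hY, hX]
    show NUH0.slO O a t + (I.B a t + (srcP ν τ a t + ψ a t)) = NUH0.slO O a t + I.B a t + _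
    ring
  have eφ : ∀ a t, Y.φ a t = X.φ a t + ψ a t := by
    intro a t
    rw [hY, hX]
    show phiO (addS I ν τ ψ) P O a t = phiO I P O a t + ψ a t
    unfold phiO
    rw [wO_addS h hs, ← add_assoc]
    rfl
  -- the splitting
  have p1 : ∫ t, Y.τ t * Y.Gt t = (∫ t, X.τ t * X.Gt t) + (∫ t, τ t * NUC43.lgp τ t) +
      2 * ∫ t, X.τ t * NUC43.lgp τ t := by
    have i1 : Integrable fun t => X.τ t * X.Gt t := lgp_out hwX hwX
    have i2 := lgp_out hwX hwτ
    have i3 : Integrable fun t => τ t * X.Gt t := lgp_out hwτ hwX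
    have i4 := lgp_out hwτ hwτ
    have s1 : ∫ t, τ t * X.Gt t = ∫ t, X.τ t * NUC43.lgp τ t := lgp_sym hwτ hwX
    have e1 : ∀ t, Y.τ t * Y.Gt t = (X.τ t * X.Gt t + τ t * NUC43.lgp τ t) +
        (X.τ t * NUC43.lgp τ t + τ t * X.Gt t) := by
      intro t
      rw [eτ, eG]
      ring
    simp_rw [e1]
    rw [int4 i1 i4 i2 i3, s1]
    ring
  -- the densities
  have p2 : ∀ a, 1 / 2 * (∫ t, Y.μ a t * Y.Vm a t) + (∫ t, Y.ρ t * Y.E a t) +
      (∫ t, Y.μ a t * Y.φ a t) = (1 / 2 * (∫ t, X.μ a t * X.Vm a t) + (∫ t, X.ρ t * X.E a t) +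
      ∫ t, X.μ a t * X.φ a t) + 1 / 2 * (∫ t, ν a t * ∫ u, ν a u * V (t - u)) +
      (∫ t, X.ρ t * (srcP ν τ a t + ψ a t)) + ((∫ t, X.μ a t * ∫ u, ν a u * V (t - u)) +
      (∫ t, ν a t * X.φ a t) + ∫ t, (X.μ a t + ν a t) * ψ a t) := by
    intro a
    obtain ⟨Cμ, hCμ⟩ := hR.μb a
    obtain ⟨Cφ, hCφ⟩ := hR.φb a
    obtain ⟨CE, hCE⟩ := hR.Eb a
    have dν := hs.dν a
    obtain ⟨cV, bV⟩ := conv_bc (hR.μc a) hCμ
    obtain ⟨cν, bν⟩ := dν.Vf_bc
    have cψ := (hψ.c a).continuous
    have bψ := hψ.b a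
    have i1 : Integrable fun t => X.μ a t * X.Vm a t := int_mul_bc (hR.μi a) cV bV
    have i2 : Integrable fun t => X.μ a t * ∫ u, ν a u * V (t - u) := int_mul_bc (hR.μi a) cν bν
    have i3 : Integrable fun t => ν a t * X.Vm a t := int_mul_bc dν.int cV bV
    have i4 : Integrable fun t => ν a t * ∫ u, ν a u * V (t - u) := int_mul_bc dν.int cν bν
    have s1 : ∫ t, ν a t * X.Vm a t = ∫ t, X.μ a t * ∫ u, ν a u * V (t - u) :=
      conv_symm dν.int (hR.μc a) hCμ
    have q1 : ∫ t, Y.μ a t * Y.Vm a t = (∫ t, X.μ a t * X.Vm a t) +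
        (∫ t, ν a t * ∫ u, ν a u * V (t - u)) +
        2 * ∫ t, X.μ a t * ∫ u, ν a u * V (t - u) := by
      have e1 : ∀ t, Y.μ a t * Y.Vm a t = (X.μ a t * X.Vm a t +
          ν a t * ∫ u, ν a u * V (t - u)) + ((X.μ a t * ∫ u, ν a u * V (t - u)) +
          ν a t * X.Vm a t) := by
        intro t
        rw [eμ, eV]
        ring
      simp_rw [e1]
      rw [int4 i1 i4 i2 i3, s1]
      ring
    have j1 : Integrable fun t => X.ρ t * X.E a t := int_mul_bc (ρ_int X) (hR.Ec a) hCE
    have j2 : Integrable fun t => X.ρ t * (srcP ν τ a t + ψ a t) := by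
      refine int_mul_bc (ρ_int X) ((hs.cont a).add cψ) (M := (12 + ∫ u, |V u|) * s + s') fun t => ?_
      exact (abs_add_le _ _).trans (add_le_add (hs.le a t) (bψ t))
    have q2 : ∫ t, Y.ρ t * Y.E a t = (∫ t, X.ρ t * X.E a t) +
        ∫ t, X.ρ t * (srcP ν τ a t + ψ a t) := by
      rw [← integral_add j1 j2]
      refine integral_congr_ae (ae_of_all _ fun t => ?_)
      simp only
      rw [eρ, eE]
      ring
    have k1 : Integrable fun t => X.μ a t * X.φ a t := int_mul_bc (hR.μi a) (hR.φc a) hCφ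
    have k2 : Integrable fun t => ν a t * X.φ a t := int_mul_bc dν.int (hR.φc a) hCφ
    have k3 : Integrable fun t => (X.μ a t + ν a t) * ψ a t :=
      int_mul_bc ((hR.μi a).add dν.int) cψ bψ
    have q3 : ∫ t, Y.μ a t * Y.φ a t = (∫ t, X.μ a t * X.φ a t) + (∫ t, ν a t * X.φ a t) +
        ∫ t, (X.μ a t + ν a t) * ψ a t := by
      rw [← int3 k1 k2 k3]
      refine integral_congr_ae (ae_of_all _ fun t => ?_)
      simp only
      rw [eμ, eφ]
      ring
    rw [q1, q2, q3]
    ring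
  unfold Dat.En crS srcEn
  rw [e0, p1]
  simp_rw [p2]
  simp only [Finset.sum_add_distrib]
  ring

end

end NUSea.H0

end
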