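import Mathlib.Probability.Distributions.Gaussian.Real

/-!
# Gaussian average: from linear to quadratic exponents with the operator norm

`W` a weight, `X_1, .., X_n` real statistics with
`∫ W e ^ (∑ c_i X_i) ≤ A e ^ (v / 2 ∑ c_i² + C ∑ |c_i|)` for all real `c`.  If `κ v < 1`, then
`∫ W e ^ (κ / 2 ∑ X_i²) ≤ A (GC κ v C) ^ n`, where `GC κ v C < ∞` depends on `κ, v, C` only.
-/

set_option autoImplicit false

noncomputable section

open MeasureTheory ProbabilityTheory
open scoped ENNReal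

namespace IST

/-- `e ^ (κ x² / 2)` is an average of exponentials -/
theorem gauss_exp {κ : ℝ} (hκ : 0 ≤ κ) (x : ℝ) :
    ∫⁻ g : ℝ, ENNReal.ofReal (Real.exp (√κ * g * x)) ∂(gaussianReal 0 1) =
      ENNReal.ofReal (Real.exp (κ / 2 * x ^ 2)) := by
  have h1 : Integrable (fun g : ℝ => Real.exp ((√κ * x) * g)) (gaussianReal 0 1) :=
    integrable_exp_mul_gaussianReal _
  have h2 : ∫ g : ℝ, Real.exp ((√κ * x) * g) ∂(gaussianReal 0 1) = Real.exp (κ / 2 * x ^ 2) := by
    have h3 := congrFun (mgf_fun_id_gaussianReal (μ := 0) (v := 1)) (√κ * x)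
    have h4 : mgf (fun y : ℝ => y) (gaussianReal 0 1) (√κ * x) =
        ∫ g : ℝ, Real.exp ((√κ * x) * g) ∂(gaussianReal 0 1) := rfl
    rw [← h4, h3]
    congr 1
    rw [mul_pow, Real.sq_sqrt hκ]
    push_cast
    ring
  rw [← h2, ofReal_integral_eq_lintegral_ofReal h1 (ae_of_all _ fun g => (Real.exp_pos _).le)]
  refine lintegral_congr fun g => ?_
  congr 2
  ring

/-- the constant of one mode -/
def GC (κ v C : ℝ) : ℝ≥0∞ :=
  ∫⁻ g : ℝ, ENNReal.ofReal (Real.exp (v / 2 * (κ * g ^ 2) + C * (√κ * |g|))) ∂(gaussianReal 0 1)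

/-- the constant is finite -/
theorem GC_lt_top {κ v C : ℝ} (h : κ * v < 1) : GC κ v C < ∞ := by
  unfold GC
  rw [gaussianReal_of_var_ne_zero 0 (one_ne_zero)]
  rw [lintegral_withDensity_eq_lintegral_mul₀ (by fun_prop) (by fun_prop)]
  obtain ⟨b, hb⟩ : ∃ b : ℝ, b = (1 - κ * v) / 4 := ⟨_, rfl⟩
  have hb0 : 0 < b := by rw [hb]; linarith
  obtain ⟨K, hK⟩ : ∃ K : ℝ, K = (C * √κ) ^ 2 / (4 * b) := ⟨_, rfl⟩
  have hpt : ∀ g : ℝ, (gaussianPDF 0 1 * fun g : ℝ =>
      ENNReal.ofReal (Real.exp (v / 2 * (κ * g ^ 2) + C * (√κ * |g|)))) g ≤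
      ENNReal.ofReal (Real.exp K * Real.exp (-b * g ^ 2)) := by
    intro g
    simp only [Pi.mul_apply, gaussianPDF]
    rw [← ENNReal.ofReal_mul (gaussianPDFReal_nonneg 0 1 g)]
    refine ENNReal.ofReal_le_ofReal ?_
    unfold gaussianPDFReal
    have h1 : (√(2 * Real.pi * ((1 : NNReal) : ℝ)))⁻¹ ≤ 1 := by
      refine inv_le_one_of_one_le₀ ?_
      rw [Real.one_le_sqrt]
      push_cast
      nlinarith [Real.two_le_pi]
    have h2 : C * (√κ * |g|) ≤ b * g ^ 2 + K := by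
      rw [hK]
      have h3 : 0 ≤ (√b * |g| - C * √κ / (2 * √b)) ^ 2 := sq_nonneg _
      have hs : √b * √b = b := Real.mul_self_sqrt hb0.le
      have hs0 : 0 < √b := Real.sqrt_pos.2 hb0
      have e : (√b * |g| - C * √κ / (2 * √b)) ^ 2 =
          b * g ^ 2 + (C * √κ) ^ 2 / (4 * b) - C * (√κ * |g|) := by
        have e1 : (√b * |g|) ^ 2 = b * g ^ 2 := by
          rw [mul_pow, Real.sq_sqrt hb0.le, sq_abs]
        have e2 : (C * √κ / (2 * √b)) ^ 2 = (C * √κ) ^ 2 / (4 * b) := by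
          rw [div_pow, mul_pow 2, Real.sq_sqrt hb0.le]
          norm_num
        have e3 : 2 * (√b * |g|) * (C * √κ / (2 * √b)) = C * (√κ * |g|) := by
          field_simp
        rw [sub_sq, e1, e2, e3]
        ring
      linarith
    have h4 : Real.exp (-(g - 0) ^ 2 / (2 * ((1 : NNReal) : ℝ))) *
        Real.exp (v / 2 * (κ * g ^ 2) + C * (√κ * |g|)) ≤ Real.exp K * Real.exp (-b * g ^ 2) := by
      rw [← Real.exp_add, ← Real.exp_add]
      refine Real.exp_le_exp.2 ?_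
      push_cast
      rw [hb] at h2 ⊢
      nlinarith [sq_nonneg g]
    calc (√(2 * Real.pi * ((1 : NNReal) : ℝ)))⁻¹ * Real.exp (-(g - 0) ^ 2 / (2 * ((1 : NNReal) : ℝ))) *
          Real.exp (v / 2 * (κ * g ^ 2) + C * (√κ * |g|))
        = (√(2 * Real.pi * ((1 : NNReal) : ℝ)))⁻¹ *
          (Real.exp (-(g - 0) ^ 2 / (2 * ((1 : NNReal) : ℝ))) *
          Real.exp (v / 2 * (κ * g ^ 2) + C * (√κ * |g|))) := by ring
      _ ≤ 1 * (Real.exp K * Real.exp (-b * g ^ 2)) := by gcongr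
      _ = _ := one_mul _
  refine (lintegral_mono hpt).trans_lt ?_
  have hi : Integrable fun g : ℝ => Real.exp K * Real.exp (-b * g ^ 2) :=
    (integrable_exp_neg_mul_sq hb0).const_mul _
  exact hi.lintegral_lt_top

variable {Ω : Type*} [MeasurableSpace Ω]

/-- **Gaussian average** -/
theorem gauss_avg (μ : Measure Ω) [SFinite μ] {κ v C : ℝ} (hκ : 0 ≤ κ) : ∀ (n : ℕ) (W : Ω → ℝ≥0∞) (_ : Measurable W) (X : Fin n → Ω → ℝ)
    (_ : ∀ i, Measurable (X i)) (A : ℝ≥0∞)
    (_ : ∀ c : Fin n → ℝ, ∫⁻ ω, W ω * ENNReal.ofReal (Real.exp (∑ i, c i * X i ω)) ∂μ ≤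
      A * ENNReal.ofReal (Real.exp (v / 2 * ∑ i, c i ^ 2 + C * ∑ i, |c i|))),
    ∫⁻ ω, W ω * ENNReal.ofReal (Real.exp (κ / 2 * ∑ i, X i ω ^ 2)) ∂μ ≤ A * GC κ v C ^ n := by
  intro n
  induction n with
  | zero =>
    intro W _ X _ A h
    have h0 := h (fun i => i.elim0)
    simpa using h0
  | succ n ih =>
    intro W hW X hX A h
    -- one mode as an average
    have e1 : ∀ ω, W ω * ENNReal.ofReal (Real.exp (κ / 2 * ∑ i, X i ω ^ 2)) =
        ∫⁻ g : ℝ, W ω * ENNReal.ofReal (Real.exp (√κ * g * X 0 ω)) *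
          ENNReal.ofReal (Real.exp (κ / 2 * ∑ i : Fin n, X i.succ ω ^ 2)) ∂(gaussianReal 0 1) := by
      intro ω
      rw [lintegral_mul_const' _ _ ENNReal.ofReal_ne_top, lintegral_const_mul _ (by fun_prop),
        gauss_exp hκ, mul_assoc, ← ENNReal.ofReal_mul (Real.exp_pos _).le, ← Real.exp_add,
        Fin.sum_univ_succ]
      congr 3
      ring
    have mX : ∀ i : Fin n, Measurable (X i.succ) := fun i => hX _
    have mX0 := hX 0
    simp_rw [e1]
    rw [lintegral_lintegral_swap (by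
      refine Measurable.aemeasurable ?_
      have : Measurable fun p : Ω × ℝ => ENNReal.ofReal
          (Real.exp (κ / 2 * ∑ i : Fin n, X i.succ p.1 ^ 2)) := by
        refine ENNReal.measurable_ofReal.comp (Real.measurable_exp.comp (Measurable.const_mul ?_ _))
        exact Finset.measurable_sum _ fun i _ => ((mX i).comp measurable_fst).pow_const 2
      have h2 : Measurable fun p : Ω × ℝ => W p.1 * ENNReal.ofReal
          (Real.exp (√κ * p.2 * X 0 p.1)) := by fun_prop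
      exact h2.mul this)]
    -- the inner integral
    have key : ∀ g : ℝ, ∫⁻ ω, W ω * ENNReal.ofReal (Real.exp (√κ * g * X 0 ω)) *
        ENNReal.ofReal (Real.exp (κ / 2 * ∑ i : Fin n, X i.succ ω ^ 2)) ∂μ ≤
        A * ENNReal.ofReal (Real.exp (v / 2 * (κ * g ^ 2) + C * (√κ * |g|))) * GC κ v C ^ n := by
      intro g
      refine ih (fun ω => W ω * ENNReal.ofReal (Real.exp (√κ * g * X 0 ω))) (by fun_prop)
        (fun i => X i.succ) mX _ fun c => ?_
      have h3 := h (Fin.cons (√κ * g) c)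
      have e2 : ∀ ω, W ω * ENNReal.ofReal (Real.exp (√κ * g * X 0 ω)) *
          ENNReal.ofReal (Real.exp (∑ i, c i * X i.succ ω)) =
          W ω * ENNReal.ofReal (Real.exp (∑ i, (Fin.cons (√κ * g) c : Fin (n + 1) → ℝ) i *
            X i ω)) := by
        intro ω
        rw [mul_assoc, ← ENNReal.ofReal_mul (Real.exp_pos _).le, ← Real.exp_add,
          Fin.sum_univ_succ]
        simp only [Fin.cons_zero, Fin.cons_succ]
      simp_rw [e2]
      refine h3.trans (le_of_eq ?_)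
      rw [Fin.sum_univ_succ, Fin.sum_univ_succ]
      simp only [Fin.cons_zero, Fin.cons_succ]
      rw [mul_assoc, ← ENNReal.ofReal_mul (Real.exp_pos _).le, ← Real.exp_add]
      congr 3
      rw [mul_pow, Real.sq_sqrt hκ, abs_mul, abs_of_nonneg (Real.sqrt_nonneg κ)]
      ring
    calc ∫⁻ g : ℝ, ∫⁻ ω, W ω * ENNReal.ofReal (Real.exp (√κ * g * X 0 ω)) *
          ENNReal.ofReal (Real.exp (κ / 2 * ∑ i : Fin n, X i.succ ω ^ 2)) ∂μ ∂(gaussianReal 0 1)
        ≤ ∫⁻ g : ℝ, A * ENNReal.ofReal (Real.exp (v / 2 * (κ * g ^ 2) + C * (√κ * |g|))) *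
          GC κ v C ^ n ∂(gaussianReal 0 1) := lintegral_mono key
      _ = A * GC κ v C ^ (n + 1) := by
        rw [lintegral_mul_const _ (by fun_prop), lintegral_const_mul _ (by fun_prop), pow_succ']
        unfold GC
        ring

end IST

end
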