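import Pool.Agent.IST.S4P
import Pool.Agent.PB.UProps

/-!
# Gaussian domination: the sum over the configurations with a source of any size

* **`gdTop`**: the class `W W'` at fixed half quanta, any sea, any geometry: the functional with moduli
  and the statistic of a source (potential on the quanta minus its mean field value, total charges of
  the objects, local factors `exp (- K1 (s + s') ∑ exp (-3/2 |t|))` of the objects) is at most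
  `m ^ (1/2)` times the price `exp (srcEn + C1 (s + E) + x0 s² + 2 s s')` times the bound without
  source; `K1` and the smallness of `ep`, `e1`, `exp (-2πJ)` are independent of the source;
* **`gdTop0`**: the same without local factors, price `exp ((x0 + K2) s²)`.
-/

set_option autoImplicit false
set_option linter.unusedSectionVars false

noncomputable section

open Complex MeasureTheory Finset
open scoped ENNReal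

namespace PBI

open NUGC PBO PBF PotH PBR
open NUO NUP1 NUCR NUP1S NUP1S.Ab NUP1S.AbC NUP1S.AbG NURow NUP1.Leg NUStabP NUDispW
open PBP (gT)

/-- the conclusion: constant `Km` of the local factors, price with the constants `C1`, `X0` -/
def GDAt [NUSea.Sea] (G : Geo) (Km C1 X0 kapw K2 e ep e1 J Cst : ℝ) (m : ℕ) : Prop :=
  ∀ (X : Bool → Option O3 → ℂ → ℂ) (κ : ℝ) (E0 : Set ℝ),
  Bs X (fun g => (G.B m (beC ep)).mul g) (NUSea.O.par0 m) ep κ E0 →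
  ∀ y : ℝ × ℝ, |y.1| ≤ TW ep e1 m → |y.2| ≤ TW ep e1 m → ∀ i : SrcI, i.Ok →
  ∀ (w : (r : ℕ) → (Fin r → Xo) → ℝ) (Bw : ℝ), 0 ≤ Bw → (∀ r O, 0 ≤ w r O) →
  (∀ (r : ℕ) (O : Fin r → Xo), w r O ≤ Bw * Real.exp (K2 * r) *
      Real.exp (∑ i, gT e1 (Real.log m) (ht (O i))) *
      Real.exp (kapw * win univ fun i => ht (O i))) →
  ∀ C0 Cg k1 k2 gg : ℝ, 0 ≤ C0 → 0 ≤ k1 → 0 ≤ k2 → 0 ≤ gg →
  k1 * Real.exp (m * G.MF .w (vl (htL .W) y.1)) ≤ C0 * Real.exp (-|y.1|) →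
  k2 * Real.exp (m * G.MF .w (vl (htL .W) y.2)) ≤ C0 * Real.exp (-|y.2|) →
  gg ≤ Cg * Real.exp (-|y.1 - y.2|) →
  ENNReal.ofReal (k1 * k2 * gg) *
    ∑ N ∈ range (2 * m + 1), FE (ZW X y) (NUSea.O.par0 m) N N (fun _ _ => etaC e1 J m m)
      (fun _ _ => etaC' e1 J m m) (fun r O a b x => ENNReal.ofReal (w r O) *
        srcΨ m (Km * (i.s + i.s')) i.ν i.τ i.ψ O x) ≤
    ENNReal.ofReal ((m : ℝ) ^ (1 / 2 + e) * Real.exp (i.X C1 X0) * (C0 * C0 * Cg * Bw * (Cst *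
      Real.exp ((m : ℝ) ^ 2 * G.EM) * Real.exp (-(2 * |y.1| + 2 * |y.2| + |y.1 - y.2| / 2)))))

theorem gd_of [NUSea.Sea] {G : Geo} {Km C1 X0 kapw K2 e ep e1 J Cst : ℝ} {m : ℕ} (hm : 1 ≤ m)
    (h : Pool.Agent.IST.TopAt G (fun (i : SrcI) => i.Ok) (fun i => srcΦ Km C1 X0 i m) kapw K2 e ep e1 J Cst m) :
    GDAt G Km C1 X0 kapw K2 e ep e1 J Cst m := by
  intro X κ E0 hX y hy1 hy2 i hok w Bw hBw hw0 hwB C0 Cg k1 k2 gg hC0 hk1 hk2 hgg h1 h2 h3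
  have key := h X κ E0 hX y hy1 hy2 i hok w Bw hBw hw0 hwB C0 Cg k1 k2 gg hC0 hk1 hk2 hgg h1 h2 h3
  have hmp : (0 : ℝ) < m := by exact_mod_cast hm
  obtain ⟨c, hc⟩ : ∃ c : ℝ, c = (m : ℝ) ^ (-(1 / 2 : ℝ)) * Real.exp (-i.X C1 X0) := ⟨_, rfl⟩
  have hc0 : 0 < c := by
    rw [hc]
    have := Real.rpow_pos_of_pos hmp (-(1 / 2 : ℝ))
    positivity
  have e1' : (fun (r : ℕ) (O : Fin r → Xo) (a b : ℕ) (x : (Fin a → ℝ) × (Fin b → ℝ)) =>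
      ENNReal.ofReal (w r O) * srcΦ Km C1 X0 i m 0 r O a b x) =
      fun r O a b x => ENNReal.ofReal c * (ENNReal.ofReal (w r O) *
        srcΨ m (Km * (i.s + i.s')) i.ν i.τ i.ψ O x) := by
    funext r O a b x
    unfold srcΦ
    rw [← hc]
    ring
  have e2 : ∀ N : ℕ, FE (ZW X y) (NUSea.O.par0 m) N N (fun _ _ => etaC e1 J m m)
      (fun _ _ => etaC' e1 J m m) (fun r O a b x => ENNReal.ofReal (w r O) *
        srcΦ Km C1 X0 i m N r O a b x) =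
      ENNReal.ofReal c * FE (ZW X y) (NUSea.O.par0 m) N N (fun _ _ => etaC e1 J m m)
      (fun _ _ => etaC' e1 J m m) (fun r O a b x => ENNReal.ofReal (w r O) *
        srcΨ m (Km * (i.s + i.s')) i.ν i.τ i.ψ O x) := by
    intro N
    have e3 := PBU.FE_const_mul (Z := ZW X y) (P := NUSea.O.par0 m) (n := N) (n' := N)
      (η := fun _ _ => etaC e1 J m m) (η' := fun _ _ => etaC' e1 J m m)
      (c := ENNReal.ofReal c) ENNReal.ofReal_ne_top (fun r O a b x => ENNReal.ofReal (w r O) *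
        srcΨ m (Km * (i.s + i.s')) i.ν i.τ i.ψ O x)
    rw [← e3, ← e1']
    rfl
  simp only [e2] at key
  rw [← Finset.mul_sum, mul_left_comm] at key
  obtain ⟨Z, hZ⟩ : ∃ Z, Z = ENNReal.ofReal (k1 * k2 * gg) *
    ∑ N ∈ range (2 * m + 1), FE (ZW X y) (NUSea.O.par0 m) N N (fun _ _ => etaC e1 J m m)
      (fun _ _ => etaC' e1 J m m) (fun r O a b x => ENNReal.ofReal (w r O) *
        srcΨ m (Km * (i.s + i.s')) i.ν i.τ i.ψ O x) := ⟨_, rfl⟩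
  rw [← hZ] at key ⊢
  have hci : 0 ≤ c⁻¹ := (inv_pos.2 hc0).le
  calc Z = ENNReal.ofReal c⁻¹ * (ENNReal.ofReal c * Z) := by
        rw [← mul_assoc, ← ENNReal.ofReal_mul hci, inv_mul_cancel₀ hc0.ne', ENNReal.ofReal_one,
          one_mul]
    _ ≤ ENNReal.ofReal c⁻¹ * ENNReal.ofReal (C0 * C0 * Cg * Bw * (Cst * (m : ℝ) ^ e *
        Real.exp ((m : ℝ) ^ 2 * G.EM) *
        Real.exp (-(2 * |y.1| + 2 * |y.2| + |y.1 - y.2| / 2)))) := mul_le_mul' le_rfl key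
    _ = _ := by
        rw [← ENNReal.ofReal_mul hci]
        congr 1
        have h5 : c⁻¹ = (m : ℝ) ^ (1 / 2 : ℝ) * Real.exp (i.X C1 X0) := by
          rw [hc, mul_inv, ← Real.exp_neg, neg_neg, ← Real.rpow_neg hmp.le, neg_neg]
        rw [h5, Real.rpow_add hmp]
        ring

/-- **Gaussian domination, any sea, any geometry** -/
theorem gdTop (hS : StabProd) : ∃ c0 : ℝ, 0 < c0 ∧ ∀ [NUSea.Sea] {G : Geo}, GOk G → OneRT G →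
    ∃ K1 : ℝ, 0 ≤ K1 ∧ ∀ K2 kapw : ℝ, kapw ≤ c0 → ∀ {e : ℝ}, 0 < e →
    ∃ κ0 : ℝ, 0 < κ0 ∧ κ0 ≤ 1 / 100 ∧
      ∀ ep : ℝ, 0 < ep → ep ≤ κ0 → ∀ e1 : ℝ, 0 < e1 → e1 ≤ κ0 →
      ∀ J : ℝ, 0 ≤ J → Real.exp (-(2 * Real.pi * J)) ≤ κ0 →
      ∃ C1 : ℝ, 0 ≤ C1 ∧ ∀ x0 : ℝ, 0 < x0 →
      ∃ Cst : ℝ, 0 ≤ Cst ∧ ∃ m0 : ℕ, 5 ≤ m0 ∧ ∀ m ≥ m0,
      CurB ep (etaC e1 J m m) (etaC' e1 J m m) ∧ GDAt G K1 C1 x0 kapw K2 e ep e1 J Cst m := by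
  obtain ⟨c0, hc0, H⟩ := Pool.Agent.IST.topRW hS
  refine ⟨c0, hc0, ?_⟩
  intro inst G hG h1
  obtain ⟨K, K1, hK, hK1, h4⟩ := s4Src hG
  refine ⟨K1, hK1, ?_⟩
  intro K2 kapw hkapw e he
  obtain ⟨κ0, hκ, hκ1, H⟩ := H hG.nn h1 K K2 kapw hkapw (Ca := 3) (by norm_num) he
  refine ⟨κ0, hκ, hκ1, ?_⟩
  intro ep hep hep1 e1 he1 he11 J hJ hJ1
  obtain ⟨C1, hC1, h4⟩ := h4 c0 hc0 ep hep (hep1.trans hκ1) e1 he1 (he11.trans hκ1) J hJ (e / 4)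
    (by linarith)
  refine ⟨C1, hC1, fun x0 hx0 => ?_⟩
  obtain ⟨Cst, hCst, m0, hm0, H⟩ := H ep hep hep1 e1 he1 he11 J hJ hJ1 SrcI
    (fun _ i => i.Ok) (srcΦ K1 C1 x0) (h4 x0 hx0)
  refine ⟨Cst, hCst, m0, hm0, fun m hm => ?_⟩
  obtain ⟨g1, g2⟩ := H m hm
  exact ⟨g1, gd_of (by omega) g2⟩

/-- **Gaussian domination without local factors** -/
theorem gdTop0 (hS : StabProd) : ∃ c0 : ℝ, 0 < c0 ∧ ∀ [NUSea.Sea] {G : Geo}, GOk G → OneRT G →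
    ∃ X1 : ℝ, 0 ≤ X1 ∧ ∀ K2 kapw : ℝ, kapw ≤ c0 → ∀ {e : ℝ}, 0 < e →
    ∃ κ0 : ℝ, 0 < κ0 ∧ κ0 ≤ 1 / 100 ∧
      ∀ ep : ℝ, 0 < ep → ep ≤ κ0 → ∀ e1 : ℝ, 0 < e1 → e1 ≤ κ0 →
      ∀ J : ℝ, 0 ≤ J → Real.exp (-(2 * Real.pi * J)) ≤ κ0 →
      ∃ C1 : ℝ, 0 ≤ C1 ∧ ∀ x0 : ℝ, 0 < x0 →
      ∃ Cst : ℝ, 0 ≤ Cst ∧ ∃ m0 : ℕ, 5 ≤ m0 ∧ ∀ m ≥ m0,
      CurB ep (etaC e1 J m m) (etaC' e1 J m m) ∧
        GDAt G 0 C1 (x0 + X1) kapw K2 e ep e1 J Cst m := by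
  obtain ⟨c0, hc0, H⟩ := Pool.Agent.IST.topRW hS
  refine ⟨c0, hc0, ?_⟩
  intro inst G hG h1
  obtain ⟨K, K1, hK, hK1, h4⟩ := s4Src0 hG
  refine ⟨K1 / c0, by positivity, ?_⟩
  intro K2 kapw hkapw e he
  obtain ⟨κ0, hκ, hκ1, H⟩ := H hG.nn h1 K K2 kapw hkapw (Ca := 3) (by norm_num) he
  refine ⟨κ0, hκ, hκ1, ?_⟩
  intro ep hep hep1 e1 he1 he11 J hJ hJ1
  obtain ⟨C1, hC1, h4⟩ := h4 c0 hc0 ep hep (hep1.trans hκ1) e1 he1 (he11.trans hκ1) J hJ (e / 4)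
    (by linarith)
  refine ⟨C1, hC1, fun x0 hx0 => ?_⟩
  obtain ⟨Cst, hCst, m0, hm0, H⟩ := H ep hep hep1 e1 he1 he11 J hJ hJ1 SrcI
    (fun _ i => i.Ok) (srcΦ 0 C1 (x0 + K1 / c0)) (h4 x0 hx0)
  refine ⟨Cst, hCst, m0, hm0, fun m hm => ?_⟩
  obtain ⟨g1, g2⟩ := H m hm
  exact ⟨g1, gd_of (by omega) g2⟩

end PBI

end
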