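import Pool.Agent.PB.TopR

/-!
# ISO: the class `W1 W1'` with a weight of the objects that may grow like `exp (kapw win)`, for a family
of seas (`topRF`, `topRW`)

`topR` (PB/TopR) allows a weight `w ≤ Bw exp (K2 r) ∏ exp gT` of the objects. The stability constant of
`StabProd` leaves room for a window energy: `asmH1` (as `asmH`, the constant `c1` first, then `K`),
`perHW`, `perAt`, `gasAt`, `topAt` (one size `m`, all constants explicit), and

* **`topRF`**: a family of seas `S s` and of geometries `G s` with one body bounds, curves and gas bounds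
  that are uniform in `s` and hold at the sizes `m` with `P s m` (`OneF`, `CurF`, `S4F`): the bound of
  `topR` holds at these sizes with constants independent of `s`; the weights may satisfy `w ≤ Bw exp (K2 r) ∏ exp gT exp (kapw win)`, `kapw ≤ c0`, where `c0 > 0`
  is absolute (only from `StabProd`: no sea, no geometry, no statistic);
* **`topRW`**: the same for one sea, the hypothesis on the gas at fixed parameters (`S4fix`).
-/

set_option autoImplicit false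
set_option linter.unusedSectionVars false
set_option linter.unusedVariables false

noncomputable section

open Complex MeasureTheory Finset
open scoped ENNReal

namespace PBI

open NUGC PBO PBF PotH
open NUO NUP1 NUStabP NUDispW
open NUC43 (sg kq)
open NUSea.H0 (Gd IG TG cstF)
open NUSp (kG spo qc)
open NUDirP (Small)
open PBP (gT)

variable [NUSea.Sea]

/-- `S4K` at one size `m`, with explicit constants -/
def S4at (G : Geo) {ι : Type*} (ok : ι → Prop) (Φ : ι → ℕ → InsE) (K Ca kap ep e1 J δ d Cst : ℝ)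
    (m : ℕ) : Prop :=
  ∀ (n : ℕ) (g : Fin n → Gd) (aX aY : ℕ) (ν : ℝ) (N : ℕ) (b' : ℝ) (r : ℕ) (O : Fin r → Xo),
    b' = d ∨ b' = -d → RgR ep e1 m g aX aY ν N O 0 0 → (∀ i, |(g i).τ| ≤ TW ep e1 m) →
    ∀ i : ι, ok i → lhsI G ep e1 J m g aX aY ν N b' O (Φ i N) ≤
      ENNReal.ofReal (prefR G m g 0 0 Cst * (m : ℝ) ^ (Ca * (ep + e1) + δ) *
        Real.exp (-gnF e1 J m g) * Real.exp (confR G m ep e1 J K kap O +
          enR m g O (T1R ep e1 m O 0) (N + aX - chgO O true) (N + aY - chgO O false)))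

/-- **`S4K` at fixed parameters** -/
def S4fix (G : Geo) {ι : Type*} (ok : ℕ → ι → Prop) (Φ : ι → ℕ → ℕ → InsE)
    (K Ca kap ep e1 J δ : ℝ) : Prop :=
  ∃ d Cst : ℝ, 0 < d ∧ 0 ≤ Cst ∧ ∃ m0 : ℕ, ∀ m ≥ m0,
      ∀ (n : ℕ) (g : Fin n → Gd) (aX aY : ℕ) (ν : ℝ) (N : ℕ) (b' : ℝ) (r : ℕ) (O : Fin r → Xo),
        b' = d ∨ b' = -d → RgR ep e1 m g aX aY ν N O 0 0 → (∀ i, |(g i).τ| ≤ TW ep e1 m) →
        ∀ i : ι, ok m i → lhsI G ep e1 J m g aX aY ν N b' O (Φ i m N) ≤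
          ENNReal.ofReal (prefR G m g 0 0 Cst * (m : ℝ) ^ (Ca * (ep + e1) + δ) *
            Real.exp (-gnF e1 J m g) * Real.exp (confR G m ep e1 J K kap O +
              enR m g O (T1R ep e1 m O 0) (N + aX - chgO O true) (N + aY - chgO O false)))

theorem S4K.s4fix {G : Geo} {ι : Type*} {ok : ℕ → ι → Prop} {Φ : ι → ℕ → ℕ → InsE} {K Ca : ℝ}
    (h : S4K G ok Φ K Ca) {kap ep e1 J δ : ℝ} (hkap : 0 < kap) (hep : 0 < ep) (hep1 : ep ≤ 1 / 100)
    (he1 : 0 < e1) (he11 : e1 ≤ 1 / 100) (hJ : 0 ≤ J) (hδ : 0 < δ) :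
    S4fix G ok Φ K Ca kap ep e1 J δ := h kap hkap ep hep hep1 e1 he1 he11 J hJ δ hδ

/-- `OneRT` at one size `m`, with explicit constants -/
def OneAt (G : Geo) (K0 : ℝ) (k0 : ℕ) (C c ep e1 J : ℝ) (m : ℕ) : Prop :=
  ∀ (r : ℕ) (O : Fin r → Xo) (i : Fin r),
    ob1c (G.B m (4 / 3 * (1 - ep))) (NUSea.O.par0 m).jL (ei (NUSea.O.par0 m) O i)
        (rr (NUSea.O.par0 m) O i) (O i) *
      Real.exp (G.one m ep e1 J r O i + K0) * colK (((r : ℝ) + 1) ^ k0) (kd (O i)) ≤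
    act C 1 c (1 / 10) (k0 + 6) (Real.log m) ep e1 J r (ht (O i)) *
      Real.exp (-gT e1 (Real.log m) (ht (O i)))

end PBI

namespace Pool.Agent.IST

section config

open NUGC PBO PBF PotH PBI
open NUO NUP1 NUStabP NUDispW
open NUC43 (sg kq)
open NUSea.H0 (Gd IG TG cstF)
open NUSp (kG spo qc)
open NUDirP (Small)
open PBP (gT)

/-- **one configuration**, the constant of the stability bound first -/
theorem asmH1 (hS : StabProd) : ∃ c1 : ℝ, 0 < c1 ∧ ∀ K A2 : ℝ, ∃ K' : ℝ,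
    ∀ P : Par, P.jL = 9 / 4 → P.e = 1 / 4 → P.d = d0 → ∀ r : ℕ, Small 8 P r → ∀ O : Fin r → Xo,
    ∀ o sp u es act' : Fin r → ℝ, (∀ i, 0 ≤ o i) → (∀ i, 0 ≤ sp i) →
      (∀ i, sp i * Real.exp (es i) ≤ Real.exp A2) →
      (∀ i, o i * Real.exp (u i + K') * colK (((r : ℝ) + 1) ^ 12) (kd (O i)) ≤ act' i) →
    ∀ B : ℝ, 0 ≤ B → ∀ W : Finset ℤ,
      ((∏ i, o i) * ∏ i, sp i) * (∏ i, ∏ j, if i < j then pairN P O i j else 1) *
        (B * Real.exp (∑ i, u i + ∑ i, es i + K * r + enC O + c1 * win univ fun i => ht (O i))) ≤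
      B * (∏ i, act' i) * Real.exp (-(c1 * ∑ w ∈ W, (cO O w : ℝ) ^ 2)) := by
  obtain ⟨C2, c1, hC2, hc1, hstab⟩ := hS
  refine ⟨c1 / 2, by positivity, fun K A2 => ⟨2 * C2 + K + (C2 * 6144 + 1) * 4 + A2, ?_⟩⟩
  intro P hj he hd r hsm O o sp u es act' ho hsp hspec hone B hB W
  have hdr : (r : ℝ) ^ 2 * P.d r ≤ r := by
    rcases Nat.eq_zero_or_pos r with h | h
    · simp [h]
    · have h1 := d0_sq r
      have h2 : (1 : ℝ) ≤ r := by exact_mod_cast h
      rw [hd]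
      linarith
  have hd0 : 0 < P.d r := by
    rw [hd]
    exact d0_pos r
  have hdi : 1 / P.d r ≤ 6144 * ((r : ℝ) + 1) ^ 2 := by
    rw [hd]
    exact (d0_inv r).le
  have key := conf_algC (x := fun i => ht (O i)) (o := o) (sp := sp) (u := u) (es := es)
    (act' := act') (coll := fun i => collC C2 4 P r (O i))
    (col := fun i => colK (((r : ℝ) + 1) ^ 12) (kd (O i)))
    (PP := ∏ i, ∏ j, if i < j then pairN P O i j else 1) (EG := enC O) (B := B)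
    (K := K) (C2 := C2) (A := (C2 * 6144 + 1) * 4) (A2 := A2) (c1 := c1) (kap := c1 / 2)
    (dr := P.d r) W hC2.le (by positivity) le_rfl hdr ho hsp
    (fun i => collC_nonneg hC2.le hd0 _)
    (fun i => coll_bd hC2.le (by norm_num) hd0 hdi _)
    (fun W => hstab P hj he r hsm O W) hspec hone hB
  exact key

/-- the bound of one configuration, explicit constants -/
def PerHB (c1 K K2 K' : ℝ) : Prop :=
    ∀ kap kapw : ℝ, kap + kapw ≤ c1 →
    ∀ (B : OB), B.Nn → ∀ P : Par, P.jL = 9 / 4 → P.e = 1 / 4 → P.d = d0 →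
    (∀ r t, 0 ≤ P.rad r t) → ∀ r : ℕ, Small 8 P r → ∀ O : Fin r → Xo,
    ∀ (η η' : ℝ → ℝ) (nX nY : ℕ) (ψ : (a b : ℕ) → (Fin a → ℝ) × (Fin b → ℝ) → ℝ≥0∞)
      (u g act' : Fin r → ℝ) (Q Bw w : ℝ), 0 ≤ Q → 0 ≤ w → 0 ≤ Bw →
      w ≤ Bw * Real.exp (K2 * r) * Real.exp (∑ i, g i) *
        Real.exp (kapw * win univ fun i => ht (O i)) →
      (∀ i, ob1c B P.jL (ei P O i) (rr P O i) (O i) * Real.exp (u i + K') *
        colK (((r : ℝ) + 1) ^ 12) (kd (O i)) ≤ act' i * Real.exp (-g i)) →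
      (chgO O true ≤ nX → chgO O false ≤ nY →
        gasI B P η η' O (nX - chgO O true) (nY - chgO O false)
          (ψ (nX - chgO O true) (nY - chgO O false)) ≤
        ENNReal.ofReal (w * (Q * Real.exp (∑ i, u i + K * r + enC O +
          kap * win univ fun i => ht (O i))))) →
    ∀ W : Finset ℤ, FnI B P η η' nX nY O ψ ≤
      ENNReal.ofReal (Bw * Q * (∏ i, act' i) * Real.exp (-(c1 * ∑ w ∈ W, (cO O w : ℝ) ^ 2)))

/-- **the bound of one configuration**, the weight may contain `exp (kapw win)` -/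
theorem perHW (hS : StabProd) : ∃ c1 : ℝ, 0 < c1 ∧ ∀ K K2 : ℝ, ∃ K' : ℝ, PerHB c1 K K2 K' := by
  obtain ⟨c1, hc1, H⟩ := asmH1 hS
  refine ⟨c1, hc1, fun K K2 => ?_⟩
  obtain ⟨K', H⟩ := H (K + K2) 0
  refine ⟨K', ?_⟩
  intro kap kapw hkap B hB P hj he hd hr r hsm O η η' nX nY ψ u g act' Q Bw w hQ hw hBw hwB hone hgas W
  by_cases hc : chgO O true ≤ nX ∧ chgO O false ≤ nY
  swap
  · rw [FnI_zero _ _ _ _ _ _ hc]
    exact zero_le
  have ho : ∀ i, 0 ≤ ob1c B P.jL (ei P O i) (rr P O i) (O i) := fun i =>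
    ob1c_nonneg hB _ _ (hr _ _) _
  have hobj : 0 ≤ objWc B P O := objWc_nonneg hB hr O
  have key := H P hj he hd r hsm O (fun i => ob1c B P.jL (ei P O i) (rr P O i) (O i))
    (fun _ => 1) u (fun _ => 0) (fun i => act' i * Real.exp (-g i)) ho (fun _ => zero_le_one)
    (fun _ => by simp) hone Q hQ W
  simp only [Finset.prod_const_one, mul_one, Finset.sum_const_zero, add_zero] at key
  rw [FnI_eq _ _ _ _ _ _ hc]
  refine (mul_le_mul' le_rfl (hgas hc.1 hc.2)).trans ?_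
  rw [← ENNReal.ofReal_mul hobj]
  refine ENNReal.ofReal_le_ofReal ?_
  have hprod : ∏ i, act' i * Real.exp (-g i) = (∏ i, act' i) * Real.exp (-∑ i, g i) := by
    rw [Finset.prod_mul_distrib, ← Real.exp_sum, Finset.sum_neg_distrib]
  rw [hprod] at key
  have hV0 : 0 ≤ win univ fun i => ht (O i) := win_nonneg _ _
  obtain ⟨V, hV⟩ : ∃ V, V = win univ fun i => ht (O i) := ⟨_, rfl⟩
  rw [← hV] at hwB hV0 ⊢ key
  have hE : Real.exp (∑ i, u i + K * r + enC O + kap * V) =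
      Real.exp (-(K2 * r)) * Real.exp (-((c1 - kap) * V)) *
        Real.exp (∑ i, u i + (K + K2) * r + enC O + c1 * V) := by
    rw [← Real.exp_add, ← Real.exp_add]
    congr 1
    ring
  have hobjW : objWc B P O = (∏ i, ob1c B P.jL (ei P O i) (rr P O i) (O i)) *
      ∏ i, ∏ j, if i < j then pairN P O i j else 1 := rfl
  obtain ⟨X, hX⟩ : ∃ X, X = Real.exp (∑ i, u i + (K + K2) * r + enC O + c1 * V) := ⟨_, rfl⟩
  obtain ⟨G, hG⟩ : ∃ G, G = ∑ i, g i := ⟨_, rfl⟩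
  obtain ⟨Y, hY⟩ : ∃ Y, Y = Real.exp (-(c1 * ∑ w ∈ W, (cO O w : ℝ) ^ 2)) := ⟨_, rfl⟩
  obtain ⟨A, hA⟩ : ∃ A, A = ∏ i, act' i := ⟨_, rfl⟩
  rw [hE, ← hX, ← hY, ← hA]
  rw [← hobjW, ← hX, ← hG, ← hY, ← hA] at key
  rw [← hG] at hwB
  have hX0 : 0 < X := by
    rw [hX]
    exact Real.exp_pos _
  have h1 : 0 ≤ objWc B P O * (Q * X) := by positivity
  have hww : Real.exp (kapw * V) * Real.exp (-((c1 - kap) * V)) ≤ 1 := by
    rw [← Real.exp_add]
    refine Real.exp_le_one_iff.2 ?_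
    nlinarith [mul_nonneg hV0 (sub_nonneg.2 hkap)]
  calc objWc B P O * (w * (Q * (Real.exp (-(K2 * r)) * Real.exp (-((c1 - kap) * V)) * X)))
      = w * (Real.exp (-(K2 * r)) * Real.exp (-((c1 - kap) * V))) *
          (objWc B P O * (Q * X)) := by ring
    _ ≤ (Bw * Real.exp (K2 * r) * Real.exp G * Real.exp (kapw * V)) *
        (Real.exp (-(K2 * r)) * Real.exp (-((c1 - kap) * V))) * (objWc B P O * (Q * X)) := by
        refine mul_le_mul_of_nonneg_right ?_ h1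
        exact mul_le_mul_of_nonneg_right hwB (by positivity)
    _ = (Real.exp (kapw * V) * Real.exp (-((c1 - kap) * V))) *
        (Bw * Real.exp G * (objWc B P O * (Q * X))) := by
        have : Real.exp (K2 * r) * Real.exp (-(K2 * r)) = 1 := by
          rw [← Real.exp_add]
          simp
        linear_combination Bw * Real.exp G * Real.exp (kapw * V) *
          Real.exp (-((c1 - kap) * V)) * (objWc B P O * (Q * X)) * this
    _ ≤ 1 * (Bw * Real.exp G * (objWc B P O * (Q * X))) := by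
        refine mul_le_mul_of_nonneg_right hww ?_
        have := (Real.exp_pos G).le
        positivity
    _ = Bw * Real.exp G * (objWc B P O * (Q * X)) := one_mul _
    _ ≤ Bw * Real.exp G * (Q * (A * Real.exp (-G)) * Y) :=
        mul_le_mul_of_nonneg_left key (mul_nonneg hBw (Real.exp_pos _).le)
    _ = Bw * Q * A * Y := by
        have : Real.exp G * Real.exp (-G) = 1 := by
          rw [← Real.exp_add]
          simp
        linear_combination Bw * Q * A * Y * this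

/-- a family of groups against an object (`NUGC.spec_pin`), explicit constant -/
def SpecB (C3 : ℝ) : Prop := ∀ (P : Par), P.e = 1 / 4 → P.jL = 9 / 4 → ∀ (r : ℕ),
    Small 8 P r → ∀ (O : Fin r → Xo) (i : Fin r) (T1 : ℝ), |ht (O i)| ≤ T1 →
    ∀ (n : ℕ) (g : Fin n → Gd), n ≤ 2 →
    facL (spF g) (NUO.cons P O i) *
      Real.exp (∑ d, ES (obSr P.jL P.e (O i)) (TG (fun i => (g i).pin T1) d) -
        cstF T1 g true * (sg (NUO.sp (O i)) * kq (kd (O i)))) ≤ C3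

/-- **the tilted bounds for a family of near groups with a statistic and a weight of the objects**, one
size, explicit constants -/
def PerAt [NUSea.Sea] (G : Geo) {ι : Type*} (ok : ι → Prop) (Φ : ι → ℕ → InsE)
    (kapw K2 C c b : ℝ) (k : ℕ) (c1 Ca ep e1 J δ d Cst : ℝ) (m : ℕ) : Prop :=
  ∀ (n : ℕ) (g : Fin n → Gd) (aX aY : ℕ) (ν Qe : ℝ), n ≤ 2 →
    (∀ i j, i ≠ j → (g i).σ ≠ (g j).σ) → aX ≤ 3 → aY ≤ 3 →
    (aX : ℝ) - aY = -∑ i, NUC43.sg (g i).σ * qc (g i).c / 2 →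
    |ν - m| ≤ 2 → (∀ i, |(g i).τ| ≤ TW ep e1 m) → 0 ≤ Qe →
    (∀ T1, TW ep e1 m ≤ T1 → Real.exp (enQ g aX aY 0 0 T1) ≤ Qe) →
    ∀ i : ι, ok i → ∀ (w : (r : ℕ) → (Fin r → Xo) → ℝ) (Bw : ℝ), 0 ≤ Bw →
    (∀ r O, 0 ≤ w r O) → (∀ (r : ℕ) (O : Fin r → Xo), w r O ≤ Bw * Real.exp (K2 * r) *
      Real.exp (∑ i, gT e1 (Real.log m) (ht (O i))) *
      Real.exp (kapw * win univ fun i => ht (O i))) →
    PerI C 1 c b k c1 0 (Real.log m) ep e1 J ν d (2 * m)
      ((G.B m (4 / 3 * (1 - ep))).mul (spF g)) (NUSea.O.par0 m) aX aY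
      (fun _ _ _ => etaC e1 J m m) (fun _ _ _ => etaC' e1 J m m)
      (fun N r O a b x => ENNReal.ofReal (w r O) * Φ i N r O a b x)
      (Bw * (Cst * Real.exp ((m : ℝ) ^ 2 * G.EM) * (m : ℝ) ^ (Ca * (ep + e1) + δ) *
        Real.exp (m * ∑ i, G.MF (g i).c (g i).w) * Real.exp (-gnF e1 J m g) * Qe))

/-- **the tilted bounds**, the weight may contain `exp (kapw win)`; one size, explicit constants -/
theorem perAt [NUSea.Sea] {G : Geo} (hB : ∀ m β, (G.B m β).Nn) {c1 K K2 K' C3 : ℝ}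
    (hper : PerHB c1 K K2 K') (hC3 : 1 ≤ C3) (hspec : SpecB C3) {C c : ℝ} (hC : 0 < C)
    {kapw : ℝ} (hkapw : kapw ≤ c1 / 2) {ep e1 J δ Ca : ℝ} {ι : Type*} {ok : ι → Prop}
    {Φ : ι → ℕ → InsE} {d Cst : ℝ} (hCst : 0 ≤ Cst) {m : ℕ}
    (hone : OneAt G (K' + Real.log C3) 12 C c ep e1 J m)
    (h4 : S4at G ok Φ K Ca (c1 / 2) ep e1 J δ d Cst m) :
    PerAt G ok Φ kapw K2 C c (1 / 10) (12 + 6) c1 Ca ep e1 J δ d Cst m := by
  intro n g aX aY ν Qe hn hσ haX haY hq hν hnear hQe hpin i hok w Bw hBw hw0 hwB N hN b' hb' r hr O W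
  -- the end of the window
  obtain ⟨T1, hT1⟩ : ∃ T1, T1 = T1R ep e1 m O 0 := ⟨_, rfl⟩
  have hexc0 := excS_nonneg (TW ep e1 m) O
  have hT1E : TW ep e1 m ≤ T1 := by
    rw [hT1]
    unfold T1R
    linarith [le_max_left (excS (TW ep e1 m) O) 0]
  have hT1O : ∀ i, |ht (O i)| ≤ T1 := by
    intro i
    have h1 := excS_ge (TW ep e1 m) O i
    have h2 := le_max_left (excS (TW ep e1 m) O) 0
    rw [hT1]
    unfold T1R
    linarith
  have hQ := hpin T1 hT1E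
  -- the prefactor
  obtain ⟨EE, hEE⟩ : ∃ EE, EE = 1 / 2 * (∑ d, ∑ d', ES (TG (fun i => (g i).pin T1) d)
    (TG (fun i => (g i).pin T1) d')) := ⟨_, rfl⟩
  obtain ⟨ct, hct⟩ : ∃ ct, ct = cstF T1 g true := ⟨_, rfl⟩
  set es : Fin r → ℝ := fun i => ∑ d, ES (obSr (NUSea.O.par0 m).jL (NUSea.O.par0 m).e (O i))
    (TG (fun i => (g i).pin T1) d) - ct * (sg (NUO.sp (O i)) * kq (kd (O i))) with hes
  obtain ⟨mp, hmp⟩ : ∃ mp, mp = (m : ℝ) ^ (Ca * (ep + e1) + δ) := ⟨_, rfl⟩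
  have hmp0 : 0 ≤ mp := by
    rw [hmp]
    positivity
  obtain ⟨gn, hgn⟩ : ∃ gn : ℝ, gn = Real.exp (-gnF e1 J m g) := ⟨_, rfl⟩
  have hgn0 : 0 ≤ gn := by
    rw [hgn]
    exact (Real.exp_pos _).le
  obtain ⟨Qp, hQp⟩ : ∃ Qp : ℝ, Qp = prefR G m g 0 0 Cst * mp * gn *
    Real.exp (EE + ct * ((aX : ℝ) - aY)) := ⟨_, rfl⟩
  have hpref := prefR_nonneg (G := G) (m := m) (g := g) (E := 0) (x := 0) hCst
  have hQp0 : 0 ≤ Qp := by
    rw [hQp]
    positivity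
  have hQpQ : Qp ≤ Cst * Real.exp ((m : ℝ) ^ 2 * G.EM) * mp *
      Real.exp (m * ∑ i, G.MF (g i).c (g i).w) * gn * Qe := by
    have e1 : Qp = Cst * Real.exp ((m : ℝ) ^ 2 * G.EM) * mp *
        Real.exp (m * ∑ i, G.MF (g i).c (g i).w) * gn *
        Real.exp (enQ g aX aY 0 0 T1) := by
      rw [hQp]
      unfold prefR enQ
      rw [← hEE, ← hct, mul_zero, mul_zero, add_zero, add_zero, Real.exp_zero]
      ring
    rw [e1]
    refine mul_le_mul_of_nonneg_left hQ ?_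
    positivity
  -- the weight with the tilt
  obtain ⟨φ, hφ⟩ : ∃ φ : (a b : ℕ) → (Fin a → ℝ) × (Fin b → ℝ) → ℝ≥0∞,
    φ = fun a b x => ENNReal.ofReal (Real.exp (b' * (ν - N))) *
      (ENNReal.ofReal (w r O) * Φ i N r O a b x) := ⟨_, rfl⟩
  have hleft : ENNReal.ofReal (Real.exp (b' * (ν - N))) *
      FnI ((G.B m (4 / 3 * (1 - ep))).mul (spF g)) (NUSea.O.par0 m) (etaC e1 J m m)
        (etaC' e1 J m m) (N + aX) (N + aY) O
        (fun a b x => ENNReal.ofReal (w r O) * Φ i N r O a b x) =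
      FnI ((G.B m (4 / 3 * (1 - ep))).mul (spF g)) (NUSea.O.par0 m) (etaC e1 J m m)
        (etaC' e1 J m m) (N + aX) (N + aY) O φ := by
    rw [hφ]
    exact (FnI_const _ _ _ _ _ _ O ENNReal.ofReal_ne_top _).symm
  have hBn : ((G.B m (4 / 3 * (1 - ep))).mul (spF g)).Nn := fun a u =>
    mul_nonneg (hB _ _ a u) (spFR_nonneg g a u)
  have key := hper (c1 / 2) kapw (by linarith) ((G.B m (4 / 3 * (1 - ep))).mul (spF g)) hBn (NUSea.O.par0 m) rfl rfl rfl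
    (fun r t => (NUSea.O.rad0_pos _ r t).le) r (NUSea.O.small_par0 _ r) O (etaC e1 J m m)
    (etaC' e1 J m m) (N + aX) (N + aY) φ (fun i => G.one m ep e1 J r O i + es i)
    (fun i => gT e1 (Real.log m) (ht (O i)))
    (fun i => act C 1 c (1 / 10) (12 + 6) (Real.log m) ep e1 J r (ht (O i))) Qp Bw (w r O) hQp0
    (hw0 r O) hBw (hwB r O) (fun i => ?_) (fun k1 k2 => ?_) W
  · show ENNReal.ofReal (Real.exp (b' * (ν - N))) *
      FnI ((G.B m (4 / 3 * (1 - ep))).mul (spF g)) (NUSea.O.par0 m) (etaC e1 J m m)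
        (etaC' e1 J m m) (N + aX) (N + aY) O
        (fun a b x => ENNReal.ofReal (w r O) * Φ i N r O a b x) ≤ _
    rw [hleft]
    refine key.trans (ENNReal.ofReal_le_ofReal ?_)
    have hact0 : 0 ≤ ∏ i, act C 1 c (1 / 10) (12 + 6) (Real.log m) ep e1 J r (ht (O i)) :=
      prod_nonneg fun i _ => act_nonneg hC.le zero_le_one (log_nn m)
    have g4 : (if (r : ℝ) ≤ Real.log m then (1 : ℝ) else Real.exp (0 * Real.log m)) = 1 := by
      split_ifs
      · rfl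
      · rw [zero_mul, Real.exp_zero]
    rw [g4, mul_one, ← hmp, ← hgn]
    refine mul_le_mul_of_nonneg_right ?_ (Real.exp_pos _).le
    exact mul_le_mul_of_nonneg_right (mul_le_mul_of_nonneg_left hQpQ hBw) hact0
  · -- the one body bounds
    have h := hspec (NUSea.O.par0 m) rfl rfl r (NUSea.O.small_par0 _ r) O i T1 (hT1O i) n g hn
    rw [← hct] at h
    have h' : facL (spF g) (NUO.cons (NUSea.O.par0 m) O i) * Real.exp (es i) ≤ C3 := h
    have h0 : 0 ≤ facL (spF g) (NUO.cons (NUSea.O.par0 m) O i) := facL_nonneg (spFR_nonneg g) _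
    have h2 := hone r O i
    have hob : ob1c ((G.B m (4 / 3 * (1 - ep))).mul (spF g)) (NUSea.O.par0 m).jL
        (ei (NUSea.O.par0 m) O i) (rr (NUSea.O.par0 m) O i) (O i) =
        ob1c (G.B m (4 / 3 * (1 - ep))) (NUSea.O.par0 m).jL
          (ei (NUSea.O.par0 m) O i) (rr (NUSea.O.par0 m) O i) (O i) *
          facL (spF g) (NUO.cons (NUSea.O.par0 m) O i) := ob1c_mul _ _ _ _ _ _
    have ho : 0 ≤ ob1c (G.B m (4 / 3 * (1 - ep))) (NUSea.O.par0 m).jL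
        (ei (NUSea.O.par0 m) O i) (rr (NUSea.O.par0 m) O i) (O i) :=
      ob1c_nonneg (hB _ _) _ _ (NUSea.O.rad0_pos _ _ _).le _
    have hcol : 0 ≤ colK (((r : ℝ) + 1) ^ 12) (kd (O i)) := by
      have : (0 : ℝ) ≤ ((r : ℝ) + 1) ^ 12 := by positivity
      cases kd (O i) <;> simp only [colK] <;> first | exact this | exact zero_le_one
    rw [hob]
    obtain ⟨o1, ho1⟩ : ∃ o1, o1 = ob1c (G.B m (4 / 3 * (1 - ep))) (NUSea.O.par0 m).jL
          (ei (NUSea.O.par0 m) O i) (rr (NUSea.O.par0 m) O i) (O i) := ⟨_, rfl⟩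
    obtain ⟨f1, hf1⟩ : ∃ f1, f1 = facL (spF g) (NUO.cons (NUSea.O.par0 m) O i) := ⟨_, rfl⟩
    obtain ⟨cl, hcl⟩ : ∃ cl, cl = colK (((r : ℝ) + 1) ^ 12) (kd (O i)) := ⟨_, rfl⟩
    rw [← ho1, ← hcl] at h2
    rw [← hf1] at h' h0
    rw [← ho1] at ho
    rw [← hcl] at hcol
    rw [← ho1, ← hf1, ← hcl]
    calc o1 * f1 * Real.exp (G.one m ep e1 J r O i + es i + K') * cl
        = o1 * (f1 * Real.exp (es i)) * Real.exp (G.one m ep e1 J r O i + K') * cl := by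
          rw [show G.one m ep e1 J r O i + es i + K' = es i + (G.one m ep e1 J r O i + K') by ring,
            Real.exp_add (es i)]
          ring
      _ ≤ o1 * C3 * Real.exp (G.one m ep e1 J r O i + K') * cl := by gcongr
      _ = o1 * Real.exp (G.one m ep e1 J r O i + (K' + Real.log C3)) * cl := by
          rw [show G.one m ep e1 J r O i + (K' + Real.log C3) =
            (G.one m ep e1 J r O i + K') + Real.log C3 by ring, Real.exp_add _ (Real.log C3),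
            Real.exp_log (by linarith)]
          ring
      _ ≤ _ := h2
  · -- the gas
    have hR : RgR ep e1 m g aX aY ν N O 0 0 :=
      ⟨hn, hσ, haX, haY, hq, hν, hN, hr, k1, k2, le_rfl, fun i => by
        right
        right
        rw [add_zero]
        exact hnear i, le_rfl, fun i => by
        rw [← hT1]
        unfold NUSp.exc
        exact max_le (by linarith [hnear i]) le_rfl⟩
    have h5 := h4 n g aX aY ν N b' r O hb' hR hnear i hok
    rw [← hT1] at h5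
    have hpq : (((N + aX - chgO O true : ℕ) : ℝ) - ((N + aY - chgO O false : ℕ) : ℝ)) =
        ((aX : ℝ) - aY) - ∑ i, sg (NUO.sp (O i)) * kq (kd (O i)) := by
      rw [NUH0.sum_kq, Nat.cast_sub k1, Nat.cast_sub k2]
      push_cast
      ring
    have henG : enR m g O T1 (N + aX - chgO O true) (N + aY - chgO O false) =
        ∑ i, es i + (EE + ct * ((aX : ℝ) - aY)) := by
      unfold enR
      rw [hpq, hes, sum_sub_distrib, ← mul_sum, ← hEE, ← hct]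
      ring
    have hexp : prefR G m g 0 0 Cst * mp * gn * Real.exp (confR G m ep e1 J K (c1 / 2) O +
        enR m g O T1 (N + aX - chgO O true) (N + aY - chgO O false)) =
        Qp * Real.exp (∑ i, (G.one m ep e1 J r O i + es i) + K * r + enC O +
          c1 / 2 * win univ fun i => ht (O i)) := by
      rw [henG, hQp, mul_assoc _ (Real.exp _) (Real.exp _), ← Real.exp_add, sum_add_distrib]
      congr 2
      unfold confR
      ring
    rw [← hmp, ← hgn, hexp] at h5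
    have e1 : gasI ((G.B m (4 / 3 * (1 - ep))).mul (spF g)) (NUSea.O.par0 m) (etaC e1 J m m)
        (etaC' e1 J m m) O (N + aX - chgO O true) (N + aY - chgO O false)
        (φ (N + aX - chgO O true) (N + aY - chgO O false)) =
        ENNReal.ofReal (w r O) * lhsI G ep e1 J m g aX aY ν N b' O (Φ i N) := by
      rw [hφ]
      unfold lhsI
      have e2 := gasI_const ((G.B m (4 / 3 * (1 - ep))).mul (spF g)) (NUSea.O.par0 m)
        (etaC e1 J m m) (etaC' e1 J m m) O (N + aX - chgO O true) (N + aY - chgO O false)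
        (c := ENNReal.ofReal (Real.exp (b' * (ν - N)))) ENNReal.ofReal_ne_top
        (fun x => ENNReal.ofReal (w r O) *
          Φ i N r O (N + aX - chgO O true) (N + aY - chgO O false) x)
      have e3 := gasI_const ((G.B m (4 / 3 * (1 - ep))).mul (spF g)) (NUSea.O.par0 m)
        (etaC e1 J m m) (etaC' e1 J m m) O (N + aX - chgO O true) (N + aY - chgO O false)
        (c := ENNReal.ofReal (w r O)) ENNReal.ofReal_ne_top
        (Φ i N r O (N + aX - chgO O true) (N + aY - chgO O false))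
      rw [e3] at e2
      refine e2.trans ?_
      ring
    rw [e1, ENNReal.ofReal_mul (hw0 r O)]
    exact mul_le_mul' le_rfl h5

end config

section classWW

open NUGC PBO PBF PotH PBR PBI
open NUO NUP1 NUCR NUP1S NUP1S.Ab NUP1S.AbC NUP1S.AbG NURow NUP1.Leg NUStabP NUDispW
open NUSea.H0 (Gd)
open NUSp (qc)
open PBP (gT)

/-- the sum over the objects and over the numbers of quanta (`PBI.fe_sum`), one `L`, explicit constants -/
def SumB (C c b c1 : ℝ) (k : ℕ) (δ a0 L : ℝ) : Prop :=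
  ∀ ep : ℝ, 0 ≤ ep → ep ≤ 1 / 100 →
      ∀ e1 : ℝ, 0 < e1 → e1 ≤ 1 / 4 → ∀ J : ℝ, 0 ≤ J →
      Real.exp (-(2 * Real.pi * J)) + 3 * e1 + 3 * ep ≤ a0 →
      ∀ (ν d Q : ℝ) (N aX aY : ℕ) (Z : Bool → Option O3 → ℂ → ℂ) (B : OB) (P : NUO.Par)
        (κ x0 : ℝ) (Qz : ℤ) (E : Set ℝ) (η η' : ℕ → Crs) (φ : ℕ → InsE), 0 < d → 0 ≤ Q →
      ((2 * N + (aX + aY) + 1 : ℕ) : ℝ) ≤ Real.exp (2 * L) →
      OneC Z B P ep κ x0 Qz E → GoodP P → (∀ n ≤ N, ∀ r O, CurB ep (η n r O) (η' n r O)) →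
      PerI C 1 c b k c1 0 L ep e1 J ν d N B P aX aY η η' φ Q →
      ∑ n ∈ range (N + 1), FE Z P (n + aX) (n + aY) (η n) (η' n) (φ n) ≤
        ENNReal.ofReal (4 * (1 + 1 / d) * (Q * Real.exp (δ * L)))

/-- the group of two half quanta (`NUGC.grp_QX`), explicit constant -/
def GrpB (K3 : ℝ) : Prop := ∀ (g : Fin 2 → Gd), (g 0).σ = true → (g 1).σ = false →
    (∀ i, (g i).c ≠ NUSp.Cl.d) → ∀ T T1 : ℝ, 0 ≤ T → T ≤ T1 →
    (∀ i, (g i).c = NUSp.Cl.w ∨ |(g i).τ| ≤ T1) →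
    Real.exp (1 / 2 * (∑ d, ∑ d', ES (NUSea.H0.TG (fun i => (g i).pin T1) d)
        (NUSea.H0.TG (fun i => (g i).pin T1) d')) +
      NUSea.H0.cstF T1 g true * (-∑ i, NUC43.sg (g i).σ * qc (g i).c / 2) +
      37 / 20 * max (xs T1 (g 0).τ) (xs T1 (g 1).τ) +
      12 / 5 * max (ex T (qc (g 0).c) (g 0).τ) (ex T (qc (g 1).c) (g 1).τ)) ≤
    Real.exp K3 * QX T (qc (g 0).c) (qc (g 1).c) (g 0).τ (g 1).τ

/-- **the class `W1 W1'` at fixed half quanta, the gas side**, one size, explicit constants -/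
theorem gasAt [NUSea.Sea] {G : Geo} {K3 : ℝ} (hQ2 : GrpB K3) {C c b c1 kapw K2 Ca δ ep e1 J d Cst a0 : ℝ}
    {k : ℕ} (hep : 0 < ep) (hep1 : ep ≤ 1 / 100) (he1 : 0 < e1) (he11 : e1 ≤ 1 / 100) (hJ : 0 ≤ J)
    (hsm : Real.exp (-(2 * Real.pi * J)) + 3 * e1 + 3 * ep ≤ a0) (hd : 0 < d) (hCst : 0 ≤ Cst)
    {ι : Type*} {ok : ι → Prop} {Φ : ι → ℕ → InsE} {m : ℕ} (hM5 : 5 ≤ m)
    (hsum : SumB C c b c1 k (δ / 2) a0 (Real.log m))
    (hcurm : CurB ep (etaC e1 J m m) (etaC' e1 J m m))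
    (hper : PerAt G ok Φ kapw K2 C c b k c1 Ca ep e1 J (δ / 2) d Cst m)
    (X : Bool → Option O3 → ℂ → ℂ) (κ : ℝ) (E0 : Set ℝ)
    (hX : Bs X (fun g => (G.B m (beC ep)).mul g) (NUSea.O.par0 m) ep κ E0)
    (y : ℝ × ℝ) (hy1 : |y.1| ≤ TW ep e1 m) (hy2 : |y.2| ≤ TW ep e1 m) (i : ι) (hok : ok i)
    (w : (r : ℕ) → (Fin r → Xo) → ℝ) (Bw : ℝ) (hBw : 0 ≤ Bw) (hw0 : ∀ r O, 0 ≤ w r O)
    (hwB : ∀ (r : ℕ) (O : Fin r → Xo), w r O ≤ Bw * Real.exp (K2 * r) *
          Real.exp (∑ i, gT e1 (Real.log m) (ht (O i))) *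
          Real.exp (kapw * win univ fun i => ht (O i))) :
      ∑ N ∈ range (2 * m + 1), FE (ZW X y) (NUSea.O.par0 m) N N (fun _ _ => etaC e1 J m m)
          (fun _ _ => etaC' e1 J m m) (fun r O a b x => ENNReal.ofReal (w r O) *
            Φ i N r O a b x) ≤
        ENNReal.ofReal (Bw * (4 * (1 + 1 / d) * (Cst * Real.exp K3) *
          (m : ℝ) ^ (Ca * (ep + e1) + δ) *
          Real.exp ((m : ℝ) ^ 2 * G.EM) *
          (Real.exp (m * G.MF .w (vl (htL .W) y.1)) * Real.exp (m * G.MF .w (vl (htL .W) y.2))) *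
          Real.exp (-gnP e1 J m (-(3 * NUMF.l)) (-(3 * NUMF.l)) y) *
          Real.exp (|y.1 - y.2| / 2))) := by
  have hmp : (0 : ℝ) < m := by
    have : 0 < m := by omega
    exact_mod_cast this
  have hTW0 : 0 ≤ TW ep e1 m := (abs_nonneg _).trans hy1
  have key := hper 2 (gdK .W .W (false, false) y) 0 0 m
    (Real.exp K3 * QX (TW ep e1 m) (qh .W false) (qh .W false) y.1 y.2) le_rfl
    (by
      intro i j hij
      fin_cases i <;> fin_cases j
      · exact absurd rfl hij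
      · show true ≠ false
        simp
      · show false ≠ true
        simp
      · exact absurd rfl hij)
    (by norm_num) (by norm_num)
    (by
      rw [Fin.sum_univ_two]
      show ((0 : ℕ) : ℝ) - ((0 : ℕ) : ℝ) = -(NUC43.sg true * qc (clh .W false) / 2 +
        NUC43.sg false * qc (clh .W false) / 2)
      unfold NUC43.sg
      simp only [if_true, Bool.false_eq_true, if_false, Nat.cast_zero]
      ring)
    (by
      rw [sub_self, abs_zero]
      norm_num)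
    (by
      intro i
      fin_cases i
      · exact hy1
      · exact hy2)
    (mul_nonneg (Real.exp_pos _).le (QX_nonneg _ _ _ _ _))
    (by
      intro T1 hT1
      have k1 := hQ2 (gdK .W .W (false, false) y) rfl rfl (by
        intro i
        fin_cases i <;> simp [gdK, clh]) (TW ep e1 m) T1 hTW0 hT1 (by
        intro i
        left
        fin_cases i <;> rfl)
      refine le_trans (le_of_eq ?_) k1
      unfold enQ
      congr 1
      have x1 : xs T1 y.1 = 0 := by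
        unfold xs
        exact max_eq_right (by linarith)
      have x2 : xs T1 y.2 = 0 := by
        unfold xs
        exact max_eq_right (by linarith)
      show _ = 1 / 2 * _ + NUSea.H0.cstF T1 (gdK .W .W (false, false) y) true *
        (-∑ i, NUC43.sg ((gdK .W .W (false, false) y) i).σ *
          qc ((gdK .W .W (false, false) y) i).c / 2) + 37 / 20 * max (xs T1 y.1) (xs T1 y.2) +
        12 / 5 * max (ex (TW ep e1 m) (qc (clh .W false)) y.1)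
          (ex (TW ep e1 m) (qc (clh .W false)) y.2)
      have x3 : ∀ τ, ex (TW ep e1 m) (qc (clh .W false)) τ = 0 := by
        intro τ
        unfold ex
        rw [if_pos]
        simp [clh, qc]
      have x4 : (∑ i, NUC43.sg ((gdK .W .W (false, false) y) i).σ *
          qc ((gdK .W .W (false, false) y) i).c / 2) = 0 := by
        rw [Fin.sum_univ_two]
        show NUC43.sg true * qc (clh .W false) / 2 +
          NUC43.sg false * qc (clh .W false) / 2 = 0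
        unfold NUC43.sg
        simp only [if_true, Bool.false_eq_true, if_false]
        ring
      rw [x1, x2, x3, x3, x4]
      simp)
    i hok w Bw hBw hw0 hwB
  have hgnF : gnF e1 J m (gdK .W .W (false, false) y) =
      gnP e1 J m (-(3 * NUMF.l)) (-(3 * NUMF.l)) y := by
    unfold gnF gnP
    rw [Fin.sum_univ_two]
    show 12 * NUMF.l * NUGC.hC e1 J m 0 + (2 * (phC .w * NUGC.hC e1 J m y.1) +
      2 * (phC .w * NUGC.hC e1 J m y.2)) = _
    unfold phC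
    ring
  have hMF : ∑ i, G.MF (gdK .W .W (false, false) y i).c (gdK .W .W (false, false) y i).w =
      G.MF .w (vl (htL .W) y.1) + G.MF .w (vl (htL .W) y.2) := by
    rw [Fin.sum_univ_two, ← w_gd true .W false y.1, ← w_gd false .W false y.2]
    rfl
  have hqh : qh .W false = 1 := by simp [qh, clh, qc]
  rw [hgnF, hMF, hqh, QX_ww hy1 hy2] at key
  have key2 := PerI.congr (B' := (G.B m (beC ep)).mul (gW y)) (parM_par0 m).1 (parM_par0 m).2.1
    (NUSea.O.par0_e _) (fun a z hz => gW_eq (G.B m (beC ep)) y a hz) rfl rfl hep1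
    (fun n _ r O => hcurm) key
  have hnum : ((2 * (2 * m) + (0 + 0) + 1 : ℕ) : ℝ) ≤ Real.exp (2 * Real.log m) := by
    have e : Real.exp (2 * Real.log m) = (m : ℝ) * m := by
      rw [two_mul, Real.exp_add, Real.exp_log hmp]
    rw [e]
    have : 2 * (2 * m) + (0 + 0) + 1 ≤ m * m := by nlinarith
    exact_mod_cast this
  have hone := oneC_WW hX y
  have h5 := hsum ep hep.le hep1 e1 he1 (by linarith) J hJ hsm m d _ (2 * m) 0 0
    (ZW X y) ((G.B m (beC ep)).mul (gW y)) (NUSea.O.par0 m) κ (19 / 20 * l) 0 _ _ _ _ hd ?_ hnum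
    hone (parM_par0 m).1.goodP (fun n _ r O => hcurm) key2
  swap
  · positivity
  simp only [add_zero] at h5
  refine h5.trans (ENNReal.ofReal_le_ofReal (le_of_eq ?_))
  have hm1' : 1 ≤ m := by omega
  rw [exp_log_mul hm1']
  have hpow : (m : ℝ) ^ (Ca * (ep + e1) + δ) =
      (m : ℝ) ^ (Ca * (ep + e1) + δ / 2) * (m : ℝ) ^ (δ / 2) := by
    rw [← Real.rpow_add hmp]
    congr 1
    ring
  rw [hpow, mul_add (m : ℝ), Real.exp_add ((m : ℝ) * G.MF .w (vl (htL .W) y.1))]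
  ring

/-- **the class `W1 W1'` at fixed half quanta, with the kernels (U5N)**, one size `m`, the constants
explicit -/
def TopAt [NUSea.Sea] (G : Geo) {ι : Type*} (ok : ι → Prop) (Φ : ι → ℕ → InsE)
    (kapw K2 e ep e1 J Cst : ℝ) (m : ℕ) : Prop :=
  ∀ (X : Bool → Option O3 → ℂ → ℂ) (κ : ℝ) (E0 : Set ℝ),
      Bs X (fun g => (G.B m (beC ep)).mul g) (NUSea.O.par0 m) ep κ E0 →
      ∀ y : ℝ × ℝ, |y.1| ≤ TW ep e1 m → |y.2| ≤ TW ep e1 m → ∀ i : ι, ok i →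
      ∀ (w : (r : ℕ) → (Fin r → Xo) → ℝ) (Bw : ℝ), 0 ≤ Bw → (∀ r O, 0 ≤ w r O) →
      (∀ (r : ℕ) (O : Fin r → Xo), w r O ≤ Bw * Real.exp (K2 * r) *
          Real.exp (∑ i, gT e1 (Real.log m) (ht (O i))) *
          Real.exp (kapw * win univ fun i => ht (O i))) →
      ∀ C0 Cg k1 k2 gg : ℝ, 0 ≤ C0 → 0 ≤ k1 → 0 ≤ k2 → 0 ≤ gg →
      k1 * Real.exp (m * G.MF .w (vl (htL .W) y.1)) ≤ C0 * Real.exp (-|y.1|) →
      k2 * Real.exp (m * G.MF .w (vl (htL .W) y.2)) ≤ C0 * Real.exp (-|y.2|) →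
      gg ≤ Cg * Real.exp (-|y.1 - y.2|) →
      ENNReal.ofReal (k1 * k2 * gg) *
        ∑ N ∈ range (2 * m + 1), FE (ZW X y) (NUSea.O.par0 m) N N (fun _ _ => etaC e1 J m m)
          (fun _ _ => etaC' e1 J m m) (fun r O a b x => ENNReal.ofReal (w r O) *
            Φ i N r O a b x) ≤
        ENNReal.ofReal (C0 * C0 * Cg * Bw * (Cst * (m : ℝ) ^ e * Real.exp ((m : ℝ) ^ 2 * G.EM) *
          Real.exp (-(2 * |y.1| + 2 * |y.2| + |y.1 - y.2| / 2))))

theorem topAt [NUSea.Sea] {G : Geo} {K3 : ℝ} (hQ2 : GrpB K3) {C c b c1 kapw K2 Ca e ep e1 J d Cst a0 : ℝ}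
    {k : ℕ} (hCa : 0 ≤ Ca) (he : 0 < e) (hep : 0 < ep) (b1 : ep ≤ 1 / 100)
    (b3 : ep ≤ e / (4 * (Ca + 3))) (he1 : 0 < e1) (c1' : e1 ≤ 1 / 100)
    (c3 : e1 ≤ e / (4 * (Ca + 3))) (hJ : 0 ≤ J)
    (hsm : Real.exp (-(2 * Real.pi * J)) + 3 * e1 + 3 * ep ≤ a0) (hd : 0 < d) (hCst : 0 ≤ Cst)
    {ι : Type*} {ok : ι → Prop} {Φ : ι → ℕ → InsE} {m : ℕ} (hM5 : 5 ≤ m)
    (hL60 : (60 : ℝ) ≤ Real.log m)
    (hsum : SumB C c b c1 k (e / 2 / 2) a0 (Real.log m))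
    (hcurm : CurB ep (etaC e1 J m m) (etaC' e1 J m m))
    (hper : PerAt G ok Φ kapw K2 C c b k c1 Ca ep e1 J (e / 2 / 2) d Cst m) :
    TopAt G ok Φ kapw K2 e ep e1 J (4 * (1 + 1 / d) * (Cst * Real.exp K3) * Real.exp 20) m := by
  have hm1 : 1 ≤ m := by omega
  have hmp : (0 : ℝ) < m := by exact_mod_cast hm1
  have hm1' : (1 : ℝ) ≤ m := by exact_mod_cast hm1
  have hTb : Tb (Real.log m) = 3 / 8 * Real.log m := rfl
  have hT : 20 ≤ Tb (Real.log m) := by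
    rw [hTb]
    linarith
  intro X κ E0 hX y hy1 hy2 i hok w Bw hBw hw0 hwB C0 Cg k1 k2 gg hC0 hk1 hk2 hgg h1 h2 h3
  have hCg : 0 ≤ Cg := by
    have := hgg.trans h3
    exact nonneg_of_mul_nonneg_left this (Real.exp_pos _)
  have key := gasAt hQ2 hep b1 he1 c1' hJ hsm hd hCst hM5 hsum hcurm hper X κ E0 hX y hy1 hy2 i hok w
    Bw hBw hw0 hwB
  obtain ⟨Cst, hCC⟩ : ∃ C', C' = 4 * (1 + 1 / d) * (Cst * Real.exp K3) := ⟨_, rfl⟩
  have hCst : 0 ≤ Cst := by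
    rw [hCC]
    positivity
  rw [← hCC] at key ⊢
  have hgn := gnP_near he1 c1' hJ hT hep.le hy1 hy2
  refine (mul_le_mul' le_rfl key).trans ?_
  rw [← ENNReal.ofReal_mul (by positivity)]
  refine ENNReal.ofReal_le_ofReal ?_
  obtain ⟨E1, hE1⟩ : ∃ E1, E1 = Real.exp (m * G.MF .w (vl (htL .W) y.1)) := ⟨_, rfl⟩
  obtain ⟨E2, hE2⟩ : ∃ E2, E2 = Real.exp (m * G.MF .w (vl (htL .W) y.2)) := ⟨_, rfl⟩
  obtain ⟨X0, hX0⟩ : ∃ X0, X0 = Real.exp ((m : ℝ) ^ 2 * G.EM) := ⟨_, rfl⟩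
  rw [← hE1] at h1 ⊢
  rw [← hE2] at h2 ⊢
  rw [← hX0]
  have hE10 : 0 ≤ E1 := by
    rw [hE1]
    exact (Real.exp_pos _).le
  have hE20 : 0 ≤ E2 := by
    rw [hE2]
    exact (Real.exp_pos _).le
  have hX00 : 0 ≤ X0 := by
    rw [hX0]
    exact (Real.exp_pos _).le
  have hp0 : 0 ≤ (m : ℝ) ^ (Ca * (ep + e1) + e / 2) := by positivity
  have hk : k1 * E1 * (k2 * E2) * gg ≤ (C0 * Real.exp (-|y.1|)) * (C0 * Real.exp (-|y.2|)) *
      (Cg * Real.exp (-|y.1 - y.2|)) :=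
    mul_le_mul (mul_le_mul h1 h2 (by positivity) (by positivity)) h3 hgg (by positivity)
  -- the gain
  have hgain : Real.exp (-gnP e1 J m (-(3 * NUMF.l)) (-(3 * NUMF.l)) y) ≤
      Real.exp 20 * Real.exp (-|y.1| - |y.2|) * (m : ℝ) ^ (9 / 4 * (ep + e1)) := by
    rw [← exp_log_mul hm1, ← Real.exp_add, ← Real.exp_add]
    refine Real.exp_le_exp.2 ?_
    have : (6 * e1 + 4 * ep) * Tb (Real.log m) ≤ 9 / 4 * (ep + e1) * Real.log m := by
      rw [hTb]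
      have : 0 ≤ Real.log m := by linarith
      nlinarith [mul_nonneg hep.le this, mul_nonneg he1.le this]
    linarith
  have hpow : (m : ℝ) ^ (Ca * (ep + e1) + e / 2) * (m : ℝ) ^ (9 / 4 * (ep + e1)) ≤ (m : ℝ) ^ e := by
    rw [← Real.rpow_add hmp]
    refine Real.rpow_le_rpow_of_exponent_le hm1' ?_
    have h4 : ep + e1 ≤ e / (2 * (Ca + 3)) := by
      have : e / (2 * (Ca + 3)) = e / (4 * (Ca + 3)) + e / (4 * (Ca + 3)) := by
        field_simp
        norm_num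
      linarith
    rw [le_div_iff₀ (by positivity)] at h4
    nlinarith
  have hexp : Real.exp (-|y.1|) * Real.exp (-|y.2|) * Real.exp (-|y.1 - y.2|) *
      Real.exp (-|y.1| - |y.2|) * Real.exp (|y.1 - y.2| / 2) =
      Real.exp (-(2 * |y.1| + 2 * |y.2| + |y.1 - y.2| / 2)) := by
    rw [← Real.exp_add, ← Real.exp_add, ← Real.exp_add, ← Real.exp_add]
    congr 1
    ring
  calc k1 * k2 * gg * (Bw * (Cst * (m : ℝ) ^ (Ca * (ep + e1) + e / 2) * X0 * (E1 * E2) *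
        Real.exp (-gnP e1 J m (-(3 * NUMF.l)) (-(3 * NUMF.l)) y) * Real.exp (|y.1 - y.2| / 2)))
      = Bw * (k1 * E1 * (k2 * E2) * gg) * (Cst * (m : ℝ) ^ (Ca * (ep + e1) + e / 2) * X0) *
        Real.exp (-gnP e1 J m (-(3 * NUMF.l)) (-(3 * NUMF.l)) y) *
        Real.exp (|y.1 - y.2| / 2) := by ring
    _ ≤ Bw * ((C0 * Real.exp (-|y.1|)) * (C0 * Real.exp (-|y.2|)) *
        (Cg * Real.exp (-|y.1 - y.2|))) * (Cst * (m : ℝ) ^ (Ca * (ep + e1) + e / 2) * X0) *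
        (Real.exp 20 * Real.exp (-|y.1| - |y.2|) * (m : ℝ) ^ (9 / 4 * (ep + e1))) *
        Real.exp (|y.1 - y.2| / 2) := by gcongr
    _ = C0 * C0 * Cg * Bw * (Cst * Real.exp 20 *
        ((m : ℝ) ^ (Ca * (ep + e1) + e / 2) * (m : ℝ) ^ (9 / 4 * (ep + e1))) * X0 *
        (Real.exp (-|y.1|) * Real.exp (-|y.2|) * Real.exp (-|y.1 - y.2|) *
      Real.exp (-|y.1| - |y.2|) * Real.exp (|y.1 - y.2| / 2))) := by ring
    _ ≤ C0 * C0 * Cg * Bw * (Cst * Real.exp 20 * (m : ℝ) ^ e * X0 *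
        (Real.exp (-|y.1|) * Real.exp (-|y.2|) * Real.exp (-|y.1 - y.2|) *
      Real.exp (-|y.1| - |y.2|) * Real.exp (|y.1 - y.2| / 2))) := by gcongr
    _ = _ := by rw [hexp]

/-- uniform one body bounds of a family of seas and geometries (`OneRT`), sizes `m` with `P s m` -/
def OneF {σ : Type*} (S : σ → NUSea.Sea) (G : σ → Geo) (P : σ → ℕ → Prop) : Prop :=
  ∀ (K0 : ℝ) (k0 : ℕ), ∃ C c : ℝ, 0 < C ∧ 0 < c ∧
  ∀ ep : ℝ, 0 < ep → ep ≤ 1 / 100 → ∀ e1 : ℝ, 0 < e1 → e1 ≤ 1 / 100 → ∀ J : ℝ, 0 ≤ J →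
  ∃ m1 : ℕ, ∀ m ≥ m1, ∀ s : σ, P s m → @OneAt (S s) (G s) K0 k0 C c ep e1 J m

/-- uniform admissibility of the curves of a family of seas (`NUGC.curOKC`) -/
def CurF {σ : Type*} (S : σ → NUSea.Sea) (P : σ → ℕ → Prop) : Prop :=
  ∀ ep : ℝ, 0 < ep → ep ≤ 1 / 100 → ∀ e1 : ℝ, 0 < e1 → e1 ≤ 1 / 100 → ∀ J : ℝ, 0 ≤ J →
  ∃ m1 : ℕ, ∀ m ≥ m1, ∀ s : σ, P s m →
    CurB ep (@etaC (S s) e1 J m m) (@etaC' (S s) e1 J m m)

/-- **the gas bound at fixed parameters, uniform in a family of seas and geometries** -/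
def S4F {σ : Type*} (S : σ → NUSea.Sea) (G : σ → Geo) (P : σ → ℕ → Prop) {ι : Type*}
    (ok : σ → ℕ → ι → Prop)
    (Φ : σ → ι → ℕ → ℕ → InsE) (K Ca kap ep e1 J δ : ℝ) : Prop :=
  ∃ d Cst : ℝ, 0 < d ∧ 0 ≤ Cst ∧ ∃ m0 : ℕ, ∀ m ≥ m0, ∀ s : σ, P s m →
    @S4at (S s) (G s) ι (ok s m) (fun i => Φ s i m) K Ca kap ep e1 J δ d Cst m

/-- **the class `W1 W1'` at fixed half quanta for a family of seas**: one constant `c0 > 0` (absolute),
one threshold `κ0` and, at fixed parameters, one constant `Cst` and one `m0` for all members -/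
theorem topRF (hS : StabProd) : ∃ c0 : ℝ, 0 < c0 ∧ ∀ {σ : Type*} (S : σ → NUSea.Sea) (G : σ → Geo)
    (P : σ → ℕ → Prop),
    (∀ s m β, ((G s).B m β).Nn) → OneF S G P → CurF S P → ∀ K K2 kapw : ℝ, kapw ≤ c0 →
    ∀ {Ca : ℝ}, 0 ≤ Ca → ∀ {e : ℝ}, 0 < e →
    ∃ κ0 : ℝ, 0 < κ0 ∧ κ0 ≤ 1 / 100 ∧
      ∀ ep : ℝ, 0 < ep → ep ≤ κ0 → ∀ e1 : ℝ, 0 < e1 → e1 ≤ κ0 →
      ∀ J : ℝ, 0 ≤ J → Real.exp (-(2 * Real.pi * J)) ≤ κ0 →
      ∀ (ι : Type*) (ok : σ → ℕ → ι → Prop) (Φ : σ → ι → ℕ → ℕ → InsE),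
      S4F S G P ok Φ K Ca c0 ep e1 J (e / 4) →
      ∃ Cst : ℝ, 0 ≤ Cst ∧ ∃ m0 : ℕ, 5 ≤ m0 ∧ ∀ m ≥ m0, ∀ s : σ, P s m →
        CurB ep (@etaC (S s) e1 J m m) (@etaC' (S s) e1 J m m) ∧
        @TopAt (S s) (G s) ι (ok s m) (fun i => Φ s i m) kapw K2 e ep e1 J Cst m := by
  obtain ⟨c1, hc1, hper⟩ := perHW hS
  obtain ⟨C3, hC3, hspec⟩ := spec_pin
  obtain ⟨K3, hK3, hQ2⟩ := grp_QX
  refine ⟨c1 / 2, by positivity, ?_⟩
  intro σ S G P hB h1 hcur K K2 kapw hkapw Ca hCa e he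
  obtain ⟨K', hper⟩ := hper K K2
  obtain ⟨C, c, hC, hc, hone⟩ := h1 (K' + Real.log C3) 12
  obtain ⟨a0, ha0, hsum⟩ := fe_sum (k := 12 + 6) hC hc (b := 1 / 10) (by norm_num) hc1 le_rfl
    (δ := e / 2 / 2) (by positivity)
  obtain ⟨L0, hsum⟩ := hsum 1 zero_le_one
  refine ⟨min (1 / 100) (min (a0 / 7) (e / (4 * (Ca + 3)))), by positivity, min_le_left _ _, ?_⟩
  intro ep hep hep1 e1 he1 he11 J hJ hJ1 ι ok Φ h4
  have b1 : ep ≤ 1 / 100 := hep1.trans (min_le_left _ _)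
  have b2 : ep ≤ a0 / 7 := hep1.trans ((min_le_right _ _).trans (min_le_left _ _))
  have b3 : ep ≤ e / (4 * (Ca + 3)) := hep1.trans ((min_le_right _ _).trans (min_le_right _ _))
  have c1' : e1 ≤ 1 / 100 := he11.trans (min_le_left _ _)
  have c2 : e1 ≤ a0 / 7 := he11.trans ((min_le_right _ _).trans (min_le_left _ _))
  have c3 : e1 ≤ e / (4 * (Ca + 3)) := he11.trans ((min_le_right _ _).trans (min_le_right _ _))
  have d2 : Real.exp (-(2 * Real.pi * J)) ≤ a0 / 7 :=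
    hJ1.trans ((min_le_right _ _).trans (min_le_left _ _))
  obtain ⟨d, Cst, hd, hCst, M0, h4⟩ := h4
  obtain ⟨m2, hone⟩ := hone ep hep b1 e1 he1 c1' J hJ
  obtain ⟨m1, hcur⟩ := hcur ep hep b1 e1 he1 c1' J hJ
  obtain ⟨m3, hm3⟩ := Filter.eventually_atTop.1
    ((Real.tendsto_log_atTop.comp tendsto_natCast_atTop_atTop).eventually_ge_atTop
      (max L0 60))
  refine ⟨4 * (1 + 1 / d) * (Cst * Real.exp K3) * Real.exp 20, by positivity,
    max (max (max M0 m1) (max m2 m3)) 5, le_max_right _ _, fun m hm s hP => ?_⟩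
  have hq : max (max M0 m1) (max m2 m3) ≤ m := (le_max_left _ _).trans hm
  have hM0 : M0 ≤ m := ((le_max_left _ _).trans (le_max_left _ _)).trans hq
  have hM1 : m1 ≤ m := ((le_max_right _ _).trans (le_max_left _ _)).trans hq
  have hM2 : m2 ≤ m := ((le_max_left _ _).trans (le_max_right _ _)).trans hq
  have hM3 : m3 ≤ m := ((le_max_right _ _).trans (le_max_right _ _)).trans hq
  have hM5 : 5 ≤ m := (le_max_right _ _).trans hm
  have hL : max L0 60 ≤ Real.log m := hm3 m hM3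
  have hL0 : L0 ≤ Real.log m := (le_max_left _ _).trans hL
  have hL60 : (60 : ℝ) ≤ Real.log m := (le_max_right _ _).trans hL
  refine ⟨hcur m hM1 s hP, ?_⟩
  exact @topAt (S s) (G s) K3 hQ2 C c (1 / 10) c1 kapw K2 Ca e ep e1 J d Cst a0 (12 + 6) hCa he hep b1
    b3 he1 c1' c3 hJ (by linarith) hd hCst ι (ok s m) (fun i => Φ s i m) m hM5 hL60
    (fun ep hep hep' e1 he1 he1' J hJ hsm => hsum (Real.log m) hL0 ep hep hep' e1 he1 he1' J hJ hsm)
    (hcur m hM1 s hP)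
    (@perAt (S s) (G s) (hB s) c1 K K2 K' C3 hper hC3 hspec C c hC kapw hkapw ep e1 J (e / 2 / 2) Ca ι
      (ok s m) (fun i => Φ s i m) d Cst hCst m (hone m hM2 s hP)
      (by
        have := h4 m hM0 s hP
        rwa [show e / 4 = e / 2 / 2 by ring] at this))

/-- **the class `W1 W1'` at fixed half quanta, with the kernels (U5N)**: `k1`, `k2` = moduli of the own
kernels, `gg` = modulus of the direct factor; the weight of the objects may contain `exp (kapw win)`,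
the hypothesis on the gas is used at fixed parameters only -/
theorem topRW (hS : StabProd) : ∃ c0 : ℝ, 0 < c0 ∧ ∀ [NUSea.Sea] {G : Geo},
    (∀ m β, (G.B m β).Nn) →
    OneRT G → ∀ K K2 kapw : ℝ, kapw ≤ c0 →
    ∀ {Ca : ℝ}, 0 ≤ Ca → ∀ {e : ℝ}, 0 < e →
    ∃ κ0 : ℝ, 0 < κ0 ∧ κ0 ≤ 1 / 100 ∧
      ∀ ep : ℝ, 0 < ep → ep ≤ κ0 → ∀ e1 : ℝ, 0 < e1 → e1 ≤ κ0 →
      ∀ J : ℝ, 0 ≤ J → Real.exp (-(2 * Real.pi * J)) ≤ κ0 →
      ∀ (ι : Type*) (ok : ℕ → ι → Prop) (Φ : ι → ℕ → ℕ → InsE),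
      S4fix G ok Φ K Ca c0 ep e1 J (e / 4) →
      ∃ Cst : ℝ, 0 ≤ Cst ∧ ∃ m0 : ℕ, 5 ≤ m0 ∧ ∀ m ≥ m0,
      CurB ep (etaC e1 J m m) (etaC' e1 J m m) ∧
      ∀ (X : Bool → Option O3 → ℂ → ℂ) (κ : ℝ) (E0 : Set ℝ),
      Bs X (fun g => (G.B m (beC ep)).mul g) (NUSea.O.par0 m) ep κ E0 →
      ∀ y : ℝ × ℝ, |y.1| ≤ TW ep e1 m → |y.2| ≤ TW ep e1 m → ∀ i : ι, ok m i →
      ∀ (w : (r : ℕ) → (Fin r → Xo) → ℝ) (Bw : ℝ), 0 ≤ Bw → (∀ r O, 0 ≤ w r O) →
      (∀ (r : ℕ) (O : Fin r → Xo), w r O ≤ Bw * Real.exp (K2 * r) *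
          Real.exp (∑ i, gT e1 (Real.log m) (ht (O i))) *
          Real.exp (kapw * win univ fun i => ht (O i))) →
      ∀ C0 Cg k1 k2 gg : ℝ, 0 ≤ C0 → 0 ≤ k1 → 0 ≤ k2 → 0 ≤ gg →
      k1 * Real.exp (m * G.MF .w (vl (htL .W) y.1)) ≤ C0 * Real.exp (-|y.1|) →
      k2 * Real.exp (m * G.MF .w (vl (htL .W) y.2)) ≤ C0 * Real.exp (-|y.2|) →
      gg ≤ Cg * Real.exp (-|y.1 - y.2|) →
      ENNReal.ofReal (k1 * k2 * gg) *
        ∑ N ∈ range (2 * m + 1), FE (ZW X y) (NUSea.O.par0 m) N N (fun _ _ => etaC e1 J m m)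
          (fun _ _ => etaC' e1 J m m) (fun r O a b x => ENNReal.ofReal (w r O) *
            Φ i m N r O a b x) ≤
        ENNReal.ofReal (C0 * C0 * Cg * Bw * (Cst * (m : ℝ) ^ e * Real.exp ((m : ℝ) ^ 2 * G.EM) *
          Real.exp (-(2 * |y.1| + 2 * |y.2| + |y.1 - y.2| / 2)))) := by
  obtain ⟨c0, hc0, H⟩ := topRF hS
  refine ⟨c0, hc0, ?_⟩
  intro inst G hB h1 K K2 kapw hkapw Ca hCa e he
  obtain ⟨κ0, h0, h01, H⟩ := H (fun _ : Unit => inst) (fun _ => G) (fun _ _ => True) (fun _ => hB)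
    (fun K0 k0 => by
      obtain ⟨C, c, hC, hc, h⟩ := h1 K0 k0
      refine ⟨C, c, hC, hc, fun ep hep hep1 e1 he1 he11 J hJ => ?_⟩
      obtain ⟨m1, h⟩ := h ep hep hep1 e1 he1 he11 J hJ
      exact ⟨m1, fun m hm _ _ => h m hm⟩)
    (fun ep hep hep1 e1 he1 he11 J hJ => by
      obtain ⟨m1, -, h⟩ := curOKC he1 he11 hJ hep
      refine ⟨m1, fun m hm _ _ => h m hm _ ?_⟩
      have : (0 : ℝ) ≤ m := Nat.cast_nonneg m
      linarith) K K2 kapw hkapw hCa he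
  refine ⟨κ0, h0, h01, ?_⟩
  intro ep hep hep1 e1 he1 he11 J hJ hJ1 ι ok Φ h4
  obtain ⟨d, Cs, hd, hCs, M0, h4⟩ := h4
  obtain ⟨Cst, hCst, m0, hm0, H⟩ := H ep hep hep1 e1 he1 he11 J hJ hJ1 ι (fun _ => ok) (fun _ => Φ)
    ⟨d, Cs, hd, hCs, M0, fun m hm _ _ => h4 m hm⟩
  exact ⟨Cst, hCst, m0, hm0, fun m hm => H m hm () trivial⟩

end classWW

end Pool.Agent.IST

end
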