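import Pool.Agent.IST.S4B
import Pool.Agent.IST.TopRW
import Pool.Agent.PB.S4I0
import Pool.Agent.PB.UProps

/-!
# The sum over the configurations with a bounded potential of any place

A potential `ψ : Bool → ℝ → ℝ`, `C¹`, `|ψ| ≤ B0`, `∫ (ψ² + ψ'²) ≤ B0` (`RemOk B0 B0 ψ`): no decay, no
place, no neutrality.

* `bdΦ B0 C ψ`: its statistic `exp (ψ on the quanta - mean field value - C (1 + r))`, times `m ^ (-1/2)`;
* **`s4Bd`**: `PBI.S4K` for all these potentials; `S4K` serves every class;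
* **`gdBd`**: the class `W W'`, any sea, any geometry: the functional with moduli and with the factor
  `exp (ψ on the quanta - mean field value)` is at most `m ^ (1/2 + e)` times the bound without it.
-/

set_option autoImplicit false
set_option linter.unusedSectionVars false

noncomputable section

open Complex MeasureTheory Finset
open scoped ENNReal

namespace PBI

open NUGC PBO PBF PotH PBR
open NUO NUP1 NUCR NUP1S NUP1S.Ab NUP1S.AbC NUP1S.AbG NURow NUP1.Leg NUStabP NUDispW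
open PBP (gT)
open NUSea.H0 (Gd RemOk bdP bdMF)

section

variable [NUSea.Sea]

/-- the statistic of a bounded potential, times `m ^ (-1/2)` -/
def bdΦ (C : ℝ) (ψ : Bool → ℝ → ℝ) (m _N : ℕ) : InsE := fun r _ _ _ y =>
  ENNReal.ofReal ((m : ℝ) ^ (-(1 / 2 : ℝ))) * bdΨ m C ψ r y

/-- **the gas with a bounded potential** -/
theorem s4Bd {G : Geo} (hG : GOk G) {B0 : ℝ} (hB : 0 ≤ B0) : ∃ K K1 : ℝ, 0 ≤ K ∧ 0 ≤ K1 ∧
    S4K G (fun _ (ψ : Bool → ℝ → ℝ) => RemOk B0 B0 ψ) (bdΦ K1) K 3 := by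
  obtain ⟨B', N0, hB', hN0, henv⟩ := hG.env
  obtain ⟨K, K1, hK, hK1, h4⟩ := crudeBd B' N0 hB' hN0
  obtain ⟨K2, hK2, hone⟩ := hG.one
  obtain ⟨CP, hCP, hpref⟩ := hG.pref_le
  obtain ⟨s, hs⟩ : ∃ s : ℕ, s = ⌈B0⌉₊ := ⟨_, rfl⟩
  have hBs : B0 ≤ s := by rw [hs]; exact Nat.le_ceil _
  have hs0 : (0 : ℝ) ≤ s := Nat.cast_nonneg _
  refine ⟨K + K2, K1 * s, by linarith, by positivity, ?_⟩
  intro kap hkap ep hep hep1 e1 he he1 J hJ δ hδ
  obtain ⟨Cc, C0, hCc, hC0, CL, m1, henv⟩ := henv ep hep hep1 e1 he he1 J hJ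
  obtain ⟨m3, hone⟩ := hone ep hep hep1 e1 he he1 J hJ
  obtain ⟨C1, hC1, h4⟩ := h4 kap hkap ep hep hep1 e1 he he1 Cc C0 hCc hC0 δ hδ
  obtain ⟨d, Cst, hd, hCst, M0, h4⟩ := h4 1 one_pos
  obtain ⟨Cp, hCp⟩ : ∃ Cp, Cp = Real.exp (C1 * (s + B0) + 1 * (s : ℝ) ^ 2) := ⟨_, rfl⟩
  have hCp0 : 0 < Cp := by rw [hCp]; exact Real.exp_pos _
  refine ⟨d, Cp * Cst * Real.exp (CP + CL), hd, by positivity, max (max M0 m1) m3, ?_⟩
  intro m hm n g aX aY ν N b' r O hb' hR hnear ψ hψ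
  simp only [ge_iff_le, max_le_iff] at hm
  obtain ⟨⟨g0, g1⟩, g4⟩ := hm
  obtain ⟨hm1, hT, cr, Bc, Bc', H, H', hE, hlin⟩ := henv m g1
  have hmp : (0 : ℝ) < m := by exact_mod_cast hm1
  have hb : |b'| ≤ d := by
    rcases hb' with h | h
    · rw [h, abs_of_pos hd]
    · rw [h, abs_neg, abs_of_pos hd]
  have hRH : RgH ep e1 m g aX aY ν N O 0 0 :=
    { n2 := hR.n2, sp := hR.sp, ax := hR.ax, ay := hR.ay, q := hR.q
      nu := hR.nu.trans (by norm_num), hN := hR.hN.trans (by omega), hr := hR.hr, hc1 := hR.hc1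
      hc2 := hR.hc2, E0 := le_rfl, hE := hR.hE, x0 := le_rfl, hx := hR.hx }
  have hψ' : RemOk s B0 ψ := ⟨hψ.c, fun a t => (hψ.b a t).trans hBs, hψ.e⟩
  have key := h4 m g0 n (etaC e1 J m m) (etaC' e1 J m m) cr Bc Bc' H H'
    ((G.B m (4 / 3 * (1 - ep))).mul (spF g)) g (hE n g d hd.le) aX aY ν N b' r O 0 0 hb hRH
    s B0 hB ψ hψ'
  rw [← hCp] at key
  -- the constant factor
  obtain ⟨c, hc⟩ : ∃ c : ℝ, c = (m : ℝ) ^ (-(1 / 2 : ℝ)) := ⟨_, rfl⟩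
  have hc0 : 0 ≤ c := by
    rw [hc]
    positivity
  have hleft : lhsI G ep e1 J m g aX aY ν N b' O (bdΦ (K1 * s) ψ m N) =
      ENNReal.ofReal c * lhsH ((G.B m (4 / 3 * (1 - ep))).mul (spF g)) m (etaC e1 J m m)
        (etaC' e1 J m m) aX aY ν N b' O (bdΨ m (K1 * s) ψ r) := by
    unfold lhsI bdΦ
    rw [← hc, gasI_const _ _ _ _ _ _ _ ENNReal.ofReal_ne_top]
    unfold lhsH
    rw [← mul_assoc, mul_comm (ENNReal.ofReal (Real.exp _)), mul_assoc]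
    rfl
  rw [hleft]
  refine (mul_le_mul' le_rfl key).trans ?_
  rw [← ENNReal.ofReal_mul' hCp0.le, ← ENNReal.ofReal_mul hc0]
  refine ENNReal.ofReal_le_ofReal ?_
  -- the numbers
  have hT1 : (1 - e1) * Tb (Real.log m) ≤ T1H ep e1 m O 0 :=
    (PBO.TW_geR hep he hT).trans (TW_le ep e1 m O le_rfl).1
  have hlin := hlin n g _ hT1
  have hconf := confEH_le (G := G) (K := K) (kap := kap) O fun i => hone m g4 r O i
  have hen : enH m g O (T1H ep e1 m O 0) (N + aX - chgO O true) (N + aY - chgO O false) =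
      enR m g O (T1R ep e1 m O 0) (N + aX - chgO O true) (N + aY - chgO O false) := rfl
  rw [hen]
  obtain ⟨EN, hEN⟩ : ∃ EN, EN = enR m g O (T1R ep e1 m O 0) (N + aX - chgO O true)
    (N + aY - chgO O false) := ⟨_, rfl⟩
  rw [← hEN]
  have hp := hpref m n g hR.n2
  obtain ⟨CF, hCF⟩ : ∃ CF, CF = confEH m (etaC e1 J m m) (TW ep e1 m) K kap O -
    1 / 10 * excS (TW ep e1 m) O + EN := ⟨_, rfl⟩
  obtain ⟨CR, hCR⟩ : ∃ CR, CR = confR G m ep e1 J (K + K2) kap O + EN := ⟨_, rfl⟩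
  have hexc := NUO.excS_nonneg (TW ep e1 m) O
  have hcc : CF ≤ CR := by
    rw [hCF, hCR]
    linarith
  have hpa := pref_alg (G := G) hm1 (g := g) (E := 0) (x := 0) (F1 := 1) (F2 := 1)
    (a := 1 / 2 + 2 * (ep + e1) + δ) (a' := 1 / 2 + (3 * (ep + e1) + δ)) hCst le_rfl zero_le_one
    hp hlin hcc (by linarith)
  rw [← hCR]
  have e3 : confEH m (etaC e1 J m m) (TW ep e1 m) K kap O - 1 / 10 * excS (TW ep e1 m) O +
      linH (etaC e1 J m m) (etaC' e1 J m m) m g (T1H ep e1 m O 0) H + EN =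
      CF + linH (etaC e1 J m m) (etaC' e1 J m m) m g (T1H ep e1 m O 0) H := by
    rw [hCF]
    ring
  rw [e3]
  rw [mul_one, mul_one] at hpa
  have e4 : (7 / 8 + 2 * (ep + e1) + δ : ℝ) = 3 / 8 + (1 / 2 + 2 * (ep + e1) + δ) := by ring
  rw [e4]
  obtain ⟨V, hV⟩ : ∃ V, V = prefH m g 0 0 Cst * (m : ℝ) ^ (3 / 8 + (1 / 2 + 2 * (ep + e1) + δ)) *
    Real.exp (CF + linH (etaC e1 J m m) (etaC' e1 J m m) m g (T1H ep e1 m O 0) H) := ⟨_, rfl⟩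
  rw [← hV] at hpa ⊢
  have hpow : (m : ℝ) ^ (-(1 / 2 : ℝ)) * (m : ℝ) ^ (1 / 2 + (3 * (ep + e1) + δ)) =
      (m : ℝ) ^ (3 * (ep + e1) + δ) := by
    rw [← Real.rpow_add hmp]
    congr 1
    ring
  have hpf : prefR G m g 0 0 (Cp * Cst * Real.exp (CP + CL)) =
      Cp * prefR G m g 0 0 (Cst * Real.exp (CP + CL)) := by
    unfold prefR
    ring
  calc c * (V * Cp) = Cp * c * V := by ring
    _ ≤ Cp * c * (prefR G m g 0 0 (Cst * Real.exp (CP + CL)) *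
        (m : ℝ) ^ (1 / 2 + (3 * (ep + e1) + δ)) * Real.exp (-gnF e1 J m g) * Real.exp CR) :=
        mul_le_mul_of_nonneg_left hpa (by positivity)
    _ = Cp * prefR G m g 0 0 (Cst * Real.exp (CP + CL)) *
        ((m : ℝ) ^ (-(1 / 2 : ℝ)) * (m : ℝ) ^ (1 / 2 + (3 * (ep + e1) + δ))) *
        Real.exp (-gnF e1 J m g) * Real.exp CR := by
        rw [hc]
        ring
    _ = _ := by rw [hpow, hpf]

end

/-- the conclusion: potentials of size and energy `B0` -/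
def BDAt [NUSea.Sea] (G : Geo) (B0 kapw K2 e ep e1 J Cst : ℝ) (m : ℕ) : Prop :=
  ∀ (X : Bool → Option O3 → ℂ → ℂ) (κ : ℝ) (E0 : Set ℝ),
  Bs X (fun g => (G.B m (beC ep)).mul g) (NUSea.O.par0 m) ep κ E0 →
  ∀ y : ℝ × ℝ, |y.1| ≤ TW ep e1 m → |y.2| ≤ TW ep e1 m → ∀ ψ : Bool → ℝ → ℝ, RemOk B0 B0 ψ →
  ∀ (w : (r : ℕ) → (Fin r → Xo) → ℝ) (Bw : ℝ), 0 ≤ Bw → (∀ r O, 0 ≤ w r O) →
  (∀ (r : ℕ) (O : Fin r → Xo), w r O ≤ Bw * Real.exp (K2 * r) *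
      Real.exp (∑ i, gT e1 (Real.log m) (ht (O i))) *
      Real.exp (kapw * win univ fun i => ht (O i))) →
  ∀ C0 Cg k1 k2 gg : ℝ, 0 ≤ C0 → 0 ≤ k1 → 0 ≤ k2 → 0 ≤ gg →
  k1 * Real.exp (m * G.MF .w (vl (htL .W) y.1)) ≤ C0 * Real.exp (-|y.1|) →
  k2 * Real.exp (m * G.MF .w (vl (htL .W) y.2)) ≤ C0 * Real.exp (-|y.2|) →
  gg ≤ Cg * Real.exp (-|y.1 - y.2|) →
  ENNReal.ofReal (k1 * k2 * gg) *
    ∑ N ∈ range (2 * m + 1), FE (ZW X y) (NUSea.O.par0 m) N N (fun _ _ => etaC e1 J m m)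
      (fun _ _ => etaC' e1 J m m) (fun r O _ _ x => ENNReal.ofReal (w r O) *
        ENNReal.ofReal (Real.exp (bdP ψ x - bdMF m ψ))) ≤
    ENNReal.ofReal ((m : ℝ) ^ (1 / 2 + e) * (C0 * C0 * Cg * Bw * (Cst *
      Real.exp ((m : ℝ) ^ 2 * G.EM) * Real.exp (-(2 * |y.1| + 2 * |y.2| + |y.1 - y.2| / 2)))))

theorem bd_of [NUSea.Sea] {G : Geo} {B0 K1 kapw K2 e ep e1 J Cst : ℝ} {m : ℕ} (hm : 1 ≤ m)
    (h : Pool.Agent.IST.TopAt G (fun (ψ : Bool → ℝ → ℝ) => RemOk B0 B0 ψ)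
      (fun ψ => bdΦ K1 ψ m) kapw (K2 + K1) e ep e1 J Cst m) :
    BDAt G B0 kapw K2 e ep e1 J (Cst * Real.exp K1) m := by
  intro X κ E0 hX y hy1 hy2 ψ hψ w Bw hBw hw0 hwB C0 Cg k1 k2 gg hC0 hk1 hk2 hgg h1 h2 h3
  have hmp : (0 : ℝ) < m := by exact_mod_cast hm
  have key := h X κ E0 hX y hy1 hy2 ψ hψ (fun r O => w r O * Real.exp (K1 * (1 + r)))
    (Bw * Real.exp K1) (by positivity) (fun r O => mul_nonneg (hw0 r O) (Real.exp_pos _).le) ?_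
    C0 Cg k1 k2 gg hC0 hk1 hk2 hgg h1 h2 h3
  swap
  · intro r O
    have h4 := mul_le_mul_of_nonneg_right (hwB r O) (Real.exp_pos (K1 * (1 + r))).le
    refine h4.trans (le_of_eq ?_)
    rw [show (K2 + K1) * (r : ℝ) = K2 * r + K1 * r by ring, Real.exp_add (K2 * (r : ℝ)),
      mul_add K1, mul_one, Real.exp_add K1]
    ring
  obtain ⟨c, hc⟩ : ∃ c : ℝ, c = (m : ℝ) ^ (-(1 / 2 : ℝ)) := ⟨_, rfl⟩
  have hc0 : 0 < c := by
    rw [hc]
    exact Real.rpow_pos_of_pos hmp _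
  have e1' : (fun (r : ℕ) (O : Fin r → Xo) (a b : ℕ) (x : (Fin a → ℝ) × (Fin b → ℝ)) =>
      ENNReal.ofReal (w r O * Real.exp (K1 * (1 + r))) * bdΦ K1 ψ m 0 r O a b x) =
      fun r O a b x => ENNReal.ofReal c * (ENNReal.ofReal (w r O) *
        ENNReal.ofReal (Real.exp (bdP ψ x - bdMF m ψ))) := by
    funext r O a b x
    unfold bdΦ bdΨ
    rw [← hc, mul_left_comm, ← ENNReal.ofReal_mul (mul_nonneg (hw0 r O) (Real.exp_pos _).le),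
      ← ENNReal.ofReal_mul (hw0 r O)]
    congr 2
    rw [mul_assoc, ← Real.exp_add]
    congr 2
    ring
  have e2 : ∀ N : ℕ, FE (ZW X y) (NUSea.O.par0 m) N N (fun _ _ => etaC e1 J m m)
      (fun _ _ => etaC' e1 J m m) (fun r O a b x => ENNReal.ofReal (w r O * Real.exp (K1 * (1 + r))) *
        bdΦ K1 ψ m N r O a b x) =
      ENNReal.ofReal c * FE (ZW X y) (NUSea.O.par0 m) N N (fun _ _ => etaC e1 J m m)
      (fun _ _ => etaC' e1 J m m) (fun r O a b x => ENNReal.ofReal (w r O) *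
        ENNReal.ofReal (Real.exp (bdP ψ x - bdMF m ψ))) := by
    intro N
    have e3 := PBU.FE_const_mul (Z := ZW X y) (P := NUSea.O.par0 m) (n := N) (n' := N)
      (η := fun _ _ => etaC e1 J m m) (η' := fun _ _ => etaC' e1 J m m)
      (c := ENNReal.ofReal c) ENNReal.ofReal_ne_top (fun r O a b x => ENNReal.ofReal (w r O) *
        ENNReal.ofReal (Real.exp (bdP ψ x - bdMF m ψ)))
    rw [← e3, ← e1']
    rfl
  simp only [e2] at key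
  rw [← Finset.mul_sum, mul_left_comm] at key
  obtain ⟨Z, hZ⟩ : ∃ Z, Z = ENNReal.ofReal (k1 * k2 * gg) *
    ∑ N ∈ range (2 * m + 1), FE (ZW X y) (NUSea.O.par0 m) N N (fun _ _ => etaC e1 J m m)
      (fun _ _ => etaC' e1 J m m) (fun r O a b x => ENNReal.ofReal (w r O) *
        ENNReal.ofReal (Real.exp (bdP ψ x - bdMF m ψ))) := ⟨_, rfl⟩
  rw [← hZ] at key ⊢
  have hci : 0 ≤ c⁻¹ := (inv_pos.2 hc0).le
  calc Z = ENNReal.ofReal c⁻¹ * (ENNReal.ofReal c * Z) := by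
        rw [← mul_assoc, ← ENNReal.ofReal_mul hci, inv_mul_cancel₀ hc0.ne', ENNReal.ofReal_one,
          one_mul]
    _ ≤ ENNReal.ofReal c⁻¹ * ENNReal.ofReal (C0 * C0 * Cg * (Bw * Real.exp K1) *
        (Cst * (m : ℝ) ^ e * Real.exp ((m : ℝ) ^ 2 * G.EM) *
        Real.exp (-(2 * |y.1| + 2 * |y.2| + |y.1 - y.2| / 2)))) := mul_le_mul' le_rfl key
    _ = _ := by
        rw [← ENNReal.ofReal_mul hci]
        congr 1
        have h5 : c⁻¹ = (m : ℝ) ^ (1 / 2 : ℝ) := by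
          rw [hc, ← Real.rpow_neg hmp.le, neg_neg]
        rw [h5, Real.rpow_add hmp]
        ring

/-- **the sum over the configurations with a bounded potential**: any sea, any geometry, class
`W W'` -/
theorem gdBd (hS : StabProd) : ∃ c0 : ℝ, 0 < c0 ∧ ∀ [NUSea.Sea] {G : Geo}, GOk G → OneRT G →
    ∀ B0 : ℝ, 0 ≤ B0 → ∀ K2 kapw : ℝ, kapw ≤ c0 → ∀ {e : ℝ}, 0 < e →
    ∃ κ0 : ℝ, 0 < κ0 ∧ κ0 ≤ 1 / 100 ∧
      ∀ ep : ℝ, 0 < ep → ep ≤ κ0 → ∀ e1 : ℝ, 0 < e1 → e1 ≤ κ0 →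
      ∀ J : ℝ, 0 ≤ J → Real.exp (-(2 * Real.pi * J)) ≤ κ0 →
      ∃ Cst : ℝ, 0 ≤ Cst ∧ ∃ m0 : ℕ, 5 ≤ m0 ∧ ∀ m ≥ m0,
      CurB ep (etaC e1 J m m) (etaC' e1 J m m) ∧ BDAt G B0 kapw K2 e ep e1 J Cst m := by
  obtain ⟨c0, hc0, H⟩ := Pool.Agent.IST.topRW hS
  refine ⟨c0, hc0, ?_⟩
  intro inst G hG h1 B0 hB
  obtain ⟨K, K1, hK, hK1, h4⟩ := s4Bd hG hB
  intro K2 kapw hkapw e he
  obtain ⟨κ0, hκ, hκ1, H⟩ := H hG.nn h1 K (K2 + K1) kapw hkapw (Ca := 3) (by norm_num) he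
  refine ⟨κ0, hκ, hκ1, ?_⟩
  intro ep hep hep1 e1 he1 he11 J hJ hJ1
  obtain ⟨Cst, hCst, m0, hm0, H⟩ := H ep hep hep1 e1 he1 he11 J hJ hJ1 _
    _ (bdΦ K1) (h4.s4fix hc0 hep (hep1.trans hκ1) he1 (he11.trans hκ1) hJ
      (by linarith))
  refine ⟨Cst * Real.exp K1, by positivity, m0, hm0, fun m hm => ?_⟩
  obtain ⟨g1, g2⟩ := H m hm
  exact ⟨g1, bd_of (by omega) g2⟩

end PBI

end
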