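import Pool.Agent.IST.CrudeE

/-!
# The crude bound of a configuration at the price of the window energy of the places

As `NUSea.H0.crudeE`, but the places `g` only cost `exp (6 G + x0 win g)`: `win g` = sum over the unit
windows of the squares of the numbers of places.  Every number of places, every place in `[-T1, T1]`.
-/

set_option autoImplicit false

noncomputable section

open MeasureTheory Finset
open scoped ENNReal

namespace NUSea.H0

open NUO NUStabP NUDispW NUEnW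
open NUH0 (plt plt_nonneg qc T0i T0i_ge shF shF_nonneg)

variable [Sea]

/-- the windows of the objects and of the places -/
theorem win_htsW {r G : ℕ} (O : Fin r → Xo) (g : Fin G → ℝ) :
    win univ (hts O g) ≤ 2 * win univ (fun i => ht (O i)) + 2 * win univ g := by
  classical
  obtain ⟨W, hW⟩ : ∃ W : Finset ℤ, W = (univ : Finset (Fin (r + G))).image (fun i => ⌊hts O g i⌋) :=
    ⟨_, rfl⟩
  have s1 : (univ : Finset (Fin r)).image (fun i => ⌊ht (O i)⌋) ⊆ W := by
    intro w hw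
    obtain ⟨i, -, hi⟩ := Finset.mem_image.1 hw
    rw [hW]
    refine Finset.mem_image.2 ⟨Fin.castAdd G i, Finset.mem_univ _, ?_⟩
    unfold hts
    rw [Fin.append_left]
    exact hi
  have s2 : (univ : Finset (Fin G)).image (fun i => ⌊g i⌋) ⊆ W := by
    intro w hw
    obtain ⟨i, -, hi⟩ := Finset.mem_image.1 hw
    rw [hW]
    refine Finset.mem_image.2 ⟨Fin.natAdd r i, Finset.mem_univ _, ?_⟩
    unfold hts
    rw [Fin.append_right]
    exact hi
  rw [win_fin (hts O g) (W := W) (by rw [hW]), win_fin (fun i => ht (O i)) s1, win_fin g s2]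
  have h1 : ∀ w, (((univ : Finset (Fin (r + G))).filter fun i => ⌊hts O g i⌋ = w).card : ℝ) =
      ((univ : Finset (Fin r)).filter fun i => ⌊ht (O i)⌋ = w).card +
      ((univ : Finset (Fin G)).filter fun i => ⌊g i⌋ = w).card := by
    intro w
    have e1 : ∀ (N : ℕ) (f : Fin N → ℝ), (((univ : Finset (Fin N)).filter fun i => ⌊f i⌋ = w).card : ℝ) =
        ∑ i, if ⌊f i⌋ = w then (1 : ℝ) else 0 := by
      intro N f
      rw [Finset.sum_boole]
    rw [e1, e1, e1, Fin.sum_univ_add]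
    unfold hts
    simp only [Fin.append_left, Fin.append_right]
  calc ∑ w ∈ W, (((univ : Finset (Fin (r + G))).filter fun i => ⌊hts O g i⌋ = w).card : ℝ) ^ 2 ≤
      ∑ w ∈ W, (2 * (((univ : Finset (Fin r)).filter fun i => ⌊ht (O i)⌋ = w).card : ℝ) ^ 2 +
        2 * (((univ : Finset (Fin G)).filter fun i => ⌊g i⌋ = w).card : ℝ) ^ 2) := by
        refine Finset.sum_le_sum fun w _ => ?_
        rw [h1 w]
        nlinarith [sq_nonneg ((((univ : Finset (Fin r)).filter fun i => ⌊ht (O i)⌋ = w).card : ℝ) -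
          (((univ : Finset (Fin G)).filter fun i => ⌊g i⌋ = w).card : ℝ))]
    _ = 2 * (∑ w ∈ W, (((univ : Finset (Fin r)).filter fun i => ⌊ht (O i)⌋ = w).card : ℝ) ^ 2) +
        2 * (∑ w ∈ W, (((univ : Finset (Fin G)).filter fun i => ⌊g i⌋ = w).card : ℝ) ^ 2) := by
        rw [Finset.sum_add_distrib, Finset.mul_sum, Finset.mul_sum]

omit [Sea] in
/-- the arithmetic of the exponents -/
theorem arithW {L T' ep e1 δ ε' x x2 C N1 kap W W' S Y R G Wg M0 : ℝ} (hL : 0 ≤ L)
    (hT' : T' = (1 + 2 * e1 + 2 * ep) * Tb L) (hep : 0 < ep) (hep1 : ep ≤ 1 / 100) (he : 0 < e1)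
    (he1 : e1 ≤ 1 / 100) (hε'0 : 0 ≤ ε') (hε' : ε' ≤ δ / 4) (hx0 : 0 ≤ x) (hx : x ≤ δ / 4)
    (hx1 : x ≤ kap / 8) (hx2 : C * x2 ≤ kap / 4) (hW : 0 ≤ W) (hY : Y ≤ S)
    (hW' : W' ≤ 2 * W + 2 * Wg) :
    M0 + ((7 / 3 + 2 * ε') * T' + 12 / 5 * Y + 6 * (R + G) + C * (1 + (N1 + x2 * W)) +
        x * (W' + 1 + L) + 1) ≤
      (C * (1 + N1) + x * (1 + 2 * Wg) + 6 * G + 1) + L * (7 / 8 + 2 * (ep + e1) + δ / 2) +
        (M0 + 6 * R + 12 / 5 * S + kap * W) := by
  have h1 : (7 / 3 + 2 * ε') * T' ≤ L * (7 / 8 + 2 * (ep + e1) + δ / 4) := by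
    rw [hT']
    unfold Tb
    have h2 : (7 / 3 + 2 * ε') * (1 + 2 * e1 + 2 * ep) * (3 / 8) ≤ 7 / 8 + 2 * (ep + e1) + ε' := by
      nlinarith
    calc (7 / 3 + 2 * ε') * ((1 + 2 * e1 + 2 * ep) * (3 / 8 * L)) =
        ((7 / 3 + 2 * ε') * (1 + 2 * e1 + 2 * ep) * (3 / 8)) * L := by ring
      _ ≤ (7 / 8 + 2 * (ep + e1) + ε') * L := by gcongr
      _ ≤ _ := by nlinarith
  have h3 : C * x2 * W ≤ kap / 4 * W := by gcongr
  have h4 : x * W ≤ kap / 8 * W := by gcongr
  have h4' : x * W' ≤ x * (2 * W + 2 * Wg) := by gcongr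
  have h5 : x * L ≤ δ / 4 * L := by gcongr
  have h6 : 0 ≤ kap / 2 * W := by
    have : 0 ≤ kap := by linarith
    positivity
  nlinarith

/-- **the crude bound**, every number `G` of places, at the price of their window energy -/
theorem crudeW {ep : ℝ} (hep : 0 < ep) (hep1 : ep ≤ 1 / 100) {e1 : ℝ} (he : 0 < e1)
    (he1 : e1 ≤ 1 / 100) {δ : ℝ} (hδ : 0 < δ) (k : ℕ) {κ CB : ℝ} (hκ : 0 < κ) (hCB : 0 ≤ CB) :
    ∃ C1 : ℝ, 0 ≤ C1 ∧ ∀ kap : ℝ, 0 < kap → ∀ x0 : ℝ, 0 < x0 →
    ∃ ϑ Cst : ℝ, 0 < ϑ ∧ 0 ≤ Cst ∧ ∃ m0 : ℕ, ∀ m ≥ m0, ∀ (G : ℕ) (CE : ℝ), 0 ≤ CE →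
      ∀ (I : Inp) (P : Par) (r : ℕ) (O : Fin r → Xo) (g : Fin G → ℝ) (p n : ℕ)
        (aX aY cf B1 : ℝ → ℝ) (T1 D q S : ℝ),
      DatE ep e1 κ CB ϑ CE k m I P O g p n aX aY cf B1 T1 D q S →
        ∫⁻ x, ENNReal.ofReal (W0 (datO I P O) p n aX aY cf x) ≤
          ENNReal.ofReal ((p.factorial : ℝ) * n.factorial *
            (Cst * Real.exp (C1 * CE + 6 * G + x0 * win univ g) *
              (m : ℝ) ^ (7 / 8 + 2 * (ep + e1) + δ) * (1 + S) *
              Real.exp (confC ep e1 m I P p n 6 kap O T1))) := by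
  obtain ⟨A, hA, hInst⟩ := instE hep hep1 he he1 k hκ hCB
  obtain ⟨ε', hε'⟩ : ∃ ε' : ℝ, ε' = min (1 / 200) (δ / 4) := ⟨_, rfl⟩
  have hε'0 : 0 < ε' := by rw [hε']; exact lt_min (by norm_num) (by positivity)
  have hε'1 : ε' ≤ 1 / 200 := by rw [hε']; exact min_le_left _ _
  have hε'2 : ε' ≤ δ / 4 := by rw [hε']; exact min_le_right _ _
  obtain ⟨C, hC, HC⟩ := crude (k := 8) (A := A) (κ := κ) (ε' := ε') (by norm_num) hA hκ hε'0 hε'1
  refine ⟨6 * C, by positivity, ?_⟩
  intro kap hkap x0 hx00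
  obtain ⟨x, hx⟩ : ∃ x : ℝ, x = min (min (kap / 8) (δ / 4)) (x0 / 2) := ⟨_, rfl⟩
  have hx0 : 0 < x := by
    rw [hx]
    exact lt_min (lt_min (by positivity) (by positivity)) (by positivity)
  have hx1 : x ≤ kap / 8 := by rw [hx]; exact (min_le_left _ _).trans (min_le_left _ _)
  have hx2 : x ≤ δ / 4 := by rw [hx]; exact (min_le_left _ _).trans (min_le_right _ _)
  have hx3 : x ≤ x0 / 2 := by rw [hx]; exact min_le_right _ _
  obtain ⟨m1, HM⟩ := HC hx0
  obtain ⟨x2, hx2d⟩ : ∃ x2 : ℝ, x2 = min (ε' / (C + 1)) (kap / 4 / (C + 1)) := ⟨_, rfl⟩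
  have hC1 : 0 < C + 1 := by linarith only [hC]
  have hx20 : 0 < x2 := by rw [hx2d]; exact lt_min (by positivity) (by positivity)
  have hx2a : C * x2 ≤ ε' := by
    have h1 : x2 ≤ ε' / (C + 1) := by rw [hx2d]; exact min_le_left _ _
    rw [le_div_iff₀ hC1] at h1
    linarith only [hx20, h1]
  have hx2b : C * x2 ≤ kap / 4 := by
    have h1 : x2 ≤ kap / 4 / (C + 1) := by rw [hx2d]; exact min_le_right _ _
    rw [le_div_iff₀ hC1] at h1
    linarith only [hx20, h1]
  obtain ⟨ϑ, N1, hϑ, hN1, m2, hI2⟩ := hInst x2 hx20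
  refine ⟨ϑ, Real.exp (C * (1 + N1) + x + 1) * (1 + shC), hϑ, by
    have := shC_nonneg
    positivity, max (max m1 m2) 3, ?_⟩
  intro m hm G CE hCE I P r O g p n aX aY cf B1 T1 D q S hD
  obtain ⟨i1, i2⟩ := hI2 m ((le_max_right _ _).trans ((le_max_left _ _).trans hm)) G CE hCE I P r O g
    p n aX aY cf B1 T1 D q S hD
  have hm3 : 3 ≤ m := (le_max_right _ _).trans hm
  have hmr : (3:ℝ) ≤ m := by exact_mod_cast hm3
  have hmp : (0:ℝ) < m := by linarith only [hmr]
  obtain ⟨L, hL⟩ : ∃ L, L = Real.log m := ⟨_, rfl⟩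
  have hL0 : 0 ≤ L := by rw [hL]; exact Real.log_nonneg (by linarith)
  obtain ⟨T', hT'⟩ : ∃ T', T' = TW ep e1 m := ⟨_, rfl⟩
  have hTW : T' = (1 + 2 * e1 + 2 * ep) * Tb L := by rw [hT', hL]; rfl
  have hT1 : 3 / 8 * L ≤ T' := by
    rw [hTW]
    unfold Tb
    nlinarith only [hep, he, hL0]
  have hT2 : T' ≤ L := by
    rw [hTW]
    unfold Tb
    nlinarith only [hep1, he1, hL0]
  have hb0 : 0 ≤ (1 - e1) * Tb (Real.log m) := by
    rw [← hL]
    unfold Tb
    have : 0 ≤ 1 - e1 := by linarith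
    positivity
  have hb1 : (1 - e1) * Tb (Real.log m) ≤ Real.log m := by
    rw [← hL]
    unfold Tb
    nlinarith only [he, hL0]
  have hT1' : T' + excS T' O ≤ T1 := by
    have := hD.tw
    rwa [← hT'] at this
  obtain ⟨Y, hY⟩ : ∃ Y, Y = T1 - T' := ⟨_, rfl⟩
  have hY0 : 0 ≤ Y := by
    have := excS_nonneg T' O
    linarith only [hT1', hY, this]
  have hw0 := win_nonneg (Finset.univ : Finset (Fin r)) (fun i => ht (O i))
  have hw1 := win_htsW O g
  have hwg := win_nonneg (Finset.univ : Finset (Fin G)) g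
  have hq1 := hD.q1
  have key := HM m ((le_max_left _ _).trans ((le_max_left _ _).trans hm)) i1 hb0 hb1 hD.shl
    (by linarith only [hε'1, hq1]) (Y := Y) (by rw [← hT', ← hL]; exact hT1) (by rw [← hT', ← hL]; exact hT2)
    hY0 (fun i => by
      rw [← hT']
      refine Fin.addCases (fun i => ?_) (fun j => ?_) i
      · unfold hts
        rw [Fin.append_left]
        have := excS_ge T' O i
        linarith only [hT1', hY, this]
      · unfold hts
        rw [Fin.append_right]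
        have := hD.gs j
        linarith) (N0 := N1 + 6 * CE + x2 * win univ (fun i => ht (O i))) (e1 := x2) hx2a
    (fun T hT => i2 T (by
      have h1 := T0i_ge (T' := TW ep e1 m) (Y := Y) (r := r + G) (m := m) hA
        (by rw [← hL]; exact hL0) hY0
      rw [← hT'] at h1 hT
      linarith only [hL0, hT1, hY0, hT, h1]))
  refine key.trans (ENNReal.ofReal_le_ofReal ?_)
  have hT0 : T1 ≤ T0i (TW ep e1 m) Y A (r + G) m := by
    have h1 := T0i_ge (T' := TW ep e1 m) (Y := Y) (r := r + G) (m := m) hA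
      (by rw [← hL]; exact hL0) hY0
    rw [← hT'] at h1 ⊢
    linarith
  have hDS := hD.DS
  have hS0 : 0 ≤ S := le_trans (mul_nonneg hD.shl.D0 (Real.exp_pos _).le) hDS
  have hsh := shF_le (ε' := ε') hε'1 hD.shl.D0 hq1 hDS hT0
  have hsh0 := shF_nonneg (T0 := T0i (TW ep e1 m) Y A (r + G) m) hD.shl.D0
    (show 7 / 3 + 2 * ε' < q by linarith only [hε'1, hq1])
  have hshC := shC_nonneg
  have hshf : 1 + shF D q (7 / 3 + 2 * ε') (T0i (TW ep e1 m) Y A (r + G) m) ≤
      (1 + S) * (1 + shC) := by linarith only [hS0, hsh, hshC]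
  have har := arithW (M0 := MFs I.s p n + (datO I P O).En) (N1 := N1 + 6 * CE) (R := r) (G := G)
    (Y := Y) (S := Y) (W := win univ (fun i => ht (O i))) (W' := win univ (hts O g)) (Wg := win univ g)
    hL0 hTW hep hep1 he he1 hε'0.le hε'2 hx0.le hx2 hx1 hx2b hw0 le_rfl hw1
  have hexp : Real.exp (MFs (datO I P O).s p n + (datO I P O).En +
      ((7 / 3 + 2 * ε') * TW ep e1 m + 12 / 5 * Y + 6 * (r + G : ℕ) +
        C * (1 + (N1 + 6 * CE + x2 * win univ fun i => ht (O i))) +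
        x * (win univ (hts O g) + 1 + Real.log m) + 1)) ≤
      (Real.exp (C * (1 + N1) + x + 1) * Real.exp (6 * C * CE + 6 * G + x0 * win univ g)) *
        ((m : ℝ) ^ (7 / 8 + 2 * (ep + e1) + δ) *
        Real.exp (confC ep e1 m I P p n 6 kap O T1)) := by
    have hxG : 2 * x * win univ g ≤ x0 * win univ g :=
      mul_le_mul_of_nonneg_right (by linarith) hwg
    rw [Real.rpow_def_of_pos hmp, ← Real.exp_add, ← Real.exp_add, ← Real.exp_add]
    refine Real.exp_le_exp.2 ?_
    unfold confC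
    rw [← hT', ← hL]
    have h1 : L * (7 / 8 + 2 * (ep + e1) + δ / 2) ≤ L * (7 / 8 + 2 * (ep + e1) + δ) := by gcongr; linarith
                                                                                                    only
                                                                                                    [hε'0,
                                                                                                    hε'2]
    have h2 : MFs (datO I P O).s p n = MFs I.s p n := rfl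
    rw [h2, ← hY]
    push_cast
    linarith
  calc (p.factorial : ℝ) * n.factorial * Real.exp (MFs (datO I P O).s p n + (datO I P O).En +
      ((7 / 3 + 2 * ε') * TW ep e1 m + 12 / 5 * Y + 6 * (r + G : ℕ) +
        C * (1 + (N1 + 6 * CE + x2 * win univ fun i => ht (O i))) +
        x * (win univ (hts O g) + 1 + Real.log m) + 1)) *
      (1 + shF D q (7 / 3 + 2 * ε') (T0i (TW ep e1 m) Y A (r + G) m))
      ≤ (p.factorial : ℝ) * n.factorial * ((Real.exp (C * (1 + N1) + x + 1) *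
        Real.exp (6 * C * CE + 6 * G + x0 * win univ g)) *
        ((m : ℝ) ^ (7 / 8 + 2 * (ep + e1) + δ) *
        Real.exp (confC ep e1 m I P p n 6 kap O T1))) * ((1 + S) * (1 + shC)) := by gcongr
    _ = _ := by ring


end NUSea.H0

end
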