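import Mathlib

/-!
# The grid lemma: independence of the content from one-row identities alone (helper66)

Contents `(a, b, c)`: `a` rows at `l/2`, `b` rows at `-l/2`, `c` rows at `0`.  `u` = the constant coefficient of the
function of the content, `p`, `p'` its coefficients of order `1` and `-1`.  The one-row identity at the row position
`X` is `u (S + x) - u S = (p (S + x) + p S) X + (p' (S + x) + p' S) X⁻¹` up to `η`.

* **`Grid.core`**: the reduced form (sums over windows of length `L`, interpolation along the characteristic);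
* **`Grid.grid`**: the lemma: if `‖p‖, ‖p'‖ ≤ h`, then `u` at `(J, J, c_J)` and at `(0, 0, c_0)`,
  `c_J = c_0 - ⌊√3 J⌋`, differ by at most `K (√J h + J η)`.
-/

set_option autoImplicit false

noncomputable section

open Finset

namespace Pool.Agent.IST.Grid

/-- the points of the grid which are used: `j` pairs, `c` rows at `0`. -/
def Rg (J L : ℕ) (cc : ℕ → ℕ) (j c : ℕ) : Prop := j ≤ J ∧ cc (j + 1) ≤ c ∧ c ≤ cc j + L

/-- the hypotheses in the reduced form -/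
structure Red (κ h η : ℝ) (J L : ℕ) (cc : ℕ → ℕ) (u0 u1 P0 P1 : ℕ → ℕ → ℂ) : Prop where
  a0 : ∀ j c, Rg J L cc j c → Rg J L cc j (c + 1) → ‖u0 j (c + 1) - u0 j c - (P0 j (c + 1) + P0 j c)‖ ≤ η
  a1 : ∀ j c, j < J → Rg J L cc j c → Rg J L cc j (c + 1) →
    ‖u1 j (c + 1) - u1 j c - (P1 j (c + 1) + P1 j c)‖ ≤ η
  pr : ∀ j c, j < J → Rg J L cc j c → Rg J L cc (j + 1) c →
    ‖u0 (j + 1) c - u0 j c - κ * (P0 j c / 2 + P1 j c + P0 (j + 1) c / 2)‖ ≤ 2 * η
  d0 : ∀ j c, j < J → Rg J L cc j c → ‖u1 j c - u0 j c‖ ≤ 4 * h + η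
  d1 : ∀ j c, j < J → Rg J L cc j c → Rg J L cc (j + 1) c → ‖u0 (j + 1) c - u1 j c‖ ≤ 4 * h + η
  b0 : ∀ j c, Rg J L cc j c → ‖P0 j c‖ ≤ 2 * h
  b1 : ∀ j c, j < J → Rg J L cc j c → ‖P1 j c‖ ≤ 2 * h

/-- sums of `P` over a window. -/
theorem window {u P : ℕ → ℂ} {h η : ℝ} {L c : ℕ}
    (ha : ∀ i < L, ‖u (c + i + 1) - u (c + i) - (P (c + i + 1) + P (c + i))‖ ≤ η)
    (hb0 : ‖P c‖ ≤ 2 * h) (hbL : ‖P (c + L)‖ ≤ 2 * h) :
    ‖∑ i ∈ range L, P (c + i) - (u (c + L) - u c) / 2‖ ≤ 2 * h + L * η / 2 := by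
  have key : ∀ n : ℕ, n ≤ L →
      ‖2 * ∑ i ∈ range n, P (c + i) + P (c + n) - P c - (u (c + n) - u c)‖ ≤ n * η := by
    intro n
    induction n with
    | zero => intro _; simp
    | succ n ih =>
      intro hn
      have h1 := ih (by omega)
      have h2 := ha n (by omega)
      rw [sum_range_succ]
      have e : 2 * (∑ i ∈ range n, P (c + i) + P (c + n)) + P (c + (n + 1)) - P c - (u (c + (n + 1)) - u c) =
          (2 * ∑ i ∈ range n, P (c + i) + P (c + n) - P c - (u (c + n) - u c)) -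
            (u (c + n + 1) - u (c + n) - (P (c + n + 1) + P (c + n))) := by
        rw [← add_assoc]
        ring
      rw [e]
      refine (norm_sub_le _ _).trans ?_
      push_cast
      linarith
  have h1 := key L le_rfl
  have e : ∑ i ∈ range L, P (c + i) - (u (c + L) - u c) / 2 =
      ((2 * ∑ i ∈ range L, P (c + i) + P (c + L) - P c - (u (c + L) - u c)) + (P c - P (c + L))) / 2 := by ring
  rw [e, norm_div]
  have h2 : ‖(2 : ℂ)‖ = 2 := by norm_num
  rw [h2, div_le_iff₀ two_pos]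
  refine (norm_add_le _ _).trans ?_
  have h3 := norm_sub_le (P c) (P (c + L))
  linarith

section core

variable {κ h η : ℝ} {J L : ℕ} {cc : ℕ → ℕ} {u0 u1 P0 P1 : ℕ → ℕ → ℂ}

/-- the window sum -/
def Vs (L : ℕ) (u : ℕ → ℕ → ℂ) (j c : ℕ) : ℂ := ∑ i ∈ range L, u j (c + i)

/-- its difference -/
def Es (L : ℕ) (u : ℕ → ℕ → ℂ) (j c : ℕ) : ℂ := u j (c + L) - u j c

theorem Vs_succ (u : ℕ → ℕ → ℂ) (j c : ℕ) : Vs L u j (c + 1) - Vs L u j c = Es L u j c := by
  unfold Vs Es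
  rw [← sum_sub_distrib]
  have h1 : ∀ n : ℕ, ∑ i ∈ range n, (u j (c + 1 + i) - u j (c + i)) = u j (c + n) - u j c := by
    intro n
    induction n with
    | zero => simp
    | succ n ih =>
      rw [sum_range_succ, ih, show c + 1 + n = c + (n + 1) from by ring]
      ring
  exact h1 L

theorem step0 (H : Red κ h η J L cc u0 u1 P0 P1) {j c : ℕ} (h1 : Rg J L cc j c) (h2 : Rg J L cc j (c + 1)) :
    ‖u0 j (c + 1) - u0 j c‖ ≤ 4 * h + η := by
  have e : u0 j (c + 1) - u0 j c =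
      (u0 j (c + 1) - u0 j c - (P0 j (c + 1) + P0 j c)) + (P0 j (c + 1) + P0 j c) := by ring
  rw [e]
  refine (norm_add_le _ _).trans ?_
  have h3 := norm_add_le (P0 j (c + 1)) (P0 j c)
  have h4 := H.a0 j c h1 h2
  have h5 := H.b0 j c h1
  have h6 := H.b0 j (c + 1) h2
  linarith

theorem stepD (H : Red κ h η J L cc u0 u1 P0 P1) {j c : ℕ} (hj : j < J) (h1 : Rg J L cc j c)
    (h2 : Rg J L cc (j + 1) c) : ‖u0 (j + 1) c - u0 j c‖ ≤ 2 * (4 * h + η) := by
  have e : u0 (j + 1) c - u0 j c = (u0 (j + 1) c - u1 j c) + (u1 j c - u0 j c) := by ring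
  rw [e]
  refine (norm_add_le _ _).trans ?_
  have := H.d0 j c hj h1
  have := H.d1 j c hj h1 h2
  linarith

/-- one pair of rows, summed over a window. -/
theorem pair (H : Red κ h η J L cc u0 u1 P0 P1) (hκ0 : 0 ≤ κ) (hκ : κ ≤ 2) (h0 : 0 ≤ h) (hη : 0 ≤ η)
    (hL : 1 ≤ L) (hcc : ∀ j, cc (j + 1) ≤ cc j) {j : ℕ} (hj : j < J) :
    ‖Vs L u0 (j + 1) (cc (j + 1)) - Vs L u0 j (cc (j + 1)) - κ * Es L u0 j (cc (j + 1))‖ ≤
      24 * h + 8 * (L * η) := by
  obtain ⟨c, hc⟩ : ∃ c, c = cc (j + 1) := ⟨_, rfl⟩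
  rw [← hc]
  have hLr : (1 : ℝ) ≤ L := by exact_mod_cast hL
  have hc1 := hcc j
  have hc2 := hcc (j + 1)
  have r0 : ∀ i ≤ L, Rg J L cc j (c + i) := fun i hi => ⟨by omega, by omega, by omega⟩
  have r1 : ∀ i ≤ L, Rg J L cc (j + 1) (c + i) := fun i hi => ⟨by omega, by omega, by omega⟩
  have w0 : ‖∑ i ∈ range L, P0 j (c + i) - (u0 j (c + L) - u0 j c) / 2‖ ≤ 2 * h + L * η / 2 :=
    window (u := u0 j) (P := P0 j) (fun i hi => H.a0 j (c + i) (r0 i (by omega)) (r0 (i + 1) (by omega)))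
      (H.b0 j c (r0 0 (by omega))) (H.b0 j (c + L) (r0 L le_rfl))
  have w1 : ‖∑ i ∈ range L, P1 j (c + i) - (u1 j (c + L) - u1 j c) / 2‖ ≤ 2 * h + L * η / 2 :=
    window (u := u1 j) (P := P1 j) (fun i hi => H.a1 j (c + i) hj (r0 i (by omega)) (r0 (i + 1) (by omega)))
      (H.b1 j c hj (r0 0 (by omega))) (H.b1 j (c + L) hj (r0 L le_rfl))
  have w2 : ‖∑ i ∈ range L, P0 (j + 1) (c + i) - (u0 (j + 1) (c + L) - u0 (j + 1) c) / 2‖ ≤
      2 * h + L * η / 2 :=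
    window (u := u0 (j + 1)) (P := P0 (j + 1))
      (fun i hi => H.a0 (j + 1) (c + i) (r1 i (by omega)) (r1 (i + 1) (by omega)))
      (H.b0 (j + 1) c (r1 0 (by omega))) (H.b0 (j + 1) (c + L) (r1 L le_rfl))
  have w3 : ‖∑ i ∈ range L, (u0 (j + 1) (c + i) - u0 j (c + i) -
      κ * (P0 j (c + i) / 2 + P1 j (c + i) + P0 (j + 1) (c + i) / 2))‖ ≤ L * (2 * η) := by
    refine (norm_sum_le _ _).trans ?_
    refine (sum_le_sum fun i hi => H.pr j (c + i) hj (r0 i (mem_range.1 hi).le) (r1 i (mem_range.1 hi).le)).trans ?_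
    rw [sum_const, card_range, nsmul_eq_mul]
  have d0L := H.d0 j (c + L) hj (r0 L le_rfl)
  have d00 := H.d0 j c hj (r0 0 (by omega))
  have d1L := stepD H hj (r0 L le_rfl) (r1 L le_rfl)
  have d10 := stepD H hj (r0 0 (by omega)) (r1 0 (by omega))
  rw [add_zero] at d10
  have e : Vs L u0 (j + 1) c - Vs L u0 j c - κ * Es L u0 j c =
      ∑ i ∈ range L, (u0 (j + 1) (c + i) - u0 j (c + i) -
        κ * (P0 j (c + i) / 2 + P1 j (c + i) + P0 (j + 1) (c + i) / 2)) +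
      κ * ((∑ i ∈ range L, P0 j (c + i) - (u0 j (c + L) - u0 j c) / 2) / 2 +
        (∑ i ∈ range L, P1 j (c + i) - (u1 j (c + L) - u1 j c) / 2) +
        (∑ i ∈ range L, P0 (j + 1) (c + i) - (u0 (j + 1) (c + L) - u0 (j + 1) c) / 2) / 2 +
        ((u1 j (c + L) - u0 j (c + L)) - (u1 j c - u0 j c)) / 2 +
        ((u0 (j + 1) (c + L) - u0 j (c + L)) - (u0 (j + 1) c - u0 j c)) / 4) := by
    unfold Vs Es
    rw [sum_sub_distrib, sum_sub_distrib, ← mul_sum, sum_add_distrib, sum_add_distrib, ← sum_div, ← sum_div]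
    ring
  rw [e]
  refine (norm_add_le _ _).trans ?_
  rw [norm_mul, Complex.norm_real, Real.norm_of_nonneg hκ0]
  have n2 : ‖(2 : ℂ)‖ = 2 := by norm_num
  have n4 : ‖(4 : ℂ)‖ = 4 := by norm_num
  have b : ‖(∑ i ∈ range L, P0 j (c + i) - (u0 j (c + L) - u0 j c) / 2) / 2 +
        (∑ i ∈ range L, P1 j (c + i) - (u1 j (c + L) - u1 j c) / 2) +
        (∑ i ∈ range L, P0 (j + 1) (c + i) - (u0 (j + 1) (c + L) - u0 (j + 1) c) / 2) / 2 +
        ((u1 j (c + L) - u0 j (c + L)) - (u1 j c - u0 j c)) / 2 +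
        ((u0 (j + 1) (c + L) - u0 j (c + L)) - (u0 (j + 1) c - u0 j c)) / 4‖ ≤
      (2 * h + L * η / 2) / 2 + (2 * h + L * η / 2) + (2 * h + L * η / 2) / 2 + (2 * (4 * h + η)) / 2 +
        (2 * (2 * (4 * h + η))) / 4 := by
    refine (norm_add_le _ _).trans (add_le_add ((norm_add_le _ _).trans (add_le_add
      ((norm_add_le _ _).trans (add_le_add ((norm_add_le _ _).trans (add_le_add ?_ ?_)) ?_)) ?_)) ?_)
    · rw [norm_div, n2]; linarith
    · exact w1
    · rw [norm_div, n2]; linarith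
    · rw [norm_div, n2]
      have := norm_sub_le (u1 j (c + L) - u0 j (c + L)) (u1 j c - u0 j c)
      linarith
    · rw [norm_div, n4]
      have := norm_sub_le (u0 (j + 1) (c + L) - u0 j (c + L)) (u0 (j + 1) c - u0 j c)
      linarith
  have b2 := mul_le_mul_of_nonneg_left b hκ0
  have b3 : κ * ((2 * h + L * η / 2) / 2 + (2 * h + L * η / 2) + (2 * h + L * η / 2) / 2 +
      (2 * (4 * h + η)) / 2 + (2 * (2 * (4 * h + η))) / 4) ≤
      2 * ((2 * h + L * η / 2) / 2 + (2 * h + L * η / 2) + (2 * h + L * η / 2) / 2 +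
      (2 * (4 * h + η)) / 2 + (2 * (2 * (4 * h + η))) / 4) := by
    refine mul_le_mul_of_nonneg_right hκ ?_
    positivity
  have b4 : η ≤ L * η := by nlinarith
  linarith

/-- the second difference of the window sums -/
theorem Es_c (H : Red κ h η J L cc u0 u1 P0 P1) {j c : ℕ} (h1 : Rg J L cc j c)
    (h2 : Rg J L cc j (c + 1 + L)) : ‖Es L u0 j (c + 1) - Es L u0 j c‖ ≤ 2 * (4 * h + η) := by
  have e : Es L u0 j (c + 1) - Es L u0 j c =
      (u0 j (c + L + 1) - u0 j (c + L)) - (u0 j (c + 1) - u0 j c) := by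
    unfold Es
    rw [show c + 1 + L = c + L + 1 from by ring]
    ring
  rw [e]
  refine (norm_sub_le _ _).trans ?_
  have r : ∀ i ≤ 1 + L, Rg J L cc j (c + i) := fun i hi => ⟨h1.1, by have := h1.2.1; omega, by
    have := h2.2.2; omega⟩
  have a1 := step0 H (r L (by omega)) (r (L + 1) (by omega))
  have a2 := step0 H (r 0 (by omega)) (r 1 (by omega))
  rw [add_zero] at a2
  linarith

theorem Es_j (H : Red κ h η J L cc u0 u1 P0 P1) {j c : ℕ} (hj : j < J) (h1 : Rg J L cc j c)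
    (h2 : Rg J L cc j (c + L)) (h3 : Rg J L cc (j + 1) c) (h4 : Rg J L cc (j + 1) (c + L)) :
    ‖Es L u0 (j + 1) c - Es L u0 j c‖ ≤ 4 * (4 * h + η) := by
  have e : Es L u0 (j + 1) c - Es L u0 j c =
      (u0 (j + 1) (c + L) - u0 j (c + L)) - (u0 (j + 1) c - u0 j c) := by
    unfold Es
    ring
  rw [e]
  refine (norm_sub_le _ _).trans ?_
  have a1 := stepD H hj h2 h4
  have a2 := stepD H hj h1 h3
  linarith

/-- the interpolated window sum -/
def ws (L : ℕ) (cc : ℕ → ℕ) (r : ℕ → ℝ) (u : ℕ → ℕ → ℂ) (j : ℕ) : ℂ :=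
  Vs L u j (cc j) - r j * Es L u j (cc j)

theorem ws_step (H : Red κ h η J L cc u0 u1 P0 P1) (hκ0 : 0 ≤ κ) (hκ : κ ≤ 2) (h0 : 0 ≤ h) (hη : 0 ≤ η)
    (hL : 1 ≤ L) (hcc : ∀ j, cc (j + 1) ≤ cc j) {r : ℕ → ℝ} {j m : ℕ} (hj : j < J)
    (hm : cc j = cc (j + 1) + m) (hm2 : m ≤ 2) (hr : r (j + 1) = r j + κ - m) (hr0 : |r j| ≤ 1)
    (hr1 : |r (j + 1)| ≤ 1) :
    ‖ws L cc r u0 (j + 1) - ws L cc r u0 j‖ ≤ 64 * h + 18 * (L * η) := by
  have hLr : (1 : ℝ) ≤ L := by exact_mod_cast hL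
  have hηL : η ≤ L * η := by nlinarith
  have hp := pair H hκ0 hκ h0 hη hL hcc hj
  obtain ⟨c, hc⟩ : ∃ c, c = cc (j + 1) := ⟨_, rfl⟩
  have hc1 := hcc j
  have hc2 := hcc (j + 1)
  unfold ws
  rw [hm]
  rw [← hc] at hp ⊢
  have r0 : ∀ i ≤ L + m, Rg J L cc j (c + i) := fun i hi => ⟨by omega, by omega, by omega⟩
  have r1 : ∀ i ≤ L, Rg J L cc (j + 1) (c + i) := fun i hi => ⟨by omega, by omega, by omega⟩
  have hE1 : ‖Es L u0 (j + 1) c - Es L u0 j c‖ ≤ 4 * (4 * h + η) :=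
    Es_j H hj (r0 0 (by omega)) (r0 L (by omega)) (r1 0 (by omega)) (r1 L le_rfl)
  have hEc : ∀ i < m, ‖Es L u0 j (c + i + 1) - Es L u0 j (c + i)‖ ≤ 2 * (4 * h + η) := fun i hi =>
    Es_c H (r0 i (by omega)) (by
      have := r0 (i + 1 + L) (by omega)
      rwa [show c + (i + 1 + L) = c + i + 1 + L from by ring] at this)
  -- the difference in the direction `c`
  have hV : ‖Vs L u0 j (c + m) - Vs L u0 j c - m * Es L u0 j c‖ ≤ 2 * (4 * h + η) ∧
      ‖Es L u0 j (c + m) - Es L u0 j c‖ ≤ 4 * (4 * h + η) := by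
    have hpos : 0 ≤ 4 * h + η := by positivity
    interval_cases m
    · constructor
      · simp; linarith
      · simp; linarith
    · constructor
      · rw [Vs_succ]
        simp
        linarith
      · have := hEc 0 (by omega)
        rw [add_zero] at this
        exact this.trans (by linarith)
    · have a0 := hEc 0 (by omega)
      have a1 := hEc 1 (by omega)
      rw [add_zero] at a0
      constructor
      · have e : Vs L u0 j (c + 2) - Vs L u0 j c - ((2 : ℕ) : ℂ) * Es L u0 j c =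
            Es L u0 j (c + 1) - Es L u0 j c := by
          rw [← Vs_succ u0 j (c + 1), ← Vs_succ u0 j c, show c + 1 + 1 = c + 2 from rfl]
          push_cast
          ring
        rw [e]
        exact a0
      · have e : Es L u0 j (c + 2) - Es L u0 j c =
            (Es L u0 j (c + 1 + 1) - Es L u0 j (c + 1)) + (Es L u0 j (c + 1) - Es L u0 j c) := by
          rw [show c + 1 + 1 = c + 2 from rfl]; ring
        rw [e]
        exact (norm_add_le _ _).trans (by linarith)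
  have e : Vs L u0 (j + 1) c - r (j + 1) * Es L u0 (j + 1) c -
      (Vs L u0 j (c + m) - r j * Es L u0 j (c + m)) =
      (Vs L u0 (j + 1) c - Vs L u0 j c - κ * Es L u0 j c) -
        (Vs L u0 j (c + m) - Vs L u0 j c - m * Es L u0 j c) +
        r j * (Es L u0 j (c + m) - Es L u0 j c) - r (j + 1) * (Es L u0 (j + 1) c - Es L u0 j c) := by
    have hr' : ((r (j + 1) : ℝ) : ℂ) = r j + κ - m := by
      rw [hr]; push_cast; ring
    have e2 : ((r (j + 1) : ℝ) : ℂ) * Es L u0 j c = (r j + κ - m) * Es L u0 j c := by rw [hr']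
    linear_combination -e2
  rw [e]
  have n1 : ‖(r j : ℂ) * (Es L u0 j (c + m) - Es L u0 j c)‖ ≤ 4 * (4 * h + η) := by
    rw [norm_mul, Complex.norm_real, Real.norm_eq_abs]
    refine (mul_le_mul hr0 hV.2 (norm_nonneg _) zero_le_one).trans ?_
    linarith
  have n2 : ‖(r (j + 1) : ℂ) * (Es L u0 (j + 1) c - Es L u0 j c)‖ ≤ 4 * (4 * h + η) := by
    rw [norm_mul, Complex.norm_real, Real.norm_eq_abs]
    refine (mul_le_mul hr1 hE1 (norm_nonneg _) zero_le_one).trans ?_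
    linarith
  refine (norm_sub_le _ _).trans ?_
  refine (add_le_add ((norm_add_le _ _).trans (add_le_add (norm_sub_le _ _) le_rfl)) le_rfl).trans ?_
  have := hV.1
  linarith

/-- **The reduced form.** -/
theorem core (H : Red κ h η J L cc u0 u1 P0 P1) (hκ0 : 0 ≤ κ) (hκ : κ ≤ 2) (h0 : 0 ≤ h) (hη : 0 ≤ η)
    (hL : 1 ≤ L) (hcc : ∀ j, cc (j + 1) ≤ cc j) {r : ℕ → ℝ} (hr00 : r 0 = 0)
    (hm : ∀ j < J, ∃ m : ℕ, m ≤ 2 ∧ cc j = cc (j + 1) + m ∧ r (j + 1) = r j + κ - m)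
    (hr1 : ∀ j ≤ J, |r j| ≤ 1) :
    L * ‖u0 J (cc J) - u0 0 (cc 0)‖ ≤ J * (64 * h + 18 * (L * η)) + (L + 2 * (L * L)) * (4 * h + η) := by
  have hLr : (1 : ℝ) ≤ L := by exact_mod_cast hL
  have hpos : 0 ≤ 4 * h + η := by positivity
  have key : ∀ n ≤ J, ‖ws L cc r u0 n - ws L cc r u0 0‖ ≤ n * (64 * h + 18 * (L * η)) := by
    intro n
    induction n with
    | zero => intro _; simp
    | succ n ih =>
      intro hn
      obtain ⟨m, hm2, hm1, hm3⟩ := hm n (by omega)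
      have h1 := ws_step H hκ0 hκ h0 hη hL hcc (r := r) (j := n) (m := m) (by omega) hm1 hm2 hm3
        (hr1 n (by omega)) (hr1 (n + 1) hn)
      have h2 := ih (by omega)
      have e : ws L cc r u0 (n + 1) - ws L cc r u0 0 =
          (ws L cc r u0 (n + 1) - ws L cc r u0 n) + (ws L cc r u0 n - ws L cc r u0 0) := by ring
      rw [e]
      refine (norm_add_le _ _).trans ?_
      push_cast
      linarith
  -- walks in the direction `c`
  have hw : ∀ j ≤ J, ∀ n ≤ L, ‖u0 j (cc j + n) - u0 j (cc j)‖ ≤ n * (4 * h + η) := by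
    intro j hj n
    induction n with
    | zero => intro _; simp
    | succ n ih =>
      intro hn
      have hcj := hcc j
      have h1 : ‖u0 j (cc j + n + 1) - u0 j (cc j + n)‖ ≤ 4 * h + η :=
        step0 H ⟨hj, by omega, by omega⟩ ⟨hj, by omega, by omega⟩
      have h2 := ih (by omega)
      have e : u0 j (cc j + (n + 1)) - u0 j (cc j) =
          (u0 j (cc j + n + 1) - u0 j (cc j + n)) + (u0 j (cc j + n) - u0 j (cc j)) := by
        rw [← add_assoc]; ring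
      rw [e]
      refine (norm_add_le _ _).trans ?_
      push_cast
      linarith
  have hVL : ∀ j ≤ J, ‖Vs L u0 j (cc j) - L * u0 j (cc j)‖ ≤ L * L * (4 * h + η) := by
    intro j hj
    have e : Vs L u0 j (cc j) - L * u0 j (cc j) = ∑ i ∈ range L, (u0 j (cc j + i) - u0 j (cc j)) := by
      unfold Vs
      rw [sum_sub_distrib, sum_const, card_range, nsmul_eq_mul]
    rw [e]
    refine (norm_sum_le _ _).trans ?_
    refine (sum_le_sum fun i hi => (hw j hj i (mem_range.1 hi).le).trans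
      (mul_le_mul_of_nonneg_right (show (i : ℝ) ≤ L from by exact_mod_cast (mem_range.1 hi).le) hpos)).trans ?_
    rw [sum_const, card_range, nsmul_eq_mul]
    linarith
  have hE : ‖Es L u0 J (cc J)‖ ≤ L * (4 * h + η) := hw J le_rfl L le_rfl
  have hJ := key J le_rfl
  have e : (L : ℂ) * (u0 J (cc J) - u0 0 (cc 0)) =
      (ws L cc r u0 J - ws L cc r u0 0) + r J * Es L u0 J (cc J) -
        (Vs L u0 J (cc J) - L * u0 J (cc J)) + (Vs L u0 0 (cc 0) - L * u0 0 (cc 0)) := by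
    unfold ws
    rw [hr00]
    push_cast
    ring
  have e2 : (L : ℝ) * ‖u0 J (cc J) - u0 0 (cc 0)‖ = ‖(L : ℂ) * (u0 J (cc J) - u0 0 (cc 0))‖ := by
    rw [norm_mul, Complex.norm_natCast]
  rw [e2, e]
  have n1 : ‖(r J : ℂ) * Es L u0 J (cc J)‖ ≤ L * (4 * h + η) := by
    rw [norm_mul, Complex.norm_real, Real.norm_eq_abs]
    refine (mul_le_mul (hr1 J le_rfl) hE (norm_nonneg _) zero_le_one).trans ?_
    linarith
  refine (norm_add_le _ _).trans ?_
  refine (add_le_add ((norm_sub_le _ _).trans (add_le_add (norm_add_le _ _) le_rfl)) le_rfl).trans ?_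
  have := hVL J le_rfl
  have := hVL 0 (Nat.zero_le _)
  linarith

end core

/-! ### the lemma -/

/-- the number of rows at `0` along the characteristic. -/
def cj (c0 : ℕ) (j : ℕ) : ℕ := c0 - ⌊√3 * j⌋₊

theorem cj_anti (c0 j : ℕ) : cj c0 (j + 1) ≤ cj c0 j := by
  unfold cj
  refine Nat.sub_le_sub_left (Nat.floor_le_floor ?_) _
  have := Real.sqrt_nonneg 3
  push_cast
  nlinarith

/-- the fractional part -/
def rj (j : ℕ) : ℝ := √3 * j - ⌊√3 * j⌋₊

theorem rj_bd (j : ℕ) : |rj j| ≤ 1 := by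
  have h0 : (0 : ℝ) ≤ √3 * j := by positivity
  have h1 := Nat.floor_le h0
  have h2 := Nat.lt_floor_add_one (√3 * j)
  unfold rj
  rw [abs_le]
  constructor <;> linarith

theorem sqrt3_le : √3 ≤ 2 := by
  rw [show (2 : ℝ) = √4 from by rw [show (4 : ℝ) = 2 ^ 2 by norm_num, Real.sqrt_sq (by norm_num)]]
  exact Real.sqrt_le_sqrt (by norm_num)

theorem cj_step {c0 J : ℕ} (hc : ⌊√3 * J⌋₊ ≤ c0) {j : ℕ} (hj : j < J) :
    ∃ m : ℕ, m ≤ 2 ∧ cj c0 j = cj c0 (j + 1) + m ∧ rj (j + 1) = rj j + √3 - m := by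
  have h3 := Real.sqrt_nonneg 3
  have h32 := sqrt3_le
  have h0 : (0 : ℝ) ≤ √3 * j := by positivity
  have h0' : (0 : ℝ) ≤ √3 * ((j + 1 : ℕ) : ℝ) := by positivity
  have a1 : ⌊√3 * j⌋₊ ≤ ⌊√3 * ((j + 1 : ℕ) : ℝ)⌋₊ := Nat.floor_le_floor (by push_cast; nlinarith)
  have a2 : ⌊√3 * ((j + 1 : ℕ) : ℝ)⌋₊ ≤ ⌊√3 * j⌋₊ + 2 := by
    have : √3 * ((j + 1 : ℕ) : ℝ) ≤ √3 * j + 2 := by push_cast; nlinarith
    refine (Nat.floor_le_floor this).trans (le_of_eq ?_)
    have e := Nat.floor_add_natCast h0 2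
    exact_mod_cast e
  have a3 : ⌊√3 * ((j + 1 : ℕ) : ℝ)⌋₊ ≤ ⌊√3 * J⌋₊ := Nat.floor_le_floor (by
    have : ((j + 1 : ℕ) : ℝ) ≤ J := by exact_mod_cast hj
    nlinarith)
  refine ⟨⌊√3 * ((j + 1 : ℕ) : ℝ)⌋₊ - ⌊√3 * j⌋₊, by omega, by unfold cj; omega, ?_⟩
  unfold rj
  rw [Nat.cast_sub a1]
  push_cast
  ring

/-- **The grid lemma.** -/
theorem grid {h η : ℝ} (h0 : 0 ≤ h) (hη : 0 ≤ η) {ω : ℂ} (hω1 : ‖ω‖ = 1) (hω : ω + ω⁻¹ = (√3 : ℝ))
    {J c0 : ℕ} (hJ : 1 ≤ J) (hc : ⌊√3 * J⌋₊ ≤ c0) {u p p' : ℕ → ℕ → ℕ → ℂ}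
    (T : ℕ → ℕ → Prop) (hT : ∀ j c, T j c ↔ j ≤ J ∧ cj c0 (j + 1) ≤ c ∧ c ≤ cj c0 j + ⌈√(J : ℝ)⌉₊)
    (bal : ∀ j c, T j c → p j j c = p' j j c)
    (b0 : ∀ j c, T j c → ‖p j j c‖ ≤ h)
    (b1 : ∀ j c, j < J → T j c → ‖p (j + 1) j c‖ ≤ h ∧ ‖p' (j + 1) j c‖ ≤ h)
    (z0 : ∀ j c, T j c → T j (c + 1) →
      ‖u j j (c + 1) - u j j c - (p j j (c + 1) + p j j c) - (p' j j (c + 1) + p' j j c)‖ ≤ η)
    (z1 : ∀ j c, j < J → T j c → T j (c + 1) →
      ‖u (j + 1) j (c + 1) - u (j + 1) j c - (p (j + 1) j (c + 1) + p (j + 1) j c) -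
        (p' (j + 1) j (c + 1) + p' (j + 1) j c)‖ ≤ η)
    (xp : ∀ j c, j < J → T j c →
      ‖u (j + 1) j c - u j j c - (p (j + 1) j c + p j j c) * ω - (p' (j + 1) j c + p' j j c) * ω⁻¹‖ ≤ η)
    (xm : ∀ j c, j < J → T j c → T (j + 1) c →
      ‖u (j + 1) (j + 1) c - u (j + 1) j c - (p (j + 1) (j + 1) c + p (j + 1) j c) * ω⁻¹ -
        (p' (j + 1) (j + 1) c + p' (j + 1) j c) * ω‖ ≤ η) :
    ‖u J J (c0 - ⌊√3 * J⌋₊) - u 0 0 c0‖ ≤ 140 * (√(J : ℝ) * h) + 40 * (J * η) := by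
  obtain ⟨L, hLd⟩ : ∃ L, L = ⌈√(J : ℝ)⌉₊ := ⟨_, rfl⟩
  have hJr : (1 : ℝ) ≤ J := by exact_mod_cast hJ
  have hs1 : 1 ≤ √(J : ℝ) := by rw [Real.one_le_sqrt]; exact hJr
  have hsJ : √(J : ℝ) * √(J : ℝ) = J := Real.mul_self_sqrt (by linarith)
  have hL1 : √(J : ℝ) ≤ L := by rw [hLd]; exact Nat.le_ceil _
  have hL2 : (L : ℝ) ≤ 2 * √(J : ℝ) := by
    have := Nat.ceil_lt_add_one (Real.sqrt_nonneg (J : ℝ))
    rw [← hLd] at this
    linarith
  have hL : 1 ≤ L := by exact_mod_cast hs1.trans hL1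
  have hTR : ∀ j c, T j c ↔ Rg J L (cj c0) j c := fun j c => by rw [hT, hLd]; rfl
  have hω1' : ‖ω⁻¹‖ = 1 := by rw [norm_inv, hω1, inv_one]
  have dd : ∀ (a b c d : ℂ) (X : ℂ), ‖X‖ = 1 → ‖X⁻¹‖ = 1 → ‖a‖ ≤ h → ‖b‖ ≤ h → ‖c‖ ≤ h → ‖d‖ ≤ h →
      ‖(a + b) * X + (c + d) * X⁻¹‖ ≤ 4 * h := by
    intro a b c d X x1 x2 ha hb hc hd
    refine (norm_add_le _ _).trans ?_
    rw [norm_mul, norm_mul, x1, x2, mul_one, mul_one]
    have := norm_add_le a b
    have := norm_add_le c d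
    linarith
  have H : Red (√3) h η J L (cj c0) (fun j c => u j j c) (fun j c => u (j + 1) j c)
      (fun j c => p j j c + p' j j c) (fun j c => p (j + 1) j c + p' (j + 1) j c) := by
    refine ⟨?_, ?_, ?_, ?_, ?_, ?_, ?_⟩
    · intro j c h1 h2
      have h3 := z0 j c ((hTR j c).2 h1) ((hTR j (c + 1)).2 h2)
      have e : u j j (c + 1) - u j j c - (p j j (c + 1) + p' j j (c + 1) + (p j j c + p' j j c)) =
          u j j (c + 1) - u j j c - (p j j (c + 1) + p j j c) - (p' j j (c + 1) + p' j j c) := by ring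
      show ‖u j j (c + 1) - u j j c - (p j j (c + 1) + p' j j (c + 1) + (p j j c + p' j j c))‖ ≤ η
      rw [e]
      exact h3
    · intro j c hj h1 h2
      have h3 := z1 j c hj ((hTR j c).2 h1) ((hTR j (c + 1)).2 h2)
      show ‖u (j + 1) j (c + 1) - u (j + 1) j c - (p (j + 1) j (c + 1) + p' (j + 1) j (c + 1) +
        (p (j + 1) j c + p' (j + 1) j c))‖ ≤ η
      have e : u (j + 1) j (c + 1) - u (j + 1) j c - (p (j + 1) j (c + 1) + p' (j + 1) j (c + 1) +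
        (p (j + 1) j c + p' (j + 1) j c)) = u (j + 1) j (c + 1) - u (j + 1) j c -
          (p (j + 1) j (c + 1) + p (j + 1) j c) - (p' (j + 1) j (c + 1) + p' (j + 1) j c) := by ring
      rw [e]
      exact h3
    · intro j c hj h1 h2
      have h3 := xp j c hj ((hTR j c).2 h1)
      have h4 := xm j c hj ((hTR j c).2 h1) ((hTR (j + 1) c).2 h2)
      have e1 := bal j c ((hTR j c).2 h1)
      have e2 := bal (j + 1) c ((hTR (j + 1) c).2 h2)
      show ‖u (j + 1) (j + 1) c - u j j c - ((√3 : ℝ) : ℂ) * ((p j j c + p' j j c) / 2 +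
        (p (j + 1) j c + p' (j + 1) j c) + (p (j + 1) (j + 1) c + p' (j + 1) (j + 1) c) / 2)‖ ≤ 2 * η
      have e : u (j + 1) (j + 1) c - u j j c - ((√3 : ℝ) : ℂ) * ((p j j c + p' j j c) / 2 +
          (p (j + 1) j c + p' (j + 1) j c) + (p (j + 1) (j + 1) c + p' (j + 1) (j + 1) c) / 2) =
          (u (j + 1) j c - u j j c - (p (j + 1) j c + p j j c) * ω - (p' (j + 1) j c + p' j j c) * ω⁻¹) +
          (u (j + 1) (j + 1) c - u (j + 1) j c - (p (j + 1) (j + 1) c + p (j + 1) j c) * ω⁻¹ -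
            (p' (j + 1) (j + 1) c + p' (j + 1) j c) * ω) := by
        rw [← hω, e1, e2]
        ring
      rw [e]
      exact (norm_add_le _ _).trans (by linarith)
    · intro j c hj h1
      have hTj := (hTR j c).2 h1
      have h3 := xp j c hj hTj
      obtain ⟨b1a, b1b⟩ := b1 j c hj hTj
      have b0a := b0 j c hTj
      have b0b : ‖p' j j c‖ ≤ h := by rw [← bal j c hTj]; exact b0a
      have h5 := dd (p (j + 1) j c) (p j j c) (p' (j + 1) j c) (p' j j c) ω hω1 hω1' b1a b0a b1b b0b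
      have e : u (j + 1) j c - u j j c =
          (u (j + 1) j c - u j j c - (p (j + 1) j c + p j j c) * ω - (p' (j + 1) j c + p' j j c) * ω⁻¹) +
            ((p (j + 1) j c + p j j c) * ω + (p' (j + 1) j c + p' j j c) * ω⁻¹) := by ring
      show ‖u (j + 1) j c - u j j c‖ ≤ 4 * h + η
      rw [e]
      exact (norm_add_le _ _).trans (by linarith)
    · intro j c hj h1 h2
      have hTj := (hTR j c).2 h1
      have hTj1 := (hTR (j + 1) c).2 h2
      have h3 := xm j c hj hTj hTj1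
      obtain ⟨b1a, b1b⟩ := b1 j c hj hTj
      have b0a := b0 (j + 1) c hTj1
      have b0b : ‖p' (j + 1) (j + 1) c‖ ≤ h := by rw [← bal (j + 1) c hTj1]; exact b0a
      have h5 := dd (p (j + 1) (j + 1) c) (p (j + 1) j c) (p' (j + 1) (j + 1) c) (p' (j + 1) j c) ω⁻¹ hω1'
        (by rw [inv_inv]; exact hω1) b0a b1a b0b b1b
      rw [inv_inv] at h5
      have e : u (j + 1) (j + 1) c - u (j + 1) j c =
          (u (j + 1) (j + 1) c - u (j + 1) j c - (p (j + 1) (j + 1) c + p (j + 1) j c) * ω⁻¹ -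
            (p' (j + 1) (j + 1) c + p' (j + 1) j c) * ω) +
            ((p (j + 1) (j + 1) c + p (j + 1) j c) * ω⁻¹ + (p' (j + 1) (j + 1) c + p' (j + 1) j c) * ω) := by
        ring
      show ‖u (j + 1) (j + 1) c - u (j + 1) j c‖ ≤ 4 * h + η
      rw [e]
      exact (norm_add_le _ _).trans (by linarith)
    · intro j c h1
      have hTj := (hTR j c).2 h1
      have b0a := b0 j c hTj
      have b0b : ‖p' j j c‖ ≤ h := by rw [← bal j c hTj]; exact b0a
      exact (norm_add_le _ _).trans (by linarith)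
    · intro j c hj h1
      obtain ⟨b1a, b1b⟩ := b1 j c hj ((hTR j c).2 h1)
      exact (norm_add_le _ _).trans (by linarith)
  have key := core H (Real.sqrt_nonneg 3) sqrt3_le h0 hη hL (cj_anti c0) (r := rj)
    (by simp [rj]) (fun j hj => cj_step hc hj) (fun j _ => rj_bd j)
  have ec0 : cj c0 0 = c0 := by simp [cj]
  have ecJ : cj c0 J = c0 - ⌊√3 * J⌋₊ := rfl
  rw [ec0, ecJ] at key
  set D := ‖u J J (c0 - ⌊√3 * J⌋₊) - u 0 0 c0‖ with hD
  have hD0 : 0 ≤ D := norm_nonneg _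
  set s := √(J : ℝ) with hs
  have hLp : (0 : ℝ) < L := by linarith
  -- divide by `L`
  have k1 : (J : ℝ) * (64 * h + 18 * (L * η)) + (L + 2 * (L * L)) * (4 * h + η) ≤
      L * (140 * (s * h) + 40 * (J * η)) := by
    have a1 : (J : ℝ) * (64 * h) ≤ L * (64 * (s * h)) := by
      have : (J : ℝ) * h ≤ L * (s * h) := by
        rw [← hsJ]
        have := mul_le_mul_of_nonneg_right hL1 (mul_nonneg (by linarith : (0 : ℝ) ≤ s) h0)
        linarith
      linarith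
    have a2 : (L + 2 * (L * L) : ℝ) * (4 * h) ≤ L * (20 * (s * h)) := by
      have : (1 + 2 * L : ℝ) ≤ 5 * s := by linarith
      have := mul_le_mul_of_nonneg_right this (mul_nonneg hLp.le h0)
      nlinarith
    have a3 : (L + 2 * (L * L) : ℝ) * η ≤ L * (5 * (J * η)) := by
      have h5 : (1 + 2 * L : ℝ) ≤ 5 * J := by nlinarith
      have := mul_le_mul_of_nonneg_right h5 (mul_nonneg hLp.le hη)
      nlinarith
    have a4 : 0 ≤ L * (s * h) := mul_nonneg hLp.le (mul_nonneg (by linarith) h0)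
    have a5 : 0 ≤ L * (J * η) := mul_nonneg hLp.le (mul_nonneg (by linarith) hη)
    nlinarith
  have k2 : (L : ℝ) * D ≤ L * (140 * (s * h) + 40 * (J * η)) := key.trans k1
  exact le_of_mul_le_mul_left k2 hLp

end Pool.Agent.IST.Grid
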