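import Mathlib

/-!
# From exponentials of statistics to exponentials of squares

`hub1`: a measure `w μ`, a statistic `N` with `|N| ≤ A`; if `∫ w exp (t N) ≤ M exp (q t² / 2 + c |t|)` for
`|t| ≤ T`, then `∫ w exp (a N² / 2) ≤ M 2 √2 exp (a c²)` as soon as `a q ≤ 1 / 2` and `4 a A ≤ T`.

`hubN`: countably many statistics: `∫ w exp (Q / 2) ≤ M (1 + 2 √2 exp K)` for `Q ≤ ∑ lam_j N_j²` when
`lam_j = p_j a_j`, `∑ p_j ≤ 1` and every `a_j` is as in `hub1` with `a_j c_j² ≤ K`.

`hubI`: a continuous family of statistics, `Q ≤ ∫ a N_y² ρ(dy)` with a probability measure `ρ`.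
-/

set_option autoImplicit false

noncomputable section

open MeasureTheory Real
open scoped ENNReal

namespace ISTH

lemma exp_sq_aux {a : ℝ} (ha : 0 < a) (n t : ℝ) :
    t * n - t ^ 2 / (2 * a) = -(1 / (2 * a)) * (t - a * n) ^ 2 + a * n ^ 2 / 2 := by
  field_simp
  ring

lemma exp_sq_integrable {a : ℝ} (ha : 0 < a) (n : ℝ) :
    Integrable fun t : ℝ => Real.exp (t * n - t ^ 2 / (2 * a)) := by
  have h := (integrable_exp_neg_mul_sq (show (0 : ℝ) < 1 / (2 * a) by positivity)).comp_sub_right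
    (a * n)
  refine (h.mul_const (Real.exp (a * n ^ 2 / 2))).congr (Filter.Eventually.of_forall fun t => ?_)
  simp only
  rw [← Real.exp_add, exp_sq_aux ha]

lemma exp_sq_eq {a : ℝ} (ha : 0 < a) (n : ℝ) :
    ∫ t : ℝ, Real.exp (t * n - t ^ 2 / (2 * a)) =
      Real.sqrt (2 * π * a) * Real.exp (a * n ^ 2 / 2) := by
  have h1 : (fun t : ℝ => Real.exp (t * n - t ^ 2 / (2 * a))) =
      fun t : ℝ => (fun s : ℝ => Real.exp (-(1 / (2 * a)) * s ^ 2)) (t - a * n) *
        Real.exp (a * n ^ 2 / 2) := by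
    funext t
    simp only
    rw [← Real.exp_add, exp_sq_aux ha]
  rw [h1, integral_mul_const, integral_sub_right_eq_self
    (fun s : ℝ => Real.exp (-(1 / (2 * a)) * s ^ 2)) (a * n), integral_gaussian]
  congr 2
  field_simp

lemma exp_sq_lintegral {a : ℝ} (ha : 0 < a) (n : ℝ) :
    ∫⁻ t : ℝ, ENNReal.ofReal (Real.exp (t * n - t ^ 2 / (2 * a))) =
      ENNReal.ofReal (Real.sqrt (2 * π * a) * Real.exp (a * n ^ 2 / 2)) := by
  rw [← exp_sq_eq ha, ofReal_integral_eq_lintegral_ofReal (exp_sq_integrable ha n)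
    (Filter.Eventually.of_forall fun t => (Real.exp_pos _).le)]

/-- `∫ exp (-t²/(4a) + c|t|) ≤ 2 √(4πa) exp (a c²)` -/
lemma tail_lintegral {a : ℝ} (ha : 0 < a) (c : ℝ) :
    ∫⁻ t : ℝ, ENNReal.ofReal (Real.exp (c * |t| - t ^ 2 / (4 * a))) ≤
      ENNReal.ofReal (2 * (Real.sqrt (4 * π * a) * Real.exp (a * c ^ 2))) := by
  have h2 : ∀ s : ℝ, ∫⁻ t : ℝ, ENNReal.ofReal (Real.exp (t * s - t ^ 2 / (4 * a))) =
      ENNReal.ofReal (Real.sqrt (4 * π * a) * Real.exp (a * s ^ 2)) := by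
    intro s
    have h := exp_sq_lintegral (a := 2 * a) (by positivity) s
    rw [show 2 * (2 * a) = 4 * a by ring, show 2 * π * (2 * a) = 4 * π * a by ring,
      show 2 * a * s ^ 2 / 2 = a * s ^ 2 by ring] at h
    exact h
  calc ∫⁻ t : ℝ, ENNReal.ofReal (Real.exp (c * |t| - t ^ 2 / (4 * a)))
      ≤ ∫⁻ t : ℝ, (ENNReal.ofReal (Real.exp (t * c - t ^ 2 / (4 * a))) +
          ENNReal.ofReal (Real.exp (t * (-c) - t ^ 2 / (4 * a)))) := by
        refine lintegral_mono fun t => ?_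
        simp only
        rw [← ENNReal.ofReal_add (Real.exp_pos _).le (Real.exp_pos _).le]
        refine ENNReal.ofReal_le_ofReal ?_
        rcases le_total 0 t with h | h
        · rw [abs_of_nonneg h, mul_comm c t]
          linarith [Real.exp_pos (t * (-c) - t ^ 2 / (4 * a))]
        · rw [abs_of_nonpos h, show c * -t = t * (-c) by ring]
          linarith [Real.exp_pos (t * c - t ^ 2 / (4 * a))]
    _ = ENNReal.ofReal (2 * (Real.sqrt (4 * π * a) * Real.exp (a * c ^ 2))) := by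
        rw [lintegral_add_left (by fun_prop), h2, h2, neg_sq,
          ← ENNReal.ofReal_add (by positivity) (by positivity)]
        congr 1
        ring

/-- **one statistic** -/
theorem hub1 {X : Type*} [MeasurableSpace X] {μ : Measure X} [SFinite μ] {w : X → ℝ≥0∞}
    (hw : Measurable w) {N : X → ℝ} (hN : Measurable N) {A T q c : ℝ} {M : ℝ≥0∞}
    (hA : ∀ x, |N x| ≤ A) (hT : 0 ≤ T) (hc : 0 ≤ c)
    (h : ∀ t : ℝ, |t| ≤ T → ∫⁻ x, w x * ENNReal.ofReal (Real.exp (t * N x)) ∂μ ≤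
      M * ENNReal.ofReal (Real.exp (q * t ^ 2 / 2 + c * |t|)))
    {a : ℝ} (ha : 0 ≤ a) (haq : a * q ≤ 1 / 2) (haT : 4 * a * A ≤ T) :
    ∫⁻ x, w x * ENNReal.ofReal (Real.exp (a * N x ^ 2 / 2)) ∂μ ≤
      M * ENNReal.ofReal (2 * Real.sqrt 2 * Real.exp (a * c ^ 2)) := by
  have h0 : ∫⁻ x, w x ∂μ ≤ M := by
    have := h 0 (by simpa using hT)
    simpa using this
  have h2 : (1 : ℝ) ≤ Real.sqrt 2 := by
    rw [Real.one_le_sqrt]
    norm_num
  rcases ha.eq_or_lt with ha0 | ha0
  · subst ha0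
    have e1 : (1 : ℝ≥0∞) ≤ ENNReal.ofReal (2 * Real.sqrt 2 * Real.exp (0 * c ^ 2)) := by
      rw [zero_mul, Real.exp_zero, ← ENNReal.ofReal_one]
      exact ENNReal.ofReal_le_ofReal (by linarith)
    calc ∫⁻ x, w x * ENNReal.ofReal (Real.exp (0 * N x ^ 2 / 2)) ∂μ = ∫⁻ x, w x ∂μ := by
          simp
      _ ≤ M * 1 := by rw [mul_one]; exact h0
      _ ≤ _ := mul_le_mul' le_rfl e1
  -- all `t`
  have hall : ∀ t : ℝ, ∫⁻ x, w x * ENNReal.ofReal (Real.exp (t * N x)) ∂μ ≤
      M * ENNReal.ofReal (Real.exp (t ^ 2 / (4 * a) + c * |t|)) := by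
    intro t
    rcases le_or_gt |t| T with ht | ht
    · refine (h t ht).trans (mul_le_mul' le_rfl (ENNReal.ofReal_le_ofReal (Real.exp_le_exp.2 ?_)))
      have e1 : q * t ^ 2 / 2 ≤ t ^ 2 / (4 * a) := by
        rw [div_le_div_iff₀ (by norm_num) (by positivity)]
        nlinarith [mul_le_mul_of_nonneg_right haq (sq_nonneg t)]
      linarith
    · have e1 : ∀ x, Real.exp (t * N x) ≤ Real.exp (t ^ 2 / (4 * a) + c * |t|) := by
        intro x
        refine Real.exp_le_exp.2 ?_
        have e2 : t * N x ≤ |t| * A := by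
          refine (le_abs_self _).trans ?_
          rw [abs_mul]
          exact mul_le_mul_of_nonneg_left (hA x) (abs_nonneg _)
        have e3 : |t| * A ≤ t ^ 2 / (4 * a) := by
          rw [le_div_iff₀ (by positivity), ← sq_abs t]
          have : 4 * a * A ≤ |t| := haT.trans ht.le
          nlinarith [mul_le_mul_of_nonneg_left this (abs_nonneg t)]
        have e4 : 0 ≤ c * |t| := mul_nonneg hc (abs_nonneg _)
        linarith
      calc ∫⁻ x, w x * ENNReal.ofReal (Real.exp (t * N x)) ∂μ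
          ≤ ∫⁻ x, w x * ENNReal.ofReal (Real.exp (t ^ 2 / (4 * a) + c * |t|)) ∂μ :=
            lintegral_mono fun x => mul_le_mul' le_rfl (ENNReal.ofReal_le_ofReal (e1 x))
        _ = (∫⁻ x, w x ∂μ) * ENNReal.ofReal (Real.exp (t ^ 2 / (4 * a) + c * |t|)) :=
            lintegral_mul_const _ hw
        _ ≤ _ := mul_le_mul' h0 le_rfl
  -- the Gaussian average
  have hs : 0 < Real.sqrt (2 * π * a) := Real.sqrt_pos.2 (by positivity)
  have key : ENNReal.ofReal (Real.sqrt (2 * π * a)) *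
      ∫⁻ x, w x * ENNReal.ofReal (Real.exp (a * N x ^ 2 / 2)) ∂μ ≤
      M * ENNReal.ofReal (2 * (Real.sqrt (4 * π * a) * Real.exp (a * c ^ 2))) := by
    calc ENNReal.ofReal (Real.sqrt (2 * π * a)) *
        ∫⁻ x, w x * ENNReal.ofReal (Real.exp (a * N x ^ 2 / 2)) ∂μ
        = ∫⁻ x, (∫⁻ t : ℝ, w x * ENNReal.ofReal (Real.exp (t * N x - t ^ 2 / (2 * a)))) ∂μ := by
          rw [← lintegral_const_mul _ (by fun_prop)]
          refine lintegral_congr fun x => ?_
          rw [lintegral_const_mul _ (by fun_prop), exp_sq_lintegral ha0,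
            ENNReal.ofReal_mul hs.le]
          ring
      _ = ∫⁻ t : ℝ, (∫⁻ x, w x * ENNReal.ofReal (Real.exp (t * N x - t ^ 2 / (2 * a))) ∂μ) := by
          refine lintegral_lintegral_swap ?_
          refine (Measurable.mul (hw.comp measurable_fst) ?_).aemeasurable
          fun_prop
      _ ≤ ∫⁻ t : ℝ, M * ENNReal.ofReal (Real.exp (c * |t| - t ^ 2 / (4 * a))) := by
          refine lintegral_mono fun t => ?_
          have e1 : ∀ x, w x * ENNReal.ofReal (Real.exp (t * N x - t ^ 2 / (2 * a))) =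
              w x * ENNReal.ofReal (Real.exp (t * N x)) *
                ENNReal.ofReal (Real.exp (-(t ^ 2 / (2 * a)))) := by
            intro x
            rw [sub_eq_add_neg, Real.exp_add, ENNReal.ofReal_mul (Real.exp_pos _).le]
            ring
          simp only [e1]
          rw [lintegral_mul_const _ (by fun_prop)]
          refine (mul_le_mul' (hall t) le_rfl).trans (le_of_eq ?_)
          rw [mul_assoc, ← ENNReal.ofReal_mul (Real.exp_pos _).le, ← Real.exp_add]
          congr 3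
          field_simp
          ring
      _ = M * ∫⁻ t : ℝ, ENNReal.ofReal (Real.exp (c * |t| - t ^ 2 / (4 * a))) := by
          rw [lintegral_const_mul _ (by fun_prop)]
      _ ≤ _ := mul_le_mul' le_rfl (tail_lintegral ha0 c)
  have e5 : Real.sqrt (4 * π * a) = Real.sqrt 2 * Real.sqrt (2 * π * a) := by
    rw [← Real.sqrt_mul (by norm_num)]
    congr 1
    ring
  rw [e5, show 2 * (Real.sqrt 2 * Real.sqrt (2 * π * a) * Real.exp (a * c ^ 2)) =
    Real.sqrt (2 * π * a) * (2 * Real.sqrt 2 * Real.exp (a * c ^ 2)) by ring,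
    ENNReal.ofReal_mul hs.le, mul_left_comm M] at key
  have e6 : ENNReal.ofReal (Real.sqrt (2 * π * a)) ≠ 0 := by
    simpa using hs
  exact (ENNReal.mul_le_mul_iff_right e6 ENNReal.ofReal_ne_top).1 key

/-- Jensen for a countable sum of non-negative terms with weights of total mass at most one -/
lemma exp_tsum_le {ι : Type*} {p y : ι → ℝ} (hp : ∀ j, 0 ≤ p j)
    (hps : Summable p) (hp1 : ∑' j, p j ≤ 1) {Q : ℝ} (hQ : HasSum (fun j => p j * y j) Q) :
    ENNReal.ofReal (Real.exp Q) ≤ 1 + ∑' j, ENNReal.ofReal (p j) * ENNReal.ofReal (Real.exp (y j)) := by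
  have hfin : ∀ s : Finset ι, ENNReal.ofReal (Real.exp (∑ j ∈ s, p j * y j)) ≤
      1 + ∑' j, ENNReal.ofReal (p j) * ENNReal.ofReal (Real.exp (y j)) := by
    intro s
    have hs1 : ∑ j ∈ s, p j ≤ 1 := (hps.sum_le_tsum s fun j _ => hp j).trans hp1
    have hcv : Real.exp (∑ j ∈ s, p j * y j) ≤ 1 + ∑ j ∈ s, p j * Real.exp (y j) := by
      have hJ := convexOn_exp.map_sum_le (t := Finset.insertNone s)
        (w := fun o : Option ι => o.elim (1 - ∑ j ∈ s, p j) p)
        (p := fun o : Option ι => o.elim 0 y)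
        (by
          rintro (_ | j) _
          · simpa using hs1
          · exact hp j)
        (by
          rw [Finset.sum_insertNone]
          simp)
        (fun _ _ => Set.mem_univ _)
      rw [Finset.sum_insertNone, Finset.sum_insertNone] at hJ
      simp only [Option.elim, smul_eq_mul, mul_zero, zero_add, Real.exp_zero, mul_one] at hJ
      have : 0 ≤ ∑ j ∈ s, p j := Finset.sum_nonneg fun j _ => hp j
      linarith
    refine (ENNReal.ofReal_le_ofReal hcv).trans ?_
    rw [ENNReal.ofReal_add zero_le_one (Finset.sum_nonneg fun j _ =>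
      mul_nonneg (hp j) (Real.exp_pos _).le), ENNReal.ofReal_one]
    refine add_le_add le_rfl ?_
    rw [ENNReal.ofReal_sum_of_nonneg fun j _ => mul_nonneg (hp j) (Real.exp_pos _).le]
    simp only [ENNReal.ofReal_mul (hp _)]
    exact ENNReal.sum_le_tsum s
  have ht : Filter.Tendsto (fun s : Finset ι => ENNReal.ofReal (Real.exp (∑ j ∈ s, p j * y j)))
      Filter.atTop (nhds (ENNReal.ofReal (Real.exp Q))) :=
    (ENNReal.continuous_ofReal.comp Real.continuous_exp).continuousAt.tendsto.comp hQ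
  exact le_of_tendsto' ht hfin

/-- **countably many statistics** -/
theorem hubN {X : Type*} [MeasurableSpace X] {μ : Measure X} [SFinite μ] {w : X → ℝ≥0∞}
    (hw : Measurable w) {ι : Type*} [Countable ι] {N : ι → X → ℝ} (hN : ∀ j, Measurable (N j))
    {A T q c a p : ι → ℝ} {M : ℝ≥0∞} {K : ℝ}
    (hA : ∀ j x, |N j x| ≤ A j) (hT : ∀ j, 0 ≤ T j) (hc : ∀ j, 0 ≤ c j)
    (h : ∀ j, ∀ t : ℝ, |t| ≤ T j → ∫⁻ x, w x * ENNReal.ofReal (Real.exp (t * N j x)) ∂μ ≤
      M * ENNReal.ofReal (Real.exp (q j * t ^ 2 / 2 + c j * |t|)))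
    (ha : ∀ j, 0 ≤ a j) (haq : ∀ j, a j * q j ≤ 1 / 2) (haT : ∀ j, 4 * a j * A j ≤ T j)
    (haK : ∀ j, a j * c j ^ 2 ≤ K) (hp : ∀ j, 0 ≤ p j) (hps : Summable p)
    (hp1 : ∑' j, p j ≤ 1) (hM : ∫⁻ x, w x ∂μ ≤ M) {Q : X → ℝ}
    (hQ : ∀ x, ∃ Q', Q x ≤ Q' ∧ HasSum (fun j => p j * (a j * N j x ^ 2)) Q') :
    ∫⁻ x, w x * ENNReal.ofReal (Real.exp (Q x / 2)) ∂μ ≤
      M * ENNReal.ofReal (1 + 2 * Real.sqrt 2 * Real.exp K) := by
  have h1 : ∀ x, ENNReal.ofReal (Real.exp (Q x / 2)) ≤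
      1 + ∑' j, ENNReal.ofReal (p j) * ENNReal.ofReal (Real.exp (a j * N j x ^ 2 / 2)) := by
    intro x
    obtain ⟨Q', hQ1, hQ2⟩ := hQ x
    have h2 : HasSum (fun j => p j * (a j * N j x ^ 2 / 2)) (Q' / 2) := by
      have := hQ2.div_const 2
      refine this.congr_fun ?_
      intro j
      ring
    refine le_trans (ENNReal.ofReal_le_ofReal (Real.exp_le_exp.2 (by linarith))) (exp_tsum_le hp
      hps hp1 h2)
  calc ∫⁻ x, w x * ENNReal.ofReal (Real.exp (Q x / 2)) ∂μ
      ≤ ∫⁻ x, (w x + ∑' j, ENNReal.ofReal (p j) *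
          (w x * ENNReal.ofReal (Real.exp (a j * N j x ^ 2 / 2)))) ∂μ := by
        refine lintegral_mono fun x => ?_
        refine (mul_le_mul' le_rfl (h1 x)).trans (le_of_eq ?_)
        rw [mul_add, mul_one, ← ENNReal.tsum_mul_left]
        congr 1
        refine tsum_congr fun j => ?_
        ring
    _ = ∫⁻ x, w x ∂μ + ∑' j, ENNReal.ofReal (p j) *
          ∫⁻ x, w x * ENNReal.ofReal (Real.exp (a j * N j x ^ 2 / 2)) ∂μ := by
        rw [lintegral_add_left hw, lintegral_tsum fun j => by fun_prop]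
        congr 1
        refine tsum_congr fun j => ?_
        rw [lintegral_const_mul _ (by fun_prop)]
    _ ≤ M + ∑' j, ENNReal.ofReal (p j) * (M * ENNReal.ofReal (2 * Real.sqrt 2 * Real.exp K)) := by
        refine add_le_add hM (ENNReal.tsum_le_tsum fun j => mul_le_mul' le_rfl ?_)
        refine (hub1 hw (hN j) (hA j) (hT j) (hc j) (h j) (ha j) (haq j) (haT j)).trans ?_
        refine mul_le_mul' le_rfl (ENNReal.ofReal_le_ofReal ?_)
        have := haK j
        gcongr
    _ ≤ M + M * ENNReal.ofReal (2 * Real.sqrt 2 * Real.exp K) := by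
        refine add_le_add le_rfl ?_
        rw [ENNReal.tsum_mul_right, ← ENNReal.ofReal_tsum_of_nonneg hp hps]
        calc ENNReal.ofReal (∑' j, p j) * (M * ENNReal.ofReal (2 * Real.sqrt 2 * Real.exp K))
            ≤ 1 * (M * ENNReal.ofReal (2 * Real.sqrt 2 * Real.exp K)) := by
              refine mul_le_mul' ?_ le_rfl
              rw [← ENNReal.ofReal_one]
              exact ENNReal.ofReal_le_ofReal hp1
          _ = _ := one_mul _
    _ = M * ENNReal.ofReal (1 + 2 * Real.sqrt 2 * Real.exp K) := by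
        rw [ENNReal.ofReal_add zero_le_one (by positivity), ENNReal.ofReal_one, mul_add, mul_one]

/-- **a continuous family of statistics** (index with a probability measure) -/
theorem hubI {X Y : Type*} [MeasurableSpace X] [MeasurableSpace Y] {μ : Measure X} [SFinite μ]
    (ρ : Measure Y) [IsProbabilityMeasure ρ] {w : X → ℝ≥0∞} (hw : Measurable w)
    {N : Y → X → ℝ} (hN : Measurable (Function.uncurry N)) {A T q c : ℝ} {M : ℝ≥0∞}
    (hA : ∀ y x, |N y x| ≤ A) (hT : 0 ≤ T) (hc : 0 ≤ c)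
    (h : ∀ y, ∀ t : ℝ, |t| ≤ T → ∫⁻ x, w x * ENNReal.ofReal (Real.exp (t * N y x)) ∂μ ≤
      M * ENNReal.ofReal (Real.exp (q * t ^ 2 / 2 + c * |t|)))
    {a : ℝ} (ha : 0 ≤ a) (haq : a * q ≤ 1 / 2) (haT : 4 * a * A ≤ T) {Q : X → ℝ}
    (hQ : ∀ x, Q x ≤ ∫ y, a * N y x ^ 2 ∂ρ) :
    ∫⁻ x, w x * ENNReal.ofReal (Real.exp (Q x / 2)) ∂μ ≤
      M * ENNReal.ofReal (2 * Real.sqrt 2 * Real.exp (a * c ^ 2)) := by
  have hNy : ∀ y, Measurable (N y) := fun y => hN.comp measurable_prodMk_left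
  have hNx : ∀ x, Measurable fun y => N y x := fun x => hN.comp measurable_prodMk_right
  have hbd : ∀ x y, |a * N y x ^ 2 / 2| ≤ a * A ^ 2 / 2 := by
    intro x y
    have h1 : N y x ^ 2 ≤ A ^ 2 := by
      rw [← sq_abs (N y x)]
      exact pow_le_pow_left₀ (abs_nonneg _) (hA y x) 2
    rw [abs_of_nonneg (by positivity)]
    have := mul_le_mul_of_nonneg_left h1 ha
    linarith
  have hi : ∀ x, Integrable (fun y => a * N y x ^ 2 / 2) ρ := by
    intro x
    refine Integrable.of_bound (C := a * A ^ 2 / 2)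
      ((((hNx x).pow_const 2).const_mul a).div_const 2).aestronglyMeasurable ?_
    exact Filter.Eventually.of_forall fun y => by
      rw [Real.norm_eq_abs]
      exact hbd x y
  have hie : ∀ x, Integrable (fun y => Real.exp (a * N y x ^ 2 / 2)) ρ := by
    intro x
    refine Integrable.of_bound (C := Real.exp (a * A ^ 2 / 2))
      ((((hNx x).pow_const 2).const_mul a).div_const 2).exp.aestronglyMeasurable ?_
    exact Filter.Eventually.of_forall fun y => by
      rw [Real.norm_eq_abs, abs_of_pos (Real.exp_pos _)]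
      exact Real.exp_le_exp.2 ((le_abs_self _).trans (hbd x y))
  have h1 : ∀ x, ENNReal.ofReal (Real.exp (Q x / 2)) ≤
      ∫⁻ y, ENNReal.ofReal (Real.exp (a * N y x ^ 2 / 2)) ∂ρ := by
    intro x
    have hJ := convexOn_exp.map_integral_le (μ := ρ) (f := fun y => a * N y x ^ 2 / 2)
      Real.continuous_exp.continuousOn isClosed_univ (Filter.Eventually.of_forall fun _ => Set.mem_univ _)
      (hi x) (hie x)
    have h2 : Q x / 2 ≤ ∫ y, a * N y x ^ 2 / 2 ∂ρ := by
      rw [integral_div]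
      linarith [hQ x]
    rw [← ofReal_integral_eq_lintegral_ofReal (hie x)
      (Filter.Eventually.of_forall fun y => (Real.exp_pos _).le)]
    exact ENNReal.ofReal_le_ofReal ((Real.exp_le_exp.2 h2).trans hJ)
  calc ∫⁻ x, w x * ENNReal.ofReal (Real.exp (Q x / 2)) ∂μ
      ≤ ∫⁻ x, (∫⁻ y, w x * ENNReal.ofReal (Real.exp (a * N y x ^ 2 / 2)) ∂ρ) ∂μ := by
        refine lintegral_mono fun x => ?_
        rw [lintegral_const_mul _ ((((hNx x).pow_const 2).const_mul a).div_const 2).exp.ennreal_ofReal]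
        exact mul_le_mul' le_rfl (h1 x)
    _ = ∫⁻ y, (∫⁻ x, w x * ENNReal.ofReal (Real.exp (a * N y x ^ 2 / 2)) ∂μ) ∂ρ := by
        refine lintegral_lintegral_swap ?_
        refine (Measurable.mul (hw.comp measurable_fst) ?_).aemeasurable
        have : Measurable fun z : X × Y => N z.2 z.1 := hN.comp measurable_swap
        exact (((this.pow_const 2).const_mul a).div_const 2).exp.ennreal_ofReal
    _ ≤ ∫⁻ _ : Y, M * ENNReal.ofReal (2 * Real.sqrt 2 * Real.exp (a * c ^ 2)) ∂ρ :=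
        lintegral_mono fun y => hub1 hw (hNy y) (hA y) hT hc (h y) ha haq haT
    _ = _ := by simp

end ISTH
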