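import Pool.Agent.IST.PrT

/-!
# ISO, T1: contents of rows in the frame where both tails are real

`Tl`: a strip `-t1 < Im z < t2` (unit `y = 8 t / 3`), `t1 + t2 = π/3`, and a lower bound `dl` of weights.
`Pm T`: weights `w0`, `w1`, `w2` (sum one) of the rows at heights `0`, `m1 ≤ t1`, `-m2 ≥ -t2`.
`ph c = w0 r + w1 r(· + i m1) + w2 r(· - i m2)` is injective on the strip.
-/

set_option autoImplicit false

open Complex Set Filter Topology ComplexConjugate

namespace ISTZ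

noncomputable section

/-- the strip -/
structure Tl where
  t1 : ℝ
  t2 : ℝ
  dl : ℝ
  t10 : 0 < t1
  t20 : 0 < t2
  t12 : t1 + t2 = Real.pi / 3
  dl0 : 0 < dl
  dl1 : dl ≤ 1

/-- a content of rows -/
structure Pm (T : Tl) where
  w0 : ℝ
  w1 : ℝ
  w2 : ℝ
  m1 : ℝ
  m2 : ℝ
  w00 : 0 ≤ w0
  w10 : 0 ≤ w1
  w20 : 0 ≤ w2
  sum1 : w0 + w1 + w2 = 1
  d1 : T.dl ≤ w0 + w1
  d2 : T.dl ≤ w0 + w2
  m10 : 0 ≤ m1
  m11 : m1 ≤ T.t1
  m20 : 0 ≤ m2
  m21 : m2 ≤ T.t2

namespace Tl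

variable (T : Tl)

/-- the strip with margin `e` -/
def St (e : ℝ) : Set ℂ := {z | -T.t1 + e < z.im ∧ z.im < T.t2 - e}

variable {T}

lemma mem_St {e : ℝ} {z : ℂ} : z ∈ T.St e ↔ -T.t1 + e < z.im ∧ z.im < T.t2 - e := Iff.rfl

lemma St_open (e : ℝ) : IsOpen (T.St e) :=
  (isOpen_lt continuous_const Complex.continuous_im).inter
    (isOpen_lt Complex.continuous_im continuous_const)

lemma St_convex (e : ℝ) : Convex ℝ (T.St e) :=
  (convex_halfSpace_im_gt _).inter (convex_halfSpace_im_lt _)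

lemma St_mono {e e' : ℝ} (h : e' ≤ e) : T.St e ⊆ T.St e' := fun z hz =>
  ⟨by linarith [hz.1], by linarith [hz.2]⟩

end Tl

lemma im_add (z : ℂ) (a : ℝ) : (z + a * I).im = z.im + a := by simp

lemma im_sub (z : ℂ) (a : ℝ) : (z - a * I).im = z.im - a := by simp

lemma re_add (z : ℂ) (a : ℝ) : (z + a * I).re = z.re := by simp

lemma re_sub (z : ℂ) (a : ℝ) : (z - a * I).re = z.re := by simp

namespace Pm

variable {T : Tl}

/-- a combination of the values of `F` at the three places -/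
def cb (c : Pm T) (F : ℂ → ℂ) (z : ℂ) : ℂ :=
  c.w0 * F z + (c.w1 * F (z + c.m1 * I) + c.w2 * F (z - c.m2 * I))

/-- the same for real functions -/
def cbR (c : Pm T) (F : ℂ → ℝ) (z : ℂ) : ℝ :=
  c.w0 * F z + (c.w1 * F (z + c.m1 * I) + c.w2 * F (z - c.m2 * I))

/-- the primitive of the density -/
def ph (c : Pm T) : ℂ → ℂ := c.cb r

/-- the density -/
def rh (c : Pm T) : ℂ → ℂ := c.cb p

/-- its derivative -/
def rh1 (c : Pm T) : ℂ → ℂ := c.cb p1

variable {c : Pm T}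

lemma b0 {z : ℂ} {e : ℝ} (hz : z ∈ T.St e) : |z.im| ≤ Real.pi / 3 - e := by
  have := T.t10
  have := T.t20
  have := T.t12
  rw [abs_le]
  constructor <;> linarith [hz.1, hz.2]

lemma b1 {z : ℂ} {e : ℝ} (hz : z ∈ T.St e) : |(z + c.m1 * I).im| ≤ Real.pi / 3 - e := by
  have := T.t12
  have := T.t20
  have := c.m10
  have := c.m11
  rw [im_add, abs_le]
  constructor <;> linarith [hz.1, hz.2]

lemma b2 {z : ℂ} {e : ℝ} (hz : z ∈ T.St e) : |(z - c.m2 * I).im| ≤ Real.pi / 3 - e := by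
  have := T.t12
  have := T.t10
  have := c.m20
  have := c.m21
  rw [im_sub, abs_le]
  constructor <;> linarith [hz.1, hz.2]

lemma l0 {z : ℂ} (hz : z ∈ T.St 0) : |z.im| < Real.pi / 3 := by
  have := T.t10
  have := T.t20
  have := T.t12
  rw [abs_lt]
  constructor <;> linarith [hz.1, hz.2]

lemma l1 {z : ℂ} (hz : z ∈ T.St 0) : |(z + c.m1 * I).im| < Real.pi / 3 := by
  have := T.t12
  have := T.t10
  have := T.t20
  have := c.m10
  have := c.m11
  rw [im_add, abs_lt]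
  constructor <;> linarith [hz.1, hz.2]

lemma l2 {z : ℂ} (hz : z ∈ T.St 0) : |(z - c.m2 * I).im| < Real.pi / 3 := by
  have := T.t12
  have := T.t10
  have := T.t20
  have := c.m20
  have := c.m21
  rw [im_sub, abs_lt]
  constructor <;> linarith [hz.1, hz.2]

lemma rh_re (z : ℂ) : (c.rh z).re = c.cbR (fun z => (p z).re) z := by
  unfold rh cb cbR
  simp only [Complex.add_re, Complex.re_ofReal_mul]

lemma ph_im (z : ℂ) : (c.ph z).im = c.cbR (fun z => (r z).im) z := by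
  unfold ph cb cbR
  simp only [Complex.add_im, Complex.im_ofReal_mul]

lemma cb_const (c : Pm T) (B : ℝ) : c.w0 * B + (c.w1 * B + c.w2 * B) = B := by
  have h : c.w0 * B + (c.w1 * B + c.w2 * B) = (c.w0 + c.w1 + c.w2) * B := by ring
  rw [h, c.sum1, one_mul]

lemma cb_add_const (F : ℂ → ℂ) (a z : ℂ) : c.cb (fun z => F z + a) z = c.cb F z + a := by
  have h : (c.w0 : ℂ) + c.w1 + c.w2 = 1 := by exact_mod_cast c.sum1
  unfold cb
  linear_combination a * h

theorem rh_low {z : ℂ} (hz : z ∈ T.St 0) : Real.exp (-|z.re|) / 32 ≤ (c.rh z).re := by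
  have h0 := p_re (l0 hz)
  have h1 := p_re (l1 (c := c) hz)
  have h2 := p_re (l2 (c := c) hz)
  rw [re_add] at h1
  rw [re_sub] at h2
  have a0 := c.w00
  have a1 := c.w10
  have a2 := c.w20
  rw [rh_re, ← cb_const c (Real.exp (-|z.re|) / 32)]
  unfold cbR
  gcongr

lemma rh_ne {z : ℂ} (hz : z ∈ T.St 0) : c.rh z ≠ 0 := fun h => by
  have h1 := rh_low (c := c) hz
  rw [h, Complex.zero_re] at h1
  have := Real.exp_pos (-|z.re|)
  linarith

theorem cb_norm {F : ℂ → ℂ} {z : ℂ} {B : ℝ} (h0 : ‖F z‖ ≤ B)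
    (h1 : ‖F (z + c.m1 * I)‖ ≤ B) (h2 : ‖F (z - c.m2 * I)‖ ≤ B) : ‖c.cb F z‖ ≤ B := by
  have a0 := c.w00
  have a1 := c.w10
  have a2 := c.w20
  rw [← cb_const c B]
  unfold cb
  refine (norm_add_le _ _).trans (add_le_add ?_ ((norm_add_le _ _).trans (add_le_add ?_ ?_)))
  · rw [norm_mul, Complex.norm_real, Real.norm_eq_abs, abs_of_nonneg a0]
    gcongr
  · rw [norm_mul, Complex.norm_real, Real.norm_eq_abs, abs_of_nonneg a1]
    gcongr
  · rw [norm_mul, Complex.norm_real, Real.norm_eq_abs, abs_of_nonneg a2]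
    gcongr

end Pm

/-- the constant of the upper bounds -/
def cU (e : ℝ) : ℝ := 2 * ((1 / gp (Real.pi / 3 - e)) ^ 2 + 1 / gp (Real.pi / 3 - e) + 1)

lemma gpe {e : ℝ} (he : 0 < e) (he1 : e ≤ Real.pi / 3) : 0 < gp (Real.pi / 3 - e) :=
  gp_pos (by linarith) (by linarith)

lemma cU_ge {e : ℝ} (he : 0 < e) (he1 : e ≤ Real.pi / 3) : 2 ≤ cU e := by
  have := gpe he he1
  unfold cU
  have : 0 ≤ (1 / gp (Real.pi / 3 - e)) ^ 2 + 1 / gp (Real.pi / 3 - e) := by positivity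
  linarith

theorem p_up {e : ℝ} (he : 0 < e) (he1 : e ≤ Real.pi / 3) {z : ℂ} (h : |z.im| ≤ Real.pi / 3 - e) :
    ‖p z‖ ≤ cU e * Real.exp (-|z.re|) := by
  have hg := gpe he he1
  refine (p_le (by linarith) (by linarith) h).trans ?_
  have hE := Real.exp_pos (-|z.re|)
  unfold cU
  have : 0 ≤ (1 / gp (Real.pi / 3 - e)) ^ 2 := by positivity
  have : 0 ≤ 1 / gp (Real.pi / 3 - e) := by positivity
  gcongr
  linarith

theorem p1_up {e : ℝ} (he : 0 < e) (he1 : e ≤ Real.pi / 3) {z : ℂ} (h : |z.im| ≤ Real.pi / 3 - e) :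
    ‖p1 z‖ ≤ cU e * Real.exp (-|z.re|) := by
  have hg := gpe he he1
  refine (p1_le (by linarith) (by linarith) h).trans ?_
  have hE := Real.exp_pos (-|z.re|)
  unfold cU
  have : 0 ≤ 1 / gp (Real.pi / 3 - e) := by positivity
  gcongr
  linarith

namespace Pm

variable {T : Tl} {c : Pm T}

theorem rh_up {e : ℝ} (he : 0 < e) (he1 : e ≤ Real.pi / 3) {z : ℂ} (hz : z ∈ T.St e) :
    ‖c.rh z‖ ≤ cU e * Real.exp (-|z.re|) := by
  refine cb_norm (p_up he he1 (b0 hz)) ?_ ?_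
  · have := p_up he he1 (b1 (c := c) hz)
    rwa [re_add] at this
  · have := p_up he he1 (b2 (c := c) hz)
    rwa [re_sub] at this

theorem rh1_up {e : ℝ} (he : 0 < e) (he1 : e ≤ Real.pi / 3) {z : ℂ} (hz : z ∈ T.St e) :
    ‖c.rh1 z‖ ≤ cU e * Real.exp (-|z.re|) := by
  refine cb_norm (p1_up he he1 (b0 hz)) ?_ ?_
  · have := p1_up he he1 (b1 (c := c) hz)
    rwa [re_add] at this
  · have := p1_up he he1 (b2 (c := c) hz)
    rwa [re_sub] at this

theorem hasDerivAt_cb {F F1 : ℂ → ℂ} {z : ℂ} (h0 : HasDerivAt F (F1 z) z)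
    (h1 : HasDerivAt F (F1 (z + c.m1 * I)) (z + c.m1 * I))
    (h2 : HasDerivAt F (F1 (z - c.m2 * I)) (z - c.m2 * I)) :
    HasDerivAt (c.cb F) (c.cb F1 z) z := by
  have g1 : HasDerivAt (fun z => F (z + c.m1 * I)) (F1 (z + c.m1 * I)) z := h1.comp_add_const z _
  have g2 : HasDerivAt (fun z => F (z - c.m2 * I)) (F1 (z - c.m2 * I)) z := h2.comp_sub_const z _
  exact (h0.const_mul _).add ((g1.const_mul _).add (g2.const_mul _))

theorem hasDerivAt_ph {z : ℂ} (hz : z ∈ T.St 0) : HasDerivAt c.ph (c.rh z) z :=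
  hasDerivAt_cb (hasDerivAt_r (l0 hz)) (hasDerivAt_r (l1 hz)) (hasDerivAt_r (l2 hz))

theorem hasDerivAt_rh {z : ℂ} (hz : z ∈ T.St 0) : HasDerivAt c.rh (c.rh1 z) z :=
  hasDerivAt_cb (hasDerivAt_p (l0 hz)) (hasDerivAt_p (l1 hz)) (hasDerivAt_p (l2 hz))

/-- **separation** -/
theorem ph_sep {z w : ℂ} (hz : z ∈ T.St 0) (hw : w ∈ T.St 0) {M : ℝ}
    (hzM : |z.re| ≤ M) (hwM : |w.re| ≤ M) :
    ‖z - w‖ * (Real.exp (-M) / 32) ≤ ‖c.ph z - c.ph w‖ := by
  obtain ⟨k, hk⟩ : ∃ k, k = Complex.normSq (z - w) * (Real.exp (-M) / 32) := ⟨_, rfl⟩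
  obtain ⟨g, hg⟩ : ∃ g : ℝ → ℝ, g = fun t : ℝ => (conj (z - w) * c.ph (w + t * (z - w))).re - t * k :=
    ⟨_, rfl⟩
  have hmem : ∀ t ∈ Icc (0:ℝ) 1, w + t * (z - w) ∈ T.St 0 := fun t ht => by
    have h1 := (T.St_convex 0).add_smul_sub_mem hw hz ht
    rwa [Complex.real_smul] at h1
  have hder : ∀ t ∈ Icc (0:ℝ) 1, HasDerivAt g (Complex.normSq (z - w) *
      (c.rh (w + t * (z - w))).re - k) t := fun t ht => by
    have h1 : HasDerivAt (fun t : ℝ => w + t * (z - w)) (z - w) t := by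
      have := ((Complex.ofRealCLM.hasDerivAt (x := t)).mul_const (z - w)).const_add w
      simpa using this
    have h2 : HasDerivAt (fun t : ℝ => c.ph (w + t * (z - w))) (c.rh (w + t * (z - w)) * (z - w)) t :=
      (hasDerivAt_ph (hmem t ht)).comp_of_eq t h1 rfl
    have h3 := Complex.reCLM.hasFDerivAt.comp_hasDerivAt t (h2.const_mul (conj (z - w)))
    have h4 := (hasDerivAt_id t).mul_const k
    rw [one_mul] at h4
    rw [hg]
    refine (h3.sub h4).congr_deriv ?_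
    have e : conj (z - w) * (c.rh (w + t * (z - w)) * (z - w)) =
        ((Complex.normSq (z - w) : ℝ) : ℂ) * c.rh (w + t * (z - w)) := by
      rw [Complex.normSq_eq_conj_mul_self]
      ring
    rw [e]
    simp
  have hmono : MonotoneOn g (Icc 0 1) := by
    refine monotoneOn_of_deriv_nonneg (convex_Icc _ _)
      (fun t ht => (hder t ht).continuousAt.continuousWithinAt)
      (fun t ht => (hder t (interior_subset ht)).differentiableAt.differentiableWithinAt) fun t ht => ?_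
    have ht' := interior_subset ht
    rw [(hder t ht').deriv, hk, ← mul_sub]
    refine mul_nonneg (Complex.normSq_nonneg _) ?_
    have h1 := rh_low (c := c) (hmem t ht')
    have h2 : |(w + t * (z - w)).re| ≤ M := by
      have e : (w + t * (z - w)).re = (1 - t) * w.re + t * z.re := by
        simp
        ring
      rw [e]
      refine (abs_add_le _ _).trans ?_
      rw [abs_mul, abs_mul, abs_of_nonneg ht'.1, abs_of_nonneg (by linarith [ht'.2] : 0 ≤ 1 - t)]
      have : 0 ≤ 1 - t := by linarith [ht'.2]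
      have := ht'.1
      nlinarith
    have h3 : Real.exp (-M) ≤ Real.exp (-|(w + t * (z - w)).re|) := Real.exp_le_exp.2 (by linarith)
    linarith
  have h1 := hmono (⟨le_rfl, zero_le_one⟩ : (0:ℝ) ∈ Icc (0:ℝ) 1)
    (⟨zero_le_one, le_rfl⟩ : (1:ℝ) ∈ Icc (0:ℝ) 1) zero_le_one
  rw [hg] at h1
  simp only [Complex.ofReal_zero, zero_mul, add_zero, Complex.ofReal_one, one_mul,
    add_sub_cancel, sub_zero] at h1
  have h2 : k ≤ (conj (z - w) * (c.ph z - c.ph w)).re := by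
    rw [mul_sub, Complex.sub_re]
    linarith
  have h3 := (Complex.re_le_norm _).trans_eq (norm_mul (conj (z - w)) (c.ph z - c.ph w))
  rw [Complex.norm_conj] at h3
  rcases eq_or_ne (z - w) 0 with h0 | h0
  · rw [h0, norm_zero, zero_mul]
    exact norm_nonneg _
  · have hn : 0 < ‖z - w‖ := norm_pos_iff.2 h0
    rw [hk, Complex.normSq_eq_norm_sq] at h2
    have h4 := h2.trans h3
    have h5 : ‖z - w‖ * (‖z - w‖ * (Real.exp (-M) / 32)) ≤ ‖z - w‖ * ‖c.ph z - c.ph w‖ := by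
      calc _ = ‖z - w‖ ^ 2 * (Real.exp (-M) / 32) := by ring
        _ ≤ _ := h4
    exact le_of_mul_le_mul_left h5 hn

/-- **injective** -/
theorem ph_inj : InjOn c.ph (T.St 0) := by
  intro z hz w hw he
  have h1 := ph_sep (c := c) hz hw (M := max |z.re| |w.re|) (le_max_left _ _) (le_max_right _ _)
  rw [he, sub_self, norm_zero] at h1
  have hE := Real.exp_pos (-max |z.re| |w.re|)
  have h2 : ‖z - w‖ ≤ 0 := by
    by_contra h
    push Not at h
    have : 0 < ‖z - w‖ * (Real.exp (-max |z.re| |w.re|) / 32) := by positivity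
    linarith
  exact sub_eq_zero.1 (norm_le_zero_iff.1 h2)

end Pm

end

end ISTZ
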