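import Pool.Agent.IST.Lvl

/-!
# ISO, T1: the level curve and the real values
-/

set_option autoImplicit false

open Complex Set Filter Topology ComplexConjugate

namespace ISTZ

noncomputable section

/-- bound of the primitive minus its limit -/
def cT (e : ℝ) : ℝ := 5 + 8 / gp (Real.pi / 3 - e)

lemma cT_ge {e : ℝ} (he : 0 < e) (he1 : e ≤ Real.pi / 3) : 5 ≤ cT e := by
  have := gpe he he1
  unfold cT
  have : 0 ≤ 8 / gp (Real.pi / 3 - e) := by positivity
  linarith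

theorem r_top {e : ℝ} (he : 0 < e) (he1 : e ≤ Real.pi / 3) {z : ℂ} (h : |z.im| ≤ Real.pi / 3 - e)
    (hx : 0 ≤ z.re) : ‖r z - 1 / 2‖ ≤ cT e * Real.exp (-z.re) := by
  have hg := gpe he he1
  have h1 := H_le (by linarith) (by linarith) h hx
  have hc := c0_hi
  have hc0 := c0_pos
  have e1 : r z - 1 / 2 = H z - ((2 * c0 : ℝ) : ℂ) * exp (-z) := by
    unfold H
    ring
  have h2 : ‖((2 * c0 : ℝ) : ℂ) * exp (-z)‖ ≤ Real.exp (-z.re) := by
    rw [norm_mul, Complex.norm_real, Real.norm_eq_abs, abs_of_pos (by positivity), Complex.norm_exp,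
      Complex.neg_re]
    have := Real.exp_pos (-z.re)
    nlinarith
  have h3 : Real.exp (-5 * z.re) ≤ Real.exp (-z.re) := Real.exp_le_exp.2 (by linarith)
  rw [e1]
  calc ‖H z - ((2 * c0 : ℝ) : ℂ) * exp (-z)‖ ≤ (4 + 8 / gp (Real.pi / 3 - e)) * Real.exp (-5 * z.re) +
        Real.exp (-z.re) := (norm_sub_le _ _).trans (add_le_add h1 h2)
    _ ≤ (4 + 8 / gp (Real.pi / 3 - e)) * Real.exp (-z.re) + Real.exp (-z.re) := by gcongr
    _ = _ := by unfold cT; ring

theorem r_bot {e : ℝ} (he : 0 < e) (he1 : e ≤ Real.pi / 3) {z : ℂ} (h : |z.im| ≤ Real.pi / 3 - e)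
    (hx : z.re ≤ 0) : ‖r z + 1 / 2‖ ≤ cT e * Real.exp z.re := by
  have h1 := r_top he he1 (z := -z) (by simpa using h) (by simpa using hx)
  rw [r_neg, Complex.neg_re, neg_neg] at h1
  have e : -(r z + 1 / 2) = -r z - 1 / 2 := by ring
  rw [← norm_neg, e]
  exact h1

lemma gp6 : (73 / 100 : ℝ) ≤ gp (Real.pi / 6) := by
  unfold gp
  rw [Real.cos_pi_div_six]
  have := sq3_lo
  linarith

/-- near the line -/
lemma r_near {x e : ℝ} (he : 0 ≤ e) (he1 : e ≤ 1 / 128) :
    (r (x + e * I)).im ≤ 3 * e * Real.exp (-|x|) := by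
  have hp := Real.pi_gt_three
  have h1 := r_im_le (a := Real.pi / 6) (by linarith) (z := x + e * I) (by rw [im_ofR]; exact he)
    (by rw [im_ofR]; linarith)
  rw [im_ofR, re_ofR] at h1
  have h2 := gp6
  have h3 : 1 / gp (Real.pi / 6) ≤ 2 := by
    rw [div_le_iff₀ (by linarith)]
    linarith
  have h4 := Real.exp_pos (-|x|)
  calc _ ≤ _ := h1
    _ ≤ e * ((2 + 1) * Real.exp (-|x|)) := by gcongr
    _ = _ := by ring

lemma conj_pt (x u : ℝ) : conj ((x : ℂ) + u * I) = (x : ℂ) - u * I := by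
  simp
  ring

/-- slightly below the line or above -/
lemma r_below {z : ℂ} {e : ℝ} (he : 0 ≤ e) (he1 : e ≤ 1 / 128) (h0 : -e ≤ z.im) (h : z.im < Real.pi / 3) :
    -(3 * e * Real.exp (-|z.re|)) ≤ (r z).im := by
  have hE := Real.exp_pos (-|z.re|)
  have hp := Real.pi_gt_three
  rcases le_total 0 z.im with h1 | h1
  · have h2 := r_im_ge h1 h
    have : 0 ≤ 3 * e * Real.exp (-|z.re|) := by positivity
    have : 0 ≤ z.im * (Real.exp (-|z.re|) / 32) := by positivity
    linarith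
  · have h2 := r_near (x := z.re) (e := -z.im) (by linarith) (by linarith)
    have h3 : (r z).im = -(r ((z.re : ℂ) + ((-z.im : ℝ) : ℂ) * I)).im := by
      rw [← r_im_neg (by rw [im_ofR, abs_lt]; constructor <;> linarith), conj_pt]
      congr 2
      conv_lhs => rw [← Complex.re_add_im z]
      push_cast
      ring
    rw [h3]
    have h4 : 3 * -z.im * Real.exp (-|z.re|) ≤ 3 * e * Real.exp (-|z.re|) := by
      have : -z.im ≤ e := by linarith
      gcongr
    linarith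

namespace Tl

variable {T : Tl}

/-- the margin -/
def e0 (T : Tl) : ℝ := T.dl * min T.t1 T.t2 / 200

lemma mt_pos : 0 < min T.t1 T.t2 := lt_min T.t10 T.t20

lemma e0_pos : 0 < T.e0 := by
  have h1 := mt_pos (T := T)
  have h2 := T.dl0
  unfold e0
  positivity

lemma e0_t1 : T.e0 ≤ T.dl * T.t1 / 200 := by
  unfold e0
  have := min_le_left T.t1 T.t2
  have := T.dl0
  gcongr

lemma e0_t2 : T.e0 ≤ T.dl * T.t2 / 200 := by
  unfold e0
  have := min_le_right T.t1 T.t2
  have := T.dl0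
  gcongr

lemma e0_t1' : T.e0 ≤ T.t1 / 200 := by
  have h1 := e0_t1 (T := T)
  have h2 := T.dl1
  have h3 := T.t10
  nlinarith

lemma e0_t2' : T.e0 ≤ T.t2 / 200 := by
  have h1 := e0_t2 (T := T)
  have h2 := T.dl1
  have h3 := T.t20
  nlinarith

lemma e0_small : T.e0 ≤ 1 / 128 := by
  have h1 := e0_t1' (T := T)
  have h2 := T.t12
  have h3 := T.t20
  have h4 := Real.pi_lt_d2
  linarith

lemma e0_pi : T.e0 ≤ Real.pi / 3 := by
  have := Real.pi_gt_three
  have := e0_small (T := T)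
  linarith

/-- the mirror image -/
def mir (T : Tl) : Tl where
  t1 := T.t2
  t2 := T.t1
  dl := T.dl
  t10 := T.t20
  t20 := T.t10
  t12 := by rw [add_comm]; exact T.t12
  dl0 := T.dl0
  dl1 := T.dl1

lemma e0_mir : T.mir.e0 = T.e0 := by
  unfold e0 mir
  simp only
  rw [min_comm T.t2 T.t1]

lemma mir_mem {e : ℝ} {z : ℂ} (hz : z ∈ T.St e) : -z ∈ T.mir.St e := by
  have h1 := hz.1
  have h2 := hz.2
  rw [mem_St, Complex.neg_im]
  have e1 : T.mir.t1 = T.t2 := rfl
  have e2 : T.mir.t2 = T.t1 := rfl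
  rw [e1, e2]
  constructor <;> linarith

lemma pt_mem {x u : ℝ} : ((x : ℂ) + u * I) ∈ T.St 0 ↔ u ∈ Ioo (-T.t1) T.t2 := by
  rw [mem_St, im_ofR, add_zero, sub_zero, mem_Ioo]

end Tl

namespace Pm

open Tl

variable {T : Tl} {c : Pm T}

theorem ph_top {e : ℝ} (he : 0 < e) (he1 : e ≤ Real.pi / 3) {z : ℂ}
    (hz : z ∈ T.St e) (hx : 0 ≤ z.re) : ‖c.ph z - 1 / 2‖ ≤ cT e * Real.exp (-z.re) := by
  have h1 := r_top he he1 (b1 (c := c) hz) (by rwa [re_add])
  have h2 := r_top he he1 (b2 (c := c) hz) (by rwa [re_sub])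
  rw [re_add] at h1
  rw [re_sub] at h2
  have h3 := cb_norm (c := c) (F := fun z => r z + -(1 / 2)) (B := cT e * Real.exp (-z.re))
    (by simpa [sub_eq_add_neg] using r_top he he1 (b0 hz) hx) (by simpa [sub_eq_add_neg] using h1)
    (by simpa [sub_eq_add_neg] using h2)
  rw [cb_add_const] at h3
  rw [sub_eq_add_neg]
  exact h3

theorem ph_bot {e : ℝ} (he : 0 < e) (he1 : e ≤ Real.pi / 3) {z : ℂ}
    (hz : z ∈ T.St e) (hx : z.re ≤ 0) : ‖c.ph z + 1 / 2‖ ≤ cT e * Real.exp z.re := by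
  have h1 := r_bot he he1 (b1 (c := c) hz) (by rwa [re_add])
  have h2 := r_bot he he1 (b2 (c := c) hz) (by rwa [re_sub])
  rw [re_add] at h1
  rw [re_sub] at h2
  have h3 := cb_norm (c := c) (F := fun z => r z + (1 / 2)) (r_bot he he1 (b0 hz) hx) h1 h2
  rw [cb_add_const] at h3
  exact h3

/-- the mirror image -/
def mir (c : Pm T) : Pm T.mir where
  w0 := c.w0
  w1 := c.w2
  w2 := c.w1
  m1 := c.m2
  m2 := c.m1
  w00 := c.w00
  w10 := c.w20
  w20 := c.w10
  sum1 := by have := c.sum1; linarith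
  d1 := c.d2
  d2 := c.d1
  m10 := c.m20
  m11 := c.m21
  m20 := c.m10
  m21 := c.m11

lemma ph_mir (z : ℂ) : c.mir.ph (-z) = -c.ph z := by
  unfold ph cb mir
  simp only
  have e1 : -z + c.m2 * I = -(z - c.m2 * I) := by ring
  have e2 : -z - c.m1 * I = -(z + c.m1 * I) := by ring
  rw [e1, e2, r_neg, r_neg, r_neg]
  ring

/-- **the upper edge** -/
theorem edge_up (c : Pm T) (x : ℝ) : 0 < (c.ph (x + (T.t2 - T.e0 : ℝ) * I)).im := by
  have he := e0_pos (T := T)
  have hes := e0_small (T := T)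
  have hp := Real.pi_gt_three
  have h12 := T.t12
  have ht1 := T.t10
  have ht2 := T.t20
  have h1 := e0_t2 (T := T)
  have h2 := e0_t2' (T := T)
  have a0' := c.w00
  have a1' := c.w10
  have a2' := c.w20
  have hsum := c.sum1
  have hd := c.d1
  have hdl := T.dl0
  have k1 := c.m10
  have k2 := c.m11
  have k3 := c.m20
  have k4 := c.m21
  obtain ⟨z, hz⟩ : ∃ z : ℂ, z = x + (T.t2 - T.e0 : ℝ) * I := ⟨_, rfl⟩
  have him : z.im = T.t2 - T.e0 := by rw [hz, im_ofR]
  have hre : z.re = x := by rw [hz, re_ofR]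
  have a0 := r_im_ge (z := z) (by rw [him]; linarith) (by rw [him]; linarith)
  have a1 := r_im_ge (z := z + c.m1 * I) (by rw [im_add, him]; linarith) (by rw [im_add, him]; linarith)
  have a2 := r_below (z := z - c.m2 * I) (e := T.e0) he.le hes (by rw [im_sub, him]; linarith)
    (by rw [im_sub, him]; linarith)
  rw [him, hre] at a0
  rw [im_add, re_add, him, hre] at a1
  rw [re_sub, hre] at a2
  rw [← hz, ph_im]
  unfold cbR
  have hE := Real.exp_pos (-|x|)
  obtain ⟨E, hEd⟩ : ∃ E, E = Real.exp (-|x|) := ⟨_, rfl⟩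
  rw [← hEd] at a0 a1 a2 hE
  have b0 : T.t2 / 64 * E ≤ (r z).im := by nlinarith
  have b1 : T.t2 / 64 * E ≤ (r (z + c.m1 * I)).im := by nlinarith
  have c0 : c.w0 * (T.t2 / 64 * E) ≤ c.w0 * (r z).im := by gcongr
  have c1 : c.w1 * (T.t2 / 64 * E) ≤ c.w1 * (r (z + c.m1 * I)).im := by gcongr
  have c2 : c.w2 * -(3 * T.e0 * E) ≤ c.w2 * (r (z - c.m2 * I)).im := mul_le_mul_of_nonneg_left a2 a2'
  have c3 : c.w2 * (3 * T.e0 * E) ≤ 1 * (3 * T.e0 * E) := by
    have : 0 ≤ 3 * T.e0 * E := by positivity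
    gcongr
    have := T.dl0
    linarith
  have c4 : T.dl * (T.t2 / 64 * E) ≤ (c.w0 + c.w1) * (T.t2 / 64 * E) := by gcongr
  have c5 : 3 * T.e0 * E ≤ 3 * (T.dl * T.t2 / 200) * E := by gcongr
  have c6 : 3 * (T.dl * T.t2 / 200) * E < T.dl * (T.t2 / 64 * E) := by
    have : 0 < T.dl * T.t2 * E := by positivity
    nlinarith
  nlinarith

/-- **the lower edge** -/
theorem edge_lo (c : Pm T) (x : ℝ) : (c.ph (x + (-T.t1 + T.e0 : ℝ) * I)).im < 0 := by
  have h1 := edge_up c.mir (-x)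
  rw [e0_mir] at h1
  have e : ((-x : ℝ) : ℂ) + ((T.mir.t2 - T.e0 : ℝ) : ℂ) * I = -(x + (-T.t1 + T.e0 : ℝ) * I) := by
    have : T.mir.t2 = T.t1 := rfl
    rw [this]
    push_cast
    ring
  rw [e, ph_mir, Complex.neg_im] at h1
  linarith

theorem hasDerivAt_phv {x u : ℝ} (h : ((x : ℂ) + u * I) ∈ T.St 0) :
    HasDerivAt (fun u : ℝ => (c.ph (x + u * I)).im) (c.rh (x + u * I)).re u := by
  have h1 := hasDerivAt_ph (c := c) h
  have h2 : HasDerivAt (fun u : ℝ => (x : ℂ) + u * I) I u := by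
    have := ((Complex.ofRealCLM.hasDerivAt (x := u)).mul_const I).const_add (x : ℂ)
    simpa using this
  have h3 := h1.comp_of_eq u h2 rfl
  have h4 := Complex.imCLM.hasFDerivAt.comp_hasDerivAt u h3
  refine h4.congr_deriv ?_
  simp

theorem ph_mono (x : ℝ) :
    StrictMonoOn (fun u : ℝ => (c.ph (x + u * I)).im) (Ioo (-T.t1) T.t2) := by
  refine strictMonoOn_of_deriv_pos (convex_Ioo _ _)
    (fun u hu => (hasDerivAt_phv (pt_mem.2 hu)).continuousAt.continuousWithinAt) fun u hu => ?_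
  rw [interior_Ioo] at hu
  rw [(hasDerivAt_phv (pt_mem.2 hu)).deriv]
  have h1 := rh_low (c := c) (z := (x : ℂ) + u * I) (pt_mem.2 hu)
  have h2 := Real.exp_pos (-|((x : ℂ) + u * I).re|)
  linarith

/-- the level curve -/
theorem exists_lvl (c : Pm T) (x : ℝ) :
    ∃ u ∈ Ioo (-T.t1 + T.e0) (T.t2 - T.e0), (c.ph (x + u * I)).im = 0 := by
  have he := e0_pos (T := T)
  have h1 := e0_t1' (T := T)
  have h2 := e0_t2' (T := T)
  have ht1 := T.t10
  have ht2 := T.t20
  have hle : -T.t1 + T.e0 ≤ T.t2 - T.e0 := by linarith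
  have hsub : Icc (-T.t1 + T.e0) (T.t2 - T.e0) ⊆ Ioo (-T.t1) T.t2 := fun u hu =>
    ⟨by linarith [hu.1], by linarith [hu.2]⟩
  have hc : ContinuousOn (fun u : ℝ => (c.ph (x + u * I)).im) (Icc (-T.t1 + T.e0) (T.t2 - T.e0)) :=
    fun u hu => (hasDerivAt_phv (pt_mem.2 (hsub hu))).continuousAt.continuousWithinAt
  have h3 := intermediate_value_Ioo hle hc
  obtain ⟨u, hu, hu0⟩ := h3 (⟨edge_lo c x, edge_up c x⟩ : (0:ℝ) ∈ Ioo _ _)
  exact ⟨u, hu, hu0⟩

/-- the height of the level curve -/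
def U (c : Pm T) (x : ℝ) : ℝ := (exists_lvl c x).choose

lemma U_mem (x : ℝ) : c.U x ∈ Ioo (-T.t1 + T.e0) (T.t2 - T.e0) := (exists_lvl c x).choose_spec.1

lemma U_eq (x : ℝ) : (c.ph (x + c.U x * I)).im = 0 := (exists_lvl c x).choose_spec.2

lemma U_mem' (x : ℝ) : c.U x ∈ Ioo (-T.t1) T.t2 := by
  have he := e0_pos (T := T)
  have := U_mem (c := c) x
  exact ⟨by linarith [this.1], by linarith [this.2]⟩

lemma cont_x {u : ℝ} (hu : u ∈ Ioo (-T.t1) T.t2) (x : ℝ) :
    ContinuousAt (fun x : ℝ => c.ph (x + u * I)) x := by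
  have h1 : ContinuousAt c.ph ((x : ℂ) + u * I) := (hasDerivAt_ph (pt_mem.2 hu)).continuousAt
  exact ContinuousAt.comp (g := c.ph) (f := fun x : ℝ => (x : ℂ) + u * I) h1
    (Complex.continuous_ofReal.add continuous_const).continuousAt

theorem U_cont : Continuous c.U := by
  rw [continuous_iff_continuousAt]
  intro x
  rw [Metric.continuousAt_iff']
  intro d hd
  have hU := U_mem' (c := c) x
  obtain ⟨η, hη, hηd, h1, h2⟩ : ∃ η, 0 < η ∧ η < d ∧ -T.t1 < c.U x - η ∧ c.U x + η < T.t2 := by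
    refine ⟨min (d / 2) (min ((c.U x + T.t1) / 2) ((T.t2 - c.U x) / 2)), ?_, ?_, ?_, ?_⟩
    · have := hU.1
      have := hU.2
      refine lt_min (by positivity) (lt_min ?_ ?_) <;> linarith
    · exact (min_le_left _ _).trans_lt (by linarith)
    · have := (min_le_right (d / 2) (min ((c.U x + T.t1) / 2) ((T.t2 - c.U x) / 2))).trans (min_le_left _ _)
      linarith [hU.1]
    · have := (min_le_right (d / 2) (min ((c.U x + T.t1) / 2) ((T.t2 - c.U x) / 2))).trans (min_le_right _ _)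
      linarith [hU.2]
  have m1 : c.U x - η ∈ Ioo (-T.t1) T.t2 := ⟨h1, by linarith⟩
  have m2 : c.U x + η ∈ Ioo (-T.t1) T.t2 := ⟨by linarith, h2⟩
  have g1 : (c.ph (x + (c.U x - η : ℝ) * I)).im < 0 := by
    rw [← U_eq (c := c) x]
    exact ph_mono x m1 hU (by linarith)
  have g2 : 0 < (c.ph (x + (c.U x + η : ℝ) * I)).im := by
    rw [← U_eq (c := c) x]
    exact ph_mono x hU m2 (by linarith)
  have c1 := (Complex.continuous_im.continuousAt.comp (cont_x (c := c) m1 x)).eventually_lt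
    continuousAt_const g1
  have c2 := continuousAt_const.eventually_lt
    (Complex.continuous_im.continuousAt.comp (cont_x (c := c) m2 x)) g2
  filter_upwards [c1, c2] with y hy1 hy2
  have hUy := U_mem' (c := c) y
  have k1 : c.U x - η < c.U y := by
    by_contra hcon
    push Not at hcon
    have := (ph_mono (c := c) y).monotoneOn hUy m1 hcon
    simp only [U_eq (c := c) y] at this
    have h0 : ((c.ph (y + (c.U x - η : ℝ) * I))).im < 0 := hy1
    linarith
  have k2 : c.U y < c.U x + η := by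
    by_contra hcon
    push Not at hcon
    have := (ph_mono (c := c) y).monotoneOn m2 hUy hcon
    simp only [U_eq (c := c) y] at this
    have h0 : 0 < ((c.ph (y + (c.U x + η : ℝ) * I))).im := hy2
    linarith
  rw [Real.dist_eq, abs_lt]
  constructor <;> linarith

/-- the real values along the level curve -/
def gl (c : Pm T) (x : ℝ) : ℝ := (c.ph (x + c.U x * I)).re

lemma ph_gl (x : ℝ) : c.ph (x + c.U x * I) = (c.gl x : ℂ) := by
  apply Complex.ext
  · rw [Complex.ofReal_re]; rfl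
  · rw [U_eq, Complex.ofReal_im]

lemma pt_mem0 (x : ℝ) : ((x : ℂ) + c.U x * I) ∈ T.St T.e0 := by
  rw [mem_St, im_ofR]
  exact U_mem x

theorem gl_cont : Continuous c.gl := by
  rw [continuous_iff_continuousAt]
  intro x
  have h1 : ContinuousAt c.ph ((x : ℂ) + c.U x * I) :=
    (hasDerivAt_ph (pt_mem.2 (U_mem' x))).continuousAt
  have h2 : ContinuousAt (fun x : ℝ => (x : ℂ) + c.U x * I) x :=
    (Complex.continuous_ofReal.add ((Complex.continuous_ofReal.comp U_cont).mul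
      continuous_const)).continuousAt
  exact Complex.continuous_re.continuousAt.comp (ContinuousAt.comp (g := c.ph) h1 h2)

theorem gl_top : Tendsto c.gl atTop (𝓝 (1 / 2)) := by
  have h1 : Tendsto (fun x : ℝ => cT T.e0 * Real.exp (-x)) atTop (𝓝 0) := by
    simpa using Real.tendsto_exp_neg_atTop_nhds_zero.const_mul (cT T.e0)
  have h2 : Tendsto (fun x : ℝ => c.gl x - 1 / 2) atTop (𝓝 0) := by
    refine squeeze_zero_norm' ?_ h1
    filter_upwards [eventually_ge_atTop 0] with x hx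
    have h3 := ph_top (c := c) e0_pos e0_pi (pt_mem0 (c := c) x) (by rw [re_ofR]; exact hx)
    rw [re_ofR, ph_gl] at h3
    have e : ((c.gl x : ℂ) - 1 / 2) = ((c.gl x - 1 / 2 : ℝ) : ℂ) := by push_cast; ring
    rwa [e, Complex.norm_real] at h3
  have h3 := h2.add_const (1 / 2)
  simpa using h3

theorem gl_bot : Tendsto c.gl atBot (𝓝 (-(1 / 2))) := by
  have h1 : Tendsto (fun x : ℝ => cT T.e0 * Real.exp x) atBot (𝓝 0) := by
    simpa using Real.tendsto_exp_atBot.const_mul (cT T.e0)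
  have h2 : Tendsto (fun x : ℝ => c.gl x + 1 / 2) atBot (𝓝 0) := by
    refine squeeze_zero_norm' ?_ h1
    filter_upwards [eventually_le_atBot 0] with x hx
    have h3 := ph_bot (c := c) e0_pos e0_pi (pt_mem0 (c := c) x) (by rw [re_ofR]; exact hx)
    rw [re_ofR, ph_gl] at h3
    have e : ((c.gl x : ℂ) + 1 / 2) = ((c.gl x + 1 / 2 : ℝ) : ℂ) := by push_cast; ring
    rwa [e, Complex.norm_real] at h3
  have h3 := h2.sub_const (1 / 2)
  simpa using h3

/-- **every real value is attained** -/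
theorem exists_real (c : Pm T) {w : ℝ} (hw : w ∈ Ioo (-(1 / 2) : ℝ) (1 / 2)) :
    ∃ z ∈ T.St T.e0, c.ph z = w := by
  obtain ⟨a, ha⟩ := ((gl_bot (c := c)).eventually (eventually_lt_nhds hw.1)).exists
  obtain ⟨b, hb⟩ := ((gl_top (c := c)).eventually (eventually_gt_nhds hw.2)).exists
  obtain ⟨x, hx⟩ := mem_range_of_exists_le_of_exists_ge (gl_cont (c := c)) ⟨a, ha.le⟩ ⟨b, hb.le⟩
  exact ⟨_, pt_mem0 x, by rw [ph_gl, hx]⟩

end Pm

end

end ISTZ
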