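import Pool.Agent.PB.KJoin
import Pool.Agent.PB.Rec2

/-!
# ISO: the zero mode along the path, by the modes of the leg height (helper68)

`G s z` = lattice function with the legs at `z`, rows of the point `s` of the path.

* `gron_family`: Gronwall for the supremum of a family, `|f' s τ| ≤ L (A + r)` whenever `|f s .| ≤ A`;
* `EL_two`: first and second derivative of a function which is an exponential sum up to `r`;
* **`modes`**: if every `G s` has `PBV.FD a σ y₀ b₀ C N` (zeros of `G s (z + a) - G s (z - a)` at the rows,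
  crude bound `N ^ C` with complex legs), and on `z = I τ`, `0 ≤ τ ≤ 1`,
  `|∂_s G - (al (-G'') + be (I G'))| ≤ d`, `|al|, |be| ≤ al0`, and `|G 0 (I τ) - g| ≤ m`, then
  `|G s (I τ) - g| ≤ A (m + d + N^{-e})` for all `s`.
-/

set_option autoImplicit false

noncomputable section

open Complex MeasureTheory Set Filter Topology
open Pool.Agent.PB.Rec (EL EL_coef EL_le EL_sub EL_hasDeriv)

namespace IST

/-! ### Gronwall for a family -/

/-- the `n`-th bound -/
def gB (m r B L : ℝ) (n : ℕ) (s : ℝ) : ℝ :=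
  (m + r) * (∑ j ∈ Finset.range n, (L * s) ^ j / (j.factorial : ℝ)) +
    (B + r) * ((L * s) ^ n / (n.factorial : ℝ)) - r

theorem pow_fact_deriv (L s : ℝ) (n : ℕ) : HasDerivAt (fun s : ℝ => (L * s) ^ (n + 1) / ((n + 1).factorial : ℝ))
    (L * ((L * s) ^ n / (n.factorial : ℝ))) s := by
  have h1 : HasDerivAt (fun s : ℝ => L * s) L s := by simpa using (hasDerivAt_id s).const_mul L
  have h2 := (h1.pow (n + 1)).div_const ((n + 1).factorial : ℝ)
  refine h2.congr_deriv ?_
  rw [Nat.factorial_succ]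
  push_cast
  have : ((n.factorial : ℕ) : ℝ) ≠ 0 := by exact_mod_cast n.factorial_ne_zero
  have h3 : (n : ℝ) + 1 ≠ 0 := by positivity
  field_simp

theorem sum_deriv (L s : ℝ) (n : ℕ) :
    HasDerivAt (fun s : ℝ => ∑ j ∈ Finset.range (n + 1), (L * s) ^ j / (j.factorial : ℝ))
      (L * ∑ j ∈ Finset.range n, (L * s) ^ j / (j.factorial : ℝ)) s := by
  induction n with
  | zero =>
    simp only [zero_add, Finset.range_one, Finset.sum_singleton, pow_zero, Finset.range_zero, Finset.sum_empty,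
      mul_zero]
    exact hasDerivAt_const _ _
  | succ n ih =>
    have h := ih.add (pow_fact_deriv L s n)
    have e : (fun s : ℝ => ∑ j ∈ Finset.range (n + 1 + 1), (L * s) ^ j / (j.factorial : ℝ)) =
        (fun s : ℝ => ∑ j ∈ Finset.range (n + 1), (L * s) ^ j / (j.factorial : ℝ)) +
          fun s : ℝ => (L * s) ^ (n + 1) / ((n + 1).factorial : ℝ) := by
      funext x
      rw [Finset.sum_range_succ]
      rfl
    rw [e]
    refine h.congr_deriv ?_
    rw [Finset.sum_range_succ, mul_add]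

theorem gB_deriv (m r B L : ℝ) (n : ℕ) (s : ℝ) :
    HasDerivAt (gB m r B L (n + 1)) (L * (gB m r B L n s + r)) s := by
  have h := (((sum_deriv L s n).const_mul (m + r)).add ((pow_fact_deriv L s n).const_mul (B + r))).sub_const r
  have e : gB m r B L (n + 1) = fun s => ((fun s : ℝ => (m + r) *
      ∑ j ∈ Finset.range (n + 1), (L * s) ^ j / (j.factorial : ℝ)) +
        fun s : ℝ => (B + r) * ((L * s) ^ (n + 1) / ((n + 1).factorial : ℝ))) s - r := rfl
  rw [e]
  refine h.congr_deriv ?_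
  unfold gB
  ring

theorem gB_zero_arg (m r B L : ℝ) (n : ℕ) : gB m r B L (n + 1) 0 = m := by
  unfold gB
  rw [Finset.sum_range_succ']
  simp

/-- **Gronwall for the supremum of a family** -/
theorem gron_family {T : Set ℝ} {S L m r B : ℝ} (hL : 0 ≤ L) (hr : 0 ≤ r) (hm : 0 ≤ m) {f f' : ℝ → ℝ → ℂ}
    (hc : ∀ τ ∈ T, ContinuousOn (fun s => f s τ) (Icc 0 S))
    (hd : ∀ τ ∈ T, ∀ s ∈ Ico 0 S, HasDerivWithinAt (fun s => f s τ) (f' s τ) (Ici s) s)
    (hf' : ∀ s ∈ Ico 0 S, ∀ A : ℝ, (∀ τ ∈ T, ‖f s τ‖ ≤ A) → ∀ τ ∈ T, ‖f' s τ‖ ≤ L * (A + r))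
    (h0 : ∀ τ ∈ T, ‖f 0 τ‖ ≤ m) (hb : ∀ s ∈ Icc 0 S, ∀ τ ∈ T, ‖f s τ‖ ≤ B) :
    ∀ s ∈ Icc 0 S, ∀ τ ∈ T, ‖f s τ‖ ≤ (m + r) * Real.exp (L * s) := by
  have key : ∀ n : ℕ, ∀ s ∈ Icc 0 S, ∀ τ ∈ T, ‖f s τ‖ ≤ gB m r B L n s := by
    intro n
    induction n with
    | zero =>
      intro s hs τ hτ
      have h := hb s hs τ hτ
      unfold gB
      simp only [Finset.range_zero, Finset.sum_empty, mul_zero, pow_zero, Nat.factorial_zero, Nat.cast_one,
        div_one, mul_one, zero_add]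
      linarith
    | succ n ih =>
      intro s hs τ hτ
      have h := image_norm_le_of_norm_deriv_right_le_deriv_boundary (hc τ hτ) (fun x hx => hd τ hτ x hx)
        (B := gB m r B L (n + 1)) (B' := fun s => L * (gB m r B L n s + r))
        (by rw [gB_zero_arg]; exact h0 τ hτ) (fun x => gB_deriv m r B L n x)
        (fun x hx => hf' x hx _ (fun τ' hτ' => ih x ⟨hx.1, hx.2.le⟩ τ' hτ') τ hτ)
      exact h hs
  intro s hs τ hτ
  have hx : 0 ≤ L * s := mul_nonneg hL hs.1
  have hlim : Tendsto (fun n : ℕ => (m + r) * Real.exp (L * s) + (B + r) * ((L * s) ^ n / (n.factorial : ℝ)) - r)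
      atTop (𝓝 ((m + r) * Real.exp (L * s) + (B + r) * 0 - r)) :=
    ((FloorSemiring.tendsto_pow_div_factorial_atTop (L * s)).const_mul (B + r)).const_add _ |>.sub_const r
  have h1 : ‖f s τ‖ ≤ (m + r) * Real.exp (L * s) + (B + r) * 0 - r := by
    refine ge_of_tendsto' hlim fun n => (key n s hs τ hτ).trans ?_
    unfold gB
    have h2 := Real.sum_le_exp_of_nonneg hx n
    have h3 : 0 ≤ m + r := by linarith
    have h4 := mul_le_mul_of_nonneg_left h2 h3
    linarith
  linarith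

/-! ### derivatives of an approximate exponential sum -/

variable {w : ℝ} {K : ℕ}

/-- first and second derivative of a function which is an exponential sum with small coefficients up to `r` -/
theorem EL_two {f : ℂ → ℂ} {c : ℤ → ℂ} {z : ℂ} {q r A : ℝ} (hq : 0 < q)
    (hf : ∀ x : ℂ, ‖x - z‖ ≤ 2 * q → DifferentiableAt ℂ f x)
    (hR : ∀ x : ℂ, ‖x - z‖ ≤ 2 * q → ‖f x - EL w K c x‖ ≤ r)
    (hc : ∀ k ∈ Finset.Icc (-(K : ℤ)) K, ‖c k * (I * w * k)‖ ≤ A)
    (hc2 : ∀ k ∈ Finset.Icc (-(K : ℤ)) K, ‖c k * (I * w * k) * (I * w * k)‖ ≤ A) :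
    ‖deriv f z‖ ≤ (2 * K + 1) * Real.exp (|w| * K * |z.im|) * A + r / q ∧
      ‖deriv (deriv f) z‖ ≤ (2 * K + 1) * Real.exp (|w| * K * |z.im|) * A + r / q / q := by
  set R : ℂ → ℂ := fun x => f x - EL w K c x with hRdef
  have hEd : Differentiable ℂ (EL w K c) := fun x => (EL_hasDeriv w K c x).differentiableAt
  have hRd : ∀ x : ℂ, ‖x - z‖ ≤ 2 * q → DifferentiableAt ℂ R x := fun x hx => (hf x hx).sub (hEd x)
  -- first derivative of the rest
  have h1 : ∀ x : ℂ, ‖x - z‖ ≤ q → ‖deriv R x‖ ≤ r / q := by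
    intro x hx
    have hball : ∀ y ∈ Metric.closedBall x q, ‖y - z‖ ≤ 2 * q := by
      intro y hy
      rw [Metric.mem_closedBall, dist_eq_norm] at hy
      calc ‖y - z‖ = ‖(y - x) + (x - z)‖ := by congr 1; ring
        _ ≤ ‖y - x‖ + ‖x - z‖ := norm_add_le _ _
        _ ≤ 2 * q := by linarith
    have hd : DiffContOnCl ℂ R (Metric.ball x q) := by
      refine DifferentiableOn.diffContOnCl ?_
      rw [closure_ball x hq.ne']
      exact fun y hy => (hRd y (hball y hy)).differentiableWithinAt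
    exact Complex.norm_deriv_le_of_forall_mem_sphere_norm_le hq hd fun y hy =>
      hR y (hball y (Metric.sphere_subset_closedBall hy))
  have hopen : IsOpen {x : ℂ | ‖x - z‖ < 2 * q} :=
    isOpen_lt (continuous_norm.comp (continuous_id.sub continuous_const)) continuous_const
  have hRo : DifferentiableOn ℂ R {x : ℂ | ‖x - z‖ < 2 * q} := fun x hx =>
    (hRd x (le_of_lt hx)).differentiableWithinAt
  have hRo' : DifferentiableOn ℂ (deriv R) {x : ℂ | ‖x - z‖ < 2 * q} := hRo.deriv hopen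
  have h2 : ‖deriv (deriv R) z‖ ≤ r / q / q := by
    have hball : ∀ y ∈ Metric.closedBall z q, ‖y - z‖ ≤ q := by
      intro y hy
      rw [Metric.mem_closedBall, dist_eq_norm] at hy
      exact hy
    have hd : DiffContOnCl ℂ (deriv R) (Metric.ball z q) := by
      refine DifferentiableOn.diffContOnCl ?_
      rw [closure_ball z hq.ne']
      refine hRo'.mono fun y hy => ?_
      have := hball y hy
      show ‖y - z‖ < 2 * q
      linarith
    exact Complex.norm_deriv_le_of_forall_mem_sphere_norm_le hq hd fun y hy =>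
      h1 y (hball y (Metric.sphere_subset_closedBall hy))
  -- decomposition near `z`
  have hz : z ∈ {x : ℂ | ‖x - z‖ < 2 * q} := by
    show ‖z - z‖ < 2 * q
    rw [sub_self, norm_zero]; linarith
  have e1 : ∀ x ∈ {x : ℂ | ‖x - z‖ < 2 * q}, deriv f x = EL w K (fun k => c k * (I * w * k)) x + deriv R x := by
    intro x hx
    have h3 : deriv R x = deriv f x - deriv (EL w K c) x := by
      rw [hRdef]
      exact deriv_sub (hf x (le_of_lt hx)) (hEd x)
    rw [h3, (EL_hasDeriv w K c x).deriv]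
    ring
  have e2 : deriv (deriv f) z = EL w K (fun k => c k * (I * w * k) * (I * w * k)) z + deriv (deriv R) z := by
    have h4 : deriv f =ᶠ[𝓝 z] fun x => EL w K (fun k => c k * (I * w * k)) x + deriv R x := by
      filter_upwards [hopen.mem_nhds hz] with x hx using e1 x hx
    rw [h4.deriv_eq]
    have h5 := EL_hasDeriv w K (fun k => c k * (I * w * k)) z
    have h6 : DifferentiableAt ℂ (deriv R) z := (hRo'.differentiableAt (hopen.mem_nhds hz))
    have h7 := (h5.add h6.hasDerivAt).deriv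
    exact h7
  refine ⟨?_, ?_⟩
  · rw [e1 z hz]
    refine (norm_add_le _ _).trans (add_le_add (EL_le hc z) (h1 z (by rw [sub_self, norm_zero]; exact hq.le)))
  · rw [e2]
    exact (norm_add_le _ _).trans (add_le_add (EL_le hc2 z) h2)

/-! ### the modes -/

/-- the constant subtracted -/
theorem EL_const_sub (w : ℝ) (K : ℕ) (c : ℤ → ℂ) (g z : ℂ) :
    EL w K (fun k => c k - if k = 0 then g else 0) z = EL w K c z - g := by
  rw [EL_sub]
  congr 1
  unfold EL
  rw [Finset.sum_eq_single (0 : ℤ)]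
  · simp
  · intro j _ hj
    simp only [hj, if_false, zero_mul]
  · intro h
    exact absurd (Finset.mem_Icc.2 ⟨by simp, by simp⟩) h

/-- **the zero mode along the path** -/
theorem modes {a σ y₀ b₀ : ℝ} (C e al0 S0 : ℝ) (hσ0 : 0 < σ) (hσ : σ < a) (hb : 0 ≤ b₀) (hbσ : b₀ < σ)
    (hy : 0 ≤ y₀) (hal : 0 ≤ al0) (hS0 : 0 ≤ S0) : ∃ A : ℝ, 0 < A ∧ ∃ N0 : ℕ, ∀ N ≥ N0,
    ∀ (G : ℝ → ℂ → ℂ) (G' : ℝ → ℝ → ℂ) (al be : ℝ → ℂ) (g : ℂ) (S m d : ℝ), S ≤ S0 → 0 ≤ m → 0 ≤ d →
      (∀ s ∈ Icc 0 S, PBV.FD a σ y₀ b₀ C N (G s)) →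
      (∀ τ ∈ Icc (0 : ℝ) 1, ContinuousOn (fun s => G s (I * τ)) (Icc 0 S)) →
      (∀ τ ∈ Icc (0 : ℝ) 1, ∀ s ∈ Ico 0 S, HasDerivWithinAt (fun s => G s (I * τ)) (G' s τ) (Ici s) s) →
      (∀ s ∈ Ico 0 S, ‖al s‖ ≤ al0 ∧ ‖be s‖ ≤ al0) →
      (∀ s ∈ Ico 0 S, ∀ τ ∈ Icc (0 : ℝ) 1, ‖G' s τ - (al s * (-deriv (deriv (G s)) (I * τ)) +
        be s * (I * deriv (G s) (I * τ)))‖ ≤ d) →
      (∀ τ ∈ Icc (0 : ℝ) 1, ‖G 0 (I * τ) - g‖ ≤ m) →
      ∀ s ∈ Icc 0 S, ∀ τ ∈ Icc (0 : ℝ) 1, ‖G s (I * τ) - g‖ ≤ A * (m + d + (N : ℝ) ^ (-e)) := by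
  have hpi := Real.pi_pos
  have ha : 0 < a := hσ0.trans hσ
  obtain ⟨K, hK⟩ := PBV.kterm (a := a) (σ := σ) (ρ := 0) (y₀ := y₀) (b₀ := b₀) (ε := 1 / 2) C e le_rfl hσ0 hσ hb
    hbσ hy (by norm_num) (by norm_num)
  obtain ⟨N1, hN1⟩ := hK K le_rfl
  set w := Real.pi / a with hw
  have hw0 : 0 < w := by positivity
  obtain ⟨V, hV0, hV⟩ := EL_coef hw0 K
  set q := min (a / 2) (1 / 2) with hq
  have hq0 : 0 < q := lt_min (by positivity) (by norm_num)
  have hqa : 2 * q ≤ a := by have := min_le_left (a / 2) (1 / 2 : ℝ); linarith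
  have hq1 : 2 * q ≤ 1 := by have := min_le_right (a / 2) (1 / 2 : ℝ); linarith
  set W := (2 * K + 1) * Real.exp (w * K) * (V * (1 + w * K) ^ 2) with hW
  have hW0 : 0 < W := by positivity
  set L := 2 * al0 * (W + 1 / q + 1 / q / q) + 1 with hL
  have hL1 : 1 ≤ L := by
    have : 0 ≤ 2 * al0 * (W + 1 / q + 1 / q / q) := by positivity
    linarith
  have hlog : Tendsto (fun N : ℕ => 2 * σ / Real.pi * Real.log N) atTop atTop :=
    (Real.tendsto_log_atTop.comp tendsto_natCast_atTop_atTop).const_mul_atTop (by positivity)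
  obtain ⟨N2, hN2⟩ := eventually_atTop.1 ((hlog.eventually_ge_atTop 2).and (eventually_ge_atTop 1))
  refine ⟨Real.exp (L * S0), Real.exp_pos _, max N1 N2, fun N hN G G' al be g S m d hS hm hd hFD hc hder hab hE h0 s hs
    τ hτ => ?_⟩
  obtain ⟨hlog2, hN1'⟩ := hN2 N ((le_max_right _ _).trans hN)
  have hNr : (0 : ℝ) < N := by exact_mod_cast hN1'
  set r := (N : ℝ) ^ (-e) with hr
  have hr0 : 0 < r := Real.rpow_pos_of_pos hNr _
  have key := gron_family (T := Icc (0 : ℝ) 1) (S := S) (L := L) (m := m) (r := r + d) (B := (N : ℝ) ^ C + ‖g‖)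
    (f := fun s τ => G s (I * τ) - g) (f' := G') (by linarith) (by linarith) hm
    (fun τ hτ => (hc τ hτ).sub continuousOn_const) (fun τ hτ s hs => (hder τ hτ s hs).sub_const g)
    ?_ h0 ?_ s hs τ hτ
  · refine key.trans ?_
    have h1 : Real.exp (L * s) ≤ Real.exp (L * S0) := by
      refine Real.exp_le_exp.2 (mul_le_mul_of_nonneg_left (hs.2.trans hS) (by linarith))
    calc (m + (r + d)) * Real.exp (L * s) ≤ (m + (r + d)) * Real.exp (L * S0) :=
          mul_le_mul_of_nonneg_left h1 (by linarith)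
      _ = _ := by ring
  · -- the derivative
    intro s hs A hA τ hτ
    have hsI : s ∈ Icc 0 S := ⟨hs.1, hs.2.le⟩
    have hA0 : 0 ≤ A := (norm_nonneg _).trans (hA 0 ⟨le_rfl, zero_le_one⟩)
    have hF := hFD s hsI
    set c := PBV.kc a σ (1 / 2) N (G s) with hcdef
    have hk := hN1 N ((le_max_left _ _).trans hN) (G s) hF
    have him : ∀ t ∈ Icc (0 : ℝ) 1, ∀ x : ℂ, ‖x - I * t‖ ≤ 2 * q → |x.re| ≤ a ∧ |x.im| ≤ 2 := by
      intro t ht x hx
      have h1 := (Complex.abs_re_le_norm (x - I * t)).trans hx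
      have h2 := (Complex.abs_im_le_norm (x - I * t)).trans hx
      have e1 : (x - I * t).re = x.re := by simp
      have e2 : (x - I * t).im = x.im - t := by simp
      rw [e1] at h1
      rw [e2] at h2
      refine ⟨h1.trans hqa, ?_⟩
      have h3 := abs_le.1 h2
      rw [abs_le]
      constructor <;> linarith [ht.1, ht.2]
    have hR : ∀ t ∈ Icc (0 : ℝ) 1, ∀ x : ℂ, ‖x - I * t‖ ≤ 2 * q → ‖G s x - EL w K c x‖ ≤ r := by
      intro t ht x hx
      obtain ⟨h1, h2⟩ := him t ht x hx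
      exact hk x (by linarith) (by linarith)
    have hR0 : ∀ t ∈ Icc (0 : ℝ) 1, ‖G s (I * t) - EL w K c (I * t)‖ ≤ r := fun t ht =>
      hR t ht _ (by rw [sub_self, norm_zero]; linarith)
    have hco : ∀ k ∈ Finset.Icc (-(K : ℤ)) K, ‖c k - if k = 0 then g else 0‖ ≤ V * (A + r) := by
      refine hV _ (A + r) fun t ht => ?_
      rw [EL_const_sub]
      have e1 : EL w K c (I * t) - g = (G s (I * t) - g) - (G s (I * t) - EL w K c (I * t)) := by ring
      rw [e1]
      exact (norm_sub_le _ _).trans (add_le_add (hA t ht) (hR0 t ht))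
    have hkw : ∀ k ∈ Finset.Icc (-(K : ℤ)) K, ‖(I * w * k : ℂ)‖ ≤ w * K := by
      intro k hk'
      rw [norm_mul, norm_mul, norm_I, one_mul, norm_real, Real.norm_of_nonneg hw0.le, Complex.norm_intCast]
      rw [Finset.mem_Icc] at hk'
      refine mul_le_mul_of_nonneg_left ?_ hw0.le
      rw [abs_le]
      exact ⟨by exact_mod_cast hk'.1, by exact_mod_cast hk'.2⟩
    have hce : ∀ k : ℤ, c k * (I * w * k) = (c k - if k = 0 then g else 0) * (I * w * k) := by
      intro k
      by_cases h : k = 0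
      · subst h; simp
      · simp [h]
    have hX : 0 ≤ V * (A + r) := by positivity
    have hwK : 0 ≤ w * K := by positivity
    have b1 : ∀ k ∈ Finset.Icc (-(K : ℤ)) K, ‖c k * (I * w * k)‖ ≤ V * (A + r) * (1 + w * K) ^ 2 := by
      intro k hk'
      rw [hce, norm_mul]
      calc ‖c k - if k = 0 then g else 0‖ * ‖(I * w * k : ℂ)‖ ≤ V * (A + r) * (w * K) :=
            mul_le_mul (hco k hk') (hkw k hk') (norm_nonneg _) hX
        _ ≤ V * (A + r) * (1 + w * K) ^ 2 := by
            refine mul_le_mul_of_nonneg_left ?_ hX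
            nlinarith
    have b2 : ∀ k ∈ Finset.Icc (-(K : ℤ)) K, ‖c k * (I * w * k) * (I * w * k)‖ ≤
        V * (A + r) * (1 + w * K) ^ 2 := by
      intro k hk'
      rw [hce, norm_mul, norm_mul]
      calc ‖c k - if k = 0 then g else 0‖ * ‖(I * w * k : ℂ)‖ * ‖(I * w * k : ℂ)‖ ≤
            V * (A + r) * (w * K) * (w * K) :=
            mul_le_mul (mul_le_mul (hco k hk') (hkw k hk') (norm_nonneg _) hX) (hkw k hk') (norm_nonneg _)
              (by positivity)
        _ = V * (A + r) * ((w * K) * (w * K)) := by ring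
        _ ≤ V * (A + r) * (1 + w * K) ^ 2 := by
            refine mul_le_mul_of_nonneg_left ?_ hX
            nlinarith
    obtain ⟨d1, d2⟩ := EL_two (w := w) (K := K) (f := G s) (c := c) (z := I * τ) (q := q) (r := r)
      (A := V * (A + r) * (1 + w * K) ^ 2) hq0
      (fun x hx => hF.df x (by have := (him τ hτ x hx).1; linarith) (by have := (him τ hτ x hx).2; linarith))
      (hR τ hτ) b1 b2
    have eim : |(I * (τ : ℂ)).im| = τ := by
      simp [abs_of_nonneg hτ.1]
    rw [eim, abs_of_pos hw0] at d1 d2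
    have hexp : Real.exp (w * K * τ) ≤ Real.exp (w * K) := by
      refine Real.exp_le_exp.2 ?_
      nlinarith [hτ.2, hτ.1]
    have hmain : (2 * K + 1) * Real.exp (w * K * τ) * (V * (A + r) * (1 + w * K) ^ 2) ≤ W * (A + r) := by
      calc (2 * K + 1) * Real.exp (w * K * τ) * (V * (A + r) * (1 + w * K) ^ 2) ≤
            (2 * K + 1) * Real.exp (w * K) * (V * (A + r) * (1 + w * K) ^ 2) := by gcongr
        _ = W * (A + r) := by rw [hW]; ring
    have r1 : r / q ≤ (1 / q) * (A + r) := by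
      rw [div_eq_mul_one_div, mul_comm]
      refine mul_le_mul_of_nonneg_left (by linarith) (by positivity)
    have r2 : r / q / q ≤ (1 / q / q) * (A + r) := by
      have e1 : r / q / q = (1 / q / q) * r := by field_simp
      rw [e1]
      refine mul_le_mul_of_nonneg_left (by linarith) (by positivity)
    have hqq : 0 ≤ (1 / q) * (A + r) := by positivity
    have hqq2 : 0 ≤ (1 / q / q) * (A + r) := by positivity
    have D1 : ‖deriv (G s) (I * τ)‖ ≤ (W + 1 / q + 1 / q / q) * (A + r) := by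
      have : (W + 1 / q + 1 / q / q) * (A + r) = W * (A + r) + (1 / q) * (A + r) + (1 / q / q) * (A + r) := by ring
      rw [this]
      linarith
    have D2 : ‖deriv (deriv (G s)) (I * τ)‖ ≤ (W + 1 / q + 1 / q / q) * (A + r) := by
      have : (W + 1 / q + 1 / q / q) * (A + r) = W * (A + r) + (1 / q) * (A + r) + (1 / q / q) * (A + r) := by ring
      rw [this]
      linarith
    obtain ⟨ha1, ha2⟩ := hab s hs
    have E := hE s hs τ hτ
    set X := (W + 1 / q + 1 / q / q) * (A + r) with hXdef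
    have hX0 : 0 ≤ X := by positivity
    have n1 : ‖al s * (-deriv (deriv (G s)) (I * τ)) + be s * (I * deriv (G s) (I * τ))‖ ≤ 2 * al0 * X := by
      refine (norm_add_le _ _).trans ?_
      rw [norm_mul, norm_mul, norm_neg, norm_mul, norm_I, one_mul]
      have m1 := mul_le_mul ha1 D2 (norm_nonneg _) hal
      have m2 := mul_le_mul ha2 D1 (norm_nonneg _) hal
      linarith
    have n2 : ‖G' s τ‖ ≤ 2 * al0 * X + d := by
      have e1 : G' s τ = (G' s τ - (al s * (-deriv (deriv (G s)) (I * τ)) + be s * (I * deriv (G s) (I * τ)))) +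
          (al s * (-deriv (deriv (G s)) (I * τ)) + be s * (I * deriv (G s) (I * τ))) := by ring
      rw [e1]
      refine (norm_add_le _ _).trans ?_
      linarith
    have e2 : 2 * al0 * X = (2 * al0 * (W + 1 / q + 1 / q / q)) * (A + r) := by rw [hXdef]; ring
    have e3 : L * (A + (r + d)) = (2 * al0 * (W + 1 / q + 1 / q / q)) * (A + r) + (A + r) + L * d := by
      rw [hL]; ring
    have e4 : d ≤ L * d := by nlinarith
    rw [e3]
    rw [e2] at n2
    linarith
  · -- the crude bound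
    intro s hs τ hτ
    have h1 := (hFD s hs).b (I * τ) (by simp; linarith) (by
      have : |(I * (τ : ℂ)).im| = τ := by simp [abs_of_nonneg hτ.1]
      rw [this]
      linarith [hτ.2])
    exact (norm_sub_le _ _).trans (by linarith)

end IST

end
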