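import Pool.Agent.NUP.MF.Rule
import Mathlib.Analysis.SpecialFunctions.Complex.LogDeriv
import Mathlib.Analysis.SpecialFunctions.Trigonometric.DerivHyp
import Mathlib.Analysis.SpecialFunctions.Trigonometric.ArctanDeriv
import Mathlib.Analysis.Real.Pi.Bounds

/-!
# ISO, T1: the density in the unit `y = 8 t / 3` and its primitive

`p z = √3/(2π) (1/(2 cosh z - 1) + 1/(2 cosh z + 1))`, `r` its primitive on `|Im z| < π/3`:
`Re p ≥ e^{-|Re z|}/32`, `‖p‖, ‖p'‖ ≤ C e^{-|Re z|}`, bounds of `Im r`, limits `± 1/2`, the tail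
`r = 1/2 - (√3/π) e^{-z} + O(e^{-5 Re z})`.
-/

set_option autoImplicit false

open Complex Set Filter Topology ComplexConjugate

namespace ISTZ

noncomputable section

/-- the constant -/
def c0 : ℝ := √3 / (2 * Real.pi)

/-- the density -/
def p (z : ℂ) : ℂ := (c0 : ℂ) * (1 / (2 * cosh z - 1) + 1 / (2 * cosh z + 1))

/-- its derivative -/
def p1 (z : ℂ) : ℂ :=
  (c0 : ℂ) * (-(2 * sinh z) / (2 * cosh z - 1) ^ 2 + -(2 * sinh z) / (2 * cosh z + 1) ^ 2)

/-- the argument of the arctangent -/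
def K (z : ℂ) : ℂ := ((2 / √3 : ℝ) : ℂ) * sinh z

/-- the primitive -/
def r (z : ℂ) : ℂ := -I / (2 * (Real.pi : ℂ)) * (log (1 + I * K z) - log (1 - I * K z))

lemma sq3 : (√3 : ℝ) ^ 2 = 3 := Real.sq_sqrt (by norm_num)

lemma sq3_pos : (0 : ℝ) < √3 := Real.sqrt_pos.2 (by norm_num)

lemma sq3_lo : (173 / 100 : ℝ) ≤ √3 := Real.le_sqrt_of_sq_le (by norm_num)

lemma sq3_hi : (√3 : ℝ) ≤ 174 / 100 := by
  rw [Real.sqrt_le_left (by norm_num)]
  norm_num

lemma c0_pos : 0 < c0 := by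
  have := sq3_pos
  have := Real.pi_pos
  unfold c0
  positivity

lemma c0_lo : 1 / 4 ≤ c0 := by
  have h1 := sq3_lo
  have h2 := Real.pi_lt_d2
  have h3 := Real.pi_pos
  unfold c0
  rw [le_div_iff₀ (by positivity)]
  linarith

lemma c0_hi : c0 ≤ 3 / 10 := by
  have h1 := sq3_hi
  have h2 := Real.pi_gt_three
  unfold c0
  rw [div_le_iff₀ (by positivity)]
  linarith

/-! ### real and imaginary parts -/

lemma cosh_eq' (z : ℂ) : cosh z = ((Real.cosh z.re * Real.cos z.im : ℝ) : ℂ) +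
    ((Real.sinh z.re * Real.sin z.im : ℝ) : ℂ) * I := by
  conv_lhs => rw [← Complex.re_add_im z]
  rw [Complex.cosh_add, Complex.cosh_mul_I, Complex.sinh_mul_I]
  push_cast
  ring

lemma sinh_eq' (z : ℂ) : sinh z = ((Real.sinh z.re * Real.cos z.im : ℝ) : ℂ) +
    ((Real.cosh z.re * Real.sin z.im : ℝ) : ℂ) * I := by
  conv_lhs => rw [← Complex.re_add_im z]
  rw [Complex.sinh_add, Complex.cosh_mul_I, Complex.sinh_mul_I]
  push_cast
  ring

lemma re_ofR (a b : ℝ) : ((a : ℂ) + (b : ℂ) * I).re = a := by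
  rw [Complex.add_re, Complex.ofReal_re, Complex.re_ofReal_mul, Complex.I_re, mul_zero, add_zero]

lemma im_ofR (a b : ℝ) : ((a : ℂ) + (b : ℂ) * I).im = b := by
  rw [Complex.add_im, Complex.ofReal_im, Complex.im_ofReal_mul, Complex.I_im, mul_one, zero_add]

lemma cosh_re' (z : ℂ) : (cosh z).re = Real.cosh z.re * Real.cos z.im := by
  rw [cosh_eq', re_ofR]

lemma cosh_im' (z : ℂ) : (cosh z).im = Real.sinh z.re * Real.sin z.im := by
  rw [cosh_eq', im_ofR]

lemma sinh_re' (z : ℂ) : (sinh z).re = Real.sinh z.re * Real.cos z.im := by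
  rw [sinh_eq', re_ofR]

lemma sinh_im' (z : ℂ) : (sinh z).im = Real.cosh z.re * Real.sin z.im := by
  rw [sinh_eq', im_ofR]

lemma norm_sinh_le (z : ℂ) : ‖sinh z‖ ≤ Real.cosh z.re := by
  have h1 : ‖sinh z‖ ^ 2 = (Real.sinh z.re * Real.cos z.im) ^ 2 +
      (Real.cosh z.re * Real.sin z.im) ^ 2 := by
    rw [← Complex.normSq_eq_norm_sq, Complex.normSq_apply, sinh_re', sinh_im']
    ring
  have h2 := Real.cosh_sq z.re
  have h3 := Real.sin_sq_add_cos_sq z.im
  have h4 := Real.cosh_pos z.re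
  refine abs_le_of_sq_le_sq' ?_ h4.le |>.2
  rw [h1]
  nlinarith [sq_nonneg (Real.sin z.im), sq_nonneg (Real.cos z.im)]

lemma cosh_le_exp (x : ℝ) : Real.cosh x ≤ Real.exp |x| := by
  rw [← Real.cosh_abs, Real.cosh_eq]
  have h : Real.exp (-|x|) ≤ Real.exp |x| := Real.exp_le_exp.2 (by have := abs_nonneg x; linarith)
  linarith

lemma inv_cosh_le (x : ℝ) : 1 / Real.cosh x ≤ 2 * Real.exp (-|x|) := by
  have h1 : Real.exp |x| / 2 ≤ Real.cosh x := by
    rw [← Real.cosh_abs, Real.cosh_eq]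
    have := Real.exp_pos (-|x|)
    linarith
  have h2 := Real.exp_pos |x|
  rw [Real.exp_neg, div_le_iff₀ (Real.cosh_pos x)]
  have h3 : 2 * (Real.exp |x|)⁻¹ * (Real.exp |x| / 2) = 1 := by field_simp
  calc (1:ℝ) = 2 * (Real.exp |x|)⁻¹ * (Real.exp |x| / 2) := h3.symm
    _ ≤ _ := by gcongr

lemma exp_le_inv_cosh (x : ℝ) : Real.exp (-|x|) ≤ 1 / Real.cosh x := by
  rw [Real.exp_neg, ← one_div]
  exact one_div_le_one_div_of_le (Real.cosh_pos x) (cosh_le_exp x)

lemma half_lt_cos {u : ℝ} (h : |u| < Real.pi / 3) : 1 / 2 < Real.cos u := by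
  rw [← Real.cos_abs, ← Real.cos_pi_div_three]
  exact Real.cos_lt_cos_of_nonneg_of_le_pi_div_two (abs_nonneg u) (by linarith [Real.pi_pos]) h

/-- the gap `2 cos a - 1` -/
def gp (a : ℝ) : ℝ := 2 * Real.cos a - 1

lemma gp_pos {a : ℝ} (ha0 : 0 ≤ a) (ha : a < Real.pi / 3) : 0 < gp a := by
  have := half_lt_cos (u := a) (by rwa [abs_of_nonneg ha0])
  unfold gp
  linarith

lemma cos_ge {a u : ℝ} (ha : a < Real.pi / 3) (hu : |u| ≤ a) : Real.cos a ≤ Real.cos u := by
  rw [← Real.cos_abs u]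
  exact Real.cos_le_cos_of_nonneg_of_le_pi (abs_nonneg u) (by linarith [Real.pi_pos]) hu

lemma re1 (z : ℂ) : (2 * cosh z - 1).re = 2 * (Real.cosh z.re * Real.cos z.im) - 1 := by
  simp [cosh_re']

lemma re2 (z : ℂ) : (2 * cosh z + 1).re = 2 * (Real.cosh z.re * Real.cos z.im) + 1 := by
  simp [cosh_re']

lemma re1_pos {z : ℂ} (h : |z.im| < Real.pi / 3) : 0 < (2 * cosh z - 1).re := by
  rw [re1]
  have h1 := half_lt_cos h
  have h2 := Real.one_le_cosh z.re
  nlinarith

lemma re2_ge {z : ℂ} (h : |z.im| < Real.pi / 3) : Real.cosh z.re + 1 ≤ (2 * cosh z + 1).re := by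
  rw [re2]
  have h1 := half_lt_cos h
  have h2 := Real.one_le_cosh z.re
  nlinarith

lemma ne1 {z : ℂ} (h : |z.im| < Real.pi / 3) : 2 * cosh z - 1 ≠ 0 := fun h0 => by
  have := re1_pos h
  rw [h0] at this
  simp at this

lemma ne2 {z : ℂ} (h : |z.im| < Real.pi / 3) : 2 * cosh z + 1 ≠ 0 := fun h0 => by
  have := re2_ge h
  have := Real.cosh_pos z.re
  rw [h0] at *
  simp at *
  linarith

lemma n1_ge {a : ℝ} (ha : a < Real.pi / 3) {z : ℂ} (h : |z.im| ≤ a) :
    gp a * Real.cosh z.re ≤ ‖2 * cosh z - 1‖ := by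
  refine le_trans ?_ (Complex.re_le_norm _)
  rw [re1]
  have h1 := cos_ge ha h
  have h2 := Real.one_le_cosh z.re
  unfold gp
  nlinarith

lemma n2_ge {z : ℂ} (h : |z.im| < Real.pi / 3) : Real.cosh z.re ≤ ‖2 * cosh z + 1‖ :=
  le_trans (by linarith [re2_ge h]) (Complex.re_le_norm _)

/-- **lower bound of the real part** -/
theorem p_re {z : ℂ} (h : |z.im| < Real.pi / 3) : Real.exp (-|z.re|) / 32 ≤ (p z).re := by
  have hc := c0_lo
  have h1 := re1_pos h
  have h2 := re2_ge h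
  have hx := Real.one_le_cosh z.re
  have e1 : 0 ≤ (1 / (2 * cosh z - 1)).re := by
    rw [one_div, Complex.inv_re]
    exact div_nonneg h1.le (Complex.normSq_nonneg _)
  have n2 : Complex.normSq (2 * cosh z + 1) ≤ (2 * Real.cosh z.re + 1) ^ 2 := by
    rw [Complex.normSq_apply, re2]
    have him : (2 * cosh z + 1).im = 2 * (Real.sinh z.re * Real.sin z.im) := by
      simp [cosh_im']
    rw [him]
    have a1 := Real.cosh_sq z.re
    have a2 := Real.sin_sq_add_cos_sq z.im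
    have a3 := Real.cos_le_one z.im
    nlinarith [sq_nonneg (Real.sin z.im), sq_nonneg (Real.cos z.im)]
  have n2p : 0 < Complex.normSq (2 * cosh z + 1) := Complex.normSq_pos.2 (ne2 h)
  have e2 : 1 / (8 * Real.cosh z.re) ≤ (1 / (2 * cosh z + 1)).re := by
    rw [one_div (2 * cosh z + 1), Complex.inv_re, div_le_div_iff₀ (by positivity) n2p]
    calc 1 * Complex.normSq (2 * cosh z + 1) ≤ (2 * Real.cosh z.re + 1) ^ 2 := by
          rw [one_mul]; exact n2
      _ ≤ (Real.cosh z.re + 1) * (8 * Real.cosh z.re) := by nlinarith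
      _ ≤ _ := by gcongr
  have e3 : (p z).re = c0 * ((1 / (2 * cosh z - 1)).re + (1 / (2 * cosh z + 1)).re) := by
    unfold p
    rw [Complex.re_ofReal_mul, Complex.add_re]
  have e4 := exp_le_inv_cosh z.re
  have e5 : 1 / (8 * Real.cosh z.re) = 1 / 8 * (1 / Real.cosh z.re) := by field_simp
  have e6 := Real.exp_pos (-|z.re|)
  rw [e3]
  rw [e5] at e2
  nlinarith

/-- upper bound -/
theorem p_le {a : ℝ} (ha0 : 0 ≤ a) (ha : a < Real.pi / 3) {z : ℂ} (h : |z.im| ≤ a) :
    ‖p z‖ ≤ (1 / gp a + 1) * Real.exp (-|z.re|) := by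
  have hc := c0_hi
  have hc0 := c0_pos
  have hg := gp_pos ha0 ha
  have hx := Real.cosh_pos z.re
  have h1 := n1_ge ha h
  have h2 := n2_ge (lt_of_le_of_lt h ha)
  have e1 : ‖1 / (2 * cosh z - 1)‖ ≤ 1 / gp a * (1 / Real.cosh z.re) := by
    rw [norm_div, norm_one, one_div_mul_one_div]
    exact one_div_le_one_div_of_le (by positivity) h1
  have e2 : ‖1 / (2 * cosh z + 1)‖ ≤ 1 / Real.cosh z.re := by
    rw [norm_div, norm_one]
    exact one_div_le_one_div_of_le hx h2
  have e3 := inv_cosh_le z.re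
  unfold p
  rw [norm_mul, Complex.norm_real, Real.norm_eq_abs, abs_of_pos hc0]
  have e4 : 0 < 1 / gp a := by positivity
  calc c0 * ‖1 / (2 * cosh z - 1) + 1 / (2 * cosh z + 1)‖ ≤
        3 / 10 * (1 / gp a * (1 / Real.cosh z.re) + 1 / Real.cosh z.re) := by
        gcongr
        exact (norm_add_le _ _).trans (add_le_add e1 e2)
    _ = 3 / 10 * ((1 / gp a + 1) * (1 / Real.cosh z.re)) := by ring
    _ ≤ 3 / 10 * ((1 / gp a + 1) * (2 * Real.exp (-|z.re|))) := by gcongr
    _ ≤ _ := by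
      have := Real.exp_pos (-|z.re|)
      have : 0 ≤ (1 / gp a + 1) * Real.exp (-|z.re|) := by positivity
      linarith

theorem p1_le {a : ℝ} (ha0 : 0 ≤ a) (ha : a < Real.pi / 3) {z : ℂ} (h : |z.im| ≤ a) :
    ‖p1 z‖ ≤ 2 * ((1 / gp a) ^ 2 + 1) * Real.exp (-|z.re|) := by
  have hc := c0_hi
  have hc0 := c0_pos
  have hg := gp_pos ha0 ha
  have hx := Real.cosh_pos z.re
  have h1 := n1_ge ha h
  have h2 := n2_ge (lt_of_le_of_lt h ha)
  have hs := norm_sinh_le z
  have key : ∀ (w : ℂ) (k : ℝ), 0 < k → k * Real.cosh z.re ≤ ‖w‖ →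
      ‖-(2 * sinh z) / w ^ 2‖ ≤ 2 * ((1 / k) ^ 2 * (1 / Real.cosh z.re)) := by
    intro w k hk hw
    rw [norm_div, norm_neg, norm_mul, norm_pow]
    have h0 : (0:ℝ) < (k * Real.cosh z.re) ^ 2 := by positivity
    have h3 : (k * Real.cosh z.re) ^ 2 ≤ ‖w‖ ^ 2 := by gcongr
    calc ‖(2:ℂ)‖ * ‖sinh z‖ / ‖w‖ ^ 2 ≤ 2 * Real.cosh z.re / (k * Real.cosh z.re) ^ 2 := by
          have : ‖(2:ℂ)‖ = 2 := by norm_num
          rw [this]
          gcongr
      _ = _ := by field_simp
  have e1 := key _ _ hg h1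
  have e2 := key (2 * cosh z + 1) 1 one_pos (by rwa [one_mul])
  have e3 := inv_cosh_le z.re
  unfold p1
  rw [norm_mul, Complex.norm_real, Real.norm_eq_abs, abs_of_pos hc0]
  calc c0 * ‖-(2 * sinh z) / (2 * cosh z - 1) ^ 2 + -(2 * sinh z) / (2 * cosh z + 1) ^ 2‖ ≤
        3 / 10 * (2 * ((1 / gp a) ^ 2 * (1 / Real.cosh z.re)) +
          2 * ((1 / 1) ^ 2 * (1 / Real.cosh z.re))) := by
        gcongr
        exact (norm_add_le _ _).trans (add_le_add e1 e2)
    _ = 3 / 5 * (((1 / gp a) ^ 2 + 1) * (1 / Real.cosh z.re)) := by ring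
    _ ≤ 3 / 5 * (((1 / gp a) ^ 2 + 1) * (2 * Real.exp (-|z.re|))) := by gcongr
    _ ≤ _ := by
      have := Real.exp_pos (-|z.re|)
      have : 0 ≤ ((1 / gp a) ^ 2 + 1) * Real.exp (-|z.re|) := by positivity
      linarith

theorem hasDerivAt_p {z : ℂ} (h : |z.im| < Real.pi / 3) : HasDerivAt p (p1 z) z := by
  have h1 : HasDerivAt (fun z : ℂ => 2 * cosh z - 1) (2 * sinh z) z :=
    ((Complex.hasDerivAt_cosh z).const_mul 2).sub_const 1
  have h2 : HasDerivAt (fun z : ℂ => 2 * cosh z + 1) (2 * sinh z) z :=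
    ((Complex.hasDerivAt_cosh z).const_mul 2).add_const 1
  have h3 := (h1.inv (ne1 h)).add (h2.inv (ne2 h))
  have h4 := h3.const_mul (c0 : ℂ)
  refine h4.congr_of_eventuallyEq (Eventually.of_forall fun w => ?_) |>.congr_deriv rfl
  unfold p
  simp [one_div]

/-! ### the primitive -/

lemma slit_p {z : ℂ} (h : |z.im| < Real.pi / 3) : 1 + I * K z ∈ Complex.slitPlane := by
  rw [Complex.mem_slitPlane_iff]
  have hre : (1 + I * K z).re = 1 - 2 / √3 * (Real.cosh z.re * Real.sin z.im) := by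
    simp [K, sinh_im', Complex.mul_re]
    ring
  have him : (1 + I * K z).im = 2 / √3 * (Real.sinh z.re * Real.cos z.im) := by
    simp [K, sinh_re', Complex.mul_im]
  rw [hre, him]
  by_cases hx : z.re = 0
  · left
    rw [hx, Real.cosh_zero, one_mul]
    have h1 : Real.sin z.im < Real.sin (Real.pi / 3) := by
      have hp := Real.pi_pos
      have := abs_lt.1 h
      exact Real.sin_lt_sin_of_lt_of_le_pi_div_two (by linarith) (by linarith) this.2
    rw [Real.sin_pi_div_three] at h1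
    have h3 := sq3_pos
    have h4 : 2 / √3 * Real.sin z.im < 2 / √3 * (√3 / 2) := by gcongr
    have h5 : 2 / √3 * (√3 / 2) = 1 := by field_simp
    linarith
  · right
    have h1 := half_lt_cos h
    have h3 := sq3_pos
    have h4 : Real.sinh z.re ≠ 0 := fun h0 => hx (Real.sinh_eq_zero.1 h0)
    have h5 : Real.cos z.im ≠ 0 := by linarith
    positivity

lemma K_neg (z : ℂ) : K (-z) = -K z := by
  unfold K
  rw [Complex.sinh_neg]
  ring

lemma slit_m {z : ℂ} (h : |z.im| < Real.pi / 3) : 1 - I * K z ∈ Complex.slitPlane := by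
  have h1 := slit_p (z := -z) (by simpa using h)
  rw [K_neg] at h1
  convert h1 using 1
  ring

theorem r_neg (z : ℂ) : r (-z) = -r z := by
  unfold r
  rw [K_neg]
  have e1 : 1 + I * -K z = 1 - I * K z := by ring
  have e2 : 1 - I * -K z = 1 + I * K z := by ring
  rw [e1, e2]
  ring

lemma K_conj (z : ℂ) : K (conj z) = conj (K z) := by
  unfold K
  rw [Complex.sinh_conj, map_mul, Complex.conj_ofReal]

theorem r_conj {z : ℂ} (h : |z.im| < Real.pi / 3) : r (conj z) = conj (r z) := by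
  have s1 := slit_p h
  have s2 := slit_m h
  have e1 : 1 + I * K (conj z) = conj (1 - I * K z) := by
    rw [K_conj]
    simp
  have e2 : 1 - I * K (conj z) = conj (1 + I * K z) := by
    rw [K_conj]
    simp
    ring
  unfold r
  rw [e1, e2, Complex.log_conj _ (Complex.slitPlane_arg_ne_pi s2),
    Complex.log_conj _ (Complex.slitPlane_arg_ne_pi s1)]
  simp only [map_mul, map_div₀, map_neg, Complex.conj_I, map_sub, Complex.conj_ofReal, map_ofNat]
  ring

theorem hasDerivAt_r {z : ℂ} (h : |z.im| < Real.pi / 3) : HasDerivAt r (p z) z := by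
  have s1 := slit_p h
  have s2 := slit_m h
  have hK : HasDerivAt K (((2 / √3 : ℝ) : ℂ) * cosh z) z :=
    (Complex.hasDerivAt_sinh z).const_mul _
  have h1 : HasDerivAt (fun z => log (1 + I * K z))
      (I * (((2 / √3 : ℝ) : ℂ) * cosh z) / (1 + I * K z)) z :=
    ((hK.const_mul I).const_add 1).clog s1
  have h2 : HasDerivAt (fun z => log (1 - I * K z))
      (-(I * (((2 / √3 : ℝ) : ℂ) * cosh z)) / (1 - I * K z)) z :=
    ((hK.const_mul I).const_sub 1).clog s2
  have h3 := (h1.sub h2).const_mul (-I / (2 * (Real.pi : ℂ)))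
  refine h3.congr_deriv ?_
  have n1 : 1 + I * K z ≠ 0 := Complex.slitPlane_ne_zero s1
  have n2 : 1 - I * K z ≠ 0 := Complex.slitPlane_ne_zero s2
  have m1 := ne1 h
  have m2 := ne2 h
  have hpi : (Real.pi : ℂ) ≠ 0 := by exact_mod_cast Real.pi_ne_zero
  have h3c : ((√3 : ℝ) : ℂ) ≠ 0 := by exact_mod_cast sq3_pos.ne'
  have hs3 : ((√3 : ℝ) : ℂ) ^ 2 = 3 := by exact_mod_cast sq3
  have hch : cosh z ^ 2 - sinh z ^ 2 = 1 := Complex.cosh_sq_sub_sinh_sq z
  have hprod : (1 + I * K z) * (1 - I * K z) = (2 * cosh z - 1) * (2 * cosh z + 1) / 3 := by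
    unfold K
    push_cast
    have : (2 / ((√3 : ℝ) : ℂ)) ^ 2 = 4 / 3 := by
      rw [div_pow, hs3]; norm_num
    have hI : I ^ 2 = -1 := Complex.I_sq
    linear_combination (-(2 / ((√3 : ℝ) : ℂ)) ^ 2 * sinh z ^ 2) * hI + sinh z ^ 2 * this - (4 / 3) * hch
  unfold p c0
  have e1 : -I / (2 * (Real.pi : ℂ)) * (I * (((2 / √3 : ℝ) : ℂ) * cosh z) / (1 + I * K z) -
      -(I * (((2 / √3 : ℝ) : ℂ) * cosh z)) / (1 - I * K z)) =
      1 / (Real.pi : ℂ) * (((2 / √3 : ℝ) : ℂ) * cosh z) / ((1 + I * K z) * (1 - I * K z)) := by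
    have hI : I ^ 2 = -1 := Complex.I_sq
    field_simp
    linear_combination (-2 * cosh z) * hI
  rw [e1, hprod]
  push_cast
  field_simp
  linear_combination (-4 * cosh z) * hs3

/-- vertical derivative -/
theorem hasDerivAt_rv {x u : ℝ} (h : |u| < Real.pi / 3) :
    HasDerivAt (fun u : ℝ => (r (x + u * I)).im) (p (x + u * I)).re u := by
  have h1 : HasDerivAt r (p (x + u * I)) (x + u * I) := hasDerivAt_r (by simpa using h)
  have h2 : HasDerivAt (fun u : ℝ => (x : ℂ) + u * I) I u := by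
    have := ((Complex.ofRealCLM.hasDerivAt (x := u)).mul_const I).const_add (x : ℂ)
    simpa using this
  have h3 := h1.comp_of_eq u h2 rfl
  have h4 := Complex.imCLM.hasFDerivAt.comp_hasDerivAt u h3
  refine h4.congr_deriv ?_
  simp

/-- horizontal derivative -/
theorem hasDerivAt_rh {x u : ℝ} (h : |u| < Real.pi / 3) :
    HasDerivAt (fun x : ℝ => r (x + u * I)) (p (x + u * I)) x := by
  have h1 : HasDerivAt r (p (x + u * I)) (x + u * I) := hasDerivAt_r (by simpa using h)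
  have h2 : HasDerivAt (fun x : ℝ => (x : ℂ) + u * I) 1 x := by
    have := (Complex.ofRealCLM.hasDerivAt (x := x)).add_const (u * I)
    simpa using this
  have h3 : HasDerivAt (fun x : ℝ => r (x + u * I)) (p (x + u * I) * 1) x := h1.comp_of_eq x h2 rfl
  rwa [mul_one] at h3

lemma r_im_real (x : ℝ) : (r x).im = 0 := by
  have h : |((x : ℂ)).im| < Real.pi / 3 := by
    simpa using Real.pi_pos
  have h1 := r_conj h
  rw [Complex.conj_ofReal] at h1
  exact Complex.conj_eq_iff_im.1 h1.symm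

/-- lower bound of the imaginary part -/
theorem r_im_ge {z : ℂ} (h0 : 0 ≤ z.im) (h : z.im < Real.pi / 3) :
    z.im * (Real.exp (-|z.re|) / 32) ≤ (r z).im := by
  have key : MonotoneOn (fun u : ℝ => (r (z.re + u * I)).im - u * (Real.exp (-|z.re|) / 32))
      (Ico 0 (Real.pi / 3)) := by
    have hd : ∀ u ∈ Ico (0:ℝ) (Real.pi / 3), HasDerivAt
        (fun u : ℝ => (r (z.re + u * I)).im - u * (Real.exp (-|z.re|) / 32))
        ((p (z.re + u * I)).re - Real.exp (-|z.re|) / 32) u := fun u hu => by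
      have h1 := hasDerivAt_rv (x := z.re) (u := u) (by rw [abs_of_nonneg hu.1]; exact hu.2)
      have h2 := (hasDerivAt_id u).mul_const (Real.exp (-|z.re|) / 32)
      rw [one_mul] at h2
      exact h1.sub h2
    refine monotoneOn_of_deriv_nonneg (convex_Ico _ _)
      (fun u hu => (hd u hu).continuousAt.continuousWithinAt)
      (fun u hu => ((hd u (interior_subset hu)).differentiableAt).differentiableWithinAt)
      fun u hu => ?_
    have hu' := interior_subset hu
    rw [(hd u hu').deriv]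
    have := p_re (z := z.re + u * I) (by
      simpa using (by rw [abs_of_nonneg hu'.1]; exact hu'.2 : |u| < Real.pi / 3))
    have e : ((z.re : ℂ) + u * I).re = z.re := re_ofR _ _
    rw [e] at this
    linarith
  have h1 := key (⟨le_rfl, by have := Real.pi_pos; positivity⟩ : (0:ℝ) ∈ Ico (0:ℝ) (Real.pi / 3))
    (⟨h0, h⟩ : z.im ∈ Ico (0:ℝ) (Real.pi / 3)) h0
  simp only [Complex.ofReal_zero, zero_mul, add_zero, sub_zero, r_im_real, Complex.re_add_im] at h1
  linarith

/-- upper bound of the imaginary part -/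
theorem r_im_le {a : ℝ} (ha : a < Real.pi / 3) {z : ℂ} (h0 : 0 ≤ z.im) (h : z.im ≤ a) :
    (r z).im ≤ z.im * ((1 / gp a + 1) * Real.exp (-|z.re|)) := by
  have ha0 : 0 ≤ a := h0.trans h
  have key : MonotoneOn (fun u : ℝ => u * ((1 / gp a + 1) * Real.exp (-|z.re|)) -
      (r (z.re + u * I)).im) (Icc 0 a) := by
    have hd : ∀ u ∈ Icc (0:ℝ) a, HasDerivAt
        (fun u : ℝ => u * ((1 / gp a + 1) * Real.exp (-|z.re|)) - (r (z.re + u * I)).im)
        ((1 / gp a + 1) * Real.exp (-|z.re|) - (p (z.re + u * I)).re) u := fun u hu => by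
      have h1 := hasDerivAt_rv (x := z.re) (u := u) (by
        rw [abs_of_nonneg hu.1]; exact lt_of_le_of_lt hu.2 ha)
      have h2 := (hasDerivAt_id u).mul_const ((1 / gp a + 1) * Real.exp (-|z.re|))
      rw [one_mul] at h2
      exact h2.sub h1
    refine monotoneOn_of_deriv_nonneg (convex_Icc _ _)
      (fun u hu => (hd u hu).continuousAt.continuousWithinAt)
      (fun u hu => ((hd u (interior_subset hu)).differentiableAt).differentiableWithinAt)
      fun u hu => ?_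
    have hu' := interior_subset hu
    rw [(hd u hu').deriv]
    have h3 := p_le ha0 ha (z := z.re + u * I) (by
      simpa using (by rw [abs_of_nonneg hu'.1]; exact hu'.2 : |u| ≤ a))
    have e : ((z.re : ℂ) + u * I).re = z.re := re_ofR _ _
    rw [e] at h3
    have h4 := Complex.re_le_norm (p (z.re + u * I))
    linarith
  have h1 := key (⟨le_rfl, ha0⟩ : (0:ℝ) ∈ Icc (0:ℝ) a) (⟨h0, h⟩ : z.im ∈ Icc (0:ℝ) a) h0
  simp only [Complex.ofReal_zero, zero_mul, add_zero, zero_sub, r_im_real, Complex.re_add_im] at h1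
  linarith

lemma r_im_neg {z : ℂ} (h : |z.im| < Real.pi / 3) : (r (conj z)).im = -(r z).im := by
  rw [r_conj h, Complex.conj_im]

end

end ISTZ
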