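import Pool.Agent.IST.Pr

/-!
# ISO, T1: values on the line and the tail of the primitive
-/

set_option autoImplicit false

open Complex Set Filter Topology ComplexConjugate

namespace ISTZ

noncomputable section

/-- the primitive on the line -/
def G (x : ℝ) : ℝ := 1 / Real.pi * Real.arctan (2 / √3 * Real.sinh x)

lemma pi3_pos : 0 < Real.pi / 3 := by
  have := Real.pi_pos
  positivity

lemma im_re_mul (x u : ℝ) : ((x : ℂ) + u * I).im = u := im_ofR x u

theorem r_real (x : ℝ) : r x = (G x : ℂ) := by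
  have hd : ∀ x : ℝ, HasDerivAt (fun x : ℝ => (r x).re - G x) 0 x := fun x => by
    have h1 := hasDerivAt_rh (x := x) (u := 0) (by rw [abs_zero]; exact pi3_pos)
    simp only [Complex.ofReal_zero, zero_mul, add_zero] at h1
    have h2 := Complex.reCLM.hasFDerivAt.comp_hasDerivAt x h1
    have h3 : HasDerivAt (fun x : ℝ => 2 / √3 * Real.sinh x) (2 / √3 * Real.cosh x) x :=
      (Real.hasDerivAt_sinh x).const_mul _
    have h4 := (h3.arctan).const_mul (1 / Real.pi)
    have h5 := h2.sub h4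
    refine h5.congr_deriv ?_
    have e1 : (p x).re = c0 * (1 / (2 * Real.cosh x - 1) + 1 / (2 * Real.cosh x + 1)) := by
      have : p x = ((c0 * (1 / (2 * Real.cosh x - 1) + 1 / (2 * Real.cosh x + 1)) : ℝ) : ℂ) := by
        unfold p
        push_cast
        rfl
      rw [this, Complex.ofReal_re]
    have e2 : Complex.reCLM (p x) = (p x).re := rfl
    rw [e2, e1]
    have hc := Real.one_le_cosh x
    have m1 : 2 * Real.cosh x - 1 ≠ 0 := by linarith
    have m2 : 2 * Real.cosh x + 1 ≠ 0 := by linarith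
    have h3 := sq3
    have h3p := sq3_pos
    have hp := Real.pi_pos
    have hch := Real.cosh_sq x
    have e3 : 1 + (2 / √3 * Real.sinh x) ^ 2 = (2 * Real.cosh x - 1) * (2 * Real.cosh x + 1) / 3 := by
      have : (2 / √3) ^ 2 = 4 / 3 := by rw [div_pow, h3]; norm_num
      rw [mul_pow, this]
      nlinarith
    rw [e3]
    unfold c0
    field_simp
    nlinarith
  have hc : ∀ x y : ℝ, (fun x : ℝ => (r x).re - G x) x = (fun x : ℝ => (r x).re - G x) y :=
    is_const_of_deriv_eq_zero (fun x => (hd x).differentiableAt) fun x => (hd x).deriv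
  have h0 := hc x 0
  simp only at h0
  have r0 : r (0 : ℝ) = 0 := by
    have := r_neg 0
    rw [neg_zero] at this
    rw [Complex.ofReal_zero]
    linear_combination (1 / 2 : ℂ) * this
  have g0 : G 0 = 0 := by simp [G]
  rw [r0, g0] at h0
  simp only [Complex.zero_re, sub_zero] at h0
  apply Complex.ext
  · rw [Complex.ofReal_re]
    linarith
  · rw [r_im_real, Complex.ofReal_im]

lemma G_lt (x : ℝ) : G x < 1 / 2 := by
  have h := Real.arctan_lt_pi_div_two (2 / √3 * Real.sinh x)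
  have hp := Real.pi_pos
  unfold G
  calc 1 / Real.pi * Real.arctan (2 / √3 * Real.sinh x) < 1 / Real.pi * (Real.pi / 2) := by gcongr
    _ = _ := by field_simp

lemma G_neg (x : ℝ) : G (-x) = -G x := by
  unfold G
  rw [Real.sinh_neg, mul_neg, Real.arctan_neg]
  ring

lemma G_gt (x : ℝ) : -(1 / 2) < G x := by
  have := G_lt (-x)
  rw [G_neg] at this
  linarith

lemma G_top : Tendsto G atTop (𝓝 (1 / 2)) := by
  have hp := Real.pi_pos
  have h3 := sq3_pos
  have h1 : Tendsto (fun x : ℝ => 2 / √3 * Real.sinh x) atTop atTop := by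
    refine Tendsto.const_mul_atTop (by positivity) ?_
    exact tendsto_atTop_mono' _ (eventually_ge_atTop 0 |>.mono fun x hx => Real.self_le_sinh_iff.2 hx)
      tendsto_id
  have h2 := (tendsto_nhds_of_tendsto_nhdsWithin Real.tendsto_arctan_atTop).comp h1
  have h4 := h2.const_mul (1 / Real.pi)
  have e : 1 / Real.pi * (Real.pi / 2) = 1 / 2 := by field_simp
  rw [e] at h4
  exact h4

/-- the tail function -/
def H (z : ℂ) : ℂ := r z - 1 / 2 + ((2 * c0 : ℝ) : ℂ) * exp (-z)

lemma alg_tail {c E q : ℂ} (hq : E * q = 1) (m1 : E + q - 1 ≠ 0) (m2 : E + q + 1 ≠ 0) :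
    c * (1 / (E + q - 1) + 1 / (E + q + 1)) - 2 * c * q =
      -(2 * c) * q ^ 3 / ((E + q - 1) * (E + q + 1)) := by
  field_simp
  linear_combination (-2 * c * E - 4 * c * q) * hq

lemma p_tail {z : ℂ} (h : |z.im| < Real.pi / 3) : p z - ((2 * c0 : ℝ) : ℂ) * exp (-z) =
    -((2 * c0 : ℝ) : ℂ) * exp (-3 * z) / ((2 * cosh z - 1) * (2 * cosh z + 1)) := by
  have m1 := ne1 h
  have m2 := ne2 h
  have hc : 2 * cosh z = exp z + exp (-z) := by rw [Complex.cosh]; ring
  have hq : exp z * exp (-z) = 1 := by rw [← Complex.exp_add, add_neg_cancel, Complex.exp_zero]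
  have h3 : exp (-3 * z) = exp (-z) ^ 3 := by
    rw [← Complex.exp_nat_mul]
    congr 1
    push_cast
    ring
  rw [hc] at m1 m2
  have h4 := alg_tail (c := (c0 : ℂ)) hq m1 m2
  unfold p
  rw [h3, hc]
  push_cast
  exact h4

theorem hasDerivAt_H {z : ℂ} (h : |z.im| < Real.pi / 3) :
    HasDerivAt H (p z - ((2 * c0 : ℝ) : ℂ) * exp (-z)) z := by
  have h1 := (hasDerivAt_r h).sub_const (1 / 2 : ℂ)
  have h2 : HasDerivAt (fun z : ℂ => exp (-z)) (-exp (-z)) z := by
    simpa using (hasDerivAt_neg z).cexp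
  have h3 := h1.add (h2.const_mul ((2 * c0 : ℝ) : ℂ))
  refine h3.congr_deriv ?_
  ring

theorem H1_le {a : ℝ} (ha0 : 0 ≤ a) (ha : a < Real.pi / 3) {z : ℂ} (h : |z.im| ≤ a) :
    ‖p z - ((2 * c0 : ℝ) : ℂ) * exp (-z)‖ ≤ 4 / gp a * Real.exp (-5 * z.re) := by
  have hg := gp_pos ha0 ha
  have hc := c0_hi
  have hc0 := c0_pos
  have hlt := lt_of_le_of_lt h ha
  rw [p_tail hlt, norm_div, norm_mul, norm_mul, norm_neg, Complex.norm_real, Real.norm_eq_abs,
    abs_of_pos (by positivity), Complex.norm_exp]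
  have h1 := n1_ge ha h
  have h2 := n2_ge hlt
  have hcosh : Real.exp z.re / 2 ≤ Real.cosh z.re := by
    rw [Real.cosh_eq]
    have := Real.exp_pos (-z.re)
    linarith
  have e := Real.exp_pos z.re
  have h3 : gp a * (Real.exp z.re / 2) * (Real.exp z.re / 2) ≤ ‖2 * cosh z - 1‖ * ‖2 * cosh z + 1‖ := by
    have : gp a * (Real.exp z.re / 2) ≤ ‖2 * cosh z - 1‖ := le_trans (by gcongr) h1
    gcongr
    exact hcosh.trans h2
  have e3 : (-3 * z).re = -3 * z.re := by simp
  rw [e3]
  have e4 : Real.exp (-3 * z.re) = Real.exp (-5 * z.re) * (Real.exp z.re * Real.exp z.re) := by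
    rw [← Real.exp_add, ← Real.exp_add]
    congr 1
    ring
  rw [div_le_iff₀ (lt_of_lt_of_le (by positivity) h3)]
  have h5 := Real.exp_pos (-5 * z.re)
  calc 2 * c0 * Real.exp (-3 * z.re) ≤ 1 * Real.exp (-3 * z.re) := by gcongr; linarith
    _ = 4 / gp a * Real.exp (-5 * z.re) * (gp a * (Real.exp z.re / 2) * (Real.exp z.re / 2)) := by
      rw [e4]
      field_simp
      norm_num
    _ ≤ _ := by gcongr

lemma H_real (x : ℝ) : H x = ((G x - 1 / 2 + 2 * c0 * Real.exp (-x) : ℝ) : ℂ) := by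
  unfold H
  rw [r_real]
  push_cast
  ring

/-- bound on the line -/
theorem H_line {x : ℝ} (hx : 0 ≤ x) : ‖H x‖ ≤ 4 * Real.exp (-5 * x) := by
  have hg : gp 0 = 1 := by unfold gp; rw [Real.cos_zero]; norm_num
  obtain ⟨f, hf⟩ : ∃ f : ℝ → ℝ, f = fun x => G x - 1 / 2 + 2 * c0 * Real.exp (-x) := ⟨_, rfl⟩
  obtain ⟨f', hf'⟩ : ∃ f' : ℝ → ℝ, f' = fun x : ℝ => (p x - ((2 * c0 : ℝ) : ℂ) * exp (-x)).re := ⟨_, rfl⟩
  have hd : ∀ x : ℝ, HasDerivAt f (f' x) x := fun x => by
    have h1 : HasDerivAt H (p x - ((2 * c0 : ℝ) : ℂ) * exp (-x)) (x : ℂ) :=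
      hasDerivAt_H (by simpa using Real.pi_pos)
    have h2 := h1.comp_ofReal
    have h3 := Complex.reCLM.hasFDerivAt.comp_hasDerivAt x h2
    have e : (⇑Complex.reCLM ∘ fun y : ℝ => H y) = f := by
      funext y
      simp only [Function.comp_apply, H_real, hf, Complex.reCLM_apply, Complex.ofReal_re]
    rw [e] at h3
    rw [hf']
    exact h3
  have hb : ∀ x : ℝ, 0 ≤ x → |f' x| ≤ 4 * Real.exp (-5 * x) := fun x hx => by
    have h1 := H1_le (a := 0) le_rfl pi3_pos (z := (x : ℂ)) (by simp)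
    rw [hg, div_one, Complex.ofReal_re] at h1
    rw [hf']
    exact (Complex.abs_re_le_norm _).trans h1
  have hlim : Tendsto f atTop (𝓝 0) := by
    have h1 := (G_top.sub_const (1 / 2)).add
      ((Real.tendsto_exp_neg_atTop_nhds_zero).const_mul (2 * c0))
    rw [hf]
    simpa using h1
  have hexp : ∀ x : ℝ, HasDerivAt (fun x : ℝ => 4 / 5 * Real.exp (-5 * x)) (-(4 * Real.exp (-5 * x))) x :=
    fun x => by
      have h1 : HasDerivAt (fun x : ℝ => -5 * x) (-5) x := by simpa using (hasDerivAt_id x).const_mul (-5)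
      refine (h1.exp.const_mul (4 / 5)).congr_deriv ?_
      ring
  have hexl : Tendsto (fun x : ℝ => 4 / 5 * Real.exp (-5 * x)) atTop (𝓝 0) := by
    have h1 : Tendsto (fun x : ℝ => -5 * x) atTop atBot :=
      tendsto_id.const_mul_atTop_of_neg (by norm_num)
    simpa using (Real.tendsto_exp_atBot.comp h1).const_mul (4 / 5)
  -- upper bound
  have up : f x ≤ 4 / 5 * Real.exp (-5 * x) := by
    have hm : MonotoneOn (fun x => f x - 4 / 5 * Real.exp (-5 * x)) (Ici 0) := by
      refine monotoneOn_of_deriv_nonneg (convex_Ici _)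
        (fun u _ => ((hd u).sub (hexp u)).continuousAt.continuousWithinAt)
        (fun u _ => ((hd u).sub (hexp u)).differentiableAt.differentiableWithinAt) fun u hu => ?_
      have hu' : 0 ≤ u := interior_subset hu
      have e := ((hd u).sub (hexp u)).deriv
      rw [show (fun x => f x - 4 / 5 * Real.exp (-5 * x)) = f - fun x => 4 / 5 * Real.exp (-5 * x) from rfl, e]
      have := (abs_le.1 (hb u hu')).1
      linarith
    have hl : Tendsto (fun x => f x - 4 / 5 * Real.exp (-5 * x)) atTop (𝓝 0) := by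
      simpa using hlim.sub hexl
    have h1 : f x - 4 / 5 * Real.exp (-5 * x) ≤ 0 :=
      ge_of_tendsto hl (eventually_ge_atTop x |>.mono fun y hy => hm hx (hx.trans hy : (0:ℝ) ≤ y) hy)
    linarith
  have lo : -(4 / 5 * Real.exp (-5 * x)) ≤ f x := by
    have hm : AntitoneOn (fun x => f x + 4 / 5 * Real.exp (-5 * x)) (Ici 0) := by
      refine antitoneOn_of_deriv_nonpos (convex_Ici _)
        (fun u _ => ((hd u).add (hexp u)).continuousAt.continuousWithinAt)
        (fun u _ => ((hd u).add (hexp u)).differentiableAt.differentiableWithinAt) fun u hu => ?_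
      have hu' : 0 ≤ u := interior_subset hu
      have e := ((hd u).add (hexp u)).deriv
      rw [show (fun x => f x + 4 / 5 * Real.exp (-5 * x)) = f + fun x => 4 / 5 * Real.exp (-5 * x) from rfl, e]
      have := (abs_le.1 (hb u hu')).2
      linarith
    have hl : Tendsto (fun x => f x + 4 / 5 * Real.exp (-5 * x)) atTop (𝓝 0) := by
      simpa using hlim.add hexl
    have h1 : 0 ≤ f x + 4 / 5 * Real.exp (-5 * x) :=
      le_of_tendsto hl (eventually_ge_atTop x |>.mono fun y hy => hm hx (hx.trans hy : (0:ℝ) ≤ y) hy)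
    linarith
  have e : ‖H x‖ = |f x| := by
    rw [H_real, Complex.norm_real, Real.norm_eq_abs, hf]
  rw [e, abs_le]
  have := Real.exp_pos (-5 * x)
  constructor <;> linarith

/-- **the tail of the primitive** -/
theorem H_le {a : ℝ} (ha0 : 0 ≤ a) (ha : a < Real.pi / 3) {z : ℂ} (h : |z.im| ≤ a) (hx : 0 ≤ z.re) :
    ‖H z‖ ≤ (4 + 8 / gp a) * Real.exp (-5 * z.re) := by
  have hg := gp_pos ha0 ha
  have h1 := H_line hx
  have hsub : ∀ w ∈ segment ℝ ((z.re : ℝ) : ℂ) z, |w.im| ≤ a ∧ w.re = z.re := by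
    intro w hw
    obtain ⟨s, t, hs, ht, hst, rfl⟩ := hw
    have e1 : (s • ((z.re : ℝ) : ℂ) + t • z).im = t * z.im := by simp
    have e2 : (s • ((z.re : ℝ) : ℂ) + t • z).re = z.re := by
      simp
      rw [← add_mul, hst, one_mul]
    refine ⟨?_, e2⟩
    rw [e1, abs_mul, abs_of_nonneg ht]
    have : t ≤ 1 := by linarith
    have := abs_nonneg z.im
    nlinarith
  have h2 : ‖H z - H ((z.re : ℝ) : ℂ)‖ ≤ 4 / gp a * Real.exp (-5 * z.re) * ‖z - ((z.re : ℝ) : ℂ)‖ := by
    refine (convex_segment ((z.re : ℝ) : ℂ) z).norm_image_sub_le_of_norm_hasDerivWithin_le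
      (f' := fun w => p w - ((2 * c0 : ℝ) : ℂ) * exp (-w))
      (fun w hw => (hasDerivAt_H (lt_of_le_of_lt (hsub w hw).1 ha)).hasDerivWithinAt)
      (fun w hw => ?_) (left_mem_segment ℝ _ _) (right_mem_segment ℝ _ _)
    obtain ⟨w1, w2⟩ := hsub w hw
    have := H1_le ha0 ha w1
    rwa [w2] at this
  have h3 : ‖z - ((z.re : ℝ) : ℂ)‖ ≤ 2 := by
    have e : z - ((z.re : ℝ) : ℂ) = (z.im : ℂ) * I := by
      apply Complex.ext <;> simp
    rw [e, norm_mul, Complex.norm_I, mul_one, Complex.norm_real, Real.norm_eq_abs]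
    have := Real.pi_lt_d2
    linarith
  have h4 : 0 ≤ 4 / gp a * Real.exp (-5 * z.re) := by
    have := Real.exp_pos (-5 * z.re)
    positivity
  calc ‖H z‖ = ‖H ((z.re : ℝ) : ℂ) + (H z - H ((z.re : ℝ) : ℂ))‖ := by congr 1; ring
    _ ≤ 4 * Real.exp (-5 * z.re) + 4 / gp a * Real.exp (-5 * z.re) * 2 :=
      (norm_add_le _ _).trans (add_le_add h1 (h2.trans (by gcongr)))
    _ = _ := by ring

end

end ISTZ
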