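import Pool.Agent.IST.RowEX

/-!
# Universal functions of rows without fusion (helper33)

* `RowA`: sizes `M e^|κ| + d` and annihilation only;
* `RowA.D`: `k c(k κ) = d_+((k-1) κ) - d_-((k+1) κ)` for four rows up to `C (d + M e^3)`, with
  `d_± μ = c(±1 (μ \ 0))`;
* **`RowA.EX_two`, `RowA.EX_zero`**: the exchange of two pairs, the annihilation of a pair,
  errors `CE K (M e^3 + d)`.
-/

set_option autoImplicit false

noncomputable section

open Complex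

namespace IST.Row

/-- **the relations of the coefficients**, no fusion -/
structure RowA (c : Multiset ℤ → ℂ) (n0 K : ℕ) (M e d : ℝ) : Prop where
  M0 : 0 ≤ M
  e0 : 0 < e
  e1 : e ≤ 1
  d0 : 0 ≤ d
  K4 : 4 ≤ K
  bd : ∀ κ, Multiset.card κ ≤ n0 → ‖c κ‖ ≤ M * e ^ wt κ + d
  supp : ∀ κ, (∃ k ∈ κ, (K : ℤ) < |k|) → c κ = 0
  ann : ∀ κ, Multiset.card κ + 2 ≤ n0 → ∀ j : ℤ,
    ‖(∑ k ∈ bx K j, (-1 : ℂ) ^ k * c (k ::ₘ (j - k) ::ₘ κ)) - if j = 0 then c κ else 0‖ ≤ d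

theorem RowC.toA {c : Multiset ℤ → ℂ} {n0 K : ℕ} {M e d : ℝ} (h : RowC c n0 K M e d) :
    RowA c n0 K M e d :=
  ⟨h.M0, h.e0, h.e1, h.d0, h.K4, h.bd, h.supp, h.ann⟩

/-- the unit of the errors -/
def e3 (M e d : ℝ) : ℝ := M * e ^ 3 + d

namespace RowA

variable {c : Multiset ℤ → ℂ} {n0 K : ℕ} {M e d : ℝ}

theorem e30 (h : RowA c n0 K M e d) : 0 ≤ e3 M e d :=
  add_nonneg (mul_nonneg h.M0 (pow_nonneg h.e0.le _)) h.d0

theorem d_le (h : RowA c n0 K M e d) : d ≤ e3 M e d :=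
  le_add_of_nonneg_left (mul_nonneg h.M0 (pow_nonneg h.e0.le _))

theorem bd3 (h : RowA c n0 K M e d) {κ : Multiset ℤ} (h1 : Multiset.card κ ≤ n0)
    (h2 : 3 ≤ wt κ) : ‖c κ‖ ≤ e3 M e d :=
  (h.bd κ h1).trans (add_le_add_left (mul_le_mul_of_nonneg_left
    (pow_le_pow_of_le_one h.e0.le h.e1 h2) h.M0) d)

/-- derivative in `p_1` -/
def dp (c : Multiset ℤ → ℂ) (μ : Multiset ℤ) : ℂ := if (0 : ℤ) ∈ μ then c (1 ::ₘ μ.erase 0) else 0
/-- derivative in `p_{-1}` -/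
def dm (c : Multiset ℤ → ℂ) (μ : Multiset ℤ) : ℂ :=
  if (0 : ℤ) ∈ μ then c ((-1) ::ₘ μ.erase 0) else 0

theorem dp_supp (h : RowA c n0 K M e d) {μ : Multiset ℤ} (hμ : ∃ k ∈ μ, (K : ℤ) < |k|) :
    dp c μ = 0 := by
  obtain ⟨k, hk, hk'⟩ := hμ
  unfold dp
  split_ifs with h0
  · refine h.supp _ ⟨k, Multiset.mem_cons_of_mem ((Multiset.mem_erase_of_ne ?_).2 hk), hk'⟩
    rintro rfl
    have : (0 : ℤ) ≤ K := Int.natCast_nonneg K
    simp at hk'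
    omega
  · rfl

theorem dm_supp (h : RowA c n0 K M e d) {μ : Multiset ℤ} (hμ : ∃ k ∈ μ, (K : ℤ) < |k|) :
    dm c μ = 0 := by
  obtain ⟨k, hk, hk'⟩ := hμ
  unfold dm
  split_ifs with h0
  · refine h.supp _ ⟨k, Multiset.mem_cons_of_mem ((Multiset.mem_erase_of_ne ?_).2 hk), hk'⟩
    rintro rfl
    have : (0 : ℤ) ≤ K := Int.natCast_nonneg K
    simp at hk'
    omega
  · rfl

theorem wt_erase {μ : Multiset ℤ} (h : (0 : ℤ) ∈ μ) : wt (μ.erase 0) = wt μ := by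
  conv_rhs => rw [← Multiset.cons_erase h]
  simp

theorem card_erase' {μ : Multiset ℤ} (h : (0 : ℤ) ∈ μ) :
    Multiset.card (μ.erase 0) + 1 = Multiset.card μ := by
  conv_rhs => rw [← Multiset.cons_erase h]
  simp

theorem wt_ge : ∀ {μ : Multiset ℤ}, (0 : ℤ) ∉ μ → Multiset.card μ ≤ wt μ := by
  intro μ
  induction μ using Multiset.induction_on with
  | empty => simp
  | cons a s ih =>
    intro h
    rw [Multiset.mem_cons, not_or] at h
    have h1 := ih h.2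
    rw [Multiset.card_cons, wt_cons]
    have : a ≠ 0 := fun h' => h.1 h'.symm
    omega

/-- small pieces -/
theorem dp_le (h : RowA c n0 K M e d) {μ : Multiset ℤ} (h1 : Multiset.card μ ≤ n0)
    (h2 : 2 ≤ wt μ) : ‖dp c μ‖ ≤ e3 M e d := by
  unfold dp
  split_ifs with h0
  · refine h.bd3 ?_ ?_
    · rw [Multiset.card_cons, card_erase' h0]
      exact h1
    · rw [wt_cons, wt_erase h0]
      simp
      omega
  · rw [norm_zero]
    exact h.e30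

theorem dm_le (h : RowA c n0 K M e d) {μ : Multiset ℤ} (h1 : Multiset.card μ ≤ n0)
    (h2 : 2 ≤ wt μ) : ‖dm c μ‖ ≤ e3 M e d := by
  unfold dm
  split_ifs with h0
  · refine h.bd3 ?_ ?_
    · rw [Multiset.card_cons, card_erase' h0]
      exact h1
    · rw [wt_cons, wt_erase h0]
      simp
      omega
  · rw [norm_zero]
    exact h.e30

/-- **cutting a relation** -/
theorem cut (h : RowA c n0 K M e d) {κ : Multiset ℤ} (hκ : Multiset.card κ + 2 ≤ n0) {j : ℤ}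
    {T : Finset ℤ} (hT : T ⊆ bx K j) (hw : ∀ k ∉ T, 3 ≤ k.natAbs + (j - k).natAbs + wt κ)
    (hj : j ≠ 0) :
    ‖∑ k ∈ T, (-1 : ℂ) ^ k * c (k ::ₘ (j - k) ::ₘ κ)‖ ≤ (2 * K + 2) * e3 M e d := by
  have h0 := h.ann κ hκ j
  rw [if_neg hj, sub_zero, ← Finset.sum_sdiff hT] at h0
  have h1 : ∀ k ∈ bx K j \ T, ‖(-1 : ℂ) ^ k * c (k ::ₘ (j - k) ::ₘ κ)‖ ≤ e3 M e d := by
    intro k hk
    rw [Finset.mem_sdiff] at hk
    have h2 : ‖c (k ::ₘ (j - k) ::ₘ κ)‖ ≤ e3 M e d := h.bd3 (by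
        simp only [Multiset.card_cons]
        omega) (by
      have := hw k hk.2
      simp only [wt_cons]
      omega)
    rw [norm_mul]
    calc ‖(-1 : ℂ) ^ k‖ * _ ≤ 1 * e3 M e d :=
          mul_le_mul (RowC.zpow_one_le k) h2 (norm_nonneg _) zero_le_one
      _ = _ := one_mul _
  have h2 := (norm_sum_le _ _).trans (Finset.sum_le_card_nsmul _ _ _ h1)
  rw [nsmul_eq_mul] at h2
  have h3 : ((bx K j \ T).card : ℝ) ≤ 2 * K + 1 := by
    have h2 : (bx K j \ T).card ≤ 2 * K + 1 := by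
      refine (Finset.card_le_card (Finset.sdiff_subset.trans (Finset.filter_subset _ _))).trans ?_
      rw [Int.card_Icc]
      omega
    exact_mod_cast h2
  have h4 := h2.trans (mul_le_mul_of_nonneg_right h3 h.e30)
  have h5 := norm_sub_le_of_le h0 h4
  rw [add_sub_cancel_left] at h5
  have := h.d_le
  linarith

/-- the size of the error of one row -/
def er (K : ℕ) (M e d : ℝ) : ℝ := (2 * K + 3) * e3 M e d

theorem er0 (h : RowA c n0 K M e d) : 0 ≤ er K M e d :=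
  mul_nonneg (by positivity) h.e30

theorem two (h : RowA c n0 K M e d) (hn : 4 ≤ n0) :
    ‖2 * c (2 ::ₘ 0 ::ₘ 0 ::ₘ 0 ::ₘ 0) - c (1 ::ₘ 1 ::ₘ 0 ::ₘ 0 ::ₘ 0)‖ ≤
      (2 * K + 2) * e3 M e d := by
  have hK := h.K4
  have h1 := h.cut (κ := 0 ::ₘ 0 ::ₘ 0) (by simp; omega) (j := 2) (T := {0, 1, 2}) (by
    intro k hk
    simp only [Finset.mem_insert, Finset.mem_singleton] at hk
    rw [mem_bx]
    omega) (by
    intro k hk
    simp only [Finset.mem_insert, Finset.mem_singleton] at hk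
    omega) (by norm_num)
  rw [Finset.sum_insert (by decide), Finset.sum_insert (by decide), Finset.sum_singleton] at h1
  rw [show (2 - 0 : ℤ) = 2 by norm_num, show (2 - 1 : ℤ) = 1 by norm_num,
    show (2 - 2 : ℤ) = 0 by norm_num, Multiset.cons_swap 0 2, zpow_zero, zpow_one,
    show (-1 : ℂ) ^ (2 : ℤ) = 1 by norm_num] at h1
  calc _ = ‖_‖ := congrArg norm (by ring)
    _ ≤ _ := h1

theorem two' (h : RowA c n0 K M e d) (hn : 4 ≤ n0) :
    ‖2 * c ((-2) ::ₘ 0 ::ₘ 0 ::ₘ 0 ::ₘ 0) - c ((-1) ::ₘ (-1) ::ₘ 0 ::ₘ 0 ::ₘ 0)‖ ≤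
      (2 * K + 2) * e3 M e d := by
  have hK := h.K4
  have h1 := h.cut (κ := 0 ::ₘ 0 ::ₘ 0) (by simp; omega) (j := -2) (T := {0, -1, -2}) (by
    intro k hk
    simp only [Finset.mem_insert, Finset.mem_singleton] at hk
    rw [mem_bx]
    omega) (by
    intro k hk
    simp only [Finset.mem_insert, Finset.mem_singleton] at hk
    omega) (by norm_num)
  rw [Finset.sum_insert (by decide), Finset.sum_insert (by decide), Finset.sum_singleton] at h1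
  rw [show (-2 - 0 : ℤ) = -2 by norm_num, show (-2 - -1 : ℤ) = -1 by norm_num,
    show (-2 - -2 : ℤ) = 0 by norm_num, Multiset.cons_swap 0 (-2), zpow_zero,
    show (-1 : ℂ) ^ (-1 : ℤ) = -1 by norm_num,
    show (-1 : ℂ) ^ (-2 : ℤ) = 1 by norm_num] at h1
  calc _ = ‖_‖ := congrArg norm (by ring)
    _ ≤ _ := h1

/-- no weight: all exponents vanish -/
theorem eq0 : ∀ {κ : Multiset ℤ}, wt κ = 0 → κ = Multiset.replicate (Multiset.card κ) 0 := by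
  intro κ h
  rw [Multiset.eq_replicate_card]
  intro b hb
  have := Multiset.single_le_sum (s := κ.map Int.natAbs) (fun x _ => Nat.zero_le x) b.natAbs
    (Multiset.mem_map_of_mem _ hb)
  unfold wt at h
  omega

/-- **one row moves along `p_1`, `p_{-1}`** -/
theorem D (h : RowA c n0 K M e d) (hn : 4 ≤ n0) {κ : Multiset ℤ} (hκ : Multiset.card κ = 3) (k : ℤ) :
    ‖(k : ℂ) * c (k ::ₘ κ) - (dp c ((k - 1) ::ₘ κ) - dm c ((k + 1) ::ₘ κ))‖ ≤ er K M e d := by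
  have h0 := h.e30
  have hK0 : (0 : ℝ) ≤ K := Nat.cast_nonneg K
  by_cases hw : 3 ≤ k.natAbs + wt κ
  · -- everything is small
    have h1 : ‖(k : ℂ) * c (k ::ₘ κ)‖ ≤ K * e3 M e d := by
      by_cases hk : (K : ℤ) < |k|
      · rw [h.supp _ ⟨k, Multiset.mem_cons_self _ _, hk⟩, mul_zero, norm_zero]
        positivity
      · rw [norm_mul]
        refine mul_le_mul ?_ (h.bd3 (by simp; omega) (by simpa using hw)) (norm_nonneg _) hK0
        rw [Complex.norm_intCast]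
        exact_mod_cast not_lt.1 hk
    have h2 := h.dp_le (μ := (k - 1) ::ₘ κ) (by simp; omega) (by rw [wt_cons]; omega)
    have h3 := h.dm_le (μ := (k + 1) ::ₘ κ) (by simp; omega) (by rw [wt_cons]; omega)
    refine (norm_sub_le_of_le h1 (norm_sub_le_of_le h2 h3)).trans ?_
    unfold er
    nlinarith
  · have hz : (0 : ℤ) ∈ κ := by
      by_contra h1
      have := wt_ge h1
      omega
    obtain ⟨κ', rfl⟩ : ∃ κ', κ = 0 ::ₘ κ' := ⟨κ.erase 0, (Multiset.cons_erase hz).symm⟩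
    rw [wt_cons, Int.natAbs_zero, zero_add] at hw
    rw [Multiset.card_cons] at hκ
    have hd : ∀ a : ℤ, dp c (a ::ₘ 0 ::ₘ κ') = c (1 ::ₘ a ::ₘ κ') := by
      intro a
      have h1 : (0 : ℤ) ∈ a ::ₘ 0 ::ₘ κ' := by simp
      unfold dp
      rw [if_pos h1, Multiset.cons_swap a 0, Multiset.erase_cons_head]
    have hd' : ∀ a : ℤ, dm c (a ::ₘ 0 ::ₘ κ') = c ((-1) ::ₘ a ::ₘ κ') := by
      intro a
      have h1 : (0 : ℤ) ∈ a ::ₘ 0 ::ₘ κ' := by simp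
      unfold dm
      rw [if_pos h1, Multiset.cons_swap a 0, Multiset.erase_cons_head]
    rw [hd, hd']
    have hcases : k = 0 ∨ k = 1 ∨ k = -1 ∨ k = 2 ∨ k = -2 := by omega
    rcases hcases with rfl | rfl | rfl | rfl | rfl
    · rw [show (0 - 1 : ℤ) = -1 by norm_num, show (0 + 1 : ℤ) = 1 by norm_num,
        Multiset.cons_swap (-1) 1]
      push_cast
      rw [zero_mul, sub_self, sub_self, norm_zero]
      exact h.er0
    · rw [show (1 - 1 : ℤ) = 0 by norm_num, show (1 + 1 : ℤ) = 2 by norm_num]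
      push_cast
      rw [one_mul, sub_sub_cancel]
      refine (h.bd3 (by simp; omega) (by simp only [wt_cons]; omega)).trans ?_
      unfold er
      nlinarith
    · rw [show (-1 - 1 : ℤ) = -2 by norm_num, show (-1 + 1 : ℤ) = 0 by norm_num]
      push_cast
      have e1 : (-1 : ℂ) * c ((-1) ::ₘ 0 ::ₘ κ') - (c (1 ::ₘ (-2) ::ₘ κ') -
          c ((-1) ::ₘ 0 ::ₘ κ')) = -c (1 ::ₘ (-2) ::ₘ κ') := by ring
      rw [e1, norm_neg]
      refine (h.bd3 (by simp; omega) (by simp only [wt_cons]; omega)).trans ?_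
      unfold er
      nlinarith
    · have e1 : κ' = 0 ::ₘ 0 ::ₘ 0 := by
        rw [eq0 (κ := κ') (by omega), show Multiset.card κ' = 2 by omega]
        rfl
      rw [e1, show (2 - 1 : ℤ) = 1 by norm_num, show (2 + 1 : ℤ) = 3 by norm_num]
      push_cast
      have h1 := h.two hn
      have h2 : ‖c ((-1) ::ₘ 3 ::ₘ 0 ::ₘ 0 ::ₘ 0)‖ ≤ e3 M e d :=
        h.bd3 (by simp; omega) (by simp only [wt_cons]; omega)
      rw [← sub_add]
      refine (norm_add_le_of_le h1 h2).trans ?_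
      unfold er
      nlinarith
    · have e1 : κ' = 0 ::ₘ 0 ::ₘ 0 := by
        rw [eq0 (κ := κ') (by omega), show Multiset.card κ' = 2 by omega]
        rfl
      rw [e1, show (-2 - 1 : ℤ) = -3 by norm_num, show (-2 + 1 : ℤ) = -1 by norm_num]
      push_cast
      have h1 := h.two' hn
      have h2 : ‖c (1 ::ₘ (-3) ::ₘ 0 ::ₘ 0 ::ₘ 0)‖ ≤ e3 M e d :=
        h.bd3 (by simp; omega) (by simp only [wt_cons]; omega)
      have h3 := norm_sub_le_of_le (norm_neg (2 * c ((-2) ::ₘ 0 ::ₘ 0 ::ₘ 0 ::ₘ 0) -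
        c ((-1) ::ₘ (-1) ::ₘ 0 ::ₘ 0 ::ₘ 0)) ▸ h1) h2
      calc _ = ‖_‖ := congrArg norm (by ring)
        _ ≤ _ := h3
        _ ≤ _ := by
          unfold er
          nlinarith

end RowA

/-! ### four rows, abstract form -/

/-- the four rows move along `p_1`, `p_{-1}` up to `E` -/
structure DD (c dp dm : Multiset ℤ → ℂ) (K : ℕ) (E : ℝ) : Prop where
  E0 : 0 ≤ E
  D : ∀ κ, Multiset.card κ = 3 → ∀ k : ℤ,
    ‖(k : ℂ) * c (k ::ₘ κ) - (dp ((k - 1) ::ₘ κ) - dm ((k + 1) ::ₘ κ))‖ ≤ E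
  sp : ∀ μ, (∃ k ∈ μ, (K : ℤ) < |k|) → dp μ = 0
  sm : ∀ μ, (∃ k ∈ μ, (K : ℤ) < |k|) → dm μ = 0

theorem RowA.dd {c : Multiset ℤ → ℂ} {n0 K : ℕ} {M e d : ℝ} (h : RowA c n0 K M e d)
    (hn : 4 ≤ n0) : DD c (RowA.dp c) (RowA.dm c) K (RowA.er K M e d) where
  E0 := h.er0
  D _ hκ k := h.D hn hκ k
  sp _ hμ := h.dp_supp hμ
  sm _ hμ := h.dm_supp hμ

section dd

variable {c dp dm : Multiset ℤ → ℂ} {K : ℕ} {E : ℝ}

/-- **one row**, any weight -/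
theorem row_gen' {ι : Type*} (s : Finset ι) (m : ι → Multiset ℤ) (n : ι → ℤ) (u : ι ≃ ι)
    {φ : ι → ℂ} {Φ : ℝ} (hE0 : 0 ≤ E)
    (hE : ∀ p, ‖(n p : ℂ) * c (m p) - (dp (m (u.symm p)) - dm (m (u p)))‖ ≤ E)
    (hφ : ∀ p ∈ s, ‖φ p‖ ≤ Φ) (s1 : ∀ p ∉ s, dp (m p) = 0)
    (s2 : ∀ p ∉ s, dp (m (u.symm p)) = 0) (s3 : ∀ p ∉ s, dm (m p) = 0)
    (s4 : ∀ p ∉ s, dm (m (u p)) = 0) :
    ‖∑ p ∈ s, (n p : ℂ) * c (m p) * φ p - (∑ p ∈ s, dp (m p) * φ (u p) -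
      ∑ p ∈ s, dm (m p) * φ (u.symm p))‖ ≤ s.card * (E * Φ) := by
  have e1 := sum_shift s u.symm (fun p => dp (m p) * φ (u p))
    (fun p hp => by simp only [s1 p hp, zero_mul]) (fun p hp => by simp only [s2 p hp, zero_mul])
  have e2 := sum_shift s u (fun p => dm (m p) * φ (u.symm p))
    (fun p hp => by simp only [s3 p hp, zero_mul]) (fun p hp => by simp only [s4 p hp, zero_mul])
  simp only [Equiv.apply_symm_apply, Equiv.symm_apply_apply] at e1 e2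
  rw [← e1, ← e2, ← Finset.sum_sub_distrib, ← Finset.sum_sub_distrib]
  refine (norm_sum_le _ _).trans ?_
  rw [← nsmul_eq_mul]
  refine Finset.sum_le_card_nsmul _ _ _ fun p hp => ?_
  have e3 : (n p : ℂ) * c (m p) * φ p - (dp (m (u.symm p)) * φ p -
      dm (m (u p)) * φ p) = ((n p : ℂ) * c (m p) - (dp (m (u.symm p)) -
      dm (m (u p)))) * φ p := by ring
  rw [e3, norm_mul]
  exact mul_le_mul (hE p) (hφ p hp) (norm_nonneg _) hE0

variable (h : DD c dp dm K E) {φ : I4 → ℂ} {Φ : ℝ} (hφ : ∀ p ∈ B4 K, ‖φ p‖ ≤ Φ)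

include h hφ

theorem DD.r0 : ‖∑ p ∈ B4 K, (p.1 : ℂ) * c (m4 p) * φ p - (∑ p ∈ B4 K, dp (m4 p) * φ (u0 p) -
    ∑ p ∈ B4 K, dm (m4 p) * φ (u0.symm p))‖ ≤ (B4 K).card * (E * Φ) := by
  refine row_gen' (B4 K) m4 (fun p => p.1) u0 h.E0 (fun p => ?_) hφ ?_ ?_ ?_ ?_
  · exact h.D (p.2.1 ::ₘ p.2.2.1 ::ₘ p.2.2.2 ::ₘ 0) (by simp) p.1
  · exact fun p hp => h.sp _ (m4_out hp (by simp) (by simp) (by simp) (by simp))
  · exact fun p hp => h.sp _ (m4_out hp (by simp [u0]) (by simp [u0]) (by simp [u0])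
      (by simp [u0]))
  · exact fun p hp => h.sm _ (m4_out hp (by simp) (by simp) (by simp) (by simp))
  · exact fun p hp => h.sm _ (m4_out hp (by simp [u0]) (by simp [u0]) (by simp [u0])
      (by simp [u0]))

theorem DD.r1 : ‖∑ p ∈ B4 K, (p.2.1 : ℂ) * c (m4 p) * φ p - (∑ p ∈ B4 K, dp (m4 p) * φ (u1 p) -
    ∑ p ∈ B4 K, dm (m4 p) * φ (u1.symm p))‖ ≤ (B4 K).card * (E * Φ) := by
  refine row_gen' (B4 K) m4 (fun p => p.2.1) u1 h.E0 (fun p => ?_) hφ ?_ ?_ ?_ ?_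
  · have h1 := h.D (p.1 ::ₘ p.2.2.1 ::ₘ p.2.2.2 ::ₘ 0) (by simp) p.2.1
    have e1 : ∀ k : ℤ, k ::ₘ p.1 ::ₘ p.2.2.1 ::ₘ p.2.2.2 ::ₘ 0 = m4 (p.1, k, p.2.2) := fun k =>
      Multiset.cons_swap _ _ _
    rw [e1, e1, e1] at h1
    exact h1
  · exact fun p hp => h.sp _ (m4_out hp (by simp) (by simp) (by simp) (by simp))
  · exact fun p hp => h.sp _ (m4_out hp (by simp [u1]) (by simp [u1]) (by simp [u1])
      (by simp [u1]))
  · exact fun p hp => h.sm _ (m4_out hp (by simp) (by simp) (by simp) (by simp))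
  · exact fun p hp => h.sm _ (m4_out hp (by simp [u1]) (by simp [u1]) (by simp [u1])
      (by simp [u1]))

theorem DD.r2 : ‖∑ p ∈ B4 K, (p.2.2.1 : ℂ) * c (m4 p) * φ p -
    (∑ p ∈ B4 K, dp (m4 p) * φ (u2 p) -
    ∑ p ∈ B4 K, dm (m4 p) * φ (u2.symm p))‖ ≤ (B4 K).card * (E * Φ) := by
  refine row_gen' (B4 K) m4 (fun p => p.2.2.1) u2 h.E0 (fun p => ?_) hφ ?_ ?_ ?_ ?_
  · have h1 := h.D (p.1 ::ₘ p.2.1 ::ₘ p.2.2.2 ::ₘ 0) (by simp) p.2.2.1
    have e1 : ∀ k : ℤ, k ::ₘ p.1 ::ₘ p.2.1 ::ₘ p.2.2.2 ::ₘ 0 =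
        m4 (p.1, p.2.1, k, p.2.2.2) := fun k => by
      rw [Multiset.cons_swap k p.1, Multiset.cons_swap k p.2.1]
      rfl
    rw [e1, e1, e1] at h1
    exact h1
  · exact fun p hp => h.sp _ (m4_out hp (by simp) (by simp) (by simp) (by simp))
  · exact fun p hp => h.sp _ (m4_out hp (by simp [u2]) (by simp [u2]) (by simp [u2])
      (by simp [u2]))
  · exact fun p hp => h.sm _ (m4_out hp (by simp) (by simp) (by simp) (by simp))
  · exact fun p hp => h.sm _ (m4_out hp (by simp [u2]) (by simp [u2]) (by simp [u2])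
      (by simp [u2]))

theorem DD.r3 : ‖∑ p ∈ B4 K, (p.2.2.2 : ℂ) * c (m4 p) * φ p -
    (∑ p ∈ B4 K, dp (m4 p) * φ (u3 p) -
    ∑ p ∈ B4 K, dm (m4 p) * φ (u3.symm p))‖ ≤ (B4 K).card * (E * Φ) := by
  refine row_gen' (B4 K) m4 (fun p => p.2.2.2) u3 h.E0 (fun p => ?_) hφ ?_ ?_ ?_ ?_
  · have h1 := h.D (p.1 ::ₘ p.2.1 ::ₘ p.2.2.1 ::ₘ 0) (by simp) p.2.2.2
    have e1 : ∀ k : ℤ, k ::ₘ p.1 ::ₘ p.2.1 ::ₘ p.2.2.1 ::ₘ 0 =
        m4 (p.1, p.2.1, p.2.2.1, k) := fun k => by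
      rw [Multiset.cons_swap k p.1, Multiset.cons_swap k p.2.1, Multiset.cons_swap k p.2.2.1]
      rfl
    rw [e1, e1, e1] at h1
    exact h1
  · exact fun p hp => h.sp _ (m4_out hp (by simp) (by simp) (by simp) (by simp))
  · exact fun p hp => h.sp _ (m4_out hp (by simp [u3]) (by simp [u3]) (by simp [u3])
      (by simp [u3]))
  · exact fun p hp => h.sm _ (m4_out hp (by simp) (by simp) (by simp) (by simp))
  · exact fun p hp => h.sm _ (m4_out hp (by simp [u3]) (by simp [u3]) (by simp [u3])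
      (by simp [u3]))

end dd

/-- the constant -/
def CD (K : ℕ) : ℝ := (B4 K).card * 5 ^ (4 * K + 8)

theorem CD0 (K : ℕ) : 0 ≤ CD K :=
  mul_nonneg (Nat.cast_nonneg _) (pow_nonneg (by norm_num) _)

variable {c dp dm : Multiset ℤ → ℂ} {K : ℕ} {E : ℝ}

theorem DD.Tq_le (h : DD c dp dm K E) {a b : ℂ} (ha : ‖a‖ ≤ 4) (hb : ‖b‖ ≤ 4) :
    ‖Tq c K a b‖ ≤ CD K * E := by
  obtain ⟨φ, hφ⟩ : ∃ φ : I4 → ℂ, φ = fun p => Ss (p.1 - p.2.1 - 1) a *
    Cc (p.2.2.1 - p.2.2.2) b := ⟨_, rfl⟩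
  obtain ⟨ψ, hψ⟩ : ∃ ψ : I4 → ℂ, ψ = fun p => Cc (p.1 - p.2.1) a *
    Ss (p.2.2.1 - p.2.2.2 - 1) b := ⟨_, rfl⟩
  have bφ : ∀ p ∈ B4 K, ‖φ p‖ ≤ 5 ^ (4 * K + 8) := by
    intro p hp
    rw [mem_B4] at hp
    obtain ⟨q1, q2, q3, q4⟩ := hp
    rw [hφ, norm_mul]
    have h1 := Ss_le ha (p.1 - p.2.1 - 1)
    have h2 := Cc_le hb (p.2.2.1 - p.2.2.2)
    rw [abs_le] at q1 q2 q3 q4
    have h3 : (5 : ℝ) ^ (p.1 - p.2.1 - 1).natAbs ≤ 5 ^ (2 * K + 3) :=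
      pow_le_pow_right₀ (by norm_num) (by omega)
    have h4 : (5 : ℝ) ^ ((p.2.2.1 - p.2.2.2).natAbs + 3) ≤ 5 ^ (2 * K + 5) :=
      pow_le_pow_right₀ (by norm_num) (by omega)
    calc _ ≤ (5 : ℝ) ^ (2 * K + 3) * 5 ^ (2 * K + 5) :=
          mul_le_mul (h1.trans h3) (h2.trans h4) (norm_nonneg _) (by positivity)
      _ = _ := by rw [← pow_add]; congr 1; ring
  have bψ : ∀ p ∈ B4 K, ‖ψ p‖ ≤ 5 ^ (4 * K + 8) := by
    intro p hp
    rw [mem_B4] at hp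
    obtain ⟨q1, q2, q3, q4⟩ := hp
    rw [hψ, norm_mul]
    have h1 := Ss_le hb (p.2.2.1 - p.2.2.2 - 1)
    have h2 := Cc_le ha (p.1 - p.2.1)
    rw [abs_le] at q1 q2 q3 q4
    have h3 : (5 : ℝ) ^ (p.2.2.1 - p.2.2.2 - 1).natAbs ≤ 5 ^ (2 * K + 3) :=
      pow_le_pow_right₀ (by norm_num) (by omega)
    have h4 : (5 : ℝ) ^ ((p.1 - p.2.1).natAbs + 3) ≤ 5 ^ (2 * K + 5) :=
      pow_le_pow_right₀ (by norm_num) (by omega)
    calc _ ≤ (5 : ℝ) ^ (2 * K + 5) * 5 ^ (2 * K + 3) :=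
          mul_le_mul (h2.trans h4) (h1.trans h3) (norm_nonneg _) (by positivity)
      _ = _ := by rw [← pow_add]; congr 1; ring
  have k0 := h.r0 bφ
  have k1 := h.r1 bφ
  have k2 := h.r2 bψ
  have k3 := h.r3 bψ
  have key := norm_add_le_of_le (norm_sub_le_of_le (norm_sub_le_of_le k0 k1) k2) k3
  obtain ⟨Bd, hBd⟩ : ∃ x : ℝ, x = (B4 K).card * (E * 5 ^ (4 * K + 8)) :=
    ⟨_, rfl⟩
  rw [← hBd] at key
  have e1 : Bd = CD K * E := by
    rw [hBd]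
    unfold CD
    ring
  have e2 : ∑ p ∈ B4 K, (p.1 : ℂ) * c (m4 p) * φ p - (∑ p ∈ B4 K, dp (m4 p) * φ (u0 p) -
      ∑ p ∈ B4 K, dm (m4 p) * φ (u0.symm p)) -
      (∑ p ∈ B4 K, (p.2.1 : ℂ) * c (m4 p) * φ p - (∑ p ∈ B4 K, dp (m4 p) * φ (u1 p) -
      ∑ p ∈ B4 K, dm (m4 p) * φ (u1.symm p))) -
      (∑ p ∈ B4 K, (p.2.2.1 : ℂ) * c (m4 p) * ψ p - (∑ p ∈ B4 K, dp (m4 p) * ψ (u2 p) -
      ∑ p ∈ B4 K, dm (m4 p) * ψ (u2.symm p))) +
      (∑ p ∈ B4 K, (p.2.2.2 : ℂ) * c (m4 p) * ψ p - (∑ p ∈ B4 K, dp (m4 p) * ψ (u3 p) -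
      ∑ p ∈ B4 K, dm (m4 p) * ψ (u3.symm p))) = 4 * Tq c K a b := by
    simp only [← Finset.sum_sub_distrib, ← Finset.sum_add_distrib]
    unfold Tq
    rw [← mul_assoc, show (4 : ℂ) * (1 / 4) = 1 by norm_num, one_mul]
    refine Finset.sum_congr rfl fun p _ => ?_
    rw [hφ, hψ]
    simp only [u0, u1, u2, u3, Equiv.coe_fn_mk, Equiv.coe_fn_symm_mk]
    have c1 := Cc_eq (p.1 - p.2.1) a
    have c2 := Cc_eq (p.2.2.1 - p.2.2.2) b
    rw [show p.1 + 1 - p.2.1 - 1 = p.1 - p.2.1 by ring,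
      show p.1 - 1 - p.2.1 - 1 = p.1 - p.2.1 - 2 by ring,
      show p.1 - (p.2.1 + 1) - 1 = p.1 - p.2.1 - 2 by ring,
      show p.1 - (p.2.1 - 1) - 1 = p.1 - p.2.1 by ring,
      show p.2.2.1 + 1 - p.2.2.2 - 1 = p.2.2.1 - p.2.2.2 by ring,
      show p.2.2.1 - 1 - p.2.2.2 - 1 = p.2.2.1 - p.2.2.2 - 2 by ring,
      show p.2.2.1 - (p.2.2.2 + 1) - 1 = p.2.2.1 - p.2.2.2 - 2 by ring,
      show p.2.2.1 - (p.2.2.2 - 1) - 1 = p.2.2.1 - p.2.2.2 by ring]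
    push_cast
    linear_combination (dp (m4 p) + dm (m4 p)) *
      (Cc (p.2.2.1 - p.2.2.2) b * c1 - Cc (p.1 - p.2.1) a * c2)
  rw [e2, norm_mul] at key
  have e3 : ‖(4 : ℂ)‖ = 4 := by norm_num
  rw [e3, e1] at key
  linarith

/-- **the exchange of two pairs** -/
theorem DD.EX (h : DD c dp dm K E) {a b a' b' : ℂ} (ha : ‖a‖ ≤ 4) (hb : ‖b‖ ≤ 4)
    (ha' : ‖a'‖ ≤ 4) (hb' : ‖b'‖ ≤ 4) (hab : a + b = a' + b') :
    ‖Q c K a b - Q c K a' b'‖ ≤ CD K * E * ‖a - a'‖ := by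
  obtain ⟨δ, hδ⟩ : ∃ δ : ℂ, δ = a' - a := ⟨_, rfl⟩
  have e1 : a' = a + δ := by rw [hδ]; ring
  have e2 : b' = b - δ := by rw [hδ]; linear_combination -hab
  have h1 := norm_image_sub_le_of_norm_deriv_le_segment_01'
    (f := fun t : ℝ => Q c K (a + t * δ) (b - t * δ)) (C := CD K * E * ‖δ‖)
    (fun t _ => (Q_deriv c K a b δ t).hasDerivWithinAt) (fun t ht => by
      rw [norm_mul, mul_comm]
      refine mul_le_mul_of_nonneg_right (h.Tq_le ?_ ?_) (norm_nonneg _)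
      · have e3 : a + t * δ = (1 - t : ℝ) • a + (t : ℝ) • a' := by
          rw [e1, real_smul, real_smul]
          push_cast
          ring
        rw [e3]
        refine (norm_add_le _ _).trans ?_
        rw [norm_smul, norm_smul, Real.norm_of_nonneg (by linarith [ht.2]),
          Real.norm_of_nonneg ht.1]
        nlinarith [ht.1, ht.2]
      · have e3 : b - t * δ = (1 - t : ℝ) • b + (t : ℝ) • b' := by
          rw [e2, real_smul, real_smul]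
          push_cast
          ring
        rw [e3]
        refine (norm_add_le _ _).trans ?_
        rw [norm_smul, norm_smul, Real.norm_of_nonneg (by linarith [ht.2]),
          Real.norm_of_nonneg ht.1]
        nlinarith [ht.1, ht.2])
  simp only [ofReal_one, one_mul, ofReal_zero, zero_mul, add_zero, sub_zero] at h1
  rw [← e1, ← e2, norm_sub_rev, hδ, norm_sub_rev a' a] at h1
  exact h1

/-! ### values -/

namespace RowA

variable {n0 : ℕ} {M e d : ℝ}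

/-- **annihilation of values** -/
theorem ann_pe (h : RowA c n0 K M e d) {X : ℂ} (hX : X ≠ 0) (l : List ℂ) (hl : l.length + 2 ≤ n0) :
    ‖pe K (-X :: X :: l) c - pe K l c‖ ≤ wX (2 * K) X * (pb K l * d) := by
  have e0 : pe K l c = ∑ m ∈ Kc (2 * K), pe K l (fun κ => X ^ m * if m = 0 then c κ else 0) := by
    rw [Finset.sum_eq_single (0 : ℤ)]
    · simp
    · intro m _ hm
      have e1 : (fun κ => X ^ m * if m = 0 then c κ else 0) = fun _ => 0 := funext fun κ => by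
        rw [if_neg hm, mul_zero]
      rw [e1, pe_zero]
    · intro h0
      exact absurd (by rw [mem_Kc]; push_cast; omega) h0
  rw [pe_two, e0, ← Finset.sum_sub_distrib]
  refine (norm_sum_le _ _).trans ?_
  unfold wX
  rw [Finset.sum_mul]
  refine Finset.sum_le_sum fun m _ => ?_
  rw [← pe_sub]
  have e1 : (fun κ => ∑ k ∈ bx K m, (-X) ^ k * X ^ (m - k) * c (k ::ₘ (m - k) ::ₘ κ) -
      X ^ m * if m = 0 then c κ else 0) = fun κ => X ^ m * ((∑ k ∈ bx K m, (-1 : ℂ) ^ k *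
        c (k ::ₘ (m - k) ::ₘ κ)) - if m = 0 then c κ else 0) := by
    funext κ
    rw [mul_sub, Finset.mul_sum]
    congr 1
    refine Finset.sum_congr rfl fun k _ => ?_
    rw [neg_eq_neg_one_mul, mul_zpow, show m = k + (m - k) by ring, zpow_add₀ hX]
    have e2 : k + (m - k) - k = m - k := by ring
    rw [e2]
    ring
  rw [e1, pe_smul, norm_mul, norm_zpow]
  refine mul_le_mul_of_nonneg_left ?_ (zpow_nonneg (norm_nonneg _) _)
  exact pe_le K l _ fun κ hκ => h.ann κ (by omega) m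

/-- the plain sum of the values -/
theorem pe_B4 (h : RowA c n0 K M e d) (X1 X2 X3 X4 : ℂ) :
    pe K [X1, X2, X3, X4] c = ∑ p ∈ B4 K, c (m4 p) * (X1 ^ p.1 * X2 ^ p.2.1 * (X3 ^ p.2.2.1 *
      X4 ^ p.2.2.2)) := by
  have hs : Kc K ⊆ Ic K := by
    intro k hk
    rw [mem_Kc] at hk
    rw [mem_Ic, abs_le]
    omega
  have ho : ∀ k ∉ Kc K, (K : ℤ) < |k| := by
    intro k hk
    rw [mem_Kc] at hk
    exact lt_abs.2 (by omega)
  unfold B4
  rw [Finset.sum_product]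
  simp only [Finset.sum_product, pe, Finset.mul_sum]
  rw [Finset.sum_subset hs (by
    intro a _ ha
    refine Finset.sum_eq_zero fun b _ => Finset.sum_eq_zero fun c' _ =>
      Finset.sum_eq_zero fun d' _ => ?_
    rw [h.supp _ ⟨a, by simp, ho a ha⟩]
    ring)]
  refine Finset.sum_congr rfl fun a _ => ?_
  rw [Finset.sum_subset hs (by
    intro b _ hb
    refine Finset.sum_eq_zero fun c' _ => Finset.sum_eq_zero fun d' _ => ?_
    rw [h.supp _ ⟨b, by simp, ho b hb⟩]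
    ring)]
  refine Finset.sum_congr rfl fun b _ => ?_
  rw [Finset.sum_subset hs (by
    intro b _ hb
    refine Finset.sum_eq_zero fun d' _ => ?_
    rw [h.supp _ ⟨b, by simp, ho b hb⟩]
    ring)]
  refine Finset.sum_congr rfl fun x _ => ?_
  rw [Finset.sum_subset hs (by
    intro b _ hb
    rw [h.supp _ ⟨b, by simp, ho b hb⟩]
    ring)]
  refine Finset.sum_congr rfl fun y _ => ?_
  unfold m4
  ring

/-- **the value at two pairs** -/
theorem Q_eq (h : RowA c n0 K M e d) {X r : ℂ} (hX : X ≠ 0) (hr : r ≠ 0) :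
    Q c K (X + X⁻¹) (r + r⁻¹) = pe K [X, X⁻¹, r, r⁻¹] c := by
  rw [h.pe_B4]
  obtain ⟨F, hF⟩ : ∃ F : ℂ → ℂ → I4 → ℂ, F = fun X r p =>
    c (m4 p) * (X ^ (p.1 - p.2.1) * r ^ (p.2.2.1 - p.2.2.2)) := ⟨_, rfl⟩
  have e0 : ∀ p : I4, c (m4 p) * (X ^ p.1 * X⁻¹ ^ p.2.1 * (r ^ p.2.2.1 * r⁻¹ ^ p.2.2.2)) =
      F X r p := by
    intro p
    rw [hF]
    simp only
    rw [zpow_sub₀ hX, zpow_sub₀ hr, inv_zpow, inv_zpow]
    rfl
  have e1 : ∀ (X r : ℂ), X ≠ 0 → ∑ p ∈ B4 K, F X⁻¹ r p = ∑ p ∈ B4 K, F X r p := by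
    intro X r hX
    refine Finset.sum_equiv s01 (fun p => B4_s01 p) fun p _ => ?_
    rw [hF]
    simp only
    rw [m4_s01]
    simp only [s01, Equiv.coe_fn_mk]
    rw [inv_zpow', neg_sub]
  have e2 : ∀ (X r : ℂ), r ≠ 0 → ∑ p ∈ B4 K, F X r⁻¹ p = ∑ p ∈ B4 K, F X r p := by
    intro X r hX
    refine Finset.sum_equiv s23 (fun p => B4_s23 p) fun p _ => ?_
    rw [hF]
    simp only
    rw [m4_s23]
    simp only [s23, Equiv.coe_fn_mk]
    rw [inv_zpow', neg_sub]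
  have e3 : Q c K (X + X⁻¹) (r + r⁻¹) = 1 / 4 * (∑ p ∈ B4 K, F X r p + ∑ p ∈ B4 K, F X⁻¹ r p +
      ∑ p ∈ B4 K, F X r⁻¹ p + ∑ p ∈ B4 K, F X⁻¹ r⁻¹ p) := by
    unfold Q
    rw [← Finset.sum_add_distrib, ← Finset.sum_add_distrib, ← Finset.sum_add_distrib]
    refine congrArg (fun z : ℂ => 1 / 4 * z) (Finset.sum_congr rfl fun p _ => ?_)
    rw [Cc_val _ hX, Cc_val _ hr, hF]
    simp only
    rw [inv_zpow', inv_zpow']
    ring
  rw [e3, e1 X r⁻¹ hX, e1 X r hX, e2 X r hr]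
  rw [Finset.sum_congr rfl fun p _ => e0 p]
  ring

/-- **`a = 0`: one pair disappears** -/
theorem Q_zero (h : RowA c n0 K M e d) (hn : 4 ≤ n0) {r : ℂ} (hr : r ≠ 0) :
    ‖Q c K 0 (r + r⁻¹) - pe K [r, r⁻¹] c‖ ≤ wX (2 * K) I * (pb K [r, r⁻¹] * d) := by
  have e1 : (0 : ℂ) = -I + (-I)⁻¹ := by
    rw [inv_neg, inv_I]
    ring
  have e2 : (-I)⁻¹ = I := by
    rw [inv_neg, inv_I, neg_neg]
  have h1 := h.ann_pe (X := I) I_ne_zero [r, r⁻¹] (by simp; omega)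
  have h2 := h.Q_eq (X := -I) (neg_ne_zero.2 I_ne_zero) hr
  rw [← e1, e2] at h2
  rw [← h2] at h1
  exact h1

/-- the constant -/
def CE (K : ℕ) : ℝ := CD K * (2 * K + 3)

theorem CE0 (K : ℕ) : 0 ≤ CE K := mul_nonneg (CD0 K) (by positivity)

/-- **exchange, values**: two pairs for two pairs -/
theorem EX_two (h : RowA c n0 K M e d) (hn : 4 ≤ n0) {X r X' r' : ℂ} (hX : X ≠ 0) (hr : r ≠ 0)
    (hX' : X' ≠ 0) (hr' : r' ≠ 0) (ha : ‖X + X⁻¹‖ ≤ 4) (hb : ‖r + r⁻¹‖ ≤ 4)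
    (ha' : ‖X' + X'⁻¹‖ ≤ 4) (hb' : ‖r' + r'⁻¹‖ ≤ 4)
    (hab : X + X⁻¹ + (r + r⁻¹) = X' + X'⁻¹ + (r' + r'⁻¹)) :
    ‖pe K [X, X⁻¹, r, r⁻¹] c - pe K [X', X'⁻¹, r', r'⁻¹] c‖ ≤
      CE K * e3 M e d * ‖(X + X⁻¹) - (X' + X'⁻¹)‖ := by
  rw [← h.Q_eq hX hr, ← h.Q_eq hX' hr']
  refine ((h.dd hn).EX ha hb ha' hb' hab).trans_eq ?_
  unfold CE er
  ring

/-- **exchange, values**: one pair for no row -/
theorem EX_zero (h : RowA c n0 K M e d) (hn : 4 ≤ n0) {X r r' : ℂ} (hX : X ≠ 0) (hr : r ≠ 0)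
    (hr' : r' ≠ 0) (ha : ‖X + X⁻¹‖ ≤ 4) (hb : ‖r + r⁻¹‖ ≤ 4) (hb' : ‖r' + r'⁻¹‖ ≤ 4)
    (hab : X + X⁻¹ + (r + r⁻¹) = r' + r'⁻¹) :
    ‖pe K [X, X⁻¹, r, r⁻¹] c - pe K [r', r'⁻¹] c‖ ≤
      CE K * e3 M e d * ‖X + X⁻¹‖ + wX (2 * K) I * (pb K [r', r'⁻¹] * d) := by
  rw [← h.Q_eq hX hr]
  have h1 := (h.dd hn).EX ha hb (a' := 0) (b' := r' + r'⁻¹) (by norm_num) hb'
    (by rw [hab, zero_add])
  rw [sub_zero] at h1
  have h2 : CD K * er K M e d * ‖X + X⁻¹‖ = CE K * e3 M e d * ‖X + X⁻¹‖ := by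
    unfold CE er
    ring
  rw [h2] at h1
  exact (norm_sub_le_norm_sub_add_norm_sub _ (Q c K 0 (r' + r'⁻¹)) _).trans (add_le_add
    h1 (h.Q_zero hn hr'))

end RowA

/-! ### the chain -/

/-- the two exchanges at total weight `V`: `p` rows `0`, `q` pairs `± l / 2` (weight `√3`), one pair
`± y` of weight `c` -/
structure Exch0 (G : ℕ → ℕ → ℝ → ℂ) (V δ : ℝ) : Prop where
  /-- one pair `± l / 2` against two rows `0` -/
  two : ∀ (p q : ℕ) (c : ℝ), 2 ≤ c → c ≤ 4 → (p : ℝ) + √3 * (q + 1) + c = V →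
    ‖G p (q + 1) c - G (p + 2) q (c + √3 - 2)‖ ≤ δ
  /-- one pair `± l / 2` against no row -/
  zero : ∀ (p q : ℕ) (c : ℝ), √3 ≤ c → c ≤ 2 → (p : ℝ) + √3 * (q + 1) + c = V →
    ‖G p (q + 1) c - G p q (c + √3)‖ ≤ δ

/-- **the chain of exchanges without fusion**: all pairs `± l / 2` become rows `0` -/
theorem chain0 {G : ℕ → ℕ → ℝ → ℂ} {V δ : ℝ} (h : Exch0 G V δ) :
    ∀ (q p : ℕ) (c : ℝ), √3 ≤ c → c ≤ 4 → (p : ℝ) + √3 * q + c = V →
      ∃ (j : ℕ) (c' : ℝ), j ≤ q ∧ √3 ≤ c' ∧ c' ≤ 4 ∧ ((p + 2 * j : ℕ) : ℝ) + c' = V ∧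
        ‖G p q c - G (p + 2 * j) 0 c'‖ ≤ q * δ := by
  have h3 : (17 / 10 : ℝ) < √3 := by
    rw [Real.lt_sqrt (by norm_num)]
    norm_num
  have h3' : √3 < (18 / 10 : ℝ) := by
    rw [Real.sqrt_lt' (by norm_num)]
    norm_num
  intro q
  induction q with
  | zero =>
    intro p c hc hc' hV
    refine ⟨0, c, le_rfl, hc, hc', ?_, ?_⟩
    · push_cast at hV ⊢
      linarith
    · simp
  | succ q ih =>
    intro p c hc hc' hV
    have hV' : (p : ℝ) + √3 * (q + 1) + c = V := by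
      push_cast at hV
      linarith
    rcases le_total 2 c with h25 | h25
    · obtain ⟨j, c', h1, h2, h4, h5, h6⟩ := ih (p + 2) (c + √3 - 2) (by linarith) (by linarith)
        (by push_cast; linarith)
      refine ⟨j + 1, c', by omega, h2, h4, ?_, ?_⟩
      · rw [← h5]
        congr 2
        ring
      · have h8 := h.two p q c h25 hc' hV'
        rw [show p + 2 * (j + 1) = p + 2 + 2 * j by ring]
        refine (norm_sub_le_norm_sub_add_norm_sub _ (G (p + 2) q (c + √3 - 2)) _).trans ?_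
        push_cast
        linarith
    · obtain ⟨j, c', h1, h2, h4, h5, h6⟩ := ih p (c + √3) (by linarith) (by linarith)
        (by linarith)
      refine ⟨j, c', by omega, h2, h4, h5, ?_⟩
      have h8 := h.zero p q c hc h25 hV'
      refine (norm_sub_le_norm_sub_add_norm_sub _ (G p q (c + √3)) _).trans ?_
      push_cast
      linarith

end IST.Row

end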