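import Pool.Agent.IST.RowA

/-!
# Universal functions of rows: flatness, the pair of weight `c` (helper33)

* `RowA.flat1`, **`RowA.flat`**: any two lists of extra rows of the same length give the same value up to
  `(pb K l + pb K l') (M e + d)`;
* `RowA.flat0`: two rows may be dropped;
* **`ex_y`**: for `√3 ≤ c ≤ 4` there is a row `y`, real with `|y| ≤ l / 2` or imaginary with `|y| ≤ 1`,
  such that the pair `± y` has weight `2 cos (8 y / 3) = c`; `pair_l`: the pair `± l / 2` has weight `√3`;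
* `wX_le`, `pb_le`: sizes for the rows in use.
-/

set_option autoImplicit false

noncomputable section

open Complex

namespace IST.Row

/-! ### flatness -/

theorem pe_const (K : ℕ) : ∀ (l : List ℂ) (c : Multiset ℤ → ℂ),
    pe K l (fun κ => if wt κ = 0 then c κ else 0) = c (Multiset.replicate l.length 0)
  | [], c => by simp [pe, wt]
  | X :: l, c => by
    simp only [pe]
    rw [Finset.sum_eq_single (0 : ℤ)]
    · have e1 : (fun κ => if wt ((0 : ℤ) ::ₘ κ) = 0 then c ((0 : ℤ) ::ₘ κ) else 0) =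
          fun κ => if wt κ = 0 then (fun κ => c ((0 : ℤ) ::ₘ κ)) κ else 0 := funext fun κ => by
        simp only [wt_cons, Int.natAbs_zero, zero_add]
      rw [e1, pe_const K l, zpow_zero, one_mul, List.length_cons, Multiset.replicate_succ]
    · intro k _ hk
      have e1 : (fun κ => if wt (k ::ₘ κ) = 0 then c (k ::ₘ κ) else 0) = fun _ => 0 :=
        funext fun κ => by
          rw [if_neg]
          rw [wt_cons]
          omega
      rw [e1, pe_zero, mul_zero]
    · intro h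
      exact absurd (by rw [mem_Kc]; omega) h

namespace RowA

variable {c : Multiset ℤ → ℂ} {n0 K : ℕ} {M e d : ℝ}

theorem e10 (h : RowA c n0 K M e d) : 0 ≤ M * e + d :=
  add_nonneg (mul_nonneg h.M0 h.e0.le) h.d0

/-- all modes but the constant one are small -/
theorem flat1 (h : RowA c n0 K M e d) {l : List ℂ} (hl : l.length ≤ n0) :
    ‖pe K l c - c (Multiset.replicate l.length 0)‖ ≤ pb K l * (M * e + d) := by
  rw [← pe_const K l c, ← pe_sub]
  refine pe_le K l _ fun κ hκ => ?_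
  by_cases hw : wt κ = 0
  · rw [if_pos hw, sub_self, norm_zero]
    exact h.e10
  · rw [if_neg hw, sub_zero]
    refine (h.bd κ (by omega)).trans (add_le_add_left (mul_le_mul_of_nonneg_left ?_ h.M0) d)
    calc e ^ wt κ ≤ e ^ 1 := pow_le_pow_of_le_one h.e0.le h.e1 (by omega)
      _ = e := pow_one e

/-- **flatness**: the places of the extra rows are of no importance -/
theorem flat (h : RowA c n0 K M e d) {l l' : List ℂ} (hl : l.length ≤ n0)
    (hl' : l'.length = l.length) :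
    ‖pe K l c - pe K l' c‖ ≤ (pb K l + pb K l') * (M * e + d) := by
  have h1 := h.flat1 hl
  have h2 := h.flat1 (l := l') (by omega)
  rw [hl'] at h2
  rw [norm_sub_rev] at h2
  refine (norm_sub_le_norm_sub_add_norm_sub _ _ _).trans ((add_le_add h1 h2).trans_eq ?_)
  ring

/-- **two rows may be dropped** -/
theorem flat0 (h : RowA c n0 K M e d) {l l' : List ℂ} (hl : l.length + 2 ≤ n0)
    (hl' : l'.length = l.length + 2) :
    ‖pe K l' c - pe K l c‖ ≤ (pb K l' + pb K (-1 :: 1 :: l)) * (M * e + d) +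
      wX (2 * K) 1 * (pb K l * d) := by
  have h1 := h.flat (l := l') (l' := -1 :: 1 :: l) (by omega) (by simp [hl'])
  have h2 := h.ann_pe (X := 1) one_ne_zero l hl
  exact (norm_sub_le_norm_sub_add_norm_sub _ _ _).trans (add_le_add h1 h2)

end RowA

/-! ### sizes -/

theorem wX_le (K : ℕ) {X : ℂ} {R : ℝ} (hR : 1 ≤ R) (h1 : ‖X‖ ≤ R) (h2 : R⁻¹ ≤ ‖X‖) :
    wX K X ≤ (2 * K + 1) * R ^ K := by
  have hR0 : 0 < R := by linarith
  have hX : 0 < ‖X‖ := lt_of_lt_of_le (inv_pos.2 hR0) h2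
  have h3 : ∀ k ∈ Kc K, ‖X‖ ^ k ≤ R ^ K := by
    intro k hk
    rw [mem_Kc] at hk
    rcases le_total 0 k with h | h
    · obtain ⟨m, rfl⟩ := Int.eq_ofNat_of_zero_le h
      rw [zpow_natCast]
      exact (pow_le_pow_left₀ hX.le h1 m).trans (pow_le_pow_right₀ hR (by omega))
    · obtain ⟨m, hm⟩ := Int.eq_ofNat_of_zero_le (show 0 ≤ -k by omega)
      have e1 : k = -(m : ℤ) := by omega
      rw [e1, zpow_neg, zpow_natCast, ← inv_pow]
      refine (pow_le_pow_left₀ (inv_nonneg.2 hX.le) ?_ m).trans (pow_le_pow_right₀ hR (by omega))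
      rw [inv_le_comm₀ hX hR0]
      exact h2
  unfold wX
  refine (Finset.sum_le_card_nsmul _ _ _ h3).trans_eq ?_
  rw [nsmul_eq_mul, Kc, Int.card_Icc]
  congr 1
  rw [show ((K : ℤ) + 1 - -(K : ℤ)).toNat = 2 * K + 1 by omega]
  push_cast
  ring

theorem wX_ge (K : ℕ) (X : ℂ) : 1 ≤ wX K X := by
  have h1 : ‖X‖ ^ (0 : ℤ) ≤ wX K X :=
    Finset.single_le_sum (s := Kc K) (f := fun k : ℤ => ‖X‖ ^ k)
      (fun k _ => zpow_nonneg (norm_nonneg _) k) (by rw [mem_Kc]; omega)
  rwa [zpow_zero] at h1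

theorem pb_cons (K : ℕ) (X : ℂ) (l : List ℂ) : pb K (X :: l) = wX K X * pb K l := by
  simp [pb]

theorem pb_nil (K : ℕ) : pb K [] = 1 := by simp [pb]

theorem pb_ge (K : ℕ) : ∀ l : List ℂ, 1 ≤ pb K l
  | [] => by rw [pb_nil]
  | X :: l => by
    rw [pb_cons]
    exact one_le_mul_of_one_le_of_one_le (wX_ge K X) (pb_ge K l)

theorem pb_le (K : ℕ) {R : ℝ} (hR : 1 ≤ R) : ∀ l : List ℂ,
    (∀ X ∈ l, ‖X‖ ≤ R ∧ R⁻¹ ≤ ‖X‖) → pb K l ≤ ((2 * K + 1) * R ^ K) ^ l.length
  | [], _ => by rw [pb_nil]; simp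
  | X :: l, h => by
    have h1 := wX_le K hR (h X (by simp)).1 (h X (by simp)).2
    have h2 := pb_le K hR l fun Y hY => h Y (by simp [hY])
    rw [pb_cons, List.length_cons, pow_succ']
    exact mul_le_mul h1 h2 (pb0 K l) (by positivity)

/-! ### the rows in use -/

/-- the value of a row -/
def xv (x : ℂ) : ℂ := exp (I * (8 / 3 : ℝ) * x)

theorem xv_ne (x : ℂ) : xv x ≠ 0 := exp_ne_zero _

theorem xv_neg (x : ℂ) : xv (-x) = (xv x)⁻¹ := by
  unfold xv
  rw [← exp_neg]
  congr 1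
  ring

theorem xv_zero : xv 0 = 1 := by simp [xv]

theorem xv_add (x : ℂ) : xv x + (xv x)⁻¹ = 2 * cos ((8 / 3 : ℝ) * x) := by
  rw [← xv_neg]
  unfold xv
  rw [Complex.cos]
  have e1 : I * (8 / 3 : ℝ) * x = (8 / 3 : ℝ) * x * I := by ring
  have e2 : I * (8 / 3 : ℝ) * -x = -((8 / 3 : ℝ) * x) * I := by ring
  rw [e1, e2]
  ring

/-- the pair `± l / 2` has weight `√3` -/
theorem pair_l : xv ((Real.pi / 16 : ℝ) : ℂ) + (xv ((Real.pi / 16 : ℝ) : ℂ))⁻¹ = (√3 : ℝ) := by
  rw [xv_add, ← ofReal_mul, ← ofReal_cos, show (8 / 3 : ℝ) * (Real.pi / 16) = Real.pi / 6 by ring,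
    Real.cos_pi_div_six]
  push_cast
  ring

/-- **the pair of weight `c`** -/
theorem ex_y {c : ℝ} (h1 : √3 ≤ c) (h2 : c ≤ 4) :
    ∃ y : ℂ, ((y.re = 0 ∧ |y.im| ≤ 1) ∨ (|y.re| ≤ Real.pi / 16 ∧ y.im = 0)) ∧
      xv y + (xv y)⁻¹ = c := by
  have hp := Real.pi_pos
  rcases le_total c 2 with h | h
  · refine ⟨((3 / 8 * Real.arccos (c / 2) : ℝ) : ℂ), Or.inr ⟨?_, by simp⟩, ?_⟩
    · rw [ofReal_re, abs_of_nonneg (mul_nonneg (by norm_num) (Real.arccos_nonneg _))]
      have h3 : Real.arccos (c / 2) ≤ Real.pi / 6 := by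
        rw [← Real.arccos_cos (x := Real.pi / 6) (by linarith) (by linarith),
          Real.cos_pi_div_six]
        exact Real.arccos_le_arccos (by linarith)
      linarith
    · rw [xv_add, ← ofReal_mul, ← ofReal_cos, ← mul_assoc,
        show (8 / 3 * (3 / 8) : ℝ) = 1 by norm_num, one_mul, Real.cos_arccos (by
          have : (0 : ℝ) ≤ √3 := Real.sqrt_nonneg 3
          linarith) (by linarith)]
      push_cast
      ring
  · have h3 : ∃ t ∈ Set.Icc (0 : ℝ) 1, Real.cosh (8 / 3 * t) = c / 2 := by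
      have h4 : ContinuousOn (fun t : ℝ => Real.cosh (8 / 3 * t)) (Set.Icc 0 1) :=
        (Real.continuous_cosh.comp (continuous_const.mul continuous_id)).continuousOn
      have h5 := intermediate_value_Icc (zero_le_one' ℝ) h4
      have h6 : c / 2 ∈ Set.Icc (Real.cosh (8 / 3 * 0)) (Real.cosh (8 / 3 * 1)) := by
        rw [mul_zero, Real.cosh_zero, mul_one]
        refine ⟨by linarith, ?_⟩
        have h7 : (2 : ℝ) ≤ Real.cosh (8 / 3) := by
          rw [Real.cosh_eq]
          have h8 := Real.add_one_le_exp (8 / 3 : ℝ)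
          have h9 : (8 / 3 : ℝ) = 4 / 3 + 4 / 3 := by norm_num
          have h10 : Real.exp (8 / 3) = Real.exp (4 / 3) * Real.exp (4 / 3) := by
            rw [← Real.exp_add]
            norm_num
          have h11 := Real.add_one_le_exp (4 / 3 : ℝ)
          have h12 := Real.exp_pos (-(8 / 3) : ℝ)
          nlinarith
        linarith
      obtain ⟨t, ht, hc⟩ := h5 h6
      exact ⟨t, ht, hc⟩
    obtain ⟨t, ht, hc⟩ := h3
    refine ⟨I * (t : ℂ), Or.inl ⟨by simp, ?_⟩, ?_⟩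
    · simp only [mul_im, I_re, ofReal_im, mul_zero, I_im, ofReal_re, one_mul, zero_add]
      exact abs_le.2 ⟨by linarith [ht.1], ht.2⟩
    · rw [xv_add]
      have e1 : ((8 / 3 : ℝ) : ℂ) * (I * (t : ℂ)) = ((8 / 3 * t : ℝ) : ℂ) * I := by
        push_cast
        ring
      rw [e1, Complex.cos_mul_I, ← ofReal_cosh, hc]
      push_cast
      ring

/-- the size of the value -/
theorem xv_norm (x : ℂ) : ‖xv x‖ = Real.exp (-(8 / 3) * x.im) := by
  unfold xv
  rw [norm_exp]
  congr 1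
  simp [mul_assoc]

theorem xv_le {x : ℂ} {r : ℝ} (h : |x.im| ≤ r) : ‖xv x‖ ≤ Real.exp (8 / 3 * r) ∧
    (Real.exp (8 / 3 * r))⁻¹ ≤ ‖xv x‖ := by
  rw [abs_le] at h
  rw [xv_norm, ← Real.exp_neg]
  exact ⟨Real.exp_le_exp.2 (by linarith), Real.exp_le_exp.2 (by linarith)⟩

/-- all rows in use have sizes between `exp (- 8 / 3)` and `exp (8 / 3)` -/
theorem pb_xv (K : ℕ) (l : List ℂ) (h : ∀ x ∈ l, |x.im| ≤ 1) :
    pb K (l.map xv) ≤ ((2 * K + 1) * Real.exp (8 / 3) ^ K) ^ l.length := by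
  have h1 := pb_le K (R := Real.exp (8 / 3)) (Real.one_le_exp (by norm_num)) (l.map xv) (by
    intro X hX
    obtain ⟨x, hx, rfl⟩ := List.mem_map.1 hX
    have := xv_le (h x hx)
    rwa [mul_one] at this)
  rwa [List.length_map] at h1

end IST.Row

end
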