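import Mathlib

/-!
# Universal functions of rows: the algebra of the coefficients (helper33)

`c : Multiset ℤ → ℂ`: `c κ` is the coefficient of the monomial `κ` (one exponent for every extra row,
`X = e^{i (8/3) x}`) of `F (Z ∪ {x_1, .., x_n})`, `n = card κ`.
* `RowC`: sizes `M e^|κ| + d`, annihilation, fusion (errors `d`);
* **`RowC.D`**: `k c(k κ) = d_+((k-1) κ) - d_-((k+1) κ)` up to `C (d + M e^5)`, with
  `d_+ μ = c(1 μ) - c(2 -1 μ)`, `d_- μ = c(-1 μ) - c(-2 1 μ)`.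
-/

set_option autoImplicit false

noncomputable section

open Complex

namespace IST.Row

/-- the weight of a list of exponents -/
def wt (κ : Multiset ℤ) : ℕ := (κ.map Int.natAbs).sum

@[simp] theorem wt_cons (k : ℤ) (κ : Multiset ℤ) : wt (k ::ₘ κ) = k.natAbs + wt κ := by
  simp [wt]

theorem wt_neg (κ : Multiset ℤ) : wt (κ.map Neg.neg) = wt κ := by
  simp [wt, Multiset.map_map]

/-- `e^{i π / 3}` -/
def ze : ℂ := exp (Real.pi / 3 * I)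

theorem ze_ne : ze ≠ 0 := exp_ne_zero _

theorem ze_norm : ‖ze‖ = 1 := by
  unfold ze
  rw [show (Real.pi / 3 * I : ℂ) = ((Real.pi / 3 : ℝ) : ℂ) * I by push_cast; ring]
  exact norm_exp_ofReal_mul_I _

theorem ze_sq : ze ^ 2 = ze - 1 := by
  have h3 : ze = 1 / 2 + Real.sqrt 3 / 2 * I := by
    unfold ze
    rw [show (Real.pi / 3 * I : ℂ) = ((Real.pi / 3 : ℝ) : ℂ) * I by push_cast; ring,
      exp_mul_I, ← ofReal_cos, ← ofReal_sin, Real.cos_pi_div_three, Real.sin_pi_div_three]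
    push_cast
    ring
  have h4 : ((Real.sqrt 3 : ℝ) : ℂ) ^ 2 = 3 := by
    rw [← ofReal_pow, Real.sq_sqrt (by norm_num)]
    norm_num
  rw [h3]
  linear_combination (1 / 4 * I ^ 2) * h4 + (3 / 4) * I_sq

theorem ze_inv : ze⁻¹ = 1 - ze :=
  inv_eq_of_mul_eq_one_right (by linear_combination -ze_sq)

theorem ze_cube : ze ^ 3 = -1 := by
  linear_combination (ze + 1) * ze_sq

/-- the exponents of the first of two rows with sum `j` -/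
def bx (K : ℕ) (j : ℤ) : Finset ℤ :=
  (Finset.Icc (-(K : ℤ)) K).filter fun k => j - k ∈ Finset.Icc (-(K : ℤ)) K

theorem mem_bx {K : ℕ} {j k : ℤ} : k ∈ bx K j ↔ (-(K : ℤ) ≤ k ∧ k ≤ K) ∧
    (-(K : ℤ) ≤ j - k ∧ j - k ≤ K) := by
  simp only [bx, Finset.mem_filter, Finset.mem_Icc]

/-- **the relations of the coefficients** -/
structure RowC (c : Multiset ℤ → ℂ) (n0 K : ℕ) (M e d : ℝ) : Prop where
  M0 : 0 ≤ M
  e0 : 0 < e
  e1 : e ≤ 1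
  d0 : 0 ≤ d
  K4 : 4 ≤ K
  bd : ∀ κ, Multiset.card κ ≤ n0 → ‖c κ‖ ≤ M * e ^ wt κ + d
  supp : ∀ κ, (∃ k ∈ κ, (K : ℤ) < |k|) → c κ = 0
  ann : ∀ κ, Multiset.card κ + 2 ≤ n0 → ∀ j : ℤ,
    ‖(∑ k ∈ bx K j, (-1 : ℂ) ^ k * c (k ::ₘ (j - k) ::ₘ κ)) - if j = 0 then c κ else 0‖ ≤ d
  fus : ∀ κ, Multiset.card κ + 2 ≤ n0 → ∀ j : ℤ,
    ‖(∑ k ∈ bx K j, ze ^ (2 * k - j) * c (k ::ₘ (j - k) ::ₘ κ)) - c (j ::ₘ κ)‖ ≤ d

variable {c : Multiset ℤ → ℂ} {n0 K : ℕ} {M e d : ℝ}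

/-- the unit of the errors -/
def et (M e d : ℝ) : ℝ := M * e ^ 5 + d

namespace RowC

theorem e5 (h : RowC c n0 K M e d) : 0 ≤ et M e d :=
  add_nonneg (mul_nonneg h.M0 (pow_nonneg h.e0.le _)) h.d0

theorem d_le (h : RowC c n0 K M e d) : d ≤ et M e d :=
  le_add_of_nonneg_left (mul_nonneg h.M0 (pow_nonneg h.e0.le _))

theorem bd5 (h : RowC c n0 K M e d) {κ : Multiset ℤ} (h1 : Multiset.card κ ≤ n0)
    (h2 : 5 ≤ wt κ) : ‖c κ‖ ≤ et M e d :=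
  (h.bd κ h1).trans (add_le_add_left (mul_le_mul_of_nonneg_left
    (pow_le_pow_of_le_one h.e0.le h.e1 h2) h.M0) d)

/-- the mirror image -/
theorem neg (h : RowC c n0 K M e d) : RowC (fun κ => c (κ.map Neg.neg)) n0 K M e d where
  M0 := h.M0
  e0 := h.e0
  e1 := h.e1
  d0 := h.d0
  K4 := h.K4
  bd κ hκ := by
    have := h.bd (κ.map Neg.neg) (by simpa using hκ)
    rwa [wt_neg] at this
  supp κ hκ := by
    obtain ⟨k, hk, hk'⟩ := hκ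
    exact h.supp _ ⟨-k, Multiset.mem_map_of_mem _ hk, by rwa [abs_neg]⟩
  ann κ hκ j := by
    have h1 := h.ann (κ.map Neg.neg) (by simpa using hκ) (-j)
    have e1 : ∑ k ∈ bx K j, (-1 : ℂ) ^ k *
        c ((k ::ₘ (j - k) ::ₘ κ).map Neg.neg) = ∑ k ∈ bx K (-j),
        (-1 : ℂ) ^ k * c (k ::ₘ (-j - k) ::ₘ κ.map Neg.neg) := by
      refine Finset.sum_bij' (fun k _ => -k) (fun k _ => -k) ?_ ?_ ?_ ?_ ?_
      · intro k hk
        rw [mem_bx] at hk ⊢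
        omega
      · intro k hk
        rw [mem_bx] at hk ⊢
        omega
      · intro k _
        simp
      · intro k _
        simp
      · intro k _
        rw [Multiset.map_cons, Multiset.map_cons]
        have e2 : -(j - k) = -j - -k := by ring
        have e3 : (-1 : ℂ) ^ k = (-1) ^ (-k) := by
          rw [zpow_neg, ← inv_zpow]
          norm_num
        rw [e3, e2]
    rw [e1]
    have e4 : (if j = 0 then c (κ.map Neg.neg) else 0) =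
        if -j = 0 then c (κ.map Neg.neg) else 0 := by
      by_cases hj : j = 0 <;> simp [hj]
    rw [e4]
    exact h1
  fus κ hκ j := by
    have h1 := h.fus (κ.map Neg.neg) (by simpa using hκ) (-j)
    have e1 : ∑ k ∈ bx K j, ze ^ (2 * k - j) *
        c ((k ::ₘ (j - k) ::ₘ κ).map Neg.neg) = ∑ k ∈ bx K (-j),
        ze ^ (2 * k - -j) * c (k ::ₘ (-j - k) ::ₘ κ.map Neg.neg) := by
      refine Finset.sum_bij' (fun k _ => k - j) (fun k _ => k + j) ?_ ?_ ?_ ?_ ?_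
      · intro k hk
        rw [mem_bx] at hk ⊢
        omega
      · intro k hk
        rw [mem_bx] at hk ⊢
        omega
      · intro k _
        ring
      · intro k _
        ring
      · intro k _
        rw [Multiset.map_cons, Multiset.map_cons]
        have e2 : -(j - k) = k - j := by ring
        have e3 : -j - (k - j) = -k := by ring
        have e4 : 2 * (k - j) - -j = 2 * k - j := by ring
        rw [e2, e3, e4, Multiset.cons_swap]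
    rw [e1]
    have e5 : (j ::ₘ κ).map Neg.neg = (-j) ::ₘ κ.map Neg.neg := Multiset.map_cons _ _ _
    rw [e5]
    exact h1

/-- **cutting a relation** -/
theorem cut (h : RowC c n0 K M e d) {κ : Multiset ℤ} (hκ : Multiset.card κ + 2 ≤ n0) {j : ℤ}
    {φ : ℤ → ℂ} (hφ : ∀ k, ‖φ k‖ ≤ 1) {T : Finset ℤ} (hT : T ⊆ bx K j)
    (hw : ∀ k ∉ T, 5 ≤ k.natAbs + (j - k).natAbs + wt κ) :
    ‖(∑ k ∈ bx K j, φ k * c (k ::ₘ (j - k) ::ₘ κ)) - ∑ k ∈ T, φ k * c (k ::ₘ (j - k) ::ₘ κ)‖ ≤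
      (2 * K + 1) * et M e d := by
  rw [← Finset.sum_sdiff hT, add_sub_cancel_right]
  refine (norm_sum_le _ _).trans ?_
  have h1 : ∀ k ∈ bx K j \ T, ‖φ k * c (k ::ₘ (j - k) ::ₘ κ)‖ ≤ et M e d := by
    intro k hk
    rw [Finset.mem_sdiff] at hk
    have h2 : ‖c (k ::ₘ (j - k) ::ₘ κ)‖ ≤ et M e d := h.bd5 (by
        simp only [Multiset.card_cons]
        omega) (by
      have := hw k hk.2
      simp only [wt_cons]
      omega)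
    rw [norm_mul]
    calc ‖φ k‖ * _ ≤ 1 * et M e d := mul_le_mul (hφ k) h2 (norm_nonneg _) zero_le_one
      _ = _ := one_mul _
  refine (Finset.sum_le_card_nsmul _ _ _ h1).trans ?_
  rw [nsmul_eq_mul]
  refine mul_le_mul_of_nonneg_right ?_ h.e5
  have h2 : (bx K j \ T).card ≤ 2 * K + 1 := by
    refine (Finset.card_le_card (Finset.sdiff_subset.trans (Finset.filter_subset _ _))).trans ?_
    rw [Int.card_Icc]
    omega
  exact_mod_cast h2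

theorem zpow_one_le (n : ℤ) : ‖(-1 : ℂ) ^ n‖ ≤ 1 := by
  rw [norm_zpow, norm_neg, norm_one, one_zpow]

theorem ze_zpow_le (n : ℤ) : ‖ze ^ n‖ ≤ 1 := by
  rw [norm_zpow, ze_norm, one_zpow]

/-- the size of all errors -/
def er (K : ℕ) (M e d : ℝ) : ℝ := (2 * K + 2) * et M e d

theorem ann' (h : RowC c n0 K M e d) {κ : Multiset ℤ} (hκ : Multiset.card κ + 2 ≤ n0)
    {j : ℤ} {T : Finset ℤ} (hT : T ⊆ bx K j)
    (hw : ∀ k ∉ T, 5 ≤ k.natAbs + (j - k).natAbs + wt κ) :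
    ‖(∑ k ∈ T, (-1 : ℂ) ^ k * c (k ::ₘ (j - k) ::ₘ κ)) -
      if j = 0 then c κ else 0‖ ≤ er K M e d := by
  have h1 := h.cut hκ (φ := fun k => (-1 : ℂ) ^ k) (fun k => zpow_one_le _) hT hw
  have h2 := h.ann κ hκ j
  have h4 := h.d_le
  rw [norm_sub_rev] at h1
  have h3 := norm_add_le_of_le h1 h2
  rw [sub_add_sub_cancel] at h3
  unfold er
  linarith

theorem fus' (h : RowC c n0 K M e d) {κ : Multiset ℤ} (hκ : Multiset.card κ + 2 ≤ n0)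
    {j : ℤ} {T : Finset ℤ} (hT : T ⊆ bx K j)
    (hw : ∀ k ∉ T, 5 ≤ k.natAbs + (j - k).natAbs + wt κ) :
    ‖(∑ k ∈ T, ze ^ (2 * k - j) * c (k ::ₘ (j - k) ::ₘ κ)) - c (j ::ₘ κ)‖ ≤ er K M e d := by
  have h1 := h.cut hκ (φ := fun k => ze ^ (2 * k - j)) (fun k => ze_zpow_le _) hT hw
  have h2 := h.fus κ hκ j
  have h4 := h.d_le
  rw [norm_sub_rev] at h1
  have h3 := norm_add_le_of_le h1 h2
  rw [sub_add_sub_cancel] at h3
  unfold er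
  linarith

theorem er0 (h : RowC c n0 K M e d) : 0 ≤ er K M e d :=
  mul_nonneg (by positivity) h.e5

theorem et_le (h : RowC c n0 K M e d) : et M e d ≤ er K M e d :=
  le_mul_of_one_le_left h.e5 (by
    have : (0 : ℝ) ≤ K := Nat.cast_nonneg K
    linarith)

/-! ### powers of `ze` -/

theorem zp1 : ze ^ (1 : ℤ) = ze := zpow_one _
theorem zm1 : ze ^ (-1 : ℤ) = 1 - ze := by rw [zpow_neg_one, ze_inv]
theorem zp2 : ze ^ (2 : ℤ) = ze - 1 := by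
  rw [show (2 : ℤ) = ((2 : ℕ) : ℤ) by norm_num, zpow_natCast, ze_sq]
theorem zm2 : ze ^ (-2 : ℤ) = -ze := by
  rw [show (-2 : ℤ) = -1 + -1 by norm_num, zpow_add₀ ze_ne, zm1]
  linear_combination ze_sq
theorem zp3 : ze ^ (3 : ℤ) = -1 := by
  rw [show (3 : ℤ) = ((3 : ℕ) : ℤ) by norm_num, zpow_natCast, ze_cube]
theorem zm3 : ze ^ (-3 : ℤ) = -1 := by
  rw [zpow_neg, zp3]
  norm_num
theorem zp4 : ze ^ (4 : ℤ) = -ze := by
  rw [show (4 : ℤ) = 3 + 1 by norm_num, zpow_add₀ ze_ne, zp3, zp1]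
  ring
theorem zm4 : ze ^ (-4 : ℤ) = ze - 1 := by
  rw [show (-4 : ℤ) = -3 + -1 by norm_num, zpow_add₀ ze_ne, zm3, zm1]
  ring

/-! ### the relations, one by one -/

section rel

variable (h : RowC c n0 K M e d) {κ : Multiset ℤ} (hκ : Multiset.card κ + 2 ≤ n0)

include h hκ

/-- degree `0`: one more row -/
theorem N (hw : 1 ≤ wt κ) :
    ‖c κ - (c (0 ::ₘ κ) - c (1 ::ₘ (-1) ::ₘ κ))‖ ≤ 2 * er K M e d := by
  have hK := h.K4
  have hT : ({-1, 0, 1} : Finset ℤ) ⊆ bx K 0 := by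
    intro k hk
    simp only [Finset.mem_insert, Finset.mem_singleton] at hk
    rw [mem_bx]
    omega
  have hT' : ∀ k ∉ ({-1, 0, 1} : Finset ℤ), 5 ≤ k.natAbs + (0 - k).natAbs + wt κ := by
    intro k hk
    simp only [Finset.mem_insert, Finset.mem_singleton] at hk
    omega
  have h1 := h.ann' hκ hT hT'
  have h2 := h.fus' hκ hT hT'
  rw [Finset.sum_insert (by decide), Finset.sum_insert (by decide),
    Finset.sum_singleton] at h1 h2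
  rw [if_pos rfl] at h1
  have e1 : (-1 : ℤ) ::ₘ (0 - -1 : ℤ) ::ₘ κ = 1 ::ₘ (-1) ::ₘ κ := by
    rw [show (0 - -1 : ℤ) = 1 by norm_num, Multiset.cons_swap]
  have e2 : (1 : ℤ) ::ₘ (0 - 1 : ℤ) ::ₘ κ = 1 ::ₘ (-1) ::ₘ κ := by
    rw [show (0 - 1 : ℤ) = -1 by norm_num]
  have e3 : (0 : ℤ) ::ₘ (0 - 0 : ℤ) ::ₘ κ = 0 ::ₘ 0 ::ₘ κ := by
    rw [show (0 - 0 : ℤ) = 0 by norm_num]
  rw [e1, e2, e3] at h1 h2
  rw [show (2 * -1 - 0 : ℤ) = -2 by norm_num, show (2 * 1 - 0 : ℤ) = 2 by norm_num,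
    show (2 * 0 - 0 : ℤ) = 0 by norm_num, zp2, zm2, zpow_zero] at h2
  rw [show (-1 : ℂ) ^ (-1 : ℤ) = -1 by norm_num, show (-1 : ℂ) ^ (0 : ℤ) = 1 by norm_num,
    show (-1 : ℂ) ^ (1 : ℤ) = -1 by norm_num] at h1
  have h3 := norm_sub_le_of_le h2 h1
  calc ‖c κ - (c (0 ::ₘ κ) - c (1 ::ₘ (-1) ::ₘ κ))‖ = ‖_‖ := congrArg norm (by ring)
    _ ≤ _ := h3
    _ = _ := by ring

/-- degree `1` -/
theorem F1 : ‖c (1 ::ₘ 0 ::ₘ κ) - 2 * c (2 ::ₘ (-1) ::ₘ κ) - c (1 ::ₘ κ)‖ ≤ er K M e d := by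
  have hK := h.K4
  have hT : ({-1, 0, 1, 2} : Finset ℤ) ⊆ bx K 1 := by
    intro k hk
    simp only [Finset.mem_insert, Finset.mem_singleton] at hk
    rw [mem_bx]
    omega
  have hT' : ∀ k ∉ ({-1, 0, 1, 2} : Finset ℤ), 5 ≤ k.natAbs + (1 - k).natAbs + wt κ := by
    intro k hk
    simp only [Finset.mem_insert, Finset.mem_singleton] at hk
    omega
  have h2 := h.fus' hκ hT hT'
  rw [Finset.sum_insert (by decide), Finset.sum_insert (by decide),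
    Finset.sum_insert (by decide), Finset.sum_singleton] at h2
  have e1 : (-1 : ℤ) ::ₘ (1 - -1 : ℤ) ::ₘ κ = 2 ::ₘ (-1) ::ₘ κ := by
    rw [show (1 - -1 : ℤ) = 2 by norm_num, Multiset.cons_swap]
  have e2 : (0 : ℤ) ::ₘ (1 - 0 : ℤ) ::ₘ κ = 1 ::ₘ 0 ::ₘ κ := by
    rw [show (1 - 0 : ℤ) = 1 by norm_num, Multiset.cons_swap]
  have e3 : (1 : ℤ) ::ₘ (1 - 1 : ℤ) ::ₘ κ = 1 ::ₘ 0 ::ₘ κ := by
    rw [show (1 - 1 : ℤ) = 0 by norm_num]
  have e4 : (2 : ℤ) ::ₘ (1 - 2 : ℤ) ::ₘ κ = 2 ::ₘ (-1) ::ₘ κ := by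
    rw [show (1 - 2 : ℤ) = -1 by norm_num]
  rw [e1, e2, e3, e4] at h2
  rw [show (2 * -1 - 1 : ℤ) = -3 by norm_num, show (2 * 0 - 1 : ℤ) = -1 by norm_num,
    show (2 * 1 - 1 : ℤ) = 1 by norm_num, show (2 * 2 - 1 : ℤ) = 3 by norm_num,
    zp1, zm1, zp3, zm3] at h2
  refine le_trans (le_of_eq (congrArg norm ?_)) h2
  ring

/-- degree `2` -/
theorem F2 : ‖-c (2 ::ₘ 0 ::ₘ κ) + c (1 ::ₘ 1 ::ₘ κ) - c (3 ::ₘ (-1) ::ₘ κ) - c (2 ::ₘ κ)‖ ≤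
    er K M e d := by
  have hK := h.K4
  have hT : ({-1, 0, 1, 2, 3} : Finset ℤ) ⊆ bx K 2 := by
    intro k hk
    simp only [Finset.mem_insert, Finset.mem_singleton] at hk
    rw [mem_bx]
    omega
  have hT' : ∀ k ∉ ({-1, 0, 1, 2, 3} : Finset ℤ), 5 ≤ k.natAbs + (2 - k).natAbs + wt κ := by
    intro k hk
    simp only [Finset.mem_insert, Finset.mem_singleton] at hk
    omega
  have h2 := h.fus' hκ hT hT'
  rw [Finset.sum_insert (by decide), Finset.sum_insert (by decide),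
    Finset.sum_insert (by decide), Finset.sum_insert (by decide), Finset.sum_singleton] at h2
  have e1 : (-1 : ℤ) ::ₘ (2 - -1 : ℤ) ::ₘ κ = 3 ::ₘ (-1) ::ₘ κ := by
    rw [show (2 - -1 : ℤ) = 3 by norm_num, Multiset.cons_swap]
  have e2 : (0 : ℤ) ::ₘ (2 - 0 : ℤ) ::ₘ κ = 2 ::ₘ 0 ::ₘ κ := by
    rw [show (2 - 0 : ℤ) = 2 by norm_num, Multiset.cons_swap]
  have e3 : (1 : ℤ) ::ₘ (2 - 1 : ℤ) ::ₘ κ = 1 ::ₘ 1 ::ₘ κ := by
    rw [show (2 - 1 : ℤ) = 1 by norm_num]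
  have e4 : (2 : ℤ) ::ₘ (2 - 2 : ℤ) ::ₘ κ = 2 ::ₘ 0 ::ₘ κ := by
    rw [show (2 - 2 : ℤ) = 0 by norm_num]
  have e5 : (3 : ℤ) ::ₘ (2 - 3 : ℤ) ::ₘ κ = 3 ::ₘ (-1) ::ₘ κ := by
    rw [show (2 - 3 : ℤ) = -1 by norm_num]
  rw [e1, e2, e3, e4, e5] at h2
  rw [show (2 * -1 - 2 : ℤ) = -4 by norm_num, show (2 * 0 - 2 : ℤ) = -2 by norm_num,
    show (2 * 1 - 2 : ℤ) = 0 by norm_num, show (2 * 2 - 2 : ℤ) = 2 by norm_num,
    show (2 * 3 - 2 : ℤ) = 4 by norm_num, zp2, zm2, zp4, zm4, zpow_zero] at h2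
  refine le_trans (le_of_eq (congrArg norm ?_)) h2
  ring

/-- degree `3` -/
theorem F3 : ‖-2 * c (3 ::ₘ 0 ::ₘ κ) + c (2 ::ₘ 1 ::ₘ κ) - c (3 ::ₘ κ)‖ ≤ er K M e d := by
  have hK := h.K4
  have hT : ({0, 1, 2, 3} : Finset ℤ) ⊆ bx K 3 := by
    intro k hk
    simp only [Finset.mem_insert, Finset.mem_singleton] at hk
    rw [mem_bx]
    omega
  have hT' : ∀ k ∉ ({0, 1, 2, 3} : Finset ℤ), 5 ≤ k.natAbs + (3 - k).natAbs + wt κ := by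
    intro k hk
    simp only [Finset.mem_insert, Finset.mem_singleton] at hk
    omega
  have h2 := h.fus' hκ hT hT'
  rw [Finset.sum_insert (by decide), Finset.sum_insert (by decide),
    Finset.sum_insert (by decide), Finset.sum_singleton] at h2
  have e1 : (0 : ℤ) ::ₘ (3 - 0 : ℤ) ::ₘ κ = 3 ::ₘ 0 ::ₘ κ := by
    rw [show (3 - 0 : ℤ) = 3 by norm_num, Multiset.cons_swap]
  have e2 : (1 : ℤ) ::ₘ (3 - 1 : ℤ) ::ₘ κ = 2 ::ₘ 1 ::ₘ κ := by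
    rw [show (3 - 1 : ℤ) = 2 by norm_num, Multiset.cons_swap]
  have e3 : (2 : ℤ) ::ₘ (3 - 2 : ℤ) ::ₘ κ = 2 ::ₘ 1 ::ₘ κ := by
    rw [show (3 - 2 : ℤ) = 1 by norm_num]
  have e4 : (3 : ℤ) ::ₘ (3 - 3 : ℤ) ::ₘ κ = 3 ::ₘ 0 ::ₘ κ := by
    rw [show (3 - 3 : ℤ) = 0 by norm_num]
  rw [e1, e2, e3, e4] at h2
  rw [show (2 * 0 - 3 : ℤ) = -3 by norm_num, show (2 * 1 - 3 : ℤ) = -1 by norm_num,
    show (2 * 2 - 3 : ℤ) = 1 by norm_num, show (2 * 3 - 3 : ℤ) = 3 by norm_num,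
    zp1, zm1, zp3, zm3] at h2
  refine le_trans (le_of_eq (congrArg norm ?_)) h2
  ring

/-- degree `4`, fusion -/
theorem F4 : ‖-c (4 ::ₘ 0 ::ₘ κ) - c (3 ::ₘ 1 ::ₘ κ) + c (2 ::ₘ 2 ::ₘ κ) - c (4 ::ₘ κ)‖ ≤
    er K M e d := by
  have hK := h.K4
  have hT : ({0, 1, 2, 3, 4} : Finset ℤ) ⊆ bx K 4 := by
    intro k hk
    simp only [Finset.mem_insert, Finset.mem_singleton] at hk
    rw [mem_bx]
    omega
  have hT' : ∀ k ∉ ({0, 1, 2, 3, 4} : Finset ℤ), 5 ≤ k.natAbs + (4 - k).natAbs + wt κ := by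
    intro k hk
    simp only [Finset.mem_insert, Finset.mem_singleton] at hk
    omega
  have h2 := h.fus' hκ hT hT'
  rw [Finset.sum_insert (by decide), Finset.sum_insert (by decide),
    Finset.sum_insert (by decide), Finset.sum_insert (by decide), Finset.sum_singleton] at h2
  have e1 : (0 : ℤ) ::ₘ (4 - 0 : ℤ) ::ₘ κ = 4 ::ₘ 0 ::ₘ κ := by
    rw [show (4 - 0 : ℤ) = 4 by norm_num, Multiset.cons_swap]
  have e2 : (1 : ℤ) ::ₘ (4 - 1 : ℤ) ::ₘ κ = 3 ::ₘ 1 ::ₘ κ := by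
    rw [show (4 - 1 : ℤ) = 3 by norm_num, Multiset.cons_swap]
  have e3 : (2 : ℤ) ::ₘ (4 - 2 : ℤ) ::ₘ κ = 2 ::ₘ 2 ::ₘ κ := by
    rw [show (4 - 2 : ℤ) = 2 by norm_num]
  have e4 : (3 : ℤ) ::ₘ (4 - 3 : ℤ) ::ₘ κ = 3 ::ₘ 1 ::ₘ κ := by
    rw [show (4 - 3 : ℤ) = 1 by norm_num]
  have e5 : (4 : ℤ) ::ₘ (4 - 4 : ℤ) ::ₘ κ = 4 ::ₘ 0 ::ₘ κ := by
    rw [show (4 - 4 : ℤ) = 0 by norm_num]
  rw [e1, e2, e3, e4, e5] at h2
  rw [show (2 * 0 - 4 : ℤ) = -4 by norm_num, show (2 * 1 - 4 : ℤ) = -2 by norm_num,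
    show (2 * 2 - 4 : ℤ) = 0 by norm_num, show (2 * 3 - 4 : ℤ) = 2 by norm_num,
    show (2 * 4 - 4 : ℤ) = 4 by norm_num, zp2, zm2, zp4, zm4, zpow_zero] at h2
  refine le_trans (le_of_eq (congrArg norm ?_)) h2
  ring

/-- degree `4`, annihilation -/
theorem A4 : ‖2 * c (4 ::ₘ 0 ::ₘ κ) - 2 * c (3 ::ₘ 1 ::ₘ κ) + c (2 ::ₘ 2 ::ₘ κ)‖ ≤
    er K M e d := by
  have hK := h.K4
  have hT : ({0, 1, 2, 3, 4} : Finset ℤ) ⊆ bx K 4 := by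
    intro k hk
    simp only [Finset.mem_insert, Finset.mem_singleton] at hk
    rw [mem_bx]
    omega
  have hT' : ∀ k ∉ ({0, 1, 2, 3, 4} : Finset ℤ), 5 ≤ k.natAbs + (4 - k).natAbs + wt κ := by
    intro k hk
    simp only [Finset.mem_insert, Finset.mem_singleton] at hk
    omega
  have h2 := h.ann' hκ hT hT'
  rw [Finset.sum_insert (by decide), Finset.sum_insert (by decide),
    Finset.sum_insert (by decide), Finset.sum_insert (by decide), Finset.sum_singleton,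
    if_neg (by norm_num)] at h2
  have e1 : (0 : ℤ) ::ₘ (4 - 0 : ℤ) ::ₘ κ = 4 ::ₘ 0 ::ₘ κ := by
    rw [show (4 - 0 : ℤ) = 4 by norm_num, Multiset.cons_swap]
  have e2 : (1 : ℤ) ::ₘ (4 - 1 : ℤ) ::ₘ κ = 3 ::ₘ 1 ::ₘ κ := by
    rw [show (4 - 1 : ℤ) = 3 by norm_num, Multiset.cons_swap]
  have e3 : (2 : ℤ) ::ₘ (4 - 2 : ℤ) ::ₘ κ = 2 ::ₘ 2 ::ₘ κ := by
    rw [show (4 - 2 : ℤ) = 2 by norm_num]
  have e4 : (3 : ℤ) ::ₘ (4 - 3 : ℤ) ::ₘ κ = 3 ::ₘ 1 ::ₘ κ := by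
    rw [show (4 - 3 : ℤ) = 1 by norm_num]
  have e5 : (4 : ℤ) ::ₘ (4 - 4 : ℤ) ::ₘ κ = 4 ::ₘ 0 ::ₘ κ := by
    rw [show (4 - 4 : ℤ) = 0 by norm_num]
  rw [e1, e2, e3, e4, e5] at h2
  rw [show (-1 : ℂ) ^ (0 : ℤ) = 1 by norm_num, show (-1 : ℂ) ^ (1 : ℤ) = -1 by norm_num,
    show (-1 : ℂ) ^ (2 : ℤ) = 1 by norm_num, show (-1 : ℂ) ^ (3 : ℤ) = -1 by norm_num,
    show (-1 : ℂ) ^ (4 : ℤ) = 1 by norm_num] at h2
  refine le_trans (le_of_eq (congrArg norm ?_)) h2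
  ring

end rel

/-- coefficient of `V_+` -/
def dp (c : Multiset ℤ → ℂ) (μ : Multiset ℤ) : ℂ := c (1 ::ₘ μ) - c (2 ::ₘ (-1) ::ₘ μ)
/-- coefficient of `V_-` -/
def dm (c : Multiset ℤ → ℂ) (μ : Multiset ℤ) : ℂ := c ((-1) ::ₘ μ) - c ((-2) ::ₘ 1 ::ₘ μ)

section main

variable (h : RowC c n0 K M e d) {κ : Multiset ℤ} (hκ : Multiset.card κ + 3 ≤ n0)

/-- degree `1`, mirror image -/
theorem F1m (h : RowC c n0 K M e d) {κ : Multiset ℤ} (hκ : Multiset.card κ + 2 ≤ n0) :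
    ‖c ((-1) ::ₘ 0 ::ₘ κ) - 2 * c ((-2) ::ₘ 1 ::ₘ κ) - c ((-1) ::ₘ κ)‖ ≤ er K M e d := by
  have h1 := h.neg.F1 (κ := κ.map Neg.neg) (by simpa using hκ)
  simpa [Multiset.map_map] using h1

include h hκ

theorem D0 : ‖(((0 : ℤ) : ℂ)) * c (0 ::ₘ κ) - (dp c ((0 - 1) ::ₘ κ) - dm c ((0 + 1) ::ₘ κ))‖ ≤
    er K M e d := by
  have h1 := h.F1 (κ := (-1) ::ₘ κ) (by rw [Multiset.card_cons]; omega)
  have h2 := h.F1m (κ := 1 ::ₘ κ) (by rw [Multiset.card_cons]; omega)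
  have e1 : (1 : ℤ) ::ₘ 0 ::ₘ (-1) ::ₘ κ = (-1) ::ₘ 0 ::ₘ 1 ::ₘ κ := by
    rw [Multiset.cons_swap 1 0, Multiset.cons_swap 1 (-1), Multiset.cons_swap 0 (-1)]
  have e2 : (1 : ℤ) ::ₘ (-1) ::ₘ κ = (-1) ::ₘ 1 ::ₘ κ := Multiset.cons_swap _ _ _
  rw [e1, e2] at h1
  unfold dp dm
  rw [show (0 - 1 : ℤ) = -1 by norm_num, show (0 + 1 : ℤ) = 1 by norm_num, e2]
  have h3 := norm_sub_le_of_le h1 h2
  have e3 : (((0 : ℤ) : ℂ)) * c (0 ::ₘ κ) - (c ((-1) ::ₘ 1 ::ₘ κ) - c (2 ::ₘ (-1) ::ₘ (-1) ::ₘ κ) -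
      (c ((-1) ::ₘ 1 ::ₘ κ) - c ((-2) ::ₘ 1 ::ₘ 1 ::ₘ κ))) = -(1 / 2) *
      (c ((-1) ::ₘ 0 ::ₘ 1 ::ₘ κ) - 2 * c (2 ::ₘ (-1) ::ₘ (-1) ::ₘ κ) - c ((-1) ::ₘ 1 ::ₘ κ) -
        (c ((-1) ::ₘ 0 ::ₘ 1 ::ₘ κ) - 2 * c ((-2) ::ₘ 1 ::ₘ 1 ::ₘ κ) - c ((-1) ::ₘ 1 ::ₘ κ))) := by
    push_cast
    ring
  rw [e3, norm_mul]
  have e4 : ‖(-(1 / 2) : ℂ)‖ = 1 / 2 := by
    rw [norm_neg]
    norm_num
  rw [e4]
  linarith

theorem D1 : ‖(((1 : ℤ) : ℂ)) * c (1 ::ₘ κ) - (dp c ((1 - 1) ::ₘ κ) - dm c ((1 + 1) ::ₘ κ))‖ ≤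
    3 * er K M e d := by
  have h1 := h.F1 (κ := κ) (by omega)
  have h2 := h.F1m (κ := 2 ::ₘ κ) (by rw [Multiset.card_cons]; omega)
  have h3 : ‖c ((-2) ::ₘ 1 ::ₘ 2 ::ₘ κ)‖ ≤ et M e d := h.bd5 (by
    simp only [Multiset.card_cons]
    omega) (by
    simp only [wt_cons]
    omega)
  have e1 : (-1 : ℤ) ::ₘ 0 ::ₘ 2 ::ₘ κ = 2 ::ₘ (-1) ::ₘ 0 ::ₘ κ := by
    rw [Multiset.cons_swap 0 2, Multiset.cons_swap (-1) 2]
  have e2 : (-1 : ℤ) ::ₘ 2 ::ₘ κ = 2 ::ₘ (-1) ::ₘ κ := Multiset.cons_swap _ _ _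
  rw [e1, e2] at h2
  unfold dp dm
  rw [show (1 - 1 : ℤ) = 0 by norm_num, show (1 + 1 : ℤ) = 2 by norm_num, e2]
  have h4 := norm_add_le_of_le (norm_sub_le_of_le h2 h1) h3
  have h5 := h.et_le
  refine (le_of_eq (congrArg norm ?_)).trans (h4.trans (by linarith))
  push_cast
  ring

theorem D2 : ‖(((2 : ℤ) : ℂ)) * c (2 ::ₘ κ) - (dp c ((2 - 1) ::ₘ κ) - dm c ((2 + 1) ::ₘ κ))‖ ≤
    4 * er K M e d := by
  have h1 := h.F2 (κ := κ) (by omega)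
  have h2 := h.N (κ := 2 ::ₘ κ) (by rw [Multiset.card_cons]; omega) (by
    simp only [wt_cons]
    omega)
  have h3 : ‖c ((-2) ::ₘ 1 ::ₘ 3 ::ₘ κ)‖ ≤ et M e d := h.bd5 (by
    simp only [Multiset.card_cons]
    omega) (by
    simp only [wt_cons]
    omega)
  have e1 : (0 : ℤ) ::ₘ 2 ::ₘ κ = 2 ::ₘ 0 ::ₘ κ := Multiset.cons_swap _ _ _
  have e2 : (1 : ℤ) ::ₘ (-1) ::ₘ 2 ::ₘ κ = 2 ::ₘ (-1) ::ₘ 1 ::ₘ κ := by
    rw [Multiset.cons_swap (-1) 2, Multiset.cons_swap 1 2, Multiset.cons_swap 1 (-1)]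
  have e3 : (-1 : ℤ) ::ₘ 3 ::ₘ κ = 3 ::ₘ (-1) ::ₘ κ := Multiset.cons_swap _ _ _
  rw [e1, e2] at h2
  unfold dp dm
  rw [show (2 - 1 : ℤ) = 1 by norm_num, show (2 + 1 : ℤ) = 3 by norm_num, e3]
  have h4 := norm_sub_le_of_le (norm_sub_le_of_le h2 h1) h3
  have h5 := h.et_le
  refine (le_of_eq (congrArg norm ?_)).trans (h4.trans (by linarith))
  push_cast
  ring

theorem D3 : ‖(((3 : ℤ) : ℂ)) * c (3 ::ₘ κ) - (dp c ((3 - 1) ::ₘ κ) - dm c ((3 + 1) ::ₘ κ))‖ ≤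
    10 * er K M e d := by
  have h1 := h.F3 (κ := κ) (by omega)
  have h2 := h.N (κ := 3 ::ₘ κ) (by rw [Multiset.card_cons]; omega) (by
    simp only [wt_cons]
    omega)
  have b1 : ‖c (1 ::ₘ (-1) ::ₘ 3 ::ₘ κ)‖ ≤ et M e d := h.bd5 (by
    simp only [Multiset.card_cons]
    omega) (by
    simp only [wt_cons]
    omega)
  have b2 : ‖c (2 ::ₘ (-1) ::ₘ 2 ::ₘ κ)‖ ≤ et M e d := h.bd5 (by
    simp only [Multiset.card_cons]
    omega) (by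
    simp only [wt_cons]
    omega)
  have b3 : ‖c ((-1) ::ₘ 4 ::ₘ κ)‖ ≤ et M e d := h.bd5 (by
    simp only [Multiset.card_cons]
    omega) (by
    simp only [wt_cons]
    omega)
  have b4 : ‖c ((-2) ::ₘ 1 ::ₘ 4 ::ₘ κ)‖ ≤ et M e d := h.bd5 (by
    simp only [Multiset.card_cons]
    omega) (by
    simp only [wt_cons]
    omega)
  have e1 : (0 : ℤ) ::ₘ 3 ::ₘ κ = 3 ::ₘ 0 ::ₘ κ := Multiset.cons_swap _ _ _
  have e2 : (1 : ℤ) ::ₘ 2 ::ₘ κ = 2 ::ₘ 1 ::ₘ κ := Multiset.cons_swap _ _ _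
  rw [e1] at h2
  unfold dp dm
  rw [show (3 - 1 : ℤ) = 2 by norm_num, show (3 + 1 : ℤ) = 4 by norm_num, e2]
  have h5 := h.et_le
  have h6 : ‖(2 : ℂ) * (c (3 ::ₘ κ) - (c (3 ::ₘ 0 ::ₘ κ) - c (1 ::ₘ (-1) ::ₘ 3 ::ₘ κ)))‖ ≤
      2 * (2 * er K M e d) := by
    rw [norm_mul]
    have : ‖(2 : ℂ)‖ = 2 := by norm_num
    rw [this]
    linarith
  have h7 : ‖(2 : ℂ) * c (1 ::ₘ (-1) ::ₘ 3 ::ₘ κ)‖ ≤ 2 * et M e d := by
    rw [norm_mul]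
    have : ‖(2 : ℂ)‖ = 2 := by norm_num
    rw [this]
    linarith
  have h4 := norm_sub_le_of_le (norm_add_le_of_le (norm_add_le_of_le (norm_sub_le_of_le
    (norm_sub_le_of_le h6 h1) h7) b2) b3) b4
  refine (le_of_eq (congrArg norm ?_)).trans (h4.trans (by linarith))
  push_cast
  ring

theorem D4 : ‖(((4 : ℤ) : ℂ)) * c (4 ::ₘ κ) - (dp c ((4 - 1) ::ₘ κ) - dm c ((4 + 1) ::ₘ κ))‖ ≤
    14 * er K M e d := by
  have h1 := h.F4 (κ := κ) (by omega)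
  have h1' := h.A4 (κ := κ) (by omega)
  have h2 := h.N (κ := 4 ::ₘ κ) (by rw [Multiset.card_cons]; omega) (by
    simp only [wt_cons]
    omega)
  have b1 : ‖c (1 ::ₘ (-1) ::ₘ 4 ::ₘ κ)‖ ≤ et M e d := h.bd5 (by
    simp only [Multiset.card_cons]
    omega) (by
    simp only [wt_cons]
    omega)
  have b2 : ‖c (2 ::ₘ (-1) ::ₘ 3 ::ₘ κ)‖ ≤ et M e d := h.bd5 (by
    simp only [Multiset.card_cons]
    omega) (by
    simp only [wt_cons]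
    omega)
  have b3 : ‖c ((-1) ::ₘ 5 ::ₘ κ)‖ ≤ et M e d := h.bd5 (by
    simp only [Multiset.card_cons]
    omega) (by
    simp only [wt_cons]
    omega)
  have b4 : ‖c ((-2) ::ₘ 1 ::ₘ 5 ::ₘ κ)‖ ≤ et M e d := h.bd5 (by
    simp only [Multiset.card_cons]
    omega) (by
    simp only [wt_cons]
    omega)
  have e1 : (0 : ℤ) ::ₘ 4 ::ₘ κ = 4 ::ₘ 0 ::ₘ κ := Multiset.cons_swap _ _ _
  have e2 : (1 : ℤ) ::ₘ 3 ::ₘ κ = 3 ::ₘ 1 ::ₘ κ := Multiset.cons_swap _ _ _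
  rw [e1] at h2
  unfold dp dm
  rw [show (4 - 1 : ℤ) = 3 by norm_num, show (4 + 1 : ℤ) = 5 by norm_num, e2]
  have h5 := h.et_le
  have h6 : ‖(3 : ℂ) * (c (4 ::ₘ κ) - (c (4 ::ₘ 0 ::ₘ κ) - c (1 ::ₘ (-1) ::ₘ 4 ::ₘ κ)))‖ ≤
      3 * (2 * er K M e d) := by
    rw [norm_mul]
    have : ‖(3 : ℂ)‖ = 3 := by norm_num
    rw [this]
    linarith
  have h7 : ‖(3 : ℂ) * c (1 ::ₘ (-1) ::ₘ 4 ::ₘ κ)‖ ≤ 3 * et M e d := by
    rw [norm_mul]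
    have : ‖(3 : ℂ)‖ = 3 := by norm_num
    rw [this]
    linarith
  have h4 := norm_sub_le_of_le (norm_add_le_of_le (norm_add_le_of_le (norm_sub_le_of_le
    (norm_add_le_of_le (norm_sub_le_of_le h6 h1) h1') h7) b2) b3) b4
  refine (le_of_eq (congrArg norm ?_)).trans (h4.trans (by linarith))
  push_cast
  ring

theorem D5 {k : ℤ} (hk : 5 ≤ k) :
    ‖(k : ℂ) * c (k ::ₘ κ) - (dp c ((k - 1) ::ₘ κ) - dm c ((k + 1) ::ₘ κ))‖ ≤ er K M e d := by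
  have h0 : ‖(k : ℂ) * c (k ::ₘ κ)‖ ≤ K * et M e d := by
    by_cases hkK : k ≤ K
    · have b0 : ‖c (k ::ₘ κ)‖ ≤ et M e d := h.bd5 (by
        simp only [Multiset.card_cons]
        omega) (by
        simp only [wt_cons]
        omega)
      rw [norm_mul]
      refine mul_le_mul ?_ b0 (norm_nonneg _) (Nat.cast_nonneg _)
      rw [Complex.norm_intCast, abs_of_nonneg (by exact_mod_cast (by omega : (0 : ℤ) ≤ k))]
      exact_mod_cast hkK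
    · rw [h.supp (k ::ₘ κ) ⟨k, Multiset.mem_cons_self _ _, lt_of_lt_of_le (by omega)
        (le_abs_self k)⟩, mul_zero, norm_zero]
      exact mul_nonneg (Nat.cast_nonneg _) h.e5
  have b1 : ‖c (1 ::ₘ (k - 1) ::ₘ κ)‖ ≤ et M e d := h.bd5 (by
    simp only [Multiset.card_cons]
    omega) (by
    simp only [wt_cons]
    omega)
  have b2 : ‖c (2 ::ₘ (-1) ::ₘ (k - 1) ::ₘ κ)‖ ≤ et M e d := h.bd5 (by
    simp only [Multiset.card_cons]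
    omega) (by
    simp only [wt_cons]
    omega)
  have b3 : ‖c ((-1) ::ₘ (k + 1) ::ₘ κ)‖ ≤ et M e d := h.bd5 (by
    simp only [Multiset.card_cons]
    omega) (by
    simp only [wt_cons]
    omega)
  have b4 : ‖c ((-2) ::ₘ 1 ::ₘ (k + 1) ::ₘ κ)‖ ≤ et M e d := h.bd5 (by
    simp only [Multiset.card_cons]
    omega) (by
    simp only [wt_cons]
    omega)
  have h4 := norm_sub_le_of_le h0 (norm_sub_le_of_le (norm_sub_le_of_le b1 b2)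
    (norm_sub_le_of_le b3 b4))
  refine h4.trans ?_
  unfold er
  have hK : (4 : ℝ) ≤ K := by exact_mod_cast h.K4
  have := h.e5
  nlinarith

theorem Dpos {k : ℤ} (hk : 0 ≤ k) :
    ‖(k : ℂ) * c (k ::ₘ κ) - (dp c ((k - 1) ::ₘ κ) - dm c ((k + 1) ::ₘ κ))‖ ≤
      14 * er K M e d := by
  have h0 := h.er0
  rcases (by omega : k = 0 ∨ k = 1 ∨ k = 2 ∨ k = 3 ∨ k = 4 ∨ 5 ≤ k) with
    rfl | rfl | rfl | rfl | rfl | h5
  · exact (h.D0 hκ).trans (by linarith)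
  · exact (h.D1 hκ).trans (by linarith)
  · exact (h.D2 hκ).trans (by linarith)
  · exact (h.D3 hκ).trans (by linarith)
  · exact h.D4 hκ
  · exact (h.D5 hκ h5).trans (by linarith)

/-- **the derivative in one row**, coefficients -/
theorem D (k : ℤ) : ‖(k : ℂ) * c (k ::ₘ κ) - (dp c ((k - 1) ::ₘ κ) - dm c ((k + 1) ::ₘ κ))‖ ≤
    14 * er K M e d := by
  rcases le_total 0 k with hk | hk
  · exact h.Dpos hκ hk
  · have h1 := h.neg.Dpos (κ := κ.map Neg.neg) (by simpa using hκ) (k := -k) (by omega)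
    have e1 : dp (fun κ => c (κ.map Neg.neg)) ((-k - 1) ::ₘ κ.map Neg.neg) =
        dm c ((k + 1) ::ₘ κ) := by
      unfold dp dm
      simp [Multiset.map_map]
      ring_nf
    have e2 : dm (fun κ => c (κ.map Neg.neg)) ((-k + 1) ::ₘ κ.map Neg.neg) =
        dp c ((k - 1) ::ₘ κ) := by
      unfold dp dm
      simp [Multiset.map_map]
      ring_nf
    have e3 : c (((-k) ::ₘ κ.map Neg.neg).map Neg.neg) = c (k ::ₘ κ) := by
      simp [Multiset.map_map]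
    rw [e1, e2] at h1
    simp only [e3] at h1
    refine (le_of_eq ?_).trans h1
    rw [← norm_neg]
    congr 1
    push_cast
    ring

end main

end RowC

end IST.Row

end
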