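import Pool.Agent.IST.RowD

/-!
# Universal functions of rows: the exchange of two pairs (helper33)

* `pe K l c`: the Laurent polynomial of the rows `l` (values `X = e^{i (8/3) x}`);
* `fus_pe`, `ann_pe`: fusion and annihilation at arbitrary points;
* `Q c K a b`: the value at `X, X⁻¹, r, r⁻¹`, `a = X + X⁻¹`, `b = r + r⁻¹` (`Q_eq`);
* **`EX`**: `‖Q a b - Q a' b'‖ ≤ CE K (M e^5 + d) ‖a - a'‖` for `a + b = a' + b'`, norms `≤ 4`;
* `EX_two`, `EX_one`, `EX_zero`: the same for values: two pairs against two pairs, a row `0` and a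
  pair, one pair.
-/

set_option autoImplicit false

noncomputable section

open Complex

namespace IST.Row

/-! ### Chebyshev polynomials -/

/-- `X^n + X^(-n)` as a polynomial of `X + X⁻¹` -/
def Cc (n : ℤ) (a : ℂ) : ℂ := (Polynomial.Chebyshev.C ℂ n).eval a
/-- `(X^(n+1) - X^(-(n+1))) / (X - X⁻¹)` as a polynomial of `X + X⁻¹` -/
def Ss (n : ℤ) (a : ℂ) : ℂ := (Polynomial.Chebyshev.S ℂ n).eval a

theorem Ss_rec (n : ℤ) (a : ℂ) : Ss n a = a * Ss (n - 1) a - Ss (n - 2) a := by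
  unfold Ss
  rw [Polynomial.Chebyshev.S_eq]
  simp

theorem Cc_eq (n : ℤ) (a : ℂ) : Cc n a = Ss n a - Ss (n - 2) a := by
  have h1 : Cc n a = 2 * Ss n a - a * Ss (n - 1) a := by
    unfold Cc Ss
    rw [Polynomial.Chebyshev.C_eq_S_sub_X_mul_S]
    simp
  rw [h1]
  linear_combination Ss_rec n a

theorem Cc_neg (n : ℤ) (a : ℂ) : Cc (-n) a = Cc n a := by
  unfold Cc
  rw [Polynomial.Chebyshev.C_neg]

theorem Cc_add_two (n : ℤ) (a : ℂ) : Cc (n + 2) a = a * Cc (n + 1) a - Cc n a := by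
  unfold Cc
  rw [Polynomial.Chebyshev.C_add_two]
  simp

theorem Cc_sub_one (n : ℤ) (a : ℂ) : Cc (n - 1) a = a * Cc n a - Cc (n + 1) a := by
  unfold Cc
  rw [Polynomial.Chebyshev.C_sub_one]
  simp

/-- the derivative -/
theorem Cc_deriv (n : ℤ) (a : ℂ) : HasDerivAt (Cc n) (n * Ss (n - 1) a) a := by
  induction n using Polynomial.Chebyshev.induct with
  | zero =>
    have e : Cc 0 = fun _ => 2 := by
      funext x
      unfold Cc
      simp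
    rw [e]
    simpa using hasDerivAt_const a (2 : ℂ)
  | one =>
    have e : Cc 1 = fun x => x := by
      funext x
      unfold Cc
      simp
    have e2 : Ss (1 - 1) a = 1 := by
      unfold Ss
      simp
    rw [e, e2]
    simpa using hasDerivAt_id' a
  | add_two n ih1 ih2 =>
    have e : Cc ((n : ℤ) + 2) = fun x => x * Cc (n + 1) x - Cc n x := funext fun x => Cc_add_two _ x
    rw [e]
    refine (((hasDerivAt_id a).mul ih1).sub ih2).congr_deriv ?_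
    have h1 := Cc_eq ((n : ℤ) + 1) a
    have h2 := Ss_rec ((n : ℤ) + 1) a
    rw [show (n : ℤ) + 1 - 2 = n - 1 by ring] at h1 h2
    rw [show (n : ℤ) + 1 - 1 = n by ring] at h2 ⊢
    rw [show (n : ℤ) + 2 - 1 = n + 1 by ring]
    push_cast
    simp only [id_eq]
    rw [h1]
    linear_combination (-(n : ℂ) - 1) * h2
  | neg_add_one n ih1 ih2 =>
    have e : Cc (-(n : ℤ) - 1) = fun x => x * Cc (-n) x - Cc (-n + 1) x :=
      funext fun x => Cc_sub_one _ x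
    rw [e]
    refine (((hasDerivAt_id a).mul ih1).sub ih2).congr_deriv ?_
    have h1 := Cc_eq (-(n : ℤ)) a
    have h2 := Ss_rec (-(n : ℤ)) a
    rw [show -(n : ℤ) - 1 - 1 = -n - 2 by ring, show -(n : ℤ) + 1 - 1 = -n by ring]
    push_cast
    simp only [id_eq]
    rw [h1]
    linear_combination (n : ℂ) * h2

/-- the value at `X + X⁻¹` -/
theorem Cc_val (n : ℤ) {X : ℂ} (hX : X ≠ 0) : Cc n (X + X⁻¹) = X ^ n + X ^ (-n) := by
  induction n using Polynomial.Chebyshev.induct with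
  | zero =>
    unfold Cc
    simp
    norm_num
  | one =>
    unfold Cc
    simp
  | add_two n ih1 ih2 =>
    rw [Cc_add_two, ih1, ih2]
    have e1 : X ^ ((n : ℤ) + 2) = X * X ^ ((n : ℤ) + 1) := by
      rw [show (n : ℤ) + 2 = 1 + (n + 1) by ring, zpow_add₀ hX, zpow_one]
    have e2 : X ^ (n : ℤ) = X⁻¹ * X ^ ((n : ℤ) + 1) := by
      rw [zpow_add₀ hX, zpow_one]
      field_simp
    have e3 : X ^ (-((n : ℤ) + 2)) = X⁻¹ * X ^ (-((n : ℤ) + 1)) := by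
      rw [show -((n : ℤ) + 2) = -1 + -(n + 1) by ring, zpow_add₀ hX, zpow_neg_one]
    have e4 : X ^ (-(n : ℤ)) = X * X ^ (-((n : ℤ) + 1)) := by
      rw [show -((n : ℤ) + 1) = -1 + -n by ring, zpow_add₀ hX, zpow_neg_one, ← mul_assoc,
        mul_inv_cancel₀ hX, one_mul]
    rw [e1, e2, e3, e4]
    ring
  | neg_add_one n ih1 ih2 =>
    rw [Cc_sub_one, ih1, ih2]
    have e1 : X ^ (-(n : ℤ) - 1) = X⁻¹ * X ^ (-(n : ℤ)) := by
      rw [show -(n : ℤ) - 1 = -1 + -n by ring, zpow_add₀ hX, zpow_neg_one]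
    have e2 : X ^ (-(n : ℤ) + 1) = X * X ^ (-(n : ℤ)) := by
      rw [show -(n : ℤ) + 1 = 1 + -n by ring, zpow_add₀ hX, zpow_one]
    have e3 : X ^ (-(-(n : ℤ) - 1)) = X * X ^ (-(-(n : ℤ))) := by
      rw [show -(-(n : ℤ) - 1) = 1 + -(-n) by ring, zpow_add₀ hX, zpow_one]
    have e4 : X ^ (-(-(n : ℤ) + 1)) = X⁻¹ * X ^ (-(-(n : ℤ))) := by
      rw [show -(-(n : ℤ) + 1) = -1 + -(-n) by ring, zpow_add₀ hX, zpow_neg_one]
    rw [e1, e2, e3, e4]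
    ring

/-- sizes -/
theorem Ss_nat {a : ℂ} (ha : ‖a‖ ≤ 4) : ∀ n : ℕ, ‖Ss n a‖ ≤ 5 ^ n ∧ ‖Ss ((n : ℤ) + 1) a‖ ≤ 5 ^ (n + 1)
  | 0 => by
    have e0 : Ss ((0 : ℕ) : ℤ) a = 1 := by
      unfold Ss
      simp
    have e1 : Ss (((0 : ℕ) : ℤ) + 1) a = a := by
      unfold Ss
      simp
    rw [e0, e1]
    constructor
    · simp
    · norm_num
      linarith
  | n + 1 => by
    obtain ⟨h1, h2⟩ := Ss_nat ha n
    refine ⟨by
      have : ((n + 1 : ℕ) : ℤ) = n + 1 := by push_cast; ring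
      rw [this]
      exact h2, ?_⟩
    have e : Ss (((n + 1 : ℕ) : ℤ) + 1) a = a * Ss ((n : ℤ) + 1) a - Ss n a := by
      rw [Ss_rec]
      congr 2
      · congr 1
        push_cast
        ring
      · push_cast
        ring_nf
    rw [e]
    refine (norm_sub_le _ _).trans ?_
    rw [norm_mul]
    have h3 : ‖a‖ * ‖Ss ((n : ℤ) + 1) a‖ ≤ 4 * 5 ^ (n + 1) :=
      mul_le_mul ha h2 (norm_nonneg _) (by norm_num)
    have h4 : (5 : ℝ) ^ n ≤ 5 ^ (n + 1) := pow_le_pow_right₀ (by norm_num) (by omega)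
    calc _ ≤ 4 * (5 : ℝ) ^ (n + 1) + 5 ^ (n + 1) := add_le_add h3 (h1.trans h4)
      _ = 5 ^ (n + 1 + 1) := by ring

theorem Ss_le {a : ℂ} (ha : ‖a‖ ≤ 4) (n : ℤ) : ‖Ss n a‖ ≤ 5 ^ n.natAbs := by
  rcases le_or_gt 0 n with h | h
  · obtain ⟨m, rfl⟩ := Int.eq_ofNat_of_zero_le h
    simpa using (Ss_nat ha m).1
  · have e : Ss n a = -Ss (-n - 2) a := by
      unfold Ss
      have := Polynomial.Chebyshev.S_neg_sub_two ℂ (-n - 2)
      rw [show -(-n - 2) - 2 = n by ring] at this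
      rw [this]
      simp
    rw [e, norm_neg]
    rcases (by omega : n = -1 ∨ n ≤ -2) with rfl | h2
    · have : Ss (- -1 - 2) a = 0 := by
        unfold Ss
        norm_num
      rw [this, norm_zero]
      positivity
    · obtain ⟨m, hm⟩ := Int.eq_ofNat_of_zero_le (show 0 ≤ -n - 2 by omega)
      rw [hm]
      refine ((Ss_nat ha m).1).trans (pow_le_pow_right₀ (by norm_num) ?_)
      omega

theorem Cc_le {a : ℂ} (ha : ‖a‖ ≤ 4) (n : ℤ) : ‖Cc n a‖ ≤ 5 ^ (n.natAbs + 3) := by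
  rw [Cc_eq]
  refine (norm_sub_le _ _).trans ?_
  have h1 := Ss_le ha n
  have h2 := Ss_le ha (n - 2)
  have h3 : (5 : ℝ) ^ (n - 2).natAbs ≤ 5 ^ (n.natAbs + 2) :=
    pow_le_pow_right₀ (by norm_num) (by omega)
  have h4 : (5 : ℝ) ^ n.natAbs ≤ 5 ^ (n.natAbs + 2) := pow_le_pow_right₀ (by norm_num) (by omega)
  have h5 : (0 : ℝ) < 5 ^ (n.natAbs + 2) := by positivity
  calc _ ≤ (5 : ℝ) ^ (n.natAbs + 2) + 5 ^ (n.natAbs + 2) := by linarith
    _ ≤ 5 * 5 ^ (n.natAbs + 2) := by linarith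
    _ = _ := by ring

/-! ### four rows -/

/-- four exponents -/
abbrev I4 := ℤ × ℤ × ℤ × ℤ

/-- the monomial -/
def m4 (p : I4) : Multiset ℤ := p.1 ::ₘ p.2.1 ::ₘ p.2.2.1 ::ₘ p.2.2.2 ::ₘ 0

/-- the range of one exponent -/
def Ic (K : ℕ) : Finset ℤ := Finset.Icc (-((K : ℤ) + 1)) (K + 1)

/-- the range of four exponents -/
def B4 (K : ℕ) : Finset I4 := Ic K ×ˢ Ic K ×ˢ Ic K ×ˢ Ic K

theorem mem_Ic {K : ℕ} {k : ℤ} : k ∈ Ic K ↔ |k| ≤ K + 1 := by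
  rw [Ic, Finset.mem_Icc, abs_le]

theorem mem_B4 {K : ℕ} {p : I4} : p ∈ B4 K ↔ |p.1| ≤ K + 1 ∧ |p.2.1| ≤ K + 1 ∧
    |p.2.2.1| ≤ K + 1 ∧ |p.2.2.2| ≤ K + 1 := by
  simp only [B4, Finset.mem_product, mem_Ic]

theorem sum_shift {ι : Type*} (s : Finset ι) (e : ι ≃ ι) (f : ι → ℂ) (h1 : ∀ x ∉ s, f x = 0)
    (h2 : ∀ x ∉ s, f (e x) = 0) : ∑ x ∈ s, f (e x) = ∑ x ∈ s, f x := by
  have e1 : ∑ᶠ x, f (e x) = ∑ᶠ x, f x := finsum_comp_equiv e
  rw [finsum_eq_sum_of_support_subset (s := s) (f := fun x => f (e x)),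
    finsum_eq_sum_of_support_subset (s := s) (f := f)] at e1
  · exact e1
  · intro x hx
    by_contra h
    exact hx (h1 x h)
  · intro x hx
    by_contra h
    exact hx (h2 x h)

/-- **one row**, any weight -/
theorem row_gen {ι : Type*} (s : Finset ι) (m : ι → Multiset ℤ) (n : ι → ℤ) (u : ι ≃ ι)
    {c : Multiset ℤ → ℂ} {φ : ι → ℂ} {E Φ : ℝ} (hE0 : 0 ≤ E)
    (hE : ∀ p, ‖(n p : ℂ) * c (m p) - (RowC.dp c (m (u.symm p)) - RowC.dm c (m (u p)))‖ ≤ E)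
    (hφ : ∀ p ∈ s, ‖φ p‖ ≤ Φ) (s1 : ∀ p ∉ s, RowC.dp c (m p) = 0)
    (s2 : ∀ p ∉ s, RowC.dp c (m (u.symm p)) = 0) (s3 : ∀ p ∉ s, RowC.dm c (m p) = 0)
    (s4 : ∀ p ∉ s, RowC.dm c (m (u p)) = 0) :
    ‖∑ p ∈ s, (n p : ℂ) * c (m p) * φ p - (∑ p ∈ s, RowC.dp c (m p) * φ (u p) -
      ∑ p ∈ s, RowC.dm c (m p) * φ (u.symm p))‖ ≤ s.card * (E * Φ) := by
  have e1 := sum_shift s u.symm (fun p => RowC.dp c (m p) * φ (u p))
    (fun p hp => by simp only [s1 p hp, zero_mul]) (fun p hp => by simp only [s2 p hp, zero_mul])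
  have e2 := sum_shift s u (fun p => RowC.dm c (m p) * φ (u.symm p))
    (fun p hp => by simp only [s3 p hp, zero_mul]) (fun p hp => by simp only [s4 p hp, zero_mul])
  simp only [Equiv.apply_symm_apply, Equiv.symm_apply_apply] at e1 e2
  rw [← e1, ← e2, ← Finset.sum_sub_distrib, ← Finset.sum_sub_distrib]
  refine (norm_sum_le _ _).trans ?_
  rw [← nsmul_eq_mul]
  refine Finset.sum_le_card_nsmul _ _ _ fun p hp => ?_
  have e3 : (n p : ℂ) * c (m p) * φ p - (RowC.dp c (m (u.symm p)) * φ p -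
      RowC.dm c (m (u p)) * φ p) = ((n p : ℂ) * c (m p) - (RowC.dp c (m (u.symm p)) -
      RowC.dm c (m (u p)))) * φ p := by ring
  rw [e3, norm_mul]
  exact mul_le_mul (hE p) (hφ p hp) (norm_nonneg _) hE0

/-- one more in the four places -/
def u0 : I4 ≃ I4 where
  toFun p := (p.1 + 1, p.2)
  invFun p := (p.1 - 1, p.2)
  left_inv p := by simp
  right_inv p := by simp
def u1 : I4 ≃ I4 where
  toFun p := (p.1, p.2.1 + 1, p.2.2)
  invFun p := (p.1, p.2.1 - 1, p.2.2)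
  left_inv p := by simp
  right_inv p := by simp
def u2 : I4 ≃ I4 where
  toFun p := (p.1, p.2.1, p.2.2.1 + 1, p.2.2.2)
  invFun p := (p.1, p.2.1, p.2.2.1 - 1, p.2.2.2)
  left_inv p := by simp
  right_inv p := by simp
def u3 : I4 ≃ I4 where
  toFun p := (p.1, p.2.1, p.2.2.1, p.2.2.2 + 1)
  invFun p := (p.1, p.2.1, p.2.2.1, p.2.2.2 - 1)
  left_inv p := by simp
  right_inv p := by simp

variable {c : Multiset ℤ → ℂ} {n0 K : ℕ} {M e d : ℝ}

theorem dp_supp (h : RowC c n0 K M e d) {μ : Multiset ℤ} (hμ : ∃ k ∈ μ, (K : ℤ) < |k|) :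
    RowC.dp c μ = 0 := by
  obtain ⟨k, hk, hk'⟩ := hμ
  unfold RowC.dp
  rw [h.supp _ ⟨k, Multiset.mem_cons_of_mem hk, hk'⟩,
    h.supp _ ⟨k, Multiset.mem_cons_of_mem (Multiset.mem_cons_of_mem hk), hk'⟩, sub_zero]

theorem dm_supp (h : RowC c n0 K M e d) {μ : Multiset ℤ} (hμ : ∃ k ∈ μ, (K : ℤ) < |k|) :
    RowC.dm c μ = 0 := by
  obtain ⟨k, hk, hk'⟩ := hμ
  unfold RowC.dm
  rw [h.supp _ ⟨k, Multiset.mem_cons_of_mem hk, hk'⟩,
    h.supp _ ⟨k, Multiset.mem_cons_of_mem (Multiset.mem_cons_of_mem hk), hk'⟩, sub_zero]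

/-- outside of the box, also after a shift by one -/
theorem m4_out {p q : I4} (hp : p ∉ B4 K) (h0 : |q.1 - p.1| ≤ 1) (h1 : |q.2.1 - p.2.1| ≤ 1)
    (h2 : |q.2.2.1 - p.2.2.1| ≤ 1) (h3 : |q.2.2.2 - p.2.2.2| ≤ 1) :
    ∃ k ∈ m4 q, (K : ℤ) < |k| := by
  rw [mem_B4] at hp
  unfold m4
  simp only [Multiset.mem_cons]
  by_cases a0 : |p.1| ≤ K + 1
  · by_cases a1 : |p.2.1| ≤ K + 1
    · by_cases a2 : |p.2.2.1| ≤ K + 1
      · have a3 : ¬ |p.2.2.2| ≤ K + 1 := fun h => hp ⟨a0, a1, a2, h⟩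
        refine ⟨q.2.2.2, by simp, ?_⟩
        have := abs_sub_abs_le_abs_sub p.2.2.2 q.2.2.2
        rw [abs_sub_comm] at this
        omega
      · refine ⟨q.2.2.1, by simp, ?_⟩
        have := abs_sub_abs_le_abs_sub p.2.2.1 q.2.2.1
        rw [abs_sub_comm] at this
        omega
    · refine ⟨q.2.1, by simp, ?_⟩
      have := abs_sub_abs_le_abs_sub p.2.1 q.2.1
      rw [abs_sub_comm] at this
      omega
  · refine ⟨q.1, by simp, ?_⟩
    have := abs_sub_abs_le_abs_sub p.1 q.1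
    rw [abs_sub_comm] at this
    omega

section rows

variable (h : RowC c n0 K M e d) (hn : 6 ≤ n0) {φ : I4 → ℂ} {Φ : ℝ}
  (hφ : ∀ p ∈ B4 K, ‖φ p‖ ≤ Φ)

include h hn hφ

theorem r0 : ‖∑ p ∈ B4 K, (p.1 : ℂ) * c (m4 p) * φ p - (∑ p ∈ B4 K, RowC.dp c (m4 p) * φ (u0 p) -
    ∑ p ∈ B4 K, RowC.dm c (m4 p) * φ (u0.symm p))‖ ≤
      (B4 K).card * (14 * RowC.er K M e d * Φ) := by
  refine row_gen (B4 K) m4 (fun p => p.1) u0 (by linarith [h.er0]) (fun p => ?_) hφ ?_ ?_ ?_ ?_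
  · exact h.D (κ := p.2.1 ::ₘ p.2.2.1 ::ₘ p.2.2.2 ::ₘ 0) (by simp; omega) p.1
  · exact fun p hp => dp_supp h (m4_out hp (by simp) (by simp) (by simp) (by simp))
  · exact fun p hp => dp_supp h (m4_out hp (by simp [u0]) (by simp [u0]) (by simp [u0])
      (by simp [u0]))
  · exact fun p hp => dm_supp h (m4_out hp (by simp) (by simp) (by simp) (by simp))
  · exact fun p hp => dm_supp h (m4_out hp (by simp [u0]) (by simp [u0]) (by simp [u0])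
      (by simp [u0]))

theorem r1 : ‖∑ p ∈ B4 K, (p.2.1 : ℂ) * c (m4 p) * φ p - (∑ p ∈ B4 K, RowC.dp c (m4 p) * φ (u1 p) -
    ∑ p ∈ B4 K, RowC.dm c (m4 p) * φ (u1.symm p))‖ ≤
      (B4 K).card * (14 * RowC.er K M e d * Φ) := by
  refine row_gen (B4 K) m4 (fun p => p.2.1) u1 (by linarith [h.er0]) (fun p => ?_) hφ ?_ ?_ ?_ ?_
  · have h1 := h.D (κ := p.1 ::ₘ p.2.2.1 ::ₘ p.2.2.2 ::ₘ 0) (by simp; omega) p.2.1
    have e1 : ∀ k : ℤ, k ::ₘ p.1 ::ₘ p.2.2.1 ::ₘ p.2.2.2 ::ₘ 0 = m4 (p.1, k, p.2.2) := fun k =>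
      Multiset.cons_swap _ _ _
    rw [e1, e1, e1] at h1
    exact h1
  · exact fun p hp => dp_supp h (m4_out hp (by simp) (by simp) (by simp) (by simp))
  · exact fun p hp => dp_supp h (m4_out hp (by simp [u1]) (by simp [u1]) (by simp [u1])
      (by simp [u1]))
  · exact fun p hp => dm_supp h (m4_out hp (by simp) (by simp) (by simp) (by simp))
  · exact fun p hp => dm_supp h (m4_out hp (by simp [u1]) (by simp [u1]) (by simp [u1])
      (by simp [u1]))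

theorem r2 : ‖∑ p ∈ B4 K, (p.2.2.1 : ℂ) * c (m4 p) * φ p -
    (∑ p ∈ B4 K, RowC.dp c (m4 p) * φ (u2 p) -
    ∑ p ∈ B4 K, RowC.dm c (m4 p) * φ (u2.symm p))‖ ≤
      (B4 K).card * (14 * RowC.er K M e d * Φ) := by
  refine row_gen (B4 K) m4 (fun p => p.2.2.1) u2 (by linarith [h.er0]) (fun p => ?_) hφ ?_ ?_ ?_ ?_
  · have h1 := h.D (κ := p.1 ::ₘ p.2.1 ::ₘ p.2.2.2 ::ₘ 0) (by simp; omega) p.2.2.1
    have e1 : ∀ k : ℤ, k ::ₘ p.1 ::ₘ p.2.1 ::ₘ p.2.2.2 ::ₘ 0 =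
        m4 (p.1, p.2.1, k, p.2.2.2) := fun k => by
      rw [Multiset.cons_swap k p.1, Multiset.cons_swap k p.2.1]
      rfl
    rw [e1, e1, e1] at h1
    exact h1
  · exact fun p hp => dp_supp h (m4_out hp (by simp) (by simp) (by simp) (by simp))
  · exact fun p hp => dp_supp h (m4_out hp (by simp [u2]) (by simp [u2]) (by simp [u2])
      (by simp [u2]))
  · exact fun p hp => dm_supp h (m4_out hp (by simp) (by simp) (by simp) (by simp))
  · exact fun p hp => dm_supp h (m4_out hp (by simp [u2]) (by simp [u2]) (by simp [u2])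
      (by simp [u2]))

theorem r3 : ‖∑ p ∈ B4 K, (p.2.2.2 : ℂ) * c (m4 p) * φ p -
    (∑ p ∈ B4 K, RowC.dp c (m4 p) * φ (u3 p) -
    ∑ p ∈ B4 K, RowC.dm c (m4 p) * φ (u3.symm p))‖ ≤
      (B4 K).card * (14 * RowC.er K M e d * Φ) := by
  refine row_gen (B4 K) m4 (fun p => p.2.2.2) u3 (by linarith [h.er0]) (fun p => ?_) hφ ?_ ?_ ?_ ?_
  · have h1 := h.D (κ := p.1 ::ₘ p.2.1 ::ₘ p.2.2.1 ::ₘ 0) (by simp; omega) p.2.2.2
    have e1 : ∀ k : ℤ, k ::ₘ p.1 ::ₘ p.2.1 ::ₘ p.2.2.1 ::ₘ 0 =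
        m4 (p.1, p.2.1, p.2.2.1, k) := fun k => by
      rw [Multiset.cons_swap k p.1, Multiset.cons_swap k p.2.1, Multiset.cons_swap k p.2.2.1]
      rfl
    rw [e1, e1, e1] at h1
    exact h1
  · exact fun p hp => dp_supp h (m4_out hp (by simp) (by simp) (by simp) (by simp))
  · exact fun p hp => dp_supp h (m4_out hp (by simp [u3]) (by simp [u3]) (by simp [u3])
      (by simp [u3]))
  · exact fun p hp => dm_supp h (m4_out hp (by simp) (by simp) (by simp) (by simp))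
  · exact fun p hp => dm_supp h (m4_out hp (by simp [u3]) (by simp [u3]) (by simp [u3])
      (by simp [u3]))

end rows

/-- the value at two pairs, `a = X + X⁻¹`, `b = r + r⁻¹` -/
def Q (c : Multiset ℤ → ℂ) (K : ℕ) (a b : ℂ) : ℂ :=
  1 / 4 * ∑ p ∈ B4 K, c (m4 p) * (Cc (p.1 - p.2.1) a * Cc (p.2.2.1 - p.2.2.2) b)

/-- `∂_a - ∂_b` -/
def Tq (c : Multiset ℤ → ℂ) (K : ℕ) (a b : ℂ) : ℂ :=
  1 / 4 * ∑ p ∈ B4 K, c (m4 p) * (((p.1 - p.2.1 : ℤ) : ℂ) * Ss (p.1 - p.2.1 - 1) a *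
    Cc (p.2.2.1 - p.2.2.2) b - Cc (p.1 - p.2.1) a * (((p.2.2.1 - p.2.2.2 : ℤ) : ℂ) *
      Ss (p.2.2.1 - p.2.2.2 - 1) b))

/-- the constant -/
def CE (K : ℕ) : ℝ := (B4 K).card * (14 * (2 * K + 2) * 5 ^ (4 * K + 8))

theorem CE0 (K : ℕ) : 0 ≤ CE K :=
  mul_nonneg (Nat.cast_nonneg _) (mul_nonneg (by positivity) (pow_nonneg (by norm_num) _))

theorem Tq_le (h : RowC c n0 K M e d) (hn : 6 ≤ n0) {a b : ℂ} (ha : ‖a‖ ≤ 4) (hb : ‖b‖ ≤ 4) :
    ‖Tq c K a b‖ ≤ CE K * et M e d := by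
  obtain ⟨φ, hφ⟩ : ∃ φ : I4 → ℂ, φ = fun p => Ss (p.1 - p.2.1 - 1) a *
    Cc (p.2.2.1 - p.2.2.2) b := ⟨_, rfl⟩
  obtain ⟨ψ, hψ⟩ : ∃ ψ : I4 → ℂ, ψ = fun p => Cc (p.1 - p.2.1) a *
    Ss (p.2.2.1 - p.2.2.2 - 1) b := ⟨_, rfl⟩
  have bφ : ∀ p ∈ B4 K, ‖φ p‖ ≤ 5 ^ (4 * K + 8) := by
    intro p hp
    rw [mem_B4] at hp
    obtain ⟨q1, q2, q3, q4⟩ := hp
    rw [hφ, norm_mul]
    have h1 := Ss_le ha (p.1 - p.2.1 - 1)
    have h2 := Cc_le hb (p.2.2.1 - p.2.2.2)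
    rw [abs_le] at q1 q2 q3 q4
    have h3 : (5 : ℝ) ^ (p.1 - p.2.1 - 1).natAbs ≤ 5 ^ (2 * K + 3) :=
      pow_le_pow_right₀ (by norm_num) (by omega)
    have h4 : (5 : ℝ) ^ ((p.2.2.1 - p.2.2.2).natAbs + 3) ≤ 5 ^ (2 * K + 5) :=
      pow_le_pow_right₀ (by norm_num) (by omega)
    calc _ ≤ (5 : ℝ) ^ (2 * K + 3) * 5 ^ (2 * K + 5) :=
          mul_le_mul (h1.trans h3) (h2.trans h4) (norm_nonneg _) (by positivity)
      _ = _ := by rw [← pow_add]; congr 1; ring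
  have bψ : ∀ p ∈ B4 K, ‖ψ p‖ ≤ 5 ^ (4 * K + 8) := by
    intro p hp
    rw [mem_B4] at hp
    obtain ⟨q1, q2, q3, q4⟩ := hp
    rw [hψ, norm_mul]
    have h1 := Ss_le hb (p.2.2.1 - p.2.2.2 - 1)
    have h2 := Cc_le ha (p.1 - p.2.1)
    rw [abs_le] at q1 q2 q3 q4
    have h3 : (5 : ℝ) ^ (p.2.2.1 - p.2.2.2 - 1).natAbs ≤ 5 ^ (2 * K + 3) :=
      pow_le_pow_right₀ (by norm_num) (by omega)
    have h4 : (5 : ℝ) ^ ((p.1 - p.2.1).natAbs + 3) ≤ 5 ^ (2 * K + 5) :=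
      pow_le_pow_right₀ (by norm_num) (by omega)
    calc _ ≤ (5 : ℝ) ^ (2 * K + 5) * 5 ^ (2 * K + 3) :=
          mul_le_mul (h2.trans h4) (h1.trans h3) (norm_nonneg _) (by positivity)
      _ = _ := by rw [← pow_add]; congr 1; ring
  have k0 := r0 h hn bφ
  have k1 := r1 h hn bφ
  have k2 := r2 h hn bψ
  have k3 := r3 h hn bψ
  have key := norm_add_le_of_le (norm_sub_le_of_le (norm_sub_le_of_le k0 k1) k2) k3
  obtain ⟨Bd, hBd⟩ : ∃ x : ℝ, x = (B4 K).card * (14 * RowC.er K M e d * 5 ^ (4 * K + 8)) :=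
    ⟨_, rfl⟩
  rw [← hBd] at key
  have e1 : Bd = CE K * et M e d := by
    rw [hBd]
    unfold CE RowC.er
    ring
  have e2 : ∑ p ∈ B4 K, (p.1 : ℂ) * c (m4 p) * φ p - (∑ p ∈ B4 K, RowC.dp c (m4 p) * φ (u0 p) -
      ∑ p ∈ B4 K, RowC.dm c (m4 p) * φ (u0.symm p)) -
      (∑ p ∈ B4 K, (p.2.1 : ℂ) * c (m4 p) * φ p - (∑ p ∈ B4 K, RowC.dp c (m4 p) * φ (u1 p) -
      ∑ p ∈ B4 K, RowC.dm c (m4 p) * φ (u1.symm p))) -
      (∑ p ∈ B4 K, (p.2.2.1 : ℂ) * c (m4 p) * ψ p - (∑ p ∈ B4 K, RowC.dp c (m4 p) * ψ (u2 p) -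
      ∑ p ∈ B4 K, RowC.dm c (m4 p) * ψ (u2.symm p))) +
      (∑ p ∈ B4 K, (p.2.2.2 : ℂ) * c (m4 p) * ψ p - (∑ p ∈ B4 K, RowC.dp c (m4 p) * ψ (u3 p) -
      ∑ p ∈ B4 K, RowC.dm c (m4 p) * ψ (u3.symm p))) = 4 * Tq c K a b := by
    simp only [← Finset.sum_sub_distrib, ← Finset.sum_add_distrib]
    unfold Tq
    rw [← mul_assoc, show (4 : ℂ) * (1 / 4) = 1 by norm_num, one_mul]
    refine Finset.sum_congr rfl fun p _ => ?_
    rw [hφ, hψ]
    simp only [u0, u1, u2, u3, Equiv.coe_fn_mk, Equiv.coe_fn_symm_mk]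
    have c1 := Cc_eq (p.1 - p.2.1) a
    have c2 := Cc_eq (p.2.2.1 - p.2.2.2) b
    rw [show p.1 + 1 - p.2.1 - 1 = p.1 - p.2.1 by ring,
      show p.1 - 1 - p.2.1 - 1 = p.1 - p.2.1 - 2 by ring,
      show p.1 - (p.2.1 + 1) - 1 = p.1 - p.2.1 - 2 by ring,
      show p.1 - (p.2.1 - 1) - 1 = p.1 - p.2.1 by ring,
      show p.2.2.1 + 1 - p.2.2.2 - 1 = p.2.2.1 - p.2.2.2 by ring,
      show p.2.2.1 - 1 - p.2.2.2 - 1 = p.2.2.1 - p.2.2.2 - 2 by ring,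
      show p.2.2.1 - (p.2.2.2 + 1) - 1 = p.2.2.1 - p.2.2.2 - 2 by ring,
      show p.2.2.1 - (p.2.2.2 - 1) - 1 = p.2.2.1 - p.2.2.2 by ring]
    push_cast
    linear_combination (RowC.dp c (m4 p) + RowC.dm c (m4 p)) *
      (Cc (p.2.2.1 - p.2.2.2) b * c1 - Cc (p.1 - p.2.1) a * c2)
  rw [e2, norm_mul] at key
  have e3 : ‖(4 : ℂ)‖ = 4 := by norm_num
  rw [e3, e1] at key
  linarith

/-- the derivative along `a + b = const` -/
theorem Q_deriv (c : Multiset ℤ → ℂ) (K : ℕ) (a b δ : ℂ) (t : ℝ) :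
    HasDerivAt (fun t : ℝ => Q c K (a + t * δ) (b - t * δ))
      (δ * Tq c K (a + t * δ) (b - t * δ)) t := by
  have h1 : HasDerivAt (fun t : ℝ => a + t * δ) δ t := by
    have := ((ofRealCLM.hasDerivAt (x := t)).mul_const δ).const_add a
    simpa using this
  have h2 : HasDerivAt (fun t : ℝ => b - t * δ) (-δ) t := by
    have := ((ofRealCLM.hasDerivAt (x := t)).mul_const δ).const_sub b
    simpa using this
  unfold Q Tq
  have h3 := HasDerivAt.fun_sum (u := B4 K) fun (p : I4) _ =>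
    ((((Cc_deriv (p.1 - p.2.1) (a + t * δ)).comp_of_eq t h1 rfl).mul
      ((Cc_deriv (p.2.2.1 - p.2.2.2) (b - t * δ)).comp_of_eq t h2 rfl)).const_mul (c (m4 p)))
  refine (h3.const_mul (1 / 4)).congr_deriv ?_
  simp only [Finset.mul_sum]
  refine Finset.sum_congr rfl fun p _ => ?_
  simp only [Function.comp_apply]
  ring

/-- **the exchange of two pairs** -/
theorem EX (h : RowC c n0 K M e d) (hn : 6 ≤ n0) {a b a' b' : ℂ} (ha : ‖a‖ ≤ 4) (hb : ‖b‖ ≤ 4)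
    (ha' : ‖a'‖ ≤ 4) (hb' : ‖b'‖ ≤ 4) (hab : a + b = a' + b') :
    ‖Q c K a b - Q c K a' b'‖ ≤ CE K * et M e d * ‖a - a'‖ := by
  obtain ⟨δ, hδ⟩ : ∃ δ : ℂ, δ = a' - a := ⟨_, rfl⟩
  have e1 : a' = a + δ := by rw [hδ]; ring
  have e2 : b' = b - δ := by rw [hδ]; linear_combination -hab
  have h1 := norm_image_sub_le_of_norm_deriv_le_segment_01'
    (f := fun t : ℝ => Q c K (a + t * δ) (b - t * δ)) (C := CE K * et M e d * ‖δ‖)
    (fun t _ => (Q_deriv c K a b δ t).hasDerivWithinAt) (fun t ht => by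
      rw [norm_mul, mul_comm]
      refine mul_le_mul_of_nonneg_right (Tq_le h hn ?_ ?_) (norm_nonneg _)
      · have e3 : a + t * δ = (1 - t : ℝ) • a + (t : ℝ) • a' := by
          rw [e1, real_smul, real_smul]
          push_cast
          ring
        rw [e3]
        refine (norm_add_le _ _).trans ?_
        rw [norm_smul, norm_smul, Real.norm_of_nonneg (by linarith [ht.2]),
          Real.norm_of_nonneg ht.1]
        nlinarith [ht.1, ht.2]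
      · have e3 : b - t * δ = (1 - t : ℝ) • b + (t : ℝ) • b' := by
          rw [e2, real_smul, real_smul]
          push_cast
          ring
        rw [e3]
        refine (norm_add_le _ _).trans ?_
        rw [norm_smul, norm_smul, Real.norm_of_nonneg (by linarith [ht.2]),
          Real.norm_of_nonneg ht.1]
        nlinarith [ht.1, ht.2])
  simp only [ofReal_one, one_mul, ofReal_zero, zero_mul, add_zero, sub_zero] at h1
  rw [← e1, ← e2, norm_sub_rev, hδ, norm_sub_rev a' a] at h1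
  exact h1

/-! ### values -/

/-- the range of one exponent -/
def Kc (K : ℕ) : Finset ℤ := Finset.Icc (-(K : ℤ)) K

theorem mem_Kc {K : ℕ} {k : ℤ} : k ∈ Kc K ↔ -(K : ℤ) ≤ k ∧ k ≤ K := by
  rw [Kc, Finset.mem_Icc]

/-- **the Laurent polynomial of the rows** -/
def pe (K : ℕ) : List ℂ → (Multiset ℤ → ℂ) → ℂ
  | [], c => c 0
  | X :: l, c => ∑ k ∈ Kc K, X ^ k * pe K l (fun κ => c (k ::ₘ κ))

theorem pe_sum {ι : Type*} (K : ℕ) (s : Finset ι) (w : ι → ℂ) : ∀ (l : List ℂ)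
    (c : ι → Multiset ℤ → ℂ),
    pe K l (fun κ => ∑ i ∈ s, w i * c i κ) = ∑ i ∈ s, w i * pe K l (c i)
  | [], c => rfl
  | X :: l, c => by
    simp only [pe]
    simp only [pe_sum K s w l, Finset.mul_sum]
    rw [Finset.sum_comm]
    refine Finset.sum_congr rfl fun i _ => Finset.sum_congr rfl fun k _ => ?_
    ring

theorem pe_sub (K : ℕ) : ∀ (l : List ℂ) (c c' : Multiset ℤ → ℂ),
    pe K l (fun κ => c κ - c' κ) = pe K l c - pe K l c'
  | [], c, c' => rfl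
  | X :: l, c, c' => by
    simp only [pe]
    simp only [pe_sub K l, mul_sub, Finset.sum_sub_distrib]

theorem pe_smul (K : ℕ) (w : ℂ) : ∀ (l : List ℂ) (c : Multiset ℤ → ℂ),
    pe K l (fun κ => w * c κ) = w * pe K l c
  | [], c => rfl
  | X :: l, c => by
    simp only [pe]
    simp only [pe_smul K w l, Finset.mul_sum]
    refine Finset.sum_congr rfl fun k _ => ?_
    ring

theorem pe_zero (K : ℕ) : ∀ l : List ℂ, pe K l (fun _ => 0) = 0
  | [] => rfl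
  | X :: l => by
    simp only [pe]
    simp only [pe_zero K l, mul_zero, Finset.sum_const_zero]

theorem pe_swap (K : ℕ) (X Y : ℂ) (l : List ℂ) (c : Multiset ℤ → ℂ) :
    pe K (X :: Y :: l) c = pe K (Y :: X :: l) c := by
  simp only [pe, Finset.mul_sum]
  rw [Finset.sum_comm]
  refine Finset.sum_congr rfl fun j _ => Finset.sum_congr rfl fun k _ => ?_
  have e : (fun κ => c (k ::ₘ j ::ₘ κ)) = fun κ => c (j ::ₘ k ::ₘ κ) :=
    funext fun κ => by rw [Multiset.cons_swap]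
  rw [e]
  ring

/-- the order of the rows is of no importance -/
theorem pe_perm (K : ℕ) {l l' : List ℂ} (hl : l.Perm l') : ∀ c : Multiset ℤ → ℂ,
    pe K l c = pe K l' c := by
  induction hl with
  | nil => exact fun c => rfl
  | cons x _ ih =>
    intro c
    simp only [pe, ih]
  | swap x y l => exact fun c => pe_swap K y x l c
  | trans _ _ ih1 ih2 => exact fun c => (ih1 c).trans (ih2 c)

/-- the weight of one row -/
def wX (K : ℕ) (X : ℂ) : ℝ := ∑ k ∈ Kc K, ‖X‖ ^ k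

/-- the weight of the rows -/
def pb (K : ℕ) (l : List ℂ) : ℝ := (l.map (wX K)).prod

theorem wX0 (K : ℕ) (X : ℂ) : 0 ≤ wX K X :=
  Finset.sum_nonneg fun k _ => zpow_nonneg (norm_nonneg _) k

theorem pb0 (K : ℕ) (l : List ℂ) : 0 ≤ pb K l :=
  List.prod_nonneg (by
    intro x hx
    obtain ⟨X, -, rfl⟩ := List.mem_map.1 hx
    exact wX0 K X)

/-- the size of the values -/
theorem pe_le (K : ℕ) {B : ℝ} : ∀ (l : List ℂ) (c : Multiset ℤ → ℂ),
    (∀ κ, Multiset.card κ = l.length → ‖c κ‖ ≤ B) → ‖pe K l c‖ ≤ pb K l * B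
  | [], c, h => by
    simpa [pe, pb] using h 0 (by simp)
  | X :: l, c, h => by
    have h1 : ∀ k : ℤ, ‖pe K l (fun κ => c (k ::ₘ κ))‖ ≤ pb K l * B := fun k =>
      pe_le K l _ fun κ hκ => h _ (by simp [hκ])
    simp only [pe]
    refine (norm_sum_le _ _).trans ?_
    have e : pb K (X :: l) * B = ∑ k ∈ Kc K, ‖X‖ ^ k * (pb K l * B) := by
      rw [← Finset.sum_mul]
      simp only [pb, wX, List.map_cons, List.prod_cons]
      ring
    rw [e]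
    refine Finset.sum_le_sum fun k _ => ?_
    rw [norm_mul, norm_zpow]
    exact mul_le_mul_of_nonneg_left (h1 k) (zpow_nonneg (norm_nonneg _) _)

theorem sum_bx (K : ℕ) (f : ℤ → ℤ → ℂ) :
    ∑ k ∈ Kc K, ∑ j ∈ Kc K, f k j = ∑ m ∈ Kc (2 * K), ∑ k ∈ bx K m, f k (m - k) := by
  rw [← Finset.sum_product', ← Finset.sum_fiberwise_of_maps_to (g := fun p : ℤ × ℤ => p.1 + p.2)
    (t := Kc (2 * K))]
  · refine Finset.sum_congr rfl fun m _ => ?_
    refine Finset.sum_bij' (fun p _ => p.1) (fun k _ => (k, m - k)) ?_ ?_ ?_ ?_ ?_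
    · intro p hp
      rw [Finset.mem_filter, Finset.mem_product, mem_Kc, mem_Kc] at hp
      rw [mem_bx]
      omega
    · intro k hk
      rw [mem_bx] at hk
      rw [Finset.mem_filter, Finset.mem_product, mem_Kc, mem_Kc]
      simp only
      omega
    · intro p hp
      rw [Finset.mem_filter] at hp
      ext
      · rfl
      · simp only
        omega
    · intro k _
      rfl
    · intro p hp
      rw [Finset.mem_filter] at hp
      have : m - p.1 = p.2 := by omega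
      rw [this]
  · intro p hp
    rw [Finset.mem_product, mem_Kc, mem_Kc] at hp
    rw [mem_Kc]
    push_cast
    omega

theorem pe_two (K : ℕ) (X Y : ℂ) (l : List ℂ) (c : Multiset ℤ → ℂ) :
    pe K (X :: Y :: l) c = ∑ m ∈ Kc (2 * K),
      pe K l (fun κ => ∑ k ∈ bx K m, (X ^ k * Y ^ (m - k)) * c (k ::ₘ (m - k) ::ₘ κ)) := by
  simp only [pe, Finset.mul_sum]
  rw [sum_bx K (fun k j => X ^ k * (Y ^ j * pe K l (fun κ => c (k ::ₘ j ::ₘ κ))))]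
  refine Finset.sum_congr rfl fun m _ => ?_
  rw [pe_sum K (bx K m) (fun k => X ^ k * Y ^ (m - k)) l (fun k κ => c (k ::ₘ (m - k) ::ₘ κ))]
  refine Finset.sum_congr rfl fun k _ => ?_
  ring

/-- one sum over the larger range -/
theorem pe_one (h : RowC c n0 K M e d) (X : ℂ) (l : List ℂ) :
    pe K (X :: l) c = ∑ m ∈ Kc (2 * K), pe K l (fun κ => X ^ m * c (m ::ₘ κ)) := by
  simp only [pe]
  rw [← Finset.sum_subset (s₁ := Kc K) (s₂ := Kc (2 * K))]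
  · exact Finset.sum_congr rfl fun m _ => (pe_smul K _ l _).symm
  · intro m hm
    rw [mem_Kc] at hm ⊢
    push_cast
    omega
  · intro m _ hm
    rw [mem_Kc] at hm
    have e1 : (fun κ => X ^ m * c (m ::ₘ κ)) = fun _ => 0 := funext fun κ => by
      rw [h.supp _ ⟨m, Multiset.mem_cons_self _ _, lt_abs.2 (by omega)⟩, mul_zero]
    rw [e1, pe_zero]

/-- **fusion of values** -/
theorem fus_pe (h : RowC c n0 K M e d) {X : ℂ} (hX : X ≠ 0) (l : List ℂ) (hl : l.length + 2 ≤ n0) :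
    ‖pe K (ze * X :: ze⁻¹ * X :: l) c - pe K (X :: l) c‖ ≤ wX (2 * K) X * (pb K l * d) := by
  rw [pe_two, pe_one h, ← Finset.sum_sub_distrib]
  refine (norm_sum_le _ _).trans ?_
  unfold wX
  rw [Finset.sum_mul]
  refine Finset.sum_le_sum fun m _ => ?_
  rw [← pe_sub]
  have e1 : (fun κ => ∑ k ∈ bx K m, (ze * X) ^ k * (ze⁻¹ * X) ^ (m - k) * c (k ::ₘ (m - k) ::ₘ κ) -
      X ^ m * c (m ::ₘ κ)) = fun κ => X ^ m * ((∑ k ∈ bx K m, ze ^ (2 * k - m) *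
        c (k ::ₘ (m - k) ::ₘ κ)) - c (m ::ₘ κ)) := by
    funext κ
    rw [mul_sub, Finset.mul_sum]
    congr 1
    refine Finset.sum_congr rfl fun k _ => ?_
    rw [mul_zpow, mul_zpow, show m = k + (m - k) by ring, zpow_add₀ hX,
      show 2 * k - (k + (m - k)) = k + -(m - k) by ring, zpow_add₀ ze_ne, inv_zpow, zpow_neg]
    have e2 : k + (m - k) - k = m - k := by ring
    rw [e2]
    ring
  rw [e1, pe_smul, norm_mul, norm_zpow]
  refine mul_le_mul_of_nonneg_left ?_ (zpow_nonneg (norm_nonneg _) _)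
  exact pe_le K l _ fun κ hκ => h.fus κ (by omega) m

/-- **annihilation of values** -/
theorem ann_pe (h : RowC c n0 K M e d) {X : ℂ} (hX : X ≠ 0) (l : List ℂ) (hl : l.length + 2 ≤ n0) :
    ‖pe K (-X :: X :: l) c - pe K l c‖ ≤ wX (2 * K) X * (pb K l * d) := by
  have e0 : pe K l c = ∑ m ∈ Kc (2 * K), pe K l (fun κ => X ^ m * if m = 0 then c κ else 0) := by
    rw [Finset.sum_eq_single (0 : ℤ)]
    · simp
    · intro m _ hm
      have e1 : (fun κ => X ^ m * if m = 0 then c κ else 0) = fun _ => 0 := funext fun κ => by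
        rw [if_neg hm, mul_zero]
      rw [e1, pe_zero]
    · intro h0
      exact absurd (by rw [mem_Kc]; push_cast; omega) h0
  rw [pe_two, e0, ← Finset.sum_sub_distrib]
  refine (norm_sum_le _ _).trans ?_
  unfold wX
  rw [Finset.sum_mul]
  refine Finset.sum_le_sum fun m _ => ?_
  rw [← pe_sub]
  have e1 : (fun κ => ∑ k ∈ bx K m, (-X) ^ k * X ^ (m - k) * c (k ::ₘ (m - k) ::ₘ κ) -
      X ^ m * if m = 0 then c κ else 0) = fun κ => X ^ m * ((∑ k ∈ bx K m, (-1 : ℂ) ^ k *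
        c (k ::ₘ (m - k) ::ₘ κ)) - if m = 0 then c κ else 0) := by
    funext κ
    rw [mul_sub, Finset.mul_sum]
    congr 1
    refine Finset.sum_congr rfl fun k _ => ?_
    rw [neg_eq_neg_one_mul, mul_zpow, show m = k + (m - k) by ring, zpow_add₀ hX]
    have e2 : k + (m - k) - k = m - k := by ring
    rw [e2]
    ring
  rw [e1, pe_smul, norm_mul, norm_zpow]
  refine mul_le_mul_of_nonneg_left ?_ (zpow_nonneg (norm_nonneg _) _)
  exact pe_le K l _ fun κ hκ => h.ann κ (by omega) m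

/-- swap of the two exponents of a pair -/
def s01 : I4 ≃ I4 where
  toFun p := (p.2.1, p.1, p.2.2)
  invFun p := (p.2.1, p.1, p.2.2)
  left_inv _ := rfl
  right_inv _ := rfl
def s23 : I4 ≃ I4 where
  toFun p := (p.1, p.2.1, p.2.2.2, p.2.2.1)
  invFun p := (p.1, p.2.1, p.2.2.2, p.2.2.1)
  left_inv _ := rfl
  right_inv _ := rfl

theorem m4_s01 (p : I4) : m4 (s01 p) = m4 p := Multiset.cons_swap _ _ _

theorem m4_s23 (p : I4) : m4 (s23 p) = m4 p := by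
  unfold m4
  simp only [s23, Equiv.coe_fn_mk]
  rw [Multiset.cons_swap p.2.2.2]

theorem B4_s01 (p : I4) : p ∈ B4 K ↔ s01 p ∈ B4 K := by
  rw [mem_B4, mem_B4]
  simp only [s01, Equiv.coe_fn_mk]
  tauto

theorem B4_s23 (p : I4) : p ∈ B4 K ↔ s23 p ∈ B4 K := by
  rw [mem_B4, mem_B4]
  simp only [s23, Equiv.coe_fn_mk]
  tauto

/-- the plain sum of the values -/
theorem pe_B4 (h : RowC c n0 K M e d) (X1 X2 X3 X4 : ℂ) :
    pe K [X1, X2, X3, X4] c = ∑ p ∈ B4 K, c (m4 p) * (X1 ^ p.1 * X2 ^ p.2.1 * (X3 ^ p.2.2.1 *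
      X4 ^ p.2.2.2)) := by
  have hs : Kc K ⊆ Ic K := by
    intro k hk
    rw [mem_Kc] at hk
    rw [mem_Ic, abs_le]
    omega
  have ho : ∀ k ∉ Kc K, (K : ℤ) < |k| := by
    intro k hk
    rw [mem_Kc] at hk
    exact lt_abs.2 (by omega)
  unfold B4
  rw [Finset.sum_product]
  simp only [Finset.sum_product, pe, Finset.mul_sum]
  rw [Finset.sum_subset hs (by
    intro a _ ha
    refine Finset.sum_eq_zero fun b _ => Finset.sum_eq_zero fun c' _ =>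
      Finset.sum_eq_zero fun d' _ => ?_
    rw [h.supp _ ⟨a, by simp, ho a ha⟩]
    ring)]
  refine Finset.sum_congr rfl fun a _ => ?_
  rw [Finset.sum_subset hs (by
    intro b _ hb
    refine Finset.sum_eq_zero fun c' _ => Finset.sum_eq_zero fun d' _ => ?_
    rw [h.supp _ ⟨b, by simp, ho b hb⟩]
    ring)]
  refine Finset.sum_congr rfl fun b _ => ?_
  rw [Finset.sum_subset hs (by
    intro b _ hb
    refine Finset.sum_eq_zero fun d' _ => ?_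
    rw [h.supp _ ⟨b, by simp, ho b hb⟩]
    ring)]
  refine Finset.sum_congr rfl fun x _ => ?_
  rw [Finset.sum_subset hs (by
    intro b _ hb
    rw [h.supp _ ⟨b, by simp, ho b hb⟩]
    ring)]
  refine Finset.sum_congr rfl fun y _ => ?_
  unfold m4
  ring

/-- **the value at two pairs** -/
theorem Q_eq (h : RowC c n0 K M e d) {X r : ℂ} (hX : X ≠ 0) (hr : r ≠ 0) :
    Q c K (X + X⁻¹) (r + r⁻¹) = pe K [X, X⁻¹, r, r⁻¹] c := by
  rw [pe_B4 h]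
  obtain ⟨F, hF⟩ : ∃ F : ℂ → ℂ → I4 → ℂ, F = fun X r p =>
    c (m4 p) * (X ^ (p.1 - p.2.1) * r ^ (p.2.2.1 - p.2.2.2)) := ⟨_, rfl⟩
  have e0 : ∀ p : I4, c (m4 p) * (X ^ p.1 * X⁻¹ ^ p.2.1 * (r ^ p.2.2.1 * r⁻¹ ^ p.2.2.2)) =
      F X r p := by
    intro p
    rw [hF]
    simp only
    rw [zpow_sub₀ hX, zpow_sub₀ hr, inv_zpow, inv_zpow]
    rfl
  have e1 : ∀ (X r : ℂ), X ≠ 0 → ∑ p ∈ B4 K, F X⁻¹ r p = ∑ p ∈ B4 K, F X r p := by
    intro X r hX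
    refine Finset.sum_equiv s01 (fun p => B4_s01 p) fun p _ => ?_
    rw [hF]
    simp only
    rw [m4_s01]
    simp only [s01, Equiv.coe_fn_mk]
    rw [inv_zpow', neg_sub]
  have e2 : ∀ (X r : ℂ), r ≠ 0 → ∑ p ∈ B4 K, F X r⁻¹ p = ∑ p ∈ B4 K, F X r p := by
    intro X r hX
    refine Finset.sum_equiv s23 (fun p => B4_s23 p) fun p _ => ?_
    rw [hF]
    simp only
    rw [m4_s23]
    simp only [s23, Equiv.coe_fn_mk]
    rw [inv_zpow', neg_sub]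
  have e3 : Q c K (X + X⁻¹) (r + r⁻¹) = 1 / 4 * (∑ p ∈ B4 K, F X r p + ∑ p ∈ B4 K, F X⁻¹ r p +
      ∑ p ∈ B4 K, F X r⁻¹ p + ∑ p ∈ B4 K, F X⁻¹ r⁻¹ p) := by
    unfold Q
    rw [← Finset.sum_add_distrib, ← Finset.sum_add_distrib, ← Finset.sum_add_distrib]
    refine congrArg (fun z : ℂ => 1 / 4 * z) (Finset.sum_congr rfl fun p _ => ?_)
    rw [Cc_val _ hX, Cc_val _ hr, hF]
    simp only
    rw [inv_zpow', inv_zpow']
    ring
  rw [e3, e1 X r⁻¹ hX, e1 X r hX, e2 X r hr]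
  rw [Finset.sum_congr rfl fun p _ => e0 p]
  ring

/-- **`a = 1`: one pair is one row** -/
theorem Q_one (h : RowC c n0 K M e d) (hn : 5 ≤ n0) {r : ℂ} (hr : r ≠ 0) :
    ‖Q c K 1 (r + r⁻¹) - pe K [1, r, r⁻¹] c‖ ≤ wX (2 * K) 1 * (pb K [r, r⁻¹] * d) := by
  have e1 : (1 : ℂ) = ze + ze⁻¹ := by rw [ze_inv]; ring
  have h1 := fus_pe h (X := 1) one_ne_zero [r, r⁻¹] (by simp; omega)
  rw [mul_one, mul_one, ← Q_eq h ze_ne hr, ← e1] at h1
  exact h1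

/-- **`a = 0`: one pair disappears** -/
theorem Q_zero (h : RowC c n0 K M e d) (hn : 4 ≤ n0) {r : ℂ} (hr : r ≠ 0) :
    ‖Q c K 0 (r + r⁻¹) - pe K [r, r⁻¹] c‖ ≤ wX (2 * K) I * (pb K [r, r⁻¹] * d) := by
  have e1 : (0 : ℂ) = -I + (-I)⁻¹ := by
    rw [inv_neg, inv_I]
    ring
  have e2 : (-I)⁻¹ = I := by
    rw [inv_neg, inv_I, neg_neg]
  have h1 := ann_pe h (X := I) I_ne_zero [r, r⁻¹] (by simp; omega)
  have h2 := Q_eq h (X := -I) (neg_ne_zero.2 I_ne_zero) hr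
  rw [← e1, e2] at h2
  rw [← h2] at h1
  exact h1

/-- **exchange, values**: two pairs for two pairs -/
theorem EX_two (h : RowC c n0 K M e d) (hn : 6 ≤ n0) {X r X' r' : ℂ} (hX : X ≠ 0) (hr : r ≠ 0)
    (hX' : X' ≠ 0) (hr' : r' ≠ 0) (ha : ‖X + X⁻¹‖ ≤ 4) (hb : ‖r + r⁻¹‖ ≤ 4)
    (ha' : ‖X' + X'⁻¹‖ ≤ 4) (hb' : ‖r' + r'⁻¹‖ ≤ 4)
    (hab : X + X⁻¹ + (r + r⁻¹) = X' + X'⁻¹ + (r' + r'⁻¹)) :
    ‖pe K [X, X⁻¹, r, r⁻¹] c - pe K [X', X'⁻¹, r', r'⁻¹] c‖ ≤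
      CE K * et M e d * ‖(X + X⁻¹) - (X' + X'⁻¹)‖ := by
  rw [← Q_eq h hX hr, ← Q_eq h hX' hr']
  exact EX h hn ha hb ha' hb' hab

/-- **exchange, values**: one pair for one row `0` (`X = 1`) -/
theorem EX_one (h : RowC c n0 K M e d) (hn : 6 ≤ n0) {X r r' : ℂ} (hX : X ≠ 0) (hr : r ≠ 0)
    (hr' : r' ≠ 0) (ha : ‖X + X⁻¹‖ ≤ 4) (hb : ‖r + r⁻¹‖ ≤ 4) (hb' : ‖r' + r'⁻¹‖ ≤ 4)
    (hab : X + X⁻¹ + (r + r⁻¹) = 1 + (r' + r'⁻¹)) :
    ‖pe K [X, X⁻¹, r, r⁻¹] c - pe K [1, r', r'⁻¹] c‖ ≤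
      CE K * et M e d * ‖(X + X⁻¹) - 1‖ + wX (2 * K) 1 * (pb K [r', r'⁻¹] * d) := by
  rw [← Q_eq h hX hr]
  refine (norm_sub_le_norm_sub_add_norm_sub _ (Q c K 1 (r' + r'⁻¹)) _).trans (add_le_add
    (EX h hn ha hb (by norm_num) hb' hab) (Q_one h (by omega) hr'))

/-- **exchange, values**: one pair for no row -/
theorem EX_zero (h : RowC c n0 K M e d) (hn : 6 ≤ n0) {X r r' : ℂ} (hX : X ≠ 0) (hr : r ≠ 0)
    (hr' : r' ≠ 0) (ha : ‖X + X⁻¹‖ ≤ 4) (hb : ‖r + r⁻¹‖ ≤ 4) (hb' : ‖r' + r'⁻¹‖ ≤ 4)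
    (hab : X + X⁻¹ + (r + r⁻¹) = r' + r'⁻¹) :
    ‖pe K [X, X⁻¹, r, r⁻¹] c - pe K [r', r'⁻¹] c‖ ≤
      CE K * et M e d * ‖X + X⁻¹‖ + wX (2 * K) I * (pb K [r', r'⁻¹] * d) := by
  rw [← Q_eq h hX hr]
  have h1 := EX h hn ha hb (a' := 0) (b' := r' + r'⁻¹) (by norm_num) hb' (by rw [hab, zero_add])
  rw [sub_zero] at h1
  exact (norm_sub_le_norm_sub_add_norm_sub _ (Q c K 0 (r' + r'⁻¹)) _).trans (add_le_add
    h1 (Q_zero h (by omega) hr'))

end IST.Row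

end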