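import Pool.Agent.IST.CrudeB
import Pool.Agent.IST.ConfS
import Pool.Agent.PotH.S4H

/-!
# The gas in the presence of objects and groups, with a bounded potential

* `bdΨ`: the statistic of a bounded potential: exponential of its value on the quanta minus its mean
  field value, and a constant factor for every object;
* **`crudeBd`**: the crude bound of `lhsH` with this statistic, every bounded potential of finite energy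
  (no decay, no place).
-/

set_option autoImplicit false
set_option linter.unusedSectionVars false

noncomputable section

open MeasureTheory Finset Filter Topology
open scoped ENNReal

namespace PotH

open NUGC
open NUO (Xo kd ht Par Tb TW excS chgO PG slkK cons exc)
open NUSea.H0 (Inp Gd TG BF BF1 cstF aR datO DatC SpI hfar cfP RemOk bdP bdMF)
open NUStabP (enC)
open NUDispW (win)
open PBZ (Z1S)

variable [NUSea.Sea]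

/-- **the statistic of a bounded potential**: `C` the constant for every object -/
def bdΨ (m : ℕ) (C : ℝ) (ψ : Bool → ℝ → ℝ) (r : ℕ) {p q : ℕ} (y : (Fin p → ℝ) × (Fin q → ℝ)) : ℝ≥0∞ :=
  ENNReal.ofReal (Real.exp (bdP ψ y - bdMF m ψ - C * (1 + r)))

/-- **the crude bound with a bounded potential**: every number of objects, every height of objects and groups;
`K1`: the constant in front of the local factors of the objects, before `kap`, `ep`, `e1` -/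
theorem crudeBd_of (hD : DatGH) : ∀ B0 N0 : ℝ, 0 ≤ B0 → 0 ≤ N0 → ∃ K K1 : ℝ, 0 ≤ K ∧ 0 ≤ K1 ∧
    ∀ kap : ℝ, 0 < kap →
    ∀ ep : ℝ, 0 < ep → ep ≤ 1 / 100 → ∀ e1 : ℝ, 0 < e1 → e1 ≤ 1 / 100 →
    ∀ Cc C0 : ℝ, 1 ≤ Cc → 1 ≤ C0 → ∀ δ : ℝ, 0 < δ → ∃ C1 : ℝ, 0 ≤ C1 ∧ ∀ x0 : ℝ, 0 < x0 →
    ∃ d Cst : ℝ, 0 < d ∧ 0 ≤ Cst ∧ ∃ m0 : ℕ, ∀ m : ℕ, m0 ≤ m →
    ∀ (n : ℕ) (η η1 cr Bc Bc' : ℝ → ℝ) (H H' : Bool → ℝ → ℝ) (B : OB) (g : Fin n → Gd),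
    EnvH ep e1 Cc C0 B0 N0 d m η η1 cr Bc Bc' H H' B g →
    ∀ (aX aY : ℕ) (nu : ℝ) (N : ℕ) (b' : ℝ) (r : ℕ) (O : Fin r → Xo) (E x : ℝ), |b'| ≤ d →
      RgH ep e1 m g aX aY nu N O E x →
      ∀ (s : ℕ) (Er : ℝ), 0 ≤ Er → ∀ ψ : Bool → ℝ → ℝ, RemOk s Er ψ →
      lhsH B m η η1 aX aY nu N b' O (bdΨ m (K1 * s) ψ r) ≤
        ENNReal.ofReal (prefH m g E x Cst * (m : ℝ) ^ (7 / 8 + 2 * (ep + e1) + δ) *
          Real.exp (confEH m η (TW ep e1 m) K kap O - 1 / 10 * excS (TW ep e1 m) O +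
            linH η η1 m g (T1H ep e1 m O E) H +
            enH m g O (T1H ep e1 m O E) (N + aX - chgO O true) (N + aY - chgO O false))) *
        ENNReal.ofReal (Real.exp (C1 * (s + Er) + x0 * (s : ℝ) ^ 2)) := by
  intro B0 N0 hB0 hN0
  obtain ⟨KR, CW, hKR, hCW, hC⟩ := exists_confS hD hB0 hN0
  obtain ⟨K10, hK10, hG0⟩ := NUSea.H0.crudeB hCW 0
  obtain ⟨K11, hK11, hG1⟩ := NUSea.H0.crudeB hCW 1
  obtain ⟨K12, hK12, hG2⟩ := NUSea.H0.crudeB hCW 2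
  obtain ⟨K1, hK1⟩ : ∃ K1, K1 = K10 + K11 + K12 := ⟨_, rfl⟩
  have hK1' : 0 ≤ K1 := by
    rw [hK1]
    positivity
  refine ⟨6 + KR, K1, by positivity, hK1', ?_⟩
  intro kap hkap ep hep hep1 e1 he he1 Cc C0 hCc hC0 δ hδ
  -- one number of groups
  obtain ⟨F, hF⟩ : ∃ F : ℕ → ℝ → ℝ → ℝ → ℝ → ℕ → Prop, F = fun G C1 x0 d Cst m0 =>
    ∀ m : ℕ, m0 ≤ m →
      ∀ (η η1 cr Bc Bc' : ℝ → ℝ) (H H' : Bool → ℝ → ℝ) (B : OB) (g : Fin G → Gd),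
      EnvH ep e1 Cc C0 B0 N0 d m η η1 cr Bc Bc' H H' B g →
      ∀ (aX aY : ℕ) (nu : ℝ) (N : ℕ) (b' : ℝ) (r : ℕ) (O : Fin r → Xo) (E x : ℝ), |b'| ≤ d →
      RgH ep e1 m g aX aY nu N O E x →
      ∀ (s : ℕ) (Er : ℝ), 0 ≤ Er → ∀ ψ : Bool → ℝ → ℝ, RemOk s Er ψ →
      lhsH B m η η1 aX aY nu N b' O (bdΨ m (K1 * s) ψ r) ≤
        ENNReal.ofReal (prefH m g E x Cst * (m : ℝ) ^ (7 / 8 + 2 * (ep + e1) + δ) *
          Real.exp (confEH m η (TW ep e1 m) (6 + KR) kap O - 1 / 10 * excS (TW ep e1 m) O +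
            linH η η1 m g (T1H ep e1 m O E) H +
            enH m g O (T1H ep e1 m O E) (N + aX - chgO O true) (N + aY - chgO O false))) *
        ENNReal.ofReal (Real.exp (C1 * (s + Er) + x0 * (s : ℝ) ^ 2)) := ⟨_, rfl⟩
  have key : ∀ (G : ℕ) (KG : ℝ), G ≤ 2 → KG ≤ K1 →
      (∀ {ep : ℝ}, 0 < ep → ep ≤ 1 / 100 → ∀ {e1 : ℝ}, 0 < e1 → e1 ≤ 1 / 100 → ∀ {δ : ℝ}, 0 < δ →
    ∀ (k : ℕ) {κ CB : ℝ}, 0 < κ → 0 ≤ CB →
    ∃ C1 : ℝ, 0 ≤ C1 ∧ ∀ kap : ℝ, 0 < kap → ∀ x0 : ℝ, 0 < x0 →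
    ∃ ϑ Cst : ℝ, 0 < ϑ ∧ 0 ≤ Cst ∧ ∃ m0 : ℕ, ∀ m ≥ m0,
      ∀ (I : Inp) (P : Par) (r : ℕ) (O : Fin r → Xo) (g : Fin G → ℝ) (p n : ℕ)
        (aX aY cf B1 : ℝ → ℝ) (T1 D q S : ℝ),
      DatC ep e1 κ CB ϑ k m I P O g p n aX aY cf B1 T1 D q S →
      (∀ a t, |I.ν a t| ≤ CW * ∑ j, Real.exp (-(5 / 2 * |t - g j|))) →
      ∀ (s : ℕ) (E : ℝ), 0 ≤ E → ∀ ψ : Bool → ℝ → ℝ, RemOk s E ψ →
        ∫⁻ y, ENNReal.ofReal (NUSea.H0.W0 (datO I P O) p n aX aY cf y) *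
            ENNReal.ofReal (Real.exp (bdP ψ y -
              ∑ a, (∫ t, (datO I P O).ρ t * ψ a t) - KG * s * (1 + r))) ≤
          ENNReal.ofReal ((p.factorial : ℝ) * n.factorial *
            (Cst * (m : ℝ) ^ (7 / 8 + 2 * (ep + e1) + δ) * (1 + S) *
              Real.exp (NUSea.H0.confC ep e1 m I P p n 6 kap O T1))) *
          ENNReal.ofReal (Real.exp (C1 * (s + E) + x0 * (s : ℝ) ^ 2))) →
      ∃ C1 : ℝ, 0 ≤ C1 ∧ ∀ x0 : ℝ, 0 < x0 →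
        ∃ d Cst : ℝ, 0 < d ∧ 0 ≤ Cst ∧ ∃ m0 : ℕ, 1 ≤ m0 ∧ F G C1 x0 d Cst m0 := by
    intro G KG hG2 hKG hG
    obtain ⟨k, κ, CB, w, hκ, hCB, -, -, hC⟩ := hC G hG2 kap hkap ep hep hep1 e1 he he1 Cc C0 hCc hC0
    obtain ⟨C1, hC1, hG⟩ := hG hep hep1 he he1 hδ k hκ hCB
    refine ⟨C1, hC1, fun x0 hx0 => ?_⟩
    obtain ⟨ϑ, Cst, hϑ, hCst, m1, hG⟩ := hG (kap / 2) (by positivity) x0 hx0
    obtain ⟨d, CR, hd, hd1, hCR, m2, hC⟩ := hC ϑ hϑ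
    refine ⟨d, (Cst + 1) * CR, hd, by positivity, max (max m1 m2) 1, le_max_right _ _, ?_⟩
    rw [hF]
    intro m hm η η1 cr Bc Bc' Hp Hp' B g hE aX aY nu N b' r O E x hb' hR s Er hEr ψ hψ
    have hm1 : m1 ≤ m := ((le_max_left _ _).trans (le_max_left _ _)).trans hm
    have hm2 : m2 ≤ m := ((le_max_right _ _).trans (le_max_left _ _)).trans hm
    obtain ⟨B1, D, hc, hw, hν, hτ⟩ := hC m hm2 η η1 cr Bc Bc' Hp Hp' B g hE aX aY nu N b' r O E x hb' hR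
    have h1 := hG m hm1 _ _ r O _ _ _ _ _ _ _ _ _ _ _ hc.dat hν s Er hEr ψ hψ
    have hs0 : (0 : ℝ) ≤ s := Nat.cast_nonneg s
    have hr0 : (0 : ℝ) ≤ r := Nat.cast_nonneg r
    refine hc.red 6 Cst _ hCst _ _ (le_trans (lintegral_mono fun y => ?_) h1)
    refine mul_le_mul' le_rfl (ENNReal.ofReal_le_ofReal (Real.exp_le_exp.2 ?_))
    have h2 : KG * s * (1 + r) ≤ K1 * s * (1 + r) := by gcongr
    have h3 : bdMF m ψ = ∑ a, (∫ t, (datO (inH η η1 m (T1H ep e1 m O E) b' g B1 Hp)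
      (NUSea.O.par0 m) O).ρ t * ψ a t) := rfl
    rw [h3]
    linarith
  obtain ⟨c0, hc0, k0⟩ := key 0 K10 (by norm_num) (by rw [hK1]; linarith) hG0
  obtain ⟨c1, hc1, k1⟩ := key 1 K11 (by norm_num) (by rw [hK1]; linarith) hG1
  obtain ⟨c2, hc2, k2⟩ := key 2 K12 (by norm_num) (by rw [hK1]; linarith) hG2
  refine ⟨c0 + c1 + c2, by positivity, fun x0 hx0 => ?_⟩
  obtain ⟨d0, C0', hd0, hC0', m0, hm0, k0⟩ := k0 x0 hx0
  obtain ⟨d1, C1', hd1, hC1', m1, hm1, k1⟩ := k1 x0 hx0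
  obtain ⟨d2, C2', hd2, hC2', m2, hm2, k2⟩ := k2 x0 hx0
  rw [hF] at k0 k1 k2
  refine ⟨min d0 (min d1 d2), C0' + C1' + C2', lt_min hd0 (lt_min hd1 hd2), by positivity,
    max m0 (max m1 m2), ?_⟩
  intro m hm n η η1 cr Bc Bc' Hp Hp' B g hE aX aY nu N b' r O E x hb' hR s Er hEr ψ hψ
  have hM0 : m0 ≤ m := (le_max_left _ _).trans hm
  have hM1 : m1 ≤ m := ((le_max_left _ _).trans (le_max_right _ _)).trans hm
  have hM2 : m2 ≤ m := ((le_max_right _ _).trans (le_max_right _ _)).trans hm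
  have h1m : 1 ≤ m := hm0.trans hM0
  have hs0 : (0 : ℝ) ≤ s := Nat.cast_nonneg s
  have hR' : ∀ {c C Cs Cs' : ℝ}, 0 ≤ Cs → c ≤ C → Cs ≤ Cs' → ∀ Z : ℝ,
      ENNReal.ofReal (prefH m g E x Cs * (m : ℝ) ^ (7 / 8 + 2 * (ep + e1) + δ) * Real.exp Z) *
        ENNReal.ofReal (Real.exp (c * (s + Er) + x0 * (s : ℝ) ^ 2)) ≤
      ENNReal.ofReal (prefH m g E x Cs' * (m : ℝ) ^ (7 / 8 + 2 * (ep + e1) + δ) * Real.exp Z) *
        ENNReal.ofReal (Real.exp (C * (s + Er) + x0 * (s : ℝ) ^ 2)) := by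
    intro c C Cs Cs' hCs hcC hCC Z
    refine mul_le_mul' (rhsH_mono h1m hCs hCC le_rfl le_rfl)
      (ENNReal.ofReal_le_ofReal (Real.exp_le_exp.2 ?_))
    have h1 : c * (s + Er) ≤ C * (s + Er) := by gcongr
    linarith
  have hn := hR.n2
  interval_cases n
  · exact (k0 m hM0 η η1 cr Bc Bc' Hp Hp' B g (hE.mono (min_le_left _ _))
      aX aY nu N b' r O E x (hb'.trans (min_le_left _ _)) hR s Er hEr ψ hψ).trans
      (hR' hC0' (by linarith) (by linarith) _)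
  · have hd : min d0 (min d1 d2) ≤ d1 := (min_le_right _ _).trans (min_le_left _ _)
    exact (k1 m hM1 η η1 cr Bc Bc' Hp Hp' B g (hE.mono hd)
      aX aY nu N b' r O E x (hb'.trans hd) hR s Er hEr ψ hψ).trans
      (hR' hC1' (by linarith) (by linarith) _)
  · have hd : min d0 (min d1 d2) ≤ d2 := (min_le_right _ _).trans (min_le_right _ _)
    exact (k2 m hM2 η η1 cr Bc Bc' Hp Hp' B g (hE.mono hd)
      aX aY nu N b' r O E x (hb'.trans hd) hR s Er hEr ψ hψ).trans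
      (hR' hC2' (by linarith) (by linarith) _)

/-- **the crude bound with a bounded potential** -/
theorem crudeBd : ∀ B0 N0 : ℝ, 0 ≤ B0 → 0 ≤ N0 → ∃ K K1 : ℝ, 0 ≤ K ∧ 0 ≤ K1 ∧
    ∀ kap : ℝ, 0 < kap →
    ∀ ep : ℝ, 0 < ep → ep ≤ 1 / 100 → ∀ e1 : ℝ, 0 < e1 → e1 ≤ 1 / 100 →
    ∀ Cc C0 : ℝ, 1 ≤ Cc → 1 ≤ C0 → ∀ δ : ℝ, 0 < δ → ∃ C1 : ℝ, 0 ≤ C1 ∧ ∀ x0 : ℝ, 0 < x0 →
    ∃ d Cst : ℝ, 0 < d ∧ 0 ≤ Cst ∧ ∃ m0 : ℕ, ∀ m : ℕ, m0 ≤ m →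
    ∀ (n : ℕ) (η η1 cr Bc Bc' : ℝ → ℝ) (H H' : Bool → ℝ → ℝ) (B : OB) (g : Fin n → Gd),
    EnvH ep e1 Cc C0 B0 N0 d m η η1 cr Bc Bc' H H' B g →
    ∀ (aX aY : ℕ) (nu : ℝ) (N : ℕ) (b' : ℝ) (r : ℕ) (O : Fin r → Xo) (E x : ℝ), |b'| ≤ d →
      RgH ep e1 m g aX aY nu N O E x →
      ∀ (s : ℕ) (Er : ℝ), 0 ≤ Er → ∀ ψ : Bool → ℝ → ℝ, RemOk s Er ψ →
      lhsH B m η η1 aX aY nu N b' O (bdΨ m (K1 * s) ψ r) ≤
        ENNReal.ofReal (prefH m g E x Cst * (m : ℝ) ^ (7 / 8 + 2 * (ep + e1) + δ) *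
          Real.exp (confEH m η (TW ep e1 m) K kap O - 1 / 10 * excS (TW ep e1 m) O +
            linH η η1 m g (T1H ep e1 m O E) H +
            enH m g O (T1H ep e1 m O E) (N + aX - chgO O true) (N + aY - chgO O false))) *
        ENNReal.ofReal (Real.exp (C1 * (s + Er) + x0 * (s : ℝ) ^ 2)) := crudeBd_of datGH

end PotH

end
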