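import Pool.Agent.IST.S4S
import Pool.Agent.IST.TopRW
import Pool.Agent.PB.S4I0

/-!
# The gas with the statistic of a source: the form for the sum over the configurations

* `SrcI`: index of a source; `srcΦ C X`: its statistic divided by its price, `m ^ (-1/2)`;
* **`s4Src`**: `PBI.S4fix` for all sources, the constant `K1` of the local factors of the objects before
  `kap`, `ep`, `e1`, `J`;
* **`s4Src0`**: the same without local factors, for a price `exp (X s²)`.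
-/

set_option autoImplicit false
set_option linter.unusedSectionVars false

noncomputable section

open MeasureTheory Finset Filter Topology
open scoped ENNReal

namespace PBI

open NUGC PBO PBF PotH
open NUO NUP1 NUStabP NUDispW
open NUSea.H0 (Gd SrcOk RemD srcP srcEn gasP srcMF srcO locO)

variable [NUSea.Sea]

/-- index of a source: size, size and energy of the remainder, densities, splitting, remainder -/
structure SrcI where
  /-- the size -/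
  s : ℕ
  /-- the size of the remainder -/
  s' : ℝ
  /-- the energy of the remainder -/
  E : ℝ
  /-- the densities -/
  ν : Bool → ℝ → ℝ
  /-- the splitting -/
  τ : ℝ → ℝ
  /-- the remainder -/
  ψ : Bool → ℝ → ℝ

/-- admissible sources -/
structure SrcI.Ok (i : SrcI) : Prop where
  src : SrcOk i.s i.ν i.τ
  rem : RemD i.s' i.E i.ψ
  e0 : 0 ≤ i.E
  le : i.s' ≤ i.s

/-- the exponent of the price -/
def SrcI.X (C x0 : ℝ) (i : SrcI) : ℝ := srcX C x0 i.ν i.τ i.s i.s' i.E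

/-- **the statistic of a source, divided by its price**: `K1` the constant of the local factors -/
def srcΦ (K1 C x0 : ℝ) (i : SrcI) (m _N : ℕ) : InsE := fun _ O _ _ y =>
  ENNReal.ofReal ((m : ℝ) ^ (-(1 / 2 : ℝ)) * Real.exp (-i.X C x0)) *
    srcΨ m (K1 * (i.s + i.s')) i.ν i.τ i.ψ O y

/-- **the gas with the statistic of a source** -/
theorem s4Src {G : Geo} (hG : GOk G) : ∃ K K1 : ℝ, 0 ≤ K ∧ 0 ≤ K1 ∧
    ∀ kap : ℝ, 0 < kap → ∀ ep : ℝ, 0 < ep → ep ≤ 1 / 100 → ∀ e1 : ℝ, 0 < e1 → e1 ≤ 1 / 100 →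
    ∀ J : ℝ, 0 ≤ J → ∀ δ : ℝ, 0 < δ → ∃ C1 : ℝ, 0 ≤ C1 ∧ ∀ x0 : ℝ, 0 < x0 →
      S4fix G (fun _ (i : SrcI) => i.Ok) (srcΦ K1 C1 x0) K 3 kap ep e1 J δ := by
  obtain ⟨B0, N0, hB0, hN0, henv⟩ := hG.env
  obtain ⟨K, K1, hK, hK1, h4⟩ := crudeSrc B0 N0 hB0 hN0
  obtain ⟨K2, hK2, hone⟩ := hG.one
  obtain ⟨CP, hCP, hpref⟩ := hG.pref_le
  refine ⟨K + K2, K1, by linarith, hK1, ?_⟩
  intro kap hkap ep hep hep1 e1 he he1 J hJ δ hδ
  obtain ⟨Cc, C0, hCc, hC0, CL, m1, henv⟩ := henv ep hep hep1 e1 he he1 J hJ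
  obtain ⟨m3, hone⟩ := hone ep hep hep1 e1 he he1 J hJ
  obtain ⟨C1, hC1, h4⟩ := h4 kap hkap ep hep hep1 e1 he he1 Cc C0 hCc hC0 δ hδ
  refine ⟨C1, hC1, fun x0 hx0 => ?_⟩
  obtain ⟨d, Cst, hd, hCst, M0, h4⟩ := h4 x0 hx0
  refine ⟨d, Cst * Real.exp (CP + CL), hd, by positivity, max (max M0 m1) m3, ?_⟩
  intro m hm n g aX aY ν N b' r O hb' hR hnear i hok
  simp only [ge_iff_le, max_le_iff] at hm
  obtain ⟨⟨g0, g1⟩, g4⟩ := hm
  obtain ⟨hm1, hT, cr, Bc, Bc', H, H', hE, hlin⟩ := henv m g1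
  have hmp : (0 : ℝ) < m := by exact_mod_cast hm1
  have hb : |b'| ≤ d := by
    rcases hb' with h | h
    · rw [h, abs_of_pos hd]
    · rw [h, abs_neg, abs_of_pos hd]
  have hRH : RgH ep e1 m g aX aY ν N O 0 0 :=
    { n2 := hR.n2, sp := hR.sp, ax := hR.ax, ay := hR.ay, q := hR.q
      nu := hR.nu.trans (by norm_num), hN := hR.hN.trans (by omega), hr := hR.hr, hc1 := hR.hc1
      hc2 := hR.hc2, E0 := le_rfl, hE := hR.hE, x0 := le_rfl, hx := hR.hx }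
  have key := h4 m g0 n (etaC e1 J m m) (etaC' e1 J m m) cr Bc Bc' H H'
    ((G.B m (4 / 3 * (1 - ep))).mul (spF g)) g (hE n g d hd.le) aX aY ν N b' r O 0 0 hb hRH
    i.s i.s' i.E hok.e0 hok.le i.ν i.τ i.ψ hok.src hok.rem
  -- the constant factor
  obtain ⟨c, hc⟩ : ∃ c : ℝ, c = (m : ℝ) ^ (-(1 / 2 : ℝ)) * Real.exp (-i.X C1 x0) := ⟨_, rfl⟩
  have hc0 : 0 ≤ c := by
    rw [hc]
    positivity
  have hleft : lhsI G ep e1 J m g aX aY ν N b' O (srcΦ K1 C1 x0 i m N) =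
      ENNReal.ofReal c * lhsH ((G.B m (4 / 3 * (1 - ep))).mul (spF g)) m (etaC e1 J m m)
        (etaC' e1 J m m) aX aY ν N b' O (srcΨ m (K1 * (i.s + i.s')) i.ν i.τ i.ψ O) := by
    unfold lhsI srcΦ
    rw [← hc, gasI_const _ _ _ _ _ _ _ ENNReal.ofReal_ne_top]
    unfold lhsH
    rw [← mul_assoc, mul_comm (ENNReal.ofReal (Real.exp _)), mul_assoc]
    rfl
  rw [hleft]
  refine (mul_le_mul' le_rfl key).trans ?_
  rw [← ENNReal.ofReal_mul' (Real.exp_pos _).le, ← ENNReal.ofReal_mul hc0]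
  refine ENNReal.ofReal_le_ofReal ?_
  -- the numbers
  have hT1 : (1 - e1) * Tb (Real.log m) ≤ T1H ep e1 m O 0 :=
    (PBO.TW_geR hep he hT).trans (TW_le ep e1 m O le_rfl).1
  have hlin := hlin n g _ hT1
  have hconf := confEH_le (G := G) (K := K) (kap := kap) O fun i => hone m g4 r O i
  have hen : enH m g O (T1H ep e1 m O 0) (N + aX - chgO O true) (N + aY - chgO O false) =
      enR m g O (T1R ep e1 m O 0) (N + aX - chgO O true) (N + aY - chgO O false) := rfl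
  rw [hen]
  obtain ⟨EN, hEN⟩ : ∃ EN, EN = enR m g O (T1R ep e1 m O 0) (N + aX - chgO O true)
    (N + aY - chgO O false) := ⟨_, rfl⟩
  rw [← hEN]
  have hp := hpref m n g hR.n2
  obtain ⟨CF, hCF⟩ : ∃ CF, CF = confEH m (etaC e1 J m m) (TW ep e1 m) K kap O -
    1 / 10 * excS (TW ep e1 m) O + EN := ⟨_, rfl⟩
  obtain ⟨CR, hCR⟩ : ∃ CR, CR = confR G m ep e1 J (K + K2) kap O + EN := ⟨_, rfl⟩
  have hexc := NUO.excS_nonneg (TW ep e1 m) O
  have hcc : CF ≤ CR := by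
    rw [hCF, hCR]
    linarith
  have hpa := pref_alg (G := G) hm1 (g := g) (E := 0) (x := 0) (F1 := 1) (F2 := 1)
    (a := 1 / 2 + 2 * (ep + e1) + δ) (a' := 1 / 2 + (3 * (ep + e1) + δ)) hCst le_rfl zero_le_one
    hp hlin hcc (by linarith)
  rw [← hCR]
  have e3 : confEH m (etaC e1 J m m) (TW ep e1 m) K kap O - 1 / 10 * excS (TW ep e1 m) O +
      linH (etaC e1 J m m) (etaC' e1 J m m) m g (T1H ep e1 m O 0) H + EN =
      CF + linH (etaC e1 J m m) (etaC' e1 J m m) m g (T1H ep e1 m O 0) H := by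
    rw [hCF]
    ring
  rw [e3]
  rw [mul_one, mul_one] at hpa
  have e4 : (7 / 8 + 2 * (ep + e1) + δ : ℝ) = 3 / 8 + (1 / 2 + 2 * (ep + e1) + δ) := by ring
  rw [e4]
  obtain ⟨V, hV⟩ : ∃ V, V = prefH m g 0 0 Cst * (m : ℝ) ^ (3 / 8 + (1 / 2 + 2 * (ep + e1) + δ)) *
    Real.exp (CF + linH (etaC e1 J m m) (etaC' e1 J m m) m g (T1H ep e1 m O 0) H) := ⟨_, rfl⟩
  rw [← hV] at hpa ⊢
  have hX : Real.exp (-i.X C1 x0) * Real.exp (srcX C1 x0 i.ν i.τ i.s i.s' i.E) = 1 := by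
    rw [← Real.exp_add]
    unfold SrcI.X
    rw [neg_add_cancel, Real.exp_zero]
  have hpow : (m : ℝ) ^ (-(1 / 2 : ℝ)) * (m : ℝ) ^ (1 / 2 + (3 * (ep + e1) + δ)) =
      (m : ℝ) ^ (3 * (ep + e1) + δ) := by
    rw [← Real.rpow_add hmp]
    congr 1
    ring
  have hm12 : 0 ≤ (m : ℝ) ^ (-(1 / 2 : ℝ)) := by positivity
  calc c * (V * Real.exp (srcX C1 x0 i.ν i.τ i.s i.s' i.E))
      = (m : ℝ) ^ (-(1 / 2 : ℝ)) * V *
        (Real.exp (-i.X C1 x0) * Real.exp (srcX C1 x0 i.ν i.τ i.s i.s' i.E)) := by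
        rw [hc]
        ring
    _ = (m : ℝ) ^ (-(1 / 2 : ℝ)) * V := by rw [hX, mul_one]
    _ ≤ (m : ℝ) ^ (-(1 / 2 : ℝ)) * (prefR G m g 0 0 (Cst * Real.exp (CP + CL)) *
        (m : ℝ) ^ (1 / 2 + (3 * (ep + e1) + δ)) * Real.exp (-gnF e1 J m g) * Real.exp CR) :=
        mul_le_mul_of_nonneg_left hpa hm12
    _ = prefR G m g 0 0 (Cst * Real.exp (CP + CL)) *
        ((m : ℝ) ^ (-(1 / 2 : ℝ)) * (m : ℝ) ^ (1 / 2 + (3 * (ep + e1) + δ))) *
        Real.exp (-gnF e1 J m g) * Real.exp CR := by ring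
    _ = _ := by rw [hpow]

/-- **the gas with the statistic of a source, no local factors**: the price `exp (X1 s²)` with
`X1 = K / kap` -/
theorem s4Src0 {G : Geo} (hG : GOk G) : ∃ K K2 : ℝ, 0 ≤ K ∧ 0 ≤ K2 ∧
    ∀ kap : ℝ, 0 < kap → ∀ ep : ℝ, 0 < ep → ep ≤ 1 / 100 → ∀ e1 : ℝ, 0 < e1 → e1 ≤ 1 / 100 →
    ∀ J : ℝ, 0 ≤ J → ∀ δ : ℝ, 0 < δ → ∃ C1 : ℝ, 0 ≤ C1 ∧ ∀ x0 : ℝ, 0 < x0 →
      S4fix G (fun _ (i : SrcI) => i.Ok) (srcΦ 0 C1 (x0 + K2 / kap)) K 3 kap ep e1 J δ := by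
  obtain ⟨K, K1, hK, hK1, h⟩ := s4Src hG
  obtain ⟨c2, hc2⟩ : ∃ c2, c2 = Real.exp (3 / 2) * Sd (3 / 2) := ⟨_, rfl⟩
  have hSd := Sd_pos (show (0 : ℝ) < 3 / 2 by norm_num)
  have hc20 : 0 < c2 := by
    rw [hc2]
    positivity
  refine ⟨K, 2 * c2 * K1 ^ 2, hK, by positivity, ?_⟩
  intro kap hkap ep hep hep1 e1 he he1 J hJ δ hδ
  obtain ⟨C1, hC1, h⟩ := h (kap / 2) (by linarith) ep hep hep1 e1 he he1 J hJ δ hδ
  refine ⟨C1, hC1, fun x0 hx0 => ?_⟩
  obtain ⟨d, Cst, hd, hCst, m0, h⟩ := h x0 hx0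
  refine ⟨d, Cst, hd, hCst, m0, ?_⟩
  intro m hm n g aX aY ν N b' r O hb' hR hnear i hok
  have key := h m hm n g aX aY ν N b' r O hb' hR hnear i hok
  have hloc := NUSea.H0.locO_nonneg O
  have hlsq := NUSea.H0.locO_sq O
  rw [← hc2] at hlsq
  have hs0 : (0 : ℝ) ≤ i.s := Nat.cast_nonneg _
  have hs'0 : 0 ≤ i.s' := hok.rem.s0
  have hle := hok.le
  obtain ⟨W, hW⟩ : ∃ W, W = win univ fun i => ht (O i) := ⟨_, rfl⟩
  rw [← hW] at hlsq
  -- the local factors against the price and the window energy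
  have hAG : K1 * (i.s + i.s') * locO O ≤ 2 * c2 * K1 ^ 2 / kap * (i.s : ℝ) ^ 2 + kap / 2 * W := by
    have h1 : (i.s : ℝ) + i.s' ≤ 2 * i.s := by linarith
    have h2 : K1 * (i.s + i.s') * locO O ≤ K1 * (2 * i.s) * locO O := by gcongr
    have h3 : K1 * (2 * i.s) * locO O ≤
        2 * c2 * K1 ^ 2 / kap * (i.s : ℝ) ^ 2 + kap / (2 * c2) * locO O ^ 2 := by
      have h4 : 0 ≤ (2 * c2 * K1 * i.s - kap * locO O) ^ 2 / (2 * c2 * kap) := by positivity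
      have h5 : (2 * c2 * K1 * i.s - kap * locO O) ^ 2 / (2 * c2 * kap) =
          2 * c2 * K1 ^ 2 / kap * (i.s : ℝ) ^ 2 + kap / (2 * c2) * locO O ^ 2 -
            K1 * (2 * i.s) * locO O := by
        field_simp
        ring
      linarith
    have h6 : kap / (2 * c2) * locO O ^ 2 ≤ kap / (2 * c2) * (c2 * W) :=
      mul_le_mul_of_nonneg_left hlsq (by positivity)
    have h7 : kap / (2 * c2) * (c2 * W) = kap / 2 * W := by
      field_simp
    linarith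
  have hstat : ∀ (p q : ℕ) (y : (Fin p → ℝ) × (Fin q → ℝ)),
      srcΦ 0 C1 (x0 + 2 * c2 * K1 ^ 2 / kap) i m N r O p q y ≤
        ENNReal.ofReal (Real.exp (kap / 2 * W)) * srcΦ K1 C1 x0 i m N r O p q y := by
    intro p q y
    unfold srcΦ srcΨ
    rw [← ENNReal.ofReal_mul (by positivity), ← ENNReal.ofReal_mul (by positivity),
      ← ENNReal.ofReal_mul (Real.exp_pos _).le]
    refine ENNReal.ofReal_le_ofReal ?_
    have hm12 : 0 ≤ (m : ℝ) ^ (-(1 / 2 : ℝ)) := by positivity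
    have e1' : ∀ A B C D : ℝ, A * Real.exp B * Real.exp C = A * Real.exp (B + C) := by
      intro A B C D
      rw [Real.exp_add]
      ring
    rw [e1' _ _ _ 0, e1' _ _ _ 0, mul_left_comm, ← Real.exp_add]
    refine mul_le_mul_of_nonneg_left (Real.exp_le_exp.2 ?_) hm12
    unfold SrcI.X srcX
    linarith
  have hlhs : lhsI G ep e1 J m g aX aY ν N b' O (srcΦ 0 C1 (x0 + 2 * c2 * K1 ^ 2 / kap) i m N) ≤
      ENNReal.ofReal (Real.exp (kap / 2 * W)) *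
        lhsI G ep e1 J m g aX aY ν N b' O (srcΦ K1 C1 x0 i m N) := by
    have h1 : lhsI G ep e1 J m g aX aY ν N b' O (fun r O p q y =>
        ENNReal.ofReal (Real.exp (kap / 2 * W)) * srcΦ K1 C1 x0 i m N r O p q y) =
        ENNReal.ofReal (Real.exp (kap / 2 * W)) *
        lhsI G ep e1 J m g aX aY ν N b' O (srcΦ K1 C1 x0 i m N) := by
      unfold lhsI
      rw [gasI_const _ _ _ _ _ _ _ ENNReal.ofReal_ne_top]
      ring
    rw [← h1]
    unfold lhsI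
    refine mul_le_mul' le_rfl ?_
    unfold gasI
    gcongr with y
    exact hstat _ _ y
  refine hlhs.trans ((mul_le_mul' le_rfl key).trans ?_)
  rw [← ENNReal.ofReal_mul (Real.exp_pos _).le]
  refine ENNReal.ofReal_le_ofReal (le_of_eq ?_)
  have hconf : confR G m ep e1 J K kap O = kap / 2 * W + confR G m ep e1 J K (kap / 2) O := by
    unfold confR
    rw [← hW]
    ring
  rw [hconf, add_assoc, Real.exp_add (kap / 2 * W)]
  ring

end PBI

end
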