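import Pool.Agent.NUSea.Inst

/-!
# The sea of mixed rows: `(1 - s) P + s P_h`

`seaM s`: the sea of rows `0` and `± l / 2` in the proportion `1 - s : s`, an instance of `class Sea`
for `-3 ≤ s ≤ 7` (all fields are linear in the density; `(√3 / 2) P ≤ P_h ≤ (3 √3 / 4) P`).
`PM 0 = P`, `PM 1 = P_h`.
-/

set_option autoImplicit false
set_option linter.unusedSectionVars false

open MeasureTheory Set Filter Topology Complex

namespace NUSea

open NUMF (l l_pos)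

noncomputable section

/-- `(1 - s) F + s G` -/
def cmb (s : ℝ) (F G : ℂ → ℂ) (z : ℂ) : ℂ := ((1 - s : ℝ) : ℂ) * F z + (s : ℂ) * G z

/-- the density of the mixture -/
def PM (s t : ℝ) : ℝ := (1 - s) * NUMF.P t + s * Ph t

lemma cmb_ofReal (s t : ℝ) : cmb s NUMF.Pc Phc t = (PM s t : ℂ) := by
  unfold cmb PM
  rw [NUMF.Pc_ofReal, Phc_ofReal]
  push_cast
  ring

lemma cmb_diff {s : ℝ} {F G : ℂ → ℂ} {z : ℂ} (hF : DifferentiableAt ℂ F z)
    (hG : DifferentiableAt ℂ G z) : DifferentiableAt ℂ (cmb s F G) z :=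
  (hF.const_mul _).add (hG.const_mul _)

lemma Pc_diff' {z : ℂ} (hz : |z.im| < l / 2) : DifferentiableAt ℂ NUMF.Pc z :=
  NUMF.Pc_diff (hz.trans (by have := l_pos; linarith))

lemma Phc_diff {z : ℂ} (hz : |z.im| < l / 2) : DifferentiableAt ℂ Phc z :=
  av_diff (fun _ hw => NUMF.Pc_diff hw) hz

lemma iter_cmb (s : ℝ) (n : ℕ) {z : ℂ} (hz : |z.im| < l / 2) :
    iteratedDeriv n (cmb s NUMF.Pc Phc) z =
      cmb s (iteratedDeriv n NUMF.Pc) (iteratedDeriv n Phc) z := by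
  have hF : AnalyticAt ℂ NUMF.Pc z := by
    have hd : DifferentiableOn ℂ NUMF.Pc {z : ℂ | |z.im| < l / 2} := fun w hw =>
      (Pc_diff' hw).differentiableWithinAt
    exact hd.analyticAt (strip_open.mem_nhds hz)
  have hG : AnalyticAt ℂ Phc z := by
    have hd : DifferentiableOn ℂ Phc {z : ℂ | |z.im| < l / 2} := fun w hw =>
      (Phc_diff hw).differentiableWithinAt
    exact hd.analyticAt (strip_open.mem_nhds hz)
  have e : cmb s NUMF.Pc Phc = (fun z => ((1 - s : ℝ) : ℂ) * NUMF.Pc z) + fun z => (s : ℂ) * Phc z := by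
    funext w
    rfl
  have h1 : ContDiffAt ℂ n (fun z => ((1 - s : ℝ) : ℂ) * NUMF.Pc z) z :=
    contDiffAt_const.mul hF.contDiffAt
  have h2 : ContDiffAt ℂ n (fun z => (s : ℂ) * Phc z) z := contDiffAt_const.mul hG.contDiffAt
  rw [e, iteratedDeriv_add h1 h2, iteratedDeriv_const_mul_field, iteratedDeriv_const_mul_field]
  rfl

variable {s : ℝ}

lemma norm_cmb_le (h0 : -3 ≤ s) (h1 : s ≤ 7) {F G : ℂ → ℂ} {z : ℂ} {a b : ℝ} (hF : ‖F z‖ ≤ a)
    (hG : ‖G z‖ ≤ b) : ‖cmb s F G z‖ ≤ 7 * (a + b) := by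
  have e1 : |1 - s| ≤ 7 := abs_le.2 ⟨by linarith, by linarith⟩
  have e2 : |s| ≤ 7 := abs_le.2 ⟨by linarith, h1⟩
  unfold cmb
  refine (norm_add_le _ _).trans ?_
  rw [norm_mul, norm_mul, Complex.norm_real, Complex.norm_real, Real.norm_eq_abs, Real.norm_eq_abs,
    mul_add]
  exact add_le_add (mul_le_mul e1 hF (norm_nonneg _) (by norm_num))
    (mul_le_mul e2 hG (norm_nonneg _) (by norm_num))

/-- the ratio of the two densities: `P_h = (√3 / 4) (2 + 1 / (c² (4 c² - 3))) P`, `c = cosh (8 t / 3)` -/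
lemma Ph_eq (t : ℝ) : Ph t = √3 / 4 * (2 + 1 / (NUMF.ch t ^ 2 * (4 * NUMF.ch t ^ 2 - 3))) *
    NUMF.P t := by
  have h1 := NUMF.one_le_ch t
  have hc : NUMF.ch t ≠ 0 := by linarith
  have h2 := (d3_pos t).ne'
  have h4 : 4 * NUMF.ch t ^ 2 - 1 ≠ 0 := by nlinarith
  have h3 : (√3 : ℝ) ≠ 0 := by positivity
  have h3' : (√3 : ℝ) ^ 2 = 3 := Real.sq_sqrt (by norm_num)
  have hpi := Real.pi_ne_zero
  unfold Ph NUMF.P
  field_simp
  ring

lemma ratio_bd (t : ℝ) : 0 ≤ 1 / (NUMF.ch t ^ 2 * (4 * NUMF.ch t ^ 2 - 3)) ∧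
    1 / (NUMF.ch t ^ 2 * (4 * NUMF.ch t ^ 2 - 3)) ≤ 1 := by
  have h1 := NUMF.one_le_ch t
  have h2 := d3_pos t
  have h3 : 1 ≤ NUMF.ch t ^ 2 := by nlinarith
  have h4 : 1 ≤ NUMF.ch t ^ 2 * (4 * NUMF.ch t ^ 2 - 3) := by nlinarith
  exact ⟨by positivity, (div_le_one (by linarith)).2 h4⟩

lemma P_pos0 (t : ℝ) : 0 < NUMF.P t :=
  lt_of_lt_of_le (by
    have := NUMF.sq3_pos
    have := Real.pi_pos
    positivity) (NUMF.le_P t)

lemma sq3_bd : 1.732 ≤ √3 ∧ √3 ≤ 1.733 :=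
  ⟨Real.le_sqrt_of_sq_le (by norm_num), Real.sqrt_le_iff.2 ⟨by norm_num, by norm_num⟩⟩

lemma Ph_ge86 (t : ℝ) : 0.866 * NUMF.P t ≤ Ph t := by
  rw [Ph_eq]
  have h1 := ratio_bd t
  have h2 := sq3_bd
  refine mul_le_mul_of_nonneg_right ?_ (P_pos0 t).le
  nlinarith [h1.1, h2.1]

lemma Ph_le13 (t : ℝ) : Ph t ≤ 1.3 * NUMF.P t := by
  rw [Ph_eq]
  have h1 := ratio_bd t
  have h2 := sq3_bd
  refine mul_le_mul_of_nonneg_right ?_ (P_pos0 t).le
  nlinarith [h1.2, h2.2, h1.1, h2.1]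

lemma PM_ge (h0 : -3 ≤ s) (h1 : s ≤ 7) (t : ℝ) : 1 / 20 * NUMF.P t ≤ PM s t := by
  have h2 := Ph_ge86 t
  have h3 := Ph_le13 t
  have h4 := P_pos0 t
  unfold PM
  rcases le_total 0 s with hs | hs
  · nlinarith [mul_le_mul_of_nonneg_left h2 hs, mul_nonneg (by linarith : 0 ≤ 7 - s) h4.le]
  · nlinarith [mul_le_mul_of_nonneg_left h3 (neg_nonneg.2 hs), mul_nonneg (by linarith : 0 ≤ s + 3) h4.le]

lemma J_int_h {k : ℝ → ℂ} {K : ℝ} (hk : AEStronglyMeasurable k)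
    (hkb : ∀ u : ℝ, u ≠ 0 → ‖k u‖ ≤ K * NUAct.gr |u|) (x : ℝ) :
    Integrable fun u : ℝ => (Ph (x - u) : ℂ) * k u := by
  have hl := l_pos
  have h1 : |((x : ℂ) + (l / 2 : ℝ) * I).im| < l := by
    refine (im_up (b := 0) (by simp)).trans_lt (by linarith)
  have h2 : |((x : ℂ) - (l / 2 : ℝ) * I).im| < l := by
    refine (im_dn (b := 0) (by simp)).trans_lt (by linarith)
  have i1 := NUAct.J_int hk hkb h1
  have i2 := NUAct.J_int hk hkb h2
  refine ((i1.add i2).div_const 2).congr (Eventually.of_forall fun u => ?_)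
  simp only [Pi.add_apply]
  rw [← Phc_ofReal]
  unfold Phc av
  have e1 : ((x - u : ℝ) : ℂ) + (l / 2 : ℝ) * I = (x : ℂ) + (l / 2 : ℝ) * I - u := by
    push_cast; ring
  have e2 : ((x - u : ℝ) : ℂ) - (l / 2 : ℝ) * I = (x : ℂ) - (l / 2 : ℝ) * I - u := by
    push_cast; ring
  rw [e1, e2]
  ring

lemma J_int_0 {k : ℝ → ℂ} {K : ℝ} (hk : AEStronglyMeasurable k)
    (hkb : ∀ u : ℝ, u ≠ 0 → ‖k u‖ ≤ K * NUAct.gr |u|) (x : ℝ) :
    Integrable fun u : ℝ => (NUMF.P (x - u) : ℂ) * k u := by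
  have hl := l_pos
  have h1 : |(x : ℂ).im| < l := by simpa using hl
  refine (NUAct.J_int hk hkb h1).congr (Eventually.of_forall fun u => ?_)
  simp only
  rw [← NUMF.Pc_ofReal]
  push_cast
  rfl

lemma conv_m (s : ℝ) {k : ℝ → ℂ} {K : ℝ} (hk : AEStronglyMeasurable k)
    (hkb : ∀ u : ℝ, u ≠ 0 → ‖k u‖ ≤ K * NUAct.gr |u|) {F G : ℂ → ℂ} (x : ℝ)
    (hF : ∫ u : ℝ, (NUMF.P (x - u) : ℂ) * k u = F x)
    (hG : ∫ u : ℝ, (Ph (x - u) : ℂ) * k u = G x) :
    ∫ u : ℝ, (PM s (x - u) : ℂ) * k u = cmb s F G x := by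
  unfold cmb
  rw [← hF, ← hG, ← integral_const_mul, ← integral_const_mul,
    ← integral_add ((J_int_0 hk hkb x).const_mul _) ((J_int_h hk hkb x).const_mul _)]
  refine integral_congr_ae (Eventually.of_forall fun u => ?_)
  simp only
  unfold PM
  push_cast
  ring

lemma P0_int : Integrable NUMF.P := by
  by_contra h
  have := NUMF.integral_P
  rw [integral_undef h] at this
  exact zero_ne_one this

lemma Ph_int : Integrable Ph := by
  by_contra h
  have := Ph_mass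
  rw [integral_undef h] at this
  exact zero_ne_one this

lemma PM_mass (s : ℝ) : ∫ t, PM s t = 1 := by
  unfold PM
  rw [integral_add (P0_int.const_mul _) (Ph_int.const_mul _), integral_const_mul,
    integral_const_mul, NUMF.integral_P, Ph_mass]
  ring

lemma PM_zero : PM 0 = NUMF.P := by
  funext t
  unfold PM
  ring

lemma PM_one : PM 1 = Ph := by
  funext t
  unfold PM
  ring

/-- **rows `0` and `± l / 2` in the proportion `1 - s : s`** -/
@[reducible] def seaM (s : ℝ) (h0 : -3 ≤ s) (h1 : s ≤ 7) : Sea where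
  dens := PM s
  densc := cmb s NUMF.Pc Phc
  fs := cmb s NUAct.vs (av NUAct.vs)
  fx := cmb s NUAct.vx (av NUAct.vx)
  real := cmb_ofReal s
  diff := fun z hz => cmb_diff (Pc_diff' hz) (Phc_diff hz)
  bd := fun n b hb0 hb => by
    obtain ⟨C, hC, h⟩ := seaP.bd n b hb0 hb
    obtain ⟨C', hC', h'⟩ := seaH.bd n b hb0 hb
    refine ⟨7 * (C + C'), by positivity, fun z hz => ?_⟩
    rw [iter_cmb s n (hz.trans_lt hb), mul_assoc, add_mul]
    exact norm_cmb_le h0 h1 (h z hz) (h' z hz)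
  low := by
    obtain ⟨c, hc, h⟩ := seaP.low
    refine ⟨1 / 20 * c, by positivity, fun t => ?_⟩
    refine le_trans ?_ (PM_ge h0 h1 t)
    rw [mul_assoc]
    exact mul_le_mul_of_nonneg_left (h t) (by norm_num)
  even := fun t => by
    unfold PM
    rw [NUMF.P_neg, Ph_neg]
  mass := PM_mass s
  conv_s := fun x => by
    obtain ⟨K, hK⟩ := NUAct.ks_bd
    exact conv_m s NUAct.ks_meas hK x (seaP.conv_s x) (seaH.conv_s x)
  conv_x := fun x => by
    obtain ⟨K, hK⟩ := NUAct.kx_bd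
    exact conv_m s NUAct.kx_cont.aestronglyMeasurable hK x (seaP.conv_x x) (seaH.conv_x x)
  fs_diff := fun z hz => cmb_diff (seaP.fs_diff z hz) (seaH.fs_diff z hz)
  fx_diff := fun z hz => cmb_diff (seaP.fx_diff z hz) (seaH.fx_diff z hz)
  fs_gr := by
    obtain ⟨K, hK, h⟩ := seaP.fs_gr
    obtain ⟨K', hK', h'⟩ := seaH.fs_gr
    refine ⟨7 * (K + K'), by positivity, fun z hz => ?_⟩
    rw [mul_assoc, add_mul]
    exact norm_cmb_le h0 h1 (h z hz) (h' z hz)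
  fx_gr := by
    obtain ⟨K, hK, h⟩ := seaP.fx_gr
    obtain ⟨K', hK', h'⟩ := seaH.fx_gr
    refine ⟨7 * (K + K'), by positivity, fun z hz => ?_⟩
    rw [mul_assoc, add_mul]
    exact norm_cmb_le h0 h1 (h z hz) (h' z hz)

end

end NUSea
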