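import Pool.Agent.IST.Lvl2

/-!
# ISO, T1: distance to the limits, comparison of the real parts, dependence on the content
-/

set_option autoImplicit false

open Complex Set Filter Topology ComplexConjugate

namespace ISTZ

noncomputable section

namespace Pm

open Tl

variable {T : Tl} {c : Pm T}

theorem hasDerivAt_phh {x u : ℝ} (h : ((x : ℂ) + u * I) ∈ T.St 0) :
    HasDerivAt (fun x : ℝ => (c.ph (x + u * I)).re) (c.rh (x + u * I)).re x := by
  have h1 := hasDerivAt_ph (c := c) h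
  have h2 : HasDerivAt (fun x : ℝ => (x : ℂ) + u * I) 1 x := by
    have := (Complex.ofRealCLM.hasDerivAt (x := x)).add_const (u * I)
    simpa using this
  have h3 := h1.comp_of_eq x h2 rfl
  have h4 := Complex.reCLM.hasFDerivAt.comp_hasDerivAt x h3
  refine h4.congr_deriv ?_
  simp

/-- **distance to the upper limit** -/
theorem hor {z : ℂ} (hz : z ∈ T.St 0) :
    Real.exp (-|z.re|) / 32 ≤ 1 / 2 - (c.ph z).re := by
  have hu : z.im ∈ Ioo (-T.t1) T.t2 := ⟨by linarith [hz.1], by linarith [hz.2]⟩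
  have hm : ∀ x : ℝ, ((x : ℂ) + z.im * I) ∈ T.St 0 := fun x => pt_mem.2 hu
  obtain ⟨e, he, he1, hme⟩ : ∃ e : ℝ, 0 < e ∧ e ≤ Real.pi / 3 ∧ ∀ x : ℝ, ((x : ℂ) + z.im * I) ∈ T.St e := by
    refine ⟨min ((z.im + T.t1) / 2) (min ((T.t2 - z.im) / 2) (Real.pi / 3)), ?_, ?_, fun x => ?_⟩
    · have := hu.1
      have := hu.2
      exact lt_min (by linarith) (lt_min (by linarith) pi3_pos)
    · exact (min_le_right _ _).trans (min_le_right _ _)
    · have h1 := min_le_left ((z.im + T.t1) / 2) (min ((T.t2 - z.im) / 2) (Real.pi / 3))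
      have h2 := (min_le_right ((z.im + T.t1) / 2) (min ((T.t2 - z.im) / 2) (Real.pi / 3))).trans
        (min_le_left _ _)
      rw [mem_St, im_ofR]
      constructor <;> linarith [hu.1, hu.2]
  have hlim : Tendsto (fun x : ℝ => (c.ph (x + z.im * I)).re) atTop (𝓝 (1 / 2)) := by
    have h1 : Tendsto (fun x : ℝ => cT e * Real.exp (-x)) atTop (𝓝 0) := by
      simpa using Real.tendsto_exp_neg_atTop_nhds_zero.const_mul (cT e)
    have h2 : Tendsto (fun x : ℝ => (c.ph (x + z.im * I)).re - 1 / 2) atTop (𝓝 0) := by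
      refine squeeze_zero_norm' ?_ h1
      filter_upwards [eventually_ge_atTop 0] with x hx
      have h3 := ph_top (c := c) he he1 (hme x) (by rw [re_ofR]; exact hx)
      rw [re_ofR] at h3
      refine le_trans ?_ h3
      have e : (c.ph (x + z.im * I)).re - 1 / 2 = (c.ph (x + z.im * I) - 1 / 2).re := by
        rw [Complex.sub_re]
        norm_num
      rw [e]
      exact Complex.abs_re_le_norm _
    have h3 := h2.add_const (1 / 2)
    rw [zero_add] at h3
    refine h3.congr fun x => ?_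
    ring
  have key : ∀ x : ℝ, 0 ≤ x → Real.exp (-x) / 32 ≤ 1 / 2 - (c.ph (x + z.im * I)).re := fun x hx => by
    have hd : ∀ y : ℝ, HasDerivAt (fun y : ℝ => (c.ph (y + z.im * I)).re + Real.exp (-y) / 32)
        ((c.rh (y + z.im * I)).re + -Real.exp (-y) / 32) y := fun y => by
      have h2 : HasDerivAt (fun y : ℝ => Real.exp (-y) / 32) (-Real.exp (-y) / 32) y := by
        simpa using ((hasDerivAt_neg y).exp).div_const 32
      exact (hasDerivAt_phh (hm y)).add h2
    have hmono : MonotoneOn (fun y : ℝ => (c.ph (y + z.im * I)).re + Real.exp (-y) / 32) (Ici 0) := by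
      refine monotoneOn_of_deriv_nonneg (convex_Ici _)
        (fun y _ => (hd y).continuousAt.continuousWithinAt)
        (fun y _ => (hd y).differentiableAt.differentiableWithinAt) fun y hy => ?_
      have hy' : 0 ≤ y := interior_subset hy
      rw [(hd y).deriv]
      have h3 := rh_low (c := c) (hm y)
      rw [re_ofR, abs_of_nonneg hy'] at h3
      linarith
    have hl : Tendsto (fun y : ℝ => (c.ph (y + z.im * I)).re + Real.exp (-y) / 32) atTop (𝓝 (1 / 2)) := by
      have := hlim.add (Real.tendsto_exp_neg_atTop_nhds_zero.div_const 32)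
      simpa using this
    have h1 : (c.ph (x + z.im * I)).re + Real.exp (-x) / 32 ≤ 1 / 2 :=
      ge_of_tendsto hl (eventually_ge_atTop x |>.mono fun y hy => hmono hx (hx.trans hy : (0:ℝ) ≤ y) hy)
    linarith
  rcases le_total 0 z.re with h | h
  · have h1 := key z.re h
    rw [Complex.re_add_im] at h1
    rwa [abs_of_nonneg h]
  · have h0 := key 0 le_rfl
    rw [neg_zero, Real.exp_zero] at h0
    have hmono : MonotoneOn (fun y : ℝ => (c.ph (y + z.im * I)).re) (Iic 0) := by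
      refine monotoneOn_of_deriv_nonneg (convex_Iic _)
        (fun y _ => (hasDerivAt_phh (hm y)).continuousAt.continuousWithinAt)
        (fun y _ => (hasDerivAt_phh (hm y)).differentiableAt.differentiableWithinAt) fun y _ => ?_
      rw [(hasDerivAt_phh (hm y)).deriv]
      have h3 := rh_low (c := c) (hm y)
      have := Real.exp_pos (-|((y : ℂ) + z.im * I).re|)
      linarith
    have h1 := hmono (show z.re ∈ Iic (0:ℝ) from h) (show (0:ℝ) ∈ Iic (0:ℝ) from mem_Iic.2 le_rfl) h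
    simp only [Complex.re_add_im] at h1
    have h2 : Real.exp (-|z.re|) ≤ 1 := Real.exp_le_one_iff.2 (by have := abs_nonneg z.re; linarith)
    linarith

/-- distance to the lower limit -/
theorem hor' {z : ℂ} (hz : z ∈ T.St 0) :
    Real.exp (-|z.re|) / 32 ≤ 1 / 2 + (c.ph z).re := by
  have h1 := hor (c := c.mir) (mir_mem hz)
  rw [ph_mir, Complex.neg_re, Complex.neg_re, abs_neg] at h1
  linarith

/-- **comparison of the real parts** -/
theorem cmp {c' : Pm T} {e : ℝ} (he : 0 < e) (he1 : e ≤ Real.pi / 3) {z w : ℂ} (hz : z ∈ T.St e)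
    (hw : w ∈ T.St 0) (h : c.ph z = c'.ph w) :
    Real.exp (-|w.re|) ≤ 32 * cT e * Real.exp (-|z.re|) := by
  have h1 := hor (c := c') hw
  have h2 := hor' (c := c') hw
  rw [← h] at h1 h2
  rcases le_total 0 z.re with h0 | h0
  · have h3 := ph_top (c := c) he he1 hz h0
    have h4 : 1 / 2 - (c.ph z).re ≤ ‖c.ph z - 1 / 2‖ := by
      have e : 1 / 2 - (c.ph z).re = -(c.ph z - 1 / 2).re := by
        rw [Complex.sub_re]
        norm_num
      rw [e]
      exact (neg_le_abs _).trans (Complex.abs_re_le_norm _)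
    rw [abs_of_nonneg h0]
    linarith
  · have h3 := ph_bot (c := c) he he1 hz h0
    have h4 : 1 / 2 + (c.ph z).re ≤ ‖c.ph z + 1 / 2‖ := by
      have e : 1 / 2 + (c.ph z).re = (c.ph z + 1 / 2).re := by
        rw [Complex.add_re]
        norm_num
        ring
      rw [e]
      exact Complex.re_le_norm _
    rw [abs_of_nonpos h0, neg_neg]
    linarith

/-! ### dependence on the content -/

/-- distance of two contents -/
def dst (c c' : Pm T) : ℝ :=
  |c.w0 - c'.w0| + (|c.w1 - c'.w1| + |c.w2 - c'.w2|) + (|c.m1 - c'.m1| + |c.m2 - c'.m2|)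

lemma dst_nonneg (c c' : Pm T) : 0 ≤ dst c c' := by unfold dst; positivity

lemma dst_comm (c c' : Pm T) : dst c c' = dst c' c := by
  unfold dst
  rw [abs_sub_comm c.w0, abs_sub_comm c.w1, abs_sub_comm c.w2, abs_sub_comm c.m1, abs_sub_comm c.m2]

lemma seg_im {x u v e : ℝ} (hu : |u| ≤ e) (hv : |v| ≤ e) {w : ℂ}
    (hw : w ∈ segment ℝ ((x : ℂ) + u * I) ((x : ℂ) + v * I)) : |w.im| ≤ e ∧ w.re = x := by
  obtain ⟨s, t, hs, ht, hst, rfl⟩ := hw
  have e1 : (s • ((x : ℂ) + u * I) + t • ((x : ℂ) + v * I)).im = s * u + t * v := by simp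
  have e2 : (s • ((x : ℂ) + u * I) + t • ((x : ℂ) + v * I)).re = x := by
    simp
    rw [← add_mul, hst, one_mul]
  refine ⟨?_, e2⟩
  rw [e1]
  refine (abs_add_le _ _).trans ?_
  rw [abs_mul, abs_mul, abs_of_nonneg hs, abs_of_nonneg ht]
  calc s * |u| + t * |v| ≤ s * e + t * e := by gcongr
    _ = e := by rw [← add_mul, hst, one_mul]

/-- vertical variation of the primitive -/
theorem r_vert {e : ℝ} (he : 0 < e) (he1 : e ≤ Real.pi / 3) {x u v : ℝ} (hu : |u| ≤ Real.pi / 3 - e)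
    (hv : |v| ≤ Real.pi / 3 - e) :
    ‖r (x + v * I) - r (x + u * I)‖ ≤ cU e * Real.exp (-|x|) * |v - u| := by
  have h2 : ‖r (x + v * I) - r (x + u * I)‖ ≤
      cU e * Real.exp (-|x|) * ‖((x : ℂ) + v * I) - ((x : ℂ) + u * I)‖ := by
    refine (convex_segment _ _).norm_image_sub_le_of_norm_hasDerivWithin_le
      (f' := p)
      (fun w hw => (hasDerivAt_r (lt_of_le_of_lt (seg_im hu hv hw).1 (by linarith))).hasDerivWithinAt)
      (fun w hw => ?_) (left_mem_segment ℝ _ _) (right_mem_segment ℝ _ _)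
    obtain ⟨w1, w2⟩ := seg_im hu hv hw
    have h1 := p_up he he1 w1
    rwa [w2] at h1
  have e : ((x : ℂ) + v * I) - ((x : ℂ) + u * I) = ((v - u : ℝ) : ℂ) * I := by
    push_cast
    ring
  rwa [e, norm_mul, Complex.norm_I, mul_one, Complex.norm_real, Real.norm_eq_abs] at h2

lemma pt_add (z : ℂ) (a : ℝ) : z + a * I = (z.re : ℂ) + ((z.im + a : ℝ) : ℂ) * I := by
  conv_lhs => rw [← Complex.re_add_im z]
  push_cast
  ring

lemma pt_sub (z : ℂ) (a : ℝ) : z - a * I = (z.re : ℂ) + ((z.im - a : ℝ) : ℂ) * I := by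
  conv_lhs => rw [← Complex.re_add_im z]
  push_cast
  ring

/-- **the primitive is Lipschitz in the content** -/
theorem ph_lip {e : ℝ} (he : 0 < e) (he1 : e ≤ Real.pi / 3) (c c' : Pm T) {z : ℂ} (hz : z ∈ T.St e) :
    ‖c.ph z - c'.ph z‖ ≤ (cT e + cU e) * Real.exp (-|z.re|) * dst c c' := by
  have hT := cT_ge he he1
  have hU := cU_ge he he1
  have hE := Real.exp_pos (-|z.re|)
  -- the limit on this side
  obtain ⟨a, ha0, ha1, ha2⟩ : ∃ a : ℂ, ‖r z - a‖ ≤ cT e * Real.exp (-|z.re|) ∧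
      ‖r (z + c.m1 * I) - a‖ ≤ cT e * Real.exp (-|z.re|) ∧
      ‖r (z - c.m2 * I) - a‖ ≤ cT e * Real.exp (-|z.re|) := by
    rcases le_total 0 z.re with h | h
    · refine ⟨1 / 2, ?_, ?_, ?_⟩
      · rw [abs_of_nonneg h]
        exact r_top he he1 (b0 hz) h
      · have := r_top he he1 (b1 (c := c) hz) (by rwa [re_add])
        rwa [re_add, ← abs_of_nonneg h] at this
      · have := r_top he he1 (b2 (c := c) hz) (by rwa [re_sub])
        rwa [re_sub, ← abs_of_nonneg h] at this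
    · refine ⟨-(1 / 2), ?_, ?_, ?_⟩
      · rw [abs_of_nonpos h, neg_neg, sub_neg_eq_add]
        exact r_bot he he1 (b0 hz) h
      · have := r_bot he he1 (b1 (c := c) hz) (by rwa [re_add])
        rwa [re_add, ← neg_neg z.re, ← abs_of_nonpos h, ← sub_neg_eq_add] at this
      · have := r_bot he he1 (b2 (c := c) hz) (by rwa [re_sub])
        rwa [re_sub, ← neg_neg z.re, ← abs_of_nonpos h, ← sub_neg_eq_add] at this
  have v1 : ‖r (z + c.m1 * I) - r (z + c'.m1 * I)‖ ≤ cU e * Real.exp (-|z.re|) * |c.m1 - c'.m1| := by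
    have h1 := b1 (c := c') hz
    have h2 := b1 (c := c) hz
    rw [im_add] at h1 h2
    have := r_vert he he1 (x := z.re) h1 h2
    rw [← pt_add, ← pt_add] at this
    have e : z.im + c.m1 - (z.im + c'.m1) = c.m1 - c'.m1 := by ring
    rwa [e] at this
  have v2 : ‖r (z - c.m2 * I) - r (z - c'.m2 * I)‖ ≤ cU e * Real.exp (-|z.re|) * |c.m2 - c'.m2| := by
    have h1 := b2 (c := c') hz
    have h2 := b2 (c := c) hz
    rw [im_sub] at h1 h2
    have := r_vert he he1 (x := z.re) h1 h2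
    rw [← pt_sub, ← pt_sub] at this
    have e : z.im - c.m2 - (z.im - c'.m2) = -(c.m2 - c'.m2) := by ring
    rwa [e, abs_neg] at this
  have hs : (c.w0 : ℂ) + c.w1 + c.w2 = 1 := by exact_mod_cast c.sum1
  have hs' : (c'.w0 : ℂ) + c'.w1 + c'.w2 = 1 := by exact_mod_cast c'.sum1
  have key : c.ph z - c'.ph z = ((c.w0 - c'.w0 : ℝ) : ℂ) * (r z - a) +
      (((c.w1 - c'.w1 : ℝ) : ℂ) * (r (z + c.m1 * I) - a) +
        ((c.w2 - c'.w2 : ℝ) : ℂ) * (r (z - c.m2 * I) - a)) +
      ((c'.w1 : ℂ) * (r (z + c.m1 * I) - r (z + c'.m1 * I)) +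
        (c'.w2 : ℂ) * (r (z - c.m2 * I) - r (z - c'.m2 * I))) := by
    unfold ph cb
    push_cast
    linear_combination a * (hs - hs')
  have w1 : |c'.w1| ≤ 1 := by
    rw [abs_of_nonneg c'.w10]
    linarith [c'.sum1, c'.w00, c'.w20]
  have w2 : |c'.w2| ≤ 1 := by
    rw [abs_of_nonneg c'.w20]
    linarith [c'.sum1, c'.w00, c'.w10]
  have n : ∀ (x : ℝ) (y : ℂ), ‖(x : ℂ) * y‖ = |x| * ‖y‖ := fun x y => by
    rw [norm_mul, Complex.norm_real, Real.norm_eq_abs]
  obtain ⟨E, hEd⟩ : ∃ E, E = Real.exp (-|z.re|) := ⟨_, rfl⟩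
  rw [← hEd] at ha0 ha1 ha2 v1 v2 hE
  rw [key, ← hEd]
  calc _ ≤ |c.w0 - c'.w0| * (cT e * E) + (|c.w1 - c'.w1| * (cT e * E) + |c.w2 - c'.w2| * (cT e * E)) +
        (1 * (cU e * E * |c.m1 - c'.m1|) + 1 * (cU e * E * |c.m2 - c'.m2|)) := by
        refine (norm_add_le _ _).trans (add_le_add ((norm_add_le _ _).trans (add_le_add ?_
          ((norm_add_le _ _).trans (add_le_add ?_ ?_)))) ((norm_add_le _ _).trans (add_le_add ?_ ?_)))
        · rw [n]; gcongr
        · rw [n]; gcongr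
        · rw [n]; gcongr
        · rw [n]; gcongr
        · rw [n]; gcongr
    _ = cT e * E * (|c.w0 - c'.w0| + (|c.w1 - c'.w1| + |c.w2 - c'.w2|)) +
        cU e * E * (|c.m1 - c'.m1| + |c.m2 - c'.m2|) := by ring
    _ ≤ (cT e + cU e) * E * (|c.w0 - c'.w0| + (|c.w1 - c'.w1| + |c.w2 - c'.w2|)) +
        (cT e + cU e) * E * (|c.m1 - c'.m1| + |c.m2 - c'.m2|) := by
        gcongr
        · linarith
        · linarith
    _ = _ := by unfold dst; ring

end Pm

end

end ISTZ
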