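import Pool.Agent.IST.SpRow
import Pool.Agent.NUSea.Par0

/-!
# The constituents of the objects for the parameters `par0`: real parts

`pNu_par0 : SPR.PNu (1 / 100) (NUSea.O.par0 m)`.
-/

set_option autoImplicit false

noncomputable section

namespace SPR

open NUP1 NUO
open NUSea (Sea)

theorem pNu_par0 [Sea] (m : ℕ) : PNu (1 / 100) (NUSea.O.par0 m) where
  ν0 := by norm_num
  jL := rfl
  e := rfl
  d0 r := (d0_pos r).le
  d1 r := (d0_le r).trans (by norm_num)
  r0 r t := (NUSea.O.rad0_pos m r t).le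
  r1 r t := by
    have hl := l_pos
    have h1 := d0_le r
    have h2 := (d0_pos r).le
    have hr : (0 : ℝ) ≤ r := Nat.cast_nonneg r
    refine (NUSea.O.rad0_le m r t).trans ?_
    rw [div_le_iff₀ (by positivity)]
    have h3 : l * d0 r ≤ l * (1 / 6144) := mul_le_mul_of_nonneg_left h1 hl.le
    have h4 : (1 : ℝ) ≤ 64 * (r + 1) := by linarith
    have h5 : 1 / 100 / 2 * l * 1 ≤ 1 / 100 / 2 * l * (64 * (r + 1)) :=
      mul_le_mul_of_nonneg_left h4 (by positivity)
    linarith

end SPR

end
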