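import Pool.Agent.IST.CrudeE
import Pool.Agent.PB.MFh

/-!
# Sources: potentials with exact densities, of any size

`SrcOk s ν τ`: densities `ν a`, splitting `τ`, size `s`; potential `srcP ν τ a = V * ν a ± log g * τ`;
`RemOk s E ψ`: remainder.  `addS I ν τ ψ`: the extra data with the source.

* `lgp_lip`, `lgp_le`: `log g * τ` for a neutral `τ`;
* `IOk.addS`, **`DatC.addS`**: the data of a configuration with a source of integer size `s`;
* **`crudeS`**: the crude bound with a source.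
-/

set_option autoImplicit false
set_option linter.unusedSectionVars false

noncomputable section

open MeasureTheory Finset
open scoped ENNReal

namespace NUSea.H0

open NUMF NUO NUStabP NUDispW NUEnW
open NUR2 (Cfg)
open NUH0 (plt plt_nonneg qc T0i T0i_ge shF shF_nonneg)

/-! ### the kernel `log g` -/

theorem logg_lip (t s : ℝ) : |Real.log (g t) - Real.log (g s)| ≤ 9 * |t - s| := by
  have h := Convex.norm_image_sub_le_of_norm_hasDerivWithin_le (f := fun u => Real.log (g u))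
    (f' := Pool.Agent.PB.Kg) (s := Set.univ) (C := 9) (x := s) (y := t)
    (fun x _ => (Pool.Agent.PB.hasDerivAt_log_g x).hasDerivWithinAt)
    (fun x _ => by
      rw [Real.norm_eq_abs]
      exact PB.abs_Kg_le x) convex_univ (Set.mem_univ _) (Set.mem_univ _)
  simpa only [Real.norm_eq_abs] using h

/-- densities of size `s` -/
structure DnS (s : ℝ) (f : ℝ → ℝ) : Prop where
  s0 : 0 ≤ s
  c : Continuous f
  b : ∀ t, |f t| ≤ s * Real.exp (-(5 / 2 * |t|))

namespace DnS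

variable {s : ℝ} {f : ℝ → ℝ} (h : DnS s f)

include h

lemma dn : NUC43.Dn f := ⟨h.c, s, h.s0, fun t => (h.b t).trans_eq (by rw [neg_mul])⟩

lemma int : Integrable f := h.dn.int

lemma le (t : ℝ) : |f t| ≤ s := by
  refine (h.b t).trans ?_
  have h1 : Real.exp (-(5 / 2 * |t|)) ≤ 1 := Real.exp_le_one_iff.2 (by
    have := abs_nonneg t
    linarith)
  have := mul_le_mul_of_nonneg_left h1 h.s0
  linarith

lemma abs_le : ∫ t, |f t| ≤ 4 / 5 * s := by
  have h1 : Integrable fun t : ℝ => Real.exp (-(5 / 2 * |t|)) :=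
    (NUDispW.integrable_exp_abs (by norm_num : (0 : ℝ) < 5 / 2))
  have h2 : ∫ t : ℝ, Real.exp (-(5 / 2 * |t|)) = 4 / 5 := by
    have h3 := (NUDispW.int_exp_abs (by norm_num : (0 : ℝ) < 5 / 2) 0).2
    simp only [sub_zero] at h3
    rw [h3]
    norm_num
  calc ∫ t, |f t| ≤ ∫ t : ℝ, s * Real.exp (-(5 / 2 * |t|)) :=
        integral_mono h.int.abs (h1.const_mul s) h.b
    _ = 4 / 5 * s := by rw [integral_const_mul, h2]; ring

lemma wabs : Integrable (fun t => |t| * |f t|) ∧ ∫ t, |t| * |f t| ≤ 4 / 3 * s := by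
  have h1 : Integrable fun t : ℝ => Real.exp (-(3 / 2 * |t|)) :=
    (NUDispW.integrable_exp_abs (by norm_num : (0 : ℝ) < 3 / 2))
  have h2 : ∫ t : ℝ, Real.exp (-(3 / 2 * |t|)) = 4 / 3 := by
    have h3 := (NUDispW.int_exp_abs (by norm_num : (0 : ℝ) < 3 / 2) 0).2
    simp only [sub_zero] at h3
    rw [h3]
    norm_num
  have hp : ∀ t, |t| * |f t| ≤ s * Real.exp (-(3 / 2 * |t|)) := by
    intro t
    have h3 : |t| ≤ Real.exp |t| := by linarith [Real.add_one_le_exp |t|]
    calc |t| * |f t| ≤ Real.exp |t| * (s * Real.exp (-(5 / 2 * |t|))) := by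
          have := h.b t
          have := abs_nonneg t
          have := h.s0
          gcongr
      _ = s * (Real.exp |t| * Real.exp (-(5 / 2 * |t|))) := by ring
      _ = _ := by
        rw [← Real.exp_add]
        congr 2
        ring
  have hc := h.c
  have h4 : Integrable fun t => |t| * |f t| := (h1.const_mul s).mono'
    (Continuous.aestronglyMeasurable (by fun_prop)) (ae_of_all _ fun t => by
      rw [Real.norm_eq_abs, abs_of_nonneg (by positivity)]
      exact hp t)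
  refine ⟨h4, ?_⟩
  calc ∫ t, |t| * |f t| ≤ ∫ t : ℝ, s * Real.exp (-(3 / 2 * |t|)) :=
        integral_mono h4 (h1.const_mul s) hp
    _ = 4 / 3 * s := by rw [integral_const_mul, h2]; ring

lemma mul_id : Integrable fun x => f x * x := by
  have h1 := h.wabs.1
  have hc := h.c
  refine h1.mono' (Continuous.aestronglyMeasurable (by fun_prop)) (ae_of_all _ fun t => ?_)
  rw [Real.norm_eq_abs, abs_mul, mul_comm]

lemma lg_in (t : ℝ) : Integrable fun u => f u * Real.log (g (t - u)) := NUC43.lg_in h.dn t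

/-- the potential of a density is Lipschitz -/
theorem lgp_lip (t t' : ℝ) : |NUC43.lgp f t - NUC43.lgp f t'| ≤ 8 * s * |t - t'| := by
  unfold NUC43.lgp
  rw [← integral_sub (h.lg_in t) (h.lg_in t')]
  have h1 : ∀ u, |f u * Real.log (g (t - u)) - f u * Real.log (g (t' - u))| ≤
      (9 * |t - t'|) * |f u| := by
    intro u
    rw [← mul_sub, abs_mul]
    have h2 := logg_lip (t - u) (t' - u)
    rw [show t - u - (t' - u) = t - t' by ring] at h2
    rw [mul_comm]
    exact mul_le_mul_of_nonneg_right h2 (abs_nonneg _)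
  calc |∫ u, (f u * Real.log (g (t - u)) - f u * Real.log (g (t' - u)))| ≤
      ∫ u, |f u * Real.log (g (t - u)) - f u * Real.log (g (t' - u))| :=
        abs_integral_le_integral_abs
    _ ≤ ∫ u, (9 * |t - t'|) * |f u| :=
        integral_mono ((h.lg_in t).sub (h.lg_in t')).abs (h.int.abs.const_mul _) h1
    _ = 9 * |t - t'| * ∫ u, |f u| := integral_const_mul _ _
    _ ≤ 9 * |t - t'| * (4 / 5 * s) := mul_le_mul_of_nonneg_left h.abs_le (by positivity)
    _ ≤ 8 * s * |t - t'| := by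
        have := mul_nonneg h.s0 (abs_nonneg (t - t'))
        linarith

theorem lgp_cont : Continuous (NUC43.lgp f) := by
  refine (LipschitzWith.of_dist_le' (K := 8 * s) fun t t' => ?_).continuous
  rw [Real.dist_eq, Real.dist_eq]
  exact h.lgp_lip t t'

/-- the potential of a neutral density is bounded -/
theorem lgp_le (h0 : ∫ t, f t = 0) (t : ℝ) : |NUC43.lgp f t| ≤ 12 * s := by
  have e : NUC43.lgp f t = ∫ u, f u * (Real.log (g (t - u)) - Real.log (g t)) := by
    unfold NUC43.lgp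
    simp_rw [mul_sub]
    rw [integral_sub (h.lg_in t) (h.int.mul_const _), integral_mul_const, h0]
    ring
  have h1 : ∀ u, |f u * (Real.log (g (t - u)) - Real.log (g t))| ≤ 9 * (|u| * |f u|) := by
    intro u
    rw [abs_mul]
    have h2 := logg_lip (t - u) t
    rw [show t - u - t = -u by ring, abs_neg] at h2
    calc |f u| * |Real.log (g (t - u)) - Real.log (g t)| ≤ |f u| * (9 * |u|) := by gcongr
      _ = _ := by ring
  have hi : Integrable fun u => f u * (Real.log (g (t - u)) - Real.log (g t)) := by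
    simp_rw [mul_sub]
    exact (h.lg_in t).sub (h.int.mul_const _)
  obtain ⟨w1, w2⟩ := h.wabs
  rw [e]
  calc |∫ u, f u * (Real.log (g (t - u)) - Real.log (g t))| ≤
      ∫ u, |f u * (Real.log (g (t - u)) - Real.log (g t))| := abs_integral_le_integral_abs
    _ ≤ ∫ u, 9 * (|u| * |f u|) := integral_mono hi.abs (w1.const_mul 9) h1
    _ = 9 * ∫ u, |u| * |f u| := integral_const_mul _ _
    _ ≤ 12 * s := by linarith

lemma V_in (t : ℝ) : Integrable fun u => f u * V (t - u) := NUC43.V_in h.dn t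

lemma Vf_bc : Continuous (fun t => ∫ u, f u * V (t - u)) ∧
    ∀ t, |∫ u, f u * V (t - u)| ≤ s * ∫ u, |V u| := by
  simp_rw [NUC43.V_cv]
  refine ⟨NUC37.cv_cont V_integral.1 h.c h.le, fun t => ?_⟩
  rw [mul_comm]
  exact NUC37.cv_bound V_integral.1 h.le t

end DnS

/-- **a source of size `s`** -/
structure SrcOk (s : ℝ) (ν : Bool → ℝ → ℝ) (τ : ℝ → ℝ) : Prop where
  dν : ∀ a, DnS s (ν a)
  dτ : DnS s τ
  τ0 : ∫ t, τ t = 0

/-- the potential of a source on the species `a` -/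
def srcP (ν : Bool → ℝ → ℝ) (τ : ℝ → ℝ) (a : Bool) (t : ℝ) : ℝ :=
  (∫ u, ν a u * V (t - u)) + Dat.sg a * NUC43.lgp τ t

/-- **a remainder**: size `s`, energy `E` -/
structure RemOk (s E : ℝ) (ψ : Bool → ℝ → ℝ) : Prop where
  c : ∀ a, ContDiff ℝ 1 (ψ a)
  b : ∀ a t, |ψ a t| ≤ s
  e : ∀ a T, 0 ≤ T → ∫ t in (-(T + 1))..(T + 1), (ψ a t ^ 2 + deriv (ψ a) t ^ 2) ≤ E

lemma abs_sg (a : Bool) : |Dat.sg a| = 1 := by
  cases a <;> simp [Dat.sg]

namespace SrcOk

variable {s : ℝ} {ν : Bool → ℝ → ℝ} {τ : ℝ → ℝ} (h : SrcOk s ν τ)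

include h

lemma s0 : 0 ≤ s := h.dτ.s0

lemma cont (a : Bool) : Continuous (srcP ν τ a) :=
  (h.dν a).Vf_bc.1.add (h.dτ.lgp_cont.const_mul _)

/-- the potential is bounded by its size -/
theorem le (a : Bool) (t : ℝ) : |srcP ν τ a t| ≤ (12 + ∫ u, |V u|) * s := by
  have h1 := (h.dν a).Vf_bc.2 t
  have h2 := h.dτ.lgp_le h.τ0 t
  unfold srcP
  refine (abs_add_le _ _).trans ?_
  rw [abs_mul, abs_sg, one_mul]
  linarith

end SrcOk

variable [Sea]

/-- **the extra data with a source** -/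
def addS (I : Inp) (ν : Bool → ℝ → ℝ) (τ : ℝ → ℝ) (ψ : Bool → ℝ → ℝ) : Inp :=
  { I with
    B := fun a t => I.B a t + (srcP ν τ a t + ψ a t)
    ν := fun a t => I.ν a t + ν a t
    τD := fun t => I.τD t + τ t }

section

variable {I : Inp} {P : Par} {r : ℕ} {O : Fin r → Xo} {dl ε M b : ℝ} {e : ℝ → ℝ}
  {s E : ℝ} {ν : Bool → ℝ → ℝ} {τ : ℝ → ℝ} {ψ : Bool → ℝ → ℝ}

theorem wO_addS (h : IOk dl ε M b e I P r) (hs : SrcOk s ν τ) (a : Bool) (t : ℝ) :
    wO (addS I ν τ ψ) a t = wO I a t + ψ a t := by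
  obtain ⟨C, hC⟩ := h.νb a
  have i1 : Integrable fun u => I.ν a u * V (t - u) := by
    have h1 : Integrable fun u => V (t - u) := V_integral.1.comp_sub_left t
    exact (h1.mul_bdd (c := C) (h.νc a).aestronglyMeasurable (ae_of_all _ hC)).congr
      (ae_of_all _ fun u => mul_comm _ _)
  have e1 : Vn (addS I ν τ ψ) a t = Vn I a t + ∫ u, ν a u * V (t - u) := by
    unfold Vn
    rw [← integral_add i1 ((hs.dν a).V_in t)]
    refine integral_congr_ae (ae_of_all _ fun u => ?_)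
    show (I.ν a u + ν a u) * V (t - u) = _
    ring
  have e2 : NUC43.lgp (addS I ν τ ψ).τD t = NUC43.lgp I.τD t + NUC43.lgp τ t := by
    unfold NUC43.lgp
    rw [← integral_add (tau_logg_int h.τi h.τ1 t) (hs.dτ.lg_in t)]
    refine integral_congr_ae (ae_of_all _ fun u => ?_)
    show (I.τD u + τ u) * Real.log (g (t - u)) = _
    ring
  unfold wO
  rw [e1, e2]
  show (I.A a (NUAct.zt (NUKer.iD I.η) t)).re + (I.B a t + (srcP ν τ a t + ψ a t)) - _ - _ = _
  unfold srcP
  ring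

theorem wO_addS' (h : IOk dl ε M b e I P r) (hs : SrcOk s ν τ) (a : Bool) :
    wO (addS I ν τ ψ) a = fun t => wO I a t + ψ a t := funext fun t => wO_addS h hs a t

/-- **the extra data with a source are admissible** -/
theorem IOk.addS (h : IOk dl ε M b e I P r) (hs : SrcOk s ν τ) (hψ : RemOk s E ψ) :
    IOk dl ε M b e (addS I ν τ ψ) P r where
  s0 := h.s0
  b0 := h.b0
  cur := h.cur
  der := h.der
  ε1 := h.ε1
  pg := h.pg
  d1 := h.d1
  d2 := h.d2
  Ae := h.Ae
  Bc a := (h.Bc a).add ((hs.cont a).add (hψ.c a).continuous)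
  Bb a := by
    obtain ⟨C, hC⟩ := h.Bb a
    refine ⟨C + ((12 + ∫ u, |V u|) * s + s), fun t => ?_⟩
    show |I.B a t + (srcP ν τ a t + ψ a t)| ≤ _
    have h1 := hC t
    have h2 := hs.le a t
    have h3 := hψ.b a t
    have h4 := abs_add_le (I.B a t) (srcP ν τ a t + ψ a t)
    have h5 := abs_add_le (srcP ν τ a t) (ψ a t)
    linarith
  νc a := (h.νc a).add (hs.dν a).c
  νi a := (h.νi a).add (hs.dν a).int
  νb a := by
    obtain ⟨C, hC⟩ := h.νb a
    refine ⟨C + s, fun t => ?_⟩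
    show |I.ν a t + ν a t| ≤ _
    have h1 := hC t
    have h2 := (hs.dν a).le t
    have h4 := abs_add_le (I.ν a t) (ν a t)
    linarith
  τi := h.τi.add hs.dτ.int
  τ1 := by
    refine (h.τ1.add hs.dτ.mul_id).congr (ae_of_all _ fun x => ?_)
    show I.τD x * x + τ x * x = (I.τD x + τ x) * x
    ring
  wc a := by
    rw [wO_addS' h hs]
    exact (h.wc a).add (hψ.c a)
  wb a := by
    obtain ⟨C, hC⟩ := h.wb a
    refine ⟨C + s, fun t => ?_⟩
    rw [wO_addS h hs]
    have h1 := hC t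
    have h3 := hψ.b a t
    have h4 := abs_add_le (wO I a t) (ψ a t)
    linarith

/-- the equation of the data with a source -/
theorem fld_addS {p n : ℕ} (h : IOk dl ε M b e I P r) (hf : Fld (datO I P O) p n)
    (hs : SrcOk s ν τ) (hψ : RemOk s E ψ) : Fld (datO (addS I ν τ ψ) P O) p n := by
  have e1 : (datO (addS I ν τ ψ) P O).τ = fun t => (datO I P O).τ t + τ t := by
    funext t
    show NUC43.tauC P.jL P.e O t + (I.τD t + τ t) = NUC43.tauC P.jL P.e O t + I.τD t + τ t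
    ring
  refine ⟨?_, ?_, ?_, (h.addS hs hψ).lin_eq⟩
  · rw [e1]
    exact hf.τi.add hs.dτ.int
  · rw [e1]
    refine (hf.τ1.add hs.dτ.mul_id).congr (ae_of_all _ fun x => ?_)
    simp only [Pi.add_apply]
    ring
  · rw [e1, integral_add hf.τi hs.dτ.int, hf.τ0, hs.τ0, add_zero]

/-- the energy of a sum -/
lemma int_add_sq {f f1 : ℝ → ℝ} (hf : ContDiff ℝ 1 f) (hf1 : ContDiff ℝ 1 f1) {T : ℝ} (hT : 0 ≤ T) :
    ∫ t in (-(T + 1))..(T + 1), ((f t + f1 t) ^ 2 + deriv (fun t => f t + f1 t) t ^ 2) ≤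
      2 * (∫ t in (-(T + 1))..(T + 1), (f t ^ 2 + deriv f t ^ 2)) +
      2 * ∫ t in (-(T + 1))..(T + 1), (f1 t ^ 2 + deriv f1 t ^ 2) := by
  have c1 := hf.continuous
  have c2 := hf1.continuous
  have d1 := hf.continuous_deriv le_rfl
  have d2 := hf1.continuous_deriv le_rfl
  have e : ∀ t, deriv (fun t => f t + f1 t) t = deriv f t + deriv f1 t := fun t =>
    deriv_fun_add (hf.differentiable (by norm_num) t) (hf1.differentiable (by norm_num) t)
  simp_rw [e]
  rw [← intervalIntegral.integral_const_mul, ← intervalIntegral.integral_const_mul,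
    ← intervalIntegral.integral_add (Continuous.intervalIntegrable (by fun_prop) _ _)
      (Continuous.intervalIntegrable (by fun_prop) _ _)]
  refine intervalIntegral.integral_mono_on (by linarith)
    (Continuous.intervalIntegrable (by fun_prop) _ _)
    (Continuous.intervalIntegrable (by fun_prop) _ _) fun t _ => ?_
  nlinarith only [sq_nonneg (f t - f1 t), sq_nonneg (deriv f t - deriv f1 t)]

end

/-- **the data of a configuration with a source of integer size** -/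
theorem DatC.addS {ep e1 κ CB ϑ : ℝ} (hep : 0 < ep) (he : 0 < e1) (hCB : 0 ≤ CB) {k m : ℕ} {I : Inp}
    {P : Par} {r : ℕ} {O : Fin r → Xo} {G : ℕ} {g : Fin G → ℝ} {p n : ℕ} {aX aY cf B1 : ℝ → ℝ}
    {T1 D q S : ℝ} (h : DatC ep e1 κ CB ϑ k m I P O g p n aX aY cf B1 T1 D q S)
    {s : ℕ} {E : ℝ} {ν : Bool → ℝ → ℝ} {τ : ℝ → ℝ} {ψ : Bool → ℝ → ℝ} (hs : SrcOk s ν τ)
    (hψ : RemOk s E ψ) :
    DatE ep e1 κ (2 * CB + 1) (2 * ϑ) (2 * E) k m (addS I ν τ ψ) P O
      (Fin.append g (fun _ : Fin s => (0 : ℝ))) p n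
      (fun t => aX t * Real.exp (srcP ν τ true t + ψ true t))
      (fun t => aY t * Real.exp (srcP ν τ false t + ψ false t)) cf B1 T1 D q S := by
  obtain ⟨dl, ε, M, e, hok, h2, h3, h4⟩ := h.ok
  have hTW : 0 ≤ TW ep e1 m := by
    have h0 : 0 ≤ Real.log (m : ℝ) := Real.log_natCast_nonneg m
    unfold TW Tb
    positivity
  have hT1 : 0 ≤ T1 := by
    have h5 := h.tw
    have h6 := excS_nonneg (TW ep e1 m) O
    linarith
  have hs0 : (0 : ℝ) ≤ s := Nat.cast_nonneg s
  have hG0 : (0 : ℝ) ≤ G := Nat.cast_nonneg G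
  have hpot : ∀ a t, (datO (NUSea.H0.addS I ν τ ψ) P O).pot a t =
      (datO I P O).pot a t + (srcP ν τ a t + ψ a t) := by
    intro a t
    unfold Dat.pot
    show _ + _ + (NUH0.slO O a t + (I.B a t + (srcP ν τ a t + ψ a t))) =
      _ + _ + (NUH0.slO O a t + I.B a t) + _
    rw [← add_assoc (NUH0.slO O a t), ← add_assoc]
    rfl
  refine
    { s1 := h.s1, s2 := h.s2, pk := h.pk, nk := h.nk, rk := h.rk, par := h.par
      ok := ⟨dl, ε, M, e, hok.addS hs hψ, h2, h3, h4⟩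
      fld := fld_addS hok h.fld hs hψ
      shl := ?_, q1 := h.q1, tw := h.tw, DS := h.DS, gs := ?_, ν0 := ?_, w0 := ?_, w1 := ?_ }
  · have hm : ∀ a, Measurable fun t => Real.exp (srcP ν τ a t + ψ a t) := fun a =>
      Real.measurable_exp.comp ((hs.cont a).add (hψ.c a).continuous).measurable
    have hS := h.shl
    exact
      { mX := hS.mX.mul (hm true), mY := hS.mY.mul (hm false), mc := hS.mc, mB := hS.mB
        X0 := fun t => mul_nonneg (hS.X0 t) (Real.exp_pos _).le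
        Y0 := fun t => mul_nonneg (hS.Y0 t) (Real.exp_pos _).le
        c0 := hS.c0, B0 := hS.B0, D0 := hS.D0, q0 := hS.q0, cB := hS.cB, cD := hS.cD
        leX := fun t => by
          rw [hpot, Real.exp_add ((datO I P O).pot true t)]
          have h5 := mul_le_mul_of_nonneg_right (hS.leX t)
            (Real.exp_pos (srcP ν τ true t + ψ true t)).le
          linarith
        leY := fun t => by
          rw [hpot, Real.exp_add ((datO I P O).pot false t)]
          have h5 := mul_le_mul_of_nonneg_right (hS.leY t)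
            (Real.exp_pos (srcP ν τ false t + ψ false t)).le
          linarith }
  · intro j
    refine Fin.addCases (fun j => ?_) (fun j => ?_) j
    · rw [Fin.append_left]
      exact h.gs j
    · rw [Fin.append_right, abs_zero]
      exact hT1
  · intro a t
    show |I.ν a t + ν a t| ≤ _
    rw [Fin.sum_univ_add]
    simp only [Fin.append_left, Fin.append_right, sub_zero, Finset.sum_const, Finset.card_univ,
      Fintype.card_fin, nsmul_eq_mul]
    have h5 := h.ν0 a t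
    have h6 := (hs.dν a).b t
    have h7 := abs_add_le (I.ν a t) (ν a t)
    have h8 : 0 ≤ ∑ j, Real.exp (-(5 / 2 * |t - g j|)) :=
      Finset.sum_nonneg fun _ _ => (Real.exp_pos _).le
    have h9 := plt_nonneg (TW ep e1 m) t
    have h10 : 0 ≤ (s : ℝ) * Real.exp (-(5 / 2 * |t|)) := by positivity
    have h11 : 0 ≤ CB * ((s : ℝ) * Real.exp (-(5 / 2 * |t|))) := mul_nonneg hCB h10
    have h12 : 0 ≤ (CB + 1) * (∑ j, Real.exp (-(5 / 2 * |t - g j|)) + plt (TW ep e1 m) t) := by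
      positivity
    have e5 : (2 * CB + 1) * (∑ j, Real.exp (-(5 / 2 * |t - g j|)) +
        (s : ℝ) * Real.exp (-(5 / 2 * |t|)) + plt (TW ep e1 m) t) =
        CB * (∑ j, Real.exp (-(5 / 2 * |t - g j|)) + plt (TW ep e1 m) t) +
        (CB + 1) * (∑ j, Real.exp (-(5 / 2 * |t - g j|)) + plt (TW ep e1 m) t) +
        ((s : ℝ) * Real.exp (-(5 / 2 * |t|)) + 2 * (CB * ((s : ℝ) * Real.exp (-(5 / 2 * |t|))))) := by
      ring
    rw [e5]
    linarith
  · intro a t
    rw [wO_addS hok hs]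
    have h5 := h.w0 a t
    have h6 := hψ.b a t
    have h7 := abs_add_le (wO I a t) (ψ a t)
    push_cast
    have h8 : 0 ≤ CB * (G + s) := by positivity
    linarith
  · intro a T hT
    rw [wO_addS' hok hs]
    have h5 := h.w1 a T hT
    have h6 := hψ.e a T hT
    have h7 := int_add_sq (hok.wc a) (hψ.c a) hT
    linarith

/-- the weight with a source -/
theorem W0_src (X : Dat) {p n : ℕ} (aX aY cf fX fY : ℝ → ℝ) (x : Cfg p n) :
    W0 X p n (fun t => aX t * Real.exp (fX t)) (fun t => aY t * Real.exp (fY t)) cf x =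
      W0 X p n aX aY cf x * Real.exp (∑ i, fX (x.1 i) + ∑ i, fY (x.2 i)) := by
  unfold W0 NU42.WO NU42.ob
  rw [Real.exp_add, Real.exp_sum, Real.exp_sum]
  have e1 : ∀ {q : ℕ} (y : Fin q → ℝ) (D1 : ℝ → ℂ) (a f : ℝ → ℝ),
      ∏ i, (‖1 + D1 (y i)‖ * (fun t => (fun t => a t * Real.exp (f t)) t * cf t) (y i)) =
      (∏ i, (‖1 + D1 (y i)‖ * (fun t => a t * cf t) (y i))) * ∏ i, Real.exp (f (y i)) := by
    intro q y D1 a f
    rw [← Finset.prod_mul_distrib]
    exact Finset.prod_congr rfl fun i _ => by ring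
  rw [e1 x.1, e1 x.2]
  ring

/-- **the crude bound with a source** of integer size `s` and a remainder of energy `E` -/
theorem crudeS {ep : ℝ} (hep : 0 < ep) (hep1 : ep ≤ 1 / 100) {e1 : ℝ} (he : 0 < e1)
    (he1 : e1 ≤ 1 / 100) {δ : ℝ} (hδ : 0 < δ) (k : ℕ) {κ CB : ℝ} (hκ : 0 < κ) (hCB : 0 ≤ CB)
    (G : ℕ) :
    ∃ C1 : ℝ, 0 ≤ C1 ∧ ∀ kap : ℝ, 0 < kap → ∀ x0 : ℝ, 0 < x0 →
    ∃ ϑ Cst : ℝ, 0 < ϑ ∧ 0 ≤ Cst ∧ ∃ m0 : ℕ, ∀ m ≥ m0,
      ∀ (I : Inp) (P : Par) (r : ℕ) (O : Fin r → Xo) (g : Fin G → ℝ) (p n : ℕ)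
        (aX aY cf B1 : ℝ → ℝ) (T1 D q S : ℝ),
      DatC ep e1 κ CB ϑ k m I P O g p n aX aY cf B1 T1 D q S →
      ∀ (s : ℕ) (E : ℝ), 0 ≤ E → ∀ (ν : Bool → ℝ → ℝ) (τ : ℝ → ℝ) (ψ : Bool → ℝ → ℝ),
      SrcOk s ν τ → RemOk s E ψ →
        ∫⁻ x, ENNReal.ofReal (W0 (datO I P O) p n aX aY cf x) *
            ENNReal.ofReal (Real.exp (∑ i, (srcP ν τ true (x.1 i) + ψ true (x.1 i)) +
              ∑ i, (srcP ν τ false (x.2 i) + ψ false (x.2 i)))) ≤
          ENNReal.ofReal ((p.factorial : ℝ) * n.factorial *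
            (Cst * Real.exp (C1 * (s + E) + x0 * (s : ℝ) ^ 2) *
              (m : ℝ) ^ (7 / 8 + 2 * (ep + e1) + δ) * (1 + S) *
              Real.exp (confC ep e1 m (addS I ν τ ψ) P p n 6 kap O T1))) := by
  obtain ⟨C1, hC1, HC⟩ := crudeE hep hep1 he he1 hδ k hκ (show 0 ≤ 2 * CB + 1 by linarith)
  refine ⟨2 * C1 + 6, by linarith, ?_⟩
  intro kap hkap x0 hx0
  obtain ⟨ϑ, Cst, hϑ, hCst, m0, H⟩ := HC kap hkap (x0 / 2) (by linarith)
  refine ⟨ϑ / 2, Cst * Real.exp (6 * G + x0 * (G : ℝ) ^ 2), by positivity, by positivity, m0, ?_⟩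
  intro m hm I P r O g p n aX aY cf B1 T1 D q S hD s E hE ν τ ψ hs hψ
  have h1 := hD.addS hep he hCB hs hψ
  rw [show 2 * (ϑ / 2) = ϑ by ring] at h1
  have h2 := H m hm (G + s) (2 * E) (by linarith) _ _ _ _ _ _ _ _ _ _ _ _ _ _ _ h1
  have ew : ∀ x : Cfg p n, ENNReal.ofReal (W0 (datO I P O) p n aX aY cf x) *
      ENNReal.ofReal (Real.exp (∑ i, (srcP ν τ true (x.1 i) + ψ true (x.1 i)) +
        ∑ i, (srcP ν τ false (x.2 i) + ψ false (x.2 i)))) =
      ENNReal.ofReal (W0 (datO (addS I ν τ ψ) P O) p n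
        (fun t => aX t * Real.exp (srcP ν τ true t + ψ true t))
        (fun t => aY t * Real.exp (srcP ν τ false t + ψ false t)) cf x) := by
    intro x
    have e2 : W0 (datO (addS I ν τ ψ) P O) p n
        (fun t => aX t * Real.exp (srcP ν τ true t + ψ true t))
        (fun t => aY t * Real.exp (srcP ν τ false t + ψ false t)) cf x =
        W0 (datO I P O) p n (fun t => aX t * Real.exp (srcP ν τ true t + ψ true t))
        (fun t => aY t * Real.exp (srcP ν τ false t + ψ false t)) cf x := rfl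
    rw [e2, W0_src (datO I P O) aX aY cf (fun t => srcP ν τ true t + ψ true t)
      (fun t => srcP ν τ false t + ψ false t), ← ENNReal.ofReal_mul' (Real.exp_pos _).le]
  simp_rw [ew]
  refine h2.trans (ENNReal.ofReal_le_ofReal ?_)
  have hS0 : 0 ≤ S := le_trans (mul_nonneg hD.shl.D0 (Real.exp_pos _).le) hD.DS
  have h3 : C1 * (2 * E) + 6 * ((G + s : ℕ) : ℝ) + x0 / 2 * ((G + s : ℕ) : ℝ) ^ 2 ≤
      (6 * G + x0 * (G : ℝ) ^ 2) + ((2 * C1 + 6) * (s + E) + x0 * (s : ℝ) ^ 2) := by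
    push_cast
    have hs0 : (0 : ℝ) ≤ s := Nat.cast_nonneg s
    have h4 : 0 ≤ C1 * (s : ℝ) := by positivity
    nlinarith only [h4, hE, mul_nonneg hx0.le (sq_nonneg ((G : ℝ) - s))]
  have h5 := Real.exp_le_exp.2 h3
  rw [Real.exp_add (6 * (G : ℝ) + x0 * (G : ℝ) ^ 2)] at h5
  have h6 : 0 ≤ (m : ℝ) ^ (7 / 8 + 2 * (ep + e1) + δ) * (1 + S) *
      Real.exp (confC ep e1 m (addS I ν τ ψ) P p n 6 kap O T1) := by positivity
  have h7 : Cst * Real.exp (C1 * (2 * E) + 6 * ((G + s : ℕ) : ℝ) + x0 / 2 * ((G + s : ℕ) : ℝ) ^ 2) ≤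
      Cst * (Real.exp (6 * (G : ℝ) + x0 * (G : ℝ) ^ 2) *
        Real.exp ((2 * C1 + 6) * (s + E) + x0 * (s : ℝ) ^ 2)) :=
    mul_le_mul_of_nonneg_left h5 hCst
  have h8 := mul_le_mul_of_nonneg_right h7 h6
  have h9 : (0 : ℝ) ≤ (p.factorial : ℝ) * n.factorial := by positivity
  refine mul_le_mul_of_nonneg_left ?_ h9
  linarith

end NUSea.H0

end
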