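import Pool.Agent.IST.ER
import Pool.Agent.PV.E2V

/-!
# IST, T7: the value along the path with rows at `± x`, `0 ≤ x ≤ l / 2`, legs at heights `|τ| ≤ R`

* `geo7` : the landed strip, field analytic for `|Im z| ≤ 7/10 l`;
* `Lim_shift`, `MeanDat_shift`, `meanDatR` : mean density of the legs at every height;
* `Pt` : the data of level two, the first Ward identity (field `xiX x`) and the derivatives in the height of
  the legs, at one point `(x, τ)`, all errors `δ`;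
* `Pt.eq` : `|f_x - (1/4) tan θ f_ττ| ≤ C e^{6R} δ`;
* **`T7_legs`** : `f` close to the constant `g` for rows at `0` is close to `g` for rows at `± x`:
  `|f x τ - g| ≤ δ0 + C e^{6R} δ + 2 M e^{C κ² - κ (R - |τ|)}`.
-/

set_option autoImplicit false

open Complex Set Filter Topology MeasureTheory

noncomputable section

namespace IST

open NUMF (l r l_pos r_pos r_lt_one)
open PBV
open PBEI (sg sg' sg'' h0T g2T cL cL_pos h0_TC g2_TC TC_sub mfL mfL')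
open Pool.Agent.PB (Lim rl MeanDat VDat mV CV CmV CsV CssV)

/-- the landed strip, field analytic for `|Im z| ≤ 7/10 l` -/
theorem geo7 : Geo (-(l / 10)) (9 / 20 * l) (-(l / 5)) (3 / 5 * l) (l / 10) 4 (7 / 10 * l) (9 / 10 * l) := by
  have hl := l_pos
  have hl4 : l = Real.pi / 8 := rfl
  have hpi := Real.pi_pos
  refine ⟨by linarith, by linarith, by linarith, by norm_num, ?_, ?_, ?_, by linarith, by linarith, by linarith,
    by linarith⟩
  · rw [hl4]; linarith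
  · rw [abs_neg, abs_of_pos (by linarith)]; linarith
  · rw [abs_of_pos (by linarith)]; linarith

/-! ### translations of the legs -/

lemma Lim_shift {f f' : ℝ → ℂ} {B : ℝ} {fp fm : ℂ} (h : Lim f f' B fp fm) (τ : ℝ) :
    Lim (fun t => f (t - τ)) (fun t => f' (t - τ)) (B * Real.exp (|τ| / 2)) fp fm := by
  have hB := h.B_nonneg
  have h1 : 1 ≤ Real.exp (|τ| / 2) := Real.one_le_exp (by have := abs_nonneg τ; linarith)
  refine ⟨fun s => ?_, h.c.comp (continuous_sub_right τ), fun s => ?_, fun s => ?_, ?_, ?_⟩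
  · have h2 := (h.d (s - τ)).comp_sub_const s τ
    exact h2
  · refine (h.b _).trans ?_
    nlinarith
  · refine (h.b' _).trans ?_
    rw [mul_assoc, ← Real.exp_add]
    refine mul_le_mul_of_nonneg_left (Real.exp_le_exp.2 ?_) hB
    have h3 := abs_sub_abs_le_abs_sub s τ
    linarith
  · exact h.top.comp (tendsto_atTop_add_const_right atTop (-τ) tendsto_id)
  · exact h.bot.comp (tendsto_atBot_add_const_right atBot (-τ) tendsto_id)

lemma MeanDat_shift {m m' D D' : ℝ → ℂ} {B : ℝ} {mp mm : ℂ} (h : MeanDat m m' D D' B mp mm) (τ : ℝ) :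
    MeanDat (fun t => m (t - τ)) (fun t => m' (t - τ)) (fun t => D (t - τ)) (fun t => D' (t - τ))
      (B * Real.exp (|τ| / 2)) mp mm := by
  refine ⟨Lim_shift h.lim τ, fun t => (h.dD (t - τ)).comp_sub_const t τ, fun t => ?_, ?_, ?_⟩
  · rw [← h.eq (t - τ), ← integral_sub_right_eq_self (μ := volume)
      (fun s : ℝ => m s * (NUMF.V (t - τ - s) : ℂ)) τ]
    refine integral_congr_ae (Eventually.of_forall fun s => ?_)
    simp only
    congr 3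
    ring
  · exact h.top.comp (tendsto_atTop_add_const_right atTop (-τ) tendsto_id)
  · exact h.bot.comp (tendsto_atBot_add_const_right atBot (-τ) tendsto_id)

/-- mean data of the legs at every height -/
theorem meanDatR : ∃ B : ℝ, 1 ≤ B ∧ ∀ R τ : ℝ, |τ| ≤ R → ∃ D : ℝ → ℂ,
    MeanDat (mfL τ) (mfL' τ) D (rl (h0T τ)) (B * Real.exp (2 * R)) (8 * I / (3 * Real.pi))
      (-(8 * I / (3 * Real.pi))) := by
  obtain ⟨B, hB, h⟩ := PBEI.meanDat
  refine ⟨B, hB, fun R τ hτ => ?_⟩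
  have h0 := MeanDat_shift (h 0 (by simp)) τ
  have e1 : (fun t => mfL 0 (t - τ)) = mfL τ := by
    funext t
    unfold mfL
    push_cast
    congr 1
    ring
  have e2 : (fun t => mfL' 0 (t - τ)) = mfL' τ := by
    funext t
    unfold mfL'
    push_cast
    congr 1
    ring
  have e3 : (fun t => rl (h0T 0) (t - τ)) = rl (h0T τ) := by
    funext t
    unfold rl h0T
    push_cast
    congr 1
    ring
  rw [e1, e2, e3] at h0
  have hR : 0 ≤ R := (abs_nonneg _).trans hτ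
  refine ⟨_, { h0 with lim := h0.lim.mono ?_ }⟩
  refine mul_le_mul_of_nonneg_left (Real.exp_le_exp.2 ?_) (by linarith)
  linarith

/-- the leg functions at every height -/
theorem legsTC : ∃ M : ℝ, 0 < M ∧ ∀ a : ℝ, 0 ≤ a → a ≤ 2 → ∀ R τ : ℝ, |τ| ≤ R →
    PBE.TC (-(l / 10)) (9 / 20 * l) a (M * Real.exp (2 * R)) (h0T τ) ∧
    PBE.TC (-(l / 10)) (9 / 20 * l) a (M * Real.exp (2 * R)) (g2T τ) := by
  have hl := l_pos
  have hcL := cL_pos
  refine ⟨cL + cL * Real.exp (2 * (3 / 10 * l)) / (3 / 10 * l), by positivity, fun a ha0 ha R τ hτ => ?_⟩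
  have hR : 0 ≤ R := (abs_nonneg _).trans hτ
  have hE : Real.exp (a * |τ|) ≤ Real.exp (2 * R) := Real.exp_le_exp.2 (by
    have := abs_nonneg τ
    nlinarith)
  have hE0 := Real.exp_pos (2 * R)
  have h3 : 0 < cL * Real.exp (2 * (3 / 10 * l)) / (3 / 10 * l) := by positivity
  constructor
  · refine (PBEI.h0_TC' ha0 ha τ).mono ?_
    calc cL * Real.exp (a * |τ|) ≤ cL * Real.exp (2 * R) := by gcongr
      _ ≤ _ := by
        refine mul_le_mul_of_nonneg_right ?_ hE0.le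
        linarith
  · refine (g2_TC ha0 ha τ).mono ?_
    calc cL * Real.exp (a * |τ|) * Real.exp (a * (3 / 10 * l)) / (3 / 10 * l) ≤
          cL * Real.exp (2 * R) * Real.exp (2 * (3 / 10 * l)) / (3 / 10 * l) := by gcongr
      _ = (cL * Real.exp (2 * (3 / 10 * l)) / (3 / 10 * l)) * Real.exp (2 * R) := by ring
      _ ≤ _ := by
        refine mul_le_mul_of_nonneg_right ?_ hE0.le
        linarith

/-- plateaus of the field -/
abbrev tn (x : ℝ) : ℂ := ((Real.tan (8 / 3 * x) : ℝ) : ℂ)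

/-- first factors of the product representations at `xiX x` -/
abbrev apX (x : ℝ) : Bool × ℝ → ℂ → ℂ := AE (Ep (xiX x) (-tn x) (tn x)) (-(l / 5)) (3 / 5 * l)
abbrev amX (x : ℝ) : Bool × ℝ → ℂ → ℂ := AE (Em (xiX x) (-tn x) (tn x)) (-(l / 5)) (3 / 5 * l)
abbrev bX : Bool × ℝ → ℂ → ℂ := BE 4 (-(l / 5)) (3 / 5 * l)

/-- **the data at one point**: rows at `± x`, legs at height `τ` -/
structure Pt (a x τ : ℝ) (f fx ft ftt : ℂ) (δ : ℝ) (G1 : (ℂ → ℂ) → ℂ) (G2 H2 : (ℂ → ℂ) → (ℂ → ℂ) → ℂ)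
    (Hs : (ℂ → ℂ) → ℂ) (Hss : ℂ) : Prop where
  lev : PBE.Lev2 (-(l / 10)) (9 / 20 * l) a f G1 G2 (mV (mfL τ)) CV δ
  levm : PBE.Lev2m (-(l / 10)) (9 / 20 * l) a f H2 Hs Hss CmV (CsV sg') (CssV sg') δ
  l1 : PBE.Lin1 (-(l / 10)) (9 / 20 * l) a G1
  l2 : PBE.Lin2 (-(l / 10)) (9 / 20 * l) a G2
  iG : Integrable (fun s => G2 (apX x s) (bX s)) wm
  iH : Integrable (fun s => H2 (amX x s) (bX s)) wm
  ward : ‖fx - ((∫ s, G2 (apX x s) (bX s) ∂wm) + ((∫ s, H2 (amX x s) (bX s) ∂wm) +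
    2 * Hs (beC (xiX x) (-tn x) (tn x)) + tn x * Hss) + G1 (fun z => xiX x z * h0T τ z))‖ ≤ δ
  d1 : ‖G1 (h0T τ) + ft‖ ≤ δ
  d2 : ‖G2 (h0T τ) (h0T τ) + G1 (g2T τ) - ftt‖ ≤ δ

/-- **the equation at one point** -/
theorem Pt.eq {a : ℝ} (ha : 1 / 2 ≤ a) (ha2 : a < 2) : ∃ C : ℝ, 0 < C ∧ ∀ x : ℝ, 0 ≤ x → x ≤ l / 2 →
    ∀ R τ : ℝ, |τ| ≤ R → ∀ (f fx ft ftt : ℂ) (δ : ℝ) (G1 : (ℂ → ℂ) → ℂ) (G2 H2 : (ℂ → ℂ) → (ℂ → ℂ) → ℂ)
      (Hs : (ℂ → ℂ) → ℂ) (Hss : ℂ), 0 ≤ δ → Pt a x τ f fx ft ftt δ G1 G2 H2 Hs Hss →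
    ‖fx - ((1 / 4 * Real.tan (8 / 3 * x) : ℝ) : ℂ) * ftt‖ ≤ C * Real.exp (6 * R) * δ := by
  have hl := l_pos
  obtain ⟨M, hM, hT⟩ := legsTC
  obtain ⟨B, hB, hm⟩ := meanDatR
  obtain ⟨K, hK, hX⟩ := xiX_XiA
  obtain ⟨C, hC, hE⟩ := PBX.E_XE geo7 (θ' := l / 50) (by linarith) (by linarith) (by linarith) ha ha2 (by linarith)
    M M B hM.le hM.le (by linarith)
  refine ⟨1 + C * (1 + 3 * K) ^ 2, by positivity, fun x h0 h1 R τ hτ f fx ft ftt δ G1 G2 H2 Hs Hss hδ P => ?_⟩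
  have hR : 0 ≤ R := (abs_nonneg _).trans hτ
  obtain ⟨D, hD⟩ := hm R τ hτ
  obtain ⟨t0, t2⟩ := hT a (by linarith) ha2.le R τ hτ
  obtain ⟨hXi, hP, hMn⟩ := hX x h0 h1
  have hE1 : 1 ≤ Real.exp (2 * R) := Real.one_le_exp (by linarith)
  have key := hE (Real.exp (2 * R)) hE1 (xiX x) K (16 / 3) (-tn x) (tn x) (xiX_measurable x) hXi (by norm_num)
    (h0T τ) (g2T τ) t0 t2 (fun t => Pool.Agent.PB.TC_deriv t0 (by linarith) (by linarith) t)
    (mfL τ) (mfL' τ) D _ _ hD f fx ft ftt G1 G2 H2 Hs Hss δ δ hδ P.lev P.levm P.l1 P.l2 P.iG P.iH (by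
      refine le_trans (le_of_eq ?_) P.ward
      congr 1
      ring) P.d1 P.d2
  have e1 : fx - (-((-tn x - tn x) / 8) * ftt - (-tn x + tn x) / 2 * ft) =
      fx - ((1 / 4 * Real.tan (8 / 3 * x) : ℝ) : ℂ) * ftt := by
    push_cast
    ring
  rw [e1] at key
  refine key.trans ?_
  have e2 : Real.exp (2 * R) ^ 3 = Real.exp (6 * R) := by
    rw [← Real.exp_nat_mul]
    congr 1
    push_cast
    ring
  rw [e2]
  have h6 : 1 ≤ Real.exp (6 * R) := Real.one_le_exp (by linarith)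
  have hn : (1 + K + ‖-tn x‖ + ‖tn x‖) ^ 2 ≤ (1 + 3 * K) ^ 2 :=
    pow_le_pow_left₀ (by positivity) (by linarith) 2
  calc δ + C * Real.exp (6 * R) * (1 + K + ‖-tn x‖ + ‖tn x‖) ^ 2 * δ ≤
        Real.exp (6 * R) * δ + C * Real.exp (6 * R) * (1 + 3 * K) ^ 2 * δ := by
        refine add_le_add ?_ ?_
        · exact le_mul_of_one_le_left hδ h6
        · gcongr
    _ = _ := by ring

/-- **T7, legs**: flatness is transported from rows at `0` to rows at `± x` -/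
theorem T7_legs {a : ℝ} (ha : 1 / 2 ≤ a) (ha2 : a < 2) : ∃ C : ℝ, 0 < C ∧
    ∀ (R κ δ0 δ M : ℝ) (g : ℂ) (f fx ft ftt : ℝ → ℝ → ℂ), 0 < R → 0 ≤ κ → 0 ≤ δ0 → 0 ≤ δ → 0 ≤ M →
    ContinuousOn (fun p : ℝ × ℝ => f p.1 p.2) (Icc 0 (l / 2) ×ˢ Icc (-R) R) →
    (∀ x ∈ Ioc 0 (l / 2), ∀ τ ∈ Ioo (-R) R, HasDerivWithinAt (fun x => f x τ) (fx x τ) (Iic x) x) →
    (∀ x ∈ Ioc 0 (l / 2), ∀ τ ∈ Ioo (-R) R, HasDerivAt (fun τ => f x τ) (ft x τ) τ) →
    (∀ x ∈ Ioc 0 (l / 2), ∀ τ ∈ Ioo (-R) R, HasDerivAt (fun τ => ft x τ) (ftt x τ) τ) →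
    (∀ x ∈ Ioc 0 (l / 2), ∀ τ ∈ Ioo (-R) R, ∃ (G1 : (ℂ → ℂ) → ℂ) (G2 H2 : (ℂ → ℂ) → (ℂ → ℂ) → ℂ)
      (Hs : (ℂ → ℂ) → ℂ) (Hss : ℂ), Pt a x τ (f x τ) (fx x τ) (ft x τ) (ftt x τ) δ G1 G2 H2 Hs Hss) →
    (∀ τ ∈ Icc (-R) R, ‖f 0 τ - g‖ ≤ δ0) →
    (∀ x ∈ Icc 0 (l / 2), ‖f x R - g‖ ≤ M ∧ ‖f x (-R) - g‖ ≤ M) →
    ∀ x ∈ Icc 0 (l / 2), ∀ τ ∈ Icc (-R) R,
      ‖f x τ - g‖ ≤ δ0 + C * Real.exp (6 * R) * δ + 2 * M * Real.exp (C * κ ^ 2 - κ * (R - |τ|)) := by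
  have hl := l_pos
  obtain ⟨C, hC, hP⟩ := Pt.eq ha ha2
  refine ⟨C + 1, by linarith, fun R κ δ0 δ M g f fx ft ftt hR hκ hδ0 hδ hM hc dx dt dtt hpt h0 hb x hx τ hτ => ?_⟩
  have hEE := Real.exp_pos (6 * R)
  have hα : ∀ x ∈ Icc 0 (l / 2), 0 ≤ 1 / 4 * Real.tan (8 / 3 * x) ∧ 1 / 4 * Real.tan (8 / 3 * x) ≤ 1 / 2 := by
    intro x hx
    have h1 := tan_bd hx.1 hx.2
    have h2 : 0 ≤ Real.tan (8 / 3 * x) := by
      have hc := cos_ge hx.1 hx.2
      have ha := angle hx.1 hx.2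
      rw [Real.tan_eq_sin_div_cos]
      refine div_nonneg (Real.sin_nonneg_of_nonneg_of_le_pi (by linarith [ha.1]) ?_) (by linarith)
      have := Real.pi_pos
      linarith [ha.2]
    have h3 := (abs_le.1 h1).2
    constructor <;> linarith
  have main := heat_main (f := fun x τ => f x τ - g) (fs := fx) (ft := ft) (ftt := ftt)
    (α := fun x => 1 / 4 * Real.tan (8 / 3 * x)) (β := fun _ => 0) (α0 := 1 / 2) (β0 := 0) (κ := κ) (R := R)
    (S := l / 2) (M := M) (δ0 := δ0) (δ := C * Real.exp (6 * R) * δ) (by linarith) hR hκ hM hα (by simp)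
    (hc.sub continuousOn_const) (fun x hx τ hτ => (dx x hx τ hτ).sub_const g)
    (fun x hx τ hτ => (dt x hx τ hτ).sub_const g) dtt ?_ h0 hδ0 (by positivity) hb x hx τ hτ
  · refine main.trans ?_
    have hx1 : x ≤ 1 := by
      have := hx.2
      have hl1 : l ≤ 1 := by
        have : l = Real.pi / 8 := rfl
        have := Real.pi_lt_four
        linarith
      linarith
    have hx0 := hx.1
    have e1 : C * Real.exp (6 * R) * δ * x ≤ (C + 1) * Real.exp (6 * R) * δ := by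
      calc C * Real.exp (6 * R) * δ * x ≤ C * Real.exp (6 * R) * δ * 1 := by gcongr
        _ ≤ (C + 1) * Real.exp (6 * R) * δ := by
          rw [mul_one]
          gcongr
          linarith
    have e2 : Real.exp ((1 / 2 * κ ^ 2 + 0 * κ) * x - κ * (R - |τ|)) ≤
        Real.exp ((C + 1) * κ ^ 2 - κ * (R - |τ|)) := by
      refine Real.exp_le_exp.2 ?_
      have : (1 / 2 * κ ^ 2 + 0 * κ) * x ≤ (C + 1) * κ ^ 2 := by
        rw [zero_mul, add_zero]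
        have h2 : 1 / 2 * κ ^ 2 * x ≤ 1 / 2 * κ ^ 2 * 1 := by gcongr
        nlinarith [sq_nonneg κ]
      linarith
    have e3 : 2 * M * Real.exp ((1 / 2 * κ ^ 2 + 0 * κ) * x - κ * (R - |τ|)) ≤
        2 * M * Real.exp ((C + 1) * κ ^ 2 - κ * (R - |τ|)) := by gcongr
    linarith
  · intro x hx τ hτ
    obtain ⟨G1, G2, H2, Hs, Hss, P⟩ := hpt x hx τ hτ
    have h2 := hP x hx.1.le hx.2 R τ (abs_le.2 ⟨hτ.1.le, hτ.2.le⟩) _ _ _ _ δ G1 G2 H2 Hs Hss hδ P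
    refine le_trans (le_of_eq ?_) h2
    congr 1
    push_cast
    ring

end IST

end
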