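import Pool.Agent.IST.TopRW
import Pool.Agent.SeaU.CurEx

/-!
# `topRF` for the seas with given numbers: the curves

`curF_U`: the curves of TARGET-C are admissible uniformly in a family of seas with the numbers `SU`;
`topRU`: `topRF` without the hypothesis on the curves.
-/

set_option autoImplicit false
set_option linter.unusedSectionVars false

noncomputable section

open Complex MeasureTheory Finset
open scoped ENNReal

namespace Pool.Agent.IST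

open NUGC PBO PBF PotH PBR PBI
open NUO NUP1 NUCR NUP1S NUP1S.Ab NUP1S.AbC NUP1S.AbG NURow NUP1.Leg NUStabP NUDispW
open NUSea.H0 (Gd)
open NUSea (SeaBd SeaU)

theorem curF_U (SU : SeaBd) {σ : Type*} (S : σ → NUSea.Sea) (hU : ∀ s, @SeaU SU (S s))
    (P : σ → ℕ → Prop) : CurF S P := by
  intro ep hep hep1 e1 he1 he11 J hJ
  obtain ⟨m1, -, h⟩ := curOKCU SU he1 he11 hJ hep
  refine ⟨m1, fun m hm s _ => @h m hm (S s) (hU s) _ ?_⟩
  have : (0 : ℝ) ≤ m := Nat.cast_nonneg m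
  linarith

/-- **the class `W1 W1'` at fixed half quanta for a family of seas with the numbers `SU`** -/
theorem topRU (hS : StabProd) : ∃ c0 : ℝ, 0 < c0 ∧ ∀ (SU : SeaBd) {σ : Type*} (S : σ → NUSea.Sea)
    (_ : ∀ s, @SeaU SU (S s)) (G : σ → Geo) (P : σ → ℕ → Prop),
    (∀ s m β, ((G s).B m β).Nn) → OneF S G P → ∀ K K2 kapw : ℝ, kapw ≤ c0 →
    ∀ {Ca : ℝ}, 0 ≤ Ca → ∀ {e : ℝ}, 0 < e →
    ∃ κ0 : ℝ, 0 < κ0 ∧ κ0 ≤ 1 / 100 ∧
      ∀ ep : ℝ, 0 < ep → ep ≤ κ0 → ∀ e1 : ℝ, 0 < e1 → e1 ≤ κ0 →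
      ∀ J : ℝ, 0 ≤ J → Real.exp (-(2 * Real.pi * J)) ≤ κ0 →
      ∀ (ι : Type*) (ok : σ → ℕ → ι → Prop) (Φ : σ → ι → ℕ → ℕ → InsE),
      S4F S G P ok Φ K Ca c0 ep e1 J (e / 4) →
      ∃ Cst : ℝ, 0 ≤ Cst ∧ ∃ m0 : ℕ, 5 ≤ m0 ∧ ∀ m ≥ m0, ∀ s : σ, P s m →
        CurB ep (@etaC (S s) e1 J m m) (@etaC' (S s) e1 J m m) ∧
        @TopAt (S s) (G s) ι (ok s m) (fun i => Φ s i m) kapw K2 e ep e1 J Cst m := by
  obtain ⟨c0, hc0, H⟩ := topRF hS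
  exact ⟨c0, hc0, fun SU σ S hU G P hB h1 K K2 kapw hkapw Ca hCa e he =>
    H S G P hB h1 (curF_U SU S hU P) K K2 kapw hkapw hCa he⟩

end Pool.Agent.IST

end
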