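import Pool.Agent.PB.EInst2

/-!
# ISO, T7: the values for an arbitrary analytic velocity (helper68)

`ξ` any field with `XiA ξ b K c xp xm`, `4 ≤ c` (analytic in a strip, plateaus `xp`, `xm`), any geometry
`Geo y₁ y₂ Y₁ Y₂ θ α b Y`, any legs (test functions `h0`, `g2 = h0'`, mean density `MeanDat`).

* `XiA.bdd`, `kp_X`, `km_X`, `u_TC`, `q_TC`;
* **`vdat_X`**: the data of the values `VDat` for the field `ξ`;
* **`E_X`**: `|f_θ - (-(J/8) f_ττ - (xp + xm)/2 f_τ)| ≤ δ0 + C (K + |xp| + |xm| + ..) δ` for all functionals with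
  `Lev2`, `Lev2m`;
* `geoX`: the geometry of the strip `-l/10 < Im < 9l/20` with poles at `± l/2`.
-/

set_option autoImplicit false

open Complex Set Filter Topology MeasureTheory

noncomputable section

namespace PBX

open NUMF (l r l_pos r_pos r_lt_one)
open PBV
open PBEI (sg sg' sg'' lim_sg lim_sg' ae_ne MeasR_of XiA.lim)
open Pool.Agent.PB (Lim rl KC KmC MeasR MeanDat VDat Kw Kg TC_Lim mV CV CmV CsV CssV)

variable {ξ : ℂ → ℂ} {b K c : ℝ} {xp xm : ℂ} {y₁ y₂ Y₁ Y₂ θ α Y : ℝ}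

/-- the field is bounded -/
theorem XiA_bdd (H : XiA ξ b K c xp xm) {z : ℂ} (hz : |z.im| ≤ b) : ‖ξ z‖ ≤ K + ‖xp‖ + ‖xm‖ := by
  have hK := H.K0
  have hE : Real.exp (-(c * |z.re|)) ≤ 1 := Real.exp_le_one_iff.2 (by nlinarith [abs_nonneg z.re, H.c0])
  rcases le_total 0 z.re with h | h
  · have h1 := H.pp z hz h
    have h2 : ‖ξ z‖ ≤ ‖ξ z - xp‖ + ‖xp‖ := by simpa using norm_add_le (ξ z - xp) xp
    have h3 : K * Real.exp (-(c * |z.re|)) ≤ K * 1 := by gcongr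
    linarith [norm_nonneg xm]
  · have h1 := H.pm z hz h
    have h2 : ‖ξ z‖ ≤ ‖ξ z - xm‖ + ‖xm‖ := by simpa using norm_add_le (ξ z - xm) xm
    have h3 : K * Real.exp (-(c * |z.re|)) ≤ K * 1 := by gcongr
    linarith [norm_nonneg xp]

lemma real_mem (h1 : y₁ < 0) (h2 : 0 < y₂) (t : ℝ) : (t : ℂ) ∈ PBE.Sp y₁ y₂ :=
  ⟨by rw [ofReal_im]; exact h1, by rw [ofReal_im]; exact h2⟩

lemma mem_b (G : Geo y₁ y₂ Y₁ Y₂ θ α b Y) {z : ℂ} (hz : z ∈ PBE.Sp y₁ y₂) : |z.im| ≤ b :=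
  (G.of_mem hz).1.le

/-! ### the kernels on the real line -/

theorem kp_X (G : Geo y₁ y₂ Y₁ Y₂ θ α b Y) (H : XiA ξ b K c xp xm) (hc : 4 ≤ c) (h1 : y₁ < 0) (h2 : 0 < y₂) :
    ∀ᵐ p : ℝ × ℝ ∂(volume.prod volume),
      ∫ s, AE (Ep ξ xp xm) Y₁ Y₂ s (p.1 : ℂ) * BE α Y₁ Y₂ s (p.2 : ℂ) ∂wm =
        1 / 4 * (ξ p.1 - ξ p.2) * KC (p.1 - p.2) := by
  have hl := l_pos
  filter_upwards [ae_ne] with p hp
  have e1 := (Ec_decomp (1 / 4) (1 / 4) G H hc (real_mem h1 h2 p.1) (real_mem h1 h2 p.2)).2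
  have e2 := Ep_eq ξ xp xm (z := (p.1 : ℂ)) (w := (p.2 : ℂ)) (by simpa using hl.le)
    (by simpa using hl.le) (by simpa using hl.le) (by exact_mod_cast hp)
  have hu : p.1 - p.2 ≠ 0 := sub_ne_zero.2 hp
  have k1 := kf_real true hu
  have k2 := kf_real false hu
  simp only [if_true, Bool.false_eq_true, if_false] at k1 k2
  rw [← ofReal_sub, k1, k2] at e2
  show ∫ s, AE (Ec (1 / 4) (1 / 4) ξ xp xm) Y₁ Y₂ s (p.1 : ℂ) * BE α Y₁ Y₂ s (p.2 : ℂ) ∂wm = _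
  rw [← e1]
  unfold Ep at e2
  unfold KC
  rw [ofReal_add]
  linear_combination -(1 / 4) * e2

theorem km_X (G : Geo y₁ y₂ Y₁ Y₂ θ α b Y) (H : XiA ξ b K c xp xm) (hc : 4 ≤ c) (h1 : y₁ < 0) (h2 : 0 < y₂) :
    ∀ᵐ p : ℝ × ℝ ∂(volume.prod volume),
      ∫ s, AE (Em ξ xp xm) Y₁ Y₂ s (p.1 : ℂ) * BE α Y₁ Y₂ s (p.2 : ℂ) ∂wm =
        1 / 4 * (ξ p.1 - ξ p.2) * KmC (p.1 - p.2) - beC ξ xp xm p.1 * sg p.2 - sg p.1 * beC ξ xp xm p.2 -
          (xp - xm) / 2 * (1 - sg p.1 * sg p.2) := by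
  have hl := l_pos
  filter_upwards [ae_ne] with p hp
  have e1 := (Ec_decomp (1 / 4) (-(1 / 4)) G H hc (real_mem h1 h2 p.1) (real_mem h1 h2 p.2)).2
  have e2 := Em_eq ξ xp xm (z := (p.1 : ℂ)) (w := (p.2 : ℂ)) (by simpa using hl.le)
    (by simpa using hl.le) (by simpa using hl.le) (by exact_mod_cast hp)
  have hu : p.1 - p.2 ≠ 0 := sub_ne_zero.2 hp
  have k1 := kf_real true hu
  have k2 := kf_real false hu
  simp only [if_true, Bool.false_eq_true, if_false] at k1 k2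
  rw [← ofReal_sub, k1, k2] at e2
  show ∫ s, AE (Ec (1 / 4) (-(1 / 4)) ξ xp xm) Y₁ Y₂ s (p.1 : ℂ) * BE α Y₁ Y₂ s (p.2 : ℂ) ∂wm = _
  rw [← e1]
  unfold KmC sg
  unfold Pl at e2
  rw [ofReal_sub (Kw (p.1 - p.2))]
  unfold Em at e2
  linear_combination -(1 / 4) * e2

/-! ### test functions -/

/-- the localised field -/
theorem u_TC (G : Geo y₁ y₂ Y₁ Y₂ θ α b Y) (H : XiA ξ b K c xp xm) (hc : 4 ≤ c) {a : ℝ} (ha : a ≤ 4) :
    PBE.TC y₁ y₂ a (K + ‖xp - xm‖ / r) (beC ξ xp xm) := by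
  have h1 := abs_lt.1 G.b1
  have h2 := abs_lt.1 G.b2
  have h3 := G.θ0
  exact beC_TC H hc G.bl (by linarith [G.l1]) (by linarith [G.l2]) ha

/-- the field times a test function -/
theorem q_TC (G : Geo y₁ y₂ Y₁ Y₂ θ α b Y) (H : XiA ξ b K c xp xm) {a M : ℝ} {h0 : ℂ → ℂ}
    (h : PBE.TC y₁ y₂ a M h0) : PBE.TC y₁ y₂ a ((K + ‖xp‖ + ‖xm‖) * M) (fun z => ξ z * h0 z) :=
  PBEI.TC_mul h (fun z hz => (H.an z (mem_b G hz)).differentiableWithinAt)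
    (fun z hz => XiA_bdd H (mem_b G hz))

/-- bounds of the first factors -/
abbrev alX (C a K D : ℝ) (q : Bool × ℝ) : ℝ := C * (K + D) * Real.exp (-(a * |q.2|))
/-- bounds of the second factors -/
abbrev beX (α θ a' : ℝ) (q : Bool × ℝ) : ℝ := cE α θ * Real.exp (a' * |q.2|)

/-- **the data of the values for an arbitrary field**; `C` depends on the geometry and the rates only -/
theorem vdat_X (G : Geo y₁ y₂ Y₁ Y₂ θ α b Y) {θ' : ℝ} (hθ' : 0 < θ') (h1 : y₁ < -(2 * θ')) (h2 : 2 * θ' < y₂)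
    {a a' : ℝ} (ha : 1 / 2 ≤ a') (haa : a' < a) (ha2 : a < 2) (haα : a' ≤ α) : ∃ C : ℝ, 1 ≤ C ∧
    ∀ (ξ : ℂ → ℂ) (K c : ℝ) (xp xm : ℂ), Measurable ξ → XiA ξ b K c xp xm → 4 ≤ c →
    ∀ (h0 g2 : ℂ → ℂ) (M0 M2 : ℝ), PBE.TC y₁ y₂ a' M0 h0 → PBE.TC y₁ y₂ a' M2 g2 →
      (∀ t : ℝ, HasDerivAt (rl h0) (g2 t) t) →
    ∀ (mf mf' D : ℝ → ℂ) (B : ℝ) (mp mm : ℂ), MeanDat mf mf' D (rl h0) B mp mm →
    ∀ bb : ℝ, 32 + C * (K + ‖xp‖ + ‖xm‖) + B ≤ bb → 0 ≤ B →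
      VDat y₁ y₂ a' θ' wm wm (AE (Ep ξ xp xm) Y₁ Y₂) (BE α Y₁ Y₂) (alX C a K ‖xp - xm‖) (beX α θ a')
        (AE (Em ξ xp xm) Y₁ Y₂) (BE α Y₁ Y₂) (alX C a K ‖xp - xm‖) (beX α θ a')
        ξ (beC ξ xp xm) h0 g2 (fun z => ξ z * h0 z) (fun t : ℝ => deriv ξ t)
        (rl (deriv (beC ξ xp xm))) sg sg' sg'' mf mf' D bb M0 M2 ((K + ‖xp‖ + ‖xm‖) * M0)
        (K + ‖xp - xm‖ / r) xp xm mp mm ∧
      ∫ q, alX C a K ‖xp - xm‖ q * beX α θ a' q ∂wm = C * (K + ‖xp - xm‖) * cE α θ * (4 / (a - a')) := by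
  have hl := l_pos
  have hr := r_pos
  have ha0 : 0 ≤ a' := by linarith
  obtain ⟨C1, hC1, r1⟩ := Ec_rep (1 / 4) (1 / 4) G (ha0.trans haa.le) ha2
  obtain ⟨C2, hC2, r2⟩ := Ec_rep (1 / 4) (-(1 / 4)) G (ha0.trans haa.le) ha2
  set R := 1 + 1 / r with hR
  have hR0 : 0 < R := by positivity
  set S := max 1 (Real.exp (a' * θ') / θ') with hS
  have hS1 : 1 ≤ S := le_max_left _ _
  set C := 1 + C1 + C2 + R * S with hC
  have hRS : 0 < R * S := by positivity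
  refine ⟨C, by linarith, fun ξ K c xp xm mX H hc h0 g2 M0 M2 t0 t2 dg mf mf' D B mp mm hm bb hb hB => ?_⟩
  have hK := H.K0
  have hD : 0 ≤ ‖xp - xm‖ := norm_nonneg _
  have hKD : 0 ≤ K + ‖xp - xm‖ := by linarith
  have hn := norm_sub_le xp xm
  have hP := norm_nonneg xp
  have hM := norm_nonneg xm
  obtain ⟨p1, e1⟩ := r1 H hc a' ha0 haa haα
  obtain ⟨p2, e2⟩ := r2 H hc a' ha0 haa haα
  have hcE : 0 < cE α θ := by
    have hz := G.θ0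
    have hY := G.αY
    have hα := G.α0
    refine cE_pos hα hz ?_
    have : Y₁ + θ ≤ Y₂ := by linarith [G.l1, G.l2]
    nlinarith
  have al1 : ∀ q : Bool × ℝ, C1 * (K + ‖xp - xm‖) * Real.exp (-(a * |q.2|)) ≤ alX C a K ‖xp - xm‖ q := by
    intro q
    show _ ≤ C * (K + ‖xp - xm‖) * Real.exp (-(a * |q.2|))
    gcongr
    linarith
  have al2 : ∀ q : Bool × ℝ, C2 * (K + ‖xp - xm‖) * Real.exp (-(a * |q.2|)) ≤ alX C a K ‖xp - xm‖ q := by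
    intro q
    show _ ≤ C * (K + ‖xp - xm‖) * Real.exp (-(a * |q.2|))
    gcongr
    linarith
  have hp : 0 < a - a' := by linarith
  have e : (fun q : Bool × ℝ => alX C a K ‖xp - xm‖ q * beX α θ a' q) = fun q : Bool × ℝ =>
      (C * (K + ‖xp - xm‖) * cE α θ) * Real.exp (-((a - a') * |q.2|)) := by
    funext q
    have : Real.exp (-((a - a') * |q.2|)) = Real.exp (-(a * |q.2|)) * Real.exp (a' * |q.2|) := by
      rw [← Real.exp_add]; congr 1; ring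
    show C * (K + ‖xp - xm‖) * Real.exp (-(a * |q.2|)) * (cE α θ * Real.exp (a' * |q.2|)) = _
    rw [this]; ring
  have hint : Integrable (fun q : Bool × ℝ => alX C a K ‖xp - xm‖ q * beX α θ a' q) wm := by
    rw [e]; exact (integrable_exp_wm hp).const_mul _
  have hu := u_TC G H hc (a := a') (by linarith)
  have hy1 : y₁ < 0 := by linarith
  have hy2 : 0 < y₂ := by linarith
  have hCK : C1 * 0 ≤ C * (K + ‖xp‖ + ‖xm‖) := by
    rw [mul_zero]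
    have : 0 < C := by linarith
    positivity
  refine ⟨{
    ha := by linarith
    hθ := hθ'
    h1 := by linarith
    h2 := by linarith
    hb := by linarith
    hR := ⟨fun q => (p1.tA q).mono (al1 q), p1.tB, hint⟩
    hR' := ⟨fun q => (p2.tA q).mono (al2 q), p2.tB, hint⟩
    mA := MeasR_of (AE_Ec_measurable _ _ mX _ _ _ _)
    mB := MeasR_of (BE_measurable _ _ _)
    mA' := MeasR_of (AE_Ec_measurable _ _ mX _ _ _ _)
    mB' := MeasR_of (BE_measurable _ _ _)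
    kp := kp_X G H hc hy1 hy2
    km := km_X G H hc hy1 hy2
    lr := (XiA.lim H (by linarith)).mono ?_
    lu := (TC_Lim hu ha hθ' (by linarith) (by linarith)).mono ?_
    ls := lim_sg.mono (by linarith)
    ls' := lim_sg'.mono (by linarith)
    tu := hu
    hm := { hm with lim := hm.lim.mono (by linarith) }
    th0 := t0
    tg2 := t2
    dg2 := dg
    tq := q_TC G H t0
    eq := fun t => rfl }, ?_⟩
  · have : 1 * (K + ‖xp‖ + ‖xm‖) ≤ C * (K + ‖xp‖ + ‖xm‖) := by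
      gcongr
      linarith
    linarith
  · have h3 : K + ‖xp - xm‖ / r ≤ R * (K + ‖xp‖ + ‖xm‖) := by
      rw [hR, add_mul, one_mul, div_eq_mul_inv, one_div]
      have h4 : ‖xp - xm‖ * r⁻¹ ≤ (K + ‖xp‖ + ‖xm‖) * r⁻¹ := by gcongr; linarith
      have h5 : (K + ‖xp‖ + ‖xm‖) * r⁻¹ = r⁻¹ * (K + ‖xp‖ + ‖xm‖) := mul_comm _ _
      linarith
    have h6 : max (K + ‖xp - xm‖ / r) ((K + ‖xp - xm‖ / r) * Real.exp (a' * θ') / θ') ≤
        (K + ‖xp - xm‖ / r) * S := by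
      have h7 : 0 ≤ K + ‖xp - xm‖ / r := by positivity
      refine max_le ?_ ?_
      · calc K + ‖xp - xm‖ / r = (K + ‖xp - xm‖ / r) * 1 := (mul_one _).symm
          _ ≤ _ := mul_le_mul_of_nonneg_left hS1 h7
      · rw [mul_div_assoc]
        exact mul_le_mul_of_nonneg_left (le_max_right _ _) h7
    have h8 : (K + ‖xp - xm‖ / r) * S ≤ R * (K + ‖xp‖ + ‖xm‖) * S := by gcongr
    have h9 : R * (K + ‖xp‖ + ‖xm‖) * S ≤ C * (K + ‖xp‖ + ‖xm‖) := by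
      have : R * (K + ‖xp‖ + ‖xm‖) * S = (R * S) * (K + ‖xp‖ + ‖xm‖) := by ring
      rw [this]
      gcongr
      linarith
    linarith
  · rw [e, integral_const_mul, integral_exp_wm hp]

/-! ### the equation -/

/-- **`(E')` for an arbitrary field**: `C` depends on the geometry, the rate and the legs (`M0`, `M2`, `B`,
the mass of `h0`) only -/
theorem E_X (G : Geo y₁ y₂ Y₁ Y₂ θ α b Y) {θ' : ℝ} (hθ' : 0 < θ') (h1 : y₁ < -(2 * θ')) (h2 : 2 * θ' < y₂)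
    {a' : ℝ} (ha : 1 / 2 ≤ a') (ha2 : a' < 2) (haα : a' ≤ α) (M0 M2 B : ℝ) (hM0 : 0 ≤ M0) (hM2 : 0 ≤ M2)
    (hB : 0 ≤ B) : ∃ C : ℝ, 0 < C ∧
    ∀ (ξ : ℂ → ℂ) (K c : ℝ) (xp xm : ℂ), Measurable ξ → XiA ξ b K c xp xm → 4 ≤ c →
    ∀ (h0 g2 : ℂ → ℂ), PBE.TC y₁ y₂ a' M0 h0 → PBE.TC y₁ y₂ a' M2 g2 →
      (∀ t : ℝ, HasDerivAt (rl h0) (g2 t) t) →
    ∀ (mf mf' D : ℝ → ℂ) (mp mm : ℂ), MeanDat mf mf' D (rl h0) B mp mm →
    ∀ (f fη fτ fττ : ℂ) (G1 : (ℂ → ℂ) → ℂ) (G2 H2 : (ℂ → ℂ) → (ℂ → ℂ) → ℂ) (Hs : (ℂ → ℂ) → ℂ) (Hss : ℂ)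
      (δ δ0 : ℝ), 0 ≤ δ →
      PBE.Lev2 y₁ y₂ a' f G1 G2 (mV mf) CV δ →
      PBE.Lev2m y₁ y₂ a' f H2 Hs Hss CmV (CsV sg') (CssV sg') δ →
      PBE.Lin1 y₁ y₂ a' G1 → PBE.Lin2 y₁ y₂ a' G2 →
      Integrable (fun s => G2 (AE (Ep ξ xp xm) Y₁ Y₂ s) (BE α Y₁ Y₂ s)) wm →
      Integrable (fun s => H2 (AE (Em ξ xp xm) Y₁ Y₂ s) (BE α Y₁ Y₂ s)) wm →
      ‖fη - ((∫ s, G2 (AE (Ep ξ xp xm) Y₁ Y₂ s) (BE α Y₁ Y₂ s) ∂wm) +
        ((∫ s, H2 (AE (Em ξ xp xm) Y₁ Y₂ s) (BE α Y₁ Y₂ s) ∂wm) + 2 * Hs (beC ξ xp xm) -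
          (xp - xm) / 2 * Hss) + G1 (fun z => ξ z * h0 z))‖ ≤ δ0 →
      ‖G1 h0 + fτ‖ ≤ δ → ‖G2 h0 h0 + G1 g2 - fττ‖ ≤ δ →
      ‖fη - (-((xp - xm) / 8) * fττ - (xp + xm) / 2 * fτ)‖ ≤
        δ0 + C * (1 + K + ‖xp‖ + ‖xm‖) ^ 2 * δ := by
  have hl := l_pos
  have hr := r_pos
  have ha0 : 0 < a' := by linarith
  obtain ⟨C1, hC1, h⟩ := vdat_X G hθ' h1 h2 (a := (a' + 2) / 2) ha (by linarith) (by linarith) haα
  have hcE : 0 < cE α θ := by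
    have hz := G.θ0
    have hY := G.αY
    have hα := G.α0
    refine cE_pos hα hz ?_
    have : Y₁ + θ ≤ Y₂ := by linarith [G.l1, G.l2]
    nlinarith
  set n := 2 * (3 * l) with hn
  have hn0 : 0 < n := by positivity
  set F := 1 + 2 * M0 / (a' * n) with hF
  have hF0 : 0 < F := by positivity
  set W := 4 / ((a' + 2) / 2 - a') with hW
  have hW0 : 0 < W := by
    have : 0 < (a' + 2) / 2 - a' := by linarith
    positivity
  set E1 := C1 * cE α θ * W with hE1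
  have hE10 : 0 < E1 := by positivity
  -- bounds in terms of `X = 1 + K + |xp| + |xm|`
  refine ⟨(3 + (32 + C1 + B) * (2 / a')) * F ^ 2 * E1 + (E1 + 2 * (1 + 1 / r) + 1) + M0 * F + 1 + (1 + M2),
    by positivity, fun ξ K c xp xm mX H hc h0 g2 t0 t2 dg mf mf' D mp mm hm f fη fτ fττ G1 G2 H2 Hs Hss δ δ0 hδ
      hL hL' hG1 hG2 iG iH hI k1 k2 => ?_⟩
  have hK := H.K0
  have hP := norm_nonneg xp
  have hM := norm_nonneg xm
  have hn := norm_sub_le xp xm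
  set X := 1 + K + ‖xp‖ + ‖xm‖ with hX
  have hX1 : 1 ≤ X := by linarith
  have hX2 : X ≤ X ^ 2 := by nlinarith
  obtain ⟨d, hint⟩ := h ξ K c xp xm mX H hc h0 g2 M0 M2 t0 t2 dg mf mf' D B mp mm hm
    (32 + C1 * (K + ‖xp‖ + ‖xm‖) + B) le_rfl hB
  have key := d.E_prime hδ hL hL' hG1 hG2 iG iH hI k1 k2
  refine key.trans ?_
  have hmass : ‖PBE.mass h0‖ = n := by
    rw [d.mass_h0, norm_mul, norm_mul, norm_I, norm_real, Real.norm_of_nonneg (by positivity)]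
    have : ‖(2 : ℂ)‖ = 2 := by simp
    rw [this]; ring
  rw [hmass, hint]
  have b1 : 32 + C1 * (K + ‖xp‖ + ‖xm‖) + B ≤ (32 + C1 + B) * X := by
    have h3 : 0 ≤ C1 := by linarith
    nlinarith
  have b2 : K + ‖xp - xm‖ ≤ X := by linarith
  have b3 : K + ‖xp - xm‖ / r ≤ (1 + 1 / r) * X := by
    rw [add_mul, one_mul, div_eq_mul_inv, one_div]
    have h4 : ‖xp - xm‖ * r⁻¹ ≤ X * r⁻¹ := by gcongr; linarith
    have h5 : X * r⁻¹ = r⁻¹ * X := mul_comm _ _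
    linarith
  have b4 : ‖(xp + xm) / 2‖ ≤ X := by
    rw [norm_div]
    have h3 := norm_add_le xp xm
    have : ‖(2 : ℂ)‖ = 2 := by simp
    rw [this]; linarith
  have b5 : ‖-((xp - xm) / 8)‖ ≤ X := by
    rw [norm_neg, norm_div]
    have : ‖(8 : ℂ)‖ = 8 := by simp
    rw [this]; linarith
  have b6 : ‖xp - xm‖ / 2 ≤ X := by linarith
  have b7 : K + ‖xp‖ + ‖xm‖ ≤ X := by linarith
  have hC1' : 0 < C1 := by linarith
  have s1 : (3 + (32 + C1 * (K + ‖xp‖ + ‖xm‖) + B) * (2 / a')) * F ^ 2 *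
      (C1 * (K + ‖xp - xm‖) * cE α θ * W) ≤ (3 + (32 + C1 + B) * (2 / a')) * F ^ 2 * E1 * X ^ 2 := by
    have h3 : 3 + (32 + C1 * (K + ‖xp‖ + ‖xm‖) + B) * (2 / a') ≤ (3 + (32 + C1 + B) * (2 / a')) * X := by
      have h4 : (32 + C1 * (K + ‖xp‖ + ‖xm‖) + B) * (2 / a') ≤ (32 + C1 + B) * X * (2 / a') := by gcongr
      nlinarith
    have h5 : C1 * (K + ‖xp - xm‖) * cE α θ * W ≤ E1 * X := by
      rw [hE1]
      calc C1 * (K + ‖xp - xm‖) * cE α θ * W ≤ C1 * X * cE α θ * W := by gcongr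
        _ = _ := by ring
    have hD : 0 ≤ ‖xp - xm‖ := norm_nonneg _
    calc (3 + (32 + C1 * (K + ‖xp‖ + ‖xm‖) + B) * (2 / a')) * F ^ 2 * (C1 * (K + ‖xp - xm‖) * cE α θ * W) ≤
          ((3 + (32 + C1 + B) * (2 / a')) * X) * F ^ 2 * (E1 * X) := by gcongr
      _ = _ := by ring
  have s2 : C1 * (K + ‖xp - xm‖) * cE α θ * W + 2 * (K + ‖xp - xm‖ / r) + ‖xp - xm‖ / 2 ≤
      (E1 + 2 * (1 + 1 / r) + 1) * X ^ 2 := by
    have h5 : C1 * (K + ‖xp - xm‖) * cE α θ * W ≤ E1 * X := by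
      rw [hE1]
      calc C1 * (K + ‖xp - xm‖) * cE α θ * W ≤ C1 * X * cE α θ * W := by gcongr
        _ = _ := by ring
    have h6 : (E1 + 2 * (1 + 1 / r) + 1) * X ≤ (E1 + 2 * (1 + 1 / r) + 1) * X ^ 2 := by gcongr
    nlinarith
  have s3 : (K + ‖xp‖ + ‖xm‖) * M0 * F ≤ M0 * F * X ^ 2 := by
    calc (K + ‖xp‖ + ‖xm‖) * M0 * F ≤ X ^ 2 * M0 * F := by gcongr; linarith
      _ = _ := by ring
  have s4 : ‖(xp + xm) / 2‖ ≤ 1 * X ^ 2 := by linarith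
  have s5 : ‖-((xp - xm) / 8)‖ * (1 + M2) ≤ (1 + M2) * X ^ 2 := by
    calc ‖-((xp - xm) / 8)‖ * (1 + M2) ≤ X ^ 2 * (1 + M2) := by gcongr; linarith
      _ = _ := by ring
  have s6 : (3 + (32 + C1 * (K + ‖xp‖ + ‖xm‖) + B) * (2 / a')) * F ^ 2 *
      (C1 * (K + ‖xp - xm‖) * cE α θ * W) +
        (C1 * (K + ‖xp - xm‖) * cE α θ * W + 2 * (K + ‖xp - xm‖ / r) + ‖xp - xm‖ / 2) +
        (K + ‖xp‖ + ‖xm‖) * M0 * F + ‖(xp + xm) / 2‖ + ‖-((xp - xm) / 8)‖ * (1 + M2) ≤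
      ((3 + (32 + C1 + B) * (2 / a')) * F ^ 2 * E1 + (E1 + 2 * (1 + 1 / r) + 1) + M0 * F + 1 + (1 + M2)) *
        X ^ 2 := by
    linarith
  have s7 := mul_le_mul_of_nonneg_right s6 hδ
  rw [← hF]
  linarith

/-- the strip of plan B with poles of the field at `± l/2` -/
theorem geoX : Geo (-(l / 10)) (9 / 20 * l) (-(l / 5)) (47 / 100 * l) (l / 50) 4 (12 / 25 * l) (9 / 10 * l) := by
  have hl := l_pos
  have hl4 : l = Real.pi / 8 := rfl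
  have hpi := Real.pi_pos
  refine ⟨by linarith, by linarith, by linarith, by norm_num, ?_, ?_, ?_, by linarith, by linarith, by linarith,
    by linarith⟩
  · rw [hl4]; linarith
  · rw [abs_neg, abs_of_pos (by linarith)]; linarith
  · rw [abs_of_pos (by linarith)]; linarith

end PBX

end
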