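import Pool.Agent.IST.ZT

/-!
# ISO, T1: stage A, size of the derivative on the real line

`4 / (3 √3) ≤ P(t) / P_x(zx x t) ≤ 1`, `0 ≤ x ≤ l / 2`, `t` real.
-/

set_option autoImplicit false

open Complex Set Filter Topology ComplexConjugate

namespace ISTZ

open NUMF (l l_pos)
open IST (xiX xiX_mul xiX_an)

noncomputable section

/-- the field on the real line, `θ = 8x/3`, `q = 8y/3` -/
def xr (θ q : ℝ) : ℝ :=
  -Real.tan θ * (Real.sinh q / Real.cosh q) * (1 + 2 / (2 * Real.cosh (2 * q) - 1 + 2 * Real.cos (2 * θ)))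

/-- minus its derivative divided by `tan θ` -/
def xd (θ q : ℝ) : ℝ :=
  1 / Real.cosh q ^ 2 * (1 + 2 / (2 * Real.cosh (2 * q) - 1 + 2 * Real.cos (2 * θ))) -
    Real.sinh q / Real.cosh q * (8 * Real.sinh (2 * q) / (2 * Real.cosh (2 * q) - 1 + 2 * Real.cos (2 * θ)) ^ 2)

lemma D_pos {θ : ℝ} (_hθ : 1 / 2 ≤ Real.cos (2 * θ)) (q : ℝ) :
    1 + 2 * Real.cos (2 * θ) ≤ 2 * Real.cosh (2 * q) - 1 + 2 * Real.cos (2 * θ) := by
  have := Real.one_le_cosh (2 * q)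
  linarith

theorem hasDerivAt_xr {θ : ℝ} (hθ : 1 / 2 ≤ Real.cos (2 * θ)) (q : ℝ) :
    HasDerivAt (xr θ) (-Real.tan θ * xd θ q) q := by
  have hD := D_pos hθ q
  have hD0 : 0 < 2 * Real.cosh (2 * q) - 1 + 2 * Real.cos (2 * θ) := by linarith
  have hC := Real.cosh_pos q
  have h1 : HasDerivAt (fun q => Real.sinh q / Real.cosh q)
      ((Real.cosh q * Real.cosh q - Real.sinh q * Real.sinh q) / Real.cosh q ^ 2) q :=
    (Real.hasDerivAt_sinh q).div (Real.hasDerivAt_cosh q) hC.ne'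
  have h2 : HasDerivAt (fun q : ℝ => 2 * Real.cosh (2 * q) - 1 + 2 * Real.cos (2 * θ))
      (2 * (Real.sinh (2 * q) * 2)) q := by
    have h3 : HasDerivAt (fun q : ℝ => Real.cosh (2 * q)) (Real.sinh (2 * q) * 2) q := by
      have h4 : HasDerivAt (fun q : ℝ => 2 * q) 2 q := by
        simpa using (hasDerivAt_id q).const_mul (2:ℝ)
      exact h4.cosh
    exact ((h3.const_mul 2).sub_const 1).add_const _
  have h3 : HasDerivAt (fun q : ℝ => 1 + 2 / (2 * Real.cosh (2 * q) - 1 + 2 * Real.cos (2 * θ)))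
      (-(2 * (2 * (Real.sinh (2 * q) * 2))) / (2 * Real.cosh (2 * q) - 1 + 2 * Real.cos (2 * θ)) ^ 2) q := by
    have h4 := ((hasDerivAt_const q (2:ℝ)).div h2 hD0.ne').const_add 1
    refine h4.congr_deriv ?_
    ring
  have h4 := (h1.mul h3).const_mul (-Real.tan θ)
  have e : xr θ = fun q => -Real.tan θ * ((Real.sinh q / Real.cosh q) *
      (1 + 2 / (2 * Real.cosh (2 * q) - 1 + 2 * Real.cos (2 * θ)))) := by
    funext q
    unfold xr
    ring
  rw [e]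
  refine h4.congr_deriv ?_
  have hc : Real.cosh q * Real.cosh q - Real.sinh q * Real.sinh q = 1 := by
    have := Real.cosh_sq q
    nlinarith
  rw [hc]
  unfold xd
  ring

theorem xd_nonneg {θ : ℝ} (hθ : 1 / 2 ≤ Real.cos (2 * θ)) (q : ℝ) : 0 ≤ xd θ q := by
  have hD := D_pos hθ q
  obtain ⟨D, hDd⟩ : ∃ D, D = 2 * Real.cosh (2 * q) - 1 + 2 * Real.cos (2 * θ) := ⟨_, rfl⟩
  have hC := Real.cosh_pos q
  have h1 := Real.one_le_cosh (2 * q)
  have h2 : Real.sinh (2 * q) ^ 2 = Real.cosh (2 * q) ^ 2 - 1 := by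
    have := Real.cosh_sq (2 * q)
    linarith
  have h3 : Real.sinh (2 * q) = 2 * Real.sinh q * Real.cosh q := Real.sinh_two_mul q
  rw [← hDd] at hD
  have hD0 : 0 < D := by linarith
  have key : xd θ q = (D ^ 2 + 2 * D - 4 * Real.sinh (2 * q) ^ 2) / (Real.cosh q ^ 2 * D ^ 2) := by
    unfold xd
    rw [← hDd, h3]
    field_simp
    ring
  rw [key]
  refine div_nonneg ?_ (by positivity)
  rw [h2]
  have h4 : 2 * Real.cosh (2 * q) ≤ D := by linarith
  have h5 : (2 * Real.cosh (2 * q)) ^ 2 ≤ D ^ 2 := by gcongr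
  nlinarith

theorem xd_le {θ : ℝ} (hθ : 1 / 2 ≤ Real.cos (2 * θ)) (q : ℝ) : xd θ q ≤ xd θ 0 := by
  have hD := D_pos hθ q
  have hC := Real.one_le_cosh q
  have e0 : xd θ 0 = 1 * (1 + 2 / (1 + 2 * Real.cos (2 * θ))) := by
    unfold xd
    simp only [mul_zero, Real.cosh_zero, Real.sinh_zero, zero_div, sub_zero, one_pow,
      div_one, mul_one]
    norm_num
  have h1 : 0 ≤ Real.sinh q / Real.cosh q *
      (8 * Real.sinh (2 * q) / (2 * Real.cosh (2 * q) - 1 + 2 * Real.cos (2 * θ)) ^ 2) := by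
    have e : Real.sinh q / Real.cosh q *
        (8 * Real.sinh (2 * q) / (2 * Real.cosh (2 * q) - 1 + 2 * Real.cos (2 * θ)) ^ 2) =
        16 * Real.sinh q ^ 2 / (2 * Real.cosh (2 * q) - 1 + 2 * Real.cos (2 * θ)) ^ 2 := by
      rw [Real.sinh_two_mul]
      have : Real.cosh q ≠ 0 := by linarith
      field_simp
      ring
    rw [e]
    positivity
  have h2 : 1 / Real.cosh q ^ 2 ≤ 1 := by
    rw [div_le_one (by positivity)]
    exact one_le_pow₀ hC
  have h3 : 2 / (2 * Real.cosh (2 * q) - 1 + 2 * Real.cos (2 * θ)) ≤ 2 / (1 + 2 * Real.cos (2 * θ)) := by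
    have : 0 < 1 + 2 * Real.cos (2 * θ) := by linarith
    gcongr
  have h4 : 0 ≤ 2 / (2 * Real.cosh (2 * q) - 1 + 2 * Real.cos (2 * θ)) := by
    have : 0 < 2 * Real.cosh (2 * q) - 1 + 2 * Real.cos (2 * θ) := by linarith
    positivity
  rw [e0]
  unfold xd
  have h5 : 1 / Real.cosh q ^ 2 * (1 + 2 / (2 * Real.cosh (2 * q) - 1 + 2 * Real.cos (2 * θ))) ≤
      1 * (1 + 2 / (1 + 2 * Real.cos (2 * θ))) := by
    gcongr
  linarith

lemma ang {x : ℝ} (hx : x ∈ Icc 0 (l / 2)) : 0 ≤ 8 / 3 * x ∧ 8 / 3 * x ≤ Real.pi / 6 := by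
  obtain ⟨h0, h1⟩ := hx
  have : l = Real.pi / 8 := rfl
  rw [this] at h1
  constructor
  · positivity
  · linarith

lemma cos2 {x : ℝ} (hx : x ∈ Icc 0 (l / 2)) : 1 / 2 ≤ Real.cos (2 * (8 / 3 * x)) := by
  obtain ⟨a, b⟩ := ang hx
  have := Real.cos_le_cos_of_nonneg_of_le_pi (x := 2 * (8 / 3 * x)) (y := Real.pi / 3) (by positivity)
    (by have := Real.pi_pos; linarith) (by linarith)
  rwa [Real.cos_pi_div_three] at this

lemma cos1 {x : ℝ} (hx : x ∈ Icc 0 (l / 2)) : √3 / 2 ≤ Real.cos (8 / 3 * x) := by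
  obtain ⟨a, b⟩ := ang hx
  have := Real.cos_le_cos_of_nonneg_of_le_pi (x := 8 / 3 * x) (y := Real.pi / 6) a
    (by have := Real.pi_pos; linarith) b
  rwa [Real.cos_pi_div_six] at this

lemma tan_nn {x : ℝ} (hx : x ∈ Icc 0 (l / 2)) : 0 ≤ Real.tan (8 / 3 * x) := by
  obtain ⟨a, b⟩ := ang hx
  exact Real.tan_nonneg_of_nonneg_of_le_pi_div_two a (by have := Real.pi_pos; linarith)

lemma xiX_real (x y : ℝ) : xiX x y = (xr (8 / 3 * x) (8 / 3 * y) : ℂ) := by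
  unfold xiX IST.den xr
  have e1 : (8 / 3 * (y : ℂ)) = ((8 / 3 * y : ℝ) : ℂ) := by push_cast; ring
  have e2 : (16 / 3 * (y : ℂ)) = ((2 * (8 / 3 * y) : ℝ) : ℂ) := by push_cast; ring
  have e3 : 16 / 3 * x = 2 * (8 / 3 * x) := by ring
  rw [e1, e2, e3, Complex.tanh_eq_sinh_div_cosh]
  push_cast
  ring

/-- the derivative of the field at real points -/
theorem hasDerivAt_xiX {x : ℝ} (hx : x ∈ Icc 0 (l / 2)) (y : ℝ) :
    HasDerivAt (xiX x) ((8 / 3 * (-Real.tan (8 / 3 * x) * xd (8 / 3 * x) (8 / 3 * y)) : ℝ) : ℂ) y := by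
  have h1 : HasDerivAt (xiX x) (deriv (xiX x) y) (y : ℂ) :=
    (xiX_an hx.1 hx.2 (by
      have := l_pos
      rw [Complex.ofReal_im, abs_zero]
      positivity)).hasDerivAt
  have h2 := h1.comp_ofReal
  have h3 : HasDerivAt (fun y : ℝ => xr (8 / 3 * x) (8 / 3 * y))
      (8 / 3 * (-Real.tan (8 / 3 * x) * xd (8 / 3 * x) (8 / 3 * y))) y := by
    have h4 : HasDerivAt (fun y : ℝ => 8 / 3 * y) (8 / 3) y := by
      simpa using (hasDerivAt_id y).const_mul (8 / 3 : ℝ)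
    have h5 := (hasDerivAt_xr (cos2 hx) (8 / 3 * y)).comp y h4
    refine h5.congr_deriv ?_
    ring
  have h4 := h3.ofReal_comp
  have e : (fun y : ℝ => xiX x y) = fun y : ℝ => ((xr (8 / 3 * x) (8 / 3 * y) : ℝ) : ℂ) := by
    funext y
    exact xiX_real x y
  rw [← e] at h4
  have := h2.unique h4
  rwa [this] at h1

/-- derivative of `Pc` -/
lemma hasDerivAt_Pc {z : ℂ} (hz : |z.im| < l) : HasDerivAt NUMF.Pc (64 / 9 * p1 (8 / 3 * z)) z := by
  have h1 : HasDerivAt (fun z : ℂ => 8 / 3 * z) (8 / 3) z := by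
    simpa using (hasDerivAt_id z).const_mul (8 / 3 : ℂ)
  have h2 : HasDerivAt p (p1 (8 / 3 * z)) (8 / 3 * z) := hasDerivAt_p (by
    rw [im_83, abs_mul, abs_of_pos (by norm_num : (0:ℝ) < 8 / 3)]
    have : l = Real.pi / 8 := rfl
    rw [this] at hz
    linarith)
  have h3 := (HasDerivAt.comp z h2 h1).const_mul (8 / 3 : ℂ)
  have e : NUMF.Pc = fun z => 8 / 3 * (p ∘ fun z => 8 / 3 * z) z := by
    funext z
    exact Pc_eq z
  rw [e]
  refine h3.congr_deriv ?_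
  ring

/-- **the continuity equation** -/
theorem cont_eq {x : ℝ} (hx : x ∈ Icc 0 (l / 2)) (y : ℝ) {d1 d2 : ℂ}
    (h1 : HasDerivAt NUMF.Pc d1 ((y : ℂ) + x * I)) (h2 : HasDerivAt NUMF.Pc d2 ((y : ℂ) - x * I)) :
    (d1 + d2) / 2 * xiX x y + I * ((d1 - d2) / 2) =
      -(Px x y * ((8 / 3 * (-Real.tan (8 / 3 * x) * xd (8 / 3 * x) (8 / 3 * y)) : ℝ) : ℂ)) := by
  have hl := l_pos
  have a1 : HasDerivAt (fun z : ℂ => NUMF.Pc (z + x * I)) d1 y := h1.comp_add_const _ _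
  have a2 : HasDerivAt (fun z : ℂ => NUMF.Pc (z - x * I)) d2 y := h2.comp_sub_const _ _
  have a3 := (a1.add a2).mul (hasDerivAt_xiX hx y)
  have a4 := (a1.sub a2).const_mul (-I)
  have hev : ∀ᶠ z : ℂ in 𝓝 (y : ℂ), |z.im| < l / 4 := by
    refine (continuous_abs.comp Complex.continuous_im).continuousAt.eventually_lt continuousAt_const ?_
    simp only [Function.comp_apply, Complex.ofReal_im, abs_zero]
    positivity
  have a5 : (fun z : ℂ => (NUMF.Pc (z + x * I) + NUMF.Pc (z - x * I)) * xiX x z) =ᶠ[𝓝 (y : ℂ)]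
      fun z => -I * (NUMF.Pc (z + x * I) - NUMF.Pc (z - x * I)) := by
    filter_upwards [hev] with z hz
    exact xiX_mul hx.1 hx.2 (by linarith [hx.2]) (by linarith)
  have a6 := (a4.congr_of_eventuallyEq a5).unique a3
  simp only [Pi.add_apply] at a6
  unfold Px
  linear_combination (-(1 / 2) : ℂ) * a6

/-- density at the image, along the path -/
theorem hasDerivAt_F {x : ℝ} (hx : x ∈ Icc 0 (l / 2)) (t : ℝ) {y : ℝ} (hy : zx x t = (y : ℂ)) :
    HasDerivWithinAt (fun x => Px x (zx x t))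
      (Px x (zx x t) * ((8 / 3 * (Real.tan (8 / 3 * x) * xd (8 / 3 * x) (8 / 3 * y)) : ℝ) : ℂ))
      (Icc 0 (l / 2)) x := by
  have hl := l_pos
  have hz : |((t : ℂ)).im| ≤ bA := by
    rw [Complex.ofReal_im, abs_zero]
    exact bA_pos.le
  have h1 : HasDerivAt NUMF.Pc (64 / 9 * p1 (8 / 3 * ((y : ℂ) + x * I))) ((y : ℂ) + x * I) :=
    hasDerivAt_Pc (by
      have e : ((y : ℂ) + x * I).im = x := by simp
      rw [e, abs_of_nonneg hx.1]
      linarith [hx.2])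
  have h2 : HasDerivAt NUMF.Pc (64 / 9 * p1 (8 / 3 * ((y : ℂ) - x * I))) ((y : ℂ) - x * I) :=
    hasDerivAt_Pc (by
      have e : ((y : ℂ) - x * I).im = -x := by simp
      rw [e, abs_neg, abs_of_nonneg hx.1]
      linarith [hx.2])
  have hce := cont_eq hx y h1 h2
  have k1 := hasDerivAt_zx_x hx hz
  have kx : HasDerivWithinAt (fun x : ℝ => (x : ℂ) * I) I (Icc 0 (l / 2)) x := by
    have := ((Complex.ofRealCLM.hasDerivAt (x := x)).mul_const I).hasDerivWithinAt (s := Icc 0 (l / 2))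
    simpa using this
  have m1 := k1.add kx
  have m2 := k1.sub kx
  have n1 := HasDerivAt.comp_hasDerivWithinAt_of_eq (h := fun x => zx x t + (x : ℂ) * I) x h1 m1
    (by rw [hy])
  have n2 := HasDerivAt.comp_hasDerivWithinAt_of_eq (h := fun x => zx x t - (x : ℂ) * I) x h2 m2
    (by rw [hy])
  have n3 := (n1.add n2).div_const 2
  rw [hy] at n3 ⊢
  refine n3.congr_deriv ?_
  push_cast at hce ⊢
  linear_combination hce

lemma pt_real (x t : ℝ) : zx x t = ((zx x t).re : ℂ) := by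
  apply Complex.ext
  · rfl
  · rw [zx_real, Complex.ofReal_im]

lemma Pc_conj (z : ℂ) : NUMF.Pc (conj z) = conj (NUMF.Pc z) := by
  rw [Pc_eq, Pc_eq, map_mul, conj_83, ← p_conj, map_mul, conj_83]

lemma Px_real (x y : ℝ) : (Px x y).im = 0 := by
  have e : conj ((y : ℂ) + x * I) = (y : ℂ) - x * I := by
    simp
    ring
  have h : Px x y = (NUMF.Pc ((y : ℂ) + x * I) + conj (NUMF.Pc ((y : ℂ) + x * I))) / 2 := by
    rw [← Pc_conj, e]
    rfl
  rw [h, Complex.add_conj]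
  have : (((2 * (NUMF.Pc ((y : ℂ) + x * I)).re : ℝ) : ℂ)) / 2 = (((NUMF.Pc ((y : ℂ) + x * I)).re : ℝ) : ℂ) := by
    push_cast
    ring
  rw [this, Complex.ofReal_im]

/-- density at the image, real -/
def Fr (t x : ℝ) : ℝ := (Px x (zx x t)).re

lemma Fr_eq (t x : ℝ) : Px x (zx x t) = (Fr t x : ℂ) := by
  apply Complex.ext
  · rfl
  · rw [pt_real x t, Px_real, Complex.ofReal_im]

theorem Fr_pos {x : ℝ} (hx : x ∈ Icc 0 (l / 2)) (t : ℝ) : 0 < Fr t x := by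
  have hz : |((t : ℂ)).im| ≤ bA := by
    rw [Complex.ofReal_im, abs_zero]
    exact bA_pos.le
  have h := Pm.rh_low (c := cA x) (Pm.zt_mem0 (c := cA x) (cA_sy 0).rl (bt_83 hz))
  have e := Pm.PT_eq (cA x) (zx x t)
  rw [cA_PT hx] at e
  have e2 : (8 / 3 * zx x t : ℂ) = (cA 0).zt (cA x) (8 / 3 * t) := by
    unfold zx Pm.zT
    ring
  rw [e2] at e
  unfold Fr
  rw [e, re_83]
  have := Real.exp_pos (-|((cA 0).zt (cA x) (8 / 3 * t)).re|)
  linarith

theorem hasDerivAt_Fr {x : ℝ} (hx : x ∈ Icc 0 (l / 2)) (t : ℝ) :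
    HasDerivWithinAt (Fr t) (Fr t x * (8 / 3 * (Real.tan (8 / 3 * x) *
      xd (8 / 3 * x) (8 / 3 * (zx x t).re)))) (Icc 0 (l / 2)) x := by
  have h := hasDerivAt_F hx t (pt_real x t)
  have h2 := Complex.reCLM.hasFDerivAt.comp_hasDerivWithinAt x h
  refine (h2.congr_deriv ?_).congr (fun _ _ => rfl) rfl
  rw [Complex.reCLM_apply, Fr_eq, ← Complex.ofReal_mul, Complex.ofReal_re]

theorem Fr_mono (t : ℝ) : MonotoneOn (Fr t) (Icc 0 (l / 2)) := by
  refine monotoneOn_of_hasDerivWithinAt_nonneg (convex_Icc _ _)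
    (fun x hx => (hasDerivAt_Fr hx t).continuousWithinAt)
    (fun x hx => (hasDerivAt_Fr (interior_subset hx) t).mono interior_subset) fun x hx => ?_
  have hx' := interior_subset hx
  have h1 := Fr_pos hx' t
  have h2 := tan_nn hx'
  have h3 := xd_nonneg (cos2 hx') (8 / 3 * (zx x t).re)
  positivity

lemma zx_at0 (x : ℝ) : zx x 0 = 0 := by
  have hz : |(0 : ℂ).im| ≤ bA := by
    rw [Complex.zero_im, abs_zero]
    exact bA_pos.le
  have h := zx_neg (x := x) hz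
  rw [neg_zero] at h
  have h2 : (2 : ℂ) * zx x 0 = 0 := by linear_combination h
  simpa using h2

theorem ratio_anti (t : ℝ) : AntitoneOn (fun x => Fr t x / Fr 0 x) (Icc 0 (l / 2)) := by
  refine antitoneOn_of_hasDerivWithinAt_nonpos (convex_Icc _ _)
    (f' := fun x => (Fr t x * (8 / 3 * (Real.tan (8 / 3 * x) * xd (8 / 3 * x) (8 / 3 * (zx x t).re))) *
      Fr 0 x - Fr t x * (Fr 0 x * (8 / 3 * (Real.tan (8 / 3 * x) *
        xd (8 / 3 * x) (8 / 3 * (zx x ((0 : ℝ) : ℂ)).re))))) / Fr 0 x ^ 2)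
    (fun x hx => ?_) (fun x hx => ?_) fun x hx => ?_
  · have h := (hasDerivAt_Fr hx t).div (hasDerivAt_Fr hx 0) (Fr_pos hx 0).ne'
    exact h.continuousWithinAt
  · have hx' := interior_subset hx
    have h := (hasDerivAt_Fr hx' t).div (hasDerivAt_Fr hx' 0) (Fr_pos hx' 0).ne'
    exact h.mono (t := Icc 0 (l / 2)) (s := interior (Icc 0 (l / 2))) interior_subset
  · have hx' := interior_subset hx
    have h1 := Fr_pos hx' t
    have h0 := Fr_pos hx' 0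
    have h2 := tan_nn hx'
    have h3 := xd_le (cos2 hx') (8 / 3 * (zx x t).re)
    have e0 : (zx x ((0 : ℝ) : ℂ)).re = 0 := by
      rw [Complex.ofReal_zero, zx_at0, Complex.zero_re]
    simp only [e0, mul_zero]
    refine div_nonpos_of_nonpos_of_nonneg ?_ (by positivity)
    have e : Fr t x * (8 / 3 * (Real.tan (8 / 3 * x) * xd (8 / 3 * x) (8 / 3 * (zx x t).re))) *
        Fr 0 x - Fr t x * (Fr 0 x * (8 / 3 * (Real.tan (8 / 3 * x) * xd (8 / 3 * x) 0))) =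
        -(Fr t x * Fr 0 x * (8 / 3) * Real.tan (8 / 3 * x) * (xd (8 / 3 * x) 0 -
          xd (8 / 3 * x) (8 / 3 * (zx x t).re))) := by ring
    rw [e, neg_nonpos]
    have : 0 ≤ xd (8 / 3 * x) 0 - xd (8 / 3 * x) (8 / 3 * (zx x t).re) := by linarith
    positivity

/-- the value at the centre -/
lemma Px_centre {x : ℝ} (hx : x ∈ Icc 0 (l / 2)) : Px x 0 =
    ((8 / 3 * c0 * (4 * Real.cos (8 / 3 * x) / (4 * Real.cos (8 / 3 * x) ^ 2 - 1)) : ℝ) : ℂ) := by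
  have h3 := NUMF.sq3_pos
  have hc := cos1 hx
  have hs := Real.sq_sqrt (show (0:ℝ) ≤ 3 by norm_num)
  have hc2 : 3 / 4 ≤ Real.cos (8 / 3 * x) ^ 2 := by
    have : (√3 / 2) ^ 2 ≤ Real.cos (8 / 3 * x) ^ 2 := by gcongr
    nlinarith
  have hc0 : 0 < Real.cos (8 / 3 * x) := by linarith
  have hc1 : 1 / 2 < Real.cos (8 / 3 * x) := by nlinarith
  have a1 : NUMF.Pc ((x : ℂ) * I) = 8 / 3 * (c0 : ℂ) *
      (1 / (2 * (Real.cos (8 / 3 * x) : ℂ) - 1) + 1 / (2 * (Real.cos (8 / 3 * x) : ℂ) + 1)) := by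
    have e2 : (8 / 3 * ((x : ℂ) * I) : ℂ) = ((8 / 3 * x : ℝ) : ℂ) * I := by push_cast; ring
    rw [Pc_eq, e2]
    unfold p
    rw [Complex.cosh_mul_I, ← Complex.ofReal_cos]
    ring
  have a2 := NUMF.Pc_neg ((x : ℂ) * I)
  rw [a1] at a2
  unfold Px
  rw [zero_add, zero_sub, a1, a2]
  generalize Real.cos (8 / 3 * x) = C at hc1 hc0
  have n1 : (2 * (C : ℂ) - 1) ≠ 0 := by
    have : (2 * C - 1 : ℝ) ≠ 0 := by linarith
    exact_mod_cast this
  have n2 : (2 * (C : ℂ) + 1) ≠ 0 := by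
    have : (2 * C + 1 : ℝ) ≠ 0 := by linarith
    exact_mod_cast this
  have n3 : (4 * (C : ℂ) ^ 2 - 1) ≠ 0 := by
    have e : (4 * (C : ℂ) ^ 2 - 1) = (2 * (C : ℂ) - 1) * (2 * (C : ℂ) + 1) := by ring
    rw [e]
    exact mul_ne_zero n1 n2
  have e5 : 1 / (2 * (C : ℂ) - 1) + 1 / (2 * (C : ℂ) + 1) = 4 * C / (4 * C ^ 2 - 1) := by
    rw [div_add_div _ _ n1 n2, eq_div_iff n3, div_mul_eq_mul_div, div_eq_iff (mul_ne_zero n1 n2)]
    ring
  rw [e5]
  push_cast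
  ring

lemma Fr_zero {x : ℝ} (hx : x ∈ Icc 0 (l / 2)) :
    Fr 0 x = 8 / 3 * c0 * (4 * Real.cos (8 / 3 * x) / (4 * Real.cos (8 / 3 * x) ^ 2 - 1)) := by
  unfold Fr
  rw [Complex.ofReal_zero, zx_at0, Px_centre hx, Complex.ofReal_re]

/-- **stage A: `4 / (3 √3) ≤ zx' ≤ 1` on the real line** -/
theorem dzx_real {x : ℝ} (hx : x ∈ Icc 0 (l / 2)) (t : ℝ) :
    ∃ d : ℝ, NUMF.Pc t / Px x (zx x t) = (d : ℂ) ∧ 4 / (3 * √3) ≤ d ∧ d ≤ 1 := by
  have h3 := NUMF.sq3_pos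
  have hz : |((t : ℂ)).im| ≤ bA := by
    rw [Complex.ofReal_im, abs_zero]
    exact bA_pos.le
  have hF0 : Fr t 0 = NUMF.P t := by
    have := Fr_eq t 0
    rw [Px_zero, zx_zero hz, NUMF.Pc_ofReal] at this
    exact_mod_cast this.symm
  have hp := Fr_pos hx t
  have hp0 := Fr_pos hx 0
  have hq := Fr_pos zero_A t
  have hq0 := Fr_pos zero_A 0
  refine ⟨Fr t 0 / Fr t x, ?_, ?_, ?_⟩
  · rw [NUMF.Pc_ofReal, Fr_eq, ← hF0]
    push_cast
    rfl
  · have h1 := ratio_anti t zero_A hx hx.1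
    have h1' : Fr t x / Fr 0 x ≤ Fr t 0 / Fr 0 0 := h1
    have h2 : Fr 0 0 / Fr 0 x ≤ Fr t 0 / Fr t x := by
      rw [div_le_div_iff₀ hp0 hq0] at h1'
      rw [div_le_div_iff₀ hp0 hp]
      linarith
    refine le_trans ?_ h2
    have hc := cos1 hx
    have hs := Real.sq_sqrt (show (0:ℝ) ≤ 3 by norm_num)
    have hc0p := c0_pos
    have hc1 : Real.cos (8 / 3 * x) ≤ 1 := Real.cos_le_one _
    have e0 := Fr_zero zero_A
    have e1 := Fr_zero hx
    rw [mul_zero, Real.cos_zero] at e0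
    rw [e0, e1]
    generalize Real.cos (8 / 3 * x) = C at hc hc1
    have hC0 : 0 < C := by linarith
    have hC2 : 3 / 4 ≤ C ^ 2 := by
      have : (√3 / 2) ^ 2 ≤ C ^ 2 := by gcongr
      nlinarith
    have hden : 0 < 4 * C ^ 2 - 1 := by linarith
    have e2 : 8 / 3 * c0 * (4 * 1 / (4 * 1 ^ 2 - 1)) / (8 / 3 * c0 * (4 * C / (4 * C ^ 2 - 1))) =
        (4 * C ^ 2 - 1) / (3 * C) := by
      field_simp
      ring
    rw [e2, div_le_div_iff₀ (by positivity) (by positivity)]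
    nlinarith [mul_nonneg (by linarith : 0 ≤ C - √3 / 2) (by positivity : 0 ≤ √3 * C + 1 / 2)]
  · rw [div_le_one hp]
    exact Fr_mono t zero_A hx hx.1

end

end ISTZ
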