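import Pool.Agent.IST.Zeta

/-!
# ISO, T1: derivative of the transport map along a curve of contents
-/

set_option autoImplicit false

open Complex Set Filter Topology ComplexConjugate Metric Asymptotics

namespace ISTZ

noncomputable section

/-- the derivative at a zero of a product with a continuous function -/
theorem deriv_mul_cont {u : ℝ → ℝ} {u' : ℝ} {g : ℝ → ℂ} {S : Set ℝ} {θ : ℝ}
    (hu : HasDerivWithinAt u u' S θ) (hg : ContinuousWithinAt g S θ) :
    HasDerivWithinAt (fun t => ((u t - u θ : ℝ) : ℂ) * g t) (u' * g θ) S θ := by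
  rw [hasDerivWithinAt_iff_tendsto_slope] at hu ⊢
  have hsub : 𝓝[S \ {θ}] θ ≤ 𝓝[S] θ := nhdsWithin_mono θ sdiff_subset
  have h1 : Tendsto (fun t => ((slope u θ t : ℝ) : ℂ) * g t) (𝓝[S \ {θ}] θ) (𝓝 (u' * g θ)) :=
    ((Complex.continuous_ofReal.tendsto _).comp hu).mul (hg.tendsto.mono_left hsub)
  refine h1.congr fun t => ?_
  rw [slope_def_module, slope_def_module, sub_self, Complex.ofReal_zero, zero_mul, sub_zero,
    smul_eq_mul, Complex.real_smul]
  push_cast
  ring

/-- strict derivative along two curves -/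
theorem deriv_strict {f : ℂ → ℂ} {f' x : ℂ} (hf : HasStrictDerivAt f f' x) {y1 y2 : ℝ → ℂ} {d : ℂ}
    {S : Set ℝ} {θ : ℝ} (h1 : ContinuousWithinAt y1 S θ) (h2 : ContinuousWithinAt y2 S θ)
    (e1 : y1 θ = x) (e2 : y2 θ = x) (hd : HasDerivWithinAt (fun t => y1 t - y2 t) d S θ) :
    HasDerivWithinAt (fun t => f (y1 t) - f (y2 t)) (f' * d) S θ := by
  have hb : (fun t => y1 t - y2 t) =O[𝓝[S] θ] fun t => t - θ := by
    have := hd.isBigO_sub
    simpa [Function.comp_def, e1, e2] using this
  have ht : Tendsto (fun t => (y1 t, y2 t)) (𝓝[S] θ) (𝓝 (x, x)) := by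
    have a1 := h1.tendsto
    have a2 := h2.tendsto
    rw [e1] at a1
    rw [e2] at a2
    exact a1.prodMk_nhds a2
  have hs := (hf.hasStrictFDerivAt.isLittleO).comp_tendsto ht
  have hs' : (fun t => f (y1 t) - f (y2 t) - (y1 t - y2 t) • f') =o[𝓝[S] θ] fun t => t - θ := by
    have := IsLittleO.trans_isBigO hs hb
    simpa [Function.comp_def] using this
  rw [hasDerivWithinAt_iff_isLittleO] at hd ⊢
  have h3 : (fun t => (y1 t - y2 t - (y1 θ - y2 θ) - (t - θ) • d) • f') =o[𝓝[S] θ] fun t => t - θ := by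
    refine IsBigO.trans_isLittleO (IsBigO.of_bound ‖f'‖ (Eventually.of_forall fun t => ?_)) hd
    rw [norm_smul, mul_comm]
  refine (hs'.add h3).congr_left fun t => ?_
  simp only [e1, e2, sub_self, smul_eq_mul, sub_zero, Complex.real_smul]
  ring

theorem strict_r {z : ℂ} (h : |z.im| < Real.pi / 3) : HasStrictDerivAt r (p z) z := by
  refine hasStrictDerivAt_of_hasDerivAt_of_continuousAt ?_ (hasDerivAt_p h).continuousAt
  have h2 : ∀ᶠ w in 𝓝 z, |w.im| < Real.pi / 3 :=
    (continuous_abs.comp Complex.continuous_im).continuousAt.eventually_lt continuousAt_const h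
  filter_upwards [h2] with w hw
  exact hasDerivAt_r hw

/-- one term of the primitive along a curve -/
theorem term_deriv {a m : ℝ → ℝ} {a' n : ℝ} {w : ℝ → ℂ} {S : Set ℝ} {θ : ℝ}
    (ha : HasDerivWithinAt a a' S θ) (hm : HasDerivWithinAt m n S θ) (hw : ContinuousWithinAt w S θ)
    (him : |(w θ + m θ * I).im| < Real.pi / 3) :
    HasDerivWithinAt (fun t => (a t : ℂ) * r (w t + m t * I) - a θ * r (w t + m θ * I))
      (a' * r (w θ + m θ * I) + a θ * (p (w θ + m θ * I) * (n * I))) S θ := by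
  have c1 : ContinuousWithinAt (fun t => w t + (m t : ℂ) * I) S θ :=
    hw.add ((Complex.continuous_ofReal.continuousAt.comp_continuousWithinAt hm.continuousWithinAt).mul
      continuousWithinAt_const)
  have c2 : ContinuousWithinAt (fun t => w t + (m θ : ℂ) * I) S θ := hw.add continuousWithinAt_const
  have c3 : ContinuousWithinAt (fun t => r (w t + m t * I)) S θ :=
    (hasDerivAt_r him).continuousAt.comp_continuousWithinAt (f := fun t => w t + (m t : ℂ) * I) c1
  have h1 := deriv_mul_cont ha c3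
  have h2 : HasDerivWithinAt (fun t => (w t + (m t : ℂ) * I) - (w t + (m θ : ℂ) * I)) (n * I) S θ := by
    have h3 : HasDerivWithinAt (fun t => ((m t : ℝ) : ℂ)) (n : ℂ) S θ := hm.ofReal_comp
    have h4 := (h3.mul_const I).sub_const ((m θ : ℂ) * I)
    refine h4.congr (fun t _ => by ring) (by ring)
  have h3 := deriv_strict (strict_r him) c1 c2 rfl rfl h2
  have h4 := h1.add (h3.const_mul (a θ : ℂ))
  refine h4.congr (fun t _ => ?_) ?_
  · simp only [Pi.add_apply]
    push_cast
    ring
  · simp only [Pi.add_apply]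
    push_cast
    ring

namespace Pm

open Tl

variable {T : Tl} {b : Pm T}

/-- the derivative of the primitive in the content -/
def dph (c : Pm T) (a0 a1 a2 n1 n2 : ℝ) (z : ℂ) : ℂ :=
  a0 * r z + ((a1 * r (z + c.m1 * I) + c.w1 * (p (z + c.m1 * I) * (n1 * I))) +
    (a2 * r (z - c.m2 * I) - c.w2 * (p (z - c.m2 * I) * (n2 * I))))

/-- **the velocity of the transport map along a curve of contents** -/
theorem hasDerivAt_c (hb : b.Rl) {c : ℝ → Pm T} {S : Set ℝ} {θ a0 a1 a2 n1 n2 : ℝ}
    (h0 : HasDerivWithinAt (fun t => (c t).w0) a0 S θ)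
    (h1 : HasDerivWithinAt (fun t => (c t).w1) a1 S θ)
    (h2 : HasDerivWithinAt (fun t => (c t).w2) a2 S θ)
    (k1 : HasDerivWithinAt (fun t => (c t).m1) n1 S θ)
    (k2 : HasDerivWithinAt (fun t => (c t).m2) n2 S θ) {z : ℂ} (hz : |z.im| ≤ T.bb) :
    HasDerivWithinAt (fun t => b.zt (c t) z)
      (-(c θ).dph a0 a1 a2 n1 n2 (b.zt (c θ) z) / (c θ).rh (b.zt (c θ) z)) S θ := by
  have hcont : ContinuousWithinAt (fun t => b.zt (c t) z) S θ := by
    have hd : Tendsto (fun t => dst (c t) (c θ)) (𝓝[S] θ) (𝓝 0) := by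
      have g : ∀ {f : ℝ → ℝ} {f' : ℝ}, HasDerivWithinAt f f' S θ →
          Tendsto (fun t => |f t - f θ|) (𝓝[S] θ) (𝓝 0) := fun {f f'} hf => by
        have := (hf.continuousWithinAt.tendsto.sub_const (f θ)).abs
        simpa using this
      have := ((g h0).add ((g h1).add (g h2))).add ((g k1).add (g k2))
      simpa [dst] using this
    rw [ContinuousWithinAt, tendsto_iff_norm_sub_tendsto_zero]
    refine squeeze_zero (fun _ => norm_nonneg _) (fun t => zt_lip hb (c t) (c θ) hz) ?_
    simpa using hd.const_mul (32 * T.M1 ^ 2 * (cT (T.e0 / 2) + cU (T.e0 / 2)))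
  have hm := zt_mem0 (c := c θ) hb hz
  have t0 := term_deriv h0 (hasDerivWithinAt_const θ S (0:ℝ)) hcont (by
    simpa using l0 hm)
  have t1 := term_deriv h1 k1 hcont (l1 (c := c θ) hm)
  have k2' : HasDerivWithinAt (fun t => -(c t).m2) (-n2) S θ := k2.neg
  have t2 := term_deriv h2 k2' hcont (by
    have := l2 (c := c θ) hm
    push_cast
    rwa [neg_mul, ← sub_eq_add_neg])
  have hsum := (t0.add (t1.add t2)).const_sub (b.ph z)
  refine deriv_of_comp (𝕜 := ℝ)
    (R := fun t => b.ph z - ((c t).ph (b.zt (c t) z) - (c θ).ph (b.zt (c t) z)))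
    (hasDerivAt_ph (c := c θ) hm) (rh_ne hm) hcont ?_ ?_ ?_
  · simp [zt_eq hb hz]
  · refine (hsum.congr_deriv ?_).congr (fun t _ => ?_) ?_
    · unfold dph
      push_cast
      simp only [neg_mul, ← sub_eq_add_neg, zero_mul, add_zero, mul_zero]
      ring
    · unfold ph cb
      simp only [Pi.add_apply]
      push_cast
      simp only [neg_mul, ← sub_eq_add_neg, zero_mul, add_zero]
      ring
    · unfold ph cb
      simp only [Pi.add_apply]
      push_cast
      simp only [neg_mul, ← sub_eq_add_neg, zero_mul, add_zero]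
      ring
  · filter_upwards with t
    rw [zt_eq hb hz]
    ring

end Pm

end

end ISTZ
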