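import Pool.Agent.IST.ZT
import Mathlib.Analysis.Complex.Liouville
import Mathlib.Analysis.SpecialFunctions.Trigonometric.Bounds

/-!
# ISO, T1: small steps (the transport map is Lipschitz in the content, with the tails)
-/

set_option autoImplicit false

open Complex Set Filter Topology ComplexConjugate Metric

namespace ISTZ

noncomputable section

theorem H_lip {e : ℝ} (he : 0 < e) (he1 : e ≤ Real.pi / 3) {z w : ℂ} {x : ℝ}
    (hz : |z.im| ≤ Real.pi / 3 - e) (hw : |w.im| ≤ Real.pi / 3 - e) (hx : x ≤ z.re) (hx' : x ≤ w.re) :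
    ‖H z - H w‖ ≤ cT e * Real.exp (-5 * x) * ‖z - w‖ := by
  have hconv : Convex ℝ {v : ℂ | |v.im| ≤ Real.pi / 3 - e ∧ x ≤ v.re} := by
    have e1 : {v : ℂ | |v.im| ≤ Real.pi / 3 - e ∧ x ≤ v.re} =
        ({v : ℂ | v.im ≤ Real.pi / 3 - e} ∩ {v : ℂ | -(Real.pi / 3 - e) ≤ v.im}) ∩ {v : ℂ | x ≤ v.re} := by
      ext v
      simp only [Set.mem_ofPred_eq, mem_inter_iff, abs_le]
      tauto
    rw [e1]
    exact ((convex_halfSpace_im_le _).inter (convex_halfSpace_im_ge _)).inter (convex_halfSpace_re_ge _)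
  refine hconv.norm_image_sub_le_of_norm_hasDerivWithin_le (f' := H1) (f := H)
    (fun v hv => (hasDerivAt_H (lt_of_le_of_lt hv.1 (by linarith))).hasDerivWithinAt)
    (fun v hv => ?_) ⟨hw, hx'⟩ ⟨hz, hx⟩
  refine (H1_up he he1 hv.1).trans ?_
  have := cT_ge he he1
  have h2 : Real.exp (-5 * v.re) ≤ Real.exp (-5 * x) := Real.exp_le_exp.2 (by linarith [hv.2])
  gcongr

lemma log_lip {a b : ℝ} (ha : 1 / 2 ≤ a) (hb : 1 / 2 ≤ b) : |Real.log a - Real.log b| ≤ 2 * |a - b| := by
  have key : ∀ {a b : ℝ}, 1 / 2 ≤ a → 1 / 2 ≤ b → Real.log a - Real.log b ≤ 2 * |a - b| := by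
    intro a b ha hb
    have ha0 : 0 < a := by linarith
    have hb0 : 0 < b := by linarith
    rw [← Real.log_div ha0.ne' hb0.ne']
    have h1 := Real.log_le_sub_one_of_pos (div_pos ha0 hb0)
    have h2 : a / b - 1 ≤ 2 * |a - b| := by
      rw [div_sub_one hb0.ne', div_le_iff₀ hb0]
      have h3 := le_abs_self (a - b)
      have h4 := abs_nonneg (a - b)
      nlinarith
    linarith
  rw [abs_le]
  constructor
  · have := key hb ha
    rw [abs_sub_comm] at this
    linarith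
  · exact key ha hb

namespace Pm

open Tl

variable {T : Tl} {b c c' : Pm T} {z : ℂ}

lemma n_mul (x : ℝ) (y : ℂ) : ‖(x : ℂ) * y‖ = |x| * ‖y‖ := by
  rw [norm_mul, Complex.norm_real, Real.norm_eq_abs]

theorem cbH_c {e : ℝ} (he : 0 < e) (he1 : e ≤ Real.pi / 3) (hz : z ∈ T.St e) (hx : 0 ≤ z.re) :
    ‖c.cb H z - c'.cb H z‖ ≤ cT e * Real.exp (-5 * z.re) * dst c c' := by
  have hT := cT_ge he he1
  obtain ⟨B, hB⟩ : ∃ B, B = cT e * Real.exp (-5 * z.re) := ⟨_, rfl⟩
  have hB0 : 0 ≤ B := by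
    rw [hB]
    positivity
  have a0 : ‖H z‖ ≤ B := by
    rw [hB]
    exact H_up he he1 (b0 hz) hx
  have a1 : ‖H (z + c.m1 * I)‖ ≤ B := by
    have := H_up he he1 (b1 (c := c) hz) (by rwa [re_add])
    rwa [re_add, ← hB] at this
  have a2 : ‖H (z - c.m2 * I)‖ ≤ B := by
    have := H_up he he1 (b2 (c := c) hz) (by rwa [re_sub])
    rwa [re_sub, ← hB] at this
  have v1 : ‖H (z + c.m1 * I) - H (z + c'.m1 * I)‖ ≤ B * |c.m1 - c'.m1| := by
    have := H_lip he he1 (x := z.re) (b1 (c := c) hz) (b1 (c := c') hz) (by rw [re_add]) (by rw [re_add])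
    have e1 : z + c.m1 * I - (z + c'.m1 * I) = ((c.m1 - c'.m1 : ℝ) : ℂ) * I := by push_cast; ring
    rwa [e1, n_mul, Complex.norm_I, mul_one, ← hB] at this
  have v2 : ‖H (z - c.m2 * I) - H (z - c'.m2 * I)‖ ≤ B * |c.m2 - c'.m2| := by
    have := H_lip he he1 (x := z.re) (b2 (c := c) hz) (b2 (c := c') hz) (by rw [re_sub]) (by rw [re_sub])
    have e1 : z - c.m2 * I - (z - c'.m2 * I) = ((-(c.m2 - c'.m2) : ℝ) : ℂ) * I := by push_cast; ring
    rwa [e1, n_mul, Complex.norm_I, mul_one, abs_neg, ← hB] at this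
  have key : c.cb H z - c'.cb H z = ((c.w0 - c'.w0 : ℝ) : ℂ) * H z +
      (((c.w1 - c'.w1 : ℝ) : ℂ) * H (z + c.m1 * I) + ((c.w2 - c'.w2 : ℝ) : ℂ) * H (z - c.m2 * I)) +
      ((c'.w1 : ℂ) * (H (z + c.m1 * I) - H (z + c'.m1 * I)) +
        (c'.w2 : ℂ) * (H (z - c.m2 * I) - H (z - c'.m2 * I))) := by
    unfold cb
    push_cast
    ring
  have w1 : |c'.w1| ≤ 1 := by
    rw [abs_of_nonneg c'.w10]
    exact w1_le
  have w2 : |c'.w2| ≤ 1 := by
    rw [abs_of_nonneg c'.w20]
    exact w2_le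
  rw [key, ← hB]
  calc _ ≤ |c.w0 - c'.w0| * B + (|c.w1 - c'.w1| * B + |c.w2 - c'.w2| * B) +
        (1 * (B * |c.m1 - c'.m1|) + 1 * (B * |c.m2 - c'.m2|)) := by
        refine (norm_add_le _ _).trans (add_le_add ((norm_add_le _ _).trans (add_le_add ?_
          ((norm_add_le _ _).trans (add_le_add ?_ ?_)))) ((norm_add_le _ _).trans (add_le_add ?_ ?_)))
        · rw [n_mul]; gcongr
        · rw [n_mul]; gcongr
        · rw [n_mul]; gcongr
        · rw [n_mul]; gcongr
        · rw [n_mul]; gcongr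
    _ = _ := by unfold dst; ring

theorem cbH_z {e : ℝ} (he : 0 < e) (he1 : e ≤ Real.pi / 3) {w : ℂ} {x : ℝ} (hz : z ∈ T.St e)
    (hw : w ∈ T.St e) (hx : x ≤ z.re) (hx' : x ≤ w.re) :
    ‖c.cb H z - c.cb H w‖ ≤ cT e * Real.exp (-5 * x) * ‖z - w‖ := by
  have e1 : c.cb H z - c.cb H w = c.cb (fun v => H v - H (v + (w - z))) z := by
    have h1 : z + c.m1 * I + (w - z) = w + c.m1 * I := by ring
    have h2 : z - c.m2 * I + (w - z) = w - c.m2 * I := by ring
    have h0 : z + (w - z) = w := by ring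
    unfold cb
    beta_reduce
    rw [h0, h1, h2]
    ring
  rw [e1]
  refine cb_norm ?_ ?_ ?_
  · have h0 : z + (w - z) = w := by ring
    rw [h0]
    exact H_lip he he1 (b0 hz) (b0 hw) hx hx'
  · have h1 : z + c.m1 * I + (w - z) = w + c.m1 * I := by ring
    rw [h1]
    have := H_lip he he1 (x := x) (b1 (c := c) hz) (b1 (c := c) hw) (by rwa [re_add]) (by rwa [re_add])
    have e2 : z + c.m1 * I - (w + c.m1 * I) = z - w := by ring
    rwa [e2] at this
  · have h1 : z - c.m2 * I + (w - z) = w - c.m2 * I := by ring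
    rw [h1]
    have := H_lip he he1 (x := x) (b2 (c := c) hz) (b2 (c := c) hw) (by rwa [re_sub]) (by rwa [re_sub])
    have e2 : z - c.m2 * I - (w - c.m2 * I) = z - w := by ring
    rwa [e2] at this

lemma nu_lip : |c.nu - c'.nu| ≤ dst c c' := by
  have e1 : c.nu - c'.nu = (c.w0 - c'.w0) + ((c.w1 - c'.w1) * Real.cos c.m1 + (c.w2 - c'.w2) * Real.cos c.m2) +
      (c'.w1 * (Real.cos c.m1 - Real.cos c'.m1) + c'.w2 * (Real.cos c.m2 - Real.cos c'.m2)) := by
    unfold nu
    ring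
  have w1 : |c'.w1| ≤ 1 := by
    rw [abs_of_nonneg c'.w10]
    exact w1_le
  have w2 : |c'.w2| ≤ 1 := by
    rw [abs_of_nonneg c'.w20]
    exact w2_le
  have k1 := Real.abs_cos_sub_cos_le c.m1 c'.m1
  have k2 := Real.abs_cos_sub_cos_le c.m2 c'.m2
  have l1 := Real.abs_cos_le_one c.m1
  have l2 := Real.abs_cos_le_one c.m2
  rw [e1]
  calc _ ≤ |c.w0 - c'.w0| + (|c.w1 - c'.w1| * 1 + |c.w2 - c'.w2| * 1) +
        (1 * |c.m1 - c'.m1| + 1 * |c.m2 - c'.m2|) := by
        refine (abs_add_le _ _).trans (add_le_add ((abs_add_le _ _).trans (add_le_add le_rfl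
          ((abs_add_le _ _).trans (add_le_add ?_ ?_)))) ((abs_add_le _ _).trans (add_le_add ?_ ?_)))
        · rw [abs_mul]; gcongr
        · rw [abs_mul]; gcongr
        · rw [abs_mul]; gcongr
        · rw [abs_mul]; gcongr
    _ = _ := by unfold dst; ring

lemma sh_lip : |sh b c - sh b c'| ≤ 2 * dst c c' := by
  have h1 := nu_ge (c := c)
  have h2 := nu_ge (c := c')
  have h3 := nu_ge (c := b)
  have e : sh b c - sh b c' = Real.log c.nu - Real.log c'.nu := by
    unfold sh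
    rw [Real.log_div (by linarith) (by linarith), Real.log_div (by linarith) (by linarith)]
    ring
  rw [e]
  have := log_lip h1 h2
  have := nu_lip (c := c) (c' := c')
  linarith

lemma dst_le : dst c c' ≤ 6 := by
  have hp := Real.pi_lt_d2
  have d1 : |c.w0 - c'.w0| ≤ 1 := by
    rw [abs_le]
    constructor <;> linarith [c.w00, c'.w00, c.w10, c'.w10, c.w20, c'.w20, c.sum1, c'.sum1]
  have d2 : |c.w1 - c'.w1| ≤ 1 := by
    rw [abs_le]
    constructor <;> linarith [c.w00, c'.w00, c.w10, c'.w10, c.w20, c'.w20, c.sum1, c'.sum1]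
  have d3 : |c.w2 - c'.w2| ≤ 1 := by
    rw [abs_le]
    constructor <;> linarith [c.w00, c'.w00, c.w10, c'.w10, c.w20, c'.w20, c.sum1, c'.sum1]
  have d4 : |c.m1 - c'.m1| ≤ T.t1 := by
    rw [abs_le]
    constructor <;> linarith [c.m10, c'.m10, c.m11, c'.m11]
  have d5 : |c.m2 - c'.m2| ≤ T.t2 := by
    rw [abs_le]
    constructor <;> linarith [c.m20, c'.m20, c.m21, c'.m21]
  have := T.t12
  unfold dst
  linarith

/-- Lipschitz constant of the map -/
def _root_.ISTZ.Tl.L0 (T : Tl) : ℝ := 32 * T.M1 ^ 2 * (cT (T.e0 / 2) + cU (T.e0 / 2))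

lemma L0_ge : 1 ≤ T.L0 := by
  have hT := cT_ge e2_pos (e2_pi (T := T))
  have hU := cU_ge e2_pos (e2_pi (T := T))
  have hM := M1_ge (T := T)
  unfold Tl.L0
  have h1 : (1 : ℝ) ≤ T.M1 ^ 2 := one_le_pow₀ (by linarith)
  nlinarith

/-- far constant -/
def _root_.ISTZ.Tl.KS (T : Tl) : ℝ := 48 * (cT (T.e0 / 2) * (1 + T.L0) * T.M1 ^ 6) + T.M5

/-- the constant of small steps -/
def _root_.ISTZ.Tl.Cs (T : Tl) : ℝ :=
  6 * (cT (T.e0 / 2) * (1 + T.L0) * T.M1 ^ 6) + (T.L0 + 2) * T.KS ^ 4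

lemma KS_ge : 1 ≤ T.KS := by
  have hT := cT_ge e2_pos (e2_pi (T := T))
  have hL := L0_ge (T := T)
  have hM := M1_ge (T := T)
  have h5 := M5_ge (T := T)
  have : 0 ≤ 48 * (cT (T.e0 / 2) * (1 + T.L0) * T.M1 ^ 6) := by positivity
  unfold Tl.KS
  linarith

lemma Cs_pos : 0 < T.Cs := by
  have hT := cT_ge e2_pos (e2_pi (T := T))
  have hL := L0_ge (T := T)
  have hM := M1_ge (T := T)
  have h5 := KS_ge (T := T)
  unfold Tl.Cs
  positivity

/-- **small steps on the right** -/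
theorem step_zt (hb : b.Rl) (hc : c.Bal) (hc' : c'.Bal) (hz : |z.im| ≤ T.bb) (hx : 0 ≤ z.re) :
    ‖b.zt c z - b.zt c' z - ((sh b c - sh b c' : ℝ) : ℂ)‖ ≤ T.Cs * dst c c' * Real.exp (-4 * z.re) := by
  have hT := cT_ge e2_pos (e2_pi (T := T))
  have hL := L0_ge (T := T)
  have hM := M1_ge (T := T)
  have h5 := M5_ge (T := T)
  have hK := KS_ge (T := T)
  have hD := dst_nonneg c c'
  have hD6 := dst_le (c := c) (c' := c')
  have hE4 := Real.exp_pos (-4 * z.re)
  have hlip : ‖b.zt c z - b.zt c' z‖ ≤ T.L0 * dst c c' := zt_lip hb c c' hz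
  by_cases hf : T.KS * Real.exp (-z.re) ≤ 1
  · have hE := Real.exp_pos (-z.re)
    have hf5 : T.M5 * Real.exp (-z.re) ≤ 1 := by
      refine le_trans ?_ hf
      have : T.M5 ≤ T.KS := by
        have : 0 ≤ 48 * (cT (T.e0 / 2) * (1 + T.L0) * T.M1 ^ 6) := by positivity
        unfold Tl.KS
        linarith
      gcongr
    have p0 := re_pos (c := c) hb hz hx hf5
    have p0' := re_pos (c := c') hb hz hx hf5
    have q1 := cmp2 (c := c) hb hz
    have q2 := cmp2 (c := c') hb hz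
    have q3 := cmp1 (c := c') hb hz
    rw [abs_of_nonneg p0, abs_of_nonneg hx] at q1
    rw [abs_of_nonneg p0', abs_of_nonneg hx] at q2 q3
    have hMp : 0 < T.M1 := by linarith
    have low : ∀ {y : ℝ}, Real.exp (-y) ≤ T.M1 * Real.exp (-z.re) → z.re - Real.log T.M1 ≤ y := by
      intro y hy
      have : Real.exp (-y) ≤ Real.exp (Real.log T.M1 + -z.re) := by
        rw [Real.exp_add, Real.exp_log hMp]
        exact hy
      have := Real.exp_le_exp.1 this
      linarith
    have r1 := low q1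
    have r2 := low q2
    have e5 : Real.exp (-5 * (z.re - Real.log T.M1)) = T.M1 ^ 5 * Real.exp (-5 * z.re) := by
      have e : -5 * (z.re - Real.log T.M1) = 5 * Real.log T.M1 + -5 * z.re := by ring
      rw [e, Real.exp_add]
      congr 1
      have := Real.exp_nat_mul (Real.log T.M1) 5
      rw [Real.exp_log hMp] at this
      exact_mod_cast this
    have s1 : ‖c.cb H (b.zt c z) - c.cb H (b.zt c' z)‖ ≤
        cT (T.e0 / 2) * (T.M1 ^ 5 * Real.exp (-5 * z.re)) * (T.L0 * dst c c') := by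
      refine (cbH_z e2_pos e2_pi (zt_mem (c := c) hb hz) (zt_mem (c := c') hb hz) r1 r2).trans ?_
      rw [e5]
      gcongr
    have s2 : ‖c.cb H (b.zt c' z) - c'.cb H (b.zt c' z)‖ ≤
        cT (T.e0 / 2) * (T.M1 ^ 5 * Real.exp (-5 * z.re)) * dst c c' := by
      refine (cbH_c e2_pos e2_pi (zt_mem (c := c') hb hz) p0').trans ?_
      have : Real.exp (-5 * (b.zt c' z).re) ≤ T.M1 ^ 5 * Real.exp (-5 * z.re) := by
        rw [← e5]
        exact Real.exp_le_exp.2 (by linarith)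
      gcongr
    have s3 : ‖c.cb H (b.zt c z) - c'.cb H (b.zt c' z)‖ ≤
        cT (T.e0 / 2) * (1 + T.L0) * T.M1 ^ 5 * dst c c' * Real.exp (-5 * z.re) := by
      calc _ = ‖(c.cb H (b.zt c z) - c.cb H (b.zt c' z)) + (c.cb H (b.zt c' z) - c'.cb H (b.zt c' z))‖ := by
            congr 1
            ring
        _ ≤ _ := norm_add_le _ _
        _ ≤ _ := add_le_add s1 s2
        _ = _ := by ring
    have t1 := ph_tail hc (b.zt c z)
    have t2 := ph_tail hc' (b.zt c' z)
    rw [zt_eq hb hz] at t1 t2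
    rw [t1] at t2
    have hn1 := nu_ge (c := c)
    have hn2 := nu_ge (c := c')
    have hn3 := nu_ge (c := b)
    have hc0 := c0_pos
    have hcl := c0_lo
    obtain ⟨d, hdd⟩ : ∃ d : ℂ, d = (c.cb H (b.zt c z) - c'.cb H (b.zt c' z)) * exp (b.zt c' z) /
        ((2 * c0 * c'.nu : ℝ) : ℂ) := ⟨_, rfl⟩
    have hshe : sh b c - sh b c' = Real.log (c.nu / c'.nu) := by
      unfold sh
      rw [Real.log_div (by linarith) (by linarith), Real.log_div (by linarith) (by linarith),
        Real.log_div (by linarith) (by linarith)]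
      ring
    have key : exp (b.zt c' z - b.zt c z + ((sh b c - sh b c' : ℝ) : ℂ)) = 1 + d := by
      have e1 : exp (((sh b c - sh b c' : ℝ) : ℂ)) = (c.nu : ℂ) / c'.nu := by
        rw [← Complex.ofReal_exp, hshe, Real.exp_log (by positivity)]
        push_cast
        rfl
      have e2 : exp (b.zt c' z - b.zt c z + ((sh b c - sh b c' : ℝ) : ℂ)) =
          exp (b.zt c' z) * exp (-(b.zt c z)) * ((c.nu : ℂ) / c'.nu) := by
        rw [Complex.exp_add, e1, sub_eq_add_neg, Complex.exp_add]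
      have hn : (c'.nu : ℂ) ≠ 0 := by
        have : c'.nu ≠ 0 := by linarith
        exact_mod_cast this
      have hc0c : (c0 : ℂ) ≠ 0 := by exact_mod_cast hc0.ne'
      have hz1 : exp (b.zt c' z) * exp (-(b.zt c' z)) = 1 := by
        rw [← Complex.exp_add, add_neg_cancel, Complex.exp_zero]
      rw [e2, hdd]
      push_cast at t2 ⊢
      field_simp
      linear_combination (exp (b.zt c' z)) * (-1 : ℂ) * t2 + (2 * (c0 : ℂ) * c'.nu) * hz1
    have hup : Real.exp (b.zt c' z).re ≤ T.M1 * Real.exp z.re := by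
      have h1 := Real.exp_pos z.re
      have h2 := Real.exp_pos (b.zt c' z).re
      have e1 : Real.exp (-z.re) * Real.exp z.re = 1 := by rw [← Real.exp_add]; simp
      have e2 : Real.exp (-(b.zt c' z).re) * Real.exp (b.zt c' z).re = 1 := by
        rw [← Real.exp_add]; simp
      calc Real.exp (b.zt c' z).re = (Real.exp (-z.re) * Real.exp z.re) * Real.exp (b.zt c' z).re := by
            rw [e1, one_mul]
        _ ≤ (T.M1 * Real.exp (-(b.zt c' z).re) * Real.exp z.re) * Real.exp (b.zt c' z).re := by gcongr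
        _ = T.M1 * Real.exp z.re * (Real.exp (-(b.zt c' z).re) * Real.exp (b.zt c' z).re) := by ring
        _ = _ := by rw [e2, mul_one]
    have hdn : ‖d‖ ≤ 4 * (cT (T.e0 / 2) * (1 + T.L0) * T.M1 ^ 6) * dst c c' * Real.exp (-4 * z.re) := by
      rw [hdd, norm_div, norm_mul, Complex.norm_real, Real.norm_eq_abs, abs_of_pos (by positivity),
        Complex.norm_exp, div_le_iff₀ (by positivity)]
      have hEz := Real.exp_pos z.re
      have e6 : Real.exp (-5 * z.re) * Real.exp z.re = Real.exp (-4 * z.re) := by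
        rw [← Real.exp_add]
        congr 1
        ring
      calc _ ≤ cT (T.e0 / 2) * (1 + T.L0) * T.M1 ^ 5 * dst c c' * Real.exp (-5 * z.re) *
            (T.M1 * Real.exp z.re) := by gcongr
        _ = cT (T.e0 / 2) * (1 + T.L0) * T.M1 ^ 6 * dst c c' * Real.exp (-4 * z.re) * 1 := by
          rw [← e6]
          ring
        _ ≤ cT (T.e0 / 2) * (1 + T.L0) * T.M1 ^ 6 * dst c c' * Real.exp (-4 * z.re) *
            (4 * (2 * c0 * c'.nu)) := by
          gcongr
          nlinarith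
        _ = _ := by ring
    have hdh : ‖d‖ ≤ 1 / 2 := by
      refine hdn.trans ?_
      have e1 : Real.exp (-4 * z.re) ≤ Real.exp (-z.re) := Real.exp_le_exp.2 (by linarith)
      have hA : 0 ≤ cT (T.e0 / 2) * (1 + T.L0) * T.M1 ^ 6 := by positivity
      have e2 : 48 * (cT (T.e0 / 2) * (1 + T.L0) * T.M1 ^ 6) * Real.exp (-z.re) ≤ 1 := by
        refine le_trans ?_ hf
        gcongr
        unfold Tl.KS
        linarith
      calc _ ≤ 4 * (cT (T.e0 / 2) * (1 + T.L0) * T.M1 ^ 6) * 6 * Real.exp (-z.re) := by gcongr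
        _ = 1 / 2 * (48 * (cT (T.e0 / 2) * (1 + T.L0) * T.M1 ^ 6) * Real.exp (-z.re)) := by ring
        _ ≤ 1 / 2 * 1 := by gcongr
        _ = _ := by norm_num
    have him : ∀ (s : ℝ), (b.zt c' z - b.zt c z + (s : ℂ)).im = (b.zt c' z).im - (b.zt c z).im := by
      intro s
      simp
    have h6 := zt_mem0 (c := c) hb hz
    have h7 := zt_mem0 (c := c') hb hz
    have hpi := Real.pi_pos
    have hlog : b.zt c' z - b.zt c z + ((sh b c - sh b c' : ℝ) : ℂ) = Complex.log (1 + d) := by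
      rw [← key, Complex.log_exp]
      · rw [him]
        linarith [h6.1, h6.2, h7.1, h7.2, T.t10, T.t20, T.t12]
      · rw [him]
        linarith [h6.1, h6.2, h7.1, h7.2, T.t10, T.t20, T.t12]
    have e : b.zt c z - b.zt c' z - ((sh b c - sh b c' : ℝ) : ℂ) =
        -(b.zt c' z - b.zt c z + ((sh b c - sh b c' : ℝ) : ℂ)) := by ring
    rw [e, norm_neg, hlog]
    have h8 := Complex.norm_log_one_add_half_le_self hdh
    calc _ ≤ 3 / 2 * ‖d‖ := h8
      _ ≤ 3 / 2 * (4 * (cT (T.e0 / 2) * (1 + T.L0) * T.M1 ^ 6) * dst c c' * Real.exp (-4 * z.re)) := by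
        gcongr
      _ = 6 * (cT (T.e0 / 2) * (1 + T.L0) * T.M1 ^ 6) * dst c c' * Real.exp (-4 * z.re) := by ring
      _ ≤ _ := by
        gcongr
        unfold Tl.Cs
        have : 0 ≤ (T.L0 + 2) * T.KS ^ 4 := by positivity
        linarith
  · push Not at hf
    have h6 : 1 ≤ T.KS ^ 4 * Real.exp (-4 * z.re) := by
      have e2 : Real.exp (-4 * z.re) = Real.exp (-z.re) ^ 4 := by
        rw [← Real.exp_nat_mul]
        congr 1
        push_cast
        ring
      rw [e2, ← mul_pow]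
      exact one_le_pow₀ hf.le
    have hsh := sh_lip (b := b) (c := c) (c' := c')
    have h7 : ‖b.zt c z - b.zt c' z - ((sh b c - sh b c' : ℝ) : ℂ)‖ ≤ (T.L0 + 2) * dst c c' := by
      refine (norm_sub_le _ _).trans ?_
      rw [Complex.norm_real, Real.norm_eq_abs]
      linarith
    calc _ ≤ (T.L0 + 2) * dst c c' * 1 := by rw [mul_one]; exact h7
      _ ≤ (T.L0 + 2) * dst c c' * (T.KS ^ 4 * Real.exp (-4 * z.re)) := by gcongr
      _ = (T.L0 + 2) * T.KS ^ 4 * dst c c' * Real.exp (-4 * z.re) := by ring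
      _ ≤ _ := by
        gcongr
        unfold Tl.Cs
        have : 0 ≤ 6 * (cT (T.e0 / 2) * (1 + T.L0) * T.M1 ^ 6) := by positivity
        linarith

/-- **small steps on the left** -/
theorem step_zt' (hb : b.Rl) (hc : c.Bal) (hc' : c'.Bal) (hz : |z.im| ≤ T.bb) (hx : z.re ≤ 0) :
    ‖b.zt c z - b.zt c' z + ((sh b c - sh b c' : ℝ) : ℂ)‖ ≤ T.Cs * dst c c' * Real.exp (4 * z.re) := by
  have hz' : |(rf z).im| ≤ T.bb := by rwa [rf_im]
  have h := step_zt hb hc hc' hz' (by rw [rf_re]; linarith)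
  rw [zt_rf hb hz, zt_rf hb hz, rf_re] at h
  have e : rf (b.zt c z) - rf (b.zt c' z) - ((sh b c - sh b c' : ℝ) : ℂ) =
      rf (b.zt c z - b.zt c' z + ((sh b c - sh b c' : ℝ) : ℂ)) := by
    unfold rf
    simp only [map_add, map_sub, Complex.conj_ofReal]
    ring
  rw [e, rf_norm] at h
  refine h.trans_eq ?_
  congr 2
  ring

/-- the constant of small steps, derivative -/
def _root_.ISTZ.Tl.Cd (T : Tl) : ℝ := 4 / T.bb * ((T.Cs + T.L0) * 81)

lemma bb_lt1 : T.bb ≤ 1 := by
  have h1 := bb_small (T := T)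
  have h2 := e0_small (T := T)
  have := e0_pos (T := T)
  linarith

/-- **small steps of the derivative** -/
theorem step_dz (hb : b.Rl) (hc : c.Bal) (hc' : c'.Bal) (hz : |z.im| ≤ T.bb / 2) :
    ‖b.rh z / c.rh (b.zt c z) - b.rh z / c'.rh (b.zt c' z)‖ ≤
      T.Cd * dst c c' * Real.exp (-4 * |z.re|) := by
  have hbb := bb_pos (T := T)
  have hbb1 := bb_lt1 (T := T)
  have hD := dst_nonneg c c'
  have hL := L0_ge (T := T)
  have hCs := Cs_pos (T := T)
  have hE := Real.exp_pos (-4 * |z.re|)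
  obtain ⟨R, hR⟩ : ∃ R, R = T.bb / 4 := ⟨_, rfl⟩
  have hR0 : 0 < R := by rw [hR]; positivity
  have hsub : ∀ w ∈ closedBall z R, |w.im| < T.bb ∧ |w.re - z.re| ≤ R := fun w hw => by
    rw [mem_closedBall, dist_eq_norm] at hw
    have h1 := (Complex.abs_im_le_norm (w - z)).trans hw
    have h2 := (Complex.abs_re_le_norm (w - z)).trans hw
    rw [Complex.sub_im] at h1
    rw [Complex.sub_re] at h2
    refine ⟨?_, h2⟩
    have h3 : |w.im| ≤ |w.im - z.im| + |z.im| := by
      have := abs_add_le (w.im - z.im) z.im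
      rwa [sub_add_cancel] at this
    rw [hR] at h1
    linarith
  have e4 : Real.exp 4 ≤ 81 := by
    have h1 := Real.exp_one_lt_d9
    have h2 : Real.exp 4 = Real.exp 1 ^ 4 := by
      rw [← Real.exp_nat_mul]
      norm_num
    rw [h2]
    calc Real.exp 1 ^ 4 ≤ 3 ^ 4 := by gcongr; linarith
      _ = 81 := by norm_num
  -- the constant on this side
  obtain ⟨k, hk⟩ : ∃ k : ℂ, ∀ w ∈ closedBall z R, ‖b.zt c w - b.zt c' w - k‖ ≤
      (T.Cs + T.L0) * 81 * dst c c' * Real.exp (-4 * |z.re|) := by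
    rcases le_or_gt |z.re| R with h | h
    · refine ⟨0, fun w hw => ?_⟩
      have h1 : ‖b.zt c w - b.zt c' w‖ ≤ T.L0 * dst c c' := zt_lip hb c c' (hsub w hw).1.le
      rw [sub_zero]
      have h2 : 1 ≤ 81 * Real.exp (-4 * |z.re|) := by
        have h3 : Real.exp (-4) ≤ Real.exp (-4 * |z.re|) := Real.exp_le_exp.2 (by linarith)
        have h4 : Real.exp 4 * Real.exp (-4) = 1 := by rw [← Real.exp_add]; simp
        have h5 := Real.exp_pos (-4)
        calc (1:ℝ) = Real.exp 4 * Real.exp (-4) := h4.symm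
          _ ≤ _ := by gcongr
      calc _ ≤ T.L0 * dst c c' * 1 := by rw [mul_one]; exact h1
        _ ≤ T.L0 * dst c c' * (81 * Real.exp (-4 * |z.re|)) := by gcongr
        _ = T.L0 * 81 * dst c c' * Real.exp (-4 * |z.re|) := by ring
        _ ≤ _ := by
          gcongr
          linarith
    · have fin : ∀ y : ℝ, |y - z.re| ≤ R → Real.exp (-4 * |y|) ≤ 81 * Real.exp (-4 * |z.re|) := by
        intro y hy
        have h1 : |z.re| ≤ |y| + R := by
          have := abs_add_le y (z.re - y)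
          rw [add_sub_cancel, abs_sub_comm z.re y] at this
          linarith
        have h2 : Real.exp (-4 * |y|) ≤ Real.exp (4 + -4 * |z.re|) := Real.exp_le_exp.2 (by linarith)
        rw [Real.exp_add] at h2
        refine h2.trans ?_
        gcongr
      rcases le_total 0 z.re with h0 | h0
      · refine ⟨((sh b c - sh b c' : ℝ) : ℂ), fun w hw => ?_⟩
        obtain ⟨w1, w2⟩ := hsub w hw
        rw [abs_of_nonneg h0] at h
        have hw0 : 0 ≤ w.re := by linarith [(abs_le.1 w2).1]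
        have h1 := step_zt hb hc hc' w1.le hw0
        have h2 := fin _ w2
        rw [abs_of_nonneg hw0] at h2
        calc _ ≤ _ := h1
          _ ≤ T.Cs * dst c c' * (81 * Real.exp (-4 * |z.re|)) := by gcongr
          _ = T.Cs * 81 * dst c c' * Real.exp (-4 * |z.re|) := by ring
          _ ≤ _ := by
            gcongr
            linarith
      · refine ⟨-((sh b c - sh b c' : ℝ) : ℂ), fun w hw => ?_⟩
        obtain ⟨w1, w2⟩ := hsub w hw
        rw [abs_of_nonpos h0] at h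
        have hw0 : w.re ≤ 0 := by linarith [(abs_le.1 w2).2]
        have h1 := step_zt' hb hc hc' w1.le hw0
        have h2 := fin _ w2
        rw [abs_of_nonpos hw0] at h2
        rw [sub_neg_eq_add]
        calc _ ≤ _ := h1
          _ = T.Cs * dst c c' * Real.exp (-4 * -w.re) := by
            congr 2
            ring
          _ ≤ T.Cs * dst c c' * (81 * Real.exp (-4 * |z.re|)) := by gcongr
          _ = T.Cs * 81 * dst c c' * Real.exp (-4 * |z.re|) := by ring
          _ ≤ _ := by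
            gcongr
            linarith
  have hzb : |z.im| < T.bb := by linarith
  have hder : HasDerivAt (fun w => b.zt c w - b.zt c' w - k)
      (b.rh z / c.rh (b.zt c z) - b.rh z / c'.rh (b.zt c' z)) z :=
    ((hasDerivAt_zt hb hzb).sub (hasDerivAt_zt hb hzb)).sub_const k
  have hdc : DiffContOnCl ℂ (fun w => b.zt c w - b.zt c' w - k) (ball z R) := by
    refine DifferentiableOn.diffContOnCl fun w hw => ?_
    have hw' := closure_ball_subset_closedBall hw
    exact (((hasDerivAt_zt hb (hsub w hw').1).sub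
      (hasDerivAt_zt hb (hsub w hw').1)).sub_const k).differentiableAt.differentiableWithinAt
  have hfin := Complex.norm_deriv_le_of_forall_mem_sphere_norm_le hR0 hdc fun w hw =>
    hk w (sphere_subset_closedBall hw)
  rw [hder.deriv] at hfin
  refine hfin.trans_eq ?_
  rw [hR]
  unfold Tl.Cd
  field_simp

/-! ### in the unit `t` -/

theorem step_zT (hb : b.Rl) (hc : c.Bal) (hc' : c'.Bal) (hz : |z.im| ≤ T.bt) (hx : 0 ≤ z.re) :
    ‖b.zT c z - b.zT c' z - ((shT b c - shT b c' : ℝ) : ℂ)‖ ≤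
      T.Cs * dst c c' * Real.exp (-(32 / 3) * z.re) := by
  have h := step_zt hb hc hc' (bt_83 hz) (by rw [re_83]; positivity)
  rw [re_83, exp_83] at h
  have e : b.zT c z - b.zT c' z - ((shT b c - shT b c' : ℝ) : ℂ) =
      ((3 / 8 : ℝ) : ℂ) * (b.zt c (8 / 3 * z) - b.zt c' (8 / 3 * z) - ((sh b c - sh b c' : ℝ) : ℂ)) := by
    unfold zT shT sh
    push_cast
    ring
  rw [e, norm_mul, Complex.norm_real, Real.norm_of_nonneg (by norm_num)]
  have := norm_nonneg (b.zt c (8 / 3 * z) - b.zt c' (8 / 3 * z) - ((sh b c - sh b c' : ℝ) : ℂ))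
  linarith

theorem step_zT' (hb : b.Rl) (hc : c.Bal) (hc' : c'.Bal) (hz : |z.im| ≤ T.bt) (hx : z.re ≤ 0) :
    ‖b.zT c z - b.zT c' z + ((shT b c - shT b c' : ℝ) : ℂ)‖ ≤
      T.Cs * dst c c' * Real.exp ((32 / 3) * z.re) := by
  have hz' : |(rf z).im| ≤ T.bt := by rwa [rf_im]
  have h := step_zT hb hc hc' hz' (by rw [rf_re]; linarith)
  rw [zT_rf hb hz, zT_rf hb hz, rf_re] at h
  have e : rf (b.zT c z) - rf (b.zT c' z) - ((shT b c - shT b c' : ℝ) : ℂ) =
      rf (b.zT c z - b.zT c' z + ((shT b c - shT b c' : ℝ) : ℂ)) := by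
    unfold rf
    simp only [map_add, map_sub, Complex.conj_ofReal]
    ring
  rw [e, rf_norm] at h
  refine h.trans_eq ?_
  congr 2
  ring

/-- the derivative moves by the distance of the contents, with the tails -/
theorem step_dzT (hb : b.Rl) (hc : c.Bal) (hc' : c'.Bal) (hz : |z.im| ≤ T.bt / 2) :
    ‖b.PT z / c.PT (b.zT c z) - b.PT z / c'.PT (b.zT c' z)‖ ≤
      T.Cd * dst c c' * Real.exp (-(32 / 3) * |z.re|) := by
  have h8 : (8 / 3 : ℂ) ≠ 0 := by norm_num
  have hz' : |(8 / 3 * z).im| ≤ T.bb / 2 := by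
    rw [im_83, abs_mul, abs_of_pos (by norm_num : (0:ℝ) < 8 / 3)]
    unfold Tl.bt at hz
    linarith
  have h := step_dz hb hc hc' hz'
  rw [PT_eq, PT_eq, PT_eq, zT_83, zT_83, mul_div_mul_left _ _ h8, mul_div_mul_left _ _ h8]
  rw [re_83, abs_mul, abs_of_pos (by norm_num : (0:ℝ) < 8 / 3)] at h
  refine h.trans_eq ?_
  congr 2
  ring

/-- one step from the base: `|zeta' - 1| ≤ Cd dst e^(-(32/3)|Re z|)` -/
theorem step_one (hb : b.Rl) (hbb : b.Bal) (hc : c.Bal) (hz : |z.im| ≤ T.bt / 2) :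
    ‖b.PT z / c.PT (b.zT c z) - 1‖ ≤ T.Cd * dst c b * Real.exp (-(32 / 3) * |z.re|) := by
  have hbt := Tl.bt_pos (T := T)
  have h := step_dzT hb hc hbb hz
  have hz1 : |z.im| ≤ T.bt := by linarith
  have hne := PT_ne (c := b) hb hz1
  rw [zT_self hb hz1] at h hne
  rwa [div_self hne] at h

end Pm

end

end ISTZ
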