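import Pool.Agent.IST.ZVel
import Pool.Agent.IST.FieldX

/-!
# ISO, T1: the transport map in the unit `t`, and the path of stage A (rows at `± x`)
-/

set_option autoImplicit false

open Complex Set Filter Topology ComplexConjugate Metric

namespace ISTZ

open NUMF (l l_pos)
open IST (xiX xiX_mul)

noncomputable section

lemma Pc_eq (z : ℂ) : NUMF.Pc z = 8 / 3 * p (8 / 3 * z) := by
  have h3 : (√3 : ℝ) ≠ 0 := NUMF.sq3_pos.ne'
  have hpi : (Real.pi : ℝ) ≠ 0 := Real.pi_ne_zero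
  have e : (4 / (√3 * Real.pi : ℝ) : ℝ) = 8 / 3 * c0 := by
    unfold c0
    have := Real.sq_sqrt (show (0:ℝ) ≤ 3 by norm_num)
    field_simp
    nlinarith
  have e' := congrArg (fun x : ℝ => (x : ℂ)) e
  unfold NUMF.Pc p
  push_cast at e' ⊢
  rw [e']
  ring

lemma Gc_eq (z : ℂ) : NUMF.Gc z = r (8 / 3 * z) := by
  have e : NUMF.wz z = K (8 / 3 * z) := by
    unfold NUMF.wz K
    push_cast
    rfl
  have hpi : (Real.pi : ℂ) ≠ 0 := by exact_mod_cast Real.pi_ne_zero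
  have e2 : (1 : ℂ) / (2 * Real.pi * I) = -I / (2 * (Real.pi : ℂ)) := by
    have hI := Complex.I_ne_zero
    field_simp
    rw [Complex.I_sq]
    ring
  unfold NUMF.Gc r
  rw [e, e2]

lemma im_83 (z : ℂ) : (8 / 3 * z).im = 8 / 3 * z.im := by
  have : (8 / 3 * z : ℂ) = ((8 / 3 : ℝ) : ℂ) * z := by push_cast; ring
  rw [this, Complex.im_ofReal_mul]

lemma re_83 (z : ℂ) : (8 / 3 * z).re = 8 / 3 * z.re := by
  have : (8 / 3 * z : ℂ) = ((8 / 3 : ℝ) : ℂ) * z := by push_cast; ring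
  rw [this, Complex.re_ofReal_mul]

lemma im_38 (z : ℂ) : (3 / 8 * z).im = 3 / 8 * z.im := by
  have : (3 / 8 * z : ℂ) = ((3 / 8 : ℝ) : ℂ) * z := by push_cast; ring
  rw [this, Complex.im_ofReal_mul]

lemma re_38 (z : ℂ) : (3 / 8 * z).re = 3 / 8 * z.re := by
  have : (3 / 8 * z : ℂ) = ((3 / 8 : ℝ) : ℂ) * z := by push_cast; ring
  rw [this, Complex.re_ofReal_mul]

lemma conj_83 : conj (8 / 3 : ℂ) = 8 / 3 := by
  rw [show (8 / 3 : ℂ) = ((8 / 3 : ℝ) : ℂ) by push_cast; ring, Complex.conj_ofReal]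

lemma conj_38 : conj (3 / 8 : ℂ) = 3 / 8 := by
  rw [show (3 / 8 : ℂ) = ((3 / 8 : ℝ) : ℂ) by push_cast; ring, Complex.conj_ofReal]

/-- the width in the unit `t` -/
def Tl.bt (T : Tl) : ℝ := 3 / 8 * T.bb

lemma Tl.bt_pos {T : Tl} : 0 < T.bt := by
  have := Tl.bb_pos (T := T)
  unfold Tl.bt
  positivity

lemma bt_83 {T : Tl} {z : ℂ} (hz : |z.im| ≤ T.bt) : |(8 / 3 * z).im| ≤ T.bb := by
  rw [im_83, abs_mul, abs_of_pos (by norm_num : (0:ℝ) < 8 / 3)]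
  unfold Tl.bt at hz
  linarith

lemma bt_83' {T : Tl} {z : ℂ} (hz : |z.im| < T.bt) : |(8 / 3 * z).im| < T.bb := by
  rw [im_83, abs_mul, abs_of_pos (by norm_num : (0:ℝ) < 8 / 3)]
  unfold Tl.bt at hz
  linarith

namespace Pm

open Tl

variable {T : Tl} {b c : Pm T} {z w : ℂ}

/-- the transport map in the unit `t` -/
def zT (b c : Pm T) (z : ℂ) : ℂ := 3 / 8 * b.zt c (8 / 3 * z)

/-- density in the unit `t` -/
def PT (c : Pm T) (z : ℂ) : ℂ :=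
  c.w0 * NUMF.Pc z + (c.w1 * NUMF.Pc (z + (3 / 8 * c.m1 : ℝ) * I) +
    c.w2 * NUMF.Pc (z - (3 / 8 * c.m2 : ℝ) * I))

/-- primitive in the unit `t` -/
def GT (c : Pm T) (z : ℂ) : ℂ :=
  c.w0 * NUMF.Gc z + (c.w1 * NUMF.Gc (z + (3 / 8 * c.m1 : ℝ) * I) +
    c.w2 * NUMF.Gc (z - (3 / 8 * c.m2 : ℝ) * I))

lemma PT_eq (c : Pm T) (z : ℂ) : c.PT z = 8 / 3 * c.rh (8 / 3 * z) := by
  have e1 : (8 / 3 * (z + (3 / 8 * c.m1 : ℝ) * I) : ℂ) = 8 / 3 * z + c.m1 * I := by push_cast; ring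
  have e2 : (8 / 3 * (z - (3 / 8 * c.m2 : ℝ) * I) : ℂ) = 8 / 3 * z - c.m2 * I := by push_cast; ring
  unfold PT rh cb
  rw [Pc_eq, Pc_eq, Pc_eq, e1, e2]
  ring

lemma GT_eq (c : Pm T) (z : ℂ) : c.GT z = c.ph (8 / 3 * z) := by
  have e1 : (8 / 3 * (z + (3 / 8 * c.m1 : ℝ) * I) : ℂ) = 8 / 3 * z + c.m1 * I := by push_cast; ring
  have e2 : (8 / 3 * (z - (3 / 8 * c.m2 : ℝ) * I) : ℂ) = 8 / 3 * z - c.m2 * I := by push_cast; ring
  unfold GT ph cb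
  rw [Gc_eq, Gc_eq, Gc_eq, e1, e2]

lemma zT_83 (b c : Pm T) (z : ℂ) : (8 / 3 : ℂ) * b.zT c z = b.zt c (8 / 3 * z) := by
  unfold zT
  ring

/-- **the equation** -/
theorem zT_eq (hb : b.Rl) (hz : |z.im| ≤ T.bt) : c.GT (b.zT c z) = b.GT z := by
  rw [GT_eq, GT_eq, zT_83, zt_eq hb (bt_83 hz)]

/-- the strip in the unit `t` -/
theorem zT_mem (hb : b.Rl) (hz : |z.im| ≤ T.bt) : 8 / 3 * b.zT c z ∈ T.St (T.e0 / 2) := by
  rw [zT_83]
  exact zt_mem hb (bt_83 hz)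

theorem zT_unique (hb : b.Rl) (hz : |z.im| ≤ T.bt) (hw : 8 / 3 * w ∈ T.St 0)
    (h : c.GT w = b.GT z) : w = b.zT c z := by
  rw [GT_eq, GT_eq] at h
  have := zt_unique hb (bt_83 hz) hw h
  unfold zT
  rw [← this]
  ring

theorem PT_ne (hb : b.Rl) (hz : |z.im| ≤ T.bt) : c.PT (b.zT c z) ≠ 0 := by
  rw [PT_eq, zT_83]
  exact mul_ne_zero (by norm_num) (rh_ne (zt_mem0 hb (bt_83 hz)))

theorem zT_self (hb : b.Rl) (hz : |z.im| ≤ T.bt) : b.zT b z = z := by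
  unfold zT
  rw [zt_self hb (bt_83 hz)]
  ring

theorem hasDerivAt_zT (hb : b.Rl) (hz : |z.im| < T.bt) :
    HasDerivAt (b.zT c) (b.PT z / c.PT (b.zT c z)) z := by
  have h1 := hasDerivAt_zt (c := c) hb (bt_83' hz)
  have h2 : HasDerivAt (fun z : ℂ => 8 / 3 * z) (8 / 3) z := by
    simpa using (hasDerivAt_id z).const_mul (8 / 3 : ℂ)
  have h3 := (HasDerivAt.comp z h1 h2).const_mul (3 / 8 : ℂ)
  refine h3.congr_deriv ?_
  have hne := rh_ne (c := c) (zt_mem0 (c := c) hb (bt_83 hz.le))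
  rw [PT_eq, PT_eq, zT_83]
  field_simp
  try ring

theorem dzT_up (hb : b.Rl) (hz : |z.im| ≤ T.bt) :
    ‖b.PT z / c.PT (b.zT c z)‖ ≤ 32 * cU (T.e0 / 2) * T.M1 := by
  rw [PT_eq, PT_eq, zT_83, mul_div_mul_left _ _ (by norm_num)]
  exact dz_up hb (bt_83 hz)

theorem dzT_low (hb : b.Rl) (hz : |z.im| ≤ T.bt) :
    1 / (32 * cU (T.e0 / 2) * T.M1) ≤ ‖b.PT z / c.PT (b.zT c z)‖ := by
  rw [PT_eq, PT_eq, zT_83, mul_div_mul_left _ _ (by norm_num)]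
  exact dz_low hb (bt_83 hz)

theorem zT_rf (hb : b.Rl) (hz : |z.im| ≤ T.bt) : b.zT c (rf z) = rf (b.zT c z) := by
  have e : (8 / 3 * rf z : ℂ) = rf (8 / 3 * z) := by
    unfold rf
    rw [map_mul, conj_83]
    ring
  unfold zT
  rw [e, zt_rf hb (bt_83 hz)]
  unfold rf
  rw [map_mul, conj_38]
  ring

theorem zT_conj (h12 : T.t1 = T.t2) (hb : b.Sy) (hc : c.Sy) (hz : |z.im| ≤ T.bt) :
    b.zT c (conj z) = conj (b.zT c z) := by
  have e : (8 / 3 * conj z : ℂ) = conj (8 / 3 * z) := by rw [map_mul, conj_83]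
  unfold zT
  rw [e, zt_conj h12 hb hc (bt_83 hz), map_mul, conj_38]

theorem zT_neg (h12 : T.t1 = T.t2) (hb : b.Sy) (hc : c.Sy) (hz : |z.im| ≤ T.bt) :
    b.zT c (-z) = -b.zT c z := by
  have hz' : |(conj z).im| ≤ T.bt := by rwa [Complex.conj_im, abs_neg]
  have e : -z = rf (conj z) := by simp [rf]
  rw [e, zT_rf hb.rl hz', zT_conj h12 hb hc hz]
  simp [rf]

theorem zT_real (h12 : T.t1 = T.t2) (hb : b.Sy) (hc : c.Sy) (x : ℝ) : (b.zT c x).im = 0 := by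
  have := zt_real h12 hb hc (8 / 3 * x)
  unfold zT
  rw [im_38]
  push_cast at this
  rw [this, mul_zero]

/-- the shift in the unit `t` -/
def shT (b c : Pm T) : ℝ := 3 / 8 * Real.log (c.nu / b.nu)

lemma exp_83 (x : ℝ) : Real.exp (-4 * (8 / 3 * x)) = Real.exp (-(32 / 3) * x) := by
  congr 1
  ring

/-- **the tail** -/
theorem tail_zT (hb : b.Rl) (hbb : b.Bal) (hc : c.Bal) (hz : |z.im| ≤ T.bt) (hx : 0 ≤ z.re) :
    ‖b.zT c z - z - shT b c‖ ≤ T.Ct * Real.exp (-(32 / 3) * z.re) := by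
  have h := tail_zt hb hbb hc (bt_83 hz) (by rw [re_83]; positivity)
  rw [re_83, exp_83] at h
  have e : b.zT c z - z - shT b c = ((3 / 8 : ℝ) : ℂ) * (b.zt c (8 / 3 * z) - 8 / 3 * z - sh b c) := by
    unfold zT shT sh
    push_cast
    ring
  rw [e, norm_mul, Complex.norm_real]
  have := norm_nonneg (b.zt c (8 / 3 * z) - 8 / 3 * z - sh b c)
  rw [Real.norm_of_nonneg (by norm_num)]
  linarith

theorem tail_zT' (hb : b.Rl) (hbb : b.Bal) (hc : c.Bal) (hz : |z.im| ≤ T.bt) (hx : z.re ≤ 0) :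
    ‖b.zT c z - z + shT b c‖ ≤ T.Ct * Real.exp ((32 / 3) * z.re) := by
  have hz' : |(rf z).im| ≤ T.bt := by rwa [rf_im]
  have h := tail_zT hb hbb hc hz' (by rw [rf_re]; linarith)
  rw [zT_rf hb hz, rf_re] at h
  have e : rf (b.zT c z) - rf z - shT b c = rf (b.zT c z - z + shT b c) := by
    unfold rf
    simp only [map_add, map_sub, Complex.conj_ofReal]
    ring
  rw [e, rf_norm] at h
  refine h.trans_eq ?_
  congr 2
  ring

/-- both sides -/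
theorem tail_dzT (hb : b.Rl) (hbb : b.Bal) (hc : c.Bal) (hz : |z.im| ≤ T.bt) :
    ‖b.PT z / c.PT (b.zT c z) - 1‖ ≤ T.Ct * Real.exp (-(32 / 3) * |z.re|) := by
  rw [PT_eq, PT_eq, zT_83, mul_div_mul_left _ _ (by norm_num : (8 / 3 : ℂ) ≠ 0)]
  rcases le_total 0 z.re with hx | hx
  · have h := tail_dz hb hbb hc (bt_83 hz) (by rw [re_83]; positivity)
    rwa [re_83, exp_83, ← abs_of_nonneg hx] at h
  · have h := tail_dz' hb hbb hc (bt_83 hz) (by rw [re_83]; linarith)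
    rw [re_83] at h
    rw [abs_of_nonpos hx]
    refine h.trans_eq ?_
    congr 2
    ring

/-- **the velocity in the unit `t`** -/
theorem hasDerivAt_cT (hb : b.Rl) {c : ℝ → Pm T} {S : Set ℝ} {θ a0 a1 a2 n1 n2 : ℝ}
    (h0 : HasDerivWithinAt (fun t => (c t).w0) a0 S θ)
    (h1 : HasDerivWithinAt (fun t => (c t).w1) a1 S θ)
    (h2 : HasDerivWithinAt (fun t => (c t).w2) a2 S θ)
    (k1 : HasDerivWithinAt (fun t => (c t).m1) n1 S θ)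
    (k2 : HasDerivWithinAt (fun t => (c t).m2) n2 S θ) {z : ℂ} (hz : |z.im| ≤ T.bt) :
    HasDerivWithinAt (fun t => b.zT (c t) z) (3 / 8 * b.xi (c θ) a0 a1 a2 n1 n2 (8 / 3 * z)) S θ :=
  (hasDerivAt_c hb h0 h1 h2 k1 k2 (bt_83 hz)).const_mul (3 / 8 : ℂ)

/-- the map is Lipschitz in the content -/
theorem zT_lip (hb : b.Rl) (c c' : Pm T) (hz : |z.im| ≤ T.bt) :
    ‖b.zT c z - b.zT c' z‖ ≤ 32 * T.M1 ^ 2 * (cT (T.e0 / 2) + cU (T.e0 / 2)) * dst c c' := by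
  have h := zt_lip hb c c' (bt_83 hz)
  have e : b.zT c z - b.zT c' z = ((3 / 8 : ℝ) : ℂ) * (b.zt c (8 / 3 * z) - b.zt c' (8 / 3 * z)) := by
    unfold zT
    push_cast
    ring
  rw [e, norm_mul, Complex.norm_real, Real.norm_of_nonneg (by norm_num)]
  have := norm_nonneg (b.zt c (8 / 3 * z) - b.zt c' (8 / 3 * z))
  linarith

end Pm

/-! ## stage A -/

/-- the symmetric strip -/
def TA : Tl where
  t1 := Real.pi / 6
  t2 := Real.pi / 6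
  dl := 1 / 2
  t10 := by have := Real.pi_pos; positivity
  t20 := by have := Real.pi_pos; positivity
  t12 := by ring
  dl0 := by norm_num
  dl1 := by norm_num

/-- rows at `± x` -/
def cA (x : ℝ) : Pm TA where
  w0 := 0
  w1 := 1 / 2
  w2 := 1 / 2
  m1 := 8 / 3 * max 0 (min x (l / 2))
  m2 := 8 / 3 * max 0 (min x (l / 2))
  w00 := le_rfl
  w10 := by norm_num
  w20 := by norm_num
  sum1 := by norm_num
  d1 := by unfold TA; norm_num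
  d2 := by unfold TA; norm_num
  m10 := by positivity
  m11 := by
    have h : max 0 (min x (l / 2)) ≤ l / 2 := max_le (by have := l_pos; positivity) (min_le_right _ _)
    unfold TA
    have : l = Real.pi / 8 := rfl
    simp only
    linarith
  m20 := by positivity
  m21 := by
    have h : max 0 (min x (l / 2)) ≤ l / 2 := max_le (by have := l_pos; positivity) (min_le_right _ _)
    unfold TA
    have : l = Real.pi / 8 := rfl
    simp only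
    linarith

lemma clA {x : ℝ} (hx : x ∈ Icc 0 (l / 2)) : max 0 (min x (l / 2)) = x := by
  rw [min_eq_left hx.2, max_eq_right hx.1]

lemma cA_sy (x : ℝ) : (cA x).Sy := ⟨rfl, rfl⟩

lemma cA_m1 {x : ℝ} (hx : x ∈ Icc 0 (l / 2)) : (cA x).m1 = 8 / 3 * x := by
  show 8 / 3 * max 0 (min x (l / 2)) = _
  rw [clA hx]

lemma cA_m2 {x : ℝ} (hx : x ∈ Icc 0 (l / 2)) : (cA x).m2 = 8 / 3 * x := by
  show 8 / 3 * max 0 (min x (l / 2)) = _
  rw [clA hx]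

lemma zero_A : (0 : ℝ) ∈ Icc 0 (l / 2) := ⟨le_rfl, by have := l_pos; positivity⟩

/-- density, rows at `± x` -/
def Px (x : ℝ) (z : ℂ) : ℂ := (NUMF.Pc (z + x * I) + NUMF.Pc (z - x * I)) / 2

/-- primitive, rows at `± x` -/
def Gx (x : ℝ) (z : ℂ) : ℂ := (NUMF.Gc (z + x * I) + NUMF.Gc (z - x * I)) / 2

lemma cA_PT {x : ℝ} (hx : x ∈ Icc 0 (l / 2)) (z : ℂ) : (cA x).PT z = Px x z := by
  have e : (3 / 8 * (cA x).m1 : ℝ) = x := by rw [cA_m1 hx]; ring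
  have e' : (3 / 8 * (cA x).m2 : ℝ) = x := by rw [cA_m2 hx]; ring
  unfold Pm.PT Px
  rw [e, e']
  show ((0 : ℝ) : ℂ) * _ + (((1 / 2 : ℝ) : ℂ) * _ + ((1 / 2 : ℝ) : ℂ) * _) = _
  push_cast
  ring

lemma cA_GT {x : ℝ} (hx : x ∈ Icc 0 (l / 2)) (z : ℂ) : (cA x).GT z = Gx x z := by
  have e : (3 / 8 * (cA x).m1 : ℝ) = x := by rw [cA_m1 hx]; ring
  have e' : (3 / 8 * (cA x).m2 : ℝ) = x := by rw [cA_m2 hx]; ring
  unfold Pm.GT Gx
  rw [e, e']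
  show ((0 : ℝ) : ℂ) * _ + (((1 / 2 : ℝ) : ℂ) * _ + ((1 / 2 : ℝ) : ℂ) * _) = _
  push_cast
  ring

lemma Px_zero (z : ℂ) : Px 0 z = NUMF.Pc z := by
  unfold Px
  simp

lemma Gx_zero (z : ℂ) : Gx 0 z = NUMF.Gc z := by
  unfold Gx
  simp

/-- **the transport map of stage A** from rows at `0` to rows at `± x` -/
def zx (x : ℝ) (z : ℂ) : ℂ := (cA 0).zT (cA x) z

/-- the width of stage A -/
def bA : ℝ := TA.bt

lemma bA_pos : 0 < bA := Tl.bt_pos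

lemma zx_83 {x : ℝ} {z : ℂ} (hz : |z.im| ≤ bA) : 8 / 3 * zx x z ∈ TA.St (TA.e0 / 2) :=
  Pm.zT_mem (cA_sy 0).rl hz

/-- half of the distance to the lines of the rows -/
def eA : ℝ := 3 / 16 * TA.e0

lemma eA_pos : 0 < eA := by
  have := Tl.e0_pos (T := TA)
  unfold eA
  positivity

/-- the image stays inside `|Im| < l / 2 - eA` -/
theorem zx_im {x : ℝ} {z : ℂ} (hz : |z.im| ≤ bA) : |(zx x z).im| < l / 2 - eA := by
  have h := zx_83 (x := x) hz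
  rw [Tl.mem_St, im_83] at h
  have h1 : -(Real.pi / 6) + TA.e0 / 2 < 8 / 3 * (zx x z).im := h.1
  have h2 : 8 / 3 * (zx x z).im < Real.pi / 6 - TA.e0 / 2 := h.2
  have hl : l = Real.pi / 8 := rfl
  unfold eA
  rw [abs_lt]
  constructor <;> linarith

theorem zx_eq {x : ℝ} (hx : x ∈ Icc 0 (l / 2)) {z : ℂ} (hz : |z.im| ≤ bA) :
    Gx x (zx x z) = NUMF.Gc z := by
  have h := Pm.zT_eq (c := cA x) (cA_sy 0).rl hz
  rwa [cA_GT hx, cA_GT zero_A, Gx_zero] at h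

theorem zx_unique {x : ℝ} (hx : x ∈ Icc 0 (l / 2)) {z w : ℂ} (hz : |z.im| ≤ bA)
    (hw : |w.im| < l / 2) (h : Gx x w = NUMF.Gc z) : w = zx x z := by
  refine Pm.zT_unique (cA_sy 0).rl hz ?_ ?_
  · rw [Tl.mem_St, im_83]
    have hl : l = Real.pi / 8 := rfl
    obtain ⟨h1, h2⟩ := abs_lt.1 hw
    show -(Real.pi / 6) + 0 < _ ∧ _ < Real.pi / 6 - 0
    constructor <;> linarith
  · rw [cA_GT hx, cA_GT zero_A, Gx_zero]
    exact h

theorem Px_ne {x : ℝ} (hx : x ∈ Icc 0 (l / 2)) {z : ℂ} (hz : |z.im| ≤ bA) : Px x (zx x z) ≠ 0 := by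
  have := Pm.PT_ne (c := cA x) (cA_sy 0).rl hz
  rwa [cA_PT hx] at this

theorem hasDerivAt_zx {x : ℝ} (hx : x ∈ Icc 0 (l / 2)) {z : ℂ} (hz : |z.im| < bA) :
    HasDerivAt (zx x) (NUMF.Pc z / Px x (zx x z)) z := by
  have h := Pm.hasDerivAt_zT (c := cA x) (cA_sy 0).rl hz
  rwa [cA_PT hx, cA_PT zero_A, Px_zero] at h

/-- the constant of stage A -/
def CA : ℝ := 32 * cU (TA.e0 / 2) * TA.M1

theorem dzx_up {x : ℝ} (hx : x ∈ Icc 0 (l / 2)) {z : ℂ} (hz : |z.im| ≤ bA) :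
    ‖NUMF.Pc z / Px x (zx x z)‖ ≤ CA := by
  have h := Pm.dzT_up (c := cA x) (cA_sy 0).rl hz
  rwa [cA_PT hx, cA_PT zero_A, Px_zero] at h

theorem dzx_low {x : ℝ} (hx : x ∈ Icc 0 (l / 2)) {z : ℂ} (hz : |z.im| ≤ bA) :
    1 / CA ≤ ‖NUMF.Pc z / Px x (zx x z)‖ := by
  have h := Pm.dzT_low (c := cA x) (cA_sy 0).rl hz
  rwa [cA_PT hx, cA_PT zero_A, Px_zero] at h

theorem zx_zero {z : ℂ} (hz : |z.im| ≤ bA) : zx 0 z = z := Pm.zT_self (cA_sy 0).rl hz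

theorem zx_neg {x : ℝ} {z : ℂ} (hz : |z.im| ≤ bA) : zx x (-z) = -zx x z :=
  Pm.zT_neg rfl (cA_sy 0) (cA_sy x) hz

theorem zx_conj {x : ℝ} {z : ℂ} (hz : |z.im| ≤ bA) : zx x (conj z) = conj (zx x z) :=
  Pm.zT_conj rfl (cA_sy 0) (cA_sy x) hz

theorem zx_real (x t : ℝ) : (zx x t).im = 0 := Pm.zT_real rfl (cA_sy 0) (cA_sy x) t

/-- the shift of stage A -/
def dlA (x : ℝ) : ℝ := 3 / 8 * Real.log (Real.cos (8 / 3 * x))

lemma cA_nu {x : ℝ} (hx : x ∈ Icc 0 (l / 2)) : (cA x).nu = Real.cos (8 / 3 * x) := by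
  unfold Pm.nu
  rw [cA_m1 hx, cA_m2 hx]
  show 0 + (1 / 2 * _ + 1 / 2 * _) = _
  ring

lemma shT_A {x : ℝ} (hx : x ∈ Icc 0 (l / 2)) : Pm.shT (cA 0) (cA x) = dlA x := by
  unfold Pm.shT dlA
  rw [cA_nu hx, cA_nu zero_A]
  simp

theorem tail_zx {x : ℝ} (hx : x ∈ Icc 0 (l / 2)) {z : ℂ} (hz : |z.im| ≤ bA) (h0 : 0 ≤ z.re) :
    ‖zx x z - z - dlA x‖ ≤ TA.Ct * Real.exp (-(32 / 3) * z.re) := by
  have h := Pm.tail_zT (cA_sy 0).rl (cA_sy 0).bal (cA_sy x).bal hz h0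
  rwa [shT_A hx] at h

theorem tail_zx' {x : ℝ} (hx : x ∈ Icc 0 (l / 2)) {z : ℂ} (hz : |z.im| ≤ bA) (h0 : z.re ≤ 0) :
    ‖zx x z - z + dlA x‖ ≤ TA.Ct * Real.exp ((32 / 3) * z.re) := by
  have h := Pm.tail_zT' (cA_sy 0).rl (cA_sy 0).bal (cA_sy x).bal hz h0
  rwa [shT_A hx] at h

theorem tail_dzx {x : ℝ} (hx : x ∈ Icc 0 (l / 2)) {z : ℂ} (hz : |z.im| ≤ bA) :
    ‖NUMF.Pc z / Px x (zx x z) - 1‖ ≤ TA.Ct * Real.exp (-(32 / 3) * |z.re|) := by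
  have h := Pm.tail_dzT (c := cA x) (cA_sy 0).rl (cA_sy 0).bal (cA_sy x).bal hz
  rwa [cA_PT hx, cA_PT zero_A, Px_zero] at h

/-- **the velocity of stage A is the field `xiX`** -/
theorem hasDerivAt_zx_x {x : ℝ} (hx : x ∈ Icc 0 (l / 2)) {z : ℂ} (hz : |z.im| ≤ bA) :
    HasDerivWithinAt (fun x => zx x z) (xiX x (zx x z)) (Icc 0 (l / 2)) x := by
  have k : HasDerivWithinAt (fun t => (cA t).m1) (8 / 3) (Icc 0 (l / 2)) x := by
    have h := ((hasDerivAt_id x).const_mul (8 / 3 : ℝ)).hasDerivWithinAt (s := Icc 0 (l / 2))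
    rw [mul_one] at h
    exact h.congr (fun t ht => cA_m1 ht) (cA_m1 hx)
  have k' : HasDerivWithinAt (fun t => (cA t).m2) (8 / 3) (Icc 0 (l / 2)) x := k
  have h := Pm.hasDerivAt_cT (c := cA) (θ := x) (S := Icc 0 (l / 2)) (cA_sy 0).rl
    (hasDerivWithinAt_const x _ (0:ℝ)) (hasDerivWithinAt_const x _ (1 / 2 : ℝ))
    (hasDerivWithinAt_const x _ (1 / 2 : ℝ)) k k' hz
  refine h.congr_deriv ?_
  have him := zx_im (x := x) hz
  have he := eA_pos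
  have hl := l_pos
  have h1 := xiX_mul hx.1 hx.2 (z := zx x z) (by linarith [hx.2]) (by linarith)
  have hne := Px_ne hx hz
  unfold Px at hne
  have hne' : NUMF.Pc (zx x z + x * I) + NUMF.Pc (zx x z - x * I) ≠ 0 := by
    intro h0
    rw [h0, zero_div] at hne
    exact hne rfl
  have e1 : (8 / 3 * (zx x z + x * I) : ℂ) = (cA 0).zt (cA x) (8 / 3 * z) + (cA x).m1 * I := by
    rw [cA_m1 hx]
    unfold zx Pm.zT
    push_cast
    ring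
  have e2 : (8 / 3 * (zx x z - x * I) : ℂ) = (cA 0).zt (cA x) (8 / 3 * z) - (cA x).m2 * I := by
    rw [cA_m2 hx]
    unfold zx Pm.zT
    push_cast
    ring
  rw [Pc_eq, Pc_eq, e1, e2] at h1 hne'
  have hrh : (cA x).rh ((cA 0).zt (cA x) (8 / 3 * z)) ≠ 0 :=
    Pm.rh_ne (Pm.zt_mem0 (cA_sy 0).rl (bt_83 hz))
  unfold Pm.xi
  rw [← mul_div_assoc, div_eq_iff hrh]
  unfold Pm.dph Pm.rh Pm.cb
  show 3 / 8 * -(((0 : ℝ) : ℂ) * _ + ((((0 : ℝ) : ℂ) * _ + ((1 / 2 : ℝ) : ℂ) * _) + (((0 : ℝ) : ℂ) * _ -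
    ((1 / 2 : ℝ) : ℂ) * _))) = _ * (((0 : ℝ) : ℂ) * _ + (((1 / 2 : ℝ) : ℂ) * _ + ((1 / 2 : ℝ) : ℂ) * _))
  push_cast
  linear_combination (-(3 / 16) : ℂ) * h1

end

end ISTZ
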