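import Pool.Agent.IST.ZPar
import Mathlib.Analysis.SpecialFunctions.Complex.LogBounds

/-!
# ISO, T1: the tails of the transport map
-/

set_option autoImplicit false

open Complex Set Filter Topology ComplexConjugate Metric

namespace ISTZ

noncomputable section

/-- the tail of the density -/
def H1 (z : ℂ) : ℂ := p z - ((2 * c0 : ℝ) : ℂ) * exp (-z)

lemma gpe_le {e : ℝ} (he : 0 < e) (he1 : e ≤ Real.pi / 3) : 4 / gp (Real.pi / 3 - e) ≤ cT e := by
  have h := gpe he he1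
  unfold cT
  have h1 : 4 / gp (Real.pi / 3 - e) ≤ 8 / gp (Real.pi / 3 - e) := by gcongr; norm_num
  linarith

lemma H_up {e : ℝ} (he : 0 < e) (he1 : e ≤ Real.pi / 3) {z : ℂ} (h : |z.im| ≤ Real.pi / 3 - e)
    (hx : 0 ≤ z.re) : ‖H z‖ ≤ cT e * Real.exp (-5 * z.re) := by
  have hg := gpe he he1
  refine (H_le (by linarith) (by linarith) h hx).trans ?_
  have := Real.exp_pos (-5 * z.re)
  unfold cT
  gcongr
  norm_num

lemma H1_up {e : ℝ} (he : 0 < e) (he1 : e ≤ Real.pi / 3) {z : ℂ} (h : |z.im| ≤ Real.pi / 3 - e) :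
    ‖H1 z‖ ≤ cT e * Real.exp (-5 * z.re) := by
  refine (H1_le (by linarith) (by linarith) h).trans ?_
  have := gpe_le he he1
  gcongr

namespace Pm

open Tl

variable {T : Tl} {b c : Pm T}

/-- both tails real -/
def Bal (c : Pm T) : Prop := c.w1 * Real.sin c.m1 = c.w2 * Real.sin c.m2

/-- the relative length of the total vector -/
def nu (c : Pm T) : ℝ := c.w0 + (c.w1 * Real.cos c.m1 + c.w2 * Real.cos c.m2)

lemma cos_m {m : ℝ} (h0 : 0 ≤ m) (h1 : m ≤ Real.pi / 3) : 1 / 2 ≤ Real.cos m := by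
  rw [← Real.cos_pi_div_three]
  exact Real.cos_le_cos_of_nonneg_of_le_pi h0 (by linarith [Real.pi_pos]) h1

lemma m1_le : c.m1 ≤ Real.pi / 3 := by
  have := c.m11
  have := T.t12
  have := T.t20
  linarith

lemma m2_le : c.m2 ≤ Real.pi / 3 := by
  have := c.m21
  have := T.t12
  have := T.t10
  linarith

lemma nu_ge : 1 / 2 ≤ c.nu := by
  have h1 := cos_m c.m10 (m1_le (c := c))
  have h2 := cos_m c.m20 (m2_le (c := c))
  have a0 := c.w00
  have a1 := c.w10
  have a2 := c.w20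
  have hs := c.sum1
  unfold nu
  nlinarith

lemma nu_le : c.nu ≤ 1 := by
  have h1 := Real.cos_le_one c.m1
  have h2 := Real.cos_le_one c.m2
  have a0 := c.w00
  have a1 := c.w10
  have a2 := c.w20
  have hs := c.sum1
  unfold nu
  nlinarith

lemma exp_I (m : ℝ) : exp ((m : ℂ) * I) = (Real.cos m : ℂ) + (Real.sin m : ℂ) * I := by
  rw [Complex.exp_mul_I, Complex.ofReal_cos, Complex.ofReal_sin]

lemma cb_exp (hc : c.Bal) (z : ℂ) : c.cb (fun z => exp (-z)) z = c.nu * exp (-z) := by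
  unfold cb nu
  have e1 : exp (-(z + c.m1 * I)) = exp (-z) * ((Real.cos c.m1 : ℂ) - (Real.sin c.m1 : ℂ) * I) := by
    have : -(z + c.m1 * I) = -z + ((-c.m1 : ℝ) : ℂ) * I := by push_cast; ring
    rw [this, Complex.exp_add, exp_I, Real.cos_neg, Real.sin_neg]
    push_cast
    ring
  have e2 : exp (-(z - c.m2 * I)) = exp (-z) * ((Real.cos c.m2 : ℂ) + (Real.sin c.m2 : ℂ) * I) := by
    have : -(z - c.m2 * I) = -z + ((c.m2 : ℝ) : ℂ) * I := by ring
    rw [this, Complex.exp_add, exp_I]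
  have hb : (c.w1 : ℂ) * (Real.sin c.m1 : ℂ) = (c.w2 : ℂ) * (Real.sin c.m2 : ℂ) := by exact_mod_cast hc
  beta_reduce
  rw [e1, e2]
  push_cast
  push_cast at hb
  linear_combination (-exp (-z) * I) * hb

lemma cb_add (F G : ℂ → ℂ) (z : ℂ) : c.cb (fun z => F z + G z) z = c.cb F z + c.cb G z := by
  unfold cb
  ring

lemma cb_smul (a : ℂ) (F : ℂ → ℂ) (z : ℂ) : c.cb (fun z => a * F z) z = a * c.cb F z := by
  unfold cb
  ring

theorem ph_tail (hc : c.Bal) (z : ℂ) :
    c.ph z = 1 / 2 - ((2 * c0 * c.nu : ℝ) : ℂ) * exp (-z) + c.cb H z := by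
  have e : (r : ℂ → ℂ) = fun z => (-((2 * c0 : ℝ) : ℂ) * exp (-z) + H z) + 1 / 2 := by
    funext z
    unfold H
    ring
  unfold ph
  conv_lhs => rw [e]
  rw [cb_add_const, cb_add, cb_smul, cb_exp hc]
  push_cast
  ring

theorem rh_tail (hc : c.Bal) (z : ℂ) :
    c.rh z = ((2 * c0 * c.nu : ℝ) : ℂ) * exp (-z) + c.cb H1 z := by
  have e : (p : ℂ → ℂ) = fun z => ((2 * c0 : ℝ) : ℂ) * exp (-z) + H1 z := by
    funext z
    unfold H1
    ring
  unfold rh
  conv_lhs => rw [e]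
  rw [cb_add, cb_smul, cb_exp hc]
  push_cast
  ring

theorem cbH_up {e : ℝ} (he : 0 < e) (he1 : e ≤ Real.pi / 3) {z : ℂ} (hz : z ∈ T.St e)
    (hx : 0 ≤ z.re) : ‖c.cb H z‖ ≤ cT e * Real.exp (-5 * z.re) := by
  refine cb_norm (H_up he he1 (b0 hz) hx) ?_ ?_
  · have := H_up he he1 (b1 (c := c) hz) (by rwa [re_add])
    rwa [re_add] at this
  · have := H_up he he1 (b2 (c := c) hz) (by rwa [re_sub])
    rwa [re_sub] at this

theorem cbH1_up {e : ℝ} (he : 0 < e) (he1 : e ≤ Real.pi / 3) {z : ℂ} (hz : z ∈ T.St e) :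
    ‖c.cb H1 z‖ ≤ cT e * Real.exp (-5 * z.re) := by
  refine cb_norm (H1_up he he1 (b0 hz)) ?_ ?_
  · have := H1_up he he1 (b1 (c := c) hz)
    rwa [re_add] at this
  · have := H1_up he he1 (b2 (c := c) hz)
    rwa [re_sub] at this

/-- constants of the tails -/
def _root_.ISTZ.Tl.K3 (T : Tl) : ℝ := 8 * cT (T.e0 / 2) * (T.M1 ^ 5 + 1)

def _root_.ISTZ.Tl.M5 (T : Tl) : ℝ := cT (T.e0 / 2) * (1 + T.M1) + 2 * T.K3 + 1

lemma K3_pos : 0 < T.K3 := by
  have h1 := cT_ge e2_pos (e2_pi (T := T))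
  have h2 := M1_ge (T := T)
  unfold Tl.K3
  positivity

lemma M5_ge : 1 ≤ T.M5 := by
  have h1 := cT_ge e2_pos (e2_pi (T := T))
  have h2 := M1_ge (T := T)
  have h3 := K3_pos (T := T)
  have : 0 ≤ cT (T.e0 / 2) * (1 + T.M1) := by positivity
  unfold Tl.M5
  linarith

variable {z : ℂ}

/-- far to the right the image is on the right -/
theorem re_pos (hb : b.Rl) (hz : |z.im| ≤ T.bb) (hx : 0 ≤ z.re) (h5 : T.M5 * Real.exp (-z.re) ≤ 1) :
    0 ≤ (b.zt c z).re := by
  by_contra hcon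
  push Not at hcon
  have h1 := ph_bot (c := c) e2_pos e2_pi (zt_mem (c := c) hb hz) hcon.le
  have h2 := ph_top (c := b) e2_pos e2_pi (near_mem hz) hx
  have h3 := cmp2 (c := c) hb hz
  rw [abs_of_neg hcon, neg_neg, abs_of_nonneg hx] at h3
  rw [zt_eq hb hz] at h1
  have hcT := cT_ge e2_pos (e2_pi (T := T))
  have hK := K3_pos (T := T)
  have hE := Real.exp_pos (-z.re)
  have h4 : (1 : ℝ) ≤ ‖b.ph z + 1 / 2‖ + ‖b.ph z - 1 / 2‖ := by
    calc (1 : ℝ) = ‖(b.ph z + 1 / 2) - (b.ph z - 1 / 2)‖ := by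
          have : (b.ph z + 1 / 2) - (b.ph z - 1 / 2) = 1 := by ring
          rw [this, norm_one]
      _ ≤ _ := norm_sub_le _ _
  have h6 : cT (T.e0 / 2) * Real.exp (b.zt c z).re ≤ cT (T.e0 / 2) * (T.M1 * Real.exp (-z.re)) := by gcongr
  unfold Tl.M5 at h5
  nlinarith

/-- the difference of the remainders -/
theorem dH_up (hb : b.Rl) (hz : |z.im| ≤ T.bb) (hx : 0 ≤ z.re) (h5 : T.M5 * Real.exp (-z.re) ≤ 1)
    {F : ℂ → ℂ} (hF : ∀ (c : Pm T) (w : ℂ), w ∈ T.St (T.e0 / 2) → 0 ≤ w.re →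
      ‖c.cb F w‖ ≤ cT (T.e0 / 2) * Real.exp (-5 * w.re)) :
    ‖c.cb F (b.zt c z) - b.cb F z‖ ≤ cT (T.e0 / 2) * (T.M1 ^ 5 + 1) * Real.exp (-5 * z.re) := by
  have h0 := re_pos (c := c) hb hz hx h5
  have h1 := hF c _ (zt_mem (c := c) hb hz) h0
  have h2 := hF b _ (near_mem hz) hx
  have h3 := cmp2 (c := c) hb hz
  rw [abs_of_nonneg h0, abs_of_nonneg hx] at h3
  have hcT := cT_ge e2_pos (e2_pi (T := T))
  have h4 : Real.exp (-5 * (b.zt c z).re) ≤ T.M1 ^ 5 * Real.exp (-5 * z.re) := by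
    have e1 : Real.exp (-5 * (b.zt c z).re) = Real.exp (-(b.zt c z).re) ^ 5 := by
      rw [← Real.exp_nat_mul]
      congr 1
      push_cast
      ring
    have e2 : Real.exp (-5 * z.re) = Real.exp (-z.re) ^ 5 := by
      rw [← Real.exp_nat_mul]
      congr 1
      push_cast
      ring
    rw [e1, e2, ← mul_pow]
    have := Real.exp_pos (-(b.zt c z).re)
    gcongr
  calc _ ≤ cT (T.e0 / 2) * (T.M1 ^ 5 * Real.exp (-5 * z.re)) + cT (T.e0 / 2) * Real.exp (-5 * z.re) :=
        (norm_sub_le _ _).trans (add_le_add (h1.trans (by gcongr)) h2)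
    _ = _ := by ring

/-- the shift -/
def sh (b c : Pm T) : ℝ := Real.log (c.nu / b.nu)

lemma sh_le : |sh b c| ≤ 1 := by
  have h1 := nu_ge (c := c)
  have h2 := nu_le (c := c)
  have h3 := nu_ge (c := b)
  have h4 := nu_le (c := b)
  have l2 : Real.log 2 ≤ 1 := by
    have := Real.log_two_lt_d9
    linarith
  unfold sh
  rw [Real.log_div (by linarith) (by linarith), abs_le]
  have a1 : Real.log (1 / 2) ≤ Real.log c.nu := Real.log_le_log (by norm_num) h1
  have a2 : Real.log c.nu ≤ 0 := Real.log_nonpos (by linarith) h2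
  have a3 : Real.log (1 / 2) ≤ Real.log b.nu := Real.log_le_log (by norm_num) h3
  have a4 : Real.log b.nu ≤ 0 := Real.log_nonpos (by linarith) h4
  have a5 : Real.log (1 / 2) = -Real.log 2 := by rw [one_div, Real.log_inv]
  constructor <;> linarith

/-- the tail far out -/
theorem tail_far (hb : b.Rl) (hbb : b.Bal) (hc : c.Bal) (hz : |z.im| ≤ T.bb) (hx : 0 ≤ z.re)
    (h5 : T.M5 * Real.exp (-z.re) ≤ 1) :
    ‖b.zt c z - z - sh b c‖ ≤ 2 * T.K3 * Real.exp (-4 * z.re) := by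
  have hd := dH_up (c := c) hb hz hx h5 (F := H) fun c w hw hw0 => cbH_up e2_pos e2_pi hw hw0
  have h1 := ph_tail hc (b.zt c z)
  have h2 := ph_tail hbb z
  rw [zt_eq hb hz, h2] at h1
  have hn1 := nu_ge (c := c)
  have hn2 := nu_ge (c := b)
  have hc0 := c0_pos
  have hcl := c0_lo
  have hK := K3_pos (T := T)
  obtain ⟨d, hdd⟩ : ∃ d : ℂ, d = (c.cb H (b.zt c z) - b.cb H z) * exp z / ((2 * c0 * b.nu : ℝ) : ℂ) := ⟨_, rfl⟩
  have hne : ((2 * c0 * b.nu : ℝ) : ℂ) ≠ 0 := by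
    have : (2 * c0 * b.nu : ℝ) ≠ 0 := by positivity
    exact_mod_cast this
  have key : exp (z - b.zt c z + sh b c) = 1 + d := by
    have e1 : exp ((sh b c : ℝ) : ℂ) = (c.nu : ℂ) / b.nu := by
      rw [← Complex.ofReal_exp]
      unfold sh
      rw [Real.exp_log (by positivity)]
      push_cast
      rfl
    have e2 : exp (z - b.zt c z + sh b c) = exp z * exp (-(b.zt c z)) * ((c.nu : ℂ) / b.nu) := by
      rw [Complex.exp_add, e1, sub_eq_add_neg, Complex.exp_add]
    have hn : (b.nu : ℂ) ≠ 0 := by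
      have : b.nu ≠ 0 := by linarith
      exact_mod_cast this
    have hc0c : (c0 : ℂ) ≠ 0 := by exact_mod_cast hc0.ne'
    have hz1 : exp z * exp (-z) = 1 := by rw [← Complex.exp_add, add_neg_cancel, Complex.exp_zero]
    rw [e2, hdd]
    push_cast at h1 ⊢
    field_simp
    linear_combination (exp z) * h1 + (2 * (c0 : ℂ) * b.nu) * hz1
  have hdn : ‖d‖ ≤ T.K3 * Real.exp (-4 * z.re) := by
    rw [hdd, norm_div, norm_mul, Complex.norm_real, Real.norm_eq_abs, abs_of_pos (by positivity),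
      Complex.norm_exp, div_le_iff₀ (by positivity)]
    have hE := Real.exp_pos z.re
    have e5 : Real.exp (-5 * z.re) * Real.exp z.re = Real.exp (-4 * z.re) := by
      rw [← Real.exp_add]
      congr 1
      ring
    have e4 := Real.exp_pos (-4 * z.re)
    have hcT := cT_ge e2_pos (e2_pi (T := T))
    have hM := M1_ge (T := T)
    calc ‖c.cb H (b.zt c z) - b.cb H z‖ * Real.exp z.re ≤
          cT (T.e0 / 2) * (T.M1 ^ 5 + 1) * Real.exp (-5 * z.re) * Real.exp z.re := by gcongr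
      _ = cT (T.e0 / 2) * (T.M1 ^ 5 + 1) * Real.exp (-4 * z.re) := by rw [mul_assoc, e5]
      _ = T.K3 * Real.exp (-4 * z.re) * (1 / 8) := by unfold Tl.K3; ring
      _ ≤ T.K3 * Real.exp (-4 * z.re) * (2 * c0 * b.nu) := by
        gcongr
        nlinarith
  have hdh : ‖d‖ ≤ 1 / 2 := by
    refine hdn.trans ?_
    have e1 : Real.exp (-4 * z.re) ≤ Real.exp (-z.re) := Real.exp_le_exp.2 (by linarith)
    have e2 : 2 * T.K3 * Real.exp (-z.re) ≤ T.M5 * Real.exp (-z.re) := by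
      have hcT := cT_ge e2_pos (e2_pi (T := T))
      have hM := M1_ge (T := T)
      have : 0 ≤ cT (T.e0 / 2) * (1 + T.M1) := by positivity
      have h6 : 2 * T.K3 ≤ T.M5 := by
        unfold Tl.M5
        linarith
      have := Real.exp_pos (-z.re)
      gcongr
    have e3 : T.K3 * Real.exp (-4 * z.re) ≤ T.K3 * Real.exp (-z.re) := by gcongr
    linarith
  have hlog : z - b.zt c z + sh b c = Complex.log (1 + d) := by
    rw [← key, Complex.log_exp]
    · have h6 := zt_mem0 (c := c) hb hz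
      have h7 := near_mem0 (T := T) hz
      have := T.t12
      have := Real.pi_pos
      have e : (z - b.zt c z + (sh b c : ℂ)).im = z.im - (b.zt c z).im := by simp
      rw [e]
      linarith [h6.1, h6.2, h7.1, h7.2, T.t10, T.t20]
    · have h6 := zt_mem0 (c := c) hb hz
      have h7 := near_mem0 (T := T) hz
      have := T.t12
      have := Real.pi_pos
      have e : (z - b.zt c z + (sh b c : ℂ)).im = z.im - (b.zt c z).im := by simp
      rw [e]
      linarith [h6.1, h6.2, h7.1, h7.2, T.t10, T.t20]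
  have e : b.zt c z - z - sh b c = -(z - b.zt c z + sh b c) := by ring
  rw [e, norm_neg, hlog]
  have h8 := Complex.norm_log_one_add_half_le_self hdh
  have := Real.exp_pos (-4 * z.re)
  calc _ ≤ 3 / 2 * ‖d‖ := h8
    _ ≤ 2 * (T.K3 * Real.exp (-4 * z.re)) := by
      have := norm_nonneg d
      linarith
    _ = _ := by ring

/-- near the centre -/
lemma near_one (_hx : 0 ≤ z.re) (h5 : ¬ T.M5 * Real.exp (-z.re) ≤ 1) :
    1 ≤ T.M5 ^ 4 * Real.exp (-4 * z.re) ∧ z.re ≤ Real.log T.M5 := by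
  push Not at h5
  have hM := M5_ge (T := T)
  have e2 : Real.exp (-4 * z.re) = Real.exp (-z.re) ^ 4 := by
    rw [← Real.exp_nat_mul]
    congr 1
    push_cast
    ring
  refine ⟨?_, ?_⟩
  · rw [e2, ← mul_pow]
    exact one_le_pow₀ h5.le
  · have h1 : Real.exp z.re < T.M5 := by
      have := Real.exp_pos z.re
      have h2 : Real.exp (-z.re) * Real.exp z.re = 1 := by rw [← Real.exp_add]; simp
      calc Real.exp z.re = 1 * Real.exp z.re := (one_mul _).symm
        _ < T.M5 * Real.exp (-z.re) * Real.exp z.re := by gcongr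
        _ = T.M5 := by rw [mul_assoc, h2, mul_one]
    exact (Real.le_log_iff_exp_le (by linarith)).2 h1.le

/-- the constant of the tail -/
def _root_.ISTZ.Tl.Ct (T : Tl) : ℝ :=
  2 * T.K3 + (2 * Real.log T.M5 + Real.log T.M1 + 5) * T.M5 ^ 4 + 64 * T.M1 * T.K3 +
    (32 * cU (T.e0 / 2) * T.M1 + 1) * T.M5 ^ 4

lemma logs : 0 ≤ Real.log T.M5 ∧ 0 ≤ Real.log T.M1 := by
  have h1 := M5_ge (T := T)
  have h2 := M1_ge (T := T)
  exact ⟨Real.log_nonneg h1, Real.log_nonneg (by linarith)⟩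

lemma Ct_pos : 0 < T.Ct := by
  have hK := K3_pos (T := T)
  obtain ⟨l5, l1⟩ := logs (T := T)
  have hM5 := M5_ge (T := T)
  have hM1 := M1_ge (T := T)
  have hU := cU_ge e2_pos (e2_pi (T := T))
  unfold Tl.Ct
  positivity

/-- **the tail of the transport map** -/
theorem tail_zt (hb : b.Rl) (hbb : b.Bal) (hc : c.Bal) (hz : |z.im| ≤ T.bb) (hx : 0 ≤ z.re) :
    ‖b.zt c z - z - sh b c‖ ≤ T.Ct * Real.exp (-4 * z.re) := by
  have hK := K3_pos (T := T)
  obtain ⟨l5, l1⟩ := logs (T := T)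
  have hM5 := M5_ge (T := T)
  have hM1 := M1_ge (T := T)
  have hU := cU_ge e2_pos (e2_pi (T := T))
  have hE := Real.exp_pos (-4 * z.re)
  by_cases h5 : T.M5 * Real.exp (-z.re) ≤ 1
  · refine (tail_far hb hbb hc hz hx h5).trans ?_
    have : 2 * T.K3 ≤ T.Ct := by
      unfold Tl.Ct
      have : 0 ≤ (2 * Real.log T.M5 + Real.log T.M1 + 5) * T.M5 ^ 4 := by positivity
      have : 0 ≤ 64 * T.M1 * T.K3 := by positivity
      have : 0 ≤ (32 * cU (T.e0 / 2) * T.M1 + 1) * T.M5 ^ 4 := by positivity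
      linarith
    gcongr
  · obtain ⟨h6, h7⟩ := near_one hx h5
    have h8 := re_zt_le (c := c) hb hz
    have h9 := zt_mem0 (c := c) hb hz
    have h10 := near_mem0 (T := T) hz
    have h11 := sh_le (b := b) (c := c)
    have hp := Real.pi_lt_d2
    have him : |(b.zt c z - z).im| ≤ 2 := by
      have := T.t12
      rw [Complex.sub_im, abs_le]
      constructor <;> linarith [h9.1, h9.2, h10.1, h10.2, T.t10, T.t20]
    have hre : |(b.zt c z - z).re| ≤ 2 * Real.log T.M5 + Real.log T.M1 := by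
      rw [Complex.sub_re]
      have h12 := abs_sub (b.zt c z).re z.re
      rw [abs_of_nonneg hx] at h8 h12
      linarith
    have h13 : ‖b.zt c z - z - sh b c‖ ≤ 2 * Real.log T.M5 + Real.log T.M1 + 5 := by
      refine (norm_sub_le _ _).trans ?_
      have h14 := Complex.norm_le_abs_re_add_abs_im (b.zt c z - z)
      rw [Complex.norm_real, Real.norm_eq_abs]
      linarith
    calc _ ≤ (2 * Real.log T.M5 + Real.log T.M1 + 5) * 1 := by rw [mul_one]; exact h13
      _ ≤ (2 * Real.log T.M5 + Real.log T.M1 + 5) * (T.M5 ^ 4 * Real.exp (-4 * z.re)) := by gcongr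
      _ = (2 * Real.log T.M5 + Real.log T.M1 + 5) * T.M5 ^ 4 * Real.exp (-4 * z.re) := by ring
      _ ≤ _ := by
        gcongr
        unfold Tl.Ct
        have : 0 ≤ 64 * T.M1 * T.K3 := by positivity
        have : 0 ≤ (32 * cU (T.e0 / 2) * T.M1 + 1) * T.M5 ^ 4 := by positivity
        linarith

/-- **the tail of the derivative** -/
theorem tail_dz (hb : b.Rl) (hbb : b.Bal) (hc : c.Bal) (hz : |z.im| ≤ T.bb) (hx : 0 ≤ z.re) :
    ‖b.rh z / c.rh (b.zt c z) - 1‖ ≤ T.Ct * Real.exp (-4 * z.re) := by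
  have hK := K3_pos (T := T)
  obtain ⟨l5, l1⟩ := logs (T := T)
  have hM5 := M5_ge (T := T)
  have hM1 := M1_ge (T := T)
  have hU := cU_ge e2_pos (e2_pi (T := T))
  have hcT := cT_ge e2_pos (e2_pi (T := T))
  have hE := Real.exp_pos (-4 * z.re)
  by_cases h5 : T.M5 * Real.exp (-z.re) ≤ 1
  · have hd := dH_up (c := c) hb hz hx h5 (F := H) fun c w hw hw0 => cbH_up e2_pos e2_pi hw hw0
    have hd1 := dH_up (c := c) hb hz hx h5 (F := H1) fun c w hw hw0 => cbH1_up e2_pos e2_pi hw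
    have h1 := ph_tail hc (b.zt c z)
    have h2 := ph_tail hbb z
    rw [zt_eq hb hz, h2] at h1
    have h3 := rh_tail hc (b.zt c z)
    have h4 := rh_tail hbb z
    have h6 : b.rh z - c.rh (b.zt c z) = -(c.cb H (b.zt c z) - b.cb H z) -
        (c.cb H1 (b.zt c z) - b.cb H1 z) := by
      rw [h3, h4]
      linear_combination (-1 : ℂ) * h1
    have h7 : ‖b.rh z - c.rh (b.zt c z)‖ ≤
        2 * (cT (T.e0 / 2) * (T.M1 ^ 5 + 1) * Real.exp (-5 * z.re)) := by
      rw [h6]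
      refine (norm_sub_le _ _).trans ?_
      rw [norm_neg]
      linarith
    have h8 := (rh_low (c := c) (zt_mem0 (c := c) hb hz)).trans (Complex.re_le_norm _)
    have h9 := cmp1 (c := c) hb hz
    rw [abs_of_nonneg hx] at h9
    have h10 : Real.exp (-z.re) / (32 * T.M1) ≤ ‖c.rh (b.zt c z)‖ := by
      refine le_trans ?_ h8
      rw [div_le_div_iff₀ (by positivity) (by norm_num)]
      nlinarith
    have hne := rh_ne (c := c) (zt_mem0 (c := c) hb hz)
    have e1 : b.rh z / c.rh (b.zt c z) - 1 = (b.rh z - c.rh (b.zt c z)) / c.rh (b.zt c z) := by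
      field_simp
    have hEx := Real.exp_pos (-z.re)
    have e5 : Real.exp (-5 * z.re) = Real.exp (-4 * z.re) * Real.exp (-z.re) := by
      rw [← Real.exp_add]
      congr 1
      ring
    rw [e1, norm_div, div_le_iff₀ (lt_of_lt_of_le (by positivity) h10)]
    calc _ ≤ _ := h7
      _ = 64 * T.M1 * (cT (T.e0 / 2) * (T.M1 ^ 5 + 1)) * Real.exp (-4 * z.re) *
          (Real.exp (-z.re) / (32 * T.M1)) := by
        rw [e5]
        field_simp
        norm_num
      _ ≤ T.Ct * Real.exp (-4 * z.re) * ‖c.rh (b.zt c z)‖ := by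
        have hCt := Ct_pos (T := T)
        gcongr
        unfold Tl.Ct
        have a1 : 64 * T.M1 * (cT (T.e0 / 2) * (T.M1 ^ 5 + 1)) ≤ 64 * T.M1 * T.K3 := by
          have : cT (T.e0 / 2) * (T.M1 ^ 5 + 1) ≤ T.K3 := by
            unfold Tl.K3
            have : 0 ≤ cT (T.e0 / 2) * (T.M1 ^ 5 + 1) := by positivity
            linarith
          gcongr
        have : 0 ≤ (2 * Real.log T.M5 + Real.log T.M1 + 5) * T.M5 ^ 4 := by positivity
        have : 0 ≤ (32 * cU (T.e0 / 2) * T.M1 + 1) * T.M5 ^ 4 := by positivity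
        linarith
  · obtain ⟨h6, h7⟩ := near_one hx h5
    have h8 := dz_up (c := c) hb hz
    have h13 : ‖b.rh z / c.rh (b.zt c z) - 1‖ ≤ 32 * cU (T.e0 / 2) * T.M1 + 1 := by
      refine (norm_sub_le _ _).trans ?_
      rw [norm_one]
      linarith
    calc _ ≤ (32 * cU (T.e0 / 2) * T.M1 + 1) * 1 := by rw [mul_one]; exact h13
      _ ≤ (32 * cU (T.e0 / 2) * T.M1 + 1) * (T.M5 ^ 4 * Real.exp (-4 * z.re)) := by gcongr
      _ = (32 * cU (T.e0 / 2) * T.M1 + 1) * T.M5 ^ 4 * Real.exp (-4 * z.re) := by ring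
      _ ≤ _ := by
        gcongr
        unfold Tl.Ct
        have : 0 ≤ 64 * T.M1 * T.K3 := by positivity
        have : 0 ≤ (2 * Real.log T.M5 + Real.log T.M1 + 5) * T.M5 ^ 4 := by positivity
        linarith

end Pm

end

end ISTZ
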