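import Pool.Agent.IST.ZTail

/-!
# ISO, T1: symmetries of the transport map and tails of its velocity
-/

set_option autoImplicit false

open Complex Set Filter Topology ComplexConjugate Metric

namespace ISTZ

noncomputable section

/-- reflection in the imaginary axis -/
def rf (z : ℂ) : ℂ := -conj z

lemma rf_re (z : ℂ) : (rf z).re = -z.re := by simp [rf]

lemma rf_im (z : ℂ) : (rf z).im = z.im := by simp [rf]

lemma rf_rf (z : ℂ) : rf (rf z) = z := by simp [rf]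

lemma rf_norm (z : ℂ) : ‖rf z‖ = ‖z‖ := by simp [rf]

lemma rf_add (z : ℂ) (m : ℝ) : rf z + m * I = rf (z + m * I) := by
  simp [rf]
  ring

lemma rf_sub (z : ℂ) (m : ℝ) : rf z - m * I = rf (z - m * I) := by
  simp [rf]
  ring

lemma r_rf {z : ℂ} (h : |z.im| < Real.pi / 3) : r (rf z) = rf (r z) := by
  unfold rf
  rw [r_neg, r_conj h]

lemma p_neg (z : ℂ) : p (-z) = p z := by
  unfold p
  rw [Complex.cosh_neg]

lemma p_conj (z : ℂ) : p (conj z) = conj (p z) := by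
  unfold p
  rw [map_mul, map_add, map_div₀, map_div₀, map_sub, map_add, map_mul, Complex.conj_ofReal, map_one,
    ← Complex.cosh_conj]
  have : conj (2 : ℂ) = 2 := Complex.conj_ofNat 2
  rw [this]

lemma p_rf (z : ℂ) : p (rf z) = conj (p z) := by
  unfold rf
  rw [p_neg, p_conj]

namespace Pm

open Tl

variable {T : Tl} {b c : Pm T} {z : ℂ}

lemma rf_mem {e : ℝ} (hz : z ∈ T.St e) : rf z ∈ T.St e := by
  rw [mem_St, rf_im]
  exact hz

lemma ph_rf (hz : z ∈ T.St 0) : c.ph (rf z) = rf (c.ph z) := by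
  unfold ph cb
  rw [rf_add, rf_sub, r_rf (l0 hz), r_rf (l1 (c := c) hz), r_rf (l2 (c := c) hz)]
  unfold rf
  simp only [map_add, map_mul, Complex.conj_ofReal]
  ring

lemma rh_rf : c.rh (rf z) = conj (c.rh z) := by
  unfold rh cb
  rw [rf_add, rf_sub, p_rf, p_rf, p_rf]
  simp only [map_add, map_mul, Complex.conj_ofReal]

lemma dph_rf {a0 a1 a2 n1 n2 : ℝ} (hz : z ∈ T.St 0) :
    c.dph a0 a1 a2 n1 n2 (rf z) = rf (c.dph a0 a1 a2 n1 n2 z) := by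
  unfold dph
  rw [rf_add, rf_sub, r_rf (l0 hz), r_rf (l1 (c := c) hz), r_rf (l2 (c := c) hz), p_rf, p_rf]
  unfold rf
  simp only [map_add, map_sub, map_mul, Complex.conj_ofReal, Complex.conj_I]
  ring

/-- **reflection** -/
theorem zt_rf (hb : b.Rl) (hz : |z.im| ≤ T.bb) : b.zt c (rf z) = rf (b.zt c z) := by
  have hz' : |(rf z).im| ≤ T.bb := by rwa [rf_im]
  refine (zt_unique (c := c) hb hz' (rf_mem (zt_mem0 hb hz)) ?_).symm
  rw [ph_rf (zt_mem0 hb hz), zt_eq hb hz, ph_rf (near_mem0 hz)]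

/-- symmetric contents -/
def Sy (c : Pm T) : Prop := c.w1 = c.w2 ∧ c.m1 = c.m2

lemma Sy.bal (h : c.Sy) : c.Bal := by
  unfold Bal
  rw [h.1, h.2]

lemma Sy.ph (h : c.Sy) (hz : z ∈ T.St 0) : c.ph (conj z) = conj (c.ph z) := by
  obtain ⟨h1, h2⟩ := h
  have e1 : r (conj z + c.m2 * I) = conj (r (z - c.m2 * I)) := by
    rw [← r_conj (l2 (c := c) hz)]
    congr 1
    simp
  have e2 : r (conj z - c.m2 * I) = conj (r (z + c.m2 * I)) := by
    rw [← r_conj (by have := l1 (c := c) hz; rwa [h2] at this)]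
    congr 1
    simp
    ring
  unfold Pm.ph cb
  rw [h1, h2, e1, e2, r_conj (l0 hz)]
  simp only [map_add, map_mul, Complex.conj_ofReal]
  ring

lemma Sy.rh (h : c.Sy) : c.rh (conj z) = conj (c.rh z) := by
  obtain ⟨h1, h2⟩ := h
  have e1 : p (conj z + c.m2 * I) = conj (p (z - c.m2 * I)) := by
    rw [← p_conj]
    congr 1
    simp
  have e2 : p (conj z - c.m2 * I) = conj (p (z + c.m2 * I)) := by
    rw [← p_conj]
    congr 1
    simp
    ring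
  unfold Pm.rh cb
  rw [h1, h2, e1, e2, p_conj]
  simp only [map_add, map_mul, Complex.conj_ofReal]
  ring

lemma Sy.rl (h : c.Sy) : c.Rl := fun x => by
  have := h.ph (real_mem (T := T) x)
  rw [Complex.conj_ofReal] at this
  exact Complex.conj_eq_iff_im.1 this.symm

lemma w0_sy (h1 : c.w1 = 0) (h2 : c.w2 = 0) : c.w0 = 1 := by
  have := c.sum1
  linarith

/-- the sea of one row -/
lemma rl0 (h1 : c.w1 = 0) (h2 : c.w2 = 0) : c.Rl := fun x => by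
  unfold Pm.ph cb
  rw [h1, h2, w0_sy h1 h2]
  simpa using r_im_real x

lemma bal0 (h1 : c.w1 = 0) (h2 : c.w2 = 0) : c.Bal := by
  unfold Bal
  rw [h1, h2]
  ring

lemma nu0 (h1 : c.w1 = 0) (h2 : c.w2 = 0) : c.nu = 1 := by
  unfold nu
  rw [h1, h2, w0_sy h1 h2]
  ring

lemma ph0 (h1 : c.w1 = 0) (h2 : c.w2 = 0) (z : ℂ) : c.ph z = r z := by
  unfold Pm.ph cb
  rw [h1, h2, w0_sy h1 h2]
  simp

lemma rh0 (h1 : c.w1 = 0) (h2 : c.w2 = 0) (z : ℂ) : c.rh z = p z := by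
  unfold Pm.rh cb
  rw [h1, h2, w0_sy h1 h2]
  simp

lemma _root_.ISTZ.conj_mem {T : Tl} (h12 : T.t1 = T.t2) {e : ℝ} {z : ℂ} (hz : z ∈ T.St e) :
    conj z ∈ T.St e := by
  rw [Tl.mem_St] at hz ⊢
  rw [Complex.conj_im, h12] at *
  constructor <;> linarith [hz.1, hz.2]

/-- **conjugation** for symmetric contents -/
theorem zt_conj (h12 : T.t1 = T.t2) (hb : b.Sy) (hc : c.Sy) (hz : |z.im| ≤ T.bb) :
    b.zt c (conj z) = conj (b.zt c z) := by
  have hz' : |(conj z).im| ≤ T.bb := by rwa [Complex.conj_im, abs_neg]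
  refine (zt_unique (c := c) hb.rl hz' (conj_mem h12 (zt_mem0 hb.rl hz)) ?_).symm
  rw [hc.ph (zt_mem0 hb.rl hz), zt_eq hb.rl hz, hb.ph (near_mem0 hz)]

/-- real points go to real points -/
theorem zt_real (h12 : T.t1 = T.t2) (hb : b.Sy) (hc : c.Sy) (x : ℝ) : (b.zt c x).im = 0 := by
  have hx : |((x : ℂ)).im| ≤ T.bb := by
    rw [Complex.ofReal_im, abs_zero]
    exact bb_pos.le
  have := zt_conj h12 hb hc hx
  rw [Complex.conj_ofReal] at this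
  exact Complex.conj_eq_iff_im.1 this.symm

/-- the tail on the left -/
theorem tail_zt' (hb : b.Rl) (hbb : b.Bal) (hc : c.Bal) (hz : |z.im| ≤ T.bb) (hx : z.re ≤ 0) :
    ‖b.zt c z - z + sh b c‖ ≤ T.Ct * Real.exp (4 * z.re) := by
  have hz' : |(rf z).im| ≤ T.bb := by rwa [rf_im]
  have h := tail_zt hb hbb hc hz' (by rw [rf_re]; linarith)
  rw [zt_rf hb hz, rf_re] at h
  have e : rf (b.zt c z) - rf z - sh b c = rf (b.zt c z - z + sh b c) := by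
    unfold rf
    simp only [map_add, map_sub, Complex.conj_ofReal]
    ring
  rw [e, rf_norm] at h
  refine h.trans_eq ?_
  congr 2
  ring

theorem tail_dz' (hb : b.Rl) (hbb : b.Bal) (hc : c.Bal) (hz : |z.im| ≤ T.bb) (hx : z.re ≤ 0) :
    ‖b.rh z / c.rh (b.zt c z) - 1‖ ≤ T.Ct * Real.exp (4 * z.re) := by
  have hz' : |(rf z).im| ≤ T.bb := by rwa [rf_im]
  have h := tail_dz hb hbb hc hz' (by rw [rf_re]; linarith)
  rw [zt_rf hb hz, rf_re, rh_rf, rh_rf, ← map_div₀] at h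
  have e : conj (b.rh z / c.rh (b.zt c z)) - 1 = conj (b.rh z / c.rh (b.zt c z) - 1) := by
    rw [map_sub, map_one]
  rw [e, Complex.norm_conj] at h
  refine h.trans_eq ?_
  congr 2
  ring

/-! ## the velocity -/

/-- the size of the velocity of the content -/
def nn (a0 a1 a2 n1 n2 : ℝ) : ℝ := |a0| + |a1| + |a2| + |n1| + |n2|

lemma nn_nonneg (a0 a1 a2 n1 n2 : ℝ) : 0 ≤ nn a0 a1 a2 n1 n2 := by unfold nn; positivity

/-- the derivative of `nu` -/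
def dnu (c : Pm T) (a0 a1 a2 n1 n2 : ℝ) : ℝ :=
  a0 + (a1 * Real.cos c.m1 - c.w1 * Real.sin c.m1 * n1) + (a2 * Real.cos c.m2 - c.w2 * Real.sin c.m2 * n2)

lemma w1_le : c.w1 ≤ 1 := by
  have a0 := c.w00
  have a2 := c.w20
  have hs := c.sum1
  linarith

lemma w2_le : c.w2 ≤ 1 := by
  have a0 := c.w00
  have a1 := c.w10
  have hs := c.sum1
  linarith

lemma dnu_le (a0 a1 a2 n1 n2 : ℝ) : |c.dnu a0 a1 a2 n1 n2| ≤ nn a0 a1 a2 n1 n2 := by
  have h1 : |a1 * Real.cos c.m1| ≤ |a1| := by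
    rw [abs_mul]
    exact mul_le_of_le_one_right (abs_nonneg _) (Real.abs_cos_le_one _)
  have h2 : |a2 * Real.cos c.m2| ≤ |a2| := by
    rw [abs_mul]
    exact mul_le_of_le_one_right (abs_nonneg _) (Real.abs_cos_le_one _)
  have g1 : |c.w1 * Real.sin c.m1 * n1| ≤ |n1| := by
    rw [abs_mul, abs_mul, abs_of_nonneg c.w10]
    have := c.w10
    have := w1_le (c := c)
    have := Real.abs_sin_le_one c.m1
    exact mul_le_of_le_one_left (abs_nonneg _) (mul_le_one₀ (by linarith) (abs_nonneg _) this)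
  have g2 : |c.w2 * Real.sin c.m2 * n2| ≤ |n2| := by
    rw [abs_mul, abs_mul, abs_of_nonneg c.w20]
    have := c.w20
    have := w2_le (c := c)
    have := Real.abs_sin_le_one c.m2
    exact mul_le_of_le_one_left (abs_nonneg _) (mul_le_one₀ (by linarith) (abs_nonneg _) this)
  unfold dnu nn
  refine (abs_add_le _ _).trans ?_
  have := abs_add_le a0 (a1 * Real.cos c.m1 - c.w1 * Real.sin c.m1 * n1)
  have := abs_sub (a1 * Real.cos c.m1) (c.w1 * Real.sin c.m1 * n1)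
  have := abs_sub (a2 * Real.cos c.m2) (c.w2 * Real.sin c.m2 * n2)
  linarith

/-- the balance along a curve -/
def dBal (c : Pm T) (a1 a2 n1 n2 : ℝ) : Prop :=
  a1 * Real.sin c.m1 + c.w1 * Real.cos c.m1 * n1 = a2 * Real.sin c.m2 + c.w2 * Real.cos c.m2 * n2

/-- the remainder of `dph` -/
def dR (c : Pm T) (a0 a1 a2 n1 n2 : ℝ) (z : ℂ) : ℂ :=
  a0 * H z + ((a1 * H (z + c.m1 * I) + c.w1 * (H1 (z + c.m1 * I) * (n1 * I))) +
    (a2 * H (z - c.m2 * I) - c.w2 * (H1 (z - c.m2 * I) * (n2 * I))))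

theorem dph_tail {a0 a1 a2 n1 n2 : ℝ} (ha : a0 + a1 + a2 = 0) (hd : c.dBal a1 a2 n1 n2) (z : ℂ) :
    c.dph a0 a1 a2 n1 n2 z = -((2 * c0 * c.dnu a0 a1 a2 n1 n2 : ℝ) : ℂ) * exp (-z) +
      c.dR a0 a1 a2 n1 n2 z := by
  have e1 : exp (-(z + c.m1 * I)) = exp (-z) * ((Real.cos c.m1 : ℂ) - (Real.sin c.m1 : ℂ) * I) := by
    have : -(z + c.m1 * I) = -z + ((-c.m1 : ℝ) : ℂ) * I := by push_cast; ring
    rw [this, Complex.exp_add, exp_I, Real.cos_neg, Real.sin_neg]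
    push_cast
    ring
  have e2 : exp (-(z - c.m2 * I)) = exp (-z) * ((Real.cos c.m2 : ℂ) + (Real.sin c.m2 : ℂ) * I) := by
    have : -(z - c.m2 * I) = -z + ((c.m2 : ℝ) : ℂ) * I := by ring
    rw [this, Complex.exp_add, exp_I]
  have ha' : (a0 : ℂ) + a1 + a2 = 0 := by exact_mod_cast ha
  have hd' : (a1 : ℂ) * (Real.sin c.m1 : ℂ) + c.w1 * (Real.cos c.m1 : ℂ) * n1 =
      (a2 : ℂ) * (Real.sin c.m2 : ℂ) + c.w2 * (Real.cos c.m2 : ℂ) * n2 := by exact_mod_cast hd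
  have r0 : r z = H z + 1 / 2 - ((2 * c0 : ℝ) : ℂ) * exp (-z) := by
    unfold H
    ring
  have r1 : r (z + c.m1 * I) = H (z + c.m1 * I) + 1 / 2 - ((2 * c0 : ℝ) : ℂ) *
      (exp (-z) * ((Real.cos c.m1 : ℂ) - (Real.sin c.m1 : ℂ) * I)) := by
    rw [← e1]
    unfold H
    ring
  have r2 : r (z - c.m2 * I) = H (z - c.m2 * I) + 1 / 2 - ((2 * c0 : ℝ) : ℂ) *
      (exp (-z) * ((Real.cos c.m2 : ℂ) + (Real.sin c.m2 : ℂ) * I)) := by
    rw [← e2]
    unfold H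
    ring
  have p1 : p (z + c.m1 * I) = H1 (z + c.m1 * I) + ((2 * c0 : ℝ) : ℂ) *
      (exp (-z) * ((Real.cos c.m1 : ℂ) - (Real.sin c.m1 : ℂ) * I)) := by
    rw [← e1]
    unfold H1
    ring
  have p2 : p (z - c.m2 * I) = H1 (z - c.m2 * I) + ((2 * c0 : ℝ) : ℂ) *
      (exp (-z) * ((Real.cos c.m2 : ℂ) + (Real.sin c.m2 : ℂ) * I)) := by
    rw [← e2]
    unfold H1
    ring
  unfold dph dR dnu
  rw [r0, r1, r2, p1, p2]
  push_cast at hd' ⊢
  linear_combination (1 / 2 : ℂ) * ha' + (2 * (c0 : ℂ) * exp (-z) * I) * hd' -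
    2 * (c0 : ℂ) * exp (-z) * (c.w1 * Complex.sin c.m1 * n1 + c.w2 * Complex.sin c.m2 * n2) *
      Complex.I_sq

/-- the norm of a combination like `dph` -/
lemma d_norm {a0 a1 a2 n1 n2 B : ℝ} {f0 f1 f2 g1 g2 : ℂ} (h0 : ‖f0‖ ≤ B) (h1 : ‖f1‖ ≤ B)
    (h2 : ‖f2‖ ≤ B) (k1 : ‖g1‖ ≤ B) (k2 : ‖g2‖ ≤ B) :
    ‖(a0 : ℂ) * f0 + ((a1 * f1 + c.w1 * (g1 * (n1 * I))) + (a2 * f2 - c.w2 * (g2 * (n2 * I))))‖ ≤
      nn a0 a1 a2 n1 n2 * B := by
  have u0 : ‖(a0 : ℂ) * f0‖ ≤ |a0| * B := by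
    rw [norm_mul, Complex.norm_real, Real.norm_eq_abs]
    gcongr
  have u1 : ‖(a1 : ℂ) * f1‖ ≤ |a1| * B := by
    rw [norm_mul, Complex.norm_real, Real.norm_eq_abs]
    gcongr
  have u2 : ‖(a2 : ℂ) * f2‖ ≤ |a2| * B := by
    rw [norm_mul, Complex.norm_real, Real.norm_eq_abs]
    gcongr
  have v1 : ‖(c.w1 : ℂ) * (g1 * (n1 * I))‖ ≤ |n1| * B := by
    rw [norm_mul, norm_mul, norm_mul, Complex.norm_I, mul_one, Complex.norm_real, Complex.norm_real,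
      Real.norm_eq_abs, Real.norm_eq_abs, abs_of_nonneg c.w10]
    have h3 := w1_le (c := c)
    have h4 := c.w10
    have h5 : ‖g1‖ * |n1| ≤ B * |n1| := by gcongr
    have h6 : 0 ≤ ‖g1‖ * |n1| := by positivity
    nlinarith
  have v2 : ‖(c.w2 : ℂ) * (g2 * (n2 * I))‖ ≤ |n2| * B := by
    rw [norm_mul, norm_mul, norm_mul, Complex.norm_I, mul_one, Complex.norm_real, Complex.norm_real,
      Real.norm_eq_abs, Real.norm_eq_abs, abs_of_nonneg c.w20]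
    have h3 := w2_le (c := c)
    have h4 := c.w20
    have h5 : ‖g2‖ * |n2| ≤ B * |n2| := by gcongr
    have h6 : 0 ≤ ‖g2‖ * |n2| := by positivity
    nlinarith
  have t1 := norm_add_le ((a0 : ℂ) * f0)
    ((a1 * f1 + c.w1 * (g1 * (n1 * I))) + (a2 * f2 - c.w2 * (g2 * (n2 * I))))
  have t2 := norm_add_le ((a1 : ℂ) * f1 + c.w1 * (g1 * (n1 * I))) (a2 * f2 - c.w2 * (g2 * (n2 * I)))
  have t3 := norm_add_le ((a1 : ℂ) * f1) (c.w1 * (g1 * (n1 * I)))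
  have t4 := norm_sub_le ((a2 : ℂ) * f2) (c.w2 * (g2 * (n2 * I)))
  unfold nn
  linarith

theorem dR_up {e : ℝ} (he : 0 < e) (he1 : e ≤ Real.pi / 3) {a0 a1 a2 n1 n2 : ℝ} {z : ℂ}
    (hz : z ∈ T.St e) (hx : 0 ≤ z.re) :
    ‖c.dR a0 a1 a2 n1 n2 z‖ ≤ nn a0 a1 a2 n1 n2 * (cT e * Real.exp (-5 * z.re)) := by
  unfold dR
  refine d_norm (H_up he he1 (b0 hz) hx) ?_ ?_ ?_ ?_
  · have := H_up he he1 (b1 (c := c) hz) (by rwa [re_add])
    rwa [re_add] at this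
  · have := H_up he he1 (b2 (c := c) hz) (by rwa [re_sub])
    rwa [re_sub] at this
  · have := H1_up he he1 (b1 (c := c) hz)
    rwa [re_add] at this
  · have := H1_up he he1 (b2 (c := c) hz)
    rwa [re_sub] at this

/-- crude size of `dph` -/
theorem dph_up' {e : ℝ} (he : 0 < e) (he1 : e ≤ Real.pi / 3) {a0 a1 a2 n1 n2 : ℝ} {z : ℂ}
    (ha : a0 + a1 + a2 = 0) (hz : z ∈ T.St e) (hx : 0 ≤ z.re) :
    ‖c.dph a0 a1 a2 n1 n2 z‖ ≤ nn a0 a1 a2 n1 n2 * ((cT e + cU e) * Real.exp (-|z.re|)) := by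
  have ha' : (a0 : ℂ) + a1 + a2 = 0 := by exact_mod_cast ha
  have e0 : c.dph a0 a1 a2 n1 n2 z = (a0 : ℂ) * (r z - 1 / 2) + ((a1 * (r (z + c.m1 * I) - 1 / 2) +
      c.w1 * (p (z + c.m1 * I) * (n1 * I))) + (a2 * (r (z - c.m2 * I) - 1 / 2) -
      c.w2 * (p (z - c.m2 * I) * (n2 * I)))) := by
    unfold dph
    linear_combination (1 / 2 : ℂ) * ha'
  have hT := cT_ge he he1
  have hU := cU_ge he he1
  have hE := Real.exp_pos (-|z.re|)
  have hr : ∀ w : ℂ, |w.im| ≤ Real.pi / 3 - e → w.re = z.re → ‖r w - 1 / 2‖ ≤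
      (cT e + cU e) * Real.exp (-|z.re|) := fun w hw hwr => by
    have := r_top he he1 hw (by rw [hwr]; exact hx)
    rw [hwr, ← abs_of_nonneg hx] at this
    refine this.trans ?_
    gcongr
    linarith
  have hp : ∀ w : ℂ, |w.im| ≤ Real.pi / 3 - e → w.re = z.re → ‖p w‖ ≤
      (cT e + cU e) * Real.exp (-|z.re|) := fun w hw hwr => by
    have := p_up he he1 hw
    rw [hwr] at this
    refine this.trans ?_
    gcongr
    linarith
  rw [e0]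
  exact d_norm (hr _ (b0 hz) rfl) (hr _ (b1 hz) (re_add _ _)) (hr _ (b2 hz) (re_sub _ _))
    (hp _ (b1 hz) (re_add _ _)) (hp _ (b2 hz) (re_sub _ _))

theorem dph_up {e : ℝ} (he : 0 < e) (he1 : e ≤ Real.pi / 3) {a0 a1 a2 n1 n2 : ℝ} {z : ℂ}
    (ha : a0 + a1 + a2 = 0) (hz : z ∈ T.St e) :
    ‖c.dph a0 a1 a2 n1 n2 z‖ ≤ nn a0 a1 a2 n1 n2 * ((cT e + cU e) * Real.exp (-|z.re|)) := by
  rcases le_total 0 z.re with hx | hx
  · exact dph_up' he he1 ha hz hx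
  · have h := dph_up' (c := c) (n1 := n1) (n2 := n2) he he1 ha (rf_mem hz) (by rw [rf_re]; linarith)
    rwa [dph_rf (St_mono he.le hz), rf_norm, rf_re, abs_neg] at h

/-- the velocity -/
def xi (b c : Pm T) (a0 a1 a2 n1 n2 : ℝ) (z : ℂ) : ℂ :=
  -c.dph a0 a1 a2 n1 n2 (b.zt c z) / c.rh (b.zt c z)

theorem xi_rf {a0 a1 a2 n1 n2 : ℝ} (hb : b.Rl) (hz : |z.im| ≤ T.bb) :
    b.xi c a0 a1 a2 n1 n2 (rf z) = rf (b.xi c a0 a1 a2 n1 n2 z) := by
  unfold xi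
  rw [zt_rf hb hz, dph_rf (zt_mem0 hb hz), rh_rf]
  unfold rf
  simp only [map_div₀, map_neg]
  ring

/-- **size of the velocity** -/
theorem xi_up {a0 a1 a2 n1 n2 : ℝ} (ha : a0 + a1 + a2 = 0) (hb : b.Rl) (hz : |z.im| ≤ T.bb) :
    ‖b.xi c a0 a1 a2 n1 n2 z‖ ≤ 32 * (cT (T.e0 / 2) + cU (T.e0 / 2)) * nn a0 a1 a2 n1 n2 := by
  have h1 := dph_up (c := c) (n1 := n1) (n2 := n2) e2_pos e2_pi ha (zt_mem (c := c) hb hz)
  have h2 := (rh_low (c := c) (zt_mem0 (c := c) hb hz)).trans (Complex.re_le_norm _)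
  have hE := Real.exp_pos (-|(b.zt c z).re|)
  have hn := nn_nonneg a0 a1 a2 n1 n2
  have hT := cT_ge e2_pos (e2_pi (T := T))
  have hU := cU_ge e2_pos (e2_pi (T := T))
  unfold xi
  rw [norm_div, norm_neg, div_le_iff₀ (lt_of_lt_of_le (by positivity) h2)]
  calc _ ≤ _ := h1
    _ = 32 * (cT (T.e0 / 2) + cU (T.e0 / 2)) * nn a0 a1 a2 n1 n2 * (Real.exp (-|(b.zt c z).re|) / 32) := by
      ring
    _ ≤ _ := by gcongr

/-- the constant of the tail of the velocity -/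
def _root_.ISTZ.Tl.Cx (T : Tl) : ℝ :=
  96 * cT (T.e0 / 2) * T.M1 ^ 4 + (32 * (cT (T.e0 / 2) + cU (T.e0 / 2)) + 2) * T.M5 ^ 4

/-- **tail of the velocity** -/
theorem tail_xi {a0 a1 a2 n1 n2 : ℝ} (ha : a0 + a1 + a2 = 0) (hd : c.dBal a1 a2 n1 n2)
    (hb : b.Rl) (hc : c.Bal) (hz : |z.im| ≤ T.bb) (hx : 0 ≤ z.re) :
    ‖b.xi c a0 a1 a2 n1 n2 z - ((c.dnu a0 a1 a2 n1 n2 / c.nu : ℝ) : ℂ)‖ ≤
      T.Cx * nn a0 a1 a2 n1 n2 * Real.exp (-4 * z.re) := by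
  have hn := nn_nonneg a0 a1 a2 n1 n2
  have hT := cT_ge e2_pos (e2_pi (T := T))
  have hU := cU_ge e2_pos (e2_pi (T := T))
  have hM1 := M1_ge (T := T)
  have hM5 := M5_ge (T := T)
  have hE := Real.exp_pos (-4 * z.re)
  have hdn := dnu_le (c := c) a0 a1 a2 n1 n2
  have hnu := nu_ge (c := c)
  have hq : |c.dnu a0 a1 a2 n1 n2 / c.nu| ≤ 2 * nn a0 a1 a2 n1 n2 := by
    rw [abs_div, abs_of_pos (by linarith : 0 < c.nu), div_le_iff₀ (by linarith)]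
    nlinarith
  by_cases h5 : T.M5 * Real.exp (-z.re) ≤ 1
  · have h0 := re_pos (c := c) hb hz hx h5
    have h1 := dph_tail ha hd (b.zt c z)
    have h2 := rh_tail hc (b.zt c z)
    have h3 := dR_up (c := c) (a0 := a0) (a1 := a1) (a2 := a2) (n1 := n1) (n2 := n2) e2_pos e2_pi
      (zt_mem (c := c) hb hz) h0
    have h4 := cbH1_up (c := c) e2_pos e2_pi (zt_mem (c := c) hb hz)
    have h6 := (rh_low (c := c) (zt_mem0 (c := c) hb hz)).trans (Complex.re_le_norm _)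
    rw [abs_of_nonneg h0] at h6
    have h7 := cmp2 (c := c) hb hz
    rw [abs_of_nonneg h0, abs_of_nonneg hx] at h7
    have hne := rh_ne (c := c) (zt_mem0 (c := c) hb hz)
    have hnu0 : (c.nu : ℂ) ≠ 0 := by
      have : c.nu ≠ 0 := by linarith
      exact_mod_cast this
    have e1 : b.xi c a0 a1 a2 n1 n2 z - ((c.dnu a0 a1 a2 n1 n2 / c.nu : ℝ) : ℂ) =
        -(c.dR a0 a1 a2 n1 n2 (b.zt c z) + ((c.dnu a0 a1 a2 n1 n2 / c.nu : ℝ) : ℂ) *
          c.cb H1 (b.zt c z)) / c.rh (b.zt c z) := by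
      unfold xi
      rw [eq_div_iff hne, sub_mul, div_mul_cancel₀ _ hne, h1]
      conv_lhs => rw [h2]
      push_cast
      field_simp
      ring
    have hE0 := Real.exp_pos (-(b.zt c z).re)
    have hE5 := Real.exp_pos (-5 * (b.zt c z).re)
    have h8 : ‖c.dR a0 a1 a2 n1 n2 (b.zt c z) + ((c.dnu a0 a1 a2 n1 n2 / c.nu : ℝ) : ℂ) *
          c.cb H1 (b.zt c z)‖ ≤ 3 * nn a0 a1 a2 n1 n2 * cT (T.e0 / 2) *
          Real.exp (-5 * (b.zt c z).re) := by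
      refine (norm_add_le _ _).trans ?_
      rw [norm_mul, Complex.norm_real, Real.norm_eq_abs]
      have h9 : |c.dnu a0 a1 a2 n1 n2 / c.nu| * ‖c.cb H1 (b.zt c z)‖ ≤
          2 * nn a0 a1 a2 n1 n2 * (cT (T.e0 / 2) * Real.exp (-5 * (b.zt c z).re)) := by gcongr
      linarith
    have e5 : Real.exp (-5 * (b.zt c z).re) = Real.exp (-(b.zt c z).re) ^ 4 *
        Real.exp (-(b.zt c z).re) := by
      rw [← pow_succ, ← Real.exp_nat_mul]
      congr 1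
      push_cast
      ring
    have e4 : Real.exp (-4 * z.re) = Real.exp (-z.re) ^ 4 := by
      rw [← Real.exp_nat_mul]
      congr 1
      push_cast
      ring
    have h9 : Real.exp (-(b.zt c z).re) ^ 4 ≤ T.M1 ^ 4 * Real.exp (-4 * z.re) := by
      rw [e4, ← mul_pow]
      gcongr
    rw [e1, norm_div, norm_neg, div_le_iff₀ (lt_of_lt_of_le (by positivity) h6)]
    calc _ ≤ _ := h8
      _ = 96 * nn a0 a1 a2 n1 n2 * cT (T.e0 / 2) * Real.exp (-(b.zt c z).re) ^ 4 *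
          (Real.exp (-(b.zt c z).re) / 32) := by
        rw [e5]
        ring
      _ ≤ 96 * nn a0 a1 a2 n1 n2 * cT (T.e0 / 2) * (T.M1 ^ 4 * Real.exp (-4 * z.re)) *
          ‖c.rh (b.zt c z)‖ := by gcongr
      _ = 96 * cT (T.e0 / 2) * T.M1 ^ 4 * nn a0 a1 a2 n1 n2 * Real.exp (-4 * z.re) *
          ‖c.rh (b.zt c z)‖ := by ring
      _ ≤ _ := by
        gcongr
        unfold Tl.Cx
        have : 0 ≤ (32 * (cT (T.e0 / 2) + cU (T.e0 / 2)) + 2) * T.M5 ^ 4 := by positivity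
        linarith
  · obtain ⟨h6, h7⟩ := near_one hx h5
    have h8 := xi_up (c := c) (n1 := n1) (n2 := n2) ha hb hz
    have h13 : ‖b.xi c a0 a1 a2 n1 n2 z - ((c.dnu a0 a1 a2 n1 n2 / c.nu : ℝ) : ℂ)‖ ≤
        (32 * (cT (T.e0 / 2) + cU (T.e0 / 2)) + 2) * nn a0 a1 a2 n1 n2 := by
      refine (norm_sub_le _ _).trans ?_
      rw [Complex.norm_real, Real.norm_eq_abs]
      linarith
    calc _ ≤ (32 * (cT (T.e0 / 2) + cU (T.e0 / 2)) + 2) * nn a0 a1 a2 n1 n2 * 1 := by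
          rw [mul_one]
          exact h13
      _ ≤ (32 * (cT (T.e0 / 2) + cU (T.e0 / 2)) + 2) * nn a0 a1 a2 n1 n2 *
          (T.M5 ^ 4 * Real.exp (-4 * z.re)) := by gcongr
      _ = (32 * (cT (T.e0 / 2) + cU (T.e0 / 2)) + 2) * T.M5 ^ 4 * nn a0 a1 a2 n1 n2 *
          Real.exp (-4 * z.re) := by ring
      _ ≤ _ := by
        gcongr
        unfold Tl.Cx
        have : 0 ≤ 96 * cT (T.e0 / 2) * T.M1 ^ 4 := by positivity
        linarith

/-- the tail of the velocity on the left -/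
theorem tail_xi' {a0 a1 a2 n1 n2 : ℝ} (ha : a0 + a1 + a2 = 0) (hd : c.dBal a1 a2 n1 n2)
    (hb : b.Rl) (hc : c.Bal) (hz : |z.im| ≤ T.bb) (hx : z.re ≤ 0) :
    ‖b.xi c a0 a1 a2 n1 n2 z + ((c.dnu a0 a1 a2 n1 n2 / c.nu : ℝ) : ℂ)‖ ≤
      T.Cx * nn a0 a1 a2 n1 n2 * Real.exp (4 * z.re) := by
  have hz' : |(rf z).im| ≤ T.bb := by rwa [rf_im]
  have h := tail_xi ha hd hb hc hz' (by rw [rf_re]; linarith)
  rw [xi_rf hb hz, rf_re] at h
  have e : rf (b.xi c a0 a1 a2 n1 n2 z) - ((c.dnu a0 a1 a2 n1 n2 / c.nu : ℝ) : ℂ) =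
      rf (b.xi c a0 a1 a2 n1 n2 z + ((c.dnu a0 a1 a2 n1 n2 / c.nu : ℝ) : ℂ)) := by
    unfold rf
    simp only [map_add, Complex.conj_ofReal]
    ring
  rw [e, rf_norm] at h
  refine h.trans_eq ?_
  congr 2
  ring

end Pm

end

end ISTZ
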