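import Pool.Agent.IST.Sep
import Mathlib.Analysis.Calculus.InverseFunctionTheorem.ApproximatesLinearOn
import Mathlib.Analysis.Calculus.DSlope

/-!
# ISO, T1: the transport map on a strip

`zt b c z`: the unique point of the strip with `c.ph (zt b c z) = b.ph z`, for `|Im z| ≤ bb`, where the
content `b` has real values on the line; continuity and derivative in `z`.
-/

set_option autoImplicit false

open Complex Set Filter Topology ComplexConjugate Metric

namespace ISTZ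

noncomputable section

/-- derivative of `ζ` from `f ∘ ζ = R` -/
theorem deriv_of_comp {𝕜 : Type*} [NontriviallyNormedField 𝕜] [NormedAlgebra 𝕜 ℂ] {f : ℂ → ℂ}
    {f' : ℂ} {ζ R : 𝕜 → ℂ} {R' : ℂ} {S : Set 𝕜} {x : 𝕜} (hf : HasDerivAt f f' (ζ x)) (hf' : f' ≠ 0)
    (hc : ContinuousWithinAt ζ S x) (hx : f (ζ x) = R x) (hR : HasDerivWithinAt R R' S x)
    (he : ∀ᶠ y in 𝓝[S] x, f (ζ y) = R y) : HasDerivWithinAt ζ (R' / f') S x := by
  rw [hasDerivWithinAt_iff_tendsto_slope] at hR ⊢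
  have hsub : 𝓝[S \ {x}] x ≤ 𝓝[S] x := nhdsWithin_mono x sdiff_subset
  have h1 : Tendsto (fun y => dslope f (ζ x) (ζ y)) (𝓝[S \ {x}] x) (𝓝 f') := by
    have h2 : ContinuousAt (dslope f (ζ x)) (ζ x) := continuousAt_dslope_same.2 hf.differentiableAt
    have h3 : dslope f (ζ x) (ζ x) = f' := by rw [dslope_same, hf.deriv]
    have h4 := h2.tendsto.comp (hc.tendsto.mono_left hsub)
    rwa [h3] at h4
  have h2 := hR.div h1 hf'
  refine h2.congr' ?_
  filter_upwards [h1.eventually_ne hf', hsub he] with y hy hey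
  rw [Pi.div_apply, slope_def_module, slope_def_module]
  have h3 := sub_smul_dslope f (ζ x) (ζ y)
  rw [hey, hx, smul_eq_mul] at h3
  rw [← h3, Algebra.smul_def, Algebra.smul_def]
  field_simp

namespace Tl

variable {T : Tl}

/-- radius of the discs -/
def d0 (T : Tl) : ℝ := min (T.e0 / 2) (1 / (200 * cU (T.e0 / 2)))

/-- half width of the strip -/
def bb (T : Tl) : ℝ := T.d0 / (2048 * cT T.e0 * cU (T.e0 / 2))

lemma e2_pos : 0 < T.e0 / 2 := by
  have := e0_pos (T := T)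
  linarith

lemma e2_pi : T.e0 / 2 ≤ Real.pi / 3 := by
  have := e0_pos (T := T)
  have := e0_pi (T := T)
  linarith

lemma d0_pos : 0 < T.d0 := by
  have h1 := e2_pos (T := T)
  have h2 := cU_ge e2_pos (e2_pi (T := T))
  unfold d0
  exact lt_min h1 (by positivity)

lemma d0_e : T.d0 ≤ T.e0 / 2 := min_le_left _ _

lemma d0_c : 200 * cU (T.e0 / 2) * T.d0 ≤ 1 := by
  have h2 := cU_ge e2_pos (e2_pi (T := T))
  have h3 : T.d0 ≤ 1 / (200 * cU (T.e0 / 2)) := min_le_right _ _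
  rwa [le_div_iff₀ (by positivity), mul_comm] at h3

lemma bb_pos : 0 < T.bb := by
  have h1 := d0_pos (T := T)
  have h2 := cT_ge e0_pos (e0_pi (T := T))
  have h3 := cU_ge e2_pos (e2_pi (T := T))
  unfold bb
  positivity

lemma bb_d : 2048 * cT T.e0 * cU (T.e0 / 2) * T.bb = T.d0 := by
  have h2 := cT_ge e0_pos (e0_pi (T := T))
  have h3 := cU_ge e2_pos (e2_pi (T := T))
  unfold bb
  field_simp

lemma bb_small : T.bb ≤ T.e0 / 20000 := by
  have h2 := cT_ge e0_pos (e0_pi (T := T))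
  have h6 := cU_ge e2_pos (e2_pi (T := T))
  have h3 := bb_d (T := T)
  have h4 := d0_e (T := T)
  have h5 := bb_pos (T := T)
  have h7 : 10 ≤ cT T.e0 * cU (T.e0 / 2) := by nlinarith
  have h8 : 10 * T.bb ≤ cT T.e0 * cU (T.e0 / 2) * T.bb := by gcongr
  have h9 := e0_pos (T := T)
  nlinarith

/-- a point near the line lies in the strip -/
lemma near_mem {z : ℂ} (hz : |z.im| ≤ T.bb) : z ∈ T.St (T.e0 / 2) := by
  have h1 := bb_small (T := T)
  have h2 := e0_t1' (T := T)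
  have h3 := e0_t2' (T := T)
  have h4 := e0_pos (T := T)
  have h5 := abs_le.1 hz
  rw [mem_St]
  constructor <;> linarith [h5.1, h5.2]

lemma near_mem0 {z : ℂ} (hz : |z.im| ≤ T.bb) : z ∈ T.St 0 := St_mono e2_pos.le (near_mem hz)

end Tl

namespace Pm

open Tl

variable {T : Tl} {b c : Pm T}

/-- **the disc is covered** -/
theorem surj {z0 w : ℂ} (hz : z0 ∈ T.St T.e0)
    (hw : ‖w - c.ph z0‖ ≤ Real.exp (-|z0.re|) / 64 * T.d0) :
    ∃ z ∈ closedBall z0 T.d0, c.ph z = w := by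
  have hd := d0_pos (T := T)
  have hde := d0_e (T := T)
  have hdc := d0_c (T := T)
  have hcU := cU_ge e2_pos (e2_pi (T := T))
  have hE := Real.exp_pos (-|z0.re|)
  obtain ⟨E, hEd⟩ : ∃ E, E = Real.exp (-|z0.re|) := ⟨_, rfl⟩
  rw [← hEd] at hw hE
  have hball : ∀ z ∈ closedBall z0 T.d0, z ∈ T.St (T.e0 / 2) := fun z hz' => by
    have h1 : ‖z - z0‖ ≤ T.d0 := by rwa [mem_closedBall, dist_eq_norm] at hz'
    have h2 := abs_le.1 ((Complex.abs_im_le_norm (z - z0)).trans h1)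
    rw [Complex.sub_im] at h2
    have h3 := hz.1
    have h4 := hz.2
    rw [mem_St]
    constructor <;> linarith [h2.1, h2.2]
  have hre : ∀ z ∈ closedBall z0 T.d0, Real.exp (-|z.re|) ≤ 3 * E := fun z hz' => by
    have h1 : ‖z - z0‖ ≤ T.d0 := by rwa [mem_closedBall, dist_eq_norm] at hz'
    have h2 := (Complex.abs_re_le_norm (z - z0)).trans h1
    rw [Complex.sub_re] at h2
    have h3 : |z0.re| ≤ |z.re| + 1 := by
      have h4 : |z0.re| ≤ |z.re| + |z.re - z0.re| := by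
        have := abs_sub_abs_le_abs_sub z0.re z.re
        rw [abs_sub_comm z0.re z.re] at this
        linarith
      have h5 := e0_small (T := T)
      linarith
    rw [hEd]
    calc Real.exp (-|z.re|) ≤ Real.exp (1 + -|z0.re|) := Real.exp_le_exp.2 (by linarith)
      _ = Real.exp 1 * Real.exp (-|z0.re|) := Real.exp_add _ _
      _ ≤ 3 * Real.exp (-|z0.re|) := by
        have := Real.exp_one_lt_three
        gcongr
  obtain ⟨a, ha⟩ : ∃ a, a = c.rh z0 := ⟨_, rfl⟩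
  have hz0 : z0 ∈ T.St 0 := St_mono e0_pos.le hz
  have ha1 : E / 32 ≤ ‖a‖ := by
    rw [ha, hEd]
    exact (rh_low hz0).trans (Complex.re_le_norm _)
  have ha0 : a ≠ 0 := fun h => by
    rw [h, norm_zero] at ha1
    linarith
  have hvar : ∀ z ∈ closedBall z0 T.d0, ‖c.rh z - a‖ ≤ E / 64 := fun z hz' => by
    have h1 : ‖c.rh z - c.rh z0‖ ≤ cU (T.e0 / 2) * (3 * E) * ‖z - z0‖ := by
      refine (convex_closedBall z0 T.d0).norm_image_sub_le_of_norm_hasDerivWithin_le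
        (f' := c.rh1) (fun w hw => (hasDerivAt_rh (St_mono e2_pos.le (hball w hw))).hasDerivWithinAt)
        (fun w hw => ?_) (mem_closedBall_self hd.le) hz'
      refine (rh1_up e2_pos e2_pi (hball w hw)).trans ?_
      have := hre w hw
      gcongr
    have h2 : ‖z - z0‖ ≤ T.d0 := by rwa [mem_closedBall, dist_eq_norm] at hz'
    rw [ha]
    calc _ ≤ _ := h1
      _ ≤ cU (T.e0 / 2) * (3 * E) * T.d0 := by gcongr
      _ = 3 / 200 * E * (200 * cU (T.e0 / 2) * T.d0) := by ring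
      _ ≤ 3 / 200 * E * 1 := by gcongr
      _ ≤ E / 64 := by linarith
  obtain ⟨k, hk⟩ : ∃ k : NNReal, (k : ℝ) = E / 64 := ⟨⟨E / 64, by positivity⟩, rfl⟩
  have happ : ApproximatesLinearOn c.ph (a • ContinuousLinearMap.id ℂ ℂ) (closedBall z0 T.d0) k := by
    intro x hx y hy
    have h1 : ‖(c.ph x - a * x) - (c.ph y - a * y)‖ ≤ E / 64 * ‖x - y‖ := by
      refine (convex_closedBall z0 T.d0).norm_image_sub_le_of_norm_hasDerivWithin_le
        (f := fun w => c.ph w - a * w) (f' := fun w => c.rh w - a) (fun w hw => ?_)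
        (fun w hw => hvar w hw) hy hx
      have h3 := (hasDerivAt_ph (c := c) (St_mono e2_pos.le (hball w hw))).sub
        ((hasDerivAt_id w).const_mul a)
      rw [mul_one] at h3
      exact h3.hasDerivWithinAt
    rw [hk]
    refine le_of_eq_of_le ?_ h1
    congr 1
    simp
    ring
  obtain ⟨N, hN⟩ : ∃ N : (a • ContinuousLinearMap.id ℂ ℂ : ℂ →L[ℂ] ℂ).NonlinearRightInverse,
      (N.nnnorm : ℝ) = ‖a‖⁻¹ := ⟨{
        toFun := fun y => y / a
        nnnorm := ‖a‖₊⁻¹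
        bound' := fun y => by
          rw [norm_div, NNReal.coe_inv, coe_nnnorm, div_eq_inv_mul]
        right_inv' := fun y => by
          simp
          field_simp }, by rw [NNReal.coe_inv, coe_nnnorm]⟩
  have h1 := happ.surjOn_closedBall_of_nonlinearRightInverse N hd.le (subset_refl _)
  rw [hN, inv_inv, hk] at h1
  have h2 : w ∈ closedBall (c.ph z0) ((‖a‖ - E / 64) * T.d0) := by
    rw [mem_closedBall, dist_eq_norm]
    refine hw.trans ?_
    gcongr
    linarith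
  exact h1 h2

/-- real values on the line -/
def Rl (b : Pm T) : Prop := ∀ x : ℝ, (b.ph x).im = 0

lemma real_mem (x : ℝ) : (x : ℂ) ∈ T.St 0 :=
  near_mem0 (by rw [Complex.ofReal_im, abs_zero]; exact bb_pos.le)

lemma ph_real (hb : b.Rl) (x : ℝ) : ∃ w ∈ Ioo (-(1 / 2) : ℝ) (1 / 2), b.ph x = (w : ℂ) := by
  refine ⟨(b.ph x).re, ?_, ?_⟩
  · have h1 := hor (c := b) (real_mem (T := T) x)
    have h2 := hor' (c := b) (real_mem (T := T) x)
    have h3 := Real.exp_pos (-|((x : ℂ)).re|)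
    constructor <;> linarith
  · apply Complex.ext
    · rw [Complex.ofReal_re]
    · rw [hb x, Complex.ofReal_im]

/-- vertical variation -/
theorem ph_var {z : ℂ} (hz : |z.im| ≤ T.bb) :
    ‖b.ph z - b.ph (z.re : ℂ)‖ ≤ cU (T.e0 / 2) * Real.exp (-|z.re|) * |z.im| := by
  have hseg : ∀ w ∈ segment ℝ ((z.re : ℂ) + (0 : ℝ) * I) ((z.re : ℂ) + z.im * I),
      w ∈ T.St (T.e0 / 2) ∧ w.re = z.re := fun w hw => by
    have h1 := seg_im (u := 0) (v := z.im) (e := T.bb) (by rw [abs_zero]; exact bb_pos.le) hz hw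
    exact ⟨near_mem h1.1, h1.2⟩
  have h2 : ‖b.ph ((z.re : ℂ) + z.im * I) - b.ph ((z.re : ℂ) + (0 : ℝ) * I)‖ ≤
      cU (T.e0 / 2) * Real.exp (-|z.re|) * ‖((z.re : ℂ) + z.im * I) - ((z.re : ℂ) + (0 : ℝ) * I)‖ := by
    refine (convex_segment _ _).norm_image_sub_le_of_norm_hasDerivWithin_le
      (f' := b.rh)
      (fun w hw => (hasDerivAt_ph (St_mono e2_pos.le (hseg w hw).1)).hasDerivWithinAt)
      (fun w hw => ?_) (left_mem_segment ℝ _ _) (right_mem_segment ℝ _ _)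
    obtain ⟨w1, w2⟩ := hseg w hw
    have h1 := rh_up (c := b) e2_pos e2_pi w1
    rwa [w2] at h1
  have e : ((z.re : ℂ) + z.im * I) - ((z.re : ℂ) + (0 : ℝ) * I) = (z.im : ℂ) * I := by
    push_cast
    ring
  rw [e, norm_mul, Complex.norm_I, mul_one, Complex.norm_real, Real.norm_eq_abs] at h2
  rwa [Complex.ofReal_zero, zero_mul, add_zero, Complex.re_add_im] at h2

/-- **existence on the strip** -/
theorem exists_zt (hb : b.Rl) (c : Pm T) {z : ℂ} (hz : |z.im| ≤ T.bb) :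
    ∃ w ∈ T.St (T.e0 / 2), c.ph w = b.ph z := by
  obtain ⟨v, hv, hbv⟩ := ph_real hb z.re
  obtain ⟨z0, hz0, h0⟩ := exists_real c hv
  have hcT := cT_ge e0_pos (e0_pi (T := T))
  have hcU := cU_ge e2_pos (e2_pi (T := T))
  have hbp := bb_pos (T := T)
  have hc := cmp (c := c) (c' := b) e0_pos e0_pi hz0 (real_mem (T := T) z.re) (by rw [h0, hbv])
  rw [Complex.ofReal_re] at hc
  have hvar := ph_var (b := b) hz
  obtain ⟨w, hw, hw1⟩ := surj (c := c) hz0 (w := b.ph z) (by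
    rw [h0, ← hbv]
    have hE := Real.exp_pos (-|z0.re|)
    calc ‖b.ph z - b.ph (z.re : ℂ)‖ ≤ cU (T.e0 / 2) * Real.exp (-|z.re|) * |z.im| := hvar
      _ ≤ cU (T.e0 / 2) * (32 * cT T.e0 * Real.exp (-|z0.re|)) * T.bb := by gcongr
      _ = 1 / 64 * Real.exp (-|z0.re|) * (2048 * cT T.e0 * cU (T.e0 / 2) * T.bb) := by ring
      _ = 1 / 64 * Real.exp (-|z0.re|) * T.d0 := by rw [bb_d]
      _ = Real.exp (-|z0.re|) / 64 * T.d0 := by ring)
  refine ⟨w, ?_, hw1⟩
  have h1 : ‖w - z0‖ ≤ T.d0 := by rwa [mem_closedBall, dist_eq_norm] at hw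
  have h2 := abs_le.1 ((Complex.abs_im_le_norm (w - z0)).trans h1)
  rw [Complex.sub_im] at h2
  have h3 := hz0.1
  have h4 := hz0.2
  have h5 := d0_e (T := T)
  rw [mem_St]
  constructor <;> linarith [h2.1, h2.2]

open Classical in
/-- **the transport map** -/
def zt (b c : Pm T) (z : ℂ) : ℂ :=
  if h : ∃ w ∈ T.St (T.e0 / 2), c.ph w = b.ph z then h.choose else 0

variable {z w : ℂ}

lemma zt_mem (hb : b.Rl) (hz : |z.im| ≤ T.bb) : b.zt c z ∈ T.St (T.e0 / 2) := by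
  have h := exists_zt hb c hz
  unfold zt
  rw [dif_pos h]
  exact h.choose_spec.1

lemma zt_mem0 (hb : b.Rl) (hz : |z.im| ≤ T.bb) : b.zt c z ∈ T.St 0 :=
  St_mono e2_pos.le (zt_mem hb hz)

theorem zt_eq (hb : b.Rl) (hz : |z.im| ≤ T.bb) : c.ph (b.zt c z) = b.ph z := by
  have h := exists_zt hb c hz
  unfold zt
  rw [dif_pos h]
  exact h.choose_spec.2

theorem zt_unique (hb : b.Rl) (hz : |z.im| ≤ T.bb) (hw : w ∈ T.St 0)
    (h : c.ph w = b.ph z) : w = b.zt c z :=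
  ph_inj hw (zt_mem0 hb hz) (h.trans (zt_eq hb hz).symm)

theorem zt_self (hb : b.Rl) (hz : |z.im| ≤ T.bb) : b.zt b z = z :=
  (zt_unique hb hz (near_mem0 hz) rfl).symm

/-- comparison constant -/
def _root_.ISTZ.Tl.M1 (T : Tl) : ℝ := 32 * cT (T.e0 / 2)

lemma M1_ge : 160 ≤ T.M1 := by
  have := cT_ge e2_pos (e2_pi (T := T))
  unfold Tl.M1
  linarith

theorem cmp1 (hb : b.Rl) (hz : |z.im| ≤ T.bb) :
    Real.exp (-|z.re|) ≤ T.M1 * Real.exp (-|(b.zt c z).re|) :=
  cmp (c := c) (c' := b) e2_pos e2_pi (zt_mem hb hz) (near_mem0 hz) (zt_eq hb hz)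

theorem cmp2 (hb : b.Rl) (hz : |z.im| ≤ T.bb) :
    Real.exp (-|(b.zt c z).re|) ≤ T.M1 * Real.exp (-|z.re|) :=
  cmp (c := b) (c' := c) e2_pos e2_pi (near_mem hz) (zt_mem0 hb hz) (zt_eq hb hz).symm

lemma re_zt_le (hb : b.Rl) (hz : |z.im| ≤ T.bb) :
    |(b.zt c z).re| ≤ |z.re| + Real.log T.M1 := by
  have h1 := cmp1 (c := c) hb hz
  have hM := M1_ge (T := T)
  have h2 : Real.exp (-|z.re|) ≤ Real.exp (Real.log T.M1 + -|(b.zt c z).re|) := by
    rw [Real.exp_add, Real.exp_log (by linarith)]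
    exact h1
  have := Real.exp_le_exp.1 h2
  linarith

lemma ev_im (hz : |z.im| < T.bb) : ∀ᶠ w in 𝓝 z, |w.im| < T.bb :=
  (continuous_abs.comp Complex.continuous_im).continuousAt.eventually_lt continuousAt_const hz

theorem zt_contAt (hb : b.Rl) (hz : |z.im| < T.bb) : ContinuousAt (b.zt c) z := by
  obtain ⟨M, hM⟩ : ∃ M, M = |z.re| + 1 + Real.log T.M1 := ⟨_, rfl⟩
  have hr : ContinuousAt b.ph z := (hasDerivAt_ph (near_mem0 hz.le)).continuousAt
  have hE := Real.exp_pos (-M)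
  rw [Metric.continuousAt_iff'] at hr ⊢
  intro ε hε
  have h1 := hr (ε * (Real.exp (-M) / 32)) (by positivity)
  have h3 : ∀ᶠ w in 𝓝 z, |w.re| < |z.re| + 1 :=
    (continuous_abs.comp Complex.continuous_re).continuousAt.eventually_lt continuousAt_const
      (by simp only [Function.comp_apply]; linarith)
  filter_upwards [h1, ev_im hz, h3] with w hw1 hw2 hw3
  have e1 := re_zt_le (c := c) hb hw2.le
  have e2 := re_zt_le (c := c) hb hz.le
  have h4 := ph_sep (c := c) (zt_mem0 (c := c) hb hw2.le) (zt_mem0 (c := c) hb hz.le) (M := M)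
    (by rw [hM]; linarith) (by rw [hM]; linarith)
  rw [zt_eq hb hw2.le, zt_eq hb hz.le, ← dist_eq_norm, ← dist_eq_norm] at h4
  have h5 : dist (b.zt c w) (b.zt c z) * (Real.exp (-M) / 32) < ε * (Real.exp (-M) / 32) :=
    h4.trans_lt hw1
  exact lt_of_mul_lt_mul_right h5 (by positivity)

/-- **the derivative** -/
theorem hasDerivAt_zt (hb : b.Rl) (hz : |z.im| < T.bb) :
    HasDerivAt (b.zt c) (b.rh z / c.rh (b.zt c z)) z := by
  have h1 := deriv_of_comp (𝕜 := ℂ) (S := univ) (hasDerivAt_ph (c := c) (zt_mem0 hb hz.le))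
    (rh_ne (zt_mem0 hb hz.le)) (zt_contAt hb hz).continuousWithinAt (zt_eq hb hz.le)
    (R := b.ph) (hasDerivAt_ph (near_mem0 hz.le)).hasDerivWithinAt (by
      rw [nhdsWithin_univ]
      filter_upwards [ev_im hz] with w hw
      exact zt_eq hb hw.le)
  exact hasDerivWithinAt_univ.1 h1

/-- bounds of the derivative -/
theorem dz_up (hb : b.Rl) (hz : |z.im| ≤ T.bb) :
    ‖b.rh z / c.rh (b.zt c z)‖ ≤ 32 * cU (T.e0 / 2) * T.M1 := by
  have h1 := rh_up (c := b) e2_pos e2_pi (near_mem hz)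
  have h2 := (rh_low (c := c) (zt_mem0 (c := c) hb hz)).trans (Complex.re_le_norm _)
  have h3 := cmp1 (c := c) hb hz
  have hE := Real.exp_pos (-|(b.zt c z).re|)
  have hU := cU_ge e2_pos (e2_pi (T := T))
  have hM := M1_ge (T := T)
  rw [norm_div, div_le_iff₀ (lt_of_lt_of_le (by positivity) h2)]
  calc ‖b.rh z‖ ≤ cU (T.e0 / 2) * Real.exp (-|z.re|) := h1
    _ ≤ cU (T.e0 / 2) * (T.M1 * Real.exp (-|(b.zt c z).re|)) := by gcongr
    _ = 32 * cU (T.e0 / 2) * T.M1 * (Real.exp (-|(b.zt c z).re|) / 32) := by ring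
    _ ≤ _ := by gcongr

theorem dz_low (hb : b.Rl) (hz : |z.im| ≤ T.bb) :
    1 / (32 * cU (T.e0 / 2) * T.M1) ≤ ‖b.rh z / c.rh (b.zt c z)‖ := by
  have h1 := rh_up (c := c) e2_pos e2_pi (zt_mem (c := c) hb hz)
  have h2 := (rh_low (c := b) (near_mem0 hz)).trans (Complex.re_le_norm _)
  have h3 := cmp2 (c := c) hb hz
  have h4 := (rh_low (c := c) (zt_mem0 (c := c) hb hz)).trans (Complex.re_le_norm _)
  have hE := Real.exp_pos (-|z.re|)
  have hE' := Real.exp_pos (-|(b.zt c z).re|)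
  have hU := cU_ge e2_pos (e2_pi (T := T))
  have hM := M1_ge (T := T)
  rw [norm_div, le_div_iff₀ (lt_of_lt_of_le (by positivity) h4), div_mul_eq_mul_div, one_mul,
    div_le_iff₀ (by positivity)]
  calc ‖c.rh (b.zt c z)‖ ≤ cU (T.e0 / 2) * Real.exp (-|(b.zt c z).re|) := h1
    _ ≤ cU (T.e0 / 2) * (T.M1 * Real.exp (-|z.re|)) := by gcongr
    _ = Real.exp (-|z.re|) / 32 * (32 * cU (T.e0 / 2) * T.M1) := by ring
    _ ≤ _ := by gcongr

/-- **Lipschitz in the content, uniformly** -/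
theorem zt_lip (hb : b.Rl) (c c' : Pm T) (hz : |z.im| ≤ T.bb) :
    ‖b.zt c z - b.zt c' z‖ ≤ 32 * T.M1 ^ 2 * (cT (T.e0 / 2) + cU (T.e0 / 2)) * dst c c' := by
  have hM := M1_ge (T := T)
  have hMp : 0 < T.M1 := by linarith
  have e1 := re_zt_le (c := c) hb hz
  have e2 := re_zt_le (c := c') hb hz
  have h1 := ph_sep (c := c) (zt_mem0 (c := c) hb hz) (zt_mem0 (c := c') hb hz) e1 e2
  have h2 : c.ph (b.zt c z) - c.ph (b.zt c' z) = c'.ph (b.zt c' z) - c.ph (b.zt c' z) := by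
    rw [zt_eq hb hz, zt_eq hb hz]
  have h3 := ph_lip e2_pos e2_pi c' c (zt_mem (c := c') hb hz)
  have h4 := cmp2 (c := c') hb hz
  rw [h2] at h1
  have hE := Real.exp_pos (-|z.re|)
  have h5 : Real.exp (-(|z.re| + Real.log T.M1)) = Real.exp (-|z.re|) / T.M1 := by
    rw [neg_add, Real.exp_add, Real.exp_neg (Real.log T.M1), Real.exp_log hMp]
    rfl
  rw [h5] at h1
  have hcT := cT_ge e2_pos (e2_pi (T := T))
  have hcU := cU_ge e2_pos (e2_pi (T := T))
  have hd := dst_nonneg c' c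
  have h7 : ‖b.zt c z - b.zt c' z‖ * (Real.exp (-|z.re|) / T.M1 / 32) ≤
      (cT (T.e0 / 2) + cU (T.e0 / 2)) * (T.M1 * Real.exp (-|z.re|)) * dst c' c :=
    h1.trans (h3.trans (by gcongr))
  have h8 : (cT (T.e0 / 2) + cU (T.e0 / 2)) * (T.M1 * Real.exp (-|z.re|)) * dst c' c =
      (32 * T.M1 ^ 2 * (cT (T.e0 / 2) + cU (T.e0 / 2)) * dst c' c) * (Real.exp (-|z.re|) / T.M1 / 32) := by
    field_simp
  rw [h8] at h7
  rw [dst_comm c c']
  exact le_of_mul_le_mul_right h7 (by positivity)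

end Pm

end

end ISTZ
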